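import Pool.Agent.Lib.MP_119ee3_al.Basic

set_option autoImplicit false

/-!
# MP_119ee3_al: Characters of ZMod r.
-/

open Classical

noncomputable section

namespace GIM119

open MG

variable {r n : ℕ} [NeZero r]

omit [NeZero r] in
theorem Chars_pow_mod {u : ℂ} (hu : u ^ r = 1) (k : ℕ) : u ^ (k % r) = u ^ k := by
  conv_rhs => rw [← Nat.div_add_mod k r, pow_add, pow_mul, hu, one_pow, one_mul]

omit [NeZero r] in
theorem Chars_neg_pow (hr : 2 ∣ r) : (-1 : ℂ) ^ r = 1 :=
  Even.neg_one_pow (even_iff_two_dvd.mpr hr)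

omit [NeZero r] in
theorem Chars_I_pow (hr : 4 ∣ r) : Complex.I ^ r = 1 := by
  obtain ⟨m, rfl⟩ := hr
  rw [pow_mul, Complex.I_pow_four, one_pow]

theorem Chars_exp_pow : Complex.exp (2 * Real.pi * Complex.I / r) ^ r = 1 := by
  rw [← Complex.exp_nat_mul]
  have h : (r : ℂ) ≠ 0 := Nat.cast_ne_zero.mpr (NeZero.ne r)
  have h2 : (r : ℂ) * (2 * Real.pi * Complex.I / r) = 2 * Real.pi * Complex.I := by
    field_simp
  rw [h2, Complex.exp_two_pi_mul_I]

theorem sg_add (hr : 2 ∣ r) (x y : ZMod r) : sg (x + y) = sg x * sg y := by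
  unfold sg
  rw [ZMod.val_add, Chars_pow_mod (Chars_neg_pow hr), pow_add]

theorem sg_natCast (hr : 2 ∣ r) (k : ℕ) : sg (k : ZMod r) = (-1) ^ k := by
  unfold sg
  rw [ZMod.val_natCast, Chars_pow_mod (Chars_neg_pow hr)]

theorem sg_zero : sg (0 : ZMod r) = 1 := by
  simp [sg]

theorem sg_one (hr : 2 ∣ r) : sg (1 : ZMod r) = -1 := by
  simpa using sg_natCast hr 1

theorem sg_cases (x : ZMod r) : sg x = 1 ∨ sg x = -1 := by
  exact neg_one_pow_eq_or ℂ x.val

theorem sg_mul_self (x : ZMod r) : sg x * sg x = 1 := by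
  rcases sg_cases x with h | h <;> rw [h] <;> norm_num

theorem sg_neg (hr : 2 ∣ r) (x : ZMod r) : sg (-x) = sg x := by
  have h := sg_add hr (-x) x
  rw [neg_add_cancel, sg_zero] at h
  rcases sg_cases x with h1 | h1
  · rw [h1] at h ⊢
    linear_combination -h
  · rw [h1] at h ⊢
    linear_combination h


theorem sg_two_mul (hr : 2 ∣ r) (x : ZMod r) : sg (2 * x) = 1 := by
  rw [two_mul, sg_add hr, sg_mul_self]

theorem sg_eq_one_iff (hr : 2 ∣ r) (x : ZMod r) : sg x = 1 ↔ ∃ y, x = 2 * y := by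
  constructor
  · intro h
    have hev : Even x.val := by
      by_contra hodd
      rw [Nat.not_even_iff_odd] at hodd
      unfold sg at h
      rw [Odd.neg_one_pow hodd] at h
      norm_num at h
    obtain ⟨m, hm⟩ := hev
    refine ⟨(m : ZMod r), ?_⟩
    calc x = (x.val : ZMod r) := (ZMod.natCast_zmod_val x).symm
      _ = 2 * (m : ZMod r) := by rw [hm]; push_cast; ring
  · rintro ⟨y, rfl⟩
    exact sg_two_mul hr y

theorem sg_sum (hr : 2 ∣ r) {ι : Type*} (s : Finset ι) (f : ι → ZMod r) :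
    sg (∑ i ∈ s, f i) = ∏ i ∈ s, sg (f i) := by
  induction s using Finset.induction_on with
  | empty => simp [sg_zero]
  | insert a s ha ih => rw [Finset.sum_insert ha, Finset.prod_insert ha, sg_add hr, ih]

theorem sg_hf (hr : 2 ∣ r) : sg (hf r) = (-1) ^ (r / 2) := sg_natCast hr _

theorem hf_add_hf (hr : 2 ∣ r) : hf r + hf r = 0 := by
  unfold hf
  rw [← Nat.cast_add, ZMod.natCast_eq_zero_iff]
  obtain ⟨m, rfl⟩ := hr
  have : 2 * m / 2 = m := by omega
  rw [this, two_mul]

theorem neg_hf (hr : 2 ∣ r) : -hf r = hf r :=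
  neg_eq_of_add_eq_zero_left (hf_add_hf hr)

theorem hf_ne_zero (hr : 2 ∣ r) : hf r ≠ 0 := by
  unfold hf
  intro h
  rw [ZMod.natCast_eq_zero_iff] at h
  have hr0 : r ≠ 0 := NeZero.ne r
  have h1 : 0 < r / 2 := by
    obtain ⟨m, rfl⟩ := hr
    omega
  have h2 := Nat.le_of_dvd h1 h
  omega

theorem two_mul_eq_zero_iff (hr : 2 ∣ r) (x : ZMod r) : 2 * x = 0 ↔ x = 0 ∨ x = hf r := by
  constructor
  · intro h
    have hx : x = (x.val : ZMod r) := (ZMod.natCast_zmod_val x).symm
    have hlt : x.val < r := ZMod.val_lt x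
    have h2 : ((2 * x.val : ℕ) : ZMod r) = 0 := by
      rw [Nat.cast_mul, ← hx]
      exact_mod_cast h
    rw [ZMod.natCast_eq_zero_iff] at h2
    obtain ⟨m, hm⟩ := h2
    have hm2 : m < 2 := by
      by_contra hcon
      push Not at hcon
      have : r * 2 ≤ r * m := Nat.mul_le_mul_left r hcon
      omega
    interval_cases m
    · left
      rw [hx]
      have : x.val = 0 := by omega
      rw [this, Nat.cast_zero]
    · right
      unfold hf
      have : x.val = r / 2 := by omega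
      rw [← this]
      exact hx
  · rintro (rfl | rfl)
    · simp
    · rw [two_mul, hf_add_hf hr]

theorem im_add (hr : 4 ∣ r) (x y : ZMod r) : im (x + y) = im x * im y := by
  unfold im
  rw [ZMod.val_add, Chars_pow_mod (Chars_I_pow hr), pow_add]

theorem im_natCast (hr : 4 ∣ r) (k : ℕ) : im (k : ZMod r) = Complex.I ^ k := by
  unfold im
  rw [ZMod.val_natCast, Chars_pow_mod (Chars_I_pow hr)]

theorem im_zero : im (0 : ZMod r) = 1 := by
  simp [im]

theorem im_mul_self (x : ZMod r) : im x * im x = sg x := by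
  unfold im sg
  rw [← mul_pow, Complex.I_mul_I]

theorem im_two_mul (hr : 4 ∣ r) (x : ZMod r) : im (2 * x) = sg x := by
  rw [two_mul, im_add hr, im_mul_self]

theorem im_hf (hr : 4 ∣ r) : im (hf r) = (-1) ^ (r / 4) := by
  unfold hf
  rw [im_natCast hr]
  have : r / 2 = 2 * (r / 4) := by omega
  rw [this, pow_mul, Complex.I_sq]

theorem im_ne_zero (x : ZMod r) : im x ≠ 0 := pow_ne_zero _ Complex.I_ne_zero

theorem im_sum (hr : 4 ∣ r) {ι : Type*} (s : Finset ι) (f : ι → ZMod r) :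
    im (∑ i ∈ s, f i) = ∏ i ∈ s, im (f i) := by
  induction s using Finset.induction_on with
  | empty => simp [im_zero]
  | insert a s ha ih => rw [Finset.sum_insert ha, Finset.prod_insert ha, im_add hr, ih]

theorem ze_add (x y : ZMod r) : ze (x + y) = ze x * ze y := by
  unfold ze
  rw [ZMod.val_add, Chars_pow_mod Chars_exp_pow, pow_add]

theorem ze_zero : ze (0 : ZMod r) = 1 := by
  simp [ze]

theorem ze_ne_zero (x : ZMod r) : ze x ≠ 0 := pow_ne_zero _ (Complex.exp_ne_zero _)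

theorem ze_hf (hr : 2 ∣ r) : ze (hf r) = -1 := by
  unfold ze hf
  rw [ZMod.val_natCast, Chars_pow_mod Chars_exp_pow, ← Complex.exp_nat_mul]
  have h : (r : ℂ) ≠ 0 := Nat.cast_ne_zero.mpr (NeZero.ne r)
  have h1 : ((r / 2 : ℕ) : ℂ) = (r : ℂ) / 2 := by
    rw [Nat.cast_div hr (by norm_num)]
    norm_num
  have h2 : ((r / 2 : ℕ) : ℂ) * (2 * Real.pi * Complex.I / r) = Real.pi * Complex.I := by
    rw [h1]
    field_simp
  rw [h2, Complex.exp_pi_mul_I]

theorem ze_natCast_mul (k : ℕ) (x : ZMod r) : ze ((k : ZMod r) * x) = ze x ^ k := by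
  induction k with
  | zero => simp [ze_zero]
  | succ k ih => rw [Nat.cast_succ, add_mul, one_mul, ze_add, ih, pow_succ]

end GIM119
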