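import Pool.Agent.Lib.MP_119ee3_al.Basic
import Pool.Agent.Lib.MP_119ee3_al.Chars

set_option autoImplicit false

/-!
# MP_119ee3_al: Generalized involutions modulo scalars.
-/

open Classical

noncomputable section

namespace GIM119

open MG

variable {r n : ℕ} [NeZero r]

theorem GI_iff [NeZero n] {q : ℕ} (hq : Even q) (hqr : q ∣ r) (ω : MG r n) :
    ω * tau r n ω ∈ Cq r q n ↔ TSym 0 ω ∨ TSym (hf r) ω := by
  have hr : 2 ∣ r := (even_iff_two_dvd.1 hq).trans hqr
  constructor
  · rintro ⟨k, hk⟩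
    have hT := (TSym_iff _ ω).2 hk
    have h2 : 2 * (((r / q : ℕ) : ZMod r) * k) = 0 := by
      have h3 := hT.2 (ω.perm 0)
      rw [hT.1 0, hT.2 0] at h3
      have h4 : ω.col 0 + 2 * (((r / q : ℕ) : ZMod r) * k) = ω.col 0 + 0 := by
        rw [add_zero]
        conv_rhs => rw [h3]
        ring
      exact add_left_cancel h4
    rcases (two_mul_eq_zero_iff hr _).1 h2 with h | h
    · left
      rwa [h] at hT
    · right
      rwa [h] at hT
  · rintro (h | h)
    · rw [(TSym_iff _ ω).1 h, scal_zero]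
      exact one_mem _
    · rw [(TSym_iff _ ω).1 h]
      refine ⟨((q / 2 : ℕ) : ZMod r), ?_⟩
      congr 1
      rw [hf, ← Nat.cast_mul]
      congr 1
      obtain ⟨t, rfl⟩ := hqr
      obtain ⟨m, rfl⟩ := hq
      rcases Nat.eq_zero_or_pos m with h0 | h0
      · subst h0
        simp
      · have e1 : (m + m) * t / (m + m) = t := Nat.mul_div_cancel_left _ (by omega)
        have e2 : (m + m) / 2 = m := by omega
        have e3 : (m + m) * t / 2 = t * m := by
          have : (m + m) * t = 2 * (t * m) := by ring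
          omega
        rw [e1, e2, e3]

theorem scal_mem_Cq {q : ℕ} (hqr : q ∣ r) (j : ℕ) :
    scal n (((r / q * j : ℕ) : ZMod r)) ∈ Cq r q n :=
  ⟨(j : ZMod r), by rw [Nat.cast_mul]⟩

theorem mem_Cq_iff_exists {q : ℕ} (hq : 0 < q) (hqr : q ∣ r) (g : MG r n) :
    g ∈ Cq r q n ↔ ∃ j < q, g = scal n (((r / q * j : ℕ) : ZMod r)) := by
  constructor
  · rintro ⟨k, rfl⟩
    refine ⟨k.val % q, Nat.mod_lt _ hq, ?_⟩
    congr 1
    have h1 : (k : ZMod r) = ((k.val : ℕ) : ZMod r) := (ZMod.natCast_zmod_val k).symm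
    conv_lhs => rw [h1]
    rw [← Nat.cast_mul, ZMod.natCast_eq_natCast_iff]
    have hrq : r / q * q = r := Nat.div_mul_cancel hqr
    have h2 := Nat.ModEq.mul_left' (r / q) (Nat.mod_modEq k.val q).symm
    rw [hrq] at h2
    exact h2
  · rintro ⟨j, -, rfl⟩
    exact scal_mem_Cq hqr j

end GIM119
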