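import Pool.Agent.Lib.MP_119ee3_al.Basic
import Pool.Agent.Lib.MP_119ee3_al.GI

set_option autoImplicit false

/-!
# MP_119ee3_al: Descent to a quotient by a central element of order two.
-/

open Classical

noncomputable section

namespace GIM119

open MG

variable {r n : ℕ} [NeZero r]

omit [NeZero r] in
theorem Descent_half {q : ℕ} (hq : 0 < q) (hqr : 2 * q ∣ r) :
    ((r / q : ℕ) : ZMod r) = 2 * ((r / (2 * q) : ℕ) : ZMod r) := by
  obtain ⟨m, rfl⟩ := hqr
  have h1 : 2 * q * m / q = 2 * m := by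
    rw [mul_comm 2 q, mul_assoc, Nat.mul_div_cancel_left _ hq]
  have h2 : 2 * q * m / (2 * q) = m := Nat.mul_div_cancel_left _ (by omega)
  rw [h1, h2]
  push_cast
  ring

omit [NeZero r] in
theorem Descent_le {q : ℕ} (hq : 0 < q) (hqr : 2 * q ∣ r) {g : MG r n} (hg : g ∈ Cq r q n) :
    g ∈ Cq r (2 * q) n := by
  obtain ⟨k, rfl⟩ := hg
  refine ⟨2 * k, ?_⟩
  rw [Descent_half hq hqr]
  congr 1
  ring

theorem Descent_cases {q : ℕ} (hq : 0 < q) (hqr : 2 * q ∣ r) {g : MG r n}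
    (hg : g ∈ Cq r (2 * q) n) :
    g ∈ Cq r q n ∨ ∃ z ∈ Cq r q n, g = scal n ((r / (2 * q) : ℕ) : ZMod r) * z := by
  obtain ⟨k, rfl⟩ := hg
  obtain ⟨m, hm | hm⟩ := Nat.even_or_odd' k.val
  · left
    refine ⟨m, ?_⟩
    rw [Descent_half hq hqr]
    congr 1
    have : k = ((2 * m : ℕ) : ZMod r) := by rw [← hm]; simp
    rw [this]
    push_cast
    ring
  · right
    refine ⟨_, ⟨m, rfl⟩, ?_⟩
    rw [Descent_half hq hqr, ← scal_add]
    congr 1
    have : k = ((2 * m + 1 : ℕ) : ZMod r) := by rw [← hm]; simp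
    rw [this]
    push_cast
    ring

omit [NeZero r] in
theorem Descent_sq {q : ℕ} (hq : 0 < q) (hqr : 2 * q ∣ r) :
    scal n ((r / (2 * q) : ℕ) : ZMod r) * scal n ((r / (2 * q) : ℕ) : ZMod r) ∈ Cq r q n := by
  refine ⟨1, ?_⟩
  rw [Descent_half hq hqr, ← scal_add]
  congr 1
  ring

omit [NeZero r] in
theorem Descent_scal_mem (hn : Even n) (e : ZMod r) : scal n e ∈ Gp r 2 n := by
  obtain ⟨m, hm⟩ := hn
  refine ⟨m * e, ?_⟩
  rw [cs_scal, hm]
  push_cast
  ring

omit [NeZero r] in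
theorem Descent_tau_scal (e : ZMod r) : tau r n (scal n e) = (scal n e)⁻¹ := by
  rw [scal_inv]
  ext i <;> simp

omit [NeZero r] in
theorem Descent_gi (e : ZMod r) (ω : MG r n) :
    (scal n e * ω) * tau r n (scal n e * ω) = ω * tau r n ω := by
  rw [map_mul, Descent_tau_scal, scal_comm e ω]
  group

omit [NeZero r] in
theorem Descent_tw (e : ZMod r) (g ω : MG r n) :
    g * (scal n e * ω) * (tau r n g)⁻¹ * (scal n e * ω)⁻¹ = g * ω * (tau r n g)⁻¹ * ω⁻¹ := by
  have h : g * (scal n e * ω) * (tau r n g)⁻¹ = scal n e * (g * ω * (tau r n g)⁻¹) := by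
    rw [← mul_assoc g, ← scal_comm e g]
    simp only [mul_assoc]
  rw [h, mul_inv_rev, scal_comm e (g * ω * (tau r n g)⁻¹), scal_inv, ← mul_assoc,
    mul_assoc _ (scal n e) ω⁻¹, scal_comm e ω⁻¹, ← scal_inv]
  group

omit [NeZero r] in
theorem Descent_tw' (e : ZMod r) (g ω : MG r n) :
    (scal n e * g) * ω * (tau r n (scal n e * g))⁻¹ * ω⁻¹ =
      (scal n e * scal n e) * (g * ω * (tau r n g)⁻¹ * ω⁻¹) := by
  rw [map_mul, Descent_tau_scal, mul_inv_rev, inv_inv]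
  have h : scal n e * g * ω * ((tau r n g)⁻¹ * scal n e) * ω⁻¹ =
      scal n e * (g * ω * (tau r n g)⁻¹ * (scal n e * ω⁻¹)) := by
    simp only [mul_assoc]
  rw [h, scal_comm e ω⁻¹, ← mul_assoc (g * ω * (tau r n g)⁻¹), ← scal_comm e, ← mul_assoc]

theorem ALG_descent [NeZero n] {q : ℕ} {l : MG r n → MG r n → ℂ} (hl : ALG r 2 q n l) (hn : Even n)
    (hq : 0 < q) (hqr : 2 * q ∣ r)
    (h1 : ∀ ω, ω ∈ Gp r 2 n → ω * tau r n ω ∈ Cq r (2 * q) n → ω * tau r n ω ∈ Cq r q n)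
    (h2 : ∀ ω g, ω ∈ Gp r 2 n → g ∈ Gp r 2 n → ω * tau r n ω ∈ Cq r q n →
      g * ω * (tau r n g)⁻¹ * ω⁻¹ ∈ Cq r (2 * q) n → g * ω * (tau r n g)⁻¹ * ω⁻¹ ∈ Cq r q n)
    (h3 : ∀ ω, ω ∈ Gp r 2 n → ω * tau r n ω ∈ Cq r q n →
      (l (scal n ((r / (2 * q) : ℕ) : ZMod r)) ω = 1 ∨
        l (scal n ((r / (2 * q) : ℕ) : ZMod r)) ω = -1) ∧
      l (scal n ((r / (2 * q) : ℕ) : ZMod r)) (scal n ((r / (2 * q) : ℕ) : ZMod r) * ω)
        = - l (scal n ((r / (2 * q) : ℕ) : ZMod r)) ω) :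
    ∃ l' : MG r n → MG r n → ℂ, ALG r 2 (2 * q) n l' := by
  set e0 : ZMod r := ((r / (2 * q) : ℕ) : ZMod r) with he0
  have hz0 : scal n e0 ∈ Gp r 2 n := Descent_scal_mem hn e0
  have hsq : scal n e0 * scal n e0 ∈ Cq r q n := Descent_sq hq hqr
  have ne1 : ¬ (-1 : ℂ) = 1 := by norm_num
  -- the twist condition for scalars
  have htz : ∀ ω : MG r n, scal n e0 * ω * (tau r n (scal n e0))⁻¹ * ω⁻¹ ∈ Cq r q n := by
    intro ω
    have := Descent_tw' e0 1 ω
    rw [mul_one] at this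
    rw [this]
    have h : (1 : MG r n) * ω * (tau r n 1)⁻¹ * ω⁻¹ = 1 := by
      rw [map_one]
      group
    rw [h, mul_one]
    exact hsq
  have htc : ∀ ω z : MG r n, z ∈ Cq r q n → z * ω * (tau r n z)⁻¹ * ω⁻¹ ∈ Cq r q n := by
    intro ω z hz
    rw [tau_mem_Cq hz, inv_inv]
    have : z * ω * z * ω⁻¹ = z * z := by
      rw [mul_assoc (z * ω) z, Cq_comm hz ω⁻¹]
      group
    rw [this]
    exact mul_mem hz hz
  have hzG : ∀ z : MG r n, z ∈ Cq r q n → z ∈ Gp r 2 n := by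
    rintro z ⟨k, rfl⟩
    exact Descent_scal_mem hn _
  -- branch facts
  have hsh : ∀ ω, ω ∈ Gp r 2 n → ω * tau r n ω ∈ Cq r q n →
      scal n e0 * ω ∈ Gp r 2 n ∧ (scal n e0 * ω) * tau r n (scal n e0 * ω) ∈ Cq r q n :=
    fun ω hω1 hω2 => ⟨mul_mem hz0 hω1, by rw [Descent_gi]; exact hω2⟩
  refine ⟨fun g ω => if l (scal n e0) ω = 1 then l g ω else l g (scal n e0 * ω), ?_⟩
  constructor
  · -- mul
    intro ω g h hω hg hh hω2 hg2 hh2
    have hω2' := h1 ω hω hω2
    have hg2' := h2 ω g hω hg hω2' hg2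
    have hh2' := h2 ω h hω hh hω2' hh2
    obtain ⟨s1, s2⟩ := hsh ω hω hω2'
    by_cases hb : l (scal n e0) ω = 1
    · simp only [if_pos hb]
      exact hl.mul ω g h hω hg hh hω2' hg2' hh2'
    · simp only [if_neg hb]
      exact hl.mul (scal n e0 * ω) g h s1 hg hh s2 (by rw [Descent_tw]; exact hg2')
        (by rw [Descent_tw]; exact hh2')
  · -- cen
    intro ω z hω hω2 hz
    have hω2' := h1 ω hω hω2
    obtain ⟨s1, s2⟩ := hsh ω hω hω2'
    rcases Descent_cases hq hqr hz with hz' | ⟨z1, hz1, rfl⟩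
    · by_cases hb : l (scal n e0) ω = 1
      · simp only [if_pos hb]
        exact hl.cen ω z hω hω2' hz'
      · simp only [if_neg hb]
        exact hl.cen _ z s1 s2 hz'
    · rw [← he0]
      by_cases hb : l (scal n e0) ω = 1
      · simp only [if_pos hb]
        rw [hl.mul ω _ _ hω hz0 (hzG _ hz1) hω2' (htz ω) (htc ω z1 hz1), hb,
          hl.cen ω z1 hω hω2' hz1, one_mul]
      · simp only [if_neg hb]
        rw [hl.mul _ _ _ s1 hz0 (hzG _ hz1) s2 (htz _) (htc _ z1 hz1),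
          hl.cen _ z1 s1 s2 hz1, (h3 ω hω hω2').2, ((h3 ω hω hω2').1).resolve_left hb]
        norm_num
  · -- shift
    have hC : ∀ ω g z, ω ∈ Gp r 2 n → g ∈ Gp r 2 n → ω * tau r n ω ∈ Cq r q n →
        g * ω * (tau r n g)⁻¹ * ω⁻¹ ∈ Cq r q n → z ∈ Cq r q n →
        (if l (scal n e0) (z * ω) = 1 then l g (z * ω) else l g (scal n e0 * (z * ω))) =
          if l (scal n e0) ω = 1 then l g ω else l g (scal n e0 * ω) := by
      intro ω g z hω hg hω2 hg2 hz
      obtain ⟨s1, s2⟩ := hsh ω hω hω2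
      rw [hl.shift ω (scal n e0) z hω hz0 hω2 (htz ω) hz, hl.shift ω g z hω hg hω2 hg2 hz,
        ← mul_assoc, ← Cq_comm hz, mul_assoc,
        hl.shift (scal n e0 * ω) g z s1 hg s2 (by rw [Descent_tw]; exact hg2) hz]
    intro ω g z hω hg hω2 hg2 hz
    have hω2' := h1 ω hω hω2
    have hg2' := h2 ω g hω hg hω2' hg2
    obtain ⟨s1, s2⟩ := hsh ω hω hω2'
    rcases Descent_cases hq hqr hz with hz' | ⟨z1, hz1, rfl⟩
    · exact hC ω g z hω hg hω2' hg2' hz'
    · rw [← he0, mul_assoc, ← mul_assoc, ← Cq_comm hz1, mul_assoc]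
      refine (hC (scal n e0 * ω) g z1 s1 hg s2 (by rw [Descent_tw]; exact hg2') hz1).trans ?_
      rw [(h3 ω hω hω2').2]
      rcases (h3 ω hω hω2').1 with hb | hb
      · rw [hb, if_neg ne1, if_pos rfl, ← mul_assoc,
          hl.shift ω g _ hω hg hω2' hg2' hsq]
      · rw [hb, neg_neg, if_pos rfl, if_neg ne1]
  · -- conj
    intro ω g k hω hg hk hω2 hg2
    have hω2' := h1 ω hω hω2
    have hg2' := h2 ω g hω hg hω2' hg2
    obtain ⟨s1, s2⟩ := hsh ω hω hω2'
    have e1 : l (scal n e0) (k * ω * (tau r n k)⁻¹) = l (scal n e0) ω := by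
      have := hl.conj ω (scal n e0) k hω hz0 hk hω2' (htz ω)
      rwa [← scal_comm e0 k, mul_inv_cancel_right] at this
    have e2 : scal n e0 * (k * ω * (tau r n k)⁻¹) = k * (scal n e0 * ω) * (tau r n k)⁻¹ := by
      rw [← mul_assoc k, ← scal_comm e0 k]
      simp only [mul_assoc]
    simp only [e1, e2]
    rw [hl.conj ω g k hω hg hk hω2' hg2',
      hl.conj (scal n e0 * ω) g k s1 hg hk s2 (by rw [Descent_tw]; exact hg2')]
  · -- sum
    intro g hg
    have hzg : scal n e0 * g ∈ Gp r 2 n := mul_mem hz0 hg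
    -- the index sets
    set S : Finset (MG r n) := Finset.univ.filter fun ω => ω ∈ Gp r 2 n ∧
      ω * tau r n ω ∈ Cq r q n ∧ g * ω * (tau r n g)⁻¹ * ω⁻¹ ∈ Cq r q n with hS
    have hS2 : (Finset.univ.filter fun ω : MG r n => ω ∈ Gp r 2 n ∧
        ω * tau r n ω ∈ Cq r (2 * q) n ∧ g * ω * (tau r n g)⁻¹ * ω⁻¹ ∈ Cq r (2 * q) n) = S := by
      refine Finset.filter_congr fun ω _ => ⟨fun ⟨a, b, c⟩ => ?_, fun ⟨a, b, c⟩ => ?_⟩
      · exact ⟨a, h1 ω a b, h2 ω g a hg (h1 ω a b) c⟩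
      · exact ⟨a, Descent_le hq hqr b, Descent_le hq hqr c⟩
    have hS3 : (Finset.univ.filter fun ω : MG r n => ω ∈ Gp r 2 n ∧
        ω * tau r n ω ∈ Cq r q n ∧
        (scal n e0 * g) * ω * (tau r n (scal n e0 * g))⁻¹ * ω⁻¹ ∈ Cq r q n) = S := by
      refine Finset.filter_congr fun ω _ => ?_
      rw [Descent_tw', Subgroup.mul_mem_cancel_left _ hsq]
    have hmem : ∀ ω, ω ∈ S ↔ ω ∈ Gp r 2 n ∧
      ω * tau r n ω ∈ Cq r q n ∧ g * ω * (tau r n g)⁻¹ * ω⁻¹ ∈ Cq r q n := by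
      intro ω
      rw [hS, Finset.mem_filter]
      exact ⟨fun h => h.2, fun h => ⟨Finset.mem_univ _, h⟩⟩
    rw [hS2]
    have hg1 := hl.sum g hg
    have hg2 := hl.sum (scal n e0 * g) hzg
    rw [← hS] at hg1
    rw [hS3] at hg2
    have hmul : ∀ ω ∈ S, l (scal n e0 * g) ω = l (scal n e0) ω * l g ω := by
      intro ω hω
      obtain ⟨a, b, c⟩ := (hmem ω).1 hω
      exact hl.mul ω _ _ a hz0 hg b (htz ω) c
    -- involution type reindexing
    have hbij : ∑ ω ∈ S with ¬ l (scal n e0) ω = 1, l g (scal n e0 * ω) =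
        ∑ ω ∈ S with l (scal n e0) ω = 1, l g ω := by
      refine Finset.sum_bij (fun ω _ => scal n e0 * ω) ?_ ?_ ?_ ?_
      · intro ω hω
        rw [Finset.mem_filter, hmem] at hω ⊢
        obtain ⟨⟨a, b, c⟩, d⟩ := hω
        refine ⟨⟨(hsh ω a b).1, (hsh ω a b).2, by rw [Descent_tw]; exact c⟩, ?_⟩
        rw [(h3 ω a b).2, ((h3 ω a b).1).resolve_left d]
        norm_num
      · intro ω _ ω' _ h
        exact mul_left_cancel h
      · intro ω' hω'
        rw [Finset.mem_filter, hmem] at hω'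
        obtain ⟨⟨a, b, c⟩, d⟩ := hω'
        have e' : (scal n e0)⁻¹ = scal n (-e0) := scal_inv e0
        have a2 : (scal n e0)⁻¹ * ω' ∈ Gp r 2 n := mul_mem (inv_mem hz0) a
        have b2 : ((scal n e0)⁻¹ * ω') * tau r n ((scal n e0)⁻¹ * ω') ∈ Cq r q n := by
          rw [e', Descent_gi]; exact b
        have c2 : g * ((scal n e0)⁻¹ * ω') * (tau r n g)⁻¹ * ((scal n e0)⁻¹ * ω')⁻¹ ∈
            Cq r q n := by
          rw [e', Descent_tw]; exact c
        refine ⟨(scal n e0)⁻¹ * ω', ?_, by group⟩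
        rw [Finset.mem_filter, hmem]
        refine ⟨⟨a2, b2, c2⟩, ?_⟩
        intro hb
        have := (h3 _ a2 b2).2
        rw [mul_inv_cancel_left, d, hb] at this
        norm_num at this
      · intro ω _
        rfl
    have key : ∑ ω ∈ S, (if l (scal n e0) ω = 1 then l g ω else l g (scal n e0 * ω)) =
        ∑ ω ∈ S, l g ω + ∑ ω ∈ S, l (scal n e0 * g) ω := by
      rw [Finset.sum_ite, hbij, Finset.sum_congr rfl hmul, ← Finset.sum_add_distrib,
        ← Finset.sum_add_distrib]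
      rw [Finset.sum_filter]
      refine Finset.sum_congr rfl fun ω hω => ?_
      obtain ⟨a, b, c⟩ := (hmem ω).1 hω
      rcases (h3 ω a b).1 with hb | hb
      · rw [if_pos hb, hb]
        ring
      · rw [hb, if_neg ne1]
        ring
    rw [key, hg1, hg2]
    -- counting
    have hnot : scal n e0 ∉ Cq r q n := by
      intro hz
      have a1 : (1 : MG r n) ∈ Gp r 2 n := one_mem _
      have b1 : (1 : MG r n) * tau r n 1 ∈ Cq r q n := by
        rw [map_one, one_mul]; exact one_mem _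
      have c1 := hl.cen 1 _ a1 b1 hz
      have c2 := hl.cen _ _ (hsh 1 a1 b1).1 (hsh 1 a1 b1).2 hz
      have := (h3 1 a1 b1).2
      rw [c1, c2] at this
      norm_num at this
    rw [← Nat.cast_add, ← Finset.card_union_of_disjoint]
    · congr 2
      ext h
      simp only [Finset.mem_union, Finset.mem_filter, Finset.mem_univ, true_and]
      have hre : h * tau r n h * (scal n e0 * g)⁻¹ = (scal n e0)⁻¹ * (h * tau r n h * g⁻¹) := by
        rw [mul_inv_rev, ← mul_assoc, scal_inv, scal_comm]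
      rw [hre]
      constructor
      · rintro (⟨a, b⟩ | ⟨a, b⟩)
        · exact ⟨a, Descent_le hq hqr b⟩
        · refine ⟨a, ?_⟩
          have hz : scal n e0 ∈ Cq r (2 * q) n := ⟨1, by rw [mul_one]⟩
          have := mul_mem hz (Descent_le hq hqr b)
          rwa [mul_inv_cancel_left] at this
      · rintro ⟨a, b⟩
        rcases Descent_cases hq hqr b with b' | ⟨z1, hz1, hb⟩
        · exact Or.inl ⟨a, b'⟩
        · refine Or.inr ⟨a, ?_⟩
          rw [hb, ← he0, inv_mul_cancel_left]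
          exact hz1
    · rw [Finset.disjoint_left]
      intro h ha hb
      simp only [Finset.mem_filter, Finset.mem_univ, true_and] at ha hb
      have hre : h * tau r n h * (scal n e0 * g)⁻¹ = (scal n e0)⁻¹ * (h * tau r n h * g⁻¹) := by
        rw [mul_inv_rev, ← mul_assoc, scal_inv, scal_comm]
      have h4 := hb.2
      rw [hre, Subgroup.mul_mem_cancel_right _ ha.2] at h4
      exact hnot (inv_mem_iff.1 h4)

end GIM119
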