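import Pool.Agent.Lib.MP_119ee3_al.Basic
import Pool.Agent.Lib.MP_119ee3_al.Chars

set_option autoImplicit false

/-!
# MP_119ee3_al: The cocycle W1 on symmetric elements.
-/

open Classical

noncomputable section

namespace GIM119

open MG

variable {r n : ℕ} [NeZero r]

omit [NeZero r] in
theorem Cocycle1_prod {s : Fin n → Fin n} (hs : ∀ i, s (s i) = i) (A B : Fin n → ℂ)
    (hfix : ∀ i, s i = i → A i = B i) (hB : ∀ i, s i ≠ i → B i ≠ 0)
    (hpair : ∀ i, s i ≠ i → A i * A (s i) = B i * B (s i)) : ∏ i, A i = ∏ i, B i := by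
  have h1 : ∀ i, A i = B i * (if s i = i then 1 else A i / B i) := by
    intro i
    split_ifs with h
    · rw [mul_one, hfix i h]
    · rw [mul_div_cancel₀ _ (hB i h)]
  have h2 : ∏ i, (if s i = i then (1 : ℂ) else A i / B i) = 1 := by
    refine Finset.prod_involution (fun i _ => s i) ?_ ?_ (fun i _ => Finset.mem_univ _)
      (fun i _ => hs i)
    · intro i _
      by_cases h : s i = i
      · simp [h]
      · have h' : ¬ i = s i := fun h2 => h h2.symm
        rw [if_neg h, hs i, if_neg h']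
        have hB1 := hB i h
        have hB2 := hB (s i) (by rw [hs i]; exact h')
        rw [div_mul_div_comm, hpair i h, div_self (mul_ne_zero hB1 hB2)]
    · intro i _ h1 h2
      rw [if_pos h2] at h1
      exact h1 rfl
  calc ∏ i, A i = ∏ i, B i * (if s i = i then 1 else A i / B i) :=
        Finset.prod_congr rfl fun i _ => h1 i
    _ = _ := by rw [Finset.prod_mul_distrib, h2, mul_one]

omit [NeZero r] in
theorem Cocycle1_reindex (φ : Wt r n) (h ω : MG r n) :
    prodW φ (act h ω) = ∏ i, φ (h.perm i) (h.perm (ω.perm i))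
      (h.col i + ω.col i + h.col (ω.perm i))
      ((act h ω).col (h.perm (ω.perm i))) := by
  unfold prodW
  rw [← Equiv.prod_comp h.perm]
  refine Finset.prod_congr rfl fun i _ => ?_
  rw [act_perm_apply, act_col]

omit [NeZero r] in
theorem Cocycle1_flip (g h : MG r n) {i j : Fin n} (hij : i ≠ j) :
    (if i < j ∧ (g * h).perm j < (g * h).perm i then (-1 : ℂ) else 1) *
        (if j < i ∧ (g * h).perm i < (g * h).perm j then (-1 : ℂ) else 1) =
      ((if h.perm i < h.perm j ∧ g.perm (h.perm j) < g.perm (h.perm i) then (-1 : ℂ) else 1) *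
        (if i < j ∧ h.perm j < h.perm i then (-1 : ℂ) else 1)) *
      ((if h.perm j < h.perm i ∧ g.perm (h.perm i) < g.perm (h.perm j) then (-1 : ℂ) else 1) *
        (if j < i ∧ h.perm i < h.perm j then (-1 : ℂ) else 1)) := by
  have h1 : h.perm i ≠ h.perm j := fun e => hij (h.perm.injective e)
  have h2 : g.perm (h.perm i) ≠ g.perm (h.perm j) := fun e => h1 (g.perm.injective e)
  simp only [mul_perm, Equiv.Perm.mul_apply]
  rcases lt_or_gt_of_ne hij with a | a <;> rcases lt_or_gt_of_ne h1 with b | b <;>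
    rcases lt_or_gt_of_ne h2 with c | c <;>
    simp [a, b, c, not_lt_of_gt a, not_lt_of_gt b, not_lt_of_gt c]

theorem W1_mul (hr : 2 ∣ r) {θ : ZMod r → ℂ} (hθ : ∀ x y, θ (x + y) = θ x * θ y)
    (g h : MG r n) {ω : MG r n} (hω : TSym 0 ω) :
    W1 θ (g * h) ω = W1 θ g (act h ω) * W1 θ h ω := by
  unfold W1
  rw [Cocycle1_reindex, prodW, prodW, ← Finset.prod_mul_distrib]
  refine Cocycle1_prod hω.1 _ _ (fun i hi => ?_) (fun i hi => ?_) (fun i hi => ?_)
  · simp only [phi1, hi, if_true, mul_col]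
    have e : h.col i + ω.col i + h.col i = 2 * h.col i + ω.col i := by ring
    rw [e, sg_add hr, sg_two_mul hr, one_mul]
    split_ifs
    · rw [one_mul]
    · rw [hθ, mul_comm]
  · have hi' : h.perm (ω.perm i) ≠ h.perm i := fun e => hi (h.perm.injective e)
    simp only [phi1, if_neg hi, if_neg hi']
    split_ifs <;> norm_num
  · have hi' : h.perm (ω.perm i) ≠ h.perm i := fun e => hi (h.perm.injective e)
    have hi2 : ¬ i = ω.perm i := fun e => hi e.symm
    have hi3 : ¬ h.perm i = h.perm (ω.perm i) := fun e => hi' e.symm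
    simp only [phi1, hω.1 i, if_neg hi, if_neg hi', if_neg hi2, if_neg hi3]
    exact Cocycle1_flip g h hi2

theorem W1_scal_left (hr : 2 ∣ r) (θ : ZMod r → ℂ) (g ω : MG r n) {e : ZMod r} (he : sg e = 1) :
    W1 θ g (scal n e * ω) = W1 θ g ω := by
  unfold W1 prodW
  refine Finset.prod_congr rfl fun i _ => ?_
  rw [scal_mul_perm]
  simp only [phi1, scal_mul_col, sg_add hr, he, mul_one]

omit [NeZero r] in
theorem Cocycle1_prod_ite (c : ℂ) (ω : MG r n) :
    ∏ i, (if ω.perm i = i ∧ sg (ω.col i) = -1 then c else 1) = c ^ k1 ω := by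
  rw [Finset.prod_ite, Finset.prod_const, Finset.prod_const_one, mul_one]
  rfl

omit [NeZero r] in
theorem Cocycle1_ne {x : ZMod r} (h : sg x = -1) : sg x ≠ 1 := by
  rw [h]
  norm_num

theorem W1_mul_scal {θ : ZMod r → ℂ} (hθ : ∀ x y, θ (x + y) = θ x * θ y)
    (g ω : MG r n) (e : ZMod r) :
    W1 θ (g * scal n e) ω = W1 θ g ω * θ e ^ k1 ω := by
  rw [← Cocycle1_prod_ite, W1, W1, prodW, prodW, ← Finset.prod_mul_distrib]
  refine Finset.prod_congr rfl fun i _ => ?_
  have hp : ∀ j, (g * scal n e).perm j = g.perm j := fun j => by simp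
  have hc : (g * scal n e).col i = e + g.col i := by simp
  simp only [phi1, hp, hc]
  by_cases hi : ω.perm i = i
  · rcases sg_cases (ω.col i) with h | h
    · have h' : ¬ (1 : ℂ) = -1 := by norm_num
      simp only [hi, h, h', if_true, and_false, if_false, mul_one]
    · have h' : ¬ (-1 : ℂ) = 1 := by norm_num
      simp only [hi, h, h', if_true, and_true, if_false, hθ]
      ring
  · simp only [hi, false_and, if_false, mul_one]

theorem W1_one (θ : ZMod r → ℂ) (h0 : θ 0 = 1) (ω : MG r n) : W1 θ 1 ω = 1 := by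
  unfold W1 prodW
  refine Finset.prod_eq_one fun i _ => ?_
  simp only [phi1, one_col, h0, one_perm, Equiv.Perm.one_apply]
  have h3 : ¬ (i < ω.perm i ∧ ω.perm i < i) := fun h => absurd h.1 (not_lt_of_gt h.2)
  simp only [h3, if_false]
  split_ifs <;> rfl

theorem k1_act (hr : 2 ∣ r) (g : MG r n) {ω : MG r n} (hω : TSym 0 ω) :
    k1 (act g ω) = k1 ω := by
  unfold k1
  symm
  refine Finset.card_bij (fun i _ => g.perm i) ?_ ?_ ?_
  · intro i hi
    rw [Finset.mem_filter] at hi ⊢
    refine ⟨Finset.mem_univ _, ?_, ?_⟩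
    · rw [act_perm_apply, hi.2.1]
    · rw [act_col, hi.2.1]
      have e : g.col i + ω.col i + g.col i = 2 * g.col i + ω.col i := by ring
      rw [e, sg_add hr, sg_two_mul hr, one_mul]
      exact hi.2.2
  · intro i _ j _ h
    exact g.perm.injective h
  · intro j hj
    obtain ⟨i, rfl⟩ := g.perm.surjective j
    rw [Finset.mem_filter] at hj
    have h1 : ω.perm i = i := by
      have := hj.2.1
      rw [act_perm_apply] at this
      exact g.perm.injective this
    refine ⟨i, ?_, rfl⟩
    rw [Finset.mem_filter]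
    refine ⟨Finset.mem_univ _, h1, ?_⟩
    have h2 := hj.2.2
    rw [act_col, h1] at h2
    have e : g.col i + ω.col i + g.col i = 2 * g.col i + ω.col i := by ring
    rwa [e, sg_add hr, sg_two_mul hr, one_mul] at h2

theorem k1_scal_mul (hr : 2 ∣ r) (ω : MG r n) {e : ZMod r} (he : sg e = 1) :
    k1 (scal n e * ω) = k1 ω := by
  unfold k1
  congr 1
  refine Finset.filter_congr fun i _ => ?_
  rw [scal_mul_perm, scal_mul_col, sg_add hr, he, mul_one]

theorem sg_cs_of_TSym (hr : 2 ∣ r) {ω : MG r n} (hω : TSym 0 ω) :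
    sg (cs ω) = (-1) ^ k1 ω := by
  rw [← Cocycle1_prod_ite, cs, sg_sum hr]
  refine Cocycle1_prod hω.1 _ _ (fun i hi => ?_) (fun i hi => ?_) (fun i hi => ?_)
  · rcases sg_cases (ω.col i) with h | h
    · have h' : ¬ sg (ω.col i) = -1 := by rw [h]; norm_num
      rw [if_neg (fun h2 => h' h2.2), h]
    · rw [if_pos ⟨hi, h⟩, h]
  · rw [if_neg (fun h => hi h.1)]
    exact one_ne_zero
  · have hi2 : ¬ ω.perm (ω.perm i) = ω.perm i := fun e => hi (ω.perm.injective e)
    rw [if_neg (fun h => hi h.1), if_neg (fun h => hi2 h.1), hω.2 i, add_zero, sg_mul_self,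
      one_mul]

end GIM119
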