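import Pool.Agent.Lib.MP_119ee3_al.Basic
import Pool.Agent.Lib.MP_119ee3_al.Chars

set_option autoImplicit false

/-!
# MP_119ee3_al: The cocycle W2 on antisymmetric elements.
-/

open Classical

noncomputable section

namespace GIM119

open MG

variable {r n : ℕ} [NeZero r]

omit [NeZero r] in
theorem Cocycle2_not {s : Fin n → Fin n} (hfix : ∀ i, s i ≠ i) (i : Fin n) :
    ¬ i < s i ↔ s i < i :=
  ⟨fun h => lt_of_le_of_ne (not_lt.1 h) (hfix i), fun h => not_lt.2 h.le⟩

omit [NeZero r] in
theorem Cocycle2_prod {s : Fin n → Fin n} (hinv : ∀ i, s (s i) = i) (hfix : ∀ i, s i ≠ i)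
    (G : Fin n → ℂ) : ∏ i, G i = ∏ i with i < s i, (G i * G (s i)) := by
  rw [Finset.prod_mul_distrib, ← Finset.prod_filter_mul_prod_filter_not Finset.univ
    (fun i => i < s i)]
  congr 1
  symm
  refine Finset.prod_bij (fun i _ => s i) ?_ ?_ ?_ ?_
  · intro i hi
    rw [Finset.mem_filter] at hi ⊢
    refine ⟨Finset.mem_univ _, ?_⟩
    rw [hinv]
    exact not_lt.2 hi.2.le
  · intro i _ j _ h
    have := congrArg s h
    rwa [hinv, hinv] at this
  · intro i hi
    rw [Finset.mem_filter] at hi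
    refine ⟨s i, ?_, hinv i⟩
    rw [Finset.mem_filter]
    refine ⟨Finset.mem_univ _, ?_⟩
    rw [hinv]
    exact (Cocycle2_not hfix i).1 hi.2
  · intro i _
    rfl

omit [NeZero r] in
theorem Cocycle2_card {s : Fin n → Fin n} (hinv : ∀ i, s (s i) = i) (hfix : ∀ i, s i ≠ i) :
    2 * (Finset.univ.filter fun i => i < s i).card = n := by
  have h1 := Finset.card_filter_add_card_filter_not (s := (Finset.univ : Finset (Fin n)))
    (fun i => i < s i)
  rw [Finset.card_univ, Fintype.card_fin] at h1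
  have h2 : (Finset.univ.filter fun i => i < s i).card =
      (Finset.univ.filter fun i => ¬ i < s i).card := by
    refine Finset.card_bij (fun i _ => s i) ?_ ?_ ?_
    · intro i hi
      rw [Finset.mem_filter] at hi ⊢
      refine ⟨Finset.mem_univ _, ?_⟩
      rw [hinv]
      exact not_lt.2 hi.2.le
    · intro i _ j _ h
      have := congrArg s h
      rwa [hinv, hinv] at this
    · intro i hi
      rw [Finset.mem_filter] at hi
      refine ⟨s i, ?_, hinv i⟩
      rw [Finset.mem_filter]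
      refine ⟨Finset.mem_univ _, ?_⟩
      rw [hinv]
      exact (Cocycle2_not hfix i).1 hi.2
  omega

theorem Cocycle2_fix (hr : 2 ∣ r) {ω : MG r n} (hω : TSym (hf r) ω) (i : Fin n) :
    ω.perm i ≠ i := by
  intro h
  have h1 := hω.2 i
  rw [h] at h1
  exact hf_ne_zero hr (by linear_combination -h1)

omit [NeZero r] in
theorem Cocycle2_W2 (κ : ℂ) (g ω : MG r n) : W2 κ g ω = ∏ i with i < ω.perm i,
    (sg (g.col i) * (if g.perm i < g.perm (ω.perm i) then 1 else
      κ * sg (ω.col (ω.perm i) + g.col (ω.perm i) + g.col i))) := by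
  rw [Finset.prod_filter]
  rfl

theorem Cocycle2_block (hr : 2 ∣ r) {κ : ℂ} (hκ : κ ^ 2 = (-1) ^ (r / 2))
    (ai aj bi bj c : ZMod r) :
    (sg (ai + bi) = sg bi * sg ai) ∧
    (sg (ai + bi) * (κ * sg (c + (aj + bj) + (ai + bi))) =
      sg bi * (κ * sg ((aj + c + ai) + bj + bi)) * sg ai) ∧
    (sg (ai + bi) = sg bj * (κ * sg ((ai + (c + hf r) + aj) + bi + bj)) *
      (sg ai * (κ * sg (c + aj + ai)))) ∧
    (sg (ai + bi) * (κ * sg (c + (aj + bj) + (ai + bi))) =
      sg bj * (sg ai * (κ * sg (c + aj + ai)))) := by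
  have hk : κ ^ 2 * sg (hf r) = 1 := by
    rw [sg_hf hr, hκ, ← mul_pow]
    simp
  simp only [sg_add hr]
  have h1 := sg_mul_self ai
  have h2 := sg_mul_self aj
  have h3 := sg_mul_self bi
  have h4 := sg_mul_self bj
  have h5 := sg_mul_self c
  generalize sg ai = A at *
  generalize sg aj = B at *
  generalize sg bi = C at *
  generalize sg bj = D at *
  generalize sg c = E at *
  generalize sg (hf r) = S at *
  refine ⟨by ring, by ring, ?_, ?_⟩
  · have e : D * (κ * (A * (E * S) * B * C * D)) * (A * (κ * (E * B * A))) =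
      (κ ^ 2 * S) * (D * D) * (A * A) * (E * E) * (B * B) * (A * C) := by ring
    rw [e, hk, h1, h2, h4, h5]
    ring
  · have e : A * C * (κ * (E * (B * D) * (A * C))) = κ * E * B * D * (A * A) * (C * C) := by ring
    have e' : D * (A * (κ * (E * B * A))) = κ * E * B * D * (A * A) := by ring
    rw [e, e', h3, mul_one]

theorem W2_mul (hr : 2 ∣ r) {κ : ℂ} (hκ : κ ^ 2 = (-1) ^ (r / 2))
    (g h : MG r n) {ω : MG r n} (hω : TSym (hf r) ω) :
    W2 κ (g * h) ω = W2 κ g (act h ω) * W2 κ h ω := by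
  have hfix := Cocycle2_fix hr hω
  have hinv := hω.1
  -- the first factor, reindexed
  have h1 : W2 κ g (act h ω) = ∏ i : Fin n, (if h.perm i < h.perm (ω.perm i) then
      sg (g.col (h.perm i)) * (if g.perm (h.perm i) < g.perm (h.perm (ω.perm i)) then 1 else
      κ * sg ((h.col (ω.perm i) + ω.col (ω.perm i) + h.col i) + g.col (h.perm (ω.perm i)) +
        g.col (h.perm i))) else 1) := by
    unfold W2 prodW
    rw [← Equiv.prod_comp h.perm]
    refine Finset.prod_congr rfl (fun i _ => ?_)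
    unfold phi2
    rw [act_perm_apply, act_col, hinv]
  rw [h1, Cocycle2_W2, Cocycle2_W2, Cocycle2_prod hinv hfix, ← Finset.prod_mul_distrib]
  refine Finset.prod_congr rfl (fun i hi => ?_)
  obtain ⟨b1, b2, b3, b4⟩ := Cocycle2_block hr hκ (h.col i) (h.col (ω.perm i)) (g.col (h.perm i))
    (g.col (h.perm (ω.perm i))) (ω.col (ω.perm i))
  have hci : ω.col (ω.perm i) + hf r = ω.col i := by
    have := hω.2 i
    rw [this]
    linear_combination (hf_add_hf hr)
  rw [hci] at b3
  have hne1 : h.perm i ≠ h.perm (ω.perm i) := fun e => hfix i (h.perm.injective e).symm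
  have hne2 : g.perm (h.perm i) ≠ g.perm (h.perm (ω.perm i)) := fun e =>
    hne1 (g.perm.injective e)
  simp only [mul_perm, Equiv.Perm.mul_apply, mul_col, hinv]
  by_cases hp : h.perm i < h.perm (ω.perm i)
  · have hp' : ¬ h.perm (ω.perm i) < h.perm i := not_lt.2 hp.le
    by_cases hq : g.perm (h.perm i) < g.perm (h.perm (ω.perm i))
    · simp only [hp, hp', hq, if_true, if_false, mul_one]
      exact b1
    · simp only [hp, hp', hq, if_true, if_false, mul_one]
      exact b2
  · have hp' : h.perm (ω.perm i) < h.perm i := lt_of_le_of_ne (not_lt.1 hp) hne1.symm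
    by_cases hq : g.perm (h.perm i) < g.perm (h.perm (ω.perm i))
    · have hq' : ¬ g.perm (h.perm (ω.perm i)) < g.perm (h.perm i) := not_lt.2 hq.le
      simp only [hp, hp', hq, hq', if_true, if_false, one_mul, mul_one]
      exact b3
    · have hq' : g.perm (h.perm (ω.perm i)) < g.perm (h.perm i) :=
        lt_of_le_of_ne (not_lt.1 hq) hne2.symm
      simp only [hp, hp', hq, hq', if_true, if_false, one_mul, mul_one]
      exact b4

theorem W2_scal_left (hr : 2 ∣ r) (κ : ℂ) (g ω : MG r n) {e : ZMod r} (he : sg e = 1) :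
    W2 κ g (scal n e * ω) = W2 κ g ω := by
  rw [Cocycle2_W2, Cocycle2_W2, scal_mul_perm]
  refine Finset.prod_congr rfl (fun i _ => ?_)
  rw [scal_mul_col]
  simp only [sg_add hr, he, mul_one]

theorem W2_mul_scal (hr : 2 ∣ r) (κ : ℂ) (g : MG r n) {ω : MG r n} (hω : TSym (hf r) ω)
    (e : ZMod r) : W2 κ (g * scal n e) ω = W2 κ g ω * sg e ^ (n / 2) := by
  have hcard := Cocycle2_card hω.1 (Cocycle2_fix hr hω)
  have hn : n / 2 = (Finset.univ.filter fun i => i < ω.perm i).card := by omega
  rw [hn, ← Finset.prod_const, Cocycle2_W2, Cocycle2_W2, ← Finset.prod_mul_distrib]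
  refine Finset.prod_congr rfl (fun i _ => ?_)
  have h1 : ∀ j, (g * scal n e).col j = e + g.col j := by
    intro j
    simp
  have h2 : ∀ j, (g * scal n e).perm j = g.perm j := by
    intro j
    simp
  rw [h1, h1, h2, h2]
  have hs := sg_mul_self e
  simp only [sg_add hr]
  split_ifs
  · ring
  · have e1 : sg e * sg (g.col i) * (κ * (sg (ω.col (ω.perm i)) *
        (sg e * sg (g.col (ω.perm i))) * (sg e * sg (g.col i)))) =
        sg (g.col i) * (κ * (sg (ω.col (ω.perm i)) * sg (g.col (ω.perm i)) * sg (g.col i))) *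
        sg e * (sg e * sg e) := by ring
    rw [e1, hs, mul_one]

theorem W2_one (κ : ℂ) (ω : MG r n) : W2 κ 1 ω = 1 := by
  rw [Cocycle2_W2]
  refine Finset.prod_eq_one (fun i hi => ?_)
  rw [Finset.mem_filter] at hi
  have : (1 : MG r n).perm i < (1 : MG r n).perm (ω.perm i) := by simpa using hi.2
  rw [if_pos this, one_col, sg_zero, mul_one]

theorem even_of_TSym_hf (hr : 2 ∣ r) {ω : MG r n} (hω : TSym (hf r) ω) : Even n :=
  ⟨_, by rw [← two_mul]; exact (Cocycle2_card hω.1 (Cocycle2_fix hr hω)).symm⟩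

theorem sg_cs_of_TSym_hf (hr : 2 ∣ r) {ω : MG r n} (hω : TSym (hf r) ω) :
    sg (cs ω) = sg (hf r) ^ (n / 2) := by
  have hcard := Cocycle2_card hω.1 (Cocycle2_fix hr hω)
  have hn : n / 2 = (Finset.univ.filter fun i => i < ω.perm i).card := by omega
  unfold cs
  rw [sg_sum hr, Cocycle2_prod hω.1 (Cocycle2_fix hr hω), hn, ← Finset.prod_const]
  refine Finset.prod_congr rfl (fun i _ => ?_)
  rw [hω.2 i, sg_add hr, ← mul_assoc, sg_mul_self, one_mul]

end GIM119
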