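import Pool.Agent.Lib.MP_119ee3_al.Basic
import Pool.Agent.Lib.MP_119ee3_al.Cocycle1
import Pool.Agent.Lib.MP_119ee3_al.Cocycle2
import Pool.Agent.Lib.MP_119ee3_al.GI

set_option autoImplicit false

/-!
# MP_119ee3_al: Algebraic properties of lC.
-/

open Classical

noncomputable section

namespace GIM119

open MG

variable {r n : ℕ} [NeZero r]

/-- The exponent of a multiple of `r / q`. -/
lemma LCalg_val {q : ℕ} (hq0 : 0 < q) (hqr : q ∣ r) (j : ℕ) :
    (((r / q * j : ℕ) : ZMod r)).val / (r / q) = j % q := by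
  have hr0 : 0 < r := Nat.pos_of_ne_zero (NeZero.ne r)
  have hd : 0 < r / q := Nat.div_pos (Nat.le_of_dvd hr0 hqr) hq0
  have hrq : r / q * q = r := Nat.div_mul_cancel hqr
  have h1 : r / q * j % (r / q * q) = r / q * (j % q) := Nat.mul_mod_mul_left ..
  rw [hrq] at h1
  rw [ZMod.val_natCast, h1, Nat.mul_div_cancel_left _ hd]

/-- Powers of a sign only see the parity. -/
lemma LCalg_pow_mod {q : ℕ} (hq : Even q) {c : ℂ} (hc : c * c = 1) (j : ℕ) :
    c ^ (j % q) = c ^ j := by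
  obtain ⟨t, ht⟩ := hq
  have h2 : c ^ q = 1 := by
    rw [ht, ← two_mul, pow_mul, sq, hc, one_pow]
  conv_rhs => rw [← Nat.mod_add_div j q]
  rw [pow_add, pow_mul, h2, one_pow, mul_one]

/-- `c ^ (val e / (r / q))` is a character on multiples of `r / q` when `c ^ 2 = 1`. -/
lemma LCalg_pow_val {q : ℕ} (hq0 : 0 < q) (hq : Even q) (hqr : q ∣ r) {c : ℂ} (hc : c * c = 1)
    (j : ℕ) : c ^ ((((r / q * j : ℕ) : ZMod r)).val / (r / q)) = c ^ j := by
  rw [LCalg_val hq0 hqr, LCalg_pow_mod hq hc]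

lemma LCalg_sg_mul {q : ℕ} (hr : 2 ∣ r) (hqr : 2 * q ∣ r) (hq0 : 0 < q) (j : ℕ) :
    sg (((r / q * j : ℕ) : ZMod r)) = 1 := by
  rw [sg_natCast hr]
  obtain ⟨t, ht⟩ := hqr
  have h1 : r / q = 2 * t := by
    rw [ht]
    have : 2 * q * t = q * (2 * t) := by ring
    rw [this, Nat.mul_div_cancel_left _ hq0]
  rw [h1, mul_assoc, pow_mul]
  norm_num

lemma LCalg_sg_cs (hr : 2 ∣ r) {ω : MG r n} (hω : ω ∈ Gp r 2 n) : sg (cs ω) = 1 := by
  obtain ⟨y, hy⟩ := hω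
  rw [hy]
  exact_mod_cast sg_two_mul hr y

lemma LCalg_im_sq (hr : 2 ∣ r) {ω : MG r n} (hω : ω ∈ Gp r 2 n) :
    im (cs ω) * im (cs ω) = 1 := by
  rw [im_mul_self, LCalg_sg_cs hr hω]

/-- The constant in the antisymmetric case squares to one. -/
lemma LCalg_const_sq {q : ℕ} (hr : 2 ∣ r) {ω : MG r n} (hω : ω ∈ Gp r 2 n) :
    ((-1 : ℂ) ^ (r / q / 2 * (n / 2)) * (-1) * im (cs ω)) *
      ((-1) ^ (r / q / 2 * (n / 2)) * (-1) * im (cs ω)) = 1 := by
  have h1 := LCalg_im_sq hr hω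
  have h2 : ((-1 : ℂ) ^ (r / q / 2 * (n / 2))) * ((-1) ^ (r / q / 2 * (n / 2))) = 1 := by
    rw [← mul_pow]
    norm_num
  calc ((-1 : ℂ) ^ (r / q / 2 * (n / 2)) * (-1) * im (cs ω)) *
      ((-1) ^ (r / q / 2 * (n / 2)) * (-1) * im (cs ω))
      = (((-1 : ℂ) ^ (r / q / 2 * (n / 2))) * ((-1) ^ (r / q / 2 * (n / 2)))) *
        (im (cs ω) * im (cs ω)) := by ring
    _ = 1 := by rw [h1, h2, one_mul]

lemma LCalg_even_k1 (hr : 2 ∣ r) {ω : MG r n} (hω : ω ∈ Gp r 2 n) (hT : TSym 0 ω) :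
    Even (k1 ω) := by
  have h := sg_cs_of_TSym hr hT
  rw [LCalg_sg_cs hr hω] at h
  by_contra hk
  rw [Nat.not_even_iff_odd] at hk
  rw [hk.neg_one_pow] at h
  norm_num at h

lemma LCalg_TSym_scal (c : ZMod r) (ω : MG r n) (e : ZMod r) :
    TSym e (scal n c * ω) ↔ TSym e ω := by
  constructor
  · intro h
    have h2 := h.scal_mul (-c)
    rw [← mul_assoc, ← scal_add, neg_add_cancel, scal_zero, one_mul] at h2
    exact h2
  · intro h
    exact h.scal_mul c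

lemma LCalg_TSym_act (k : MG r n) (ω : MG r n) (e : ZMod r) :
    TSym e (act k ω) ↔ TSym e ω := by
  constructor
  · intro h
    have h2 := h.act k⁻¹
    rwa [act_inv_act] at h2
  · intro h
    exact h.act k

lemma LCalg_stab {q : ℕ} (hq0 : 0 < q) (hqr : q ∣ r) {g ω : MG r n}
    (h2 : g * ω * (tau r n g)⁻¹ * ω⁻¹ ∈ Cq r q n) :
    ∃ j : ℕ, act g ω = scal n (((r / q * j : ℕ) : ZMod r)) * ω := by
  rw [mem_Cq_iff_exists hq0 hqr] at h2
  obtain ⟨j, -, hj⟩ := h2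
  exact ⟨j, (twist_eq_iff _ _ _).1 hj⟩

lemma LCalg_kappa (hr : 4 ∣ r) : (((-1 : ℂ) ^ (r / 4))) ^ 2 = (-1) ^ (r / 2) := by
  obtain ⟨t, rfl⟩ := hr
  have h1 : 4 * t / 4 = t := by omega
  have h2 : 4 * t / 2 = t * 2 := by omega
  rw [h1, h2, ← pow_mul]

theorem lC_mul [NeZero n] {q : ℕ} (hr : 4 ∣ r) (hn : Even n) (hq : Even q) (hqr : 2 * q ∣ r)
    (ω g h : MG r n) (hω : ω ∈ Gp r 2 n) (hg : g ∈ Gp r 2 n) (hh : h ∈ Gp r 2 n)
    (h1 : ω * tau r n ω ∈ Cq r q n) (h2 : g * ω * (tau r n g)⁻¹ * ω⁻¹ ∈ Cq r q n)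
    (h3 : h * ω * (tau r n h)⁻¹ * ω⁻¹ ∈ Cq r q n) :
    lC q (g * h) ω = lC q g ω * lC q h ω := by
  have hr2 : 2 ∣ r := dvd_trans (by norm_num) hr
  have hq0 : 0 < q := by
    rcases Nat.eq_zero_or_pos q with h | h
    · subst h
      have := Nat.eq_zero_of_zero_dvd (by simpa using hqr : 0 ∣ r)
      exact absurd this (NeZero.ne r)
    · exact h
  have hqr' : q ∣ r := (Dvd.intro_left 2 rfl).trans hqr
  obtain ⟨a, ha⟩ := LCalg_stab hq0 hqr' h2
  obtain ⟨b, hb⟩ := LCalg_stab hq0 hqr' h3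
  have hgh : act (g * h) ω = scal n (((r / q * (a + b) : ℕ) : ZMod r)) * ω := by
    rw [act_mul, hb, act_scal_mul, ha, ← mul_assoc, ← scal_add]
    congr 2
    push_cast
    ring
  have ea := eo_eq ha
  have eb := eo_eq hb
  have eab := eo_eq hgh
  have hsb := LCalg_sg_mul hr2 hqr hq0 b
  unfold lC
  by_cases hT : TSym 0 ω
  · rw [if_pos hT, if_pos hT, if_pos hT, ea, eb, eab,
      LCalg_pow_val hq0 hq hqr' (LCalg_im_sq hr2 hω), LCalg_pow_val hq0 hq hqr' (LCalg_im_sq hr2 hω),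
      LCalg_pow_val hq0 hq hqr' (LCalg_im_sq hr2 hω), W1_mul hr2 ze_add g h hT, hb,
      W1_scal_left hr2 ze g ω hsb, pow_add]
    have hz : ze (-((k1 ω / 2 : ℕ) : ZMod r) * ((r / q * (a + b) : ℕ) : ZMod r)) =
        ze (-((k1 ω / 2 : ℕ) : ZMod r) * ((r / q * a : ℕ) : ZMod r)) *
        ze (-((k1 ω / 2 : ℕ) : ZMod r) * ((r / q * b : ℕ) : ZMod r)) := by
      rw [← ze_add]
      congr 1
      push_cast
      ring
    rw [hz]
    ring
  · have hT2 : TSym (hf r) ω := ((GI_iff hq hqr' ω).1 h1).resolve_left hT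
    rw [if_neg hT, if_neg hT, if_neg hT, ea, eb, eab,
      LCalg_pow_val hq0 hq hqr' (LCalg_const_sq hr2 hω),
      LCalg_pow_val hq0 hq hqr' (LCalg_const_sq hr2 hω),
      LCalg_pow_val hq0 hq hqr' (LCalg_const_sq hr2 hω), W2_mul hr2 (LCalg_kappa hr) g h hT2, hb,
      W2_scal_left hr2 _ g ω hsb, pow_add]
    ring

theorem lC_cen [NeZero n] {q : ℕ} (hr : 4 ∣ r) (hn : Even n) (hq : Even q) (hqr : 2 * q ∣ r)
    (ω z : MG r n) (hω : ω ∈ Gp r 2 n)
    (h1 : ω * tau r n ω ∈ Cq r q n) (hz : z ∈ Cq r q n) : lC q z ω = 1 := by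
  have hr2 : 2 ∣ r := dvd_trans (by norm_num) hr
  have hq0 : 0 < q := by
    rcases Nat.eq_zero_or_pos q with h | h
    · subst h
      have := Nat.eq_zero_of_zero_dvd (by simpa using hqr : 0 ∣ r)
      exact absurd this (NeZero.ne r)
    · exact h
  have hqr' : q ∣ r := (Dvd.intro_left 2 rfl).trans hqr
  rw [mem_Cq_iff_exists hq0 hqr'] at hz
  obtain ⟨j, -, rfl⟩ := hz
  have hst : act (scal n (((r / q * j : ℕ) : ZMod r))) ω
      = scal n (((r / q * (2 * j) : ℕ) : ZMod r)) * ω := by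
    rw [act_scal]
    congr 2
    push_cast
    ring
  have ez := eo_eq hst
  have hsj := LCalg_sg_mul hr2 hqr hq0 j
  unfold lC
  by_cases hT : TSym 0 ω
  · rw [if_pos hT, ez, LCalg_pow_val hq0 hq hqr' (LCalg_im_sq hr2 hω), pow_mul, sq,
      LCalg_im_sq hr2 hω, one_pow, mul_one]
    have hW := W1_mul_scal (r := r) (n := n) ze_add 1 ω (((r / q * j : ℕ) : ZMod r))
    rw [one_mul, W1_one _ ze_zero, one_mul] at hW
    rw [hW, ← ze_natCast_mul, ← ze_add]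
    obtain ⟨t, ht⟩ := LCalg_even_k1 hr2 hω hT
    have ht2 : k1 ω / 2 = t := by omega
    rw [ht2, ht]
    have h0 : ((t + t : ℕ) : ZMod r) * ((r / q * j : ℕ) : ZMod r) +
        -((t : ℕ) : ZMod r) * ((r / q * (2 * j) : ℕ) : ZMod r) = 0 := by
      push_cast
      ring
    rw [h0, ze_zero]
  · have hT2 : TSym (hf r) ω := ((GI_iff hq hqr' ω).1 h1).resolve_left hT
    rw [if_neg hT, ez, LCalg_pow_val hq0 hq hqr' (LCalg_const_sq hr2 hω), pow_mul, sq,
      LCalg_const_sq hr2 hω, one_pow, mul_one]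
    have hW := W2_mul_scal hr2 ((-1) ^ (r / 4)) 1 hT2 (((r / q * j : ℕ) : ZMod r))
    rw [one_mul, W2_one, one_mul, hsj, one_pow] at hW
    exact hW

theorem lC_shift [NeZero n] {q : ℕ} (hr : 4 ∣ r) (hn : Even n) (hq : Even q) (hqr : 2 * q ∣ r)
    (ω g z : MG r n) (hω : ω ∈ Gp r 2 n) (hg : g ∈ Gp r 2 n)
    (h1 : ω * tau r n ω ∈ Cq r q n) (h2 : g * ω * (tau r n g)⁻¹ * ω⁻¹ ∈ Cq r q n)
    (hz : z ∈ Cq r q n) : lC q g (z * ω) = lC q g ω := by
  have hr2 : 2 ∣ r := dvd_trans (by norm_num) hr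
  have hq0 : 0 < q := by
    rcases Nat.eq_zero_or_pos q with h | h
    · subst h
      have := Nat.eq_zero_of_zero_dvd (by simpa using hqr : 0 ∣ r)
      exact absurd this (NeZero.ne r)
    · exact h
  have hqr' : q ∣ r := (Dvd.intro_left 2 rfl).trans hqr
  rw [mem_Cq_iff_exists hq0 hqr'] at hz
  obtain ⟨j, -, rfl⟩ := hz
  have hsj := LCalg_sg_mul hr2 hqr hq0 j
  obtain ⟨a, ha⟩ := LCalg_stab hq0 hqr' h2
  have hst : act g (scal n (((r / q * j : ℕ) : ZMod r)) * ω) =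
      scal n (((r / q * a : ℕ) : ZMod r)) * (scal n (((r / q * j : ℕ) : ZMod r)) * ω) := by
    rw [act_scal_mul, ha, ← mul_assoc, ← mul_assoc, scal_comm]
  have ez := eo_eq hst
  have ea := eo_eq ha
  have him : im (cs (scal n (((r / q * j : ℕ) : ZMod r)) * ω)) = im (cs ω) := by
    rw [cs_scal_mul, im_add hr]
    obtain ⟨m, hm⟩ := hn
    obtain ⟨y, hy⟩ := (sg_eq_one_iff hr2 _).1 hsj
    have h0 : (n : ZMod r) * ((r / q * j : ℕ) : ZMod r) = 2 * (2 * (m * y)) := by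
      rw [hy, hm]
      push_cast
      ring
    rw [h0, im_two_mul hr, sg_two_mul hr2, mul_one]
  unfold lC
  rw [ez, ea, him, k1_scal_mul hr2 ω hsj, W1_scal_left hr2 ze g ω hsj, W2_scal_left hr2 _ g ω hsj]
  simp only [LCalg_TSym_scal]

theorem lC_conj [NeZero n] {q : ℕ} (hr : 4 ∣ r) (hn : Even n) (hq : Even q) (hqr : 2 * q ∣ r)
    (ω g k : MG r n) (hω : ω ∈ Gp r 2 n) (hg : g ∈ Gp r 2 n) (hk : k ∈ Gp r 2 n)
    (h1 : ω * tau r n ω ∈ Cq r q n) (h2 : g * ω * (tau r n g)⁻¹ * ω⁻¹ ∈ Cq r q n) :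
    lC q (k * g * k⁻¹) (k * ω * (tau r n k)⁻¹) = lC q g ω := by
  have hr2 : 2 ∣ r := dvd_trans (by norm_num) hr
  have hq0 : 0 < q := by
    rcases Nat.eq_zero_or_pos q with h | h
    · subst h
      have := Nat.eq_zero_of_zero_dvd (by simpa using hqr : 0 ∣ r)
      exact absurd this (NeZero.ne r)
    · exact h
  have hqr' : q ∣ r := (Dvd.intro_left 2 rfl).trans hqr
  obtain ⟨a, ha⟩ := LCalg_stab hq0 hqr' h2
  have hsa := LCalg_sg_mul hr2 hqr hq0 a
  have hka : act (k * g) ω = scal n (((r / q * a : ℕ) : ZMod r)) * act k ω := by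
    rw [act_mul, ha, act_scal_mul]
  have hst : act (k * g * k⁻¹) (act k ω) =
      scal n (((r / q * a : ℕ) : ZMod r)) * act k ω := by
    rw [← act_mul, inv_mul_cancel_right, hka]
  have ez := eo_eq hst
  have ea := eo_eq ha
  have him : im (cs (act k ω)) = im (cs ω) := by
    rw [cs_act, im_add hr, im_two_mul hr, LCalg_sg_cs hr2 hk, mul_one]
  change lC q (k * g * k⁻¹) (act k ω) = lC q g ω
  unfold lC
  by_cases hT : TSym 0 ω
  · have hW : W1 ze (k * g * k⁻¹) (act k ω) = W1 ze g ω := by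
      have e1 := W1_mul hr2 ze_add (k * g * k⁻¹) k hT
      rw [inv_mul_cancel_right] at e1
      have e2 := W1_mul hr2 ze_add k g hT
      rw [ha, W1_scal_left hr2 ze k ω hsa] at e2
      have e3 := W1_mul hr2 ze_add k⁻¹ k hT
      rw [inv_mul_cancel, W1_one _ ze_zero] at e3
      have hne : W1 ze k ω ≠ 0 := fun h0 => by
        rw [h0, mul_zero] at e3
        exact one_ne_zero e3
      rw [e2] at e1
      have e4 : (W1 ze g ω - W1 ze (k * g * k⁻¹) (act k ω)) * W1 ze k ω = 0 := by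
        rw [sub_mul, ← e1]
        ring
      rcases mul_eq_zero.1 e4 with h | h
      · exact (sub_eq_zero.1 h).symm
      · exact absurd h hne
    rw [if_pos hT, if_pos ((LCalg_TSym_act k ω 0).2 hT), ez, ea, him, k1_act hr2 k hT, hW]
  · have hT2 : TSym (hf r) ω := ((GI_iff hq hqr' ω).1 h1).resolve_left hT
    have hW : W2 ((-1) ^ (r / 4)) (k * g * k⁻¹) (act k ω) = W2 ((-1) ^ (r / 4)) g ω := by
      have e1 := W2_mul hr2 (LCalg_kappa hr) (k * g * k⁻¹) k hT2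
      rw [inv_mul_cancel_right] at e1
      have e2 := W2_mul hr2 (LCalg_kappa hr) k g hT2
      rw [ha, W2_scal_left hr2 _ k ω hsa] at e2
      have e3 := W2_mul hr2 (LCalg_kappa hr) k⁻¹ k hT2
      rw [inv_mul_cancel, W2_one] at e3
      have hne : W2 ((-1) ^ (r / 4)) k ω ≠ 0 := fun h0 => by
        rw [h0, mul_zero] at e3
        exact one_ne_zero e3
      rw [e2] at e1
      have e4 : (W2 ((-1) ^ (r / 4)) g ω - W2 ((-1) ^ (r / 4)) (k * g * k⁻¹) (act k ω)) *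
          W2 ((-1) ^ (r / 4)) k ω = 0 := by
        rw [sub_mul, ← e1]
        ring
      rcases mul_eq_zero.1 e4 with h | h
      · exact (sub_eq_zero.1 h).symm
      · exact absurd h hne
    rw [if_neg hT, if_neg (fun h => hT ((LCalg_TSym_act k ω 0).1 h)), ez, ea, him, hW]

end GIM119
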