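import Pool.Agent.Lib.MP_119ee3_al.Basic

set_option autoImplicit false

/-!
# MP_119ee3_al: Cycles.
-/

open Classical

noncomputable section

namespace GIM119

open MG

variable {r n : ℕ} [NeZero r]

theorem mem_cyc {g : MG r n} {i j : Fin n} : j ∈ cyc g i ↔ g.perm.SameCycle i j := by
  simp [cyc]

theorem self_mem_cyc (g : MG r n) (i : Fin n) : i ∈ cyc g i :=
  mem_cyc.2 (Equiv.Perm.SameCycle.refl _ _)

theorem cyc_Stb (g : MG r n) (i : Fin n) : Stb g (cyc g i) := by
  intro j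
  rw [mem_cyc, mem_cyc, Equiv.Perm.sameCycle_apply_right]

theorem cyc_eq_of_mem {g : MG r n} {i j : Fin n} (h : j ∈ cyc g i) : cyc g j = cyc g i := by
  rw [mem_cyc] at h
  ext k
  rw [mem_cyc, mem_cyc]
  exact ⟨fun hk => h.trans hk, fun hk => h.symm.trans hk⟩

theorem Cyc_per_pos (g : MG r n) (i : Fin n) : 0 < Function.minimalPeriod g.perm i := by
  rw [Function.minimalPeriod_pos_iff_mem_periodicPts]
  refine ⟨orderOf g.perm, orderOf_pos _, ?_⟩
  show (⇑g.perm)^[orderOf g.perm] i = i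
  rw [Equiv.Perm.iterate_eq_pow, pow_orderOf_eq_one]
  rfl

theorem Cyc_exists {g : MG r n} {i j : Fin n} (h : j ∈ cyc g i) :
    ∃ l < Function.minimalPeriod g.perm i, (g.perm ^ l) i = j := by
  rw [mem_cyc] at h
  obtain ⟨l, hl⟩ := h.exists_nat_pow_eq
  refine ⟨l % Function.minimalPeriod g.perm i, Nat.mod_lt _ (Cyc_per_pos g i), ?_⟩
  rw [← Equiv.Perm.iterate_eq_pow, Function.iterate_mod_minimalPeriod_eq,
    Equiv.Perm.iterate_eq_pow, hl]

theorem cyc_subset_of_Stb {g : MG r n} {S : Finset (Fin n)} (hS : Stb g S) {i : Fin n}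
    (hi : i ∈ S) : cyc g i ⊆ S := by
  intro j hj
  obtain ⟨l, hl, rfl⟩ := Cyc_exists hj
  clear hj hl
  induction l with
  | zero => exact hi
  | succ l ih =>
    rw [pow_succ', Equiv.Perm.mul_apply]
    exact (hS _).2 ih

theorem cyc_disjoint {g : MG r n} {i j : Fin n} (h : j ∉ cyc g i) :
    Disjoint (cyc g i) (cyc g j) := by
  rw [Finset.disjoint_left]
  intro k hk hk'
  rw [mem_cyc] at h hk hk'
  exact h (hk.trans hk'.symm)

theorem pow_mem_cyc (g : MG r n) (i : Fin n) (l : ℕ) : (g.perm ^ l) i ∈ cyc g i := by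
  rw [mem_cyc]
  exact (Equiv.Perm.sameCycle_pow_right (n := l)).2 (Equiv.Perm.SameCycle.refl _ _)

theorem Cyc_inj (g : MG r n) (i : Fin n) {l m : ℕ} (hl : l < Function.minimalPeriod g.perm i)
    (hm : m < Function.minimalPeriod g.perm i) (h : (g.perm ^ l) i = (g.perm ^ m) i) : l = m := by
  refine Function.iterate_injOn_Iio_minimalPeriod (f := g.perm) (x := i) hl hm ?_
  show (⇑g.perm)^[l] i = (⇑g.perm)^[m] i
  rw [Equiv.Perm.iterate_eq_pow, Equiv.Perm.iterate_eq_pow]
  exact h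

theorem Cyc_image (g : MG r n) (i : Fin n) :
    cyc g i = (Finset.range (Function.minimalPeriod g.perm i)).image
      fun l => (g.perm ^ l) i := by
  ext j
  rw [Finset.mem_image]
  constructor
  · intro h
    obtain ⟨l, hl, h⟩ := Cyc_exists h
    exact ⟨l, Finset.mem_range.2 hl, h⟩
  · rintro ⟨l, _, rfl⟩
    exact pow_mem_cyc g i l

theorem Cyc_card (g : MG r n) (i : Fin n) :
    (cyc g i).card = Function.minimalPeriod g.perm i := by
  rw [Cyc_image, Finset.card_image_of_injOn, Finset.card_range]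
  intro l hl m hm h
  exact Cyc_inj g i (Finset.mem_range.1 hl) (Finset.mem_range.1 hm) h

theorem cyc_eq_image (g : MG r n) (i : Fin n) :
    cyc g i = (Finset.range (cyc g i).card).image fun l => (g.perm ^ l) i := by
  rw [Cyc_card]
  exact Cyc_image g i

theorem pow_injOn_cyc (g : MG r n) (i : Fin n) {l m : ℕ} (hl : l < (cyc g i).card)
    (hm : m < (cyc g i).card) (h : (g.perm ^ l) i = (g.perm ^ m) i) : l = m := by
  rw [Cyc_card] at hl hm
  exact Cyc_inj g i hl hm h

theorem pow_eq_self_iff (g : MG r n) {i j : Fin n} (hj : j ∈ cyc g i) (l : ℕ) :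
    (g.perm ^ l) j = j ↔ (cyc g i).card ∣ l := by
  rw [← cyc_eq_of_mem hj, Cyc_card, ← Function.isPeriodicPt_iff_minimalPeriod_dvd]
  rw [← Equiv.Perm.iterate_eq_pow]
  rfl

theorem pow_card_cyc (g : MG r n) {i j : Fin n} (hj : j ∈ cyc g i) :
    (g.perm ^ (cyc g i).card) j = j :=
  (pow_eq_self_iff g hj _).2 (dvd_refl _)

theorem IsStr.pow {g : MG r n} {k : ℕ} {e1 e2 : ZMod r} {S : Finset (Fin n)} {x : Str r n}
    (hx : IsStr g k e1 e2 S x) (hS : Stb g S) {i : Fin n} (hi : i ∈ S) (l : ℕ) :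
    x.1 ((g.perm ^ l) i) = (g.perm ^ l) (x.1 i) := by
  have hmem : ∀ l : ℕ, (g.perm ^ l) i ∈ S := by
    intro l
    induction l with
    | zero => exact hi
    | succ l ih =>
      rw [pow_succ', Equiv.Perm.mul_apply]
      exact (hS _).2 ih
  induction l with
  | zero => rfl
  | succ l ih =>
    rw [pow_succ', Equiv.Perm.mul_apply, Equiv.Perm.mul_apply, (hx.2 _ (hmem l)).2.2.1, ih]

end GIM119
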