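import Pool.Agent.Lib.MP_119ee3_al.Basic
import Pool.Agent.Lib.MP_119ee3_al.Cyc

set_option autoImplicit false

/-!
# MP_119ee3_al: The exponential formula.
-/

open Classical

noncomputable section

namespace GIM119

open MG

variable {r n : ℕ} [NeZero r]

/-- restriction of a structure -/
def Rec_res (T : Finset (Fin n)) (x : Str r n) : Str r n :=
  (fun i => if i ∈ T then x.1 i else i, fun i => if i ∈ T then x.2 i else 0)

/-- gluing of two structures -/
def Rec_glue (T : Finset (Fin n)) (p : Str r n × Str r n) : Str r n :=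
  (fun i => if i ∈ T then p.1.1 i else p.2.1 i, fun i => if i ∈ T then p.1.2 i else p.2.2 i)

theorem Rec_Stb_union (g : MG r n) (i j : Fin n) : Stb g (cyc g i ∪ cyc g j) := by
  intro l
  rw [Finset.mem_union, Finset.mem_union, cyc_Stb g i l, cyc_Stb g j l]

theorem Rec_Stb_sdiff {g : MG r n} {S T : Finset (Fin n)} (hS : Stb g S) (hT : Stb g T) :
    Stb g (S \ T) := by
  intro l
  rw [Finset.mem_sdiff, Finset.mem_sdiff, hS l, hT l]

theorem Rec_Stb_pow {g : MG r n} {T : Finset (Fin n)} (hT : Stb g T) (k : ℕ) (i : Fin n) :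
    (g.perm ^ k) i ∈ T ↔ i ∈ T := by
  induction k with
  | zero => simp
  | succ k ih =>
    rw [pow_succ', Equiv.Perm.mul_apply, hT, ih]

theorem Rec_exists_pow {g : MG r n} {i j : Fin n} (h : j ∈ cyc g i) :
    ∃ l : ℕ, (g.perm ^ l) i = j := by
  rw [cyc_eq_image, Finset.mem_image] at h
  obtain ⟨l, -, hl⟩ := h
  exact ⟨l, hl⟩

theorem Rec_closed {g : MG r n} {k : ℕ} {e1 e2 : ZMod r} {S : Finset (Fin n)} (hS : Stb g S)
    {x : Str r n} (hx : IsStr g k e1 e2 S x) {i0 : Fin n} (hi : i0 ∈ S) {i : Fin n}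
    (h : i ∈ cyc g i0 ∪ cyc g (x.1 i0)) : x.1 i ∈ cyc g i0 ∪ cyc g (x.1 i0) := by
  rw [Finset.mem_union] at h ⊢
  rcases h with h | h
  · obtain ⟨l, rfl⟩ := Rec_exists_pow h
    rw [hx.pow hS hi]
    exact Or.inr (pow_mem_cyc _ _ _)
  · obtain ⟨l, rfl⟩ := Rec_exists_pow h
    rw [hx.pow hS (hx.2 i0 hi).1, (hx.2 i0 hi).2.1, ← Equiv.Perm.mul_apply, ← pow_add]
    exact Or.inl (pow_mem_cyc _ _ _)

theorem Rec_isStr_res {g : MG r n} {k : ℕ} {e1 e2 : ZMod r} {S T : Finset (Fin n)}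
    (hT : Stb g T) (hTS : T ⊆ S)
    {x : Str r n} (hx : IsStr g k e1 e2 S x) (hc : ∀ i ∈ T, x.1 i ∈ T) :
    IsStr g k e1 e2 T (Rec_res T x) := by
  refine ⟨fun i hi => ?_, fun i hi => ?_⟩
  · simp [Rec_res, hi]
  · obtain ⟨-, h2, h3, h4, h5⟩ := hx.2 i (hTS hi)
    have h6 : g.perm i ∈ T := (hT i).2 hi
    have h7 := hc i hi
    refine ⟨?_, ?_, ?_, ?_, ?_⟩
    · simpa [Rec_res, hi] using h7
    · simpa [Rec_res, hi, h7] using h2
    · simpa [Rec_res, hi, h6] using h3
    · simpa [Rec_res, hi, h7] using h4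
    · simpa [Rec_res, hi, h6] using h5

theorem Rec_isStr_glue {g : MG r n} {k : ℕ} {e1 e2 : ZMod r} {S T : Finset (Fin n)}
    (hS : Stb g S) (hT : Stb g T) (hTS : T ⊆ S)
    {p : Str r n × Str r n} (hy : IsStr g k e1 e2 T p.1) (hz : IsStr g k e1 e2 (S \ T) p.2) :
    IsStr g k e1 e2 S (Rec_glue T p) := by
  refine ⟨fun i hi => ?_, fun i hi => ?_⟩
  · have h1 : i ∉ T := fun h => hi (hTS h)
    have h2 : i ∉ S \ T := fun h => hi (Finset.mem_sdiff.1 h).1
    have h3 := hz.1 i h2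
    simpa [Rec_glue, h1] using h3
  · by_cases hiT : i ∈ T
    · obtain ⟨h1, h2, h3, h4, h5⟩ := hy.2 i hiT
      have h6 : g.perm i ∈ T := (hT i).2 hiT
      refine ⟨?_, ?_, ?_, ?_, ?_⟩
      · simpa [Rec_glue, hiT] using hTS h1
      · simpa [Rec_glue, hiT, h1] using h2
      · simpa [Rec_glue, hiT, h6] using h3
      · simpa [Rec_glue, hiT, h1] using h4
      · simpa [Rec_glue, hiT, h6] using h5
    · have hi2 : i ∈ S \ T := Finset.mem_sdiff.2 ⟨hi, hiT⟩
      obtain ⟨h1, h2, h3, h4, h5⟩ := hz.2 i hi2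
      have h6 : g.perm i ∉ T := fun h => hiT ((hT i).1 h)
      have h7 : p.2.1 i ∉ T := (Finset.mem_sdiff.1 h1).2
      refine ⟨?_, ?_, ?_, ?_, ?_⟩
      · simpa [Rec_glue, hiT] using (Finset.mem_sdiff.1 h1).1
      · simpa [Rec_glue, hiT, h7] using h2
      · simpa [Rec_glue, hiT, h6] using h3
      · simpa [Rec_glue, hiT, h7] using h4
      · simpa [Rec_glue, hiT, h6] using h5

theorem Rec_wt_res (φ : Wt r n) {T : Finset (Fin n)} {x : Str r n} (hc : ∀ i ∈ T, x.1 i ∈ T) :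
    wt φ T (Rec_res T x) = wt φ T x := by
  unfold wt
  refine Finset.prod_congr rfl fun i hi => ?_
  have h1 : (Rec_res T x).1 i = x.1 i := by simp [Rec_res, hi]
  have h2 : (Rec_res T x).2 i = x.2 i := by simp [Rec_res, hi]
  have h3 : (Rec_res T x).2 (x.1 i) = x.2 (x.1 i) := by simp [Rec_res, hc i hi]
  rw [h1, h2, h3]

theorem tot_rec (g : MG r n) (k : ℕ) (e1 e2 : ZMod r) (φ : Wt r n) {S : Finset (Fin n)}
    (hS : Stb g S) {i0 : Fin n} (hi : i0 ∈ S) :
    tot g k e1 e2 φ S = ∑ T ∈ S.powerset, con g k e1 e2 φ i0 T * tot g k e1 e2 φ (S \ T) := by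
  have hmap : ∀ x ∈ Finset.univ.filter (fun x : Str r n => IsStr g k e1 e2 S x),
      cyc g i0 ∪ cyc g (x.1 i0) ∈ S.powerset := by
    intro x hx
    rw [Finset.mem_filter] at hx
    rw [Finset.mem_powerset]
    exact Finset.union_subset (cyc_subset_of_Stb hS hi)
      (cyc_subset_of_Stb hS (hx.2.2 i0 hi).1)
  unfold tot
  rw [← Finset.sum_fiberwise_of_maps_to hmap]
  refine Finset.sum_congr rfl fun T hT => ?_
  rw [Finset.mem_powerset] at hT
  unfold con
  rw [Finset.sum_mul_sum, ← Finset.sum_product']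
  have hcl : ∀ x : Str r n, IsStr g k e1 e2 S x → cyc g i0 ∪ cyc g (x.1 i0) = T →
      Stb g T ∧ (∀ i ∈ T, x.1 i ∈ T) ∧ (∀ i ∈ S \ T, x.1 i ∈ S \ T) := by
    rintro x hx rfl
    have hst := Rec_Stb_union g i0 (x.1 i0)
    refine ⟨hst, fun i hi' => Rec_closed hS hx hi hi', fun i hi' => ?_⟩
    rw [Finset.mem_sdiff] at hi' ⊢
    refine ⟨(hx.2 i hi'.1).1, fun h => hi'.2 ?_⟩
    have h1 := Rec_closed hS hx hi h
    rw [(hx.2 i hi'.1).2.1] at h1
    exact (Rec_Stb_pow hst k i).1 h1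
  refine Finset.sum_nbij' (fun x => (Rec_res T x, Rec_res (S \ T) x)) (Rec_glue T) ?_ ?_ ?_ ?_ ?_
  · intro x hx
    simp only [Finset.mem_filter, Finset.mem_univ, true_and] at hx
    obtain ⟨hx1, hx2⟩ := hx
    obtain ⟨h1, h2, h3⟩ := hcl x hx1 hx2
    have h4 : i0 ∈ T := by
      rw [← hx2]
      exact Finset.mem_union_left _ (self_mem_cyc g i0)
    simp only [Finset.mem_product, Finset.mem_filter, Finset.mem_univ, true_and]
    refine ⟨⟨Rec_isStr_res h1 hT hx1 h2, ?_⟩,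
      Rec_isStr_res (Rec_Stb_sdiff hS h1) Finset.sdiff_subset hx1 h3⟩
    have h5 : (Rec_res T x).1 i0 = x.1 i0 := by simp [Rec_res, h4]
    rw [h5]
    exact hx2.symm
  · rintro ⟨y, z⟩ hp
    simp only [Finset.mem_product, Finset.mem_filter, Finset.mem_univ, true_and] at hp
    obtain ⟨⟨hy, hyT⟩, hz⟩ := hp
    have h1 : Stb g T := by
      rw [hyT]
      exact Rec_Stb_union _ _ _
    have h4 : i0 ∈ T := by
      rw [hyT]
      exact Finset.mem_union_left _ (self_mem_cyc g i0)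
    simp only [Finset.mem_filter, Finset.mem_univ, true_and]
    refine ⟨Rec_isStr_glue hS h1 hT hy hz, ?_⟩
    have h5 : (Rec_glue T (y, z)).1 i0 = y.1 i0 := by simp [Rec_glue, h4]
    rw [h5]
    exact hyT.symm
  · intro x hx
    simp only [Finset.mem_filter, Finset.mem_univ, true_and] at hx
    obtain ⟨hx1, hx2⟩ := hx
    refine Prod.ext (funext fun i => ?_) (funext fun i => ?_)
    · by_cases h1 : i ∈ T
      · simp [Rec_glue, Rec_res, h1]
      · by_cases h2 : i ∈ S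
        · simp [Rec_glue, Rec_res, h1, h2]
        · simp [Rec_glue, Rec_res, h1, h2, (hx1.1 i h2).1]
    · by_cases h1 : i ∈ T
      · simp [Rec_glue, Rec_res, h1]
      · by_cases h2 : i ∈ S
        · simp [Rec_glue, Rec_res, h1, h2]
        · simp [Rec_glue, Rec_res, h1, h2, (hx1.1 i h2).2]
  · rintro ⟨y, z⟩ hp
    simp only [Finset.mem_product, Finset.mem_filter, Finset.mem_univ, true_and] at hp
    obtain ⟨⟨hy, hyT⟩, hz⟩ := hp
    refine Prod.ext (Prod.ext (funext fun i => ?_) (funext fun i => ?_))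
      (Prod.ext (funext fun i => ?_) (funext fun i => ?_))
    · by_cases h1 : i ∈ T
      · simp [Rec_glue, Rec_res, h1]
      · simp [Rec_res, h1, (hy.1 i h1).1]
    · by_cases h1 : i ∈ T
      · simp [Rec_glue, Rec_res, h1]
      · simp [Rec_res, h1, (hy.1 i h1).2]
    · by_cases h1 : i ∈ S \ T
      · have h2 : i ∉ T := (Finset.mem_sdiff.1 h1).2
        have h3 : i ∈ S := (Finset.mem_sdiff.1 h1).1
        simp [Rec_glue, Rec_res, h2, h3]
      · have h4 := hz.1 i h1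
        have h5 : (Rec_res (S \ T) (Rec_glue T (y, z))).1 i = i := by
          show (if i ∈ S \ T then _ else i) = i
          rw [if_neg h1]
        rw [h5]
        exact h4.1.symm
    · by_cases h1 : i ∈ S \ T
      · have h2 : i ∉ T := (Finset.mem_sdiff.1 h1).2
        have h3 : i ∈ S := (Finset.mem_sdiff.1 h1).1
        simp [Rec_glue, Rec_res, h2, h3]
      · have h4 := hz.1 i h1
        have h5 : (Rec_res (S \ T) (Rec_glue T (y, z))).2 i = 0 := by
          show (if i ∈ S \ T then _ else (0 : ZMod r)) = 0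
          rw [if_neg h1]
        rw [h5]
        exact h4.2.symm
  · intro x hx
    simp only [Finset.mem_filter, Finset.mem_univ, true_and] at hx
    obtain ⟨hx1, hx2⟩ := hx
    obtain ⟨h1, h2, h3⟩ := hcl x hx1 hx2
    simp only
    rw [Rec_wt_res φ h2, Rec_wt_res φ h3]
    unfold wt
    rw [mul_comm, Finset.prod_sdiff hT]

end GIM119
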