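import Pool.Agent.Lib.MP_119ee3_al.Basic
import Pool.Agent.Lib.MP_119ee3_al.Rec

set_option autoImplicit false

/-!
# MP_119ee3_al: Comparison of total sums.
-/

open Classical

noncomputable section

namespace GIM119

open MG

variable {r n : ℕ} [NeZero r]

theorem Congr_con_eq_zero {g : MG r n} {k : ℕ} {e1 e2 : ZMod r} {φ : Wt r n} {i0 : Fin n}
    {T : Finset (Fin n)} (h : ¬ (Stb g T ∧ i0 ∈ T)) : con g k e1 e2 φ i0 T = 0 := by
  unfold con
  refine Finset.sum_eq_zero fun x hx => ?_
  rw [Finset.mem_filter] at hx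
  exfalso
  apply h
  rw [hx.2.2]
  exact ⟨Rec_Stb_union _ _ _, Finset.mem_union_left _ (self_mem_cyc g i0)⟩

theorem Congr_tot_empty (g : MG r n) (k k' : ℕ) (e1 e2 e1' e2' : ZMod r) (φ φ' : Wt r n) :
    tot g k e1 e2 φ ∅ = tot g k' e1' e2' φ' ∅ := by
  unfold tot
  refine Finset.sum_congr (Finset.filter_congr fun x _ => ?_) fun x _ => ?_
  · simp [IsStr]
  · simp [wt]

theorem tot_congr (g : MG r n) {k k' : ℕ} {e1 e2 e1' e2' : ZMod r} {φ φ' : Wt r n}
    (h : ∀ (T : Finset (Fin n)) (i0 : Fin n), Stb g T → i0 ∈ T →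
      con g k e1 e2 φ i0 T = con g k' e1' e2' φ' i0 T) (S : Finset (Fin n)) (hS : Stb g S) :
    tot g k e1 e2 φ S = tot g k' e1' e2' φ' S := by
  have key : ∀ (N : ℕ) (S : Finset (Fin n)), S.card = N → Stb g S →
      tot g k e1 e2 φ S = tot g k' e1' e2' φ' S := by
    intro N
    induction N using Nat.strong_induction_on with
    | _ N ih =>
      intro S hN hS
      rcases S.eq_empty_or_nonempty with rfl | ⟨i0, hi⟩
      · exact Congr_tot_empty g k k' e1 e2 e1' e2' φ φ'
      · rw [tot_rec g k e1 e2 φ hS hi, tot_rec g k' e1' e2' φ' hS hi]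
        refine Finset.sum_congr rfl fun T hT => ?_
        rw [Finset.mem_powerset] at hT
        by_cases hc : Stb g T ∧ i0 ∈ T
        · rw [h T i0 hc.1 hc.2]
          have hlt : (S \ T).card < N := by
            rw [← hN]
            refine Finset.card_lt_card (Finset.ssubset_iff_subset_ne.2 ⟨Finset.sdiff_subset, ?_⟩)
            intro he
            have h1 : i0 ∈ S \ T := by rw [he]; exact hi
            exact (Finset.mem_sdiff.1 h1).2 hc.2
          rw [ih _ hlt (S \ T) rfl (Rec_Stb_sdiff hS hc.1)]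
        · rw [Congr_con_eq_zero hc, Congr_con_eq_zero hc, zero_mul, zero_mul]
  exact key _ S rfl hS

end GIM119
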