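import Pool.Agent.Lib.MP_119ee3_al.Basic

set_option autoImplicit false

/-!
# MP_119ee3_al: Group elements and structures.
-/

open Classical

noncomputable section

namespace GIM119

open MG

variable {r n : ℕ} [NeZero r]

/-- the structure of a group element -/
def Conv_str (ω : MG r n) : Str r n := (fun i => ω.perm i, ω.col)

theorem Conv_inj {ω ω' : MG r n} (h : Conv_str ω = Conv_str ω') : ω = ω' := by
  have h1 := congrArg Prod.fst h
  have h2 := congrArg Prod.snd h
  ext i
  · exact congrArg Fin.val (congrFun h1 i)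
  · exact congrFun h2 i

theorem Conv_surj {x : Str r n} (hx : Function.Bijective x.1) : ∃ ω : MG r n, Conv_str ω = x :=
  ⟨⟨Equiv.ofBijective x.1 hx, x.2⟩, rfl⟩

theorem sum_eq_tot0 (g : MG r n) (e1 e : ZMod r) (φ : Wt r n) :
    ∑ ω with (TSym e1 ω ∧ act g ω = scal n e * ω), prodW φ ω
      = tot g 0 e1 (-e) φ Finset.univ := by
  have hiff : ∀ ω : MG r n, IsStr g 0 e1 (-e) Finset.univ (Conv_str ω) ↔
      (TSym e1 ω ∧ act g ω = scal n e * ω) := by
    intro ω
    constructor
    · intro h
      have h2 := fun i => h.2 i (Finset.mem_univ i)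
      refine ⟨⟨fun i => ?_, fun i => ?_⟩, ext_perm g ?_ (fun i => ?_)⟩
      · exact (h2 i).2.1
      · have := (h2 i).2.2.2.1
        simpa [Conv_str] using this
      · rw [scal_mul_perm]
        ext i
        obtain ⟨j, rfl⟩ := g.perm.surjective i
        rw [act_perm_apply]
        exact congrArg Fin.val (h2 j).2.2.1.symm
      · rw [act_col, scal_mul_col]
        have := (h2 i).2.2.2.2
        simp only [Conv_str] at this
        rw [this]
        ring
    · rintro ⟨h1, h2⟩
      refine ⟨fun i hi => absurd (Finset.mem_univ i) hi, fun i _ => ⟨Finset.mem_univ _, ?_, ?_, ?_, ?_⟩⟩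
      · exact h1.1 i
      · have h3 := congrArg (fun w : MG r n => w.perm (g.perm i)) h2
        rw [act_perm_apply, scal_mul_perm] at h3
        exact h3.symm
      · have := h1.2 i
        simpa [Conv_str] using this
      · have h3 := congrArg (fun w : MG r n => w.col (g.perm i)) h2
        rw [act_col, scal_mul_col] at h3
        show ω.col (g.perm i) = ω.col i + g.col i + g.col (ω.perm i) + -e
        linear_combination -h3
  unfold tot
  refine Finset.sum_bij (fun ω _ => Conv_str ω) ?_ ?_ ?_ ?_
  · intro ω hω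
    rw [Finset.mem_filter] at hω ⊢
    exact ⟨Finset.mem_univ _, (hiff ω).2 hω.2⟩
  · intro ω _ ω' _ h
    exact Conv_inj h
  · intro x hx
    rw [Finset.mem_filter] at hx
    have hinv : Function.Involutive x.1 := fun i => (hx.2.2 i (Finset.mem_univ i)).2.1
    obtain ⟨ω, rfl⟩ := Conv_surj hinv.bijective
    exact ⟨ω, by rw [Finset.mem_filter]; exact ⟨Finset.mem_univ _, (hiff ω).1 hx.2⟩, rfl⟩
  · intro ω _
    rfl

theorem sum_eq_tot1 (g : MG r n) (φ : Wt r n) :
    ∑ h with (h * tau r n h = g), prodW φ h = tot g 1 0 0 φ Finset.univ := by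
  have hiff : ∀ ω : MG r n, IsStr g 1 0 0 Finset.univ (Conv_str ω) ↔ ω * tau r n ω = g := by
    intro ω
    constructor
    · intro h
      have h2 := fun i => h.2 i (Finset.mem_univ i)
      ext i
      · have := (h2 i).2.1
        rw [pow_one] at this
        exact congrArg Fin.val this
      · have := (h2 i).2.2.2.1
        simp only [Conv_str] at this
        show -ω.col i + ω.col (ω.perm i) = g.col i
        rw [this]
        simp
    · rintro rfl
      refine ⟨fun i hi => absurd (Finset.mem_univ i) hi, fun i _ => ⟨Finset.mem_univ _, ?_, ?_, ?_, ?_⟩⟩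
      · rfl
      · rfl
      · show ω.col (ω.perm i) = ω.col i + ((1 : ℕ) : ZMod r) * (-ω.col i + ω.col (ω.perm i)) + 0
        push_cast
        ring
      · show ω.col (ω.perm (ω.perm i)) = ω.col i + (-ω.col i + ω.col (ω.perm i)) +
          (-ω.col (ω.perm i) + ω.col (ω.perm (ω.perm i))) + 0
        ring
  unfold tot
  refine Finset.sum_bij (fun ω _ => Conv_str ω) ?_ ?_ ?_ ?_
  · intro ω hω
    rw [Finset.mem_filter] at hω ⊢
    exact ⟨Finset.mem_univ _, (hiff ω).2 hω.2⟩
  · intro ω _ ω' _ h
    exact Conv_inj h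
  · intro x hx
    rw [Finset.mem_filter] at hx
    have h1 : ∀ i, x.1 (x.1 i) = g.perm i := by
      intro i
      have := (hx.2.2 i (Finset.mem_univ i)).2.1
      rwa [pow_one] at this
    have hinj : Function.Injective x.1 := by
      intro i j hij
      have := congrArg x.1 hij
      rw [h1, h1] at this
      exact g.perm.injective this
    obtain ⟨ω, rfl⟩ := Conv_surj (Finite.injective_iff_bijective.1 hinj)
    exact ⟨ω, by rw [Finset.mem_filter]; exact ⟨Finset.mem_univ _, (hiff ω).1 hx.2⟩, rfl⟩
  · intro ω _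
    rfl

end GIM119
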