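import Pool.Agent.Lib.MP_119ee3_al.Basic
import Pool.Agent.Lib.MP_119ee3_al.Cyc

set_option autoImplicit false

/-!
# MP_119ee3_al: Structures on one cycle.
-/

open Classical

noncomputable section

namespace GIM119

open MG

variable {r n : ℕ} [NeZero r]

theorem OneCycle_form {g : MG r n} {i0 : Fin n} {k : ℕ} {e1 e2 : ZMod r} {x : Str r n}
    (hx : IsStr g k e1 e2 (cyc g i0) x) :
    ∃ m, m < (cyc g i0).card ∧ ∀ i ∈ cyc g i0, x.1 i = (g.perm ^ m) i := by
  have h0 : i0 ∈ cyc g i0 := self_mem_cyc g i0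
  have h1 : x.1 i0 ∈ cyc g i0 := (hx.2 i0 h0).1
  rw [cyc_eq_image] at h1
  obtain ⟨m, hm, hm'⟩ := Finset.mem_image.mp h1
  refine ⟨m, Finset.mem_range.mp hm, fun i hi => ?_⟩
  rw [cyc_eq_image] at hi
  obtain ⟨j, hj, rfl⟩ := Finset.mem_image.mp hi
  have h2 := hx.pow (cyc_Stb g i0) h0 j
  rw [h2, ← hm', ← Equiv.Perm.mul_apply, ← Equiv.Perm.mul_apply, ← pow_add, ← pow_add, add_comm]

theorem oneCycle_cases {g : MG r n} {i0 : Fin n} {e1 e2 : ZMod r} {x : Str r n}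
    (hx : IsStr g 0 e1 e2 (cyc g i0) x) :
    (∀ i ∈ cyc g i0, x.1 i = i) ∨
      ∃ m, 0 < m ∧ (cyc g i0).card = 2 * m ∧ ∀ i ∈ cyc g i0, x.1 i = (g.perm ^ m) i := by
  obtain ⟨m, hm, h⟩ := OneCycle_form hx
  have h0 : i0 ∈ cyc g i0 := self_mem_cyc g i0
  have h1 := (hx.2 i0 h0).2.1
  have h2 : x.1 i0 ∈ cyc g i0 := (hx.2 i0 h0).1
  rw [h _ h2, h _ h0, ← Equiv.Perm.mul_apply, ← pow_add, pow_zero, Equiv.Perm.one_apply,
    pow_eq_self_iff g h0] at h1
  rcases Nat.eq_zero_or_pos m with hm0 | hm0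
  · left
    intro i hi
    rw [h i hi, hm0, pow_zero, Equiv.Perm.one_apply]
  · right
    refine ⟨m, hm0, ?_, h⟩
    obtain ⟨c, hc⟩ := h1
    have h3 : c = 1 := by
      have h4 : c < 2 := by
        by_contra h5
        have : (cyc g i0).card * 2 ≤ (cyc g i0).card * c := Nat.mul_le_mul_left _ (by omega)
        omega
      have h6 : c ≠ 0 := by
        rintro rfl
        rw [mul_zero] at hc
        omega
      omega
    rw [h3, mul_one] at hc
    omega

theorem oneCycle_cases1 {g : MG r n} {i0 : Fin n} {e1 e2 : ZMod r} {x : Str r n}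
    (hx : IsStr g 1 e1 e2 (cyc g i0) x) :
    ∃ m, (cyc g i0).card = 2 * m + 1 ∧ ∀ i ∈ cyc g i0, x.1 i = (g.perm ^ (m + 1)) i := by
  obtain ⟨m, hm, h⟩ := OneCycle_form hx
  have h0 : i0 ∈ cyc g i0 := self_mem_cyc g i0
  have h1 := (hx.2 i0 h0).2.1
  have h2 : x.1 i0 ∈ cyc g i0 := (hx.2 i0 h0).1
  rw [h _ h2, h _ h0, ← Equiv.Perm.mul_apply, ← pow_add] at h1
  rcases Nat.eq_zero_or_pos m with hm0 | hm0
  · rw [hm0, add_zero, pow_zero, Equiv.Perm.one_apply] at h1
    have h3 := (pow_eq_self_iff g h0 1).mp h1.symm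
    have h4 : (cyc g i0).card = 1 := Nat.dvd_one.mp h3
    refine ⟨0, by omega, fun i hi => ?_⟩
    rw [h i hi, hm0, pow_zero, Equiv.Perm.one_apply, zero_add]
    exact ((pow_eq_self_iff g hi 1).mpr (by rw [h4])).symm
  · obtain ⟨m', rfl⟩ : ∃ m', m = m' + 1 := ⟨m - 1, by omega⟩
    have h3 : (g.perm ^ (2 * m' + 1)) i0 = i0 := by
      have e : m' + 1 + (m' + 1) = 1 + (2 * m' + 1) := by ring
      rw [e, pow_add, Equiv.Perm.mul_apply] at h1
      exact (g.perm ^ 1).injective h1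
    rw [pow_eq_self_iff g h0] at h3
    refine ⟨m', ?_, h⟩
    obtain ⟨c, hc⟩ := h3
    have h3 : c = 1 := by
      have h4 : c < 2 := by
        by_contra h5
        have : (cyc g i0).card * 2 ≤ (cyc g i0).card * c := Nat.mul_le_mul_left _ (by omega)
        omega
      have h6 : c ≠ 0 := by
        rintro rfl
        rw [mul_zero] at hc
        omega
      omega
    rw [h3, mul_one] at hc
    omega

theorem con_one (g : MG r n) (k : ℕ) (e1 e2 : ZMod r) (φ : Wt r n) (i0 : Fin n) :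
    con g k e1 e2 φ i0 (cyc g i0) = ∑ x with IsStr g k e1 e2 (cyc g i0) x, wt φ (cyc g i0) x := by
  unfold con
  refine Finset.sum_congr (Finset.filter_congr fun x _ => ?_) fun _ _ => rfl
  constructor
  · exact fun h => h.1
  · intro h
    refine ⟨h, ?_⟩
    rw [cyc_eq_of_mem (h.2 i0 (self_mem_cyc g i0)).1, Finset.union_self]

end GIM119
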