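import Pool.Agent.Lib.MP_119ee3_al.Basic
import Pool.Agent.Lib.MP_119ee3_al.Cyc

set_option autoImplicit false

/-!
# MP_119ee3_al: Products over 2-cycles.
-/

open Classical

noncomputable section

namespace GIM119

open MG

variable {r n : ℕ} [NeZero r]

/-- Splitting of a product over `T` along a transversal `R` of the involution `s`. -/
theorem Orient_split {T R : Finset (Fin n)} {s : Fin n → Fin n} (f : Fin n → ℂ)
    (hs : ∀ i ∈ T, s i ∈ T ∧ s (s i) = i) (hR : R ⊆ T)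
    (hRT : ∀ i ∈ T, (i ∈ R ↔ s i ∉ R)) :
    ∏ i ∈ T, f i = ∏ i ∈ R, f i * f (s i) := by
  have h1 : ∏ i ∈ T, f i = (∏ i ∈ T \ R, f i) * ∏ i ∈ R, f i := (Finset.prod_sdiff hR).symm
  have h2 : ∏ i ∈ T \ R, f i = ∏ i ∈ R, f (s i) := by
    symm
    refine Finset.prod_bij (fun i _ => s i) ?_ ?_ ?_ ?_
    · intro i hi
      have hiT := hR hi
      exact Finset.mem_sdiff.mpr ⟨(hs i hiT).1, (hRT i hiT).1 hi⟩
    · intro i hi j hj hij
      have hij' : s i = s j := hij
      rw [← (hs i (hR hi)).2, hij', (hs j (hR hj)).2]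
    · intro j hj
      obtain ⟨hjT, hjR⟩ := Finset.mem_sdiff.mp hj
      refine ⟨s j, ?_, (hs j hjT).2⟩
      by_contra h
      exact hjR ((hRT j hjT).2 h)
    · intro i hi
      rfl
  rw [h1, h2, Finset.prod_mul_distrib, mul_comm]

theorem prod_orient {T R : Finset (Fin n)} {s : Fin n → Fin n} {u : Fin n → ℂ}
    (hs : ∀ i ∈ T, s i ∈ T ∧ s (s i) = i ∧ s i ≠ i) (hu : ∀ i ∈ T, u (s i) = u i)
    (hR : R ⊆ T) (hRT : ∀ i ∈ T, (i ∈ R ↔ s i ∉ R)) :
    ∏ i ∈ T, (if i < s i then u i else 1) = ∏ i ∈ R, u i := by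
  rw [Orient_split (fun i => if i < s i then u i else 1)
    (fun i hi => ⟨(hs i hi).1, (hs i hi).2.1⟩) hR hRT]
  refine Finset.prod_congr rfl fun i hi => ?_
  obtain ⟨h1, h2, h3⟩ := hs i (hR hi)
  rcases lt_trichotomy i (s i) with h | h | h
  · simp only [h2, if_pos h, if_neg (not_lt.mpr h.le), mul_one]
  · exact absurd h.symm h3
  · simp only [h2, if_pos h, if_neg (not_lt.mpr h.le), one_mul]
    exact hu i (hR hi)

/-- The orientation sign. -/
def OrientO (s : Fin n → Fin n) (i : Fin n) : ℂ := if i < s i then 1 else -1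

theorem OrientO_sq (s : Fin n → Fin n) (i : Fin n) : OrientO s i * OrientO s i = 1 := by
  unfold OrientO
  split_ifs <;> norm_num

/-- The flip product in terms of the orientation signs. -/
theorem Orient_flip {g : MG r n} {T R : Finset (Fin n)} {s : Fin n → Fin n}
    (hs : ∀ i ∈ T, s i ∈ T ∧ s (s i) = i ∧ s i ≠ i ∧ s (g.perm i) = g.perm (s i))
    (hR : R ⊆ T) (hRT : ∀ i ∈ T, (i ∈ R ↔ s i ∉ R)) :
    ∏ i ∈ T, (if i < s i ∧ g.perm (s i) < g.perm i then (-1 : ℂ) else 1)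
      = ∏ i ∈ R, OrientO s i * OrientO s (g.perm i) := by
  rw [Orient_split (fun i => if i < s i ∧ g.perm (s i) < g.perm i then (-1 : ℂ) else 1)
    (fun i hi => ⟨(hs i hi).1, (hs i hi).2.1⟩) hR hRT]
  refine Finset.prod_congr rfl fun i hi => ?_
  obtain ⟨h1, h2, h3, h4⟩ := hs i (hR hi)
  have h5 : g.perm (s i) ≠ g.perm i := fun h => h3 (g.perm.injective h)
  simp only [OrientO, h2, h4]
  rcases lt_or_gt_of_ne h3 with h | h <;> rcases lt_or_gt_of_ne h5 with h' | h'
  · simp [h, h', not_lt.mpr h.le, not_lt.mpr h'.le]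
  · simp [h, h', not_lt.mpr h.le, not_lt.mpr h'.le]
  · have h6 : i < s i := h
    simp [h6, h', not_lt.mpr h6.le, not_lt.mpr h'.le]
  · have h6 : i < s i := h
    have h7 : g.perm i < g.perm (s i) := h'
    simp [h6, h7, not_lt.mpr h6.le, not_lt.mpr h7.le]

/-- The half of an even cycle. -/
theorem Orient_half {g : MG r n} {i0 : Fin n} {s : Fin n → Fin n} {m : ℕ} (hm : 0 < m)
    (hc : (cyc g i0).card = 2 * m) (hs : ∀ i ∈ cyc g i0, s i = (g.perm ^ m) i) :
    (∀ i ∈ cyc g i0, s i ∈ cyc g i0 ∧ s (s i) = i ∧ s i ≠ i ∧ s (g.perm i) = g.perm (s i)) ∧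
    ((Finset.range m).image fun l => (g.perm ^ l) i0) ⊆ cyc g i0 ∧
    (∀ i ∈ cyc g i0, (i ∈ ((Finset.range m).image fun l => (g.perm ^ l) i0) ↔
      s i ∉ ((Finset.range m).image fun l => (g.perm ^ l) i0))) ∧
    ∀ f : Fin n → ℂ, ∏ i ∈ ((Finset.range m).image fun l => (g.perm ^ l) i0), f i
      = ∏ l ∈ Finset.range m, f ((g.perm ^ l) i0) := by
  have hstb := cyc_Stb g i0
  have hpow : ∀ i ∈ cyc g i0, ∀ l : ℕ, (g.perm ^ l) i ∈ cyc g i0 := by
    intro i hi l
    have h := pow_mem_cyc g i l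
    rwa [cyc_eq_of_mem hi] at h
  have hsc : ∀ i ∈ cyc g i0, s i ∈ cyc g i0 := by
    intro i hi
    rw [hs i hi]
    exact hpow i hi m
  refine ⟨?_, ?_, ?_, ?_⟩
  · intro i hi
    refine ⟨hsc i hi, ?_, ?_, ?_⟩
    · rw [hs _ (hsc i hi), hs i hi, ← Equiv.Perm.mul_apply, ← pow_add, ← two_mul, ← hc]
      exact pow_card_cyc g hi
    · rw [hs i hi]
      intro h
      have h2 := (pow_eq_self_iff g hi m).1 h
      rw [hc] at h2
      have := Nat.le_of_dvd hm h2
      omega
    · rw [hs _ ((hstb i).2 hi), hs i hi, ← Equiv.Perm.mul_apply, ← Equiv.Perm.mul_apply,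
        ← pow_succ, ← pow_succ']
  · intro i hi
    obtain ⟨l, -, rfl⟩ := Finset.mem_image.1 hi
    exact pow_mem_cyc g i0 l
  · intro i hi
    have hi' := hi
    rw [cyc_eq_image] at hi'
    obtain ⟨l, hl, rfl⟩ := Finset.mem_image.1 hi'
    rw [Finset.mem_range, hc] at hl
    have hsi : s ((g.perm ^ l) i0) = (g.perm ^ (m + l)) i0 := by
      rw [hs _ hi, pow_add, Equiv.Perm.mul_apply]
    rw [hsi]
    have key : ∀ a, a < 2 * m → ((g.perm ^ a) i0 ∈
        ((Finset.range m).image fun l => (g.perm ^ l) i0) ↔ a < m) := by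
      intro a ha
      constructor
      · intro h
        obtain ⟨b, hb, hab⟩ := Finset.mem_image.1 h
        rw [Finset.mem_range] at hb
        have := pow_injOn_cyc g i0 (l := b) (m := a) (by omega) (by omega) hab
        omega
      · intro h
        exact Finset.mem_image.2 ⟨a, Finset.mem_range.2 h, rfl⟩
    rw [key l hl]
    by_cases h : l < m
    · rw [key (m + l) (by omega)]
      constructor
      · intro _
        omega
      · intro _
        exact h
    · have h2 : (g.perm ^ (m + l)) i0 = (g.perm ^ (l - m)) i0 := by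
        have h3 : m + l = (l - m) + 2 * m := by omega
        rw [h3, pow_add, Equiv.Perm.mul_apply, ← hc, pow_card_cyc g (self_mem_cyc g i0)]
      rw [h2, key (l - m) (by omega)]
      constructor
      · intro h4
        exact absurd h4 h
      · intro h4
        exact absurd (show l - m < m by omega) h4
  · intro f
    refine Finset.prod_image ?_
    intro a ha b hb hab
    have ha' := Finset.mem_range.1 ha
    have hb' := Finset.mem_range.1 hb
    exact pow_injOn_cyc g i0 (by omega) (by omega) hab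

/-- Telescoping. -/
theorem Orient_tele (o : ℕ → ℂ) (ho : ∀ l, o l * o l = 1) (m : ℕ) :
    ∏ l ∈ Finset.range m, o l * o (l + 1) = o 0 * o m := by
  induction m with
  | zero => simp [ho 0]
  | succ m ih =>
    rw [Finset.prod_range_succ, ih]
    calc o 0 * o m * (o m * o (m + 1)) = o 0 * (o m * o m) * o (m + 1) := by ring
      _ = o 0 * o (m + 1) := by rw [ho m, mul_one]

theorem flip_one {g : MG r n} {i0 : Fin n} {s : Fin n → Fin n} {m : ℕ} (hm : 0 < m)
    (hc : (cyc g i0).card = 2 * m) (hs : ∀ i ∈ cyc g i0, s i = (g.perm ^ m) i) :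
    ∏ i ∈ cyc g i0, (if i < s i ∧ g.perm (s i) < g.perm i then (-1 : ℂ) else 1) = -1 := by
  obtain ⟨h1, h2, h3, h4⟩ := Orient_half hm hc hs
  rw [Orient_flip h1 h2 h3, h4]
  have h5 : ∀ l : ℕ, g.perm ((g.perm ^ l) i0) = (g.perm ^ (l + 1)) i0 := by
    intro l
    rw [pow_succ', Equiv.Perm.mul_apply]
  simp only [h5]
  rw [Orient_tele (fun l => OrientO s ((g.perm ^ l) i0)) (fun l => OrientO_sq s _) m]
  obtain ⟨-, h6, h7, -⟩ := h1 i0 (self_mem_cyc g i0)
  have h8 : (g.perm ^ m) i0 = s i0 := (hs i0 (self_mem_cyc g i0)).symm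
  simp only [h8, pow_zero, Equiv.Perm.coe_one, id_eq, OrientO, h6]
  rcases lt_or_gt_of_ne h7 with h | h
  · simp [h, not_lt.mpr h.le]
  · have h9 : i0 < s i0 := h
    simp [h9, not_lt.mpr h9.le]

/-- A product over a stable set does not change under `g.perm`. -/
theorem Orient_prod_perm {g : MG r n} {S : Finset (Fin n)} (hS : Stb g S) (f : Fin n → ℂ) :
    ∏ i ∈ S, f (g.perm i) = ∏ i ∈ S, f i := by
  refine Finset.prod_bij (fun i _ => g.perm i) ?_ ?_ ?_ ?_
  · intro i hi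
    exact (hS i).2 hi
  · intro i _ j _ h
    exact g.perm.injective h
  · intro j hj
    refine ⟨g.perm⁻¹ j, ?_, by simp⟩
    rw [← hS]
    simpa using hj
  · intro i _
    rfl

theorem flip_two {g : MG r n} {i0 : Fin n} {T : Finset (Fin n)} {s : Fin n → Fin n}
    (hT : Stb g T) (hi : cyc g i0 ⊆ T)
    (hs : ∀ i ∈ T, s i ∈ T ∧ s (s i) = i ∧ s (g.perm i) = g.perm (s i))
    (hR : ∀ i ∈ T, (i ∈ cyc g i0 ↔ s i ∉ cyc g i0)) :
    ∏ i ∈ T, (if i < s i ∧ g.perm (s i) < g.perm i then (-1 : ℂ) else 1) = 1 := by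
  have h1 : ∀ i ∈ T, s i ∈ T ∧ s (s i) = i ∧ s i ≠ i ∧ s (g.perm i) = g.perm (s i) := by
    intro i hi
    obtain ⟨h1, h2, h3⟩ := hs i hi
    refine ⟨h1, h2, ?_, h3⟩
    intro h
    have h4 := hR i hi
    rw [h] at h4
    by_cases h5 : i ∈ cyc g i0
    · exact (h4.1 h5) h5
    · exact h5 (h4.2 h5)
  rw [Orient_flip h1 hi hR, Finset.prod_mul_distrib,
    Orient_prod_perm (cyc_Stb g i0) (fun i => OrientO s i), ← Finset.prod_mul_distrib]
  exact Finset.prod_eq_one fun i _ => OrientO_sq s i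

end GIM119
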