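import Pool.Agent.Lib.MP_119ee3_al.Basic

set_option autoImplicit false

/-!
# MP_119ee3_al: Shift of colours.
-/

open Classical

noncomputable section

namespace GIM119

open MG

variable {r n : ℕ} [NeZero r]

theorem Shift_mem {T : Finset (Fin n)} {c : ZMod r} {x : Str r n} {i : Fin n} (hi : i ∈ T) :
    (shiftS T c x).2 i = x.2 i + c := by
  show (if i ∈ T then x.2 i + c else x.2 i) = _
  rw [if_pos hi]

theorem Shift_notMem {T : Finset (Fin n)} {c : ZMod r} {x : Str r n} {i : Fin n} (hi : i ∉ T) :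
    (shiftS T c x).2 i = x.2 i := by
  show (if i ∈ T then x.2 i + c else x.2 i) = _
  rw [if_neg hi]

theorem isStr_shiftS {g : MG r n} {k : ℕ} {e1 e2 c : ZMod r} {T : Finset (Fin n)}
    {x : Str r n} (hT : Stb g T) :
    IsStr g k e1 e2 T (shiftS T c x) ↔ IsStr g k e1 e2 T x := by
  unfold IsStr
  refine and_congr ?_ ?_
  · refine forall_congr' (fun i => forall_congr' (fun hi => ?_))
    rw [Shift_notMem hi]
    rfl
  · refine forall_congr' (fun i => forall_congr' (fun hi => ?_))
    refine and_congr_right (fun h1 => ?_)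
    have h1' : x.1 i ∈ T := h1
    refine and_congr Iff.rfl (and_congr Iff.rfl (and_congr ?_ ?_))
    · show (shiftS T c x).2 (x.1 i) = _ ↔ _
      rw [Shift_mem h1', Shift_mem hi]
      constructor
      · intro h
        linear_combination h
      · intro h
        linear_combination h
    · rw [Shift_mem hi, Shift_mem ((hT i).2 hi)]
      show x.2 (g.perm i) + c = x.2 i + c + g.col i + g.col (x.1 i) + e2 ↔ _
      constructor
      · intro h
        linear_combination h
      · intro h
        linear_combination h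

theorem Shift_add (T : Finset (Fin n)) (c c' : ZMod r) (x : Str r n) :
    shiftS T c (shiftS T c' x) = shiftS T (c + c') x := by
  refine Prod.ext rfl ?_
  funext i
  by_cases hi : i ∈ T
  · rw [Shift_mem hi, Shift_mem hi, Shift_mem hi]
    ring
  · rw [Shift_notMem hi, Shift_notMem hi, Shift_notMem hi]

theorem Shift_zero (T : Finset (Fin n)) (x : Str r n) : shiftS T (0 : ZMod r) x = x := by
  refine Prod.ext rfl ?_
  funext i
  by_cases hi : i ∈ T
  · rw [Shift_mem hi, add_zero]
  · rw [Shift_notMem hi]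

theorem sum_eq_zero_of_shift {g : MG r n} {k : ℕ} {e1 e2 c : ZMod r} {T : Finset (Fin n)}
    (hT : Stb g T) (φ : Wt r n) (P : (Fin n → Fin n) → Prop) {ξ : ℂ} (hξ : ξ ≠ 1)
    (h : ∀ x : Str r n, IsStr g k e1 e2 T x → P x.1 →
      wt φ T (shiftS T c x) = ξ * wt φ T x) :
    ∑ x with (IsStr g k e1 e2 T x ∧ P x.1), wt φ T x = 0 := by
  have h1 : ∑ x with (IsStr g k e1 e2 T x ∧ P x.1), wt φ T x =
      ∑ x with (IsStr g k e1 e2 T x ∧ P x.1), wt φ T (shiftS T c x) := by
    symm
    refine Finset.sum_bij (fun x _ => shiftS T c x) ?_ ?_ ?_ ?_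
    · intro x hx
      rw [Finset.mem_filter] at hx ⊢
      exact ⟨Finset.mem_univ _, (isStr_shiftS hT).2 hx.2.1, hx.2.2⟩
    · intro x _ y _ hxy
      have := congrArg (shiftS T (-c)) hxy
      rwa [Shift_add, Shift_add, neg_add_cancel, Shift_zero, Shift_zero] at this
    · intro y hy
      rw [Finset.mem_filter] at hy
      refine ⟨shiftS T (-c) y, ?_, ?_⟩
      · rw [Finset.mem_filter]
        exact ⟨Finset.mem_univ _, (isStr_shiftS hT).2 hy.2.1, hy.2.2⟩
      · rw [Shift_add, add_neg_cancel, Shift_zero]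
    · intro x _
      rfl
  have h2 : ∑ x with (IsStr g k e1 e2 T x ∧ P x.1), wt φ T (shiftS T c x) =
      ξ * ∑ x with (IsStr g k e1 e2 T x ∧ P x.1), wt φ T x := by
    rw [Finset.mul_sum]
    refine Finset.sum_congr rfl (fun x hx => ?_)
    rw [Finset.mem_filter] at hx
    exact h x hx.2.1 hx.2.2
  have h3 : (1 - ξ) * ∑ x with (IsStr g k e1 e2 T x ∧ P x.1), wt φ T x = 0 := by
    rw [sub_mul, one_mul, ← h2, ← h1, sub_self]
  rcases mul_eq_zero.1 h3 with h4 | h4
  · exact absurd (sub_eq_zero.1 h4).symm hξ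
  · exact h4

end GIM119
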