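import Pool.Agent.Lib.MP_119ee3_al.Basic
import Pool.Agent.Lib.MP_119ee3_al.Chars
import Pool.Agent.Lib.MP_119ee3_al.Cyc
import Pool.Agent.Lib.MP_119ee3_al.Shift
import Pool.Agent.Lib.MP_119ee3_al.OneCycle
import Pool.Agent.Lib.MP_119ee3_al.Orient

set_option autoImplicit false

/-!
# MP_119ee3_al: Identity F1, one cycle.
-/

open Classical

noncomputable section

namespace GIM119

open MG

variable {r n : ℕ} [NeZero r]

/-- partial sums of the colours along the cycle -/
def L1One_A (g : MG r n) (M : ℕ) (i : Fin n) : ZMod r :=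
  ∑ j ∈ Finset.range M, g.col ((g.perm ^ j) i)

theorem L1One_A_perm (g : MG r n) (M : ℕ) (i : Fin n) :
    L1One_A g M (g.perm i) = L1One_A g M i + g.col ((g.perm ^ M) i) - g.col i := by
  have h1 : L1One_A g (M + 1) i = L1One_A g M i + g.col ((g.perm ^ M) i) :=
    Finset.sum_range_succ _ _
  have h2 : L1One_A g (M + 1) i = L1One_A g M (g.perm i) + g.col i := by
    unfold L1One_A
    rw [Finset.sum_range_succ']
    refine congrArg₂ _ (Finset.sum_congr rfl fun j _ => ?_) ?_
    · rw [pow_succ, Equiv.Perm.mul_apply]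
    · simp
  rw [← h1, h2, add_sub_cancel_right]

theorem L1One_A_add (g : MG r n) (M N : ℕ) (i : Fin n) :
    L1One_A g (M + N) i = L1One_A g M i + L1One_A g N ((g.perm ^ M) i) := by
  unfold L1One_A
  rw [Finset.sum_range_add]
  refine congrArg₂ _ rfl (Finset.sum_congr rfl fun j _ => ?_)
  rw [← Equiv.Perm.mul_apply, ← pow_add, add_comm j M]

theorem L1One_A_card (g : MG r n) (i0 : Fin n) {i : Fin n} (hi : i ∈ cyc g i0) :
    L1One_A g (cyc g i0).card i = ∑ j ∈ cyc g i0, g.col j := by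
  have hc : cyc g i = cyc g i0 := cyc_eq_of_mem hi
  have h : ∑ j ∈ cyc g i, g.col j
      = ∑ j ∈ Finset.range (cyc g i).card, g.col ((g.perm ^ j) i) := by
    conv_lhs => rw [cyc_eq_image g i]
    rw [Finset.sum_image]
    intro l hl m hm h
    exact pow_injOn_cyc g i (Finset.mem_range.1 hl) (Finset.mem_range.1 hm) h
  rw [← hc, h]
  rfl

theorem L1One_A_small (g : MG r n) {k : ℕ} (hk : k ≤ 1) (i : Fin n) :
    L1One_A g k i = k * g.col i := by
  have h : k = 0 ∨ k = 1 := by omega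
  rcases h with rfl | rfl
  · simp [L1One_A]
  · simp [L1One_A]

theorem L1One_iter {g : MG r n} {k : ℕ} {e1 : ZMod r} {i0 : Fin n} {x : Str r n}
    (hx : IsStr g k e1 0 (cyc g i0) x) {M : ℕ} (hM : ∀ i ∈ cyc g i0, x.1 i = (g.perm ^ M) i)
    {i : Fin n} (hi : i ∈ cyc g i0) (l : ℕ) :
    x.2 ((g.perm ^ l) i) = x.2 i + L1One_A g l i + L1One_A g l ((g.perm ^ M) i) := by
  induction l with
  | zero => simp [L1One_A]
  | succ l ih =>
    have hmem : (g.perm ^ l) i ∈ cyc g i0 := by
      rw [← cyc_eq_of_mem hi]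
      exact pow_mem_cyc g i l
    obtain ⟨-, -, -, -, h5⟩ := hx.2 _ hmem
    rw [pow_succ', Equiv.Perm.mul_apply, h5, ih, hM _ hmem, L1One_A_add, L1One_A_add,
      L1One_A_small g le_rfl, L1One_A_small g le_rfl, ← Equiv.Perm.mul_apply,
      ← Equiv.Perm.mul_apply, ← pow_add, ← pow_add, add_comm M l]
    simp only [Nat.cast_one, one_mul, add_zero]
    ring

/-- a structure with `s = p^M`, `2M = L + k` forces the colour sum to vanish -/
theorem L1One_sum_zero {g : MG r n} {k : ℕ} (hk : k ≤ 1) {i0 : Fin n} {x : Str r n}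
    (hx : IsStr g k 0 0 (cyc g i0) x) {M : ℕ} (hM : ∀ i ∈ cyc g i0, x.1 i = (g.perm ^ M) i)
    (h2 : M + M = (cyc g i0).card + k) : ∑ j ∈ cyc g i0, g.col j = 0 := by
  have hi := self_mem_cyc g i0
  have h3 := L1One_iter hx hM hi M
  obtain ⟨-, -, -, h4, -⟩ := hx.2 _ hi
  rw [hM _ hi, h3, add_assoc, ← L1One_A_add, h2, L1One_A_add, L1One_A_card g i0 hi,
    pow_card_cyc g hi, L1One_A_small g hk] at h4
  have h5 : x.2 i0 + (∑ j ∈ cyc g i0, g.col j + k * g.col i0)
      = (x.2 i0 + k * g.col i0) + ∑ j ∈ cyc g i0, g.col j := by ring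
  rw [h5, add_zero] at h4
  exact left_eq_add.1 h4.symm

/-- structures with `s = id` -/
def L1One_D (g : MG r n) (i0 : Fin n) : Finset (Str r n) :=
  Finset.univ.filter fun x => IsStr g 0 0 0 (cyc g i0) x ∧ ∀ i ∈ cyc g i0, x.1 i = i

/-- structures with `s = p^M` -/
def L1One_H (g : MG r n) (k M : ℕ) (i0 : Fin n) : Finset (Str r n) :=
  Finset.univ.filter fun x => IsStr g k 0 0 (cyc g i0) x ∧
    ∀ i ∈ cyc g i0, x.1 i = (g.perm ^ M) i

theorem L1One_card {g : MG r n} {k : ℕ} (hk : k ≤ 1) {i0 : Fin n} {M : ℕ}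
    (h2 : M + M = (cyc g i0).card + k) (h0 : ∑ j ∈ cyc g i0, g.col j = 0) :
    (L1One_D g i0).card = (L1One_H g k M i0).card := by
  have hpow : ∀ i ∈ cyc g i0, ∀ l : ℕ, (g.perm ^ l) i ∈ cyc g i0 := by
    intro i hi l
    rw [← cyc_eq_of_mem hi]
    exact pow_mem_cyc g i l
  have hperm : ∀ i ∈ cyc g i0, g.perm i ∈ cyc g i0 := fun i hi => (cyc_Stb g i0 i).2 hi
  have h2M : ∀ i ∈ cyc g i0, (g.perm ^ M) ((g.perm ^ M) i) = (g.perm ^ k) i := by
    intro i hi
    rw [← Equiv.Perm.mul_apply, ← pow_add, h2, add_comm, pow_add, Equiv.Perm.mul_apply,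
      pow_card_cyc g hi]
  have hA2 : ∀ i ∈ cyc g i0, L1One_A g M i + L1One_A g M ((g.perm ^ M) i) = k * g.col i := by
    intro i hi
    rw [← L1One_A_add, h2, L1One_A_add, L1One_A_card g i0 hi, pow_card_cyc g hi,
      L1One_A_small g hk, h0, zero_add]
  have hcomm : ∀ i, (g.perm ^ M) (g.perm i) = g.perm ((g.perm ^ M) i) := by
    intro i
    rw [← Equiv.Perm.mul_apply, ← Equiv.Perm.mul_apply, ← pow_succ, ← pow_succ']
  refine Finset.card_nbij'
    (fun x => (fun i => if i ∈ cyc g i0 then (g.perm ^ M) i else i,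
      fun i => if i ∈ cyc g i0 then x.2 i + L1One_A g M i else 0))
    (fun x => (fun i => i, fun i => if i ∈ cyc g i0 then x.2 i - L1One_A g M i else 0))
    ?_ ?_ ?_ ?_
  · intro x hx
    simp only [L1One_D, L1One_H, Finset.coe_filter, Finset.mem_univ, true_and,
      Set.mem_ofPred_eq] at hx ⊢
    obtain ⟨hx1, hx2⟩ := hx
    have hM0 : ∀ i ∈ cyc g i0, x.1 i = (g.perm ^ 0) i := by simpa using hx2
    refine ⟨⟨fun i hi => by simp [hi], fun i hi => ?_⟩, fun i hi => by simp [hi]⟩
    have hp := hperm i hi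
    have hpM := hpow i hi M
    have h3 := L1One_iter hx1 hM0 hi M
    have h4 := L1One_iter hx1 hM0 hi 1
    rw [pow_zero, Equiv.Perm.one_apply] at h3 h4
    rw [pow_one, L1One_A_small g le_rfl, Nat.cast_one, one_mul] at h4
    simp only [hi, hp, hpM, if_true]
    refine ⟨trivial, h2M i hi, hcomm i, ?_, ?_⟩
    · rw [h3, add_zero, ← hA2 i hi]
      ring
    · rw [h4, L1One_A_perm]
      ring
  · intro x hx
    simp only [L1One_D, L1One_H, Finset.coe_filter, Finset.mem_univ, true_and,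
      Set.mem_ofPred_eq] at hx ⊢
    obtain ⟨hx1, hx2⟩ := hx
    refine ⟨⟨fun i hi => by simp [hi], fun i hi => ?_⟩, fun i hi => trivial⟩
    have hp := hperm i hi
    obtain ⟨-, -, -, -, h5⟩ := hx1.2 i hi
    rw [hx2 i hi] at h5
    simp only [hi, hp, if_true, pow_zero, Equiv.Perm.one_apply, true_and, Nat.cast_zero, zero_mul,
      add_zero]
    rw [h5, L1One_A_perm]
    ring
  · intro x hx
    simp only [L1One_D, Finset.coe_filter, Finset.mem_univ, true_and,
      Set.mem_ofPred_eq] at hx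
    obtain ⟨hx1, hx2⟩ := hx
    refine Prod.ext (funext fun i => ?_) (funext fun i => ?_)
    · by_cases hi : i ∈ cyc g i0
      · exact (hx2 i hi).symm
      · exact (hx1.1 i hi).1.symm
    · by_cases hi : i ∈ cyc g i0
      · simp [hi]
      · simp [hi, (hx1.1 i hi).2]
  · intro x hx
    simp only [L1One_H, Finset.coe_filter, Finset.mem_univ, true_and,
      Set.mem_ofPred_eq] at hx
    obtain ⟨hx1, hx2⟩ := hx
    refine Prod.ext (funext fun i => ?_) (funext fun i => ?_)
    · by_cases hi : i ∈ cyc g i0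
      · simp [hi, hx2 i hi]
      · simp [hi, (hx1.1 i hi).1]
    · by_cases hi : i ∈ cyc g i0
      · simp [hi]
      · simp [hi, (hx1.1 i hi).2]

theorem L1One_theta_zero {θ : ZMod r → ℂ} (hθ : ∀ x y, θ (x + y) = θ x * θ y)
    (hθ2 : θ (hf r) = -1) : θ 0 = 1 := by
  have h := hθ (hf r) 0
  rw [add_zero, hθ2] at h
  linear_combination h

/-- weight of a structure with `s = id` -/
theorem L1One_wt_D (hr : 2 ∣ r) {θ : ZMod r → ℂ} (hθ : ∀ x y, θ (x + y) = θ x * θ y)
    (hθ2 : θ (hf r) = -1) {g : MG r n} {i0 : Fin n} {x : Str r n}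
    (hx : IsStr g 0 0 0 (cyc g i0) x) (hs : ∀ i ∈ cyc g i0, x.1 i = i) :
    wt (phi1 θ g) (cyc g i0) x =
      if sg (x.2 i0) = 1 then 1 else θ (∑ j ∈ cyc g i0, g.col j) := by
  have hM0 : ∀ i ∈ cyc g i0, x.1 i = (g.perm ^ 0) i := by simpa using hs
  have hsg : ∀ i ∈ cyc g i0, sg (x.2 i) = sg (x.2 i0) := by
    intro i hi
    rw [cyc_eq_image, Finset.mem_image] at hi
    obtain ⟨l, -, rfl⟩ := hi
    have h3 := L1One_iter hx hM0 (self_mem_cyc g i0) l
    rw [pow_zero, Equiv.Perm.one_apply] at h3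
    rw [h3, add_assoc, ← two_mul, sg_add hr, sg_two_mul hr, mul_one]
  have hθs : ∀ s : Finset (Fin n), θ (∑ j ∈ s, g.col j) = ∏ j ∈ s, θ (g.col j) := by
    intro s
    induction s using Finset.induction_on with
    | empty => simpa using L1One_theta_zero hθ hθ2
    | insert a s ha ih => rw [Finset.sum_insert ha, Finset.prod_insert ha, hθ, ih]
  unfold wt
  have h1 : ∀ i ∈ cyc g i0, phi1 θ g i (x.1 i) (x.2 i) (x.2 (x.1 i))
      = if sg (x.2 i0) = 1 then 1 else θ (g.col i) := by
    intro i hi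
    unfold phi1
    rw [if_pos (hs i hi), hsg i hi]
  rw [Finset.prod_congr rfl h1]
  by_cases h : sg (x.2 i0) = 1
  · simp [h]
  · simp [h, hθs]

/-- weight of a structure with `s = p^m` -/
theorem L1One_wt_H {θ : ZMod r → ℂ} {g : MG r n} {i0 : Fin n} {m : ℕ} (hm : 0 < m)
    (hc : (cyc g i0).card = 2 * m) {x : Str r n}
    (hs : ∀ i ∈ cyc g i0, x.1 i = (g.perm ^ m) i) :
    wt (phi1 θ g) (cyc g i0) x = -1 := by
  rw [← flip_one hm hc hs]
  unfold wt
  refine Finset.prod_congr rfl fun i hi => ?_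
  have hne : x.1 i ≠ i := by
    intro h
    rw [hs i hi, pow_eq_self_iff g hi, hc] at h
    have := Nat.le_of_dvd hm h
    omega
  unfold phi1
  rw [if_neg hne]

theorem L1_one (hr : 2 ∣ r) {θ : ZMod r → ℂ} (hθ : ∀ x y, θ (x + y) = θ x * θ y)
    (hθ2 : θ (hf r) = -1) (g : MG r n) (i0 : Fin n) :
    con g 0 0 0 (phi1 θ g) i0 (cyc g i0) = con g 1 0 0 phi0 i0 (cyc g i0) := by
  have hself := self_mem_cyc g i0
  have hpos : 0 < (cyc g i0).card := Finset.card_pos.2 ⟨i0, hself⟩
  rw [con_one, con_one]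
  -- the right side
  have hR : ∑ x with IsStr g 1 0 0 (cyc g i0) x, wt phi0 (cyc g i0) x
      = ((Finset.univ.filter fun x : Str r n => IsStr g 1 0 0 (cyc g i0) x).card : ℂ) := by
    rw [Finset.card_eq_sum_ones, Nat.cast_sum]
    refine Finset.sum_congr rfl fun x _ => ?_
    simp [wt]
  rw [hR]
  -- split the left side
  have hsplit : ∑ x with IsStr g 0 0 0 (cyc g i0) x, wt (phi1 θ g) (cyc g i0) x
      = ∑ x with (IsStr g 0 0 0 (cyc g i0) x ∧ ∀ i ∈ cyc g i0, x.1 i = i),
          wt (phi1 θ g) (cyc g i0) x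
        + ∑ x with (IsStr g 0 0 0 (cyc g i0) x ∧ ¬ ∀ i ∈ cyc g i0, x.1 i = i),
          wt (phi1 θ g) (cyc g i0) x := by
    rw [← Finset.filter_filter, ← Finset.filter_filter,
      Finset.sum_filter_add_sum_filter_not]
  rw [hsplit]
  by_cases h0 : ∑ j ∈ cyc g i0, g.col j = 0
  · -- the colour sum vanishes
    have hD : ∑ x with (IsStr g 0 0 0 (cyc g i0) x ∧ ∀ i ∈ cyc g i0, x.1 i = i),
          wt (phi1 θ g) (cyc g i0) x = ((L1One_D g i0).card : ℂ) := by
      rw [Finset.card_eq_sum_ones, Nat.cast_sum]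
      refine Finset.sum_congr rfl fun x hx => ?_
      simp only [L1One_D, Finset.mem_filter, Finset.mem_univ, true_and] at hx
      rw [L1One_wt_D hr hθ hθ2 hx.1 hx.2, h0, L1One_theta_zero hθ hθ2]
      simp
    rw [hD]
    rcases Nat.even_or_odd' (cyc g i0).card with ⟨m, hm | hm⟩
    · have hm0 : 0 < m := by omega
      have hH : ∑ x with (IsStr g 0 0 0 (cyc g i0) x ∧ ¬ ∀ i ∈ cyc g i0, x.1 i = i),
          wt (phi1 θ g) (cyc g i0) x = -((L1One_H g 0 m i0).card : ℂ) := by
        rw [Finset.card_eq_sum_ones, Nat.cast_sum, ← Finset.sum_neg_distrib]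
        refine Finset.sum_congr (Finset.filter_congr fun x _ => ?_) fun x hx => ?_
        · refine and_congr_right fun hx => ?_
          rcases oneCycle_cases hx with h | ⟨m', hm', hc', h'⟩
          · refine ⟨fun h1 => (h1 h).elim, fun h1 _ => ?_⟩
            have h2 := h1 i0 hself
            rw [h i0 hself] at h2
            have h3 := (pow_eq_self_iff g hself m).1 h2.symm
            have := Nat.le_of_dvd hm0 h3
            omega
          · have hmm : m' = m := by omega
            subst hmm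
            refine ⟨fun _ => h', fun _ h1 => ?_⟩
            have h2 := h' i0 hself
            rw [h1 i0 hself] at h2
            have h3 := (pow_eq_self_iff g hself m').1 h2.symm
            have := Nat.le_of_dvd hm0 h3
            omega
        · have hx2 : IsStr g 0 0 0 (cyc g i0) x ∧ ∀ i ∈ cyc g i0, x.1 i = (g.perm ^ m) i := by
            simpa [L1One_H] using hx
          rw [L1One_wt_H hm0 hm hx2.2]
          simp
      have hE : (Finset.univ.filter fun x : Str r n => IsStr g 1 0 0 (cyc g i0) x) = ∅ := by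
        refine Finset.filter_eq_empty_iff.2 fun x _ hx => ?_
        obtain ⟨m', hm', -⟩ := oneCycle_cases1 hx
        omega
      rw [hH, hE, L1One_card (k := 0) (by norm_num) (M := m) (by omega) h0]
      simp
    · have hE : (Finset.univ.filter fun x : Str r n => IsStr g 0 0 0 (cyc g i0) x ∧
          ¬ ∀ i ∈ cyc g i0, x.1 i = i) = ∅ := by
        refine Finset.filter_eq_empty_iff.2 fun x _ hx => ?_
        rcases oneCycle_cases hx.1 with h | ⟨m', hm', hc', h'⟩
        · exact hx.2 h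
        · omega
      have hY : (Finset.univ.filter fun x : Str r n => IsStr g 1 0 0 (cyc g i0) x)
          = L1One_H g 1 (m + 1) i0 := by
        refine Finset.filter_congr fun x _ => ?_
        refine ⟨fun hx => ⟨hx, ?_⟩, fun hx => hx.1⟩
        obtain ⟨m', hm', h'⟩ := oneCycle_cases1 hx
        have hmm : m' = m := by omega
        subst hmm
        exact h'
      rw [hE, hY, Finset.sum_empty, add_zero,
        L1One_card (k := 1) (by norm_num) (M := m + 1) (by omega) h0]
  · -- the colour sum does not vanish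
    have hD : ∑ x with (IsStr g 0 0 0 (cyc g i0) x ∧ ∀ i ∈ cyc g i0, x.1 i = i),
          wt (phi1 θ g) (cyc g i0) x = 0 := by
      refine Eq.trans (Finset.sum_congr (by ext x; simp) fun _ _ => rfl)
        (sum_eq_zero_of_shift (g := g) (k := 0) (e1 := 0) (e2 := 0) (c := 1) (cyc_Stb g i0)
        (phi1 θ g) (fun s => ∀ i ∈ cyc g i0, s i = i) (ξ := -1) (by norm_num)
        fun x hx hs => ?_)
      have hM0 : ∀ i ∈ cyc g i0, x.1 i = (g.perm ^ 0) i := by simpa using hs
      have h3 := L1One_iter hx hM0 hself (cyc g i0).card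
      rw [pow_zero, Equiv.Perm.one_apply, pow_card_cyc g hself, L1One_A_card g i0 hself,
        add_assoc, ← two_mul] at h3
      have h4 : 2 * ∑ j ∈ cyc g i0, g.col j = 0 := left_eq_add.1 h3
      have h5 : ∑ j ∈ cyc g i0, g.col j = hf r :=
        ((two_mul_eq_zero_iff hr _).1 h4).resolve_left h0
      have hx' : IsStr g 0 0 0 (cyc g i0) (shiftS (cyc g i0) 1 x) :=
        (isStr_shiftS (cyc_Stb g i0)).2 hx
      rw [L1One_wt_D hr hθ hθ2 hx' hs, L1One_wt_D hr hθ hθ2 hx hs, h5, hθ2]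
      have h6 : (shiftS (cyc g i0) (1 : ZMod r) x).2 i0 = x.2 i0 + 1 := by
        simp [shiftS, hself]
      rw [h6, sg_add hr, sg_one hr]
      rcases sg_cases (x.2 i0) with h7 | h7
      · rw [h7]
        norm_num
      · rw [h7]
        norm_num
    have hE : (Finset.univ.filter fun x : Str r n => IsStr g 0 0 0 (cyc g i0) x ∧
          ¬ ∀ i ∈ cyc g i0, x.1 i = i) = ∅ := by
      refine Finset.filter_eq_empty_iff.2 fun x _ hx => ?_
      rcases oneCycle_cases hx.1 with h | ⟨m', hm', hc', h'⟩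
      · exact hx.2 h
      · exact h0 (L1One_sum_zero (k := 0) (by norm_num) hx.1 h' (by omega))
    have hY : (Finset.univ.filter fun x : Str r n => IsStr g 1 0 0 (cyc g i0) x) = ∅ := by
      refine Finset.filter_eq_empty_iff.2 fun x _ hx => ?_
      obtain ⟨m', hm', h'⟩ := oneCycle_cases1 hx
      exact h0 (L1One_sum_zero (k := 1) (by norm_num) hx h' (by omega))
    rw [hD, hE, hY]
    simp

end GIM119
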