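import Pool.Agent.Lib.MP_119ee3_al.Basic
import Pool.Agent.Lib.MP_119ee3_al.Chars
import Pool.Agent.Lib.MP_119ee3_al.Cyc
import Pool.Agent.Lib.MP_119ee3_al.Orient

set_option autoImplicit false

/-!
# MP_119ee3_al: Evaluation of the weight phi2.
-/

open Classical

noncomputable section

namespace GIM119

open MG

variable {r n : ℕ} [NeZero r]

/-- The conditions of an antisymmetric structure. -/
theorem EvalW2_facts (hr : 2 ∣ r) {g : MG r n} {T : Finset (Fin n)} {x : Str r n}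
    (hx : IsStr g 0 (hf r) 0 T x) :
    ∀ i ∈ T, x.1 i ∈ T ∧ x.1 (x.1 i) = i ∧ x.1 i ≠ i ∧ x.1 (g.perm i) = g.perm (x.1 i) ∧
      x.2 (x.1 i) = x.2 i + hf r ∧ x.2 (g.perm i) = x.2 i + g.col i + g.col (x.1 i) := by
  intro i hi
  obtain ⟨h1, h2, h3, h4, h5⟩ := hx.2 i hi
  have h6 : x.2 (x.1 i) = x.2 i + hf r := by
    rw [h4]
    push_cast
    ring
  refine ⟨h1, by simpa using h2, ?_, h3, h6, by rw [h5, add_zero]⟩
  intro h
  rw [h] at h6
  have h7 : x.2 i + 0 = x.2 i + hf r := by rw [add_zero]; exact h6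
  exact hf_ne_zero hr (add_left_cancel h7).symm

/-- The standard choice of the function `c`. -/
def EvalW2c (κ : ℂ) (x : Str r n) (i : Fin n) : ℂ :=
  if i < x.1 i then 1 else κ * sg (x.2 (x.1 i))

theorem EvalW2_kappa {κ : ℂ} (hκ : κ ^ 2 = (-1) ^ (r / 2)) : κ ≠ 0 := by
  rintro rfl
  rw [zero_pow two_ne_zero] at hκ
  exact pow_ne_zero _ (by norm_num : (-1 : ℂ) ≠ 0) hκ.symm

theorem EvalW2_sg_ne (x : ZMod r) : sg x ≠ 0 := by
  intro h
  have := sg_mul_self x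
  rw [h] at this
  simp at this

theorem EvalW2_sg_inv (x : ZMod r) : (sg x)⁻¹ = sg x := by
  exact inv_eq_of_mul_eq_one_left (sg_mul_self x)

theorem EvalW2c_spec (hr : 2 ∣ r) {κ : ℂ} (hκ : κ ^ 2 = (-1) ^ (r / 2)) {g : MG r n}
    {T : Finset (Fin n)} {x : Str r n} (hx : IsStr g 0 (hf r) 0 T x) :
    ∀ i ∈ T, EvalW2c κ x i ≠ 0 ∧ EvalW2c κ x (x.1 i) = κ * sg (x.2 i) * EvalW2c κ x i := by
  intro i hi
  obtain ⟨h1, h2, h3, h4, h5, h6⟩ := EvalW2_facts hr hx i hi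
  have hk := EvalW2_kappa hκ
  constructor
  · unfold EvalW2c
    split_ifs
    · exact one_ne_zero
    · exact mul_ne_zero hk (EvalW2_sg_ne _)
  · unfold EvalW2c
    rw [h2]
    rcases lt_or_gt_of_ne h3 with h | h
    · rw [if_pos h, if_neg (not_lt.mpr h.le), h5, sg_add hr, sg_hf hr, ← hκ]
      have h7 := sg_mul_self (x.2 i)
      have h8 : κ ^ 2 * κ ^ 2 = 1 := by
        rw [hκ, ← pow_add, ← two_mul, pow_mul]
        norm_num
      calc (1 : ℂ) = (sg (x.2 i) * sg (x.2 i)) * (κ ^ 2 * κ ^ 2) := by rw [h7, h8, one_mul]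
        _ = κ * sg (x.2 i) * (κ * (sg (x.2 i) * κ ^ 2)) := by ring
    · have h9 : i < x.1 i := h
      rw [if_pos h9, if_neg (not_lt.mpr h9.le), mul_one]

/-- `∏ d` over a transversal does not change under `g.perm`. -/
theorem EvalW2_prod_perm {g : MG r n} {T R : Finset (Fin n)} {s : Fin n → Fin n}
    (hT : Stb g T)
    (hs : ∀ i ∈ T, s i ∈ T ∧ s (s i) = i ∧ s i ≠ i ∧ s (g.perm i) = g.perm (s i))
    (hR : R ⊆ T) (hRT : ∀ i ∈ T, (i ∈ R ↔ s i ∉ R)) (d : Fin n → ℂ)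
    (hd : ∀ i ∈ T, d (s i) = d i) :
    ∏ i ∈ R, d (g.perm i) = ∏ i ∈ R, d i := by
  have h1 : ∏ i ∈ R, d (g.perm i) = ∏ i ∈ R.image g.perm, d i := by
    rw [Finset.prod_image]
    intro a _ b _ h
    exact g.perm.injective h
  have hmem : ∀ i, g.perm i ∈ R.image g.perm ↔ i ∈ R := by
    intro i
    constructor
    · intro h
      obtain ⟨j, hj, hji⟩ := Finset.mem_image.1 h
      rw [← g.perm.injective hji]
      exact hj
    · intro h
      exact Finset.mem_image_of_mem _ h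
  rw [h1, ← prod_orient (s := s) (T := T) (R := R.image g.perm)
      (fun i hi => ⟨(hs i hi).1, (hs i hi).2.1, (hs i hi).2.2.1⟩) hd,
    ← prod_orient (s := s) (T := T) (R := R)
      (fun i hi => ⟨(hs i hi).1, (hs i hi).2.1, (hs i hi).2.2.1⟩) hd hR hRT]
  · intro i hi
    obtain ⟨j, hj, rfl⟩ := Finset.mem_image.1 hi
    exact (hT j).2 (hR hj)
  · intro i hi
    obtain ⟨j, rfl⟩ := g.perm.surjective i
    have hj : j ∈ T := (hT j).1 hi
    rw [(hs j hj).2.2.2, hmem, hmem]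
    exact hRT j hj

theorem wt_phi2 (hr : 2 ∣ r) {κ : ℂ} (hκ : κ ^ 2 = (-1) ^ (r / 2)) {g : MG r n}
    {T R : Finset (Fin n)} {x : Str r n} (hT : Stb g T)
    (hx : IsStr g 0 (hf r) 0 T x) (hR : R ⊆ T)
    (hRT : ∀ i ∈ T, (i ∈ R ↔ x.1 i ∉ R)) (c : Fin n → ℂ)
    (hc : ∀ i ∈ T, c i ≠ 0 ∧ c (x.1 i) = κ * sg (x.2 i) * c i) :
    wt (phi2 κ g) T x = ∏ i ∈ R, sg (g.col i) * c (g.perm i) * (c i)⁻¹ := by
  have hF := EvalW2_facts hr hx
  have hk := EvalW2_kappa hκ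
  have hC := EvalW2c_spec hr hκ hx
  -- invariance of the factor
  have hu : ∀ i ∈ T, sg (g.col (x.1 i)) * EvalW2c κ x (g.perm (x.1 i)) * (EvalW2c κ x (x.1 i))⁻¹
      = sg (g.col i) * EvalW2c κ x (g.perm i) * (EvalW2c κ x i)⁻¹ := by
    intro i hi
    obtain ⟨h1, h2, h3, h4, h5, h6⟩ := hF i hi
    rw [← h4, (hC _ ((hT i).2 hi)).2, (hC i hi).2, h6, sg_add hr, sg_add hr, mul_inv, mul_inv,
      EvalW2_sg_inv]
    have h7 := sg_mul_self (x.2 i)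
    have h8 := sg_mul_self (g.col (x.1 i))
    have h9 : κ * κ⁻¹ = 1 := mul_inv_cancel₀ hk
    calc sg (g.col (x.1 i)) * (κ * (sg (x.2 i) * sg (g.col i) * sg (g.col (x.1 i)))
          * EvalW2c κ x (g.perm i)) * (κ⁻¹ * sg (x.2 i) * (EvalW2c κ x i)⁻¹)
        = (sg (x.2 i) * sg (x.2 i)) * (sg (g.col (x.1 i)) * sg (g.col (x.1 i))) * (κ * κ⁻¹)
          * (sg (g.col i) * EvalW2c κ x (g.perm i) * (EvalW2c κ x i)⁻¹) := by ring
      _ = _ := by rw [h7, h8, h9, one_mul, one_mul, one_mul]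
  have h0 : wt (phi2 κ g) T x
      = ∏ i ∈ R, sg (g.col i) * EvalW2c κ x (g.perm i) * (EvalW2c κ x i)⁻¹ := by
    rw [← prod_orient (s := x.1) (T := T) (R := R)
      (u := fun i => sg (g.col i) * EvalW2c κ x (g.perm i) * (EvalW2c κ x i)⁻¹)
      (fun i hi => ⟨(hF i hi).1, (hF i hi).2.1, (hF i hi).2.2.1⟩) hu hR hRT]
    unfold wt
    refine Finset.prod_congr rfl fun i hi => ?_
    obtain ⟨h1, h2, h3, h4, h5, h6⟩ := hF i hi
    simp only [phi2]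
    by_cases h : i < x.1 i
    · rw [if_pos h, if_pos h]
      have hc1 : EvalW2c κ x i = 1 := by
        unfold EvalW2c
        rw [if_pos h]
      have hc2 : EvalW2c κ x (g.perm i) = if g.perm i < g.perm (x.1 i) then 1
          else κ * sg (x.2 (x.1 i) + g.col (x.1 i) + g.col i) := by
        unfold EvalW2c
        rw [h4]
        have h7 := (hF _ h1).2.2.2.2.2
        rw [h2] at h7
        rw [h7]
      rw [hc1, hc2, inv_one, mul_one]
    · rw [if_neg h, if_neg h]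
  rw [h0]
  -- change of c
  have hd : ∀ i ∈ T, c (x.1 i) * (EvalW2c κ x (x.1 i))⁻¹ = c i * (EvalW2c κ x i)⁻¹ := by
    intro i hi
    rw [(hc i hi).2, (hC i hi).2, mul_inv]
    have h9 : κ * sg (x.2 i) ≠ 0 := mul_ne_zero hk (EvalW2_sg_ne _)
    calc κ * sg (x.2 i) * c i * ((κ * sg (x.2 i))⁻¹ * (EvalW2c κ x i)⁻¹)
        = (κ * sg (x.2 i) * (κ * sg (x.2 i))⁻¹) * (c i * (EvalW2c κ x i)⁻¹) := by ring
      _ = _ := by rw [mul_inv_cancel₀ h9, one_mul]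
  have h1 := EvalW2_prod_perm hT
    (fun i hi => ⟨(hF i hi).1, (hF i hi).2.1, (hF i hi).2.2.1, (hF i hi).2.2.2.1⟩) hR hRT
    (fun i => c i * (EvalW2c κ x i)⁻¹) hd
  have hRne : ∏ i ∈ R, c i * (EvalW2c κ x i)⁻¹ ≠ 0 := by
    refine Finset.prod_ne_zero_iff.2 fun i hi => ?_
    exact mul_ne_zero (hc i (hR hi)).1 (inv_ne_zero (hC i (hR hi)).1)
  have h2 : (∏ i ∈ R, sg (g.col i) * c (g.perm i) * (c i)⁻¹)
      * ∏ i ∈ R, c i * (EvalW2c κ x i)⁻¹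
      = (∏ i ∈ R, sg (g.col i) * EvalW2c κ x (g.perm i) * (EvalW2c κ x i)⁻¹)
        * ∏ i ∈ R, c (g.perm i) * (EvalW2c κ x (g.perm i))⁻¹ := by
    rw [← Finset.prod_mul_distrib, ← Finset.prod_mul_distrib]
    refine Finset.prod_congr rfl fun i hi => ?_
    have h3 := (hc i (hR hi)).1
    have h4 := (hC _ ((hT i).2 (hR hi))).1
    calc sg (g.col i) * c (g.perm i) * (c i)⁻¹ * (c i * (EvalW2c κ x i)⁻¹)
        = sg (g.col i) * c (g.perm i) * (EvalW2c κ x i)⁻¹ * (c i * (c i)⁻¹) := by ring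
      _ = sg (g.col i) * c (g.perm i) * (EvalW2c κ x i)⁻¹
          * (EvalW2c κ x (g.perm i) * (EvalW2c κ x (g.perm i))⁻¹) := by
        rw [mul_inv_cancel₀ h3, mul_inv_cancel₀ h4]
      _ = _ := by ring
  rw [h1] at h2
  exact (mul_right_cancel₀ hRne h2).symm

theorem EvalW2_tele (f : ℕ → ℂ) (hf : ∀ l, f l ≠ 0) (m : ℕ) :
    ∏ l ∈ Finset.range m, f (l + 1) * (f l)⁻¹ = f m * (f 0)⁻¹ := by
  induction m with
  | zero => simp [hf 0]
  | succ m ih =>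
    rw [Finset.prod_range_succ, ih]
    calc f m * (f 0)⁻¹ * (f (m + 1) * (f m)⁻¹)
        = f (m + 1) * (f 0)⁻¹ * (f m * (f m)⁻¹) := by ring
      _ = f (m + 1) * (f 0)⁻¹ := by rw [mul_inv_cancel₀ (hf m), mul_one]

theorem wt_phi2_one (hr : 2 ∣ r) {κ : ℂ} (hκ : κ ^ 2 = (-1) ^ (r / 2)) {g : MG r n}
    {i0 : Fin n} {m : ℕ} (hm : 0 < m) (hc : (cyc g i0).card = 2 * m) {x : Str r n}
    (hx : IsStr g 0 (hf r) 0 (cyc g i0) x) (hs : ∀ i ∈ cyc g i0, x.1 i = (g.perm ^ m) i) :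
    wt (phi2 κ g) (cyc g i0) x
      = κ * sg (x.2 i0) * sg (∑ l ∈ Finset.range m, g.col ((g.perm ^ l) i0)) := by
  obtain ⟨h1, h2, h3, h4⟩ := Orient_half hm hc hs
  have hC := EvalW2c_spec hr hκ hx
  rw [wt_phi2 hr hκ (cyc_Stb g i0) hx h2 h3 (EvalW2c κ x) hC, h4]
  have h5 : ∀ l : ℕ, g.perm ((g.perm ^ l) i0) = (g.perm ^ (l + 1)) i0 := by
    intro l
    rw [pow_succ', Equiv.Perm.mul_apply]
  simp only [h5]
  have h6 : ∏ l ∈ Finset.range m, sg (g.col ((g.perm ^ l) i0))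
      * EvalW2c κ x ((g.perm ^ (l + 1)) i0) * (EvalW2c κ x ((g.perm ^ l) i0))⁻¹
      = (∏ l ∈ Finset.range m, sg (g.col ((g.perm ^ l) i0)))
        * ∏ l ∈ Finset.range m, EvalW2c κ x ((g.perm ^ (l + 1)) i0)
          * (EvalW2c κ x ((g.perm ^ l) i0))⁻¹ := by
    rw [← Finset.prod_mul_distrib]
    exact Finset.prod_congr rfl fun l _ => by ring
  rw [h6, EvalW2_tele (fun l => EvalW2c κ x ((g.perm ^ l) i0))
    (fun l => (hC _ (pow_mem_cyc g i0 l)).1) m, sg_sum hr]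
  have h7 : (g.perm ^ m) i0 = x.1 i0 := (hs i0 (self_mem_cyc g i0)).symm
  have h8 := hC i0 (self_mem_cyc g i0)
  simp only [h7, pow_zero, Equiv.Perm.coe_one, id_eq, h8.2]
  calc (∏ l ∈ Finset.range m, sg (g.col ((g.perm ^ l) i0)))
        * (κ * sg (x.2 i0) * EvalW2c κ x i0 * (EvalW2c κ x i0)⁻¹)
      = κ * sg (x.2 i0) * (∏ l ∈ Finset.range m, sg (g.col ((g.perm ^ l) i0)))
        * (EvalW2c κ x i0 * (EvalW2c κ x i0)⁻¹) := by ring
    _ = _ := by rw [mul_inv_cancel₀ h8.1, mul_one]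

theorem wt_phi2_two (hr : 2 ∣ r) {κ : ℂ} (hκ : κ ^ 2 = (-1) ^ (r / 2)) {g : MG r n}
    {i0 : Fin n} {T : Finset (Fin n)} (hT : Stb g T) (hi : cyc g i0 ⊆ T) {x : Str r n}
    (hx : IsStr g 0 (hf r) 0 T x) (hR : ∀ i ∈ T, (i ∈ cyc g i0 ↔ x.1 i ∉ cyc g i0)) :
    wt (phi2 κ g) T x = sg (∑ i ∈ cyc g i0, g.col i) := by
  have hC := EvalW2c_spec hr hκ hx
  rw [wt_phi2 hr hκ hT hx hi hR (EvalW2c κ x) hC]
  have h1 : ∏ i ∈ cyc g i0, sg (g.col i) * EvalW2c κ x (g.perm i) * (EvalW2c κ x i)⁻¹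
      = (∏ i ∈ cyc g i0, sg (g.col i)) * ((∏ i ∈ cyc g i0, EvalW2c κ x (g.perm i))
        * ∏ i ∈ cyc g i0, (EvalW2c κ x i)⁻¹) := by
    rw [← Finset.prod_mul_distrib, ← Finset.prod_mul_distrib]
    exact Finset.prod_congr rfl fun i _ => by ring
  rw [h1, Orient_prod_perm (cyc_Stb g i0) (EvalW2c κ x), ← Finset.prod_mul_distrib, sg_sum hr,
    Finset.prod_eq_one (f := fun i => EvalW2c κ x i * (EvalW2c κ x i)⁻¹), mul_one]
  intro i hi'
  exact mul_inv_cancel₀ (hC i (hi hi')).1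

end GIM119
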