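import Pool.Agent.Lib.MP_119ee3_al.Basic
import Pool.Agent.Lib.MP_119ee3_al.Chars
import Pool.Agent.Lib.MP_119ee3_al.Cyc
import Pool.Agent.Lib.MP_119ee3_al.Shift
import Pool.Agent.Lib.MP_119ee3_al.OneCycle
import Pool.Agent.Lib.MP_119ee3_al.Orient
import Pool.Agent.Lib.MP_119ee3_al.EvalW2

set_option autoImplicit false

/-!
# MP_119ee3_al: Identity F2, one cycle.
-/

open Classical

noncomputable section

namespace GIM119

open MG

variable {r n : ℕ} [NeZero r]

theorem L2One_left (hr : 2 ∣ r) {κ : ℂ} (hκ : κ ^ 2 = (-1) ^ (r / 2)) (g : MG r n)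
    (i0 : Fin n) : con g 0 (hf r) 0 (phi2 κ g) i0 (cyc g i0) = 0 := by
  rw [con_one]
  have h := sum_eq_zero_of_shift (g := g) (k := 0) (e1 := hf r) (e2 := 0) (c := 1)
    (T := cyc g i0) (cyc_Stb g i0) (phi2 κ g) (fun _ => True) (ξ := -1) (by norm_num) ?_
  · simpa using h
  · intro x hx _
    rcases oneCycle_cases hx with h1 | ⟨m, hm, hc, hs⟩
    · exfalso
      have h2 := EvalW2_facts hr hx i0 (self_mem_cyc g i0)
      exact h2.2.2.1 (h1 i0 (self_mem_cyc g i0))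
    · have hx' : IsStr g 0 (hf r) 0 (cyc g i0) (shiftS (cyc g i0) 1 x) :=
        (isStr_shiftS (cyc_Stb g i0)).2 hx
      rw [wt_phi2_one hr hκ hm hc hx hs, wt_phi2_one hr hκ hm hc hx' hs]
      have h3 : (shiftS (cyc g i0) 1 x).2 i0 = x.2 i0 + 1 := by
        simp [shiftS, self_mem_cyc]
      rw [h3, sg_add hr, sg_one hr]
      ring

theorem L2One_right (hr : 2 ∣ r) (g : MG r n) (i0 : Fin n) :
    con g 1 0 0 phiY i0 (cyc g i0) = 0 := by
  rw [con_one]
  have h := sum_eq_zero_of_shift (g := g) (k := 1) (e1 := 0) (e2 := 0) (c := 1)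
    (T := cyc g i0) (cyc_Stb g i0) phiY (fun _ => True) (ξ := -1) (by norm_num) ?_
  · simpa using h
  · intro x hx _
    obtain ⟨m, hc, -⟩ := oneCycle_cases1 hx
    have h1 : wt phiY (cyc g i0) (shiftS (cyc g i0) 1 x)
        = ∏ i ∈ cyc g i0, (-1) * sg (x.2 i) := by
      unfold wt
      refine Finset.prod_congr rfl fun i hi => ?_
      simp only [shiftS, if_pos hi, phiY]
      rw [sg_add hr, sg_one hr]
      ring
    rw [h1, Finset.prod_mul_distrib, Finset.prod_const, hc, pow_succ, pow_mul]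
    simp [wt]

theorem L2_one (hr : 2 ∣ r) {κ : ℂ} (hκ : κ ^ 2 = (-1) ^ (r / 2)) (g : MG r n) (i0 : Fin n) :
    con g 0 (hf r) 0 (phi2 κ g) i0 (cyc g i0) = con g 1 0 0 phiY i0 (cyc g i0) := by
  rw [L2One_left hr hκ, L2One_right hr]

end GIM119
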