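import Pool.Agent.Lib.MP_119ee3_al.Basic
import Pool.Agent.Lib.MP_119ee3_al.Chars
import Pool.Agent.Lib.MP_119ee3_al.Cyc
import Pool.Agent.Lib.MP_119ee3_al.Shift
import Pool.Agent.Lib.MP_119ee3_al.OneCycle
import Pool.Agent.Lib.MP_119ee3_al.Orient
import Pool.Agent.Lib.MP_119ee3_al.EvalW2

set_option autoImplicit false

/-!
# MP_119ee3_al: Identity F2, two cycles.
-/

open Classical

noncomputable section

namespace GIM119

open MG

variable {r n : ℕ} [NeZero r]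

theorem L2Two_ia (p : Equiv.Perm (Fin n)) (i : Fin n) : p⁻¹ (p i) = i := by simp

theorem L2Two_ai (p : Equiv.Perm (Fin n)) (i : Fin n) : p (p⁻¹ i) = i := by simp

theorem L2Two_swap {g : MG r n} {k : ℕ} {e1 e2 : ZMod r} {i0 : Fin n} {T : Finset (Fin n)}
    {x : Str r n} (hx : IsStr g k e1 e2 T x) (hT : T = cyc g i0 ∪ cyc g (x.1 i0))
    (hne : T ≠ cyc g i0) :
    Stb g T ∧ cyc g i0 ⊆ T ∧ ∀ i ∈ T, (i ∈ cyc g i0 ↔ x.1 i ∉ cyc g i0) := by
  have hst : Stb g T := by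
    intro i
    rw [hT, Finset.mem_union, Finset.mem_union, cyc_Stb g i0 i, cyc_Stb g (x.1 i0) i]
  have hsub : cyc g i0 ⊆ T := by
    rw [hT]
    exact Finset.subset_union_left
  have hi0 : i0 ∈ T := hsub (self_mem_cyc g i0)
  have hnot : x.1 i0 ∉ cyc g i0 := by
    intro h
    apply hne
    rw [hT, cyc_eq_of_mem h, Finset.union_self]
  have hdis := cyc_disjoint hnot
  refine ⟨hst, hsub, ?_⟩
  intro i hi
  constructor
  · intro h
    have h' := h
    rw [cyc_eq_image] at h'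
    obtain ⟨l, -, rfl⟩ := Finset.mem_image.1 h'
    have h2 : x.1 ((g.perm ^ l) i0) ∈ cyc g (x.1 i0) := by
      rw [hx.pow hst hi0 l]
      exact pow_mem_cyc g _ l
    exact fun h3 => (Finset.disjoint_left.1 hdis) h3 h2
  · intro h
    by_contra h1
    apply h
    have h2 : i ∈ cyc g (x.1 i0) := by
      rw [hT, Finset.mem_union] at hi
      exact hi.resolve_left h1
    have h3 := h2
    rw [cyc_eq_image] at h3
    obtain ⟨l, -, rfl⟩ := Finset.mem_image.1 h3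
    obtain ⟨h4, h5, -⟩ := hx.2 i0 hi0
    rw [hx.pow hst h4 l, h5, ← Equiv.Perm.mul_apply, ← pow_add]
    exact pow_mem_cyc g i0 _

/-- From antisymmetric structures to structures with `k = 1`. -/
def L2TwoPhi (g : MG r n) (i0 : Fin n) (T : Finset (Fin n)) (x : Str r n) : Str r n :=
  (fun i => if i ∈ T ∧ i ∉ cyc g i0 then g.perm (x.1 i) else x.1 i,
   fun i => if i ∈ T ∧ i ∉ cyc g i0 then x.2 i + hf r + g.col (x.1 i) else x.2 i)

/-- From structures with `k = 1` to antisymmetric structures. -/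
def L2TwoPsi (g : MG r n) (i0 : Fin n) (T : Finset (Fin n)) (x : Str r n) : Str r n :=
  (fun i => if i ∈ T ∧ i ∉ cyc g i0 then g.perm⁻¹ (x.1 i) else x.1 i,
   fun i => if i ∈ T ∧ i ∉ cyc g i0 then x.2 i + hf r - g.col (g.perm⁻¹ (x.1 i)) else x.2 i)

theorem L2Two_psi_phi (hr : 2 ∣ r) (g : MG r n) (i0 : Fin n) (T : Finset (Fin n))
    (x : Str r n) : L2TwoPsi g i0 T (L2TwoPhi g i0 T x) = x := by
  refine Prod.ext ?_ ?_
  · funext i
    by_cases h : i ∈ T ∧ i ∉ cyc g i0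
    · simp only [L2TwoPsi, L2TwoPhi, if_pos h, L2Two_ia]
    · simp only [L2TwoPsi, L2TwoPhi, if_neg h]
  · funext i
    by_cases h : i ∈ T ∧ i ∉ cyc g i0
    · simp only [L2TwoPsi, L2TwoPhi, if_pos h, L2Two_ia]
      have := hf_add_hf hr
      calc x.2 i + hf r + g.col (x.1 i) + hf r - g.col (x.1 i)
          = x.2 i + (hf r + hf r) := by ring
        _ = x.2 i := by rw [this, add_zero]
    · simp only [L2TwoPsi, L2TwoPhi, if_neg h]

theorem L2Two_phi_psi (hr : 2 ∣ r) (g : MG r n) (i0 : Fin n) (T : Finset (Fin n))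
    (x : Str r n) : L2TwoPhi g i0 T (L2TwoPsi g i0 T x) = x := by
  refine Prod.ext ?_ ?_
  · funext i
    by_cases h : i ∈ T ∧ i ∉ cyc g i0
    · simp only [L2TwoPsi, L2TwoPhi, if_pos h, L2Two_ai]
    · simp only [L2TwoPsi, L2TwoPhi, if_neg h]
  · funext i
    by_cases h : i ∈ T ∧ i ∉ cyc g i0
    · simp only [L2TwoPsi, L2TwoPhi, if_pos h]
      have := hf_add_hf hr
      calc x.2 i + hf r - g.col (g.perm⁻¹ (x.1 i)) + hf r + g.col (g.perm⁻¹ (x.1 i))
          = x.2 i + (hf r + hf r) := by ring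
        _ = x.2 i := by rw [this, add_zero]
    · simp only [L2TwoPsi, L2TwoPhi, if_neg h]

theorem L2Two_phi (hr : 2 ∣ r) {g : MG r n} {i0 : Fin n} {T : Finset (Fin n)}
    (hne : T ≠ cyc g i0) {x : Str r n}
    (hx : IsStr g 0 (hf r) 0 T x ∧ T = cyc g i0 ∪ cyc g (x.1 i0)) :
    IsStr g 1 0 0 T (L2TwoPhi g i0 T x) ∧
      T = cyc g i0 ∪ cyc g ((L2TwoPhi g i0 T x).1 i0) := by
  obtain ⟨hx, hT⟩ := hx
  obtain ⟨hst, hsub, hsw⟩ := L2Two_swap hx hT hne
  have hF := EvalW2_facts hr hx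
  have hh := hf_add_hf hr
  constructor
  · constructor
    · intro i hi
      have h1 : ¬ (i ∈ T ∧ i ∉ cyc g i0) := fun h => hi h.1
      simp only [L2TwoPhi, if_neg h1]
      exact hx.1 i hi
    · intro i hi
      obtain ⟨h1, h2, h3, h4, h5, h6⟩ := hF i hi
      have hpi : g.perm i ∈ T := (hst i).2 hi
      by_cases hc : i ∈ cyc g i0
      · have hc1 : ¬ (i ∈ T ∧ i ∉ cyc g i0) := fun h => h.2 hc
        have hc2 : x.1 i ∈ T ∧ x.1 i ∉ cyc g i0 := ⟨h1, (hsw i hi).1 hc⟩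
        have hc3 : ¬ (g.perm i ∈ T ∧ g.perm i ∉ cyc g i0) :=
          fun h => h.2 ((cyc_Stb g i0 i).2 hc)
        simp only [L2TwoPhi, if_neg hc1, if_pos hc2, if_neg hc3]
        refine ⟨h1, ?_, h4, ?_, ?_⟩
        · rw [h2, pow_one]
        · rw [h2, h5]
          push_cast
          calc x.2 i + hf r + hf r + g.col i = x.2 i + (hf r + hf r) + g.col i := by ring
            _ = x.2 i + 1 * g.col i + 0 := by rw [hh]; ring
        · rw [h6, add_zero]
      · have hc1 : i ∈ T ∧ i ∉ cyc g i0 := ⟨hi, hc⟩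
        have hsi : x.1 i ∈ cyc g i0 := by
          by_contra h
          exact hc ((hsw i hi).2 h)
        have hc3 : g.perm i ∈ T ∧ g.perm i ∉ cyc g i0 :=
          ⟨hpi, fun h => hc ((cyc_Stb g i0 i).1 h)⟩
        have hpsi : g.perm (x.1 i) ∈ cyc g i0 := (cyc_Stb g i0 _).2 hsi
        have hc4 : ¬ (g.perm (x.1 i) ∈ T ∧ g.perm (x.1 i) ∉ cyc g i0) := fun h => h.2 hpsi
        obtain ⟨-, -, -, k4, k5, k6⟩ := hF _ h1
        simp only [L2TwoPhi, if_pos hc1, if_neg hc4, if_pos hc3]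
        refine ⟨hsub hpsi, ?_, ?_, ?_, ?_⟩
        · rw [k4, h2, pow_one]
        · rw [h4]
        · rw [k6, h5, h2]
          push_cast
          ring
        · rw [h6, h4]
          ring
  · have h1 : ¬ (i0 ∈ T ∧ i0 ∉ cyc g i0) := fun h => h.2 (self_mem_cyc g i0)
    simp only [L2TwoPhi, if_neg h1]
    exact hT

theorem L2Two_psi (hr : 2 ∣ r) {g : MG r n} {i0 : Fin n} {T : Finset (Fin n)}
    (hne : T ≠ cyc g i0) {x : Str r n}
    (hx : IsStr g 1 0 0 T x ∧ T = cyc g i0 ∪ cyc g (x.1 i0)) :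
    IsStr g 0 (hf r) 0 T (L2TwoPsi g i0 T x) ∧
      T = cyc g i0 ∪ cyc g ((L2TwoPsi g i0 T x).1 i0) := by
  obtain ⟨hx, hT⟩ := hx
  obtain ⟨hst, hsub, hsw⟩ := L2Two_swap hx hT hne
  have hh := hf_add_hf hr
  have hinv : ∀ j, g.perm⁻¹ j ∈ T ↔ j ∈ T := by
    intro j
    rw [← hst (g.perm⁻¹ j), L2Two_ai]
  have hinvc : ∀ j, g.perm⁻¹ j ∈ cyc g i0 ↔ j ∈ cyc g i0 := by
    intro j
    rw [← cyc_Stb g i0 (g.perm⁻¹ j), L2Two_ai]
  -- `x.1` commutes with `g.perm⁻¹`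
  have hcomm : ∀ j ∈ T, x.1 (g.perm⁻¹ j) = g.perm⁻¹ (x.1 j) := by
    intro j hj
    have h1 := (hx.2 _ ((hinv j).2 hj)).2.2.1
    rw [L2Two_ai] at h1
    rw [h1, L2Two_ia]
  have hcol : ∀ j ∈ T, x.2 j = x.2 (g.perm⁻¹ j) + g.col (g.perm⁻¹ j)
      + g.col (x.1 (g.perm⁻¹ j)) := by
    intro j hj
    have h1 := (hx.2 _ ((hinv j).2 hj)).2.2.2.2
    rw [L2Two_ai, add_zero] at h1
    exact h1
  constructor
  · constructor
    · intro i hi
      have h1 : ¬ (i ∈ T ∧ i ∉ cyc g i0) := fun h => hi h.1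
      simp only [L2TwoPsi, if_neg h1]
      exact hx.1 i hi
    · intro i hi
      obtain ⟨h1, h2, h3, h4, h5⟩ := hx.2 i hi
      rw [pow_one] at h2
      have h4' : x.2 (x.1 i) = x.2 i + g.col i := by
        rw [h4]
        push_cast
        ring
      have hpi : g.perm i ∈ T := (hst i).2 hi
      by_cases hc : i ∈ cyc g i0
      · have hc1 : ¬ (i ∈ T ∧ i ∉ cyc g i0) := fun h => h.2 hc
        have hc2 : x.1 i ∈ T ∧ x.1 i ∉ cyc g i0 := ⟨h1, (hsw i hi).1 hc⟩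
        have hc3 : ¬ (g.perm i ∈ T ∧ g.perm i ∉ cyc g i0) :=
          fun h => h.2 ((cyc_Stb g i0 i).2 hc)
        simp only [L2TwoPsi, if_neg hc1, if_pos hc2, if_neg hc3]
        refine ⟨h1, ?_, h3, ?_, ?_⟩
        · rw [h2, L2Two_ia, pow_zero]
          rfl
        · rw [h2, L2Two_ia, h4']
          push_cast
          ring
        · rw [h5]
      · have hc1 : i ∈ T ∧ i ∉ cyc g i0 := ⟨hi, hc⟩
        have hsi : x.1 i ∈ cyc g i0 := by
          by_contra h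
          exact hc ((hsw i hi).2 h)
        have hc3 : g.perm i ∈ T ∧ g.perm i ∉ cyc g i0 :=
          ⟨hpi, fun h => hc ((cyc_Stb g i0 i).1 h)⟩
        have hpsi : g.perm⁻¹ (x.1 i) ∈ cyc g i0 := (hinvc _).2 hsi
        have hc4 : ¬ (g.perm⁻¹ (x.1 i) ∈ T ∧ g.perm⁻¹ (x.1 i) ∉ cyc g i0) :=
          fun h => h.2 hpsi
        have hss : x.1 (g.perm⁻¹ (x.1 i)) = i := by
          rw [hcomm _ h1, h2, L2Two_ia]
        simp only [L2TwoPsi, if_pos hc1, if_neg hc4, if_pos hc3]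
        refine ⟨hsub hpsi, ?_, ?_, ?_, ?_⟩
        · rw [hss, pow_zero]
          rfl
        · rw [h3, L2Two_ia, L2Two_ai]
        · have h6 := hcol _ h1
          rw [hss, h4'] at h6
          have h7 : x.2 (g.perm⁻¹ (x.1 i)) = x.2 i - g.col (g.perm⁻¹ (x.1 i)) := by
            have h8 : x.2 i + g.col i
              = x.2 (g.perm⁻¹ (x.1 i)) + g.col (g.perm⁻¹ (x.1 i)) + g.col i := h6
            have h9 := add_right_cancel h8
            rw [h9]
            ring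
          rw [h7]
          push_cast
          calc x.2 i - g.col (g.perm⁻¹ (x.1 i))
              = x.2 i - g.col (g.perm⁻¹ (x.1 i)) + (hf r + hf r) := by rw [hh, add_zero]
            _ = x.2 i + hf r - g.col (g.perm⁻¹ (x.1 i)) + 0 * g.col i + hf r := by
              ring
        · rw [h5, h3, L2Two_ia]
          ring
  · have h1 : ¬ (i0 ∈ T ∧ i0 ∉ cyc g i0) := fun h => h.2 (self_mem_cyc g i0)
    simp only [L2TwoPsi, if_neg h1]
    exact hT

theorem L2Two_wtY (hr : 2 ∣ r) {g : MG r n} {i0 : Fin n} {T : Finset (Fin n)}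
    (hne : T ≠ cyc g i0) {x : Str r n}
    (hx : IsStr g 1 0 0 T x ∧ T = cyc g i0 ∪ cyc g (x.1 i0)) :
    wt phiY T x = sg (∑ i ∈ cyc g i0, g.col i) := by
  obtain ⟨hx, hT⟩ := hx
  obtain ⟨hst, hsub, hsw⟩ := L2Two_swap hx hT hne
  have h1 : wt phiY T x = (∏ i ∈ T \ cyc g i0, sg (x.2 i)) * ∏ i ∈ cyc g i0, sg (x.2 i) := by
    rw [Finset.prod_sdiff hsub]
    rfl
  have h2 : ∏ i ∈ T \ cyc g i0, sg (x.2 i) = ∏ i ∈ cyc g i0, sg (x.2 (x.1 i)) := by
    symm
    refine Finset.prod_bij (fun i _ => x.1 i) ?_ ?_ ?_ ?_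
    · intro i hi
      exact Finset.mem_sdiff.mpr ⟨(hx.2 i (hsub hi)).1, (hsw i (hsub hi)).1 hi⟩
    · intro i hi j hj hij
      have hij' : x.1 i = x.1 j := hij
      have h3 := (hx.2 i (hsub hi)).2.1
      have h4 := (hx.2 j (hsub hj)).2.1
      rw [hij', h4] at h3
      exact ((g.perm ^ 1).injective h3).symm
    · intro j hj
      obtain ⟨hjT, hjc⟩ := Finset.mem_sdiff.mp hj
      have hxj : x.1 j ∈ cyc g i0 := by
        by_contra h
        exact hjc ((hsw j hjT).2 h)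
      have hmem : g.perm⁻¹ (x.1 j) ∈ cyc g i0 := by
        rw [← cyc_Stb g i0 (g.perm⁻¹ (x.1 j)), L2Two_ai]
        exact hxj
      refine ⟨g.perm⁻¹ (x.1 j), hmem, ?_⟩
      have h3 := (hx.2 _ (hsub hmem)).2.2.1
      rw [L2Two_ai, (hx.2 j hjT).2.1, pow_one] at h3
      exact (g.perm.injective h3).symm
    · intro i _
      rfl
  rw [h1, h2, ← Finset.prod_mul_distrib, sg_sum hr]
  refine Finset.prod_congr rfl fun i hi => ?_
  have h3 := (hx.2 i (hsub hi)).2.2.2.1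
  have h4 : x.2 (x.1 i) = x.2 i + g.col i := by
    rw [h3]
    push_cast
    ring
  rw [h4, sg_add hr]
  calc sg (x.2 i) * sg (g.col i) * sg (x.2 i)
      = sg (x.2 i) * sg (x.2 i) * sg (g.col i) := by ring
    _ = sg (g.col i) := by rw [sg_mul_self, one_mul]

theorem L2_two (hr : 2 ∣ r) {κ : ℂ} (hκ : κ ^ 2 = (-1) ^ (r / 2)) (g : MG r n) (i0 : Fin n)
    (T : Finset (Fin n)) (hT : T ≠ cyc g i0) :
    con g 0 (hf r) 0 (phi2 κ g) i0 T = con g 1 0 0 phiY i0 T := by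
  unfold con
  refine Finset.sum_bij' (fun x _ => L2TwoPhi g i0 T x) (fun x _ => L2TwoPsi g i0 T x)
    ?_ ?_ ?_ ?_ ?_
  · intro x hx
    rw [Finset.mem_filter] at hx ⊢
    exact ⟨Finset.mem_univ _, L2Two_phi hr hT hx.2⟩
  · intro x hx
    rw [Finset.mem_filter] at hx ⊢
    exact ⟨Finset.mem_univ _, L2Two_psi hr hT hx.2⟩
  · intro x _
    exact L2Two_psi_phi hr g i0 T x
  · intro x _
    exact L2Two_phi_psi hr g i0 T x
  · intro x hx
    rw [Finset.mem_filter] at hx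
    rw [L2Two_wtY hr hT (L2Two_phi hr hT hx.2)]
    obtain ⟨hst, hsub, hsw⟩ := L2Two_swap hx.2.1 hx.2.2 hT
    exact wt_phi2_two hr hκ hst hsub hx.2.1 hsw

end GIM119
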