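import Pool.Agent.Lib.MP_119ee3_al.Basic
import Pool.Agent.Lib.MP_119ee3_al.Chars
import Pool.Agent.Lib.MP_119ee3_al.Cyc
import Pool.Agent.Lib.MP_119ee3_al.Shift
import Pool.Agent.Lib.MP_119ee3_al.OneCycle
import Pool.Agent.Lib.MP_119ee3_al.Orient
import Pool.Agent.Lib.MP_119ee3_al.EvalW2

set_option autoImplicit false

/-!
# MP_119ee3_al: Identity F3, one cycle.
-/

open Classical

noncomputable section

namespace GIM119

open MG

variable {r n : ℕ} [NeZero r]

/-- partial sums of the colours along the cycle -/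
def L3One_A (g : MG r n) (m : ℕ) (i : Fin n) : ZMod r :=
  ∑ j ∈ Finset.range m, g.col ((g.perm ^ j) i)

theorem L3One_A_succ (g : MG r n) (m : ℕ) (i : Fin n) :
    L3One_A g (m + 1) i = L3One_A g m i + g.col ((g.perm ^ m) i) := by
  unfold L3One_A
  rw [Finset.sum_range_succ]

theorem L3One_A_succ' (g : MG r n) (m : ℕ) (i : Fin n) :
    L3One_A g (m + 1) i = L3One_A g m (g.perm i) + g.col i := by
  unfold L3One_A
  rw [Finset.sum_range_succ']
  congr 1

theorem L3One_A_add (g : MG r n) (s t : ℕ) (i : Fin n) :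
    L3One_A g (s + t) i = L3One_A g s i + L3One_A g t ((g.perm ^ s) i) := by
  unfold L3One_A
  rw [Finset.sum_range_add]
  congr 1
  refine Finset.sum_congr rfl fun j _ => ?_
  rw [← Equiv.Perm.mul_apply, ← pow_add, add_comm]

theorem L3One_A_card (g : MG r n) {i0 i : Fin n} (hi : i ∈ cyc g i0) :
    L3One_A g (cyc g i0).card i = ∑ j ∈ cyc g i0, g.col j := by
  have hc : cyc g i = cyc g i0 := cyc_eq_of_mem hi
  rw [← hc]
  unfold L3One_A
  conv_rhs => rw [cyc_eq_image g i]
  rw [Finset.sum_image]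
  intro a ha b hb hab
  exact pow_injOn_cyc g i (Finset.mem_range.1 ha) (Finset.mem_range.1 hb) hab

theorem L3One_sum_A (g : MG r n) (i0 : Fin n) (m : ℕ) :
    ∑ i ∈ cyc g i0, L3One_A g m i = m * ∑ i ∈ cyc g i0, g.col i := by
  unfold L3One_A
  rw [Finset.sum_comm]
  have h : ∀ j ∈ Finset.range m, ∑ i ∈ cyc g i0, g.col ((g.perm ^ j) i)
      = ∑ i ∈ cyc g i0, g.col i := by
    intro j _
    refine Finset.sum_equiv (g.perm ^ j) (fun i => ?_) (fun i _ => rfl)
    constructor
    · intro hi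
      have := pow_mem_cyc g i j
      rwa [cyc_eq_of_mem hi] at this
    · intro hi
      have h1 := pow_mem_cyc g i j
      have h2 : cyc g ((g.perm ^ j) i) = cyc g i := cyc_eq_of_mem h1
      have h3 : cyc g ((g.perm ^ j) i) = cyc g i0 := cyc_eq_of_mem hi
      rw [← h3, h2]
      exact self_mem_cyc g i
  rw [Finset.sum_congr rfl h, Finset.sum_const, Finset.card_range, nsmul_eq_mul]

theorem L3One_pow_mem {g : MG r n} {i0 i : Fin n} (hi : i ∈ cyc g i0) (t : ℕ) :
    (g.perm ^ t) i ∈ cyc g i0 := by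
  have := pow_mem_cyc g i t
  rwa [cyc_eq_of_mem hi] at this

/-- diagonal structures -/
def L3One_D (g : MG r n) (i0 : Fin n) (x : Str r n) : Prop :=
  IsStr g 0 0 0 (cyc g i0) x ∧ ∀ i ∈ cyc g i0, x.1 i = i

/-- structures given by the half turn -/
def L3One_H (g : MG r n) (m : ℕ) (e : ZMod r) (i0 : Fin n) (x : Str r n) : Prop :=
  IsStr g 0 e 0 (cyc g i0) x ∧ ∀ i ∈ cyc g i0, x.1 i = (g.perm ^ m) i

theorem L3One_D_step {g : MG r n} {i0 : Fin n} {x : Str r n} (hx : L3One_D g i0 x) {i : Fin n}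
    (hi : i ∈ cyc g i0) : x.2 (g.perm i) = x.2 i + 2 * g.col i := by
  have h := (hx.1.2 i hi).2.2.2.2
  rw [hx.2 i hi, add_zero] at h
  rw [h]
  ring

theorem L3One_D_pow {g : MG r n} {i0 : Fin n} {x : Str r n} (hx : L3One_D g i0 x) {i : Fin n}
    (hi : i ∈ cyc g i0) (t : ℕ) : x.2 ((g.perm ^ t) i) = x.2 i + 2 * L3One_A g t i := by
  induction t with
  | zero => simp [L3One_A]
  | succ t ih =>
    rw [pow_succ', Equiv.Perm.mul_apply, L3One_D_step hx (L3One_pow_mem hi t), ih, L3One_A_succ]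
    ring

theorem L3One_D_two {g : MG r n} {i0 : Fin n} {x : Str r n} (hx : L3One_D g i0 x) :
    2 * ∑ i ∈ cyc g i0, g.col i = 0 := by
  have hi := self_mem_cyc g i0
  have h := L3One_D_pow hx hi (cyc g i0).card
  rw [pow_card_cyc g hi, L3One_A_card g hi] at h
  exact left_eq_add.1 h

theorem L3One_H_step {g : MG r n} {m : ℕ} {e : ZMod r} {i0 : Fin n} {x : Str r n}
    (hx : L3One_H g m e i0 x) {i : Fin n} (hi : i ∈ cyc g i0) :
    x.2 (g.perm i) = x.2 i + g.col i + g.col ((g.perm ^ m) i) := by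
  have h := (hx.1.2 i hi).2.2.2.2
  rw [hx.2 i hi, add_zero] at h
  exact h

theorem L3One_H_pow {g : MG r n} {m : ℕ} {e : ZMod r} {i0 : Fin n} {x : Str r n}
    (hx : L3One_H g m e i0 x) {i : Fin n} (hi : i ∈ cyc g i0) (t : ℕ) :
    x.2 ((g.perm ^ t) i) = x.2 i + L3One_A g t i + L3One_A g t ((g.perm ^ m) i) := by
  induction t with
  | zero => simp [L3One_A]
  | succ t ih =>
    rw [pow_succ', Equiv.Perm.mul_apply, L3One_H_step hx (L3One_pow_mem hi t), ih, L3One_A_succ,
      L3One_A_succ]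
    have : (g.perm ^ m) ((g.perm ^ t) i) = (g.perm ^ t) ((g.perm ^ m) i) := by
      rw [← Equiv.Perm.mul_apply, ← Equiv.Perm.mul_apply, ← pow_add, ← pow_add, add_comm]
    rw [this]
    ring

theorem L3One_H_e {g : MG r n} {m : ℕ} {e : ZMod r} {i0 : Fin n} {x : Str r n}
    (hm : (cyc g i0).card = 2 * m) (hx : L3One_H g m e i0 x) :
    e = ∑ i ∈ cyc g i0, g.col i := by
  have hi := self_mem_cyc g i0
  have h := L3One_H_pow hx hi m
  have h2 := (hx.1.2 i0 hi).2.2.2.1
  rw [hx.2 i0 hi, h, Nat.cast_zero, zero_mul, add_zero, add_assoc, ← L3One_A_add, ← two_mul, ← hm,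
    L3One_A_card g hi] at h2
  exact (add_left_cancel h2).symm

/-- from diagonal structures to half turns -/
def L3One_toH (g : MG r n) (m : ℕ) (i0 : Fin n) (x : Str r n) : Str r n :=
  (fun i => if i ∈ cyc g i0 then (g.perm ^ m) i else i,
   fun i => if i ∈ cyc g i0 then x.2 i + L3One_A g m i else x.2 i)

/-- from half turns to diagonal structures -/
def L3One_toD (g : MG r n) (m : ℕ) (i0 : Fin n) (x : Str r n) : Str r n :=
  (fun i => i, fun i => if i ∈ cyc g i0 then x.2 i - L3One_A g m i else x.2 i)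

theorem L3One_toH_mem {g : MG r n} {m : ℕ} {i0 : Fin n} {x : Str r n}
    (hm : (cyc g i0).card = 2 * m) (hx : L3One_D g i0 x) :
    L3One_H g m (∑ i ∈ cyc g i0, g.col i) i0 (L3One_toH g m i0 x) := by
  refine ⟨⟨?_, ?_⟩, ?_⟩
  · intro i hi
    simp only [L3One_toH, if_neg hi]
    exact ⟨trivial, (hx.1.1 i hi).2⟩
  · intro i hi
    have hgi : g.perm i ∈ cyc g i0 := (cyc_Stb g i0 i).2 hi
    have hmi : (g.perm ^ m) i ∈ cyc g i0 := L3One_pow_mem hi m
    simp only [L3One_toH, if_pos hi, if_pos hgi, if_pos hmi, pow_zero, Equiv.Perm.one_apply,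
      Nat.cast_zero, zero_mul, add_zero]
    refine ⟨hmi, ?_, ?_, ?_, ?_⟩
    · rw [← Equiv.Perm.mul_apply, ← pow_add, ← two_mul, ← hm, pow_card_cyc g hi]
    · rw [← Equiv.Perm.mul_apply, ← Equiv.Perm.mul_apply, ← pow_succ, ← pow_succ']
    · rw [L3One_D_pow hx hi m]
      have h1 := L3One_A_card g hi
      rw [hm, two_mul, L3One_A_add] at h1
      rw [← h1]
      ring
    · rw [L3One_D_step hx hi]
      have h1 := L3One_A_succ g m i
      rw [L3One_A_succ'] at h1
      linear_combination h1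
  · intro i hi
    simp only [L3One_toH, if_pos hi]

theorem L3One_toD_mem {g : MG r n} {m : ℕ} {e : ZMod r} {i0 : Fin n} {x : Str r n}
    (hx : L3One_H g m e i0 x) : L3One_D g i0 (L3One_toD g m i0 x) := by
  refine ⟨⟨?_, ?_⟩, ?_⟩
  · intro i hi
    simp only [L3One_toD, if_neg hi]
    exact ⟨trivial, (hx.1.1 i hi).2⟩
  · intro i hi
    have hgi : g.perm i ∈ cyc g i0 := (cyc_Stb g i0 i).2 hi
    simp only [L3One_toD, if_pos hi, if_pos hgi, pow_zero, Equiv.Perm.one_apply,
      Nat.cast_zero, zero_mul, add_zero]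
    refine ⟨hi, trivial, trivial, trivial, ?_⟩
    rw [L3One_H_step hx hi]
    have h1 := L3One_A_succ g m i
    rw [L3One_A_succ'] at h1
    linear_combination -h1
  · intro i _
    rfl

theorem L3One_toD_toH {g : MG r n} {m : ℕ} {i0 : Fin n} {x : Str r n} (hx : L3One_D g i0 x) :
    L3One_toD g m i0 (L3One_toH g m i0 x) = x := by
  refine Prod.ext (funext fun i => ?_) (funext fun i => ?_)
  · by_cases hi : i ∈ cyc g i0
    · exact (hx.2 i hi).symm
    · exact (hx.1.1 i hi).1.symm
  · by_cases hi : i ∈ cyc g i0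
    · simp only [L3One_toD, L3One_toH, if_pos hi, add_sub_cancel_right]
    · simp only [L3One_toD, L3One_toH, if_neg hi]

theorem L3One_toH_toD {g : MG r n} {m : ℕ} {e : ZMod r} {i0 : Fin n} {x : Str r n}
    (hx : L3One_H g m e i0 x) : L3One_toH g m i0 (L3One_toD g m i0 x) = x := by
  refine Prod.ext (funext fun i => ?_) (funext fun i => ?_)
  · by_cases hi : i ∈ cyc g i0
    · simp only [L3One_toD, L3One_toH, if_pos hi, hx.2 i hi]
    · simp only [L3One_toH, if_neg hi, (hx.1.1 i hi).1]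
  · by_cases hi : i ∈ cyc g i0
    · simp only [L3One_toD, L3One_toH, if_pos hi, sub_add_cancel]
    · simp only [L3One_toD, L3One_toH, if_neg hi]

theorem L3One_toH_sum {g : MG r n} {m : ℕ} {i0 : Fin n} {x : Str r n} :
    ∑ i ∈ cyc g i0, (L3One_toH g m i0 x).2 i
      = ∑ i ∈ cyc g i0, x.2 i + m * ∑ i ∈ cyc g i0, g.col i := by
  rw [← L3One_sum_A, ← Finset.sum_add_distrib]
  refine Finset.sum_congr rfl fun i hi => ?_
  simp only [L3One_toH, if_pos hi]

/-- transport of sums -/
theorem L3One_sum_H {g : MG r n} {m : ℕ} {i0 : Fin n}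
    (hm : (cyc g i0).card = 2 * m) (f : Str r n → ℂ) :
    ∑ x with L3One_H g m (∑ i ∈ cyc g i0, g.col i) i0 x, f x
      = ∑ x with L3One_D g i0 x, f (L3One_toH g m i0 x) := by
  symm
  refine Finset.sum_nbij' (fun x => L3One_toH g m i0 x) (fun x => L3One_toD g m i0 x)
    ?_ ?_ ?_ ?_ ?_
  · intro x hx
    exact Finset.mem_filter.2 ⟨Finset.mem_univ _, L3One_toH_mem hm (Finset.mem_filter.1 hx).2⟩
  · intro x hx
    exact Finset.mem_filter.2 ⟨Finset.mem_univ _, L3One_toD_mem (Finset.mem_filter.1 hx).2⟩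
  · intro x hx
    exact L3One_toD_toH (Finset.mem_filter.1 hx).2
  · intro x hx
    exact L3One_toH_toD (Finset.mem_filter.1 hx).2
  · intro x hx
    rfl

theorem L3One_theta_zero {θ : ZMod r → ℂ} (hθ : ∀ x y, θ (x + y) = θ x * θ y)
    (hθ2 : θ (hf r) = -1) : θ 0 = 1 := by
  have h := hθ 0 (hf r)
  rw [zero_add, hθ2, mul_neg_one] at h
  exact (neg_injective h).symm

theorem L3One_theta_sum {θ : ZMod r → ℂ} (hθ : ∀ x y, θ (x + y) = θ x * θ y)
    (hθ0 : θ 0 = 1) (S : Finset (Fin n)) (f : Fin n → ZMod r) :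
    θ (∑ i ∈ S, f i) = ∏ i ∈ S, θ (f i) := by
  induction S using Finset.induction_on with
  | empty => simpa using hθ0
  | insert a S ha ih => rw [Finset.sum_insert ha, Finset.prod_insert ha, hθ, ih]

theorem L3One_wtD (hr : 4 ∣ r) {θ : ZMod r → ℂ} (hθ : ∀ x y, θ (x + y) = θ x * θ y)
    (hθ0 : θ 0 = 1) {g : MG r n} {i0 : Fin n} {x : Str r n} (hx : L3One_D g i0 x) :
    wt (phiS θ g) (cyc g i0) x = im (∑ i ∈ cyc g i0, x.2 i) *
      (if sg (x.2 i0) = 1 then 1 else θ (∑ i ∈ cyc g i0, g.col i)) := by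
  have hr2 : 2 ∣ r := dvd_trans (by norm_num) hr
  unfold wt phiS
  rw [Finset.prod_mul_distrib, im_sum hr]
  congr 1
  have hpar : ∀ i ∈ cyc g i0, sg (x.2 i) = sg (x.2 i0) := by
    intro i hi
    rw [cyc_eq_image, Finset.mem_image] at hi
    obtain ⟨t, -, rfl⟩ := hi
    rw [L3One_D_pow hx (self_mem_cyc g i0) t, sg_add hr2, sg_two_mul hr2, mul_one]
  by_cases h : sg (x.2 i0) = 1
  · rw [if_pos h]
    refine Finset.prod_eq_one fun i hi => ?_
    unfold phi1
    rw [if_pos (hx.2 i hi), if_pos ((hpar i hi).trans h)]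
  · rw [if_neg h, L3One_theta_sum hθ hθ0]
    refine Finset.prod_congr rfl fun i hi => ?_
    unfold phi1
    rw [if_pos (hx.2 i hi), if_neg (by rw [hpar i hi]; exact h)]

theorem L3One_pow_ne {g : MG r n} {m : ℕ} {i0 : Fin n} (hm0 : 0 < m)
    (hm : (cyc g i0).card = 2 * m) {i : Fin n} (hi : i ∈ cyc g i0) : (g.perm ^ m) i ≠ i := by
  intro h
  have := (pow_eq_self_iff g hi m).1 h
  rw [hm] at this
  have := Nat.le_of_dvd hm0 this
  omega

theorem L3One_wtH (hr : 4 ∣ r) {θ : ZMod r → ℂ} {g : MG r n} {m : ℕ} {e : ZMod r} {i0 : Fin n}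
    (hm0 : 0 < m) (hm : (cyc g i0).card = 2 * m) {x : Str r n} (hx : L3One_H g m e i0 x) :
    wt (phiS θ g) (cyc g i0) x = - im (∑ i ∈ cyc g i0, x.2 i) := by
  unfold wt phiS
  rw [Finset.prod_mul_distrib, im_sum hr]
  have h4 : ∏ i ∈ cyc g i0, phi1 θ g i (x.1 i) (x.2 i) (x.2 (x.1 i))
      = ∏ i ∈ cyc g i0, (if i < x.1 i ∧ g.perm (x.1 i) < g.perm i then (-1 : ℂ) else 1) := by
    refine Finset.prod_congr rfl fun i hi => ?_
    have hne : x.1 i ≠ i := by
      rw [hx.2 i hi]
      exact L3One_pow_ne hm0 hm hi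
    unfold phi1
    rw [if_neg hne]
  rw [h4, flip_one hm0 hm hx.2, mul_neg_one]

theorem L3One_wtA (hr : 4 ∣ r) {g : MG r n} {m : ℕ} {i0 : Fin n}
    (hm0 : 0 < m) (hm : (cyc g i0).card = 2 * m) {x : Str r n}
    (hx : L3One_H g m (hf r) i0 x) :
    wt (phiA ((-1) ^ (r / 4)) g) (cyc g i0) x = im (∑ i ∈ cyc g i0, x.2 i) *
      ((-1) ^ (r / 4) * sg (x.2 i0) * sg (L3One_A g m i0)) := by
  have hr2 : 2 ∣ r := dvd_trans (by norm_num) hr
  have hκ : (((-1 : ℂ)) ^ (r / 4)) ^ 2 = (-1) ^ (r / 2) := by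
    rw [← pow_mul]
    congr 1
    omega
  have h4 := wt_phi2_one hr2 hκ hm0 hm hx.1 hx.2
  unfold L3One_A
  rw [← h4]
  unfold wt phiA
  rw [Finset.prod_mul_distrib, im_sum hr]

/-- general principle: an injective self map of the index set which changes the sign -/
theorem L3One_cancel {α : Type*} (A : Finset α) (f : α → ℂ) (F : α → α)
    (hF : ∀ x ∈ A, F x ∈ A) (hinj : ∀ x ∈ A, ∀ y ∈ A, F x = F y → x = y)
    (hf : ∀ x ∈ A, f (F x) = -f x) : ∑ x ∈ A, f x = 0 := by
  have himg : A.image F = A := by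
    refine Finset.eq_of_subset_of_card_le ?_ ?_
    · intro y hy
      rw [Finset.mem_image] at hy
      obtain ⟨x, hx, rfl⟩ := hy
      exact hF x hx
    · rw [Finset.card_image_of_injOn]
      intro x hx y hy hxy
      exact hinj x hx y hy hxy
  have h1 : ∑ x ∈ A, f x = ∑ x ∈ A, f (F x) := by
    conv_lhs => rw [← himg]
    rw [Finset.sum_image]
    intro x hx y hy hxy
    exact hinj x hx y hy hxy
  rw [Finset.sum_congr rfl hf, Finset.sum_neg_distrib] at h1
  exact self_eq_neg.1 h1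

theorem L3One_shift_inj {T : Finset (Fin n)} {c : ZMod r} {x y : Str r n}
    (hxy : shiftS T c x = shiftS T c y) : x = y := by
  have ha : ∀ i, (shiftS T c x).1 i = (shiftS T c y).1 i := fun i => by rw [hxy]
  have hb : ∀ i, (shiftS T c x).2 i = (shiftS T c y).2 i := fun i => by rw [hxy]
  refine Prod.ext (funext ha) (funext fun i => ?_)
  have := hb i
  simp only [shiftS] at this
  by_cases hi : i ∈ T
  · simpa [hi] using this
  · simpa [hi] using this

theorem L3One_shift_D {g : MG r n} {i0 : Fin n} {x : Str r n} (c : ZMod r)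
    (hx : L3One_D g i0 x) : L3One_D g i0 (shiftS (cyc g i0) c x) :=
  ⟨(isStr_shiftS (cyc_Stb g i0)).2 hx.1, hx.2⟩

theorem L3One_shift_sum {T : Finset (Fin n)} {x : Str r n} (c : ZMod r) :
    ∑ i ∈ T, (shiftS T c x).2 i = ∑ i ∈ T, x.2 i + T.card * c := by
  have : ∀ i ∈ T, (shiftS T c x).2 i = x.2 i + c := fun i hi => by
    simp [shiftS, hi]
  rw [Finset.sum_congr rfl this, Finset.sum_add_distrib, Finset.sum_const, nsmul_eq_mul]

/-- the sums over the two types of structures -/
theorem L3One_split {g : MG r n} {m : ℕ} {i0 : Fin n} (hm0 : 0 < m)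
    (hm : (cyc g i0).card = 2 * m) (φ : Wt r n) :
    con g 0 0 0 φ i0 (cyc g i0) = (∑ x with L3One_D g i0 x, wt φ (cyc g i0) x)
      + ∑ x with L3One_H g m 0 i0 x, wt φ (cyc g i0) x := by
  rw [con_one, ← Finset.sum_filter_add_sum_filter_not _ (fun x => ∀ i ∈ cyc g i0, x.1 i = i)]
  congr 1
  · rw [Finset.filter_filter]
    refine Finset.sum_congr (Finset.ext fun x => ?_) fun _ _ => rfl
    simp only [Finset.mem_filter, Finset.mem_univ, true_and]
    exact Iff.rfl
  · rw [Finset.filter_filter]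
    refine Finset.sum_congr (Finset.ext fun x => ?_) fun _ _ => rfl
    simp only [Finset.mem_filter, Finset.mem_univ, true_and]
    constructor
    · rintro ⟨h1, h2⟩
      rcases oneCycle_cases h1 with h | ⟨m', -, hm', h⟩
      · exact absurd h h2
      · have : m' = m := by omega
        rw [this] at h
        exact ⟨h1, h⟩
    · rintro ⟨h1, h2⟩
      refine ⟨h1, fun h => ?_⟩
      have hi := self_mem_cyc g i0
      exact L3One_pow_ne hm0 hm hi ((h2 i0 hi).symm.trans (h i0 hi))

theorem L3One_conA {g : MG r n} {m : ℕ} {i0 : Fin n} (hr2 : 2 ∣ r)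
    (hm : (cyc g i0).card = 2 * m) (φ : Wt r n) :
    con g 0 (hf r) 0 φ i0 (cyc g i0) = ∑ x with L3One_H g m (hf r) i0 x, wt φ (cyc g i0) x := by
  rw [con_one]
  refine Finset.sum_congr (Finset.ext fun x => ?_) fun _ _ => rfl
  simp only [Finset.mem_filter, Finset.mem_univ, true_and]
  constructor
  · intro h1
    refine ⟨h1, ?_⟩
    rcases oneCycle_cases h1 with h | ⟨m', -, hm', h⟩
    · exfalso
      have hi := self_mem_cyc g i0
      have h2 := (h1.2 i0 hi).2.2.2.1
      rw [h i0 hi, Nat.cast_zero, zero_mul, add_zero] at h2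
      exact hf_ne_zero hr2 (left_eq_add.1 h2)
    · have : m' = m := by omega
      rw [this] at h
      exact h
  · exact fun h => h.1

theorem L3_one (hr : 4 ∣ r) {θ : ZMod r → ℂ} (hθ : ∀ x y, θ (x + y) = θ x * θ y)
    (hθ2 : θ (hf r) = -1) (g : MG r n) (i0 : Fin n) :
    con g 0 0 0 (phiS θ g) i0 (cyc g i0)
      = con g 0 (hf r) 0 (phiA ((-1) ^ (r / 4)) g) i0 (cyc g i0) := by
  have hr2 : 2 ∣ r := dvd_trans (by norm_num) hr
  have hθ0 := L3One_theta_zero hθ hθ2
  have hcpos : 0 < (cyc g i0).card := Finset.card_pos.2 ⟨i0, self_mem_cyc g i0⟩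
  rcases Nat.even_or_odd' (cyc g i0).card with ⟨m, hm | hm⟩
  · have hm0 : 0 < m := by omega
    rw [L3One_split hm0 hm, L3One_conA hr2 hm]
    have eD : ∑ x with L3One_D g i0 x, wt (phiS θ g) (cyc g i0) x
        = ∑ x with L3One_D g i0 x, im (∑ i ∈ cyc g i0, x.2 i) *
          (if sg (x.2 i0) = 1 then 1 else θ (∑ i ∈ cyc g i0, g.col i)) :=
      Finset.sum_congr rfl fun x hx => L3One_wtD hr hθ hθ0 (Finset.mem_filter.1 hx).2
    have eH : ∑ x with L3One_H g m 0 i0 x, wt (phiS θ g) (cyc g i0) x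
        = ∑ x with L3One_H g m 0 i0 x, - im (∑ i ∈ cyc g i0, x.2 i) :=
      Finset.sum_congr rfl fun x hx => L3One_wtH hr hm0 hm (Finset.mem_filter.1 hx).2
    have eA : ∑ x with L3One_H g m (hf r) i0 x, wt (phiA ((-1) ^ (r / 4)) g) (cyc g i0) x
        = ∑ x with L3One_H g m (hf r) i0 x, im (∑ i ∈ cyc g i0, x.2 i) *
          ((-1) ^ (r / 4) * sg (x.2 i0) * sg (L3One_A g m i0)) :=
      Finset.sum_congr rfl fun x hx => L3One_wtA hr hm0 hm (Finset.mem_filter.1 hx).2
    rw [eD, eH, eA]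
    by_cases ha0 : ∑ i ∈ cyc g i0, g.col i = 0
    · have hR : ∀ f : Str r n → ℂ, ∑ x with L3One_H g m (hf r) i0 x, f x = 0 := by
        intro f
        refine Finset.sum_eq_zero fun x hx => ?_
        have := L3One_H_e hm (Finset.mem_filter.1 hx).2
        rw [ha0] at this
        exact absurd this (hf_ne_zero hr2)
      rw [hR]
      have h1 := L3One_sum_H hm (fun x => - im (∑ i ∈ cyc g i0, x.2 i))
      rw [ha0] at h1
      rw [h1, ← Finset.sum_add_distrib]
      refine Finset.sum_eq_zero fun x _ => ?_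
      rw [L3One_toH_sum, ha0, mul_zero, add_zero, hθ0, ite_self, mul_one, add_neg_cancel]
    · have hH0 : ∀ f : Str r n → ℂ, ∑ x with L3One_H g m 0 i0 x, f x = 0 := by
        intro f
        refine Finset.sum_eq_zero fun x hx => ?_
        exact absurd (L3One_H_e hm (Finset.mem_filter.1 hx).2).symm ha0
      rw [hH0, add_zero]
      by_cases ha1 : ∑ i ∈ cyc g i0, g.col i = hf r
      · have h1 := L3One_sum_H hm (fun x => im (∑ i ∈ cyc g i0, x.2 i) *
          ((-1) ^ (r / 4) * sg (x.2 i0) * sg (L3One_A g m i0)))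
        rw [ha1] at h1
        rw [h1, ha1, hθ2]
        have e1 : ∀ x : Str r n, im (∑ i ∈ cyc g i0, x.2 i) * (if sg (x.2 i0) = 1 then 1 else -1)
            = im (∑ i ∈ cyc g i0, x.2 i) * sg (x.2 i0) := by
          intro x
          rcases sg_cases (x.2 i0) with h | h
          · rw [h, if_pos rfl]
          · rw [h, if_neg (by norm_num)]
        have e2 : ∀ x : Str r n, im (∑ i ∈ cyc g i0, (L3One_toH g m i0 x).2 i) *
            ((-1) ^ (r / 4) * sg ((L3One_toH g m i0 x).2 i0) * sg (L3One_A g m i0))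
            = ((-1) ^ (r / 4)) ^ (m + 1) * (im (∑ i ∈ cyc g i0, x.2 i) * sg (x.2 i0)) := by
          intro x
          have e3 : (L3One_toH g m i0 x).2 i0 = x.2 i0 + L3One_A g m i0 := by
            simp only [L3One_toH, if_pos (self_mem_cyc g i0)]
          have e4 : im ((m : ZMod r) * hf r) = ((-1) ^ (r / 4)) ^ m := by
            have : (m : ZMod r) * hf r = ∑ _i ∈ Finset.range m, hf r := by
              rw [Finset.sum_const, Finset.card_range, nsmul_eq_mul]
            rw [this, im_sum hr, Finset.prod_const, Finset.card_range, im_hf hr]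
          rw [L3One_toH_sum, ha1, im_add hr, e3, sg_add hr2, e4, pow_succ]
          have h5 := sg_mul_self (L3One_A g m i0)
          linear_combination (im (∑ i ∈ cyc g i0, x.2 i) * ((-1) ^ (r / 4)) ^ m *
            ((-1) ^ (r / 4) * sg (x.2 i0))) * h5
        simp only [e1, e2]
        rw [← Finset.mul_sum]
        rcases Nat.even_or_odd m with hme | hmo
        · have hz : ∑ x with L3One_D g i0 x, im (∑ i ∈ cyc g i0, x.2 i) * sg (x.2 i0) = 0 := by
            refine L3One_cancel _ _ (shiftS (cyc g i0) 1) ?_ ?_ ?_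
            · intro x hx
              exact Finset.mem_filter.2 ⟨Finset.mem_univ _,
                L3One_shift_D 1 (Finset.mem_filter.1 hx).2⟩
            · intro x _ y _ hxy
              exact L3One_shift_inj hxy
            · intro x _
              have e5 : (shiftS (cyc g i0) 1 x).2 i0 = x.2 i0 + 1 := by
                simp [shiftS, self_mem_cyc]
              rw [L3One_shift_sum, hm, mul_one, im_add hr, im_natCast hr, pow_mul, Complex.I_sq,
                hme.neg_one_pow, e5, sg_add hr2, sg_one hr2]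
              ring
          rw [hz, mul_zero]
        · have : Even (m + 1) := hmo.add_one
          rw [← pow_mul, (this.mul_left (r / 4)).neg_one_pow, one_mul]
      · have hR : ∀ f : Str r n → ℂ, ∑ x with L3One_H g m (hf r) i0 x, f x = 0 := by
          intro f
          refine Finset.sum_eq_zero fun x hx => ?_
          exact absurd (L3One_H_e hm (Finset.mem_filter.1 hx).2).symm ha1
        have hL : ∀ f : Str r n → ℂ, ∑ x with L3One_D g i0 x, f x = 0 := by
          intro f
          refine Finset.sum_eq_zero fun x hx => ?_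
          rcases (two_mul_eq_zero_iff hr2 _).1 (L3One_D_two (Finset.mem_filter.1 hx).2) with h | h
          · exact absurd h ha0
          · exact absurd h ha1
        rw [hR, hL]
  · -- odd length
    rw [con_one, con_one]
    have hR : ∑ x with IsStr g 0 (hf r) 0 (cyc g i0) x,
        wt (phiA ((-1) ^ (r / 4)) g) (cyc g i0) x = 0 := by
      refine Finset.sum_eq_zero fun x hx => ?_
      have h1 := (Finset.mem_filter.1 hx).2
      rcases oneCycle_cases h1 with h | ⟨m', -, hm', h⟩
      · exfalso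
        have hi := self_mem_cyc g i0
        have h2 := (h1.2 i0 hi).2.2.2.1
        rw [h i0 hi, Nat.cast_zero, zero_mul, add_zero] at h2
        exact hf_ne_zero hr2 (left_eq_add.1 h2)
      · omega
    rw [hR]
    refine L3One_cancel _ _ (shiftS (cyc g i0) 2) ?_ ?_ ?_
    · intro x hx
      exact Finset.mem_filter.2 ⟨Finset.mem_univ _,
        (isStr_shiftS (cyc_Stb g i0)).2 (Finset.mem_filter.1 hx).2⟩
    · intro x _ y _ hxy
      exact L3One_shift_inj hxy
    · intro x hx
      have h1 := (Finset.mem_filter.1 hx).2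
      have hD : L3One_D g i0 x := by
        refine ⟨h1, ?_⟩
        rcases oneCycle_cases h1 with h | ⟨m', -, hm', h⟩
        · exact h
        · omega
      have e5 : (shiftS (cyc g i0) 2 x).2 i0 = x.2 i0 + 2 := by
        simp [shiftS, self_mem_cyc]
      have e6 : sg ((2 : ZMod r)) = 1 := by
        have := sg_two_mul hr2 (1 : ZMod r)
        rwa [mul_one] at this
      have e7 : im (((cyc g i0).card : ZMod r) * 2) = -1 := by
        have : ((cyc g i0).card : ZMod r) * 2 = (((cyc g i0).card * 2 : ℕ) : ZMod r) := by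
          push_cast
          ring
        rw [this, im_natCast hr, mul_comm, pow_mul, Complex.I_sq, hm]
        have : Odd (2 * m + 1) := ⟨m, rfl⟩
        rw [this.neg_one_pow]
      rw [L3One_wtD hr hθ hθ0 hD, L3One_wtD hr hθ hθ0 (L3One_shift_D 2 hD), L3One_shift_sum,
        im_add hr, e5, sg_add hr2, e6, e7, mul_one]
      ring

end GIM119
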