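import Pool.Agent.Lib.MP_119ee3_al.Basic
import Pool.Agent.Lib.MP_119ee3_al.Chars
import Pool.Agent.Lib.MP_119ee3_al.Cyc
import Pool.Agent.Lib.MP_119ee3_al.Shift
import Pool.Agent.Lib.MP_119ee3_al.OneCycle
import Pool.Agent.Lib.MP_119ee3_al.Orient
import Pool.Agent.Lib.MP_119ee3_al.EvalW2

set_option autoImplicit false

/-!
# MP_119ee3_al: Identity F3, two cycles.
-/

open Classical

noncomputable section

namespace GIM119

open MG

variable {r n : ℕ} [NeZero r]

/-- connected structures on two cycles -/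
def L3Two_Two (g : MG r n) (e1 : ZMod r) (i0 : Fin n) (T : Finset (Fin n)) (x : Str r n) : Prop :=
  IsStr g 0 e1 0 T x ∧ T = cyc g i0 ∪ cyc g (x.1 i0)

theorem L3Two_data {g : MG r n} {e1 : ZMod r} {i0 : Fin n} {T : Finset (Fin n)} {x : Str r n}
    (hT : T ≠ cyc g i0) (hx : L3Two_Two g e1 i0 T x) :
    Stb g T ∧ cyc g i0 ⊆ T ∧ x.1 i0 ∉ cyc g i0 ∧
      (∀ i ∈ T, x.1 i ∈ T ∧ x.1 (x.1 i) = i ∧ x.1 (g.perm i) = g.perm (x.1 i)) ∧
      (∀ i ∈ T, x.2 (x.1 i) = x.2 i + e1) ∧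
      (∀ i ∈ T, x.2 (g.perm i) = x.2 i + g.col i + g.col (x.1 i)) ∧
      (∀ i ∈ T, (i ∈ cyc g i0 ↔ x.1 i ∉ cyc g i0)) := by
  obtain ⟨hs, hU⟩ := hx
  have hn : x.1 i0 ∉ cyc g i0 := by
    intro h
    apply hT
    rw [hU, cyc_eq_of_mem h, Finset.union_idempotent]
  have hS : Stb g T := by
    intro i
    rw [hU, Finset.mem_union, Finset.mem_union, cyc_Stb g i0 i, cyc_Stb g (x.1 i0) i]
  have hsub : cyc g i0 ⊆ T := by
    rw [hU]
    exact Finset.subset_union_left
  have h1 : ∀ i ∈ T, x.1 i ∈ T ∧ x.1 (x.1 i) = i ∧ x.1 (g.perm i) = g.perm (x.1 i) := by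
    intro i hi
    have h := hs.2 i hi
    refine ⟨h.1, ?_, h.2.2.1⟩
    simpa using h.2.1
  have h2 : ∀ i ∈ T, x.2 (x.1 i) = x.2 i + e1 := by
    intro i hi
    have h := (hs.2 i hi).2.2.2.1
    simpa using h
  have h3 : ∀ i ∈ T, x.2 (g.perm i) = x.2 i + g.col i + g.col (x.1 i) := by
    intro i hi
    have h := (hs.2 i hi).2.2.2.2
    simpa using h
  have hi0 : i0 ∈ T := hsub (self_mem_cyc g i0)
  refine ⟨hS, hsub, hn, h1, h2, h3, ?_⟩
  have key : ∀ i ∈ cyc g i0, x.1 i ∉ cyc g i0 := by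
    intro i hi
    rw [cyc_eq_image, Finset.mem_image] at hi
    obtain ⟨l, -, rfl⟩ := hi
    rw [hs.pow hS hi0 l]
    have hm : (g.perm ^ l) (x.1 i0) ∈ cyc g (x.1 i0) := pow_mem_cyc g _ l
    exact fun hc => (Finset.disjoint_left.1 (cyc_disjoint hn)) hc hm
  intro i hi
  refine ⟨key i, fun h => ?_⟩
  have hxi : x.1 i ∈ cyc g (x.1 i0) := by
    have := (h1 i hi).1
    rw [hU, Finset.mem_union] at this
    exact this.resolve_left h
  rw [cyc_eq_image, Finset.mem_image] at hxi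
  obtain ⟨l, -, hl⟩ := hxi
  have h5 : x.1 (x.1 i) = (g.perm ^ l) (x.1 (x.1 i0)) := by
    rw [← hl, hs.pow hS (h1 i0 hi0).1 l]
  rw [(h1 i hi).2.1, (h1 i0 hi0).2.1] at h5
  rw [h5]
  exact pow_mem_cyc g i0 l

theorem L3Two_wtS {θ : ZMod r → ℂ} (hr : 4 ∣ r) {g : MG r n} {e1 : ZMod r} {i0 : Fin n}
    {T : Finset (Fin n)} {x : Str r n} (hT : T ≠ cyc g i0) (hx : L3Two_Two g e1 i0 T x) :
    wt (phiS θ g) T x = im (∑ i ∈ T, x.2 i) := by
  obtain ⟨hS, hsub, hn, h1, h2, h3, hR⟩ := L3Two_data hT hx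
  unfold wt phiS
  rw [Finset.prod_mul_distrib, im_sum hr]
  have h4 : ∏ i ∈ T, phi1 θ g i (x.1 i) (x.2 i) (x.2 (x.1 i))
      = ∏ i ∈ T, (if i < x.1 i ∧ g.perm (x.1 i) < g.perm i then (-1 : ℂ) else 1) := by
    refine Finset.prod_congr rfl fun i hi => ?_
    have hne : x.1 i ≠ i := by
      intro h
      have := hR i hi
      rw [h] at this
      tauto
    unfold phi1
    rw [if_neg hne]
  rw [h4, flip_two hS hsub h1 hR, mul_one]

theorem L3Two_wtA (hr : 4 ∣ r) {g : MG r n} {i0 : Fin n}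
    {T : Finset (Fin n)} {x : Str r n} (hT : T ≠ cyc g i0) (hx : L3Two_Two g (hf r) i0 T x) :
    wt (phiA ((-1) ^ (r / 4)) g) T x = im (∑ i ∈ T, x.2 i) * sg (∑ i ∈ cyc g i0, g.col i) := by
  obtain ⟨hS, hsub, hn, h1, h2, h3, hR⟩ := L3Two_data hT hx
  have hr2 : 2 ∣ r := dvd_trans (by norm_num) hr
  have hκ : (((-1 : ℂ)) ^ (r / 4)) ^ 2 = (-1) ^ (r / 2) := by
    rw [← pow_mul]
    congr 1
    omega
  have h4 := wt_phi2_two hr2 hκ hS hsub hx.1 hR
  rw [← h4]
  unfold wt phiA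
  rw [Finset.prod_mul_distrib, im_sum hr]

theorem L3Two_sum_T {g : MG r n} {e1 : ZMod r} {i0 : Fin n}
    {T : Finset (Fin n)} {x : Str r n} (hT : T ≠ cyc g i0) (hx : L3Two_Two g e1 i0 T x)
    {M : Type*} [AddCommMonoid M] (f : Fin n → M) :
    ∑ i ∈ T, f i = ∑ i ∈ cyc g i0, f i + ∑ i ∈ cyc g i0, f (x.1 i) := by
  obtain ⟨hS, hsub, hn, h1, h2, h3, hR⟩ := L3Two_data hT hx
  rw [← Finset.sum_sdiff hsub, add_comm]
  congr 1
  symm
  refine Finset.sum_bij (fun i _ => x.1 i) ?_ ?_ ?_ ?_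
  · intro i hi
    exact Finset.mem_sdiff.2 ⟨(h1 i (hsub hi)).1, (hR i (hsub hi)).1 hi⟩
  · intro i hi j hj hij
    rw [← (h1 i (hsub hi)).2.1, hij, (h1 j (hsub hj)).2.1]
  · intro j hj
    rw [Finset.mem_sdiff] at hj
    refine ⟨x.1 j, ?_, (h1 j hj.1).2.1⟩
    by_contra hc
    exact hj.2 ((hR j hj.1).2 hc)
  · intro i hi
    rfl

theorem L3Two_card {g : MG r n} {e1 : ZMod r} {i0 : Fin n}
    {T : Finset (Fin n)} {x : Str r n} (hT : T ≠ cyc g i0) (hx : L3Two_Two g e1 i0 T x) :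
    T.card = 2 * (cyc g i0).card := by
  have h := L3Two_sum_T hT hx (fun _ => 1)
  simp only [Finset.sum_const, smul_eq_mul, mul_one] at h
  omega

/-- going round the cycle -/
theorem L3Two_round {g : MG r n} {e1 : ZMod r} {i0 : Fin n}
    {T : Finset (Fin n)} {x : Str r n} (hT : T ≠ cyc g i0) (hx : L3Two_Two g e1 i0 T x) :
    ∑ i ∈ cyc g i0, g.col (x.1 i) = - ∑ i ∈ cyc g i0, g.col i := by
  obtain ⟨hS, hsub, hn, h1, h2, h3, hR⟩ := L3Two_data hT hx
  have h4 : ∑ i ∈ cyc g i0, x.2 (g.perm i) = ∑ i ∈ cyc g i0, x.2 i := by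
    refine Finset.sum_equiv g.perm (fun i => ?_) (fun i _ => rfl)
    exact (cyc_Stb g i0 i).symm
  have h5 : ∑ i ∈ cyc g i0, x.2 (g.perm i)
      = ∑ i ∈ cyc g i0, (x.2 i + g.col i + g.col (x.1 i)) :=
    Finset.sum_congr rfl fun i hi => h3 i (hsub hi)
  rw [h4, Finset.sum_add_distrib, Finset.sum_add_distrib, add_assoc] at h5
  have h6 := left_eq_add.1 h5
  exact eq_neg_of_add_eq_zero_right h6

theorem L3Two_shift_sum {T : Finset (Fin n)} {x : Str r n} (c : ZMod r) :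
    ∑ i ∈ T, (shiftS T c x).2 i = ∑ i ∈ T, x.2 i + T.card * c := by
  have : ∀ i ∈ T, (shiftS T c x).2 i = x.2 i + c := fun i hi => by
    simp [shiftS, hi]
  rw [Finset.sum_congr rfl this, Finset.sum_add_distrib, Finset.sum_const, nsmul_eq_mul]

theorem L3Two_shift {g : MG r n} {e1 : ZMod r} {i0 : Fin n}
    {T : Finset (Fin n)} {x : Str r n} (hT : T ≠ cyc g i0) (hx : L3Two_Two g e1 i0 T x)
    (c : ZMod r) : L3Two_Two g e1 i0 T (shiftS T c x) :=
  ⟨(isStr_shiftS (L3Two_data hT hx).1).2 hx.1, hx.2⟩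

theorem L3Two_im_odd (hr : 4 ∣ r) {l : ℕ} (hl : Odd l) : im (((2 * l : ℕ) : ZMod r)) = -1 := by
  rw [im_natCast hr, pow_mul, Complex.I_sq, hl.neg_one_pow]

/-- the exchange of neighbours -/
def L3Two_mv (g : MG r n) (i0 : Fin n) (T : Finset (Fin n)) (x : Str r n) : Str r n :=
  (fun i => if i ∈ T then (if i ∈ cyc g i0 then g.perm.symm (x.1 i) else g.perm (x.1 i)) else i,
   fun i => if i ∈ T then (if i ∈ cyc g i0 then x.2 i - g.col (g.perm.symm (x.1 i))
      else x.2 i + g.col (x.1 i)) else x.2 i)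

theorem L3Two_mv_mem {g : MG r n} {e1 : ZMod r} {i0 : Fin n}
    {T : Finset (Fin n)} {x : Str r n} (hT : T ≠ cyc g i0) (hx : L3Two_Two g e1 i0 T x) :
    L3Two_Two g e1 i0 T (L3Two_mv g i0 T x) := by
  obtain ⟨hS, hsub, hn, h1, h2, h3, hR⟩ := L3Two_data hT hx
  have hSs : ∀ i, g.perm.symm i ∈ T ↔ i ∈ T := by
    intro i
    have := hS (g.perm.symm i)
    rw [Equiv.apply_symm_apply] at this
    exact this.symm
  have hCs : ∀ i, g.perm.symm i ∈ cyc g i0 ↔ i ∈ cyc g i0 := by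
    intro i
    have := cyc_Stb g i0 (g.perm.symm i)
    rw [Equiv.apply_symm_apply] at this
    exact this.symm
  have hC := cyc_Stb g i0
  have hcs : ∀ i ∈ T, x.1 (g.perm.symm i) = g.perm.symm (x.1 i) := by
    intro i hi
    have h4 := (h1 (g.perm.symm i) ((hSs i).2 hi)).2.2
    rw [Equiv.apply_symm_apply] at h4
    rw [h4, Equiv.symm_apply_apply]
  have h3' : ∀ i ∈ T, x.2 i = x.2 (g.perm.symm i) + g.col (g.perm.symm i)
      + g.col (g.perm.symm (x.1 i)) := by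
    intro i hi
    have h4 := h3 (g.perm.symm i) ((hSs i).2 hi)
    rw [Equiv.apply_symm_apply, hcs i hi] at h4
    exact h4
  refine ⟨⟨?_, ?_⟩, ?_⟩
  · intro i hi
    simp only [L3Two_mv, if_neg hi]
    exact ⟨trivial, (hx.1.1 i hi).2⟩
  · intro i hi
    have hgi : g.perm i ∈ T := (hS i).2 hi
    by_cases hc : i ∈ cyc g i0
    · have hgc : g.perm i ∈ cyc g i0 := (hC i).2 hc
      have hxc : x.1 i ∉ cyc g i0 := (hR i hi).1 hc
      have hyT : g.perm.symm (x.1 i) ∈ T := (hSs _).2 (h1 i hi).1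
      have hyc : g.perm.symm (x.1 i) ∉ cyc g i0 := fun h => hxc ((hCs _).1 h)
      simp only [L3Two_mv, if_pos hi, if_pos hc, if_pos hyT, if_neg hyc, if_pos hgi, if_pos hgc,
        pow_zero, Equiv.Perm.one_apply, Nat.cast_zero, zero_mul, add_zero]
      refine ⟨hyT, ?_, ?_, ?_, ?_⟩
      · rw [hcs _ (h1 i hi).1, (h1 i hi).2.1, Equiv.apply_symm_apply]
      · rw [(h1 i hi).2.2, Equiv.symm_apply_apply, Equiv.apply_symm_apply]
      · rw [hcs _ (h1 i hi).1, (h1 i hi).2.1]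
        have h4 := h3' _ (h1 i hi).1
        rw [(h1 i hi).2.1, h2 i hi] at h4
        have h5 : x.2 i = x.2 (g.perm.symm (x.1 i)) + g.col (g.perm.symm (x.1 i))
          + g.col (g.perm.symm i) - e1 := by rw [← h4]; ring
        rw [h5]
        ring
      · rw [(h1 i hi).2.2, Equiv.symm_apply_apply, h3 i hi]
        ring
    · have hgc : g.perm i ∉ cyc g i0 := fun h => hc ((hC i).1 h)
      have hxc : x.1 i ∈ cyc g i0 := by
        by_contra h
        exact hc ((hR i hi).2 h)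
      have hyT : g.perm (x.1 i) ∈ T := (hS _).2 (h1 i hi).1
      have hyc : g.perm (x.1 i) ∈ cyc g i0 := (hC _).2 hxc
      simp only [L3Two_mv, if_pos hi, if_neg hc, if_pos hyT, if_pos hyc, if_pos hgi, if_neg hgc,
        pow_zero, Equiv.Perm.one_apply, Nat.cast_zero, zero_mul, add_zero]
      refine ⟨hyT, ?_, ?_, ?_, ?_⟩
      · rw [(h1 _ (h1 i hi).1).2.2, (h1 i hi).2.1, Equiv.symm_apply_apply]
      · rw [(h1 i hi).2.2]
      · rw [(h1 _ (h1 i hi).1).2.2, (h1 i hi).2.1, Equiv.symm_apply_apply, h3 _ (h1 i hi).1,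
          h2 i hi, (h1 i hi).2.1]
        ring
      · rw [(h1 i hi).2.2, h3 i hi]
        ring
  · have hi0c := self_mem_cyc g i0
    have hi0 : i0 ∈ T := hsub hi0c
    have e : (L3Two_mv g i0 T x).1 i0 = g.perm.symm (x.1 i0) := by
      simp only [L3Two_mv, if_pos hi0, if_pos hi0c]
    rw [e]
    have : cyc g (g.perm.symm (x.1 i0)) = cyc g (x.1 i0) := by
      apply cyc_eq_of_mem
      have h6 := (cyc_Stb g (x.1 i0) (g.perm.symm (x.1 i0)))
      rw [Equiv.apply_symm_apply] at h6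
      exact h6.1 (self_mem_cyc _ _)
    rw [this]
    exact hx.2

theorem L3Two_mv_inj {g : MG r n} {e1 : ZMod r} {i0 : Fin n}
    {T : Finset (Fin n)} {x y : Str r n}
    (hx : L3Two_Two g e1 i0 T x) (hy : L3Two_Two g e1 i0 T y)
    (h : L3Two_mv g i0 T x = L3Two_mv g i0 T y) : x = y := by
  have ha : ∀ i, (L3Two_mv g i0 T x).1 i = (L3Two_mv g i0 T y).1 i := fun i => by rw [h]
  have hb : ∀ i, (L3Two_mv g i0 T x).2 i = (L3Two_mv g i0 T y).2 i := fun i => by rw [h]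
  have h1 : ∀ i, x.1 i = y.1 i := by
    intro i
    by_cases hi : i ∈ T
    · have := ha i
      by_cases hc : i ∈ cyc g i0
      · simp only [L3Two_mv, if_pos hi, if_pos hc] at this
        exact g.perm.symm.injective this
      · simp only [L3Two_mv, if_pos hi, if_neg hc] at this
        exact g.perm.injective this
    · rw [(hx.1.1 i hi).1, (hy.1.1 i hi).1]
  have h2 : ∀ i, x.2 i = y.2 i := by
    intro i
    by_cases hi : i ∈ T
    · have := hb i
      by_cases hc : i ∈ cyc g i0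
      · simp only [L3Two_mv, if_pos hi, if_pos hc, h1 i] at this
        exact sub_left_injective this
      · simp only [L3Two_mv, if_pos hi, if_neg hc, h1 i] at this
        exact add_right_cancel this
    · rw [(hx.1.1 i hi).2, (hy.1.1 i hi).2]
  exact Prod.ext (funext h1) (funext h2)

theorem L3Two_mv_sum {g : MG r n} {e1 : ZMod r} {i0 : Fin n}
    {T : Finset (Fin n)} {x : Str r n} (hT : T ≠ cyc g i0) (hx : L3Two_Two g e1 i0 T x) :
    ∑ i ∈ T, (L3Two_mv g i0 T x).2 i = ∑ i ∈ T, x.2 i + 2 * ∑ i ∈ cyc g i0, g.col i := by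
  obtain ⟨hS, hsub, hn, h1, h2, h3, hR⟩ := L3Two_data hT hx
  have hC := cyc_Stb g i0
  have hCs : ∀ i, g.perm.symm i ∈ cyc g i0 ↔ i ∈ cyc g i0 := by
    intro i
    have := cyc_Stb g i0 (g.perm.symm i)
    rw [Equiv.apply_symm_apply] at this
    exact this.symm
  have hSs : ∀ i, g.perm.symm i ∈ T ↔ i ∈ T := by
    intro i
    have := hS (g.perm.symm i)
    rw [Equiv.apply_symm_apply] at this
    exact this.symm
  have hcs : ∀ i ∈ T, x.1 (g.perm.symm i) = g.perm.symm (x.1 i) := by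
    intro i hi
    have h4 := (h1 (g.perm.symm i) ((hSs i).2 hi)).2.2
    rw [Equiv.apply_symm_apply] at h4
    rw [h4, Equiv.symm_apply_apply]
  rw [L3Two_sum_T hT hx, L3Two_sum_T hT hx]
  have ha : ∑ i ∈ cyc g i0, (L3Two_mv g i0 T x).2 i
      = ∑ i ∈ cyc g i0, x.2 i - ∑ i ∈ cyc g i0, g.col (x.1 i) := by
    have e1 : ∑ i ∈ cyc g i0, (L3Two_mv g i0 T x).2 i
        = ∑ i ∈ cyc g i0, (x.2 i - g.col (x.1 (g.perm.symm i))) := by
      refine Finset.sum_congr rfl fun i hi => ?_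
      rw [hcs i (hsub hi)]
      simp only [L3Two_mv, if_pos (hsub hi), if_pos hi]
    rw [e1, Finset.sum_sub_distrib]
    congr 1
    refine Finset.sum_equiv g.perm.symm (fun i => (hCs i).symm) (fun i _ => rfl)
  have hb : ∑ i ∈ cyc g i0, (L3Two_mv g i0 T x).2 (x.1 i)
      = ∑ i ∈ cyc g i0, x.2 (x.1 i) + ∑ i ∈ cyc g i0, g.col i := by
    rw [← Finset.sum_add_distrib]
    refine Finset.sum_congr rfl fun i hi => ?_
    have hi' := hsub hi
    have hxc : x.1 i ∉ cyc g i0 := (hR i hi').1 hi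
    simp only [L3Two_mv, if_pos (h1 i hi').1, if_neg hxc]
    rw [(h1 i hi').2.1]
  rw [ha, hb, L3Two_round hT hx]
  ring

/-- general principle: an injective self map of the index set which changes the sign -/
theorem L3Two_cancel {α : Type*} (A : Finset α) (f : α → ℂ) (F : α → α)
    (hF : ∀ x ∈ A, F x ∈ A) (hinj : ∀ x ∈ A, ∀ y ∈ A, F x = F y → x = y)
    (hf : ∀ x ∈ A, f (F x) = -f x) : ∑ x ∈ A, f x = 0 := by
  have himg : A.image F = A := by
    refine Finset.eq_of_subset_of_card_le ?_ ?_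
    · intro y hy
      rw [Finset.mem_image] at hy
      obtain ⟨x, hx, rfl⟩ := hy
      exact hF x hx
    · rw [Finset.card_image_of_injOn]
      intro x hx y hy hxy
      exact hinj x hx y hy hxy
  have h1 : ∑ x ∈ A, f x = ∑ x ∈ A, f (F x) := by
    conv_lhs => rw [← himg]
    rw [Finset.sum_image]
    intro x hx y hy hxy
    exact hinj x hx y hy hxy
  rw [Finset.sum_congr rfl hf, Finset.sum_neg_distrib] at h1
  exact self_eq_neg.1 h1

theorem L3Two_sw (hr2 : 2 ∣ r) {g : MG r n} {e1 : ZMod r} {i0 : Fin n}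
    {T : Finset (Fin n)} {x : Str r n} (hT : T ≠ cyc g i0) (hx : L3Two_Two g e1 i0 T x) :
    L3Two_Two g (e1 + hf r) i0 T (shiftS (T \ cyc g i0) (hf r) x) := by
  obtain ⟨hS, hsub, hn, h1, h2, h3, hR⟩ := L3Two_data hT hx
  have hC := cyc_Stb g i0
  refine ⟨⟨?_, ?_⟩, hx.2⟩
  · intro i hi
    have hi' : i ∉ T \ cyc g i0 := fun h => hi (Finset.mem_sdiff.1 h).1
    simp only [shiftS, if_neg hi']
    exact hx.1.1 i hi
  · intro i hi
    have h4 := hx.1.2 i hi
    refine ⟨h4.1, h4.2.1, h4.2.2.1, ?_, ?_⟩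
    · simp only [shiftS, Nat.cast_zero, zero_mul, add_zero]
      by_cases hc : i ∈ cyc g i0
      · have hxc : x.1 i ∉ cyc g i0 := (hR i hi).1 hc
        have m1 : x.1 i ∈ T \ cyc g i0 := Finset.mem_sdiff.2 ⟨(h1 i hi).1, hxc⟩
        have m2 : i ∉ T \ cyc g i0 := fun h => (Finset.mem_sdiff.1 h).2 hc
        rw [if_pos m1, if_neg m2, h2 i hi]
        ring
      · have hxc : x.1 i ∈ cyc g i0 := by
          by_contra h
          exact hc ((hR i hi).2 h)
        have m1 : x.1 i ∉ T \ cyc g i0 := fun h => (Finset.mem_sdiff.1 h).2 hxc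
        have m2 : i ∈ T \ cyc g i0 := Finset.mem_sdiff.2 ⟨hi, hc⟩
        rw [if_neg m1, if_pos m2, h2 i hi]
        have := hf_add_hf hr2
        linear_combination -this
    · simp only [shiftS, add_zero]
      by_cases hc : i ∈ cyc g i0
      · have m1 : g.perm i ∉ T \ cyc g i0 := fun h => (Finset.mem_sdiff.1 h).2 ((hC i).2 hc)
        have m2 : i ∉ T \ cyc g i0 := fun h => (Finset.mem_sdiff.1 h).2 hc
        rw [if_neg m1, if_neg m2, h3 i hi]
      · have m1 : g.perm i ∈ T \ cyc g i0 :=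
          Finset.mem_sdiff.2 ⟨(hS i).2 hi, fun h => hc ((hC i).1 h)⟩
        have m2 : i ∈ T \ cyc g i0 := Finset.mem_sdiff.2 ⟨hi, hc⟩
        rw [if_pos m1, if_pos m2, h3 i hi]
        ring

theorem L3Two_sw_sw (hr2 : 2 ∣ r) (S : Finset (Fin n)) (x : Str r n) :
    shiftS S (hf r) (shiftS S (hf r) x) = x := by
  refine Prod.ext rfl (funext fun i => ?_)
  simp only [shiftS]
  by_cases hi : i ∈ S
  · rw [if_pos hi, if_pos hi, add_assoc, hf_add_hf hr2, add_zero]
  · rw [if_neg hi, if_neg hi]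

theorem L3Two_sw_sum (hr2 : 2 ∣ r) {g : MG r n} {e1 : ZMod r} {i0 : Fin n}
    {T : Finset (Fin n)} {x : Str r n} (hT : T ≠ cyc g i0) (hx : L3Two_Two g e1 i0 T x)
    (hl : Even (cyc g i0).card) :
    ∑ i ∈ T, (shiftS (T \ cyc g i0) (hf r) x).2 i = ∑ i ∈ T, x.2 i := by
  obtain ⟨hS, hsub, hn, h1, h2, h3, hR⟩ := L3Two_data hT hx
  have hcard := L3Two_card hT hx
  have e : ∀ i ∈ T, (shiftS (T \ cyc g i0) (hf r) x).2 i
      = x.2 i + (if i ∈ T \ cyc g i0 then hf r else 0) := by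
    intro i _
    simp only [shiftS]
    by_cases hi : i ∈ T \ cyc g i0
    · rw [if_pos hi, if_pos hi]
    · rw [if_neg hi, if_neg hi, add_zero]
  rw [Finset.sum_congr rfl e, Finset.sum_add_distrib, ← Finset.sum_filter]
  have e2 : T.filter (fun i => i ∈ T \ cyc g i0) = T \ cyc g i0 := by
    ext i
    simp only [Finset.mem_filter, Finset.mem_sdiff]
    tauto
  rw [e2, Finset.sum_const, Finset.card_sdiff_of_subset hsub, hcard]
  obtain ⟨k, hk⟩ := hl
  have e3 : 2 * (cyc g i0).card - (cyc g i0).card = k + k := by omega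
  rw [e3, add_smul, ← smul_add, hf_add_hf hr2, smul_zero, add_zero]

theorem L3_two (hr : 4 ∣ r) (θ : ZMod r → ℂ) (g : MG r n) (i0 : Fin n)
    (T : Finset (Fin n)) (hT : T ≠ cyc g i0) :
    con g 0 0 0 (phiS θ g) i0 T = con g 0 (hf r) 0 (phiA ((-1) ^ (r / 4)) g) i0 T := by
  have hr2 : 2 ∣ r := dvd_trans (by norm_num) hr
  have eL : con g 0 0 0 (phiS θ g) i0 T
      = ∑ x with L3Two_Two g 0 i0 T x, im (∑ i ∈ T, x.2 i) := by
    unfold con
    rw [Finset.sum_filter, Finset.sum_filter]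
    refine Finset.sum_congr rfl fun x _ => ?_
    by_cases hx : L3Two_Two g 0 i0 T x
    · rw [if_pos (show IsStr g 0 0 0 T x ∧ T = cyc g i0 ∪ cyc g (x.1 i0) from hx), if_pos hx]
      exact L3Two_wtS hr hT hx
    · rw [if_neg (show ¬ (IsStr g 0 0 0 T x ∧ T = cyc g i0 ∪ cyc g (x.1 i0)) from hx), if_neg hx]
  have eR : con g 0 (hf r) 0 (phiA ((-1) ^ (r / 4)) g) i0 T
      = ∑ x with L3Two_Two g (hf r) i0 T x,
        im (∑ i ∈ T, x.2 i) * sg (∑ i ∈ cyc g i0, g.col i) := by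
    unfold con
    rw [Finset.sum_filter, Finset.sum_filter]
    refine Finset.sum_congr rfl fun x _ => ?_
    by_cases hx : L3Two_Two g (hf r) i0 T x
    · rw [if_pos (show IsStr g 0 (hf r) 0 T x ∧ T = cyc g i0 ∪ cyc g (x.1 i0) from hx), if_pos hx]
      exact L3Two_wtA hr hT hx
    · rw [if_neg (show ¬ (IsStr g 0 (hf r) 0 T x ∧ T = cyc g i0 ∪ cyc g (x.1 i0)) from hx), if_neg hx]
  rw [eL, eR]
  rcases Nat.even_or_odd (cyc g i0).card with hl | hl
  · rcases sg_cases (∑ i ∈ cyc g i0, g.col i) with ha | ha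
    · -- shift the colours on the second cycle
      refine Finset.sum_nbij' (fun x => shiftS (T \ cyc g i0) (hf r) x)
        (fun x => shiftS (T \ cyc g i0) (hf r) x) ?_ ?_ ?_ ?_ ?_
      · intro x hx
        have := L3Two_sw hr2 hT (Finset.mem_filter.1 hx).2
        rw [zero_add] at this
        exact Finset.mem_filter.2 ⟨Finset.mem_univ _, this⟩
      · intro x hx
        have := L3Two_sw hr2 hT (Finset.mem_filter.1 hx).2
        rw [hf_add_hf hr2] at this
        exact Finset.mem_filter.2 ⟨Finset.mem_univ _, this⟩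
      · intro x _
        exact L3Two_sw_sw hr2 _ x
      · intro x _
        exact L3Two_sw_sw hr2 _ x
      · intro x hx
        rw [L3Two_sw_sum hr2 hT (Finset.mem_filter.1 hx).2 hl, ha, mul_one]
    · have hz : ∀ e1 : ZMod r, ∑ x with L3Two_Two g e1 i0 T x, im (∑ i ∈ T, x.2 i) = 0 := by
        intro e1
        refine L3Two_cancel _ _ (L3Two_mv g i0 T) ?_ ?_ ?_
        · intro x hx
          exact Finset.mem_filter.2 ⟨Finset.mem_univ _,
            L3Two_mv_mem hT (Finset.mem_filter.1 hx).2⟩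
        · intro x hx y hy hxy
          exact L3Two_mv_inj (Finset.mem_filter.1 hx).2 (Finset.mem_filter.1 hy).2 hxy
        · intro x hx
          rw [L3Two_mv_sum hT (Finset.mem_filter.1 hx).2, im_add hr, im_two_mul hr, ha]
          ring
      rw [hz, ← Finset.sum_mul, hz, zero_mul]
  · have hz : ∀ e1 : ZMod r, ∑ x with L3Two_Two g e1 i0 T x, im (∑ i ∈ T, x.2 i) = 0 := by
      intro e1
      refine L3Two_cancel _ _ (shiftS T 1) ?_ ?_ ?_
      · intro x hx
        exact Finset.mem_filter.2 ⟨Finset.mem_univ _,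
          L3Two_shift hT (Finset.mem_filter.1 hx).2 1⟩
      · intro x hx y hy hxy
        have ha : ∀ i, (shiftS T 1 x).1 i = (shiftS T 1 y).1 i := fun i => by rw [hxy]
        have hb : ∀ i, (shiftS T 1 x).2 i = (shiftS T 1 y).2 i := fun i => by rw [hxy]
        refine Prod.ext (funext ha) (funext fun i => ?_)
        have := hb i
        simp only [shiftS] at this
        by_cases hi : i ∈ T
        · simpa [hi] using this
        · simpa [hi] using this
      · intro x hx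
        rw [L3Two_shift_sum, L3Two_card hT (Finset.mem_filter.1 hx).2, im_add hr, mul_one,
          L3Two_im_odd hr hl]
        ring
    rw [hz, ← Finset.sum_mul, hz, zero_mul]

end GIM119
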