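import Pool.Agent.Lib.MP_119ee3_al.Basic
import Pool.Agent.Lib.MP_119ee3_al.Chars
import Pool.Agent.Lib.MP_119ee3_al.Cyc
import Pool.Agent.Lib.MP_119ee3_al.Shift
import Pool.Agent.Lib.MP_119ee3_al.OneCycle
import Pool.Agent.Lib.MP_119ee3_al.Orient

set_option autoImplicit false

/-!
# MP_119ee3_al: Identity F4a.
-/

open Classical

noncomputable section

namespace GIM119

open MG

variable {r n : ℕ} [NeZero r]

/-- connected structures -/
def L4a_C (g : MG r n) (i0 : Fin n) (T : Finset (Fin n)) (x : Str r n) : Prop :=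
  IsStr g 0 0 (hf r) T x ∧ T = cyc g i0 ∪ cyc g (x.1 i0)

/-- number of two-element blocks -/
def L4a_N (T : Finset (Fin n)) (x : Str r n) : ℕ := (T.filter fun i => i < x.1 i).card

theorem L4a_Stb {g : MG r n} {i0 : Fin n} {T : Finset (Fin n)} {x : Str r n}
    (hx : L4a_C g i0 T x) : Stb g T := by
  intro i
  rw [hx.2, Finset.mem_union, Finset.mem_union, cyc_Stb g i0 i, cyc_Stb g (x.1 i0) i]

theorem L4a_neg (g : MG r n) (T : Finset (Fin n)) (x : Str r n) :
    wt (phiM (-Complex.I) g) T x = (-1) ^ L4a_N T x * wt (phiM Complex.I g) T x := by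
  have h1 : ((-1 : ℂ)) ^ L4a_N T x = ∏ i ∈ T, (if i < x.1 i then (-1 : ℂ) else 1) := by
    rw [Finset.prod_ite, Finset.prod_const, Finset.prod_const_one, mul_one]
    rfl
  rw [h1]
  unfold wt phiM
  rw [← Finset.prod_mul_distrib]
  refine Finset.prod_congr rfl fun i _ => ?_
  unfold phiT
  by_cases h : i < x.1 i
  · rw [if_pos h, if_pos h, if_pos h, neg_mul, inv_neg]
    ring
  · rw [if_neg h, if_neg h, if_neg h]
    ring

theorem L4a_shift (hr2 : 2 ∣ r) {κ : ℂ} (g : MG r n) (T : Finset (Fin n)) (x : Str r n)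
    (hne : ∀ i ∈ T, x.1 i ∈ T ∧ x.1 i ≠ i) :
    wt (phiM κ g) T (shiftS T 1 x) = (-1) ^ L4a_N T x * wt (phiM κ g) T x := by
  have h1 : ((-1 : ℂ)) ^ L4a_N T x = ∏ i ∈ T, (if i < x.1 i then (-1 : ℂ) else 1) := by
    rw [Finset.prod_ite, Finset.prod_const, Finset.prod_const_one, mul_one]
    rfl
  rw [h1]
  unfold wt phiM
  rw [← Finset.prod_mul_distrib]
  refine Finset.prod_congr rfl fun i hi => ?_
  have e1 : (shiftS T 1 x).1 i = x.1 i := rfl
  have e2 : (shiftS T 1 x).2 i = x.2 i + 1 := by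
    simp only [shiftS, if_pos hi]
  rw [e1, e2]
  unfold phiT phi1
  rw [if_neg (hne i hi).2, if_neg (hne i hi).2]
  by_cases h : i < x.1 i
  · rw [if_pos h, if_pos h, if_pos h, sg_add hr2, sg_one hr2, mul_neg_one, mul_neg, inv_neg]
    ring
  · rw [if_neg h, if_neg h, if_neg h]
    ring

theorem L4a_card {g : MG r n} {i0 : Fin n} {T : Finset (Fin n)} {x : Str r n}
    (hx : L4a_C g i0 T x) (hne : ∀ i ∈ T, x.1 i ≠ i) : T.card = 2 * L4a_N T x := by
  have h1 : ∀ i ∈ T, x.1 i ∈ T ∧ x.1 (x.1 i) = i := by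
    intro i hi
    have h := hx.1.2 i hi
    exact ⟨h.1, by simpa using h.2.1⟩
  have h2 : (T.filter fun i => ¬ i < x.1 i).card = L4a_N T x := by
    unfold L4a_N
    refine Finset.card_bij (fun i _ => x.1 i) ?_ ?_ ?_
    · intro i hi
      rw [Finset.mem_filter] at hi ⊢
      refine ⟨(h1 i hi.1).1, ?_⟩
      rw [(h1 i hi.1).2]
      exact lt_of_le_of_ne (not_lt.1 hi.2) (hne i hi.1)
    · intro i hi j hj hij
      rw [Finset.mem_filter] at hi hj
      rw [← (h1 i hi.1).2, hij, (h1 j hj.1).2]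
    · intro j hj
      rw [Finset.mem_filter] at hj
      refine ⟨x.1 j, ?_, (h1 j hj.1).2⟩
      rw [Finset.mem_filter]
      refine ⟨(h1 j hj.1).1, ?_⟩
      rw [(h1 j hj.1).2]
      exact not_lt.2 hj.2.le
  have h3 := Finset.card_filter_add_card_filter_not (s := T) (fun i => i < x.1 i)
  rw [h2] at h3
  have h4 : (T.filter fun i => i < x.1 i).card = L4a_N T x := rfl
  omega

theorem L4a_fix {g : MG r n} {i0 : Fin n} {T : Finset (Fin n)} {x : Str r n}
    (hx : L4a_C g i0 T x) {j : Fin n} (hj : j ∈ T) (hjx : x.1 j = j) : L4a_N T x = 0 := by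
  have hS := L4a_Stb hx
  have hi0 : i0 ∈ T := by
    rw [hx.2]
    exact Finset.mem_union_left _ (self_mem_cyc g i0)
  have h1 : ∀ i ∈ T, x.1 i ∈ T ∧ x.1 (x.1 i) = i := by
    intro i hi
    have h := hx.1.2 i hi
    exact ⟨h.1, by simpa using h.2.1⟩
  have h0 : x.1 i0 = i0 := by
    have hj' := hj
    rw [hx.2, Finset.mem_union] at hj'
    rcases hj' with h | h
    · rw [cyc_eq_image, Finset.mem_image] at h
      obtain ⟨l, -, rfl⟩ := h
      rw [hx.1.pow hS hi0 l] at hjx
      exact (g.perm ^ l).injective hjx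
    · rw [cyc_eq_image, Finset.mem_image] at h
      obtain ⟨l, -, rfl⟩ := h
      rw [hx.1.pow hS (h1 i0 hi0).1 l, (h1 i0 hi0).2] at hjx
      exact ((g.perm ^ l).injective hjx).symm
  have hT : T = cyc g i0 := by
    rw [hx.2, h0, Finset.union_idempotent]
  unfold L4a_N
  rw [Finset.card_eq_zero, Finset.filter_eq_empty_iff]
  intro i hi
  have hi' : i ∈ cyc g i0 := by rwa [← hT]
  rw [cyc_eq_image, Finset.mem_image] at hi'
  obtain ⟨l, -, rfl⟩ := hi'
  rw [hx.1.pow hS hi0 l, h0]
  exact lt_irrefl _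

/-- general principle: an injective self map of the index set which changes the sign -/
theorem L4a_cancel {α : Type*} (A : Finset α) (f : α → ℂ) (F : α → α)
    (hF : ∀ x ∈ A, F x ∈ A) (hinj : ∀ x ∈ A, ∀ y ∈ A, F x = F y → x = y)
    (hf : ∀ x ∈ A, f (F x) = -f x) : ∑ x ∈ A, f x = 0 := by
  have himg : A.image F = A := by
    refine Finset.eq_of_subset_of_card_le ?_ ?_
    · intro y hy
      rw [Finset.mem_image] at hy
      obtain ⟨x, hx, rfl⟩ := hy
      exact hF x hx
    · rw [Finset.card_image_of_injOn]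
      intro x hx y hy hxy
      exact hinj x hx y hy hxy
  have h1 : ∑ x ∈ A, f x = ∑ x ∈ A, f (F x) := by
    conv_lhs => rw [← himg]
    rw [Finset.sum_image]
    intro x hx y hy hxy
    exact hinj x hx y hy hxy
  rw [Finset.sum_congr rfl hf, Finset.sum_neg_distrib] at h1
  exact self_eq_neg.1 h1

theorem L4a (hr : r % 4 = 2) (g : MG r n) (i0 : Fin n) (T : Finset (Fin n)) :
    con g 0 0 (hf r) (phiM Complex.I g) i0 T = con g 0 0 (hf r) (phiM (-Complex.I) g) i0 T := by
  have hr2 : 2 ∣ r := by omega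
  set A : Finset (Str r n) := Finset.univ.filter (fun x => L4a_C g i0 T x) with hA
  have e : ∀ φ : Wt r n, con g 0 0 (hf r) φ i0 T = ∑ x ∈ A, wt φ T x := by
    intro φ
    unfold con
    rw [hA, Finset.sum_filter, Finset.sum_filter]
    refine Finset.sum_congr rfl fun x _ => ?_
    by_cases hx : L4a_C g i0 T x
    · rw [if_pos (show IsStr g 0 0 (hf r) T x ∧ T = cyc g i0 ∪ cyc g (x.1 i0) from hx),
        if_pos hx]
    · rw [if_neg (show ¬ (IsStr g 0 0 (hf r) T x ∧ T = cyc g i0 ∪ cyc g (x.1 i0)) from hx),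
        if_neg hx]
  rw [e, e, ← Finset.sum_filter_add_sum_filter_not A (fun x => ∀ i ∈ T, x.1 i ≠ i),
    ← Finset.sum_filter_add_sum_filter_not A (fun x => ∀ i ∈ T, x.1 i ≠ i)]
  congr 1
  · rcases Nat.even_or_odd (T.card / 2) with hl | hl
    · refine Finset.sum_congr rfl fun x hx => ?_
      rw [Finset.mem_filter, hA, Finset.mem_filter] at hx
      have hc := L4a_card hx.1.2 hx.2
      have hN : Even (L4a_N T x) := by
        have : T.card / 2 = L4a_N T x := by omega
        rwa [this] at hl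
      rw [L4a_neg, hN.neg_one_pow, one_mul]
    · have hz : ∀ κ : ℂ, ∑ x ∈ A.filter (fun x => ∀ i ∈ T, x.1 i ≠ i),
          wt (phiM κ g) T x = 0 := by
        intro κ
        refine L4a_cancel _ _ (shiftS T 1) ?_ ?_ ?_
        · intro x hx
          rw [Finset.mem_filter, hA, Finset.mem_filter] at hx ⊢
          exact ⟨⟨Finset.mem_univ _, (isStr_shiftS (L4a_Stb hx.1.2)).2 hx.1.2.1, hx.1.2.2⟩, hx.2⟩
        · intro x hx y hy hxy
          have ha : ∀ i, (shiftS T 1 x).1 i = (shiftS T 1 y).1 i := fun i => by rw [hxy]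
          have hb : ∀ i, (shiftS T 1 x).2 i = (shiftS T 1 y).2 i := fun i => by rw [hxy]
          refine Prod.ext (funext ha) (funext fun i => ?_)
          have := hb i
          simp only [shiftS] at this
          by_cases hi : i ∈ T
          · simpa [hi] using this
          · simpa [hi] using this
        · intro x hx
          rw [Finset.mem_filter, hA, Finset.mem_filter] at hx
          have hc := L4a_card hx.1.2 hx.2
          have hN : Odd (L4a_N T x) := by
            have : T.card / 2 = L4a_N T x := by omega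
            rwa [this] at hl
          rw [L4a_shift hr2 g T x (fun i hi => ⟨(hx.1.2.1.2 i hi).1, hx.2 i hi⟩),
            hN.neg_one_pow]
          ring
      rw [hz, hz]
  · refine Finset.sum_congr rfl fun x hx => ?_
    rw [Finset.mem_filter, hA, Finset.mem_filter] at hx
    have h1 := hx.2
    push Not at h1
    obtain ⟨j, hj, hjx⟩ := h1
    rw [L4a_neg, L4a_fix hx.1.2 hj hjx, pow_zero, one_mul]

end GIM119
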