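import Pool.Agent.Lib.MP_119ee3_al.Basic
import Pool.Agent.Lib.MP_119ee3_al.Chars
import Pool.Agent.Lib.MP_119ee3_al.Cyc
import Pool.Agent.Lib.MP_119ee3_al.Orient

set_option autoImplicit false

/-!
# MP_119ee3_al: Evaluation of the weight for r = 2 mod 4.
-/

open Classical

noncomputable section

namespace GIM119

open MG

variable {r n : ℕ} [NeZero r]

/-- The product over a transversal of a block function does not change under `g.perm`. -/
theorem EvalW4_shift {g : MG r n} {T R : Finset (Fin n)} {s : Fin n → Fin n} {u : Fin n → ℂ}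
    (hT : Stb g T) (hs : ∀ i ∈ T, s i ∈ T ∧ s (s i) = i ∧ s i ≠ i)
    (hsp : ∀ i ∈ T, s (g.perm i) = g.perm (s i)) (hu : ∀ i ∈ T, u (s i) = u i)
    (hR : R ⊆ T) (hRT : ∀ i ∈ T, (i ∈ R ↔ s i ∉ R)) :
    ∏ i ∈ R, u (g.perm i) = ∏ i ∈ R, u i := by
  have h1 : ∏ i ∈ R.image g.perm, u i = ∏ i ∈ R, u (g.perm i) :=
    Finset.prod_image fun a _ b _ h => g.perm.injective h
  have hmem : ∀ j, g.perm j ∈ R.image g.perm ↔ j ∈ R := by
    intro j
    constructor
    · intro h
      obtain ⟨a, ha, hab⟩ := Finset.mem_image.1 h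
      rw [← g.perm.injective hab]
      exact ha
    · intro h
      exact Finset.mem_image_of_mem _ h
  have h2 : R.image g.perm ⊆ T := by
    intro i hi
    obtain ⟨a, ha, rfl⟩ := Finset.mem_image.1 hi
    exact (hT a).2 (hR ha)
  have h3 : ∀ i ∈ T, (i ∈ R.image g.perm ↔ s i ∉ R.image g.perm) := by
    intro i hi
    obtain ⟨j, rfl⟩ := g.perm.surjective i
    have hj : j ∈ T := (hT j).1 hi
    rw [hsp j hj, hmem, hmem]
    exact hRT j hj
  rw [← h1, ← prod_orient hs hu h2 h3, prod_orient hs hu hR hRT]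

theorem wt_phi4 (hr : r % 4 = 2) {g : MG r n}
    {T R : Finset (Fin n)} {x : Str r n} (hT : Stb g T)
    (hx : IsStr g 0 (hf r) (hf r) T x) (hR : R ⊆ T)
    (hRT : ∀ i ∈ T, (i ∈ R ↔ x.1 i ∉ R)) (c : Fin n → ℂ)
    (hc : ∀ i ∈ T, c i ≠ 0 ∧ c (x.1 i) = -Complex.I * sg (x.2 i) * c i) :
    wt (fun i j b c => phi2 (-Complex.I) g i j b c * (phiT Complex.I i j b c)⁻¹) T x
      = ∏ i ∈ R, sg (g.col i) * c (g.perm i) * (c i)⁻¹ *
          (Complex.I * sg (x.2 (g.perm i)))⁻¹ := by
  have hr2 : 2 ∣ r := by omega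
  have hsgh : sg (hf r) = -1 := by
    rw [sg_hf hr2, Odd.neg_one_pow (Nat.odd_iff.2 (by omega))]
  obtain ⟨s, b⟩ := x
  simp only at hx hRT hc ⊢
  have hI : Complex.I ≠ 0 := Complex.I_ne_zero
  have hI2 : Complex.I * Complex.I = -1 := Complex.I_mul_I
  have hsg0 : ∀ y : ZMod r, sg y ≠ 0 := by
    intro y
    rcases sg_cases y with h | h <;> rw [h] <;> norm_num
  -- data of the structure
  have hs : ∀ i ∈ T, s i ∈ T ∧ s (s i) = i ∧ s i ≠ i := by
    intro i hi
    obtain ⟨h1, h2, -, -, -⟩ := hx.2 i hi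
    simp only [pow_zero, Equiv.Perm.coe_one, id_eq] at h2
    refine ⟨h1, h2, fun h => ?_⟩
    have h3 := hRT i hi
    rw [h] at h3
    by_cases h4 : i ∈ R
    · exact (h3.1 h4) h4
    · exact h4 (h3.2 h4)
  have hsp : ∀ i ∈ T, s (g.perm i) = g.perm (s i) := fun i hi => (hx.2 i hi).2.2.1
  have hbs : ∀ i ∈ T, sg (b (s i)) = - sg (b i) := by
    intro i hi
    have h := (hx.2 i hi).2.2.2.1
    simp only [Nat.cast_zero, zero_mul, add_zero] at h
    rw [h, sg_add hr2, hsgh]
    ring
  have hbp : ∀ i ∈ T, b (g.perm i) = b i + g.col i + g.col (s i) + hf r :=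
    fun i hi => (hx.2 i hi).2.2.2.2
  have hsbp : ∀ i ∈ T, sg (b (g.perm i)) = - (sg (b i) * sg (g.col i) * sg (g.col (s i))) := by
    intro i hi
    rw [hbp i hi, sg_add hr2, sg_add hr2, sg_add hr2, hsgh]
    ring
  -- the standard solution
  set c0 : Fin n → ℂ := fun i => if i < s i then 1 else -Complex.I * sg (b (s i)) with hc0
  have hc0ne : ∀ i, c0 i ≠ 0 := by
    intro i
    simp only [hc0]
    split_ifs
    · exact one_ne_zero
    · exact mul_ne_zero (neg_ne_zero.2 hI) (hsg0 _)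
  have hc0s : ∀ i ∈ T, c0 (s i) = -Complex.I * sg (b i) * c0 i := by
    intro i hi
    obtain ⟨h1, h2, h3⟩ := hs i hi
    simp only [hc0, h2]
    rcases lt_trichotomy i (s i) with h | h | h
    · rw [if_neg (not_lt.mpr h.le), if_pos h, mul_one]
    · exact absurd h.symm h3
    · rw [if_pos h, if_neg (not_lt.mpr h.le), hbs i hi]
      have h4 := sg_mul_self (b i)
      linear_combination (sg (b i) * sg (b i)) * hI2 - h4
  -- the block functions
  set u : Fin n → ℂ := fun i => sg (g.col i) * c0 (g.perm i) * (c0 i)⁻¹ *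
      (Complex.I * sg (b (g.perm i)))⁻¹ with hu
  have hus : ∀ i ∈ T, u (s i) = u i := by
    intro i hi
    obtain ⟨h1, h2, h3⟩ := hs i hi
    have hpi : g.perm i ∈ T := (hT i).2 hi
    simp only [hu]
    rw [← hsp i hi, hc0s _ hpi, hc0s i hi, hbs _ hpi]
    have e1 := hsbp i hi
    have e2 := sg_mul_self (g.col i)
    have e3 := sg_mul_self (g.col (s i))
    have e4 := sg_mul_self (b i)
    have n1 := hsg0 (b i)
    have n2 := hsg0 (b (g.perm i))
    have n3 := hc0ne i
    field_simp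
    rw [e1]
    linear_combination (sg (b i) * sg (g.col i) * c0 (g.perm i)) * e3
  set v : Fin n → ℂ := fun i => sg (g.col i) *
      (if g.perm i < g.perm (s i) then 1 else
        -Complex.I * sg (b (s i) + g.col (s i) + g.col i)) with hv
  set t : Fin n → ℂ := fun i => if i < s i then (Complex.I * sg (b i))⁻¹ else
      (Complex.I * sg (b (s i)))⁻¹ with ht
  have hts : ∀ i ∈ T, t (s i) = t i := by
    intro i hi
    obtain ⟨h1, h2, h3⟩ := hs i hi
    simp only [ht, h2]
    rcases lt_trichotomy i (s i) with h | h | h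
    · rw [if_neg (not_lt.mpr h.le), if_pos h]
    · exact absurd h.symm h3
    · rw [if_pos h, if_neg (not_lt.mpr h.le)]
  -- the standard transversal
  set R0 : Finset (Fin n) := T.filter (fun i => i < s i) with hR0
  have hR0T : R0 ⊆ T := Finset.filter_subset _ _
  have hR0s : ∀ i ∈ T, (i ∈ R0 ↔ s i ∉ R0) := by
    intro i hi
    obtain ⟨h1, h2, h3⟩ := hs i hi
    simp only [hR0, Finset.mem_filter, hi, h1, h2, true_and, not_lt]
    constructor
    · intro h
      exact h.le
    · intro h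
      exact lt_of_le_of_ne h h3.symm
  have hL : wt (fun i j b c => phi2 (-Complex.I) g i j b c * (phiT Complex.I i j b c)⁻¹) T (s, b)
      = ∏ i ∈ R0, u i := by
    have e1 : wt (fun i j b c => phi2 (-Complex.I) g i j b c * (phiT Complex.I i j b c)⁻¹) T (s, b)
        = ∏ i ∈ T, (if i < s i then v i * t i else 1) := by
      unfold wt
      refine Finset.prod_congr rfl fun i hi => ?_
      simp only [phi2, phiT, hv, ht]
      by_cases h : i < s i
      · simp only [if_pos h]
      · simp only [if_neg h, inv_one, mul_one]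
    rw [e1, ← Finset.prod_filter, Finset.prod_mul_distrib,
      ← EvalW4_shift hT hs hsp hts hR0T hR0s, ← Finset.prod_mul_distrib]
    refine Finset.prod_congr rfl fun i hi => ?_
    have hiT := hR0T hi
    have hlt : i < s i := (Finset.mem_filter.1 hi).2
    obtain ⟨h1, h2, h3⟩ := hs i hiT
    have hpi : g.perm i ∈ T := (hT i).2 hiT
    have hc1 : c0 i = 1 := by
      simp only [hc0]
      rw [if_pos hlt]
    simp only [hu]
    rw [hc1]
    simp only [hv, ht, hc0]
    rw [hsp i hiT]
    by_cases h : g.perm i < g.perm (s i)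
    · simp only [if_pos h, inv_one, mul_one]
    · simp only [if_neg h, inv_one, mul_one]
      have e2 : sg (b (g.perm (s i))) = - sg (b (g.perm i)) := by
        rw [← hsp i hiT, hbs _ hpi]
      have e3 : sg (b (s i) + g.col (s i) + g.col i) = - sg (b (g.perm (s i))) := by
        rw [hbp _ h1, h2, sg_add hr2 _ (hf r), hsgh]
        ring
      rw [e3, e2]
      have n2 := hsg0 (b (g.perm i))
      field_simp
  have hR1 : ∏ i ∈ R0, u i = ∏ i ∈ R, u i := by
    rw [← prod_orient hs hus hR0T hR0s, prod_orient hs hus hR hRT]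
  rw [hL, hR1]
  -- change of the solution
  set ρ : Fin n → ℂ := fun i => c i * (c0 i)⁻¹ with hρ
  have hρs : ∀ i ∈ T, ρ (s i) = ρ i := by
    intro i hi
    simp only [hρ]
    rw [(hc i hi).2, hc0s i hi]
    have n1 := hsg0 (b i)
    have n3 := hc0ne i
    field_simp
  have hρ1 : ∏ i ∈ R, (ρ (g.perm i) * (ρ i)⁻¹) = 1 := by
    rw [Finset.prod_mul_distrib, EvalW4_shift hT hs hsp hρs hR hRT, ← Finset.prod_mul_distrib]
    refine Finset.prod_eq_one fun i hi => ?_
    refine mul_inv_cancel₀ ?_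
    exact mul_ne_zero (hc i (hR hi)).1 (inv_ne_zero (hc0ne i))
  calc ∏ i ∈ R, u i = (∏ i ∈ R, u i) * ∏ i ∈ R, (ρ (g.perm i) * (ρ i)⁻¹) := by
        rw [hρ1, mul_one]
    _ = ∏ i ∈ R, (u i * (ρ (g.perm i) * (ρ i)⁻¹)) := Finset.prod_mul_distrib.symm
    _ = _ := by
        refine Finset.prod_congr rfl fun i hi => ?_
        simp only [hu, hρ]
        have n1 := hc0ne i
        have n2 := hc0ne (g.perm i)
        have n3 := (hc i (hR hi)).1
        have n4 := hsg0 (b (g.perm i))
        field_simp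

end GIM119
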