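import Pool.Agent.Lib.MP_119ee3_al.Basic
import Pool.Agent.Lib.MP_119ee3_al.Chars
import Pool.Agent.Lib.MP_119ee3_al.Cyc
import Pool.Agent.Lib.MP_119ee3_al.Shift
import Pool.Agent.Lib.MP_119ee3_al.OneCycle
import Pool.Agent.Lib.MP_119ee3_al.Orient
import Pool.Agent.Lib.MP_119ee3_al.EvalW4

set_option autoImplicit false

/-!
# MP_119ee3_al: Identity F4b, one cycle.
-/

open Classical

noncomputable section

namespace GIM119

open MG

variable {r n : ℕ} [NeZero r]

set_option linter.unusedSectionVars false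

theorem L4bOne_sg_hf (hr : r % 4 = 2) : sg (hf r) = -1 := by
  rw [sg_hf (by omega)]
  have h : Odd (r / 2) := by
    rw [Nat.odd_iff]
    omega
  exact h.neg_one_pow

theorem L4bOne_prod (g : MG r n) (i : Fin n) (f : Fin n → ℂ) :
    ∏ j ∈ cyc g i, f j = ∏ l ∈ Finset.range (cyc g i).card, f ((g.perm ^ l) i) := by
  conv_lhs => rw [cyc_eq_image g i]
  rw [Finset.prod_image]
  intro l hl m hm h
  exact pow_injOn_cyc g i (by simpa using hl) (by simpa using hm) h

theorem L4bOne_sum (g : MG r n) (i : Fin n) (f : Fin n → ZMod r) :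
    ∑ j ∈ cyc g i, f j = ∑ l ∈ Finset.range (cyc g i).card, f ((g.perm ^ l) i) := by
  conv_lhs => rw [cyc_eq_image g i]
  rw [Finset.sum_image]
  intro l hl m hm h
  exact pow_injOn_cyc g i (by simpa using hl) (by simpa using hm) h

theorem L4bOne_range (m : ℕ) (F : ℕ → ℂ) :
    ∏ l ∈ Finset.range (2 * m), F l = ∏ l ∈ Finset.range m, (F (2 * l) * F (2 * l + 1)) := by
  induction m with
  | zero => simp
  | succ m ih =>
    rw [show 2 * (m + 1) = 2 * m + 1 + 1 by ring, Finset.prod_range_succ,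
      Finset.prod_range_succ, ih, Finset.prod_range_succ]
    ring

theorem L4bOne_succ (g : MG r n) (i : Fin n) (k : ℕ) :
    (g.perm ^ (k + 1)) i = g.perm ((g.perm ^ k) i) := by
  rw [pow_succ', Equiv.Perm.mul_apply]

theorem L4bOne_add (g : MG r n) (i : Fin n) (k l : ℕ) :
    (g.perm ^ k) ((g.perm ^ l) i) = (g.perm ^ (k + l)) i := by
  rw [pow_add, Equiv.Perm.mul_apply]

theorem L4bOne_mod (g : MG r n) (i : Fin n) (k : ℕ) :
    (g.perm ^ k) i = (g.perm ^ (k % (cyc g i).card)) i := by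
  have h1 : (g.perm ^ (cyc g i).card) i = i := pow_card_cyc g (self_mem_cyc g i)
  conv_lhs => rw [← Nat.mod_add_div k (cyc g i).card, ← L4bOne_add, pow_mul]
  rw [Equiv.Perm.pow_apply_eq_self_of_apply_eq_self h1]

theorem L4bOne_walk {g : MG r n} {i0 : Fin n} {e1 e2 : ZMod r} {x : Str r n}
    (hx : IsStr g 0 e1 e2 (cyc g i0) x) (k : ℕ) {i : Fin n} (hi : i ∈ cyc g i0) :
    x.2 ((g.perm ^ k) i) = x.2 i + ∑ j ∈ Finset.range k,
      (g.col ((g.perm ^ j) i) + g.col (x.1 ((g.perm ^ j) i))) + k * e2 := by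
  induction k with
  | zero => simp
  | succ k ih =>
    have hk : (g.perm ^ k) i ∈ cyc g i0 := by
      rw [← cyc_eq_of_mem hi]
      exact pow_mem_cyc g i k
    rw [L4bOne_succ, (hx.2 _ hk).2.2.2.2, ih, Finset.sum_range_succ]
    push_cast
    ring

/-- the condition for structures with `s = 1` -/
theorem L4bOne_condD {g : MG r n} {i0 : Fin n} {e1 e2 : ZMod r} {x : Str r n}
    (hx : IsStr g 0 e1 e2 (cyc g i0) x) (hD : ∀ i ∈ cyc g i0, x.1 i = i) :
    2 * (∑ j ∈ cyc g i0, g.col j) + (cyc g i0).card * e2 = 0 := by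
  have h1 := L4bOne_walk hx (cyc g i0).card (self_mem_cyc g i0)
  rw [pow_card_cyc g (self_mem_cyc g i0)] at h1
  have h2 : ∑ j ∈ Finset.range (cyc g i0).card,
      (g.col ((g.perm ^ j) i0) + g.col (x.1 ((g.perm ^ j) i0))) =
      2 * (∑ j ∈ cyc g i0, g.col j) := by
    rw [L4bOne_sum, Finset.mul_sum]
    refine Finset.sum_congr rfl fun j _ => ?_
    rw [hD _ (pow_mem_cyc g i0 j)]
    ring
  rw [h2] at h1
  have h3 : x.2 i0 + (2 * (∑ j ∈ cyc g i0, g.col j) + (cyc g i0).card * e2) = x.2 i0 + 0 := by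
    rw [add_zero]
    conv_rhs => rw [h1]
    ring
  exact add_left_cancel h3

theorem L4bOne_half {g : MG r n} {i0 : Fin n} {m : ℕ} (hm : (cyc g i0).card = 2 * m)
    {i : Fin n} (hi : i ∈ cyc g i0) :
    ∑ j ∈ Finset.range m, (g.col ((g.perm ^ j) i) + g.col ((g.perm ^ m) ((g.perm ^ j) i))) =
      ∑ j ∈ cyc g i0, g.col j := by
  rw [← cyc_eq_of_mem hi, L4bOne_sum, cyc_eq_of_mem hi, hm, two_mul, Finset.sum_range_add,
    Finset.sum_add_distrib]
  congr 1
  refine Finset.sum_congr rfl fun j _ => ?_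
  rw [L4bOne_add]

/-- the condition for structures with `s = p ^ m` -/
theorem L4bOne_condH {g : MG r n} {i0 : Fin n} {m : ℕ} (hm : (cyc g i0).card = 2 * m)
    {e1 e2 : ZMod r} {x : Str r n} (hx : IsStr g 0 e1 e2 (cyc g i0) x)
    (hH : ∀ i ∈ cyc g i0, x.1 i = (g.perm ^ m) i) :
    e1 = (∑ j ∈ cyc g i0, g.col j) + m * e2 := by
  have h0 := self_mem_cyc g i0
  have h1 := L4bOne_walk hx m h0
  have h2 := (hx.2 _ h0).2.2.2.1
  rw [hH _ h0, h1] at h2
  have h3 : ∑ j ∈ Finset.range m,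
      (g.col ((g.perm ^ j) i0) + g.col (x.1 ((g.perm ^ j) i0))) =
      ∑ j ∈ cyc g i0, g.col j := by
    rw [← L4bOne_half hm h0]
    refine Finset.sum_congr rfl fun j _ => ?_
    rw [hH _ (pow_mem_cyc g i0 j)]
  rw [h3] at h2
  have h4 : x.2 i0 + e1 = x.2 i0 + ((∑ j ∈ cyc g i0, g.col j) + m * e2) := by
    rw [← add_assoc, h2]
    simp
  exact add_left_cancel h4

/-- weight of a structure with `s = 1` -/
theorem L4bOne_wtD (hr : r % 4 = 2) {g : MG r n} {i0 : Fin n} {m : ℕ}
    (hm : (cyc g i0).card = 2 * m) {x : Str r n} (hx : IsStr g 0 0 (hf r) (cyc g i0) x)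
    (hD : ∀ i ∈ cyc g i0, x.1 i = i) :
    wt (phiM Complex.I g) (cyc g i0) x = if sg (x.2 i0) = 1 then
      ∏ l ∈ Finset.range m, sg (g.col ((g.perm ^ (2 * l + 1)) i0)) else
      ∏ l ∈ Finset.range m, sg (g.col ((g.perm ^ (2 * l)) i0)) := by
  have h2 : 2 ∣ r := by omega
  have hpar : ∀ l : ℕ, sg (x.2 ((g.perm ^ l) i0)) = (-1) ^ l * sg (x.2 i0) := by
    intro l
    induction l with
    | zero => simp
    | succ l ih =>
      have hl := pow_mem_cyc g i0 l
      rw [L4bOne_succ, (hx.2 _ hl).2.2.2.2, hD _ hl, sg_add h2, sg_add h2, sg_add h2, ih,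
        L4bOne_sg_hf hr]
      have := sg_mul_self (g.col ((g.perm ^ l) i0))
      rw [pow_succ]
      linear_combination (-(-1) ^ l * sg (x.2 i0)) * this
  have h3 : wt (phiM Complex.I g) (cyc g i0) x =
      ∏ i ∈ cyc g i0, (if sg (x.2 i) = 1 then 1 else sg (g.col i)) := by
    refine Finset.prod_congr rfl fun i hi => ?_
    simp [phiM, phi1, phiT, hD i hi]
  rw [h3, L4bOne_prod, hm, L4bOne_range]
  rcases sg_cases (x.2 i0) with h4 | h4
  · rw [if_pos h4]
    refine Finset.prod_congr rfl fun l _ => ?_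
    rw [hpar, hpar, h4]
    have e1 : ((-1 : ℂ) ^ (2 * l) * 1) = 1 := by
      rw [pow_mul]
      simp
    have e2 : ((-1 : ℂ) ^ (2 * l + 1) * 1) = -1 := by
      rw [pow_succ, pow_mul]
      simp
    rw [e1, e2, if_pos rfl, if_neg (by norm_num), one_mul]
  · have h5 : ¬ sg (x.2 i0) = 1 := by
      rw [h4]
      norm_num
    rw [if_neg h5]
    refine Finset.prod_congr rfl fun l _ => ?_
    rw [hpar, hpar, h4]
    have e1 : ((-1 : ℂ) ^ (2 * l) * -1) = -1 := by
      rw [pow_mul]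
      simp
    have e2 : ((-1 : ℂ) ^ (2 * l + 1) * -1) = 1 := by
      rw [pow_succ, pow_mul]
      simp
    rw [e1, e2, if_pos rfl, if_neg (by norm_num), mul_one]

/-- first half of the cycle -/
def L4bOne_R (g : MG r n) (i0 : Fin n) (m : ℕ) : Finset (Fin n) :=
  (Finset.range m).image fun l => (g.perm ^ l) i0

/-- even points of the cycle -/
def L4bOne_E (g : MG r n) (i0 : Fin n) (m : ℕ) : Finset (Fin n) :=
  (Finset.range m).image fun l => (g.perm ^ (2 * l)) i0

theorem L4bOne_exists {g : MG r n} {i0 i : Fin n} (hi : i ∈ cyc g i0) :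
    ∃ l, l < (cyc g i0).card ∧ (g.perm ^ l) i0 = i := by
  rw [cyc_eq_image] at hi
  simpa using hi

theorem L4bOne_memR {g : MG r n} {i0 : Fin n} {m : ℕ} (hm : (cyc g i0).card = 2 * m)
    (k : ℕ) : (g.perm ^ k) i0 ∈ L4bOne_R g i0 m ↔ k % (2 * m) < m := by
  have hc : 0 < (cyc g i0).card := Finset.card_pos.mpr ⟨i0, self_mem_cyc g i0⟩
  unfold L4bOne_R
  rw [Finset.mem_image, L4bOne_mod g i0 k, hm]
  constructor
  · rintro ⟨l, hl, h⟩
    have hl' := Finset.mem_range.mp hl
    have := pow_injOn_cyc g i0 (l := l) (m := k % (2 * m)) (by omega)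
      (by rw [hm]; exact Nat.mod_lt _ (by omega)) h
    omega
  · intro h
    exact ⟨k % (2 * m), Finset.mem_range.mpr h, rfl⟩

theorem L4bOne_memE {g : MG r n} {i0 : Fin n} {m : ℕ} (hm : (cyc g i0).card = 2 * m)
    (k : ℕ) : (g.perm ^ k) i0 ∈ L4bOne_E g i0 m ↔ k % 2 = 0 := by
  have hc : 0 < (cyc g i0).card := Finset.card_pos.mpr ⟨i0, self_mem_cyc g i0⟩
  have hk : k % (2 * m) % 2 = k % 2 := Nat.mod_mul_right_mod k 2 m
  have hlt : k % (2 * m) < 2 * m := Nat.mod_lt _ (by omega)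
  unfold L4bOne_E
  rw [Finset.mem_image, L4bOne_mod g i0 k, hm]
  constructor
  · rintro ⟨l, hl, h⟩
    have hl' := Finset.mem_range.mp hl
    have := pow_injOn_cyc g i0 (l := 2 * l) (m := k % (2 * m)) (by omega)
      (by rw [hm]; exact hlt) h
    omega
  · intro h
    refine ⟨k % (2 * m) / 2, Finset.mem_range.mpr (by omega), ?_⟩
    congr 2
    omega

theorem L4bOne_R_sub (g : MG r n) (i0 : Fin n) (m : ℕ) : L4bOne_R g i0 m ⊆ cyc g i0 := by
  intro i hi
  obtain ⟨l, _, rfl⟩ := Finset.mem_image.mp hi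
  exact pow_mem_cyc g i0 l

theorem L4bOne_E_sub (g : MG r n) (i0 : Fin n) (m : ℕ) : L4bOne_E g i0 m ⊆ cyc g i0 := by
  intro i hi
  obtain ⟨l, _, rfl⟩ := Finset.mem_image.mp hi
  exact pow_mem_cyc g i0 (2 * l)

theorem L4bOne_R_iff {g : MG r n} {i0 : Fin n} {m : ℕ} (hm : (cyc g i0).card = 2 * m)
    {i : Fin n} (hi : i ∈ cyc g i0) :
    i ∈ L4bOne_R g i0 m ↔ (g.perm ^ m) i ∉ L4bOne_R g i0 m := by
  obtain ⟨l, hl, rfl⟩ := L4bOne_exists hi
  rw [L4bOne_add, L4bOne_memR hm, L4bOne_memR hm]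
  rw [hm] at hl
  rw [Nat.mod_eq_of_lt hl]
  rcases lt_or_ge l m with h | h
  · rw [Nat.mod_eq_of_lt (by omega : m + l < 2 * m)]
    omega
  · have : (m + l) % (2 * m) = l - m := by
      rw [Nat.mod_eq_sub_mod (by omega), Nat.mod_eq_of_lt (by omega)]
      omega
    rw [this]
    omega

theorem L4bOne_E_iff {g : MG r n} {i0 : Fin n} {m : ℕ} (hm : (cyc g i0).card = 2 * m)
    (hodd : m % 2 = 1) {i : Fin n} (hi : i ∈ cyc g i0) :
    i ∈ L4bOne_E g i0 m ↔ (g.perm ^ m) i ∉ L4bOne_E g i0 m := by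
  obtain ⟨l, hl, rfl⟩ := L4bOne_exists hi
  rw [L4bOne_add, L4bOne_memE hm, L4bOne_memE hm]
  omega

theorem L4bOne_prodR {g : MG r n} {i0 : Fin n} {m : ℕ} (hm : (cyc g i0).card = 2 * m)
    (f : Fin n → ℂ) :
    ∏ i ∈ L4bOne_R g i0 m, f i = ∏ l ∈ Finset.range m, f ((g.perm ^ l) i0) := by
  unfold L4bOne_R
  rw [Finset.prod_image]
  intro l hl k hk h
  have hl' : l < m := by simpa using hl
  have hk' : k < m := by simpa using hk
  exact pow_injOn_cyc g i0 (by omega) (by omega) h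

theorem L4bOne_prodE {g : MG r n} {i0 : Fin n} {m : ℕ} (hm : (cyc g i0).card = 2 * m)
    (f : Fin n → ℂ) :
    ∏ i ∈ L4bOne_E g i0 m, f i = ∏ l ∈ Finset.range m, f ((g.perm ^ (2 * l)) i0) := by
  unfold L4bOne_E
  rw [Finset.prod_image]
  intro l hl k hk h
  have hl' : l < m := by simpa using hl
  have hk' : k < m := by simpa using hk
  have := pow_injOn_cyc g i0 (by omega) (by omega) h
  omega

/-- facts on the involution `p ^ m` -/
theorem L4bOne_inv {g : MG r n} {i0 : Fin n} {m : ℕ} (hm0 : 0 < m)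
    (hm : (cyc g i0).card = 2 * m) {e1 e2 : ZMod r} {x : Str r n}
    (hx : IsStr g 0 e1 e2 (cyc g i0) x) (hH : ∀ i ∈ cyc g i0, x.1 i = (g.perm ^ m) i) :
    ∀ i ∈ cyc g i0, x.1 i ∈ cyc g i0 ∧ x.1 (x.1 i) = i ∧ x.1 i ≠ i := by
  intro i hi
  refine ⟨(hx.2 i hi).1, by simpa using (hx.2 i hi).2.1, ?_⟩
  intro h
  rw [hH i hi, pow_eq_self_iff g hi, hm] at h
  have := Nat.le_of_dvd hm0 h
  omega

/-- weight of a symmetric structure with `s = p ^ m` -/
theorem L4bOne_wtH {g : MG r n} {i0 : Fin n} {m : ℕ} (hm0 : 0 < m)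
    (hm : (cyc g i0).card = 2 * m) {x : Str r n} (hx : IsStr g 0 0 (hf r) (cyc g i0) x)
    (hH : ∀ i ∈ cyc g i0, x.1 i = (g.perm ^ m) i) :
    wt (phiM Complex.I g) (cyc g i0) x =
      - ∏ l ∈ Finset.range m, (Complex.I * sg (x.2 ((g.perm ^ l) i0)))⁻¹ := by
  have hinv := L4bOne_inv hm0 hm hx hH
  have h1 := flip_one hm0 hm hH
  have h2 := prod_orient (T := cyc g i0) (R := L4bOne_R g i0 m) (s := x.1)
    (u := fun i => (Complex.I * sg (x.2 i))⁻¹) hinv
    (fun i hi => by
      have := (hx.2 i hi).2.2.2.1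
      simp only [Nat.cast_zero, zero_mul, add_zero] at this
      simp only [this])
    (L4bOne_R_sub g i0 m)
    (fun i hi => by rw [hH i hi]; exact L4bOne_R_iff hm hi)
  rw [L4bOne_prodR hm] at h2
  rw [← h2, ← neg_one_mul, ← h1, ← Finset.prod_mul_distrib]
  refine Finset.prod_congr rfl fun i hi => ?_
  simp only [phiM, phi1, phiT]
  rw [if_neg (hinv i hi).2.2]
  congr 1
  split_ifs
  · rfl
  · simp

/-- weight of an antisymmetric structure with `s = p ^ m`, `m` odd -/
theorem L4bOne_wtHa (hr : r % 4 = 2) {g : MG r n} {i0 : Fin n} {m : ℕ}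
    (hm : (cyc g i0).card = 2 * m) (hodd : m % 2 = 1) {x : Str r n}
    (hx : IsStr g 0 (hf r) (hf r) (cyc g i0) x)
    (hH : ∀ i ∈ cyc g i0, x.1 i = (g.perm ^ m) i) :
    wt (phiN (-Complex.I) Complex.I g) (cyc g i0) x =
      ∏ l ∈ Finset.range m, sg (g.col ((g.perm ^ (2 * l)) i0)) := by
  have h2 : 2 ∣ r := by omega
  set c : Fin n → ℂ := fun i => if i ∈ L4bOne_E g i0 m then 1 else Complex.I * sg (x.2 i) with hc
  have hsgs : ∀ i ∈ cyc g i0, sg (x.2 (x.1 i)) = - sg (x.2 i) := by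
    intro i hi
    have := (hx.2 i hi).2.2.2.1
    simp only [Nat.cast_zero, zero_mul, add_zero] at this
    rw [this, sg_add h2, L4bOne_sg_hf hr]
    ring
  have hiff : ∀ i ∈ cyc g i0, (i ∈ L4bOne_E g i0 m ↔ x.1 i ∉ L4bOne_E g i0 m) := by
    intro i hi
    rw [hH i hi]
    exact L4bOne_E_iff hm hodd hi
  have hne : ∀ y : ZMod r, sg y ≠ 0 := by
    intro y
    rcases sg_cases y with h | h <;> rw [h] <;> norm_num
  have h3 := wt_phi4 hr (cyc_Stb g i0) hx (L4bOne_E_sub g i0 m) hiff c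
    (by
      intro i hi
      by_cases hiE : i ∈ L4bOne_E g i0 m
      · have hsE := (hiff i hi).mp hiE
        simp only [hc, if_pos hiE, if_neg hsE]
        refine ⟨one_ne_zero, ?_⟩
        rw [hsgs i hi]
        ring
      · have hsE : x.1 i ∈ L4bOne_E g i0 m := by
          by_contra hcon
          exact hiE ((hiff i hi).mpr hcon)
        simp only [hc, if_neg hiE, if_pos hsE]
        refine ⟨mul_ne_zero Complex.I_ne_zero (hne _), ?_⟩
        have e1 := sg_mul_self (x.2 i)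
        have e2 := Complex.I_mul_I
        linear_combination (Complex.I * Complex.I) * e1 + e2)
  refine h3.trans ?_
  rw [L4bOne_prodE hm]
  refine Finset.prod_congr rfl fun l hl => ?_
  have e1 : (g.perm ^ (2 * l)) i0 ∈ L4bOne_E g i0 m := (L4bOne_memE hm _).mpr (by omega)
  have e2 : g.perm ((g.perm ^ (2 * l)) i0) ∉ L4bOne_E g i0 m := by
    rw [← L4bOne_succ, L4bOne_memE hm]
    omega
  simp only [hc, if_pos e1, if_neg e2, inv_one, mul_one]
  rw [mul_assoc, mul_inv_cancel₀ (mul_ne_zero Complex.I_ne_zero (hne _)), mul_one]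

/-- weight of a symmetric structure with `s = p ^ m`, `m` even -/
theorem L4bOne_wtH_even (hr : r % 4 = 2) {g : MG r n} {i0 : Fin n} {m t : ℕ} (hm0 : 0 < m)
    (hm : (cyc g i0).card = 2 * m) (ht : m = 2 * t) {x : Str r n}
    (hx : IsStr g 0 0 (hf r) (cyc g i0) x)
    (hH : ∀ i ∈ cyc g i0, x.1 i = (g.perm ^ m) i) :
    wt (phiM Complex.I g) (cyc g i0) x =
      - ∏ l ∈ Finset.range m, sg (g.col ((g.perm ^ (2 * l)) i0)) := by
  have h2 : 2 ∣ r := by omega
  rw [L4bOne_wtH hm0 hm hx hH]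
  congr 1
  conv_lhs => rw [ht, L4bOne_range]
  conv_rhs => rw [ht, two_mul, Finset.prod_range_add, ← Finset.prod_mul_distrib]
  refine Finset.prod_congr rfl fun l _ => ?_
  have hl := pow_mem_cyc g i0 (2 * l)
  have e1 : sg (x.2 ((g.perm ^ (2 * l + 1)) i0)) = - (sg (x.2 ((g.perm ^ (2 * l)) i0)) *
      sg (g.col ((g.perm ^ (2 * l)) i0)) * sg (g.col ((g.perm ^ (2 * (t + l))) i0))) := by
    rw [L4bOne_succ, (hx.2 _ hl).2.2.2.2, hH _ hl, L4bOne_add, sg_add h2, sg_add h2, sg_add h2,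
      L4bOne_sg_hf hr, show m + 2 * l = 2 * (t + l) by omega]
    ring
  rw [e1]
  set A := sg (x.2 ((g.perm ^ (2 * l)) i0))
  set B := sg (g.col ((g.perm ^ (2 * l)) i0))
  set C := sg (g.col ((g.perm ^ (2 * (t + l))) i0))
  have hA : A * A = 1 := sg_mul_self _
  have hB : B * B = 1 := sg_mul_self _
  have hC : C * C = 1 := sg_mul_self _
  rw [← mul_inv]
  have e2 : Complex.I * A * (Complex.I * -(A * B * C)) = B * C := by
    linear_combination (-(A * A * B * C)) * Complex.I_mul_I + (B * C) * hA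
  rw [e2]
  refine inv_eq_of_mul_eq_one_left ?_
  linear_combination (C * C) * hB + hC

/-- the shift by one -/
theorem L4bOne_shift {T : Finset (Fin n)} {x : Str r n} {i : Fin n} (hi : i ∈ T) :
    (shiftS T 1 x).2 i = x.2 i + 1 := by
  simp [shiftS, hi]

theorem L4bOne_sg_one (hr : r % 4 = 2) (y : ZMod r) : sg (y + 1) = - sg y := by
  rw [sg_add (by omega), sg_one (by omega)]
  ring

/-- structures with `s = 1` -/
def L4bOne_PD (g : MG r n) (i0 : Fin n) (s : Fin n → Fin n) : Prop := ∀ i ∈ cyc g i0, s i = i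

/-- structures with `s = p ^ m` -/
def L4bOne_PH (g : MG r n) (i0 : Fin n) (m : ℕ) (s : Fin n → Fin n) : Prop :=
  ∀ i ∈ cyc g i0, s i = (g.perm ^ m) i

/-- sum of the weights with `s = 1` for `a(c) = r / 2` -/
theorem L4bOne_sumD (hr : r % 4 = 2) {g : MG r n} {i0 : Fin n} {m : ℕ}
    (hm : (cyc g i0).card = 2 * m) (hac : ∑ j ∈ cyc g i0, g.col j = hf r) :
    ∑ x with (IsStr g 0 0 (hf r) (cyc g i0) x ∧ L4bOne_PD g i0 x.1),
      wt (phiM Complex.I g) (cyc g i0) x = 0 := by
  have h2 : 2 ∣ r := by omega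
  refine sum_eq_zero_of_shift (c := 1) (cyc_Stb g i0) (phiM Complex.I g)
    (fun s => L4bOne_PD g i0 s) (ξ := -1) (by norm_num) ?_
  intro x hx hD
  have hx' := (isStr_shiftS (c := 1) (cyc_Stb g i0)).mpr hx
  rw [L4bOne_wtD hr hm hx hD, L4bOne_wtD hr hm hx' hD, L4bOne_shift (self_mem_cyc g i0),
    L4bOne_sg_one hr]
  have hW : (∏ l ∈ Finset.range m, sg (g.col ((g.perm ^ (2 * l)) i0))) *
      (∏ l ∈ Finset.range m, sg (g.col ((g.perm ^ (2 * l + 1)) i0))) = -1 := by
    rw [← Finset.prod_mul_distrib,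
      ← L4bOne_range m (fun l => sg (g.col ((g.perm ^ l) i0))), ← hm,
      ← L4bOne_prod g i0 (fun i => sg (g.col i)), ← sg_sum h2, hac, L4bOne_sg_hf hr]
  have hW0 : (∏ l ∈ Finset.range m, sg (g.col ((g.perm ^ (2 * l)) i0))) *
      (∏ l ∈ Finset.range m, sg (g.col ((g.perm ^ (2 * l)) i0))) = 1 := by
    rw [← Finset.prod_mul_distrib]
    exact Finset.prod_eq_one fun l _ => sg_mul_self _
  set W0 := ∏ l ∈ Finset.range m, sg (g.col ((g.perm ^ (2 * l)) i0))
  set W1 := ∏ l ∈ Finset.range m, sg (g.col ((g.perm ^ (2 * l + 1)) i0))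
  have hW1 : W1 = - W0 := by
    linear_combination (-W1) * hW0 + W0 * hW
  rcases sg_cases (x.2 i0) with h4 | h4
  · rw [h4, if_pos rfl, if_neg (by norm_num), hW1]
    ring
  · rw [h4, neg_neg, if_pos rfl, if_neg (by norm_num), hW1]
    ring

/-- sum of the weights with `s = p ^ m`, symmetric case, `m` odd -/
theorem L4bOne_sumH (hr : r % 4 = 2) {g : MG r n} {i0 : Fin n} {m : ℕ} (hm0 : 0 < m)
    (hm : (cyc g i0).card = 2 * m) (hodd : m % 2 = 1) :
    ∑ x with (IsStr g 0 0 (hf r) (cyc g i0) x ∧ L4bOne_PH g i0 m x.1),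
      wt (phiM Complex.I g) (cyc g i0) x = 0 := by
  refine sum_eq_zero_of_shift (c := 1) (cyc_Stb g i0) (phiM Complex.I g)
    (fun s => L4bOne_PH g i0 m s) (ξ := -1) (by norm_num) ?_
  intro x hx hH
  have hx' := (isStr_shiftS (c := 1) (cyc_Stb g i0)).mpr hx
  rw [L4bOne_wtH hm0 hm hx hH, L4bOne_wtH hm0 hm hx' hH]
  have h1 : ∏ l ∈ Finset.range m,
      (Complex.I * sg ((shiftS (cyc g i0) 1 x).2 ((g.perm ^ l) i0)))⁻¹ =
      ∏ l ∈ Finset.range m, ((-1) * (Complex.I * sg (x.2 ((g.perm ^ l) i0)))⁻¹) := by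
    refine Finset.prod_congr rfl fun l _ => ?_
    rw [L4bOne_shift (pow_mem_cyc g i0 l), L4bOne_sg_one hr, mul_neg, inv_neg]
    ring
  rw [h1, Finset.prod_mul_distrib, Finset.prod_const, Finset.card_range,
    (Nat.odd_iff.mpr hodd).neg_one_pow]
  ring

/-- sum of the weights with `s = p ^ m`, antisymmetric case, `m` even -/
theorem L4bOne_sumHa (hr : r % 4 = 2) {g : MG r n} {i0 : Fin n} {m : ℕ} (hm0 : 0 < m)
    (hm : (cyc g i0).card = 2 * m) (heven : m % 2 = 0) :
    ∑ x with (IsStr g 0 (hf r) (hf r) (cyc g i0) x ∧ L4bOne_PH g i0 m x.1),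
      wt (phiN (-Complex.I) Complex.I g) (cyc g i0) x = 0 := by
  have h2 : 2 ∣ r := by omega
  refine sum_eq_zero_of_shift (c := 1) (cyc_Stb g i0) (phiN (-Complex.I) Complex.I g)
    (fun s => L4bOne_PH g i0 m s) (ξ := -1) (by norm_num) ?_
  intro x hx hH
  have hinv := L4bOne_inv hm0 hm hx hH
  have h1 := flip_one hm0 hm hH
  have h3 := prod_orient (T := cyc g i0) (R := L4bOne_R g i0 m) (s := x.1)
    (u := fun _ => (-1 : ℂ)) hinv (fun i hi => rfl) (L4bOne_R_sub g i0 m)
    (fun i hi => by rw [hH i hi]; exact L4bOne_R_iff hm hi)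
  rw [L4bOne_prodR hm, Finset.prod_const, Finset.card_range,
    (Nat.even_iff.mpr heven).neg_one_pow] at h3
  have h4 : (-1 : ℂ) * wt (phiN (-Complex.I) Complex.I g) (cyc g i0) x =
      (∏ i ∈ cyc g i0, (if i < x.1 i ∧ g.perm (x.1 i) < g.perm i then (-1 : ℂ) else 1)) *
      (∏ i ∈ cyc g i0, (if i < x.1 i then (-1 : ℂ) else 1)) *
      wt (phiN (-Complex.I) Complex.I g) (cyc g i0) x := by
    rw [h1, h3, mul_one]
  rw [h4]
  unfold wt
  rw [← Finset.prod_mul_distrib, ← Finset.prod_mul_distrib]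
  refine Finset.prod_congr rfl fun i hi => ?_
  have hxi := (hinv i hi).1
  have e0 : (shiftS (cyc g i0) 1 x).1 = x.1 := rfl
  rw [e0, L4bOne_shift hi, L4bOne_shift hxi]
  simp only [phiN, phi2, phiT]
  by_cases hlt : i < x.1 i
  · have e1 : sg (x.2 (x.1 i) + 1 + g.col (x.1 i) + g.col i) =
        - sg (x.2 (x.1 i) + g.col (x.1 i) + g.col i) := by
      rw [show x.2 (x.1 i) + 1 + g.col (x.1 i) + g.col i =
        x.2 (x.1 i) + g.col (x.1 i) + g.col i + 1 by ring, L4bOne_sg_one hr]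
    by_cases hp : g.perm i < g.perm (x.1 i)
    · have hp' : ¬ (i < x.1 i ∧ g.perm (x.1 i) < g.perm i) := fun h => lt_asymm hp h.2
      simp only [if_pos hlt, if_pos hp, if_neg hp']
      rw [L4bOne_sg_one hr, mul_neg, inv_neg]
      ring
    · have hne : g.perm (x.1 i) ≠ g.perm i := fun h => (hinv i hi).2.2 (g.perm.injective h)
      have hp' : i < x.1 i ∧ g.perm (x.1 i) < g.perm i :=
        ⟨hlt, lt_of_le_of_ne (not_lt.mp hp) hne⟩
      simp only [if_pos hlt, if_neg hp, if_pos hp']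
      rw [e1, L4bOne_sg_one hr, mul_neg Complex.I, inv_neg]
      ring
  · have hp' : ¬ (i < x.1 i ∧ g.perm (x.1 i) < g.perm i) := fun h => hlt h.1
    simp only [if_neg hlt, if_neg hp']
    ring

/-- the partial sums -/
def L4bOne_A (g : MG r n) (m : ℕ) (i : Fin n) : ZMod r :=
  ∑ j ∈ Finset.range m, g.col ((g.perm ^ j) i)

theorem L4bOne_A_succ (g : MG r n) (m : ℕ) (i : Fin n) :
    L4bOne_A g m (g.perm i) = L4bOne_A g m i + g.col ((g.perm ^ m) i) - g.col i := by
  unfold L4bOne_A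
  have h1 : ∑ j ∈ Finset.range m, g.col ((g.perm ^ j) (g.perm i)) =
      ∑ j ∈ Finset.range m, g.col ((g.perm ^ (j + 1)) i) := by
    refine Finset.sum_congr rfl fun j _ => ?_
    rw [pow_succ, Equiv.Perm.mul_apply]
  have h2 := Finset.sum_range_succ (fun j => g.col ((g.perm ^ j) i)) m
  have h3 := Finset.sum_range_succ' (fun j => g.col ((g.perm ^ j) i)) m
  rw [h1]
  rw [h2] at h3
  simp only [pow_zero, Equiv.Perm.coe_one, id_eq] at h3
  rw [h3]
  ring

theorem L4bOne_A_half {g : MG r n} {i0 : Fin n} {m : ℕ} (hm : (cyc g i0).card = 2 * m)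
    {i : Fin n} (hi : i ∈ cyc g i0) :
    L4bOne_A g m i + L4bOne_A g m ((g.perm ^ m) i) = ∑ j ∈ cyc g i0, g.col j := by
  rw [← L4bOne_half hm hi, Finset.sum_add_distrib]
  unfold L4bOne_A
  congr 1
  refine Finset.sum_congr rfl fun j _ => ?_
  rw [L4bOne_add, L4bOne_add, add_comm]

/-- numbers of structures -/
theorem L4bOne_card {g : MG r n} {i0 : Fin n} {m : ℕ}
    (hm : (cyc g i0).card = 2 * m) (e1 e2 : ZMod r)
    (he : e1 = (∑ j ∈ cyc g i0, g.col j) + m * e2) :
    (Finset.univ.filter fun x : Str r n => IsStr g 0 0 e2 (cyc g i0) x ∧ L4bOne_PD g i0 x.1).card =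
      (Finset.univ.filter fun x : Str r n => IsStr g 0 e1 e2 (cyc g i0) x ∧ L4bOne_PH g i0 m x.1).card := by
  have hp : ∀ i ∈ cyc g i0, g.perm i ∈ cyc g i0 := fun i hi => (cyc_Stb g i0 i).mpr hi
  have hpm : ∀ i ∈ cyc g i0, (g.perm ^ m) i ∈ cyc g i0 := by
    intro i hi
    rw [← cyc_eq_of_mem hi]
    exact pow_mem_cyc g i m
  refine Finset.card_nbij'
    (fun x => (fun i => if i ∈ cyc g i0 then (g.perm ^ m) i else i,
      fun i => if i ∈ cyc g i0 then x.2 i + L4bOne_A g m i else 0))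
    (fun x => (id, fun i => if i ∈ cyc g i0 then x.2 i - L4bOne_A g m i else 0))
    ?_ ?_ ?_ ?_
  · intro x hx
    simp only [Finset.coe_filter, Finset.mem_univ, true_and, Set.mem_ofPred_eq] at hx ⊢
    obtain ⟨hx, hD⟩ := hx
    refine ⟨⟨fun i hi => by simp [hi], fun i hi => ?_⟩, fun i hi => by simp [hi]⟩
    have hi1 := hp i hi
    have hi2 := hpm i hi
    have hA := L4bOne_A_half hm hi
    simp only [if_pos hi, if_pos hi1, if_pos hi2]
    refine ⟨hi2, ?_, ?_, ?_, ?_⟩
    · rw [L4bOne_add, ← two_mul, ← hm, pow_card_cyc g hi]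
      simp
    · rw [← L4bOne_succ, pow_succ, Equiv.Perm.mul_apply]
    · have hw := L4bOne_walk hx m hi
      have hs : ∑ j ∈ Finset.range m,
          (g.col ((g.perm ^ j) i) + g.col (x.1 ((g.perm ^ j) i))) = 2 * L4bOne_A g m i := by
        unfold L4bOne_A
        rw [Finset.mul_sum]
        refine Finset.sum_congr rfl fun j _ => ?_
        have : (g.perm ^ j) i ∈ cyc g i0 := by
          rw [← cyc_eq_of_mem hi]
          exact pow_mem_cyc g i j
        rw [hD _ this]
        ring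
      rw [hs] at hw
      rw [hw, he, ← hA]
      push_cast
      ring
    · have h5 := (hx.2 i hi).2.2.2.2
      rw [hD i hi] at h5
      rw [h5, L4bOne_A_succ]
      ring
  · intro x hx
    simp only [Finset.coe_filter, Finset.mem_univ, true_and, Set.mem_ofPred_eq] at hx ⊢
    obtain ⟨hx, hH⟩ := hx
    refine ⟨⟨fun i hi => by simp [hi], fun i hi => ?_⟩, fun i hi => rfl⟩
    have hi1 := hp i hi
    simp only [if_pos hi, if_pos hi1, id_eq]
    refine ⟨hi, by simp, trivial, by simp, ?_⟩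
    have h5 := (hx.2 i hi).2.2.2.2
    rw [hH i hi] at h5
    rw [h5, L4bOne_A_succ]
    ring
  · intro x hx
    simp only [Finset.coe_filter, Finset.mem_univ, true_and, Set.mem_ofPred_eq] at hx
    obtain ⟨hx, hD⟩ := hx
    ext i
    · by_cases hi : i ∈ cyc g i0
      · simp [hD i hi]
      · simp [(hx.1 i hi).1]
    · by_cases hi : i ∈ cyc g i0
      · simp [hi]
      · simp [hi, (hx.1 i hi).2]
  · intro x hx
    simp only [Finset.coe_filter, Finset.mem_univ, true_and, Set.mem_ofPred_eq] at hx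
    obtain ⟨hx, hH⟩ := hx
    ext i
    · by_cases hi : i ∈ cyc g i0
      · simp [hi, hH i hi]
      · simp [hi, (hx.1 i hi).1]
    · by_cases hi : i ∈ cyc g i0
      · simp [hi]
      · simp [hi, (hx.1 i hi).2]

/-- splitting by the type of the structure -/
theorem L4bOne_split {g : MG r n} {i0 : Fin n} {m : ℕ} (hm0 : 0 < m)
    (hm : (cyc g i0).card = 2 * m) (e1 e2 : ZMod r) (φ : Wt r n) :
    ∑ x with IsStr g 0 e1 e2 (cyc g i0) x, wt φ (cyc g i0) x =
      ∑ x with (IsStr g 0 e1 e2 (cyc g i0) x ∧ L4bOne_PD g i0 x.1),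
        wt φ (cyc g i0) x +
      ∑ x with (IsStr g 0 e1 e2 (cyc g i0) x ∧ L4bOne_PH g i0 m x.1),
        wt φ (cyc g i0) x := by
  rw [← Finset.sum_filter_add_sum_filter_not _ (fun x : Str r n => L4bOne_PD g i0 x.1),
    Finset.filter_filter, Finset.filter_filter]
  congr 1
  refine Finset.sum_congr ?_ fun _ _ => rfl
  ext x
  simp only [Finset.mem_filter, Finset.mem_univ, true_and]
  constructor
  · rintro ⟨hx, hD⟩
    refine ⟨hx, ?_⟩
    rcases oneCycle_cases hx with h | ⟨m', hm', hc, h⟩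
    · exact absurd h hD
    · have : m' = m := by omega
      rw [← this]
      exact h
  · rintro ⟨hx, hH⟩
    refine ⟨hx, fun hD => ?_⟩
    exact (L4bOne_inv hm0 hm hx hH i0 (self_mem_cyc g i0)).2.2 (hD i0 (self_mem_cyc g i0))

theorem L4bOne_empty {g : MG r n} {i0 : Fin n} {e1 e2 : ZMod r} {φ : Wt r n}
    (P : Str r n → Prop) (h : ∀ x, IsStr g 0 e1 e2 (cyc g i0) x → P x → False) :
    ∑ x with (IsStr g 0 e1 e2 (cyc g i0) x ∧ P x), wt φ (cyc g i0) x = 0 := by
  refine Finset.sum_eq_zero fun x hx => ?_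
  simp only [Finset.mem_filter, Finset.mem_univ, true_and] at hx
  exact (h x hx.1 hx.2).elim

theorem L4b_one (hr : r % 4 = 2) (g : MG r n) (i0 : Fin n) :
    con g 0 0 (hf r) (phiM Complex.I g) i0 (cyc g i0)
      = con g 0 (hf r) (hf r) (phiN (-Complex.I) Complex.I g) i0 (cyc g i0) := by
  have h2 : 2 ∣ r := by omega
  have hhf := hf_ne_zero (r := r) h2
  have hhf2 := hf_add_hf (r := r) h2
  have hi0 := self_mem_cyc g i0
  rw [con_one, con_one]
  -- no antisymmetric structure with `s = 1`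
  have hDa : ∀ x : Str r n, IsStr g 0 (hf r) (hf r) (cyc g i0) x →
      (∀ i ∈ cyc g i0, x.1 i = i) → False := by
    intro x hx hD
    have h3 := (hx.2 i0 hi0).2.2.2.1
    rw [hD i0 hi0] at h3
    apply hhf
    have h4 : x.2 i0 + hf r = x.2 i0 + 0 := by
      rw [add_zero]
      conv_rhs => rw [h3]
      simp
    exact add_left_cancel h4
  by_cases hpar : ∃ m, (cyc g i0).card = 2 * m
  swap
  · -- odd cycles
    rw [Finset.sum_eq_zero, Finset.sum_eq_zero]
    · intro x hx
      simp only [Finset.mem_filter, Finset.mem_univ, true_and] at hx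
      rcases oneCycle_cases hx with h | ⟨m', hm', hc, h⟩
      · exact (hDa x hx h).elim
      · exact absurd ⟨m', hc⟩ hpar
    · intro x hx
      simp only [Finset.mem_filter, Finset.mem_univ, true_and] at hx
      rcases oneCycle_cases hx with h | ⟨m', hm', hc, h⟩
      · exfalso
        have h3 := congrArg sg (L4bOne_condD hx h)
        rw [sg_add h2, sg_two_mul h2, sg_zero, one_mul] at h3
        have h4 : (cyc g i0).card % 2 = 1 := by
          by_contra hcon
          exact hpar ⟨(cyc g i0).card / 2, by omega⟩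
        have h5 : ((cyc g i0).card : ZMod r) * hf r = hf r := by
          have h6 : (cyc g i0).card = 2 * ((cyc g i0).card / 2) + 1 := by omega
          rw [h6]
          push_cast
          linear_combination (((cyc g i0).card / 2 : ℕ) : ZMod r) * hhf2
        rw [h5, L4bOne_sg_hf hr] at h3
        norm_num at h3
      · exact absurd ⟨m', hc⟩ hpar
  obtain ⟨m, hm⟩ := hpar
  have hc : 0 < (cyc g i0).card := Finset.card_pos.mpr ⟨i0, hi0⟩
  have hm0 : 0 < m := by omega
  rw [L4bOne_split hm0 hm, L4bOne_split hm0 hm]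
  rw [L4bOne_empty (e1 := hf r) (P := fun x => L4bOne_PD g i0 x.1) (h := hDa), zero_add]
  have hmul : ∀ k : ℕ, (k : ZMod r) * hf r = if k % 2 = 0 then 0 else hf r := by
    intro k
    split_ifs with hk
    · have h6 : k = 2 * (k / 2) := by omega
      rw [h6]
      push_cast
      linear_combination ((k / 2 : ℕ) : ZMod r) * hhf2
    · have h6 : k = 2 * (k / 2) + 1 := by omega
      rw [h6]
      push_cast
      linear_combination ((k / 2 : ℕ) : ZMod r) * hhf2
  -- conditions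
  have hcD : ∀ x : Str r n, IsStr g 0 0 (hf r) (cyc g i0) x →
      (∀ i ∈ cyc g i0, x.1 i = i) → (∑ j ∈ cyc g i0, g.col j) = 0 ∨
        (∑ j ∈ cyc g i0, g.col j) = hf r := by
    intro x hx hD
    have h3 := L4bOne_condD hx hD
    rw [hm, hmul, if_pos (by omega), add_zero] at h3
    exact (two_mul_eq_zero_iff h2 _).mp h3
  have hcH : ∀ x : Str r n, IsStr g 0 0 (hf r) (cyc g i0) x →
      (∀ i ∈ cyc g i0, x.1 i = (g.perm ^ m) i) →
      0 = (∑ j ∈ cyc g i0, g.col j) + m * hf r := fun x hx hH => L4bOne_condH hm hx hH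
  have hcHa : ∀ x : Str r n, IsStr g 0 (hf r) (hf r) (cyc g i0) x →
      (∀ i ∈ cyc g i0, x.1 i = (g.perm ^ m) i) →
      hf r = (∑ j ∈ cyc g i0, g.col j) + m * hf r := fun x hx hH => L4bOne_condH hm hx hH
  rw [hmul] at hcH hcHa
  by_cases hac0 : (∑ j ∈ cyc g i0, g.col j) = 0
  · -- the weights with `s = 1`
    have hW : (∏ l ∈ Finset.range m, sg (g.col ((g.perm ^ (2 * l)) i0))) =
        (∏ l ∈ Finset.range m, sg (g.col ((g.perm ^ (2 * l + 1)) i0))) := by
      have e1 : (∏ l ∈ Finset.range m, sg (g.col ((g.perm ^ (2 * l)) i0))) *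
          (∏ l ∈ Finset.range m, sg (g.col ((g.perm ^ (2 * l + 1)) i0))) = 1 := by
        rw [← Finset.prod_mul_distrib,
          ← L4bOne_range m (fun l => sg (g.col ((g.perm ^ l) i0))), ← hm,
          ← L4bOne_prod g i0 (fun i => sg (g.col i)), ← sg_sum h2, hac0, sg_zero]
      have e2 : (∏ l ∈ Finset.range m, sg (g.col ((g.perm ^ (2 * l)) i0))) *
          (∏ l ∈ Finset.range m, sg (g.col ((g.perm ^ (2 * l)) i0))) = 1 := by
        rw [← Finset.prod_mul_distrib]
        exact Finset.prod_eq_one fun l _ => sg_mul_self _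
      have e3 : (∏ l ∈ Finset.range m, sg (g.col ((g.perm ^ (2 * l)) i0))) ≠ 0 := by
        intro h0
        rw [h0, zero_mul] at e2
        exact zero_ne_one e2
      exact mul_left_cancel₀ e3 (e2.trans e1.symm)
    have hD : ∑ x with (IsStr g 0 0 (hf r) (cyc g i0) x ∧ L4bOne_PD g i0 x.1),
        wt (phiM Complex.I g) (cyc g i0) x =
        ∑ x : Str r n with (IsStr g 0 0 (hf r) (cyc g i0) x ∧ L4bOne_PD g i0 x.1),
          (∏ l ∈ Finset.range m, sg (g.col ((g.perm ^ (2 * l)) i0))) := by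
      refine Finset.sum_congr rfl fun x hx => ?_
      simp only [Finset.mem_filter, Finset.mem_univ, true_and] at hx
      rw [L4bOne_wtD hr hm hx.1 hx.2, ← hW, ite_self]
    rcases Nat.mod_two_eq_zero_or_one m with hev | hodd
    · -- `m` even
      rw [L4bOne_empty (e1 := hf r) (P := fun x => L4bOne_PH g i0 m x.1)
        (h := fun x hx hH => by
          have h3 := hcHa x hx hH
          rw [if_pos hev, hac0, add_zero] at h3
          exact hhf h3)]
      have hH : ∑ x with (IsStr g 0 0 (hf r) (cyc g i0) x ∧ L4bOne_PH g i0 m x.1),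
          wt (phiM Complex.I g) (cyc g i0) x =
          ∑ x : Str r n with (IsStr g 0 0 (hf r) (cyc g i0) x ∧ L4bOne_PH g i0 m x.1),
            (-∏ l ∈ Finset.range m, sg (g.col ((g.perm ^ (2 * l)) i0))) := by
        refine Finset.sum_congr rfl fun x hx => ?_
        simp only [Finset.mem_filter, Finset.mem_univ, true_and] at hx
        exact L4bOne_wtH_even hr hm0 hm (t := m / 2) (by omega) hx.1 hx.2
      rw [hD, hH, Finset.sum_const, Finset.sum_const,
        L4bOne_card hm 0 (hf r) (by rw [hmul, if_pos hev, hac0, add_zero])]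
      simp
    · -- `m` odd
      have hm1 : ¬ m % 2 = 0 := by omega
      rw [L4bOne_empty (e1 := 0) (P := fun x => L4bOne_PH g i0 m x.1)
        (h := fun x hx hH => by
          have h3 := hcH x hx hH
          rw [if_neg hm1, hac0, zero_add] at h3
          exact hhf h3.symm)]
      have hH : ∑ x with (IsStr g 0 (hf r) (hf r) (cyc g i0) x ∧ L4bOne_PH g i0 m x.1),
          wt (phiN (-Complex.I) Complex.I g) (cyc g i0) x =
          ∑ x : Str r n with (IsStr g 0 (hf r) (hf r) (cyc g i0) x ∧ L4bOne_PH g i0 m x.1),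
            (∏ l ∈ Finset.range m, sg (g.col ((g.perm ^ (2 * l)) i0))) := by
        refine Finset.sum_congr rfl fun x hx => ?_
        simp only [Finset.mem_filter, Finset.mem_univ, true_and] at hx
        exact L4bOne_wtHa hr hm hodd hx.1 hx.2
      rw [hD, hH, Finset.sum_const, Finset.sum_const, add_zero,
        L4bOne_card hm (hf r) (hf r) (by rw [hmul, if_neg hm1, hac0, zero_add])]
  · by_cases hac : (∑ j ∈ cyc g i0, g.col j) = hf r
    · rw [L4bOne_sumD hr hm hac, zero_add]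
      rcases Nat.mod_two_eq_zero_or_one m with hev | hodd
      · rw [L4bOne_sumHa hr hm0 hm hev,
          L4bOne_empty (e1 := 0) (P := fun x => L4bOne_PH g i0 m x.1)
          (h := fun x hx hH => by
            have h3 := hcH x hx hH
            rw [if_pos hev, add_zero] at h3
            exact hac0 h3.symm)]
      · have hm1 : ¬ m % 2 = 0 := by omega
        rw [L4bOne_sumH hr hm0 hm hodd,
          L4bOne_empty (e1 := hf r) (P := fun x => L4bOne_PH g i0 m x.1)
          (h := fun x hx hH => by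
            have h3 := hcHa x hx hH
            rw [if_neg hm1, hac, hhf2] at h3
            exact hhf h3)]
    · rw [L4bOne_empty (e1 := 0) (P := fun x => L4bOne_PD g i0 x.1)
          (h := fun x hx hD => (hcD x hx hD).elim hac0 hac),
        L4bOne_empty (e1 := 0) (P := fun x => L4bOne_PH g i0 m x.1)
          (h := fun x hx hH => by
            have h3 := hcH x hx hH
            split_ifs at h3
            · rw [add_zero] at h3
              exact hac0 h3.symm
            · apply hac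
              linear_combination -h3 - hhf2),
        L4bOne_empty (e1 := hf r) (P := fun x => L4bOne_PH g i0 m x.1)
          (h := fun x hx hH => by
            have h3 := hcHa x hx hH
            split_ifs at h3
            · rw [add_zero] at h3
              exact hac h3.symm
            · apply hac0
              linear_combination -h3), add_zero]

end GIM119
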