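import Pool.Agent.Lib.MP_119ee3_al.Basic
import Pool.Agent.Lib.MP_119ee3_al.Congr
import Pool.Agent.Lib.MP_119ee3_al.Conv
import Pool.Agent.Lib.MP_119ee3_al.L1One
import Pool.Agent.Lib.MP_119ee3_al.L1Two
import Pool.Agent.Lib.MP_119ee3_al.L2One
import Pool.Agent.Lib.MP_119ee3_al.L2Two
import Pool.Agent.Lib.MP_119ee3_al.L3One
import Pool.Agent.Lib.MP_119ee3_al.L3Two
import Pool.Agent.Lib.MP_119ee3_al.L4a
import Pool.Agent.Lib.MP_119ee3_al.L4bOne
import Pool.Agent.Lib.MP_119ee3_al.L4bTwo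

set_option autoImplicit false

/-!
# MP_119ee3_al: The four identities.
-/

open Classical

noncomputable section

namespace GIM119

open MG

variable {r n : ℕ} [NeZero r]

lemma FId_stb_univ (g : MG r n) : Stb g Finset.univ := fun i => by simp

lemma FId_scal (ω : MG r n) : scal n (0 : ZMod r) * ω = ω := by
  rw [scal_zero, one_mul]

lemma FId_cs (hr : 2 ∣ r) (h : MG r n) : sg (cs h) = prodW phiY h := by
  rw [cs, sg_sum hr]
  rfl

lemma FId_im (hr : 4 ∣ r) (ω : MG r n) (φ : Wt r n) :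
    im (cs ω) * prodW φ ω = prodW (fun i j b c => im b * φ i j b c) ω := by
  rw [cs, im_sum hr, prodW, prodW, ← Finset.prod_mul_distrib]

lemma FId_inv (ω : MG r n) (φ ψ : Wt r n) :
    prodW φ ω * (prodW ψ ω)⁻¹ = prodW (fun i j b c => φ i j b c * (ψ i j b c)⁻¹) ω := by
  rw [prodW, prodW, prodW, Finset.prod_mul_distrib, Finset.prod_inv_distrib]

theorem F1 (hr : 2 ∣ r) {θ : ZMod r → ℂ} (hθ : ∀ x y, θ (x + y) = θ x * θ y)
    (hθ2 : θ (hf r) = -1) (g : MG r n) :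
    ∑ ω with (TSym 0 ω ∧ act g ω = ω), W1 θ g ω
      = ((Finset.univ.filter fun h : MG r n => h * tau r n h = g).card : ℂ) := by
  have h1 := sum_eq_tot0 g 0 0 (phi1 θ g)
  have h2 := sum_eq_tot1 g phi0
  rw [neg_zero] at h1
  simp only [FId_scal] at h1
  have h3 : ∑ h with (h * tau r n h = g), prodW phi0 h
      = ((Finset.univ.filter fun h : MG r n => h * tau r n h = g).card : ℂ) := by
    simp [prodW]
  rw [← h3, h2]
  refine Eq.trans h1 (tot_congr g (fun T i0 _ _ => ?_) Finset.univ (FId_stb_univ g))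
  by_cases hT : T = cyc g i0
  · rw [hT]; exact L1_one hr hθ hθ2 g i0
  · exact L1_two hr θ g i0 T hT

theorem F2 (hr : 2 ∣ r) {κ : ℂ} (hκ : κ ^ 2 = (-1) ^ (r / 2)) (g : MG r n) :
    ∑ ω with (TSym (hf r) ω ∧ act g ω = ω), W2 κ g ω
      = ∑ h with (h * tau r n h = g), sg (cs h) := by
  have h1 := sum_eq_tot0 g (hf r) 0 (phi2 κ g)
  have h2 := sum_eq_tot1 g phiY
  rw [neg_zero] at h1
  simp only [FId_scal] at h1
  simp only [FId_cs hr]
  rw [h2]
  refine Eq.trans h1 (tot_congr g (fun T i0 _ _ => ?_) Finset.univ (FId_stb_univ g))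
  by_cases hT : T = cyc g i0
  · rw [hT]; exact L2_one hr hκ g i0
  · exact L2_two hr hκ g i0 T hT

theorem F3 (hr : 4 ∣ r) {θ : ZMod r → ℂ} (hθ : ∀ x y, θ (x + y) = θ x * θ y)
    (hθ2 : θ (hf r) = -1) (g : MG r n) :
    ∑ ω with (TSym 0 ω ∧ act g ω = ω), im (cs ω) * W1 θ g ω
      = ∑ ω with (TSym (hf r) ω ∧ act g ω = ω), im (cs ω) * W2 ((-1) ^ (r / 4)) g ω := by
  have h1 := sum_eq_tot0 g 0 0 (phiS θ g)
  have h2 := sum_eq_tot0 g (hf r) 0 (phiA ((-1) ^ (r / 4)) g)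
  rw [neg_zero] at h1 h2
  simp only [FId_scal] at h1 h2
  simp only [W1, W2, FId_im hr]
  refine Eq.trans h1 (Eq.trans ?_ h2.symm)
  refine tot_congr g (fun T i0 _ _ => ?_) Finset.univ (FId_stb_univ g)
  by_cases hT : T = cyc g i0
  · rw [hT]; exact L3_one hr hθ hθ2 g i0
  · exact L3_two hr θ g i0 T hT

theorem F4a (hr : r % 4 = 2) (g : MG r n) :
    ∑ ω with (TSym 0 ω ∧ act g ω = scal n (hf r) * ω), W1 sg g ω * (TT Complex.I ω)⁻¹
      = ∑ ω with (TSym 0 ω ∧ act g ω = scal n (hf r) * ω),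
          W1 sg g ω * (TT (-Complex.I) ω)⁻¹ := by
  have hr2 : 2 ∣ r := by omega
  have h1 := sum_eq_tot0 g 0 (hf r) (phiM Complex.I g)
  have h2 := sum_eq_tot0 g 0 (hf r) (phiM (-Complex.I) g)
  rw [neg_hf hr2] at h1 h2
  simp only [W1, TT, FId_inv]
  refine Eq.trans h1 (Eq.trans ?_ h2.symm)
  exact tot_congr g (fun T i0 _ _ => L4a hr g i0 T) Finset.univ (FId_stb_univ g)

theorem F4b (hr : r % 4 = 2) (g : MG r n) :
    ∑ ω with (TSym 0 ω ∧ act g ω = scal n (hf r) * ω), W1 sg g ω * (TT Complex.I ω)⁻¹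
      = ∑ ω with (TSym (hf r) ω ∧ act g ω = scal n (hf r) * ω),
          W2 (-Complex.I) g ω * (TT Complex.I ω)⁻¹ := by
  have hr2 : 2 ∣ r := by omega
  have h1 := sum_eq_tot0 g 0 (hf r) (phiM Complex.I g)
  have h2 := sum_eq_tot0 g (hf r) (hf r) (phiN (-Complex.I) Complex.I g)
  rw [neg_hf hr2] at h1 h2
  simp only [W1, W2, TT, FId_inv]
  refine Eq.trans h1 (Eq.trans ?_ h2.symm)
  refine tot_congr g (fun T i0 _ _ => ?_) Finset.univ (FId_stb_univ g)
  by_cases hT : T = cyc g i0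
  · rw [hT]; exact L4b_one hr g i0
  · exact L4b_two hr g i0 T hT

end GIM119
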