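import Pool.Agent.Lib.MP_119ee3_al.Basic
import Pool.Agent.Lib.MP_119ee3_al.Cocycle1
import Pool.Agent.Lib.MP_119ee3_al.Cocycle2
import Pool.Agent.Lib.MP_119ee3_al.GI
import Pool.Agent.Lib.MP_119ee3_al.FId
import Pool.Agent.Lib.MP_119ee3_al.LCalg

set_option autoImplicit false

/-!
# MP_119ee3_al: The sum identity for lC.
-/

open Classical

noncomputable section

namespace GIM119

open MG

variable {r n : ℕ} [NeZero r]

/-- Number of twisted square roots. -/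
def LCsum_A (x : MG r n) : ℂ :=
  ((Finset.univ.filter fun h : MG r n => h * tau r n h = x).card : ℂ)

/-- Signed number of twisted square roots. -/
def LCsum_B (x : MG r n) : ℂ := ∑ h with (h * tau r n h = x), sg (cs h)

lemma LCsum_mem_Gp (hr : 2 ∣ r) (ω : MG r n) : ω ∈ Gp r 2 n ↔ sg (cs ω) = 1 := by
  rw [mem_Gp, sg_eq_one_iff hr]
  push_cast
  rfl

/-- Restriction of a sum to the elements of `Gp r 2 n`. -/
lemma LCsum_half (hr : 2 ∣ r) (P : MG r n → Prop) [DecidablePred P]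
    [DecidablePred fun ω : MG r n => ω ∈ Gp r 2 n ∧ P ω] (f : MG r n → ℂ) :
    ∑ ω with (ω ∈ Gp r 2 n ∧ P ω), f ω
      = (∑ ω with P ω, f ω + ∑ ω with P ω, sg (cs ω) * f ω) / 2 := by
  rw [← Finset.sum_add_distrib, Finset.sum_div, Finset.sum_filter, Finset.sum_filter]
  refine Finset.sum_congr rfl fun ω _ => ?_
  by_cases hP : P ω
  · rw [if_pos hP]
    by_cases h : ω ∈ Gp r 2 n
    · rw [if_pos ⟨h, hP⟩, (LCsum_mem_Gp hr ω).1 h]
      ring
    · rw [if_neg fun h0 => h h0.1]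
      have h2 : sg (cs ω) = -1 := by
        rcases sg_cases (cs ω) with h1 | h1
        · exact absurd ((LCsum_mem_Gp hr ω).2 h1) h
        · exact h1
      rw [h2]
      ring
  · rw [if_neg hP, if_neg fun h0 => hP h0.2]

lemma LCsum_two_hf (hr : 2 ∣ r) : 2 * hf r = 0 := by
  rw [two_mul, hf_add_hf hr]

lemma LCsum_act_hf (hr : 2 ∣ r) (x ω : MG r n) : act (x * scal n (hf r)) ω = act x ω := by
  rw [act_mul_scal, LCsum_two_hf hr, scal_zero, one_mul]

lemma LCsum_sg_hf (hr : 4 ∣ r) : sg (hf r) = 1 := by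
  have h2 : 2 ∣ r := dvd_trans (by norm_num) hr
  rw [sg_hf h2]
  obtain ⟨k, rfl⟩ := hr
  rw [show 4 * k / 2 = 2 * k by omega, pow_mul]
  norm_num

/-- Even case, symmetric elements. -/
lemma LCsum_S0 (hr : 2 ∣ r) (x : MG r n) :
    ∑ ω with (ω ∈ Gp r 2 n ∧ (TSym 0 ω ∧ act x ω = ω)), W1 ze x ω
      = (LCsum_A x + LCsum_A (x * scal n (hf r))) / 2 := by
  rw [LCsum_half hr]
  have h1 := F1 hr ze_add (ze_hf hr) x
  have h2 := F1 hr ze_add (ze_hf hr) (x * scal n (hf r))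
  rw [h1]
  unfold LCsum_A
  rw [← h2]
  congr 2
  refine Finset.sum_congr ?_ ?_
  · refine Finset.filter_congr fun ω _ => ?_
    rw [LCsum_act_hf hr]
  · intro ω hω
    rw [Finset.mem_filter] at hω
    rw [W1_mul_scal ze_add, ze_hf hr, sg_cs_of_TSym hr hω.2.1]
    ring

/-- Even case, antisymmetric elements. -/
lemma LCsum_S2 (hr : 4 ∣ r) (x : MG r n) :
    ∑ ω with (ω ∈ Gp r 2 n ∧ (TSym (hf r) ω ∧ act x ω = ω)), W2 ((-1) ^ (r / 4)) x ω
      = LCsum_B x := by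
  have hr2 : 2 ∣ r := dvd_trans (by norm_num) hr
  have hκ : ((-1 : ℂ) ^ (r / 4)) ^ 2 = (-1) ^ (r / 2) := by
    obtain ⟨k, rfl⟩ := hr
    rw [← pow_mul]
    congr 1
    omega
  have h1 := F2 hr2 hκ x
  unfold LCsum_B
  rw [← h1]
  refine Finset.sum_congr ?_ fun _ _ => rfl
  refine Finset.filter_congr fun ω _ => ?_
  refine ⟨fun h => h.2, fun h => ⟨?_, h⟩⟩
  rw [LCsum_mem_Gp hr2, sg_cs_of_TSym_hf hr2 h.1, LCsum_sg_hf hr, one_pow]

lemma LCsum_B_hf (hr : 4 ∣ r) (x : MG r n) : LCsum_B (x * scal n (hf r)) = LCsum_B x := by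
  have hr2 : 2 ∣ r := dvd_trans (by norm_num) hr
  rw [← LCsum_S2 hr, ← LCsum_S2 hr]
  refine Finset.sum_congr ?_ ?_
  · refine Finset.filter_congr fun ω _ => ?_
    rw [LCsum_act_hf hr2]
  · intro ω hω
    rw [Finset.mem_filter] at hω
    rw [W2_mul_scal hr2 _ _ hω.2.2.1, LCsum_sg_hf hr, one_pow, mul_one]

/-- Odd case. -/
lemma LCsum_S3 (hr : 4 ∣ r) (x : MG r n) :
    ∑ ω with (ω ∈ Gp r 2 n ∧ (TSym 0 ω ∧ act x ω = ω)), im (cs ω) * W1 ze x ω
      = ∑ ω with (ω ∈ Gp r 2 n ∧ (TSym (hf r) ω ∧ act x ω = ω)),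
          im (cs ω) * W2 ((-1) ^ (r / 4)) x ω := by
  have hr2 : 2 ∣ r := dvd_trans (by norm_num) hr
  have h1 := F3 hr ze_add (ze_hf hr2) x
  have h2 := F3 hr ze_add (ze_hf hr2) (x * scal n (hf r))
  rw [LCsum_half hr2, h1]
  have e1 : ∑ ω with (TSym 0 ω ∧ act x ω = ω), sg (cs ω) * (im (cs ω) * W1 ze x ω)
      = ∑ ω with (TSym 0 ω ∧ act (x * scal n (hf r)) ω = ω),
          im (cs ω) * W1 ze (x * scal n (hf r)) ω := by
    refine Finset.sum_congr ?_ ?_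
    · refine Finset.filter_congr fun ω _ => ?_
      rw [LCsum_act_hf hr2]
    · intro ω hω
      rw [Finset.mem_filter] at hω
      rw [W1_mul_scal ze_add, ze_hf hr2, sg_cs_of_TSym hr2 hω.2.1]
      ring
  have e2 : ∑ ω with (TSym (hf r) ω ∧ act (x * scal n (hf r)) ω = ω),
        im (cs ω) * W2 ((-1) ^ (r / 4)) (x * scal n (hf r)) ω
      = ∑ ω with (TSym (hf r) ω ∧ act x ω = ω), im (cs ω) * W2 ((-1) ^ (r / 4)) x ω := by
    refine Finset.sum_congr ?_ ?_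
    · refine Finset.filter_congr fun ω _ => ?_
      rw [LCsum_act_hf hr2]
    · intro ω hω
      rw [Finset.mem_filter] at hω
      rw [W2_mul_scal hr2 _ _ hω.2.1, LCsum_sg_hf hr, one_pow, mul_one]
  rw [e1, h2, e2, add_self_div_two]
  refine Finset.sum_congr ?_ fun _ _ => rfl
  refine Finset.filter_congr fun ω _ => ?_
  refine ⟨fun h => ⟨?_, h⟩, fun h => h.2⟩
  rw [LCsum_mem_Gp hr2, sg_cs_of_TSym_hf hr2 h.1, LCsum_sg_hf hr, one_pow]

lemma LCsum_act {ρ : ℕ} (hρ : Even ρ) (j : ℕ) (g ω : MG r n) :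
    act (g * scal n (-((ρ / 2 * j : ℕ) : ZMod r))) ω = ω
      ↔ act g ω = scal n ((ρ * j : ℕ) : ZMod r) * ω := by
  have h1 : 2 * -((ρ / 2 * j : ℕ) : ZMod r) = -((ρ * j : ℕ) : ZMod r) := by
    obtain ⟨k, rfl⟩ := hρ
    rw [show (k + k) / 2 = k by omega]
    push_cast
    ring
  rw [act_mul_scal, h1, ← scal_inv, inv_mul_eq_iff_eq_mul]

lemma LCsum_disj [NeZero n] (hr : 2 ∣ r) {ω : MG r n} (h : TSym (hf r) ω) : ¬ TSym 0 ω := by
  intro h0
  have h1 := h.2 0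
  rw [h0.2 0] at h1
  have h2 : hf r = 0 := by
    have := add_left_cancel h1
    exact this.symm
  exact hf_ne_zero hr h2

lemma LCsum_im_sq {ω : MG r n} (hr : 2 ∣ r) (h : ω ∈ Gp r 2 n) : im (cs ω) ^ 2 = 1 := by
  rw [sq, im_mul_self]
  exact (LCsum_mem_Gp hr ω).1 h

/-- Value of `lC` on symmetric elements. -/
lemma LCsum_val0 [NeZero n] {q : ℕ} (hr : 4 ∣ r) (hq0 : 0 < q) (hqr : 2 * q ∣ r)
    (g ω : MG r n) (hω : ω ∈ Gp r 2 n) (hs : TSym 0 ω) {j : ℕ} (hj : j < q)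
    (h : act g ω = scal n ((r / q * j : ℕ) : ZMod r) * ω) :
    lC q g ω = W1 ze (g * scal n (-((r / q / 2 * j : ℕ) : ZMod r))) ω * im (cs ω) ^ j := by
  have hr2 : 2 ∣ r := dvd_trans (by norm_num) hr
  obtain ⟨m, hm⟩ := hqr
  have hrpos : 0 < r := Nat.pos_of_ne_zero (NeZero.ne r)
  have hm0 : 0 < m := by
    rcases Nat.eq_zero_or_pos m with h0 | h0
    · rw [h0] at hm; omega
    · exact h0
  have hρ : r / q = 2 * m := by
    rw [hm, show 2 * q * m = q * (2 * m) by ring]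
    exact Nat.mul_div_cancel_left _ hq0
  rw [hρ] at h ⊢
  have hlt : 2 * m * j < r := by
    rw [hm]
    nlinarith
  have heo : eo n g ω = ((2 * m * j : ℕ) : ZMod r) := eo_eq h
  have hval : (eo n g ω).val / (2 * m) = j := by
    rw [heo, ZMod.val_natCast_of_lt hlt]
    exact Nat.mul_div_cancel_left _ (by omega)
  have hk : Even (k1 ω) := by
    have h1 := sg_cs_of_TSym hr2 hs
    rw [(LCsum_mem_Gp hr2 ω).1 hω] at h1
    by_contra hodd
    rw [Nat.not_even_iff_odd] at hodd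
    rw [hodd.neg_one_pow] at h1
    norm_num at h1
  obtain ⟨t, ht⟩ := hk
  unfold lC
  rw [if_pos hs, hρ, hval, heo, W1_mul_scal ze_add, ← ze_natCast_mul, ht,
    show (t + t) / 2 = t by omega, show 2 * m / 2 = m by omega]
  congr 3
  push_cast
  ring

/-- Value of `lC` on antisymmetric elements. -/
lemma LCsum_val2 [NeZero n] {q : ℕ} (hr : 4 ∣ r) (hq0 : 0 < q) (hqr : 2 * q ∣ r)
    (g ω : MG r n) (hs : TSym (hf r) ω) {j : ℕ} (hj : j < q)
    (h : act g ω = scal n ((r / q * j : ℕ) : ZMod r) * ω) :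
    lC q g ω = W2 ((-1) ^ (r / 4)) (g * scal n (-((r / q / 2 * j : ℕ) : ZMod r))) ω
      * (- im (cs ω)) ^ j := by
  have hr2 : 2 ∣ r := dvd_trans (by norm_num) hr
  obtain ⟨m, hm⟩ := hqr
  have hrpos : 0 < r := Nat.pos_of_ne_zero (NeZero.ne r)
  have hm0 : 0 < m := by
    rcases Nat.eq_zero_or_pos m with h0 | h0
    · rw [h0] at hm; omega
    · exact h0
  have hρ : r / q = 2 * m := by
    rw [hm, show 2 * q * m = q * (2 * m) by ring]
    exact Nat.mul_div_cancel_left _ hq0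
  rw [hρ] at h ⊢
  have hlt : 2 * m * j < r := by
    rw [hm]
    nlinarith
  have heo : eo n g ω = ((2 * m * j : ℕ) : ZMod r) := eo_eq h
  have hval : (eo n g ω).val / (2 * m) = j := by
    rw [heo, ZMod.val_natCast_of_lt hlt]
    exact Nat.mul_div_cancel_left _ (by omega)
  unfold lC
  rw [if_neg (LCsum_disj hr2 hs), hρ, hval, show 2 * m / 2 = m by omega,
    W2_mul_scal hr2 _ _ hs, sg_neg hr2, sg_natCast hr2]
  have h2 : ((-1 : ℂ) ^ (m * j)) ^ (n / 2) = ((-1) ^ (m * (n / 2))) ^ j := by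
    rw [← pow_mul, ← pow_mul]
    congr 1
    ring
  rw [h2, show (-1 : ℂ) ^ (m * (n / 2)) * -1 * im (cs ω)
    = (-1) ^ (m * (n / 2)) * (- im (cs ω)) by ring, mul_pow]
  ring

/-- The contribution of the scalar with index `j`. -/
lemma LCsum_T [NeZero n] {q : ℕ} (hr : 4 ∣ r) (hq0 : 0 < q) (hqr : 2 * q ∣ r)
    (g : MG r n) {j : ℕ} (hj : j < q) :
    ∑ ω with (ω ∈ Gp r 2 n ∧ ((TSym 0 ω ∨ TSym (hf r) ω) ∧
        act g ω = scal n ((r / q * j : ℕ) : ZMod r) * ω)), lC q g ω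
      = ∑ ω with (ω ∈ Gp r 2 n ∧ (TSym 0 ω ∧
          act (g * scal n (-((r / q / 2 * j : ℕ) : ZMod r))) ω = ω)),
          W1 ze (g * scal n (-((r / q / 2 * j : ℕ) : ZMod r))) ω * im (cs ω) ^ j
        + ∑ ω with (ω ∈ Gp r 2 n ∧ (TSym (hf r) ω ∧
          act (g * scal n (-((r / q / 2 * j : ℕ) : ZMod r))) ω = ω)),
          W2 ((-1) ^ (r / 4)) (g * scal n (-((r / q / 2 * j : ℕ) : ZMod r))) ω
            * (- im (cs ω)) ^ j := by
  have hr2 : 2 ∣ r := dvd_trans (by norm_num) hr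
  have hρ : Even (r / q) := by
    obtain ⟨m, hm⟩ := hqr
    rw [hm, show 2 * q * m = q * (2 * m) by ring, Nat.mul_div_cancel_left _ hq0]
    exact even_two_mul m
  have hset : (Finset.univ.filter fun ω : MG r n => ω ∈ Gp r 2 n ∧
      ((TSym 0 ω ∨ TSym (hf r) ω) ∧ act g ω = scal n ((r / q * j : ℕ) : ZMod r) * ω))
      = (Finset.univ.filter fun ω : MG r n => ω ∈ Gp r 2 n ∧ (TSym 0 ω ∧
          act (g * scal n (-((r / q / 2 * j : ℕ) : ZMod r))) ω = ω))
        ∪ (Finset.univ.filter fun ω : MG r n => ω ∈ Gp r 2 n ∧ (TSym (hf r) ω ∧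
          act (g * scal n (-((r / q / 2 * j : ℕ) : ZMod r))) ω = ω)) := by
    ext ω
    simp only [Finset.mem_filter, Finset.mem_univ, true_and, Finset.mem_union,
      LCsum_act hρ]
    tauto
  rw [hset, Finset.sum_union]
  · congr 1
    · refine Finset.sum_congr rfl fun ω hω => ?_
      rw [Finset.mem_filter, LCsum_act hρ] at hω
      exact LCsum_val0 hr hq0 hqr g ω hω.2.1 hω.2.2.1 hj hω.2.2.2
    · refine Finset.sum_congr rfl fun ω hω => ?_
      rw [Finset.mem_filter, LCsum_act hρ] at hω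
      exact LCsum_val2 hr hq0 hqr g ω hω.2.2.1 hj hω.2.2.2
  · rw [Finset.disjoint_left]
    intro ω h1 h2
    rw [Finset.mem_filter] at h1 h2
    exact LCsum_disj hr2 h2.2.2.1 h1.2.2.1

/-- Even indices. -/
lemma LCsum_even [NeZero n] {q : ℕ} (hr : 4 ∣ r) (hq0 : 0 < q) (hqr : 2 * q ∣ r)
    (g : MG r n) {i : ℕ} (hj : 2 * i < q) :
    ∑ ω with (ω ∈ Gp r 2 n ∧ ((TSym 0 ω ∨ TSym (hf r) ω) ∧
        act g ω = scal n ((r / q * (2 * i) : ℕ) : ZMod r) * ω)), lC q g ω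
      = (LCsum_A (g * scal n (-((r / q * i : ℕ) : ZMod r)))
          + LCsum_A (g * scal n (-((r / q * i : ℕ) : ZMod r) + hf r))) / 2
        + LCsum_B (g * scal n (-((r / q * i : ℕ) : ZMod r))) := by
  have hr2 : 2 ∣ r := dvd_trans (by norm_num) hr
  have hρ : Even (r / q) := by
    obtain ⟨m, hm⟩ := hqr
    rw [hm, show 2 * q * m = q * (2 * m) by ring, Nat.mul_div_cancel_left _ hq0]
    exact even_two_mul m
  rw [LCsum_T hr hq0 hqr g hj]
  have h1 : r / q / 2 * (2 * i) = r / q * i := by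
    obtain ⟨k, hk⟩ := hρ
    rw [hk, show (k + k) / 2 = k by omega]
    ring
  rw [h1, scal_add, ← mul_assoc, ← LCsum_S0 hr2, ← LCsum_S2 hr]
  congr 1
  · refine Finset.sum_congr rfl fun ω hω => ?_
    rw [Finset.mem_filter] at hω
    rw [pow_mul, LCsum_im_sq hr2 hω.2.1, one_pow, mul_one]
  · refine Finset.sum_congr rfl fun ω hω => ?_
    rw [Finset.mem_filter] at hω
    rw [pow_mul, neg_sq, LCsum_im_sq hr2 hω.2.1, one_pow, mul_one]

/-- Odd indices. -/
lemma LCsum_odd [NeZero n] {q : ℕ} (hr : 4 ∣ r) (hq0 : 0 < q) (hqr : 2 * q ∣ r)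
    (g : MG r n) {i : ℕ} (hj : 2 * i + 1 < q) :
    ∑ ω with (ω ∈ Gp r 2 n ∧ ((TSym 0 ω ∨ TSym (hf r) ω) ∧
        act g ω = scal n ((r / q * (2 * i + 1) : ℕ) : ZMod r) * ω)), lC q g ω = 0 := by
  have hr2 : 2 ∣ r := dvd_trans (by norm_num) hr
  rw [LCsum_T hr hq0 hqr g hj]
  have h3 := LCsum_S3 hr (g * scal n (-((r / q / 2 * (2 * i + 1) : ℕ) : ZMod r)))
  have e1 : ∀ ω : MG r n, ω ∈ Gp r 2 n → im (cs ω) ^ (2 * i + 1) = im (cs ω) := by
    intro ω hω
    rw [pow_succ, pow_mul, LCsum_im_sq hr2 hω, one_pow, one_mul]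
  have e2 : ∀ ω : MG r n, ω ∈ Gp r 2 n → (- im (cs ω)) ^ (2 * i + 1) = - im (cs ω) := by
    intro ω hω
    rw [pow_succ, pow_mul, neg_sq, LCsum_im_sq hr2 hω, one_pow, one_mul]
  rw [← sub_eq_zero] at h3
  rw [← h3, sub_eq_add_neg, ← Finset.sum_neg_distrib]
  congr 1
  · refine Finset.sum_congr rfl fun ω hω => ?_
    rw [Finset.mem_filter] at hω
    rw [e1 ω hω.2.1]
    ring
  · refine Finset.sum_congr rfl fun ω hω => ?_
    rw [Finset.mem_filter] at hω
    rw [e2 ω hω.2.1]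
    ring

lemma LCsum_scal_inj_nat [NeZero n] {q : ℕ} (hq0 : 0 < q) (hqr : q ∣ r) {i j : ℕ}
    (hi : i < q) (hj : j < q)
    (h : scal n ((r / q * i : ℕ) : ZMod r) = scal n ((r / q * j : ℕ) : ZMod r)) : i = j := by
  have h1 := scal_inj h
  obtain ⟨m, hm⟩ := hqr
  have hrpos : 0 < r := Nat.pos_of_ne_zero (NeZero.ne r)
  have hm0 : 0 < m := by
    rcases Nat.eq_zero_or_pos m with h0 | h0
    · rw [h0] at hm; omega
    · exact h0
  have hρ : r / q = m := by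
    rw [hm]
    exact Nat.mul_div_cancel_left _ hq0
  rw [hρ] at h1
  have hlt : ∀ k < q, m * k < r := by
    intro k hk
    rw [hm]
    nlinarith
  have h2 := congrArg ZMod.val h1
  rw [ZMod.val_natCast_of_lt (hlt i hi), ZMod.val_natCast_of_lt (hlt j hj)] at h2
  exact Nat.eq_of_mul_eq_mul_left hm0 h2

/-- The left hand side. -/
lemma LCsum_left [NeZero n] {q : ℕ} (hq0 : 0 < q) (hq : Even q) (hqr : q ∣ r) (g : MG r n)
    (f : MG r n → ℂ) :
    ∑ ω with (ω ∈ Gp r 2 n ∧ ω * tau r n ω ∈ Cq r q n ∧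
      g * ω * (tau r n g)⁻¹ * ω⁻¹ ∈ Cq r q n), f ω
    = ∑ j ∈ Finset.range q, ∑ ω with (ω ∈ Gp r 2 n ∧ ((TSym 0 ω ∨ TSym (hf r) ω) ∧
        act g ω = scal n ((r / q * j : ℕ) : ZMod r) * ω)), f ω := by
  rw [← Finset.sum_biUnion]
  · refine Finset.sum_congr ?_ fun _ _ => rfl
    ext ω
    simp only [Finset.mem_filter, Finset.mem_univ, true_and, Finset.mem_biUnion,
      Finset.mem_range, GI_iff hq hqr, mem_Cq_iff_exists hq0 hqr, twist_eq_iff]
    constructor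
    · rintro ⟨h1, h2, j, hj, h3⟩
      exact ⟨j, hj, h1, h2, h3⟩
    · rintro ⟨j, hj, h1, h2, h3⟩
      exact ⟨h1, h2, j, hj, h3⟩
  · intro i hi j hj hij
    rw [Function.onFun, Finset.disjoint_left]
    intro ω h1 h2
    rw [Finset.mem_filter] at h1 h2
    apply hij
    refine LCsum_scal_inj_nat (n := n) hq0 hqr (by simpa using hi) (by simpa using hj) ?_
    have h3 := h1.2.2.2.symm.trans h2.2.2.2
    exact mul_right_cancel h3

/-- The right hand side. -/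
lemma LCsum_right [NeZero n] {q : ℕ} (hr : 2 ∣ r) (hq0 : 0 < q) (hqr : q ∣ r) (g : MG r n) :
    ((Finset.univ.filter fun h : MG r n =>
        h ∈ Gp r 2 n ∧ h * tau r n h * g⁻¹ ∈ Cq r q n).card : ℂ)
    = ∑ j ∈ Finset.range q, (LCsum_A (g * scal n (-((r / q * j : ℕ) : ZMod r)))
        + LCsum_B (g * scal n (-((r / q * j : ℕ) : ZMod r)))) / 2 := by
  have h1 : ∀ x : MG r n, (LCsum_A x + LCsum_B x) / 2
      = ∑ h with (h ∈ Gp r 2 n ∧ h * tau r n h = x), (1 : ℂ) := by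
    intro x
    rw [LCsum_half hr]
    unfold LCsum_A LCsum_B
    congr 2
    · simp
    · refine Finset.sum_congr rfl fun _ _ => ?_
      ring
  have h2 : ((Finset.univ.filter fun h : MG r n =>
        h ∈ Gp r 2 n ∧ h * tau r n h * g⁻¹ ∈ Cq r q n).card : ℂ)
      = ∑ h with (h ∈ Gp r 2 n ∧ h * tau r n h * g⁻¹ ∈ Cq r q n), (1 : ℂ) := by
    simp
  rw [h2]
  simp only [h1]
  rw [← Finset.sum_biUnion]
  · refine Finset.sum_congr ?_ fun _ _ => rfl
    ext h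
    simp only [Finset.mem_filter, Finset.mem_univ, true_and, Finset.mem_biUnion,
      Finset.mem_range]
    have h3 : h * tau r n h * g⁻¹ ∈ Cq r q n
        ↔ ∃ j < q, h * tau r n h = g * scal n (-((r / q * j : ℕ) : ZMod r)) := by
      rw [← inv_mem_iff, mem_Cq_iff_exists hq0 hqr]
      refine exists_congr fun j => and_congr_right fun _ => ?_
      rw [← scal_inv, inv_eq_iff_eq_inv, mul_inv_eq_iff_eq_mul, scal_inv, scal_comm]
    rw [h3]
    constructor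
    · rintro ⟨h1, j, hj, h3⟩
      exact ⟨j, hj, h1, h3⟩
    · rintro ⟨j, hj, h1, h3⟩
      exact ⟨h1, j, hj, h3⟩
  · intro i hi j hj hij
    rw [Function.onFun, Finset.disjoint_left]
    intro ω h1 h2
    rw [Finset.mem_filter] at h1 h2
    apply hij
    refine LCsum_scal_inj_nat (n := n) hq0 hqr (by simpa using hi) (by simpa using hj) ?_
    have h3 := h1.2.2.symm.trans h2.2.2
    have h4 := mul_left_cancel h3
    rw [← scal_inv, ← scal_inv] at h4
    exact inv_injective h4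

lemma LCsum_range (m : ℕ) (f : ℕ → ℂ) :
    ∑ j ∈ Finset.range (2 * m), f j
      = ∑ i ∈ Finset.range m, f (2 * i) + ∑ i ∈ Finset.range m, f (2 * i + 1) := by
  induction m with
  | zero => simp
  | succ m ih =>
    rw [show 2 * (m + 1) = 2 * m + 1 + 1 by ring, Finset.sum_range_succ, Finset.sum_range_succ,
      ih, Finset.sum_range_succ, Finset.sum_range_succ]
    ring

theorem lC_sum [NeZero n] {q : ℕ} (hr : 4 ∣ r) (hn : Even n) (hq : Even q) (hqr : 2 * q ∣ r)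
    (g : MG r n) (hg : g ∈ Gp r 2 n) :
    ∑ ω with (ω ∈ Gp r 2 n ∧ ω * tau r n ω ∈ Cq r q n ∧
      g * ω * (tau r n g)⁻¹ * ω⁻¹ ∈ Cq r q n), lC q g ω
    = ((Finset.univ.filter fun h : MG r n =>
        h ∈ Gp r 2 n ∧ h * tau r n h * g⁻¹ ∈ Cq r q n).card : ℂ) := by
  have hr2 : 2 ∣ r := dvd_trans (by norm_num) hr
  have hrpos : 0 < r := Nat.pos_of_ne_zero (NeZero.ne r)
  have hq0 : 0 < q := by
    rcases Nat.eq_zero_or_pos q with h0 | h0
    · rw [h0] at hqr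
      have := Nat.eq_zero_of_zero_dvd (by simpa using hqr)
      omega
    · exact h0
  have hqr' : q ∣ r := dvd_trans (dvd_mul_left q 2) hqr
  rw [LCsum_left hq0 hq hqr', LCsum_right hr2 hq0 hqr']
  obtain ⟨m, hm⟩ := hq
  have hm2 : q = 2 * m := by omega
  have hhf : ((r / q * m : ℕ) : ZMod r) = hf r := by
    unfold hf
    congr 1
    obtain ⟨t, ht⟩ := hqr'
    rw [ht, Nat.mul_div_cancel_left _ hq0, hm2, show 2 * m * t = 2 * (m * t) by ring,
      Nat.mul_div_cancel_left _ (by norm_num)]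
    ring
  conv_lhs => rw [hm2]
  rw [LCsum_range, ← hm2]
  have hodd : ∑ i ∈ Finset.range m, (∑ ω with (ω ∈ Gp r 2 n ∧ ((TSym 0 ω ∨ TSym (hf r) ω) ∧
        act g ω = scal n ((r / q * (2 * i + 1) : ℕ) : ZMod r) * ω)), lC q g ω) = 0 := by
    refine Finset.sum_eq_zero fun i hi => ?_
    rw [Finset.mem_range] at hi
    exact LCsum_odd hr hq0 hqr g (by omega)
  rw [hodd, add_zero]
  conv_rhs => rw [hm, Finset.sum_range_add]
  rw [← Finset.sum_add_distrib, ← hm]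
  refine Finset.sum_congr rfl fun i hi => ?_
  rw [Finset.mem_range] at hi
  rw [LCsum_even hr hq0 hqr g (by omega)]
  have h1 : -((r / q * (m + i) : ℕ) : ZMod r) = -((r / q * i : ℕ) : ZMod r) + hf r := by
    rw [mul_add, Nat.cast_add, hhf, neg_add, neg_hf hr2]
    ring
  rw [h1]
  have h2 := LCsum_B_hf hr (g * scal n (-((r / q * i : ℕ) : ZMod r)))
  rw [mul_assoc, ← scal_add] at h2
  rw [h2]
  ring

theorem ALG_C [NeZero n] {q : ℕ} (hr : 4 ∣ r) (hn : Even n) (hq : Even q) (hqr : 2 * q ∣ r) :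
    ALG r 2 q n (lC q) :=
  ⟨lC_mul hr hn hq hqr, lC_cen hr hn hq hqr, lC_shift hr hn hq hqr, lC_conj hr hn hq hqr,
    lC_sum hr hn hq hqr⟩

end GIM119
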