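import Pool.Agent.Lib.MP_119ee3_al.Basic
import Pool.Agent.Lib.MP_119ee3_al.LCalg
import Pool.Agent.Lib.MP_119ee3_al.LCsum
import Pool.Agent.Lib.MP_119ee3_al.Descent

set_option autoImplicit false

/-!
# MP_119ee3_al: The family for r/q odd, 4 | r.
-/

open Classical

noncomputable section

namespace GIM119

open MG

variable {r n : ℕ} [NeZero r]

theorem ALGE_even (hr : 2 ∣ r) {s : ℕ} (hs : Odd s) {k : ZMod r}
    (h : sg ((s : ZMod r) * k) = 1) : ∃ k', k = 2 * k' := by
  have h1 : (s : ZMod r) * k = ((s * k.val : ℕ) : ZMod r) := by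
    push_cast
    rw [ZMod.natCast_zmod_val]
  rw [h1, sg_natCast hr] at h
  have h2 : Even (s * k.val) := by
    by_contra h3
    rw [Nat.not_even_iff_odd] at h3
    rw [h3.neg_one_pow] at h
    norm_num at h
  have h3 : Even k.val := by
    rcases Nat.even_mul.mp h2 with h4 | h4
    · exact absurd h4 (Nat.not_even_iff_odd.mpr hs)
    · exact h4
  obtain ⟨m, hm⟩ := h3
  refine ⟨(m : ZMod r), ?_⟩
  rw [← ZMod.natCast_zmod_val k, hm]
  push_cast
  ring

theorem ALGE_lC [NeZero n] {q s : ℕ} (hr : 4 ∣ r) (hn : n % 4 = 2) (hrq : r = 2 * q * s)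
    (hs : Odd s) (hq : 2 ≤ q) {ω : MG r n} (hω : ω ∈ Gp r 2 n)
    (hT : TSym 0 ω ∨ TSym (hf r) ω) :
    lC q (scal n (s : ZMod r)) ω = (if TSym 0 ω then 1 else -1) * im (cs ω) := by
  have hr2 : 2 ∣ r := Dvd.dvd.trans (by norm_num) hr
  have hs0 : 0 < s := hs.pos
  have hdiv : r / q = 2 * s := by
    rw [hrq, mul_comm 2 q, mul_assoc, Nat.mul_div_cancel_left _ (by omega)]
  have hlt : 2 * s < r := by
    rw [hrq]
    nlinarith
  have heo : eo n (scal n (s : ZMod r)) ω = ((2 * s : ℕ) : ZMod r) := by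
    rw [eo_eq (act_scal (s : ZMod r) ω)]
    push_cast
    ring
  have hval : (((2 * s : ℕ) : ZMod r)).val = 2 * s := ZMod.val_natCast_of_lt hlt
  have hexp : (eo n (scal n (s : ZMod r)) ω).val / (r / q) = 1 := by
    rw [heo, hval, hdiv, Nat.div_self (by omega)]
  obtain ⟨y, hy⟩ := hω
  have hsg : sg (cs ω) = 1 := by
    rw [hy]
    exact sg_two_mul hr2 y
  unfold lC
  rw [hexp, pow_one]
  by_cases h0 : TSym 0 ω
  · rw [if_pos h0, if_pos h0, one_mul]
    have hk : Even (k1 ω) := by
      have h1 := sg_cs_of_TSym hr2 h0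
      rw [hsg] at h1
      by_contra h3
      rw [Nat.not_even_iff_odd] at h3
      rw [h3.neg_one_pow] at h1
      norm_num at h1
    have hW : W1 ze (scal n (s : ZMod r)) ω = ze (s : ZMod r) ^ k1 ω := by
      have h1 := W1_mul_scal (θ := ze) ze_add (1 : MG r n) ω (s : ZMod r)
      rw [one_mul, W1_one ze ze_zero, one_mul] at h1
      exact h1
    obtain ⟨m, hm⟩ := hk
    have hm2 : k1 ω / 2 = m := by omega
    have hz : ze (-((k1 ω / 2 : ℕ) : ZMod r) * eo n (scal n (s : ZMod r)) ω)
        * ze (s : ZMod r) ^ k1 ω = 1 := by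
      rw [← ze_natCast_mul, ← ze_add, heo, hm2, hm]
      have : -(m : ZMod r) * ((2 * s : ℕ) : ZMod r) + ((m + m : ℕ) : ZMod r) * (s : ZMod r)
          = 0 := by
        push_cast
        ring
      rw [this, ze_zero]
    rw [hW, mul_comm (ze (s : ZMod r) ^ k1 ω), hz, one_mul]
  · rw [if_neg h0, if_neg h0]
    have hA : TSym (hf r) ω := hT.resolve_left h0
    have hn2 : Odd (n / 2) := by
      rw [Nat.odd_iff]
      omega
    have hs1 : sg (s : ZMod r) = -1 := by
      rw [sg_natCast hr2, hs.neg_one_pow]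
    have hW : W2 ((-1) ^ (r / 4)) (scal n (s : ZMod r)) ω = -1 := by
      have h1 := W2_mul_scal hr2 ((-1) ^ (r / 4)) (1 : MG r n) hA (s : ZMod r)
      rw [one_mul, W2_one, one_mul, hs1, hn2.neg_one_pow] at h1
      exact h1
    have h3 : r / q / 2 = s := by
      rw [hdiv]
      omega
    have h4 : ((-1 : ℂ)) ^ (r / q / 2 * (n / 2)) = -1 := by
      rw [h3]
      exact (hs.mul hn2).neg_one_pow
    rw [hW, h4]
    ring

theorem ALG_E [NeZero n] {q : ℕ} (hr : 4 ∣ r) (hn : n % 4 = 2) (hqr : q ∣ r)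
    (hodd : Odd (r / q)) : ∃ l : MG r n → MG r n → ℂ, ALG r 2 q n l := by
  have hr2 : 2 ∣ r := Dvd.dvd.trans (by norm_num) hr
  have hr0 : r ≠ 0 := NeZero.ne r
  set s := r / q with hs
  have hrs : r = q * s := (Nat.mul_div_cancel' hqr).symm
  have h4q : 4 ∣ q := by
    have h1 : Nat.Coprime 4 s := by
      have : Nat.Coprime 2 s := Nat.coprime_two_left.mpr hodd
      exact Nat.Coprime.pow_left 2 this
    refine h1.dvd_of_dvd_mul_right ?_
    rw [← hrs]
    exact hr
  obtain ⟨m, hm⟩ := h4q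
  obtain ⟨q', hq', hq2⟩ : ∃ q', q = 2 * q' ∧ Even q' := ⟨2 * m, by omega, ⟨m, by ring⟩⟩
  have hq0 : q ≠ 0 := by
    rintro h
    rw [h, zero_mul] at hrs
    exact hr0 hrs
  have hq'2 : 2 ≤ q' := by
    obtain ⟨j, hj⟩ := hq2
    omega
  have hrq : r = 2 * q' * s := by rw [← hq']; exact hrs
  have hneven : Even n := by
    rw [Nat.even_iff]
    omega
  have hdvd : 2 * q' ∣ r := ⟨s, hrq⟩
  have hdvd' : q' ∣ r := Dvd.dvd.trans ⟨2, by ring⟩ hdvd
  have hsd : r / (2 * q') = s := by
    rw [← hq']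
  have hdiv : r / q' = 2 * s := by
    rw [hrq, mul_comm 2 q', mul_assoc, Nat.mul_div_cancel_left _ (by omega)]
  have heven2 : Even (2 * q') := ⟨q', by ring⟩
  obtain ⟨l', hl'⟩ := ALG_descent (ALG_C (n := n) hr hneven hq2 hdvd) hneven (by omega) hdvd
    (fun ω _ h => (GI_iff hq2 hdvd' ω).mpr ((GI_iff heven2 hdvd ω).mp h))
    (fun ω g hω hg hT h => by
      obtain ⟨k, hk⟩ := h
      rw [hsd] at hk
      have h1 : act g ω = scal n ((s : ZMod r) * k) * ω := (twist_eq_iff g ω _).mp hk
      have h2 := congrArg cs h1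
      rw [cs_act, cs_scal_mul] at h2
      obtain ⟨y, hy⟩ := hg
      have h3 : (n : ZMod r) * ((s : ZMod r) * k) = 4 * y := by
        have h4 := add_left_cancel h2
        rw [← h4, hy]
        push_cast
        ring
      obtain ⟨j, hj⟩ : ∃ j, n = 4 * j + 2 := ⟨n / 4, by omega⟩
      have h5 : 2 * ((s : ZMod r) * k - 2 * (y - j * ((s : ZMod r) * k))) = 0 := by
        have h6 : (n : ZMod r) = 4 * j + 2 := by
          rw [hj]
          push_cast
          ring
        rw [h6] at h3
        linear_combination h3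
      have h7 : sg ((s : ZMod r) * k) = 1 := by
        rcases (two_mul_eq_zero_iff hr2 _).mp h5 with h8 | h8
        · rw [sub_eq_zero.mp h8]
          exact sg_two_mul hr2 _
        · rw [sub_eq_iff_eq_add.mp h8, sg_add hr2, sg_two_mul hr2, mul_one, sg_hf hr2]
          obtain ⟨c, hc⟩ := hr
          have : r / 2 = 2 * c := by omega
          rw [this, pow_mul]
          norm_num
      obtain ⟨k', hk'⟩ := ALGE_even hr2 hodd h7
      refine ⟨k', ?_⟩
      rw [hk, hdiv, hk']
      congr 1
      push_cast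
      ring)
    (fun ω hω hT => by
      rw [hsd]
      have hT' := (GI_iff hq2 hdvd' ω).mp hT
      have e1 := ALGE_lC hr hn hrq hodd hq'2 hω hT'
      have hzω : scal n (s : ZMod r) * ω ∈ Gp r 2 n := by
        obtain ⟨y, hy⟩ := hω
        obtain ⟨j, hj⟩ := hneven
        refine ⟨y + j * s, ?_⟩
        have h6 : (n : ZMod r) = 2 * j := by
          rw [hj]
          push_cast
          ring
        rw [cs_scal_mul, hy, h6]
        push_cast
        ring
      have hTz : TSym 0 (scal n (s : ZMod r) * ω) ↔ TSym 0 ω := by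
        constructor
        · intro h
          have h1 := h.scal_mul (-(s : ZMod r))
          rwa [← mul_assoc, ← scal_add, neg_add_cancel, scal_zero, one_mul] at h1
        · intro h
          exact h.scal_mul _
      have hT'' : TSym 0 (scal n (s : ZMod r) * ω) ∨ TSym (hf r) (scal n (s : ZMod r) * ω) :=
        hT'.imp (fun h => h.scal_mul _) (fun h => h.scal_mul _)
      have e2 := ALGE_lC hr hn hrq hodd hq'2 hzω hT''
      have him : im (cs (scal n (s : ZMod r) * ω)) = - im (cs ω) := by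
        rw [cs_scal_mul, im_add hr]
        have h1 : (n : ZMod r) * (s : ZMod r) = ((n * s : ℕ) : ZMod r) := by push_cast; ring
        have h3 : Complex.I ^ (n * s) = -1 := by
          obtain ⟨j, hj⟩ : ∃ j, n = 2 * (2 * j + 1) := ⟨n / 4, by omega⟩
          have h4 : n * s = 2 * ((2 * j + 1) * s) := by
            rw [← mul_assoc, ← hj]
          have h2 : Odd ((2 * j + 1) * s) := (odd_two_mul_add_one j).mul hodd
          rw [h4, pow_mul, Complex.I_sq, h2.neg_one_pow]
        rw [h1, im_natCast hr, h3]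
        ring
      constructor
      · rw [e1]
        obtain ⟨y, hy⟩ := hω
        have h1 : im (cs ω) = sg y := by
          rw [hy]
          exact im_two_mul hr y
        rw [h1]
        rcases sg_cases y with h2 | h2 <;> rw [h2] <;> split_ifs <;> norm_num
      · rw [e2, e1, him]
        by_cases h0 : TSym 0 ω
        · rw [if_pos h0, if_pos (hTz.mpr h0)]
          ring
        · rw [if_neg h0, if_neg (fun h => h0 (hTz.mp h))]
          ring)
  refine ⟨l', ?_⟩
  rw [hq']
  exact hl'

end GIM119
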