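import Pool.Agent.Lib.MP_119ee3_al.Basic

set_option autoImplicit false

/-!
# MP_119ee3_al: Arithmetic of the parameters.
-/

open Classical

noncomputable section

namespace GIM119

open MG

theorem Cq_le_Gp {r p q n : ℕ} [NeZero r] (hp : p ∣ r) (hq : q ∣ r) (hpq : p * q ∣ r * n) :
    Cq r q n ≤ Gp r p n := by
  rintro g ⟨k, rfl⟩
  have hr : 0 < r := Nat.pos_of_ne_zero (NeZero.ne r)
  have hq0 : 0 < q := Nat.pos_of_dvd_of_pos hq hr
  have h1 : p ∣ r / q * n := by
    have h2 : p * q ∣ (r / q * n) * q := by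
      have h3 : (r / q * n) * q = r * n := by
        calc (r / q * n) * q = (r / q * q) * n := by ring
          _ = r * n := by rw [Nat.div_mul_cancel hq]
      rw [h3]
      exact hpq
    exact Nat.dvd_of_mul_dvd_mul_right hq0 h2
  obtain ⟨m, hm⟩ := h1
  refine ⟨(m : ZMod r) * k, ?_⟩
  have h4 : ((r / q * n : ℕ) : ZMod r) = ((p * m : ℕ) : ZMod r) := by rw [hm]
  push_cast at h4
  rw [cs_scal]
  calc (n : ZMod r) * (((r / q : ℕ) : ZMod r) * k) = (((r / q : ℕ) : ZMod r) * n) * k := by ring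
    _ = p * (m * k) := by rw [h4]; ring

theorem arith_q {r p q n : ℕ} [NeZero r] (hp : p ∣ r) (hq : q ∣ r) (hpq : p * q ∣ r * n)
    (h1 : Nat.gcd p n = 2) (h2 : Nat.gcd q n = 2) :
    Even (p * q / 2) ∧ p * q / 2 ∣ r ∧ Even n ∧ Even r ∧ (n % 4 = 0 → (p * q / 2) % 4 = 2) := by
  have hp2 : 2 ∣ p := h1 ▸ Nat.gcd_dvd_left p n
  have hq2 : 2 ∣ q := h2 ▸ Nat.gcd_dvd_left q n
  have hn2 : 2 ∣ n := h1 ▸ Nat.gcd_dvd_right p n
  obtain ⟨p', rfl⟩ := hp2
  obtain ⟨q', rfl⟩ := hq2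
  obtain ⟨n', rfl⟩ := hn2
  have hr2 : 2 ∣ r := dvd_trans (dvd_mul_right 2 p') hp
  have c1 : Nat.Coprime p' n' := by
    rw [Nat.gcd_mul_left] at h1
    exact Nat.eq_of_mul_eq_mul_left (by norm_num : 0 < 2) (by rw [h1])
  have c2 : Nat.Coprime q' n' := by
    rw [Nat.gcd_mul_left] at h2
    exact Nat.eq_of_mul_eq_mul_left (by norm_num : 0 < 2) (by rw [h2])
  have e1 : 2 * p' * (2 * q') / 2 = 2 * (p' * q') := by
    rw [show 2 * p' * (2 * q') = 2 * (2 * (p' * q')) by ring]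
    exact Nat.mul_div_cancel_left _ (by norm_num)
  have c3 : Nat.Coprime (p' * q') n' := Nat.Coprime.mul_left c1 c2
  have h3 : 2 * (p' * q') ∣ r * n' := by
    have h4 : 2 * (2 * (p' * q')) ∣ 2 * (r * n') := by
      have h5 : 2 * p' * (2 * q') = 2 * (2 * (p' * q')) := by ring
      have h6 : r * (2 * n') = 2 * (r * n') := by ring
      rw [← h5, ← h6]
      exact hpq
    exact Nat.dvd_of_mul_dvd_mul_left (by norm_num) h4
  have h4 : p' * q' ∣ r := c3.dvd_of_dvd_mul_right (dvd_trans (dvd_mul_left _ 2) h3)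
  have h5 : n' % 2 = 0 → (p' * q') % 2 = 1 := by
    intro hn'
    by_contra hcon
    have h6 : 2 ∣ p' * q' := Nat.dvd_of_mod_eq_zero (by omega)
    have h7 : 2 ∣ n' := Nat.dvd_of_mod_eq_zero hn'
    have h8 := Nat.dvd_gcd h6 h7
    rw [c3] at h8
    omega
  rw [e1]
  refine ⟨⟨p' * q', by ring⟩, ?_, ⟨n', by ring⟩, ?_, ?_⟩
  · rcases Nat.mod_two_eq_zero_or_one n' with h | h
    · have h6 := h5 h
      have h7 : Nat.Coprime 2 (p' * q') := by
        rw [Nat.coprime_two_left, Nat.odd_iff]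
        exact h6
      exact h7.mul_dvd_of_dvd_of_dvd hr2 h4
    · have h7 : Nat.Coprime 2 n' := by
        rw [Nat.coprime_two_left, Nat.odd_iff]
        exact h
      exact (Nat.Coprime.mul_left h7 c3).dvd_of_dvd_mul_right h3
  · obtain ⟨m, hm⟩ := hr2
    exact ⟨m, by omega⟩
  · intro h
    have h6 := h5 (by omega)
    omega

theorem exists_unit_shift {x y r : ℕ} (hxy : Nat.Coprime x y) (hr : 0 < r) (hy : 0 < y) :
    ∃ k : ℕ, Nat.Coprime (x + k * y) r := by
  have : NeZero (y * r) := ⟨(Nat.mul_pos hy hr).ne'⟩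
  have hd : y ∣ y * r := dvd_mul_right y r
  obtain ⟨v, hv⟩ := ZMod.unitsMap_surjective hd (ZMod.unitOfCoprime x hxy)
  have h1 : Nat.Coprime (v : ZMod (y * r)).val (y * r) := ZMod.val_coe_unit_coprime v
  have h2 : (((v : ZMod (y * r)).val : ℕ) : ZMod y) = (x : ZMod y) := by
    have h3 := congrArg (fun u : (ZMod y)ˣ => (u : ZMod y)) hv
    simp only [ZMod.unitsMap_def, Units.coe_map, ZMod.coe_unitOfCoprime] at h3
    rw [← h3]
    simp
  set a := (v : ZMod (y * r)).val with ha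
  have h3 : (((a + y * r * x : ℕ)) : ZMod y) = (x : ZMod y) := by
    push_cast
    rw [h2]
    simp
  have h4 : x ≤ a + y * r * x := by
    have h5 : 1 * x ≤ y * r * x := Nat.mul_le_mul_right x (Nat.mul_pos hy hr)
    omega
  have h5 : y ∣ (a + y * r * x) - x := by
    rw [ZMod.natCast_eq_natCast_iff] at h3
    exact (Nat.modEq_iff_dvd' h4).1 h3.symm
  obtain ⟨k, hk⟩ := h5
  refine ⟨k, ?_⟩
  have h6 : x + k * y = a + r * (y * x) := by
    have h7 : a + y * r * x = x + y * k := by omega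
    calc x + k * y = x + y * k := by ring
      _ = a + y * r * x := h7.symm
      _ = a + r * (y * x) := by ring
  rw [h6]
  have h7 : Nat.Coprime a r := Nat.Coprime.coprime_dvd_right (dvd_mul_left r y) h1
  exact (Nat.coprime_add_mul_left_left a r (y * x)).2 h7

end GIM119
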