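import Pool.Agent.Lib.MP_119ee3_al.Basic
import Pool.Agent.Lib.MP_119ee3_al.IsoArith

set_option autoImplicit false

/-!
# MP_119ee3_al: The order of the abelianization.
-/

open Classical

noncomputable section

namespace GIM119

open MG

lemma Abel_mem {r n : ℕ} (p : ℕ) {g : MG r n} (h : cs g = 0) : g ∈ Gp r p n :=
  ⟨0, by rw [h]; simp⟩

/-- membership in the commutator subgroup of `G(r,p,n)`, as a predicate on `MG r n` -/
def AbelK (r p n : ℕ) : Subgroup (MG r n) := (commutator (Gp r p n)).map (Gp r p n).subtype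

lemma Abel_comm_mem {r n : ℕ} (p : ℕ) {g h : MG r n} (hg : g ∈ Gp r p n) (hh : h ∈ Gp r p n) :
    g * h * g⁻¹ * h⁻¹ ∈ AbelK r p n := by
  refine ⟨(⟨g, hg⟩ : Gp r p n) * ⟨h, hh⟩ * (⟨g, hg⟩ : Gp r p n)⁻¹ * (⟨h, hh⟩ : Gp r p n)⁻¹,
    ?_, ?_⟩
  · exact Subgroup.commutator_mem_commutator (Subgroup.mem_top _) (Subgroup.mem_top _)
  · simp

lemma Abel_diff {r p n : ℕ} (hn : 3 ≤ n) (i j : Fin n) (hij : i ≠ j) :
    (⟨1, Pi.single i 1 - Pi.single j 1⟩ : MG r n) ∈ AbelK r p n := by
  obtain ⟨k, hk⟩ : ∃ k : Fin n, k ∉ ({i, j} : Finset (Fin n)) := by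
    by_contra hcon
    push Not at hcon
    have h1 : (Finset.univ : Finset (Fin n)) ⊆ {i, j} := fun x _ => hcon x
    have h2 := Finset.card_le_card h1
    have h3 := Finset.card_le_two (a := i) (b := j)
    rw [Finset.card_univ, Fintype.card_fin] at h2
    omega
  simp only [Finset.mem_insert, Finset.mem_singleton, not_or] at hk
  have hs : (⟨Equiv.swap i j, 0⟩ : MG r n) ∈ Gp r p n := Abel_mem p (by simp [cs])
  have hd : (⟨1, Pi.single j 1 - Pi.single k 1⟩ : MG r n) ∈ Gp r p n :=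
    Abel_mem p (by simp [cs, Finset.sum_sub_distrib])
  have := Abel_comm_mem p hs hd
  have hkj : j ≠ k := Ne.symm hk.2
  have hki : i ≠ k := Ne.symm hk.1
  convert this using 1
  ext l
  · simp
  · simp only [mul_col, inv_col, inv_perm, Pi.sub_apply, Pi.zero_apply]
    simp only [inv_one, Equiv.Perm.coe_one, id_eq, Equiv.swap_inv, neg_zero, Pi.single_apply]
    obtain rfl | h1 := eq_or_ne l i
    · simp [hij, hki, hkj]
    · obtain rfl | h2 := eq_or_ne l j
      · simp [hij, h1, hki, hkj]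
      · rw [Equiv.swap_apply_of_ne_of_ne h1 h2]
        simp [h1, h2]

lemma Abel_vec {r p n : ℕ} [NeZero r] (hn : 3 ≤ n) (v : Fin n → ZMod r) (hv : ∑ i, v i = 0) :
    (⟨1, v⟩ : MG r n) ∈ AbelK r p n := by
  let H : AddSubgroup (Fin n → ZMod r) :=
    { carrier := {w | (⟨1, w⟩ : MG r n) ∈ AbelK r p n}
      zero_mem' := (AbelK r p n).one_mem
      add_mem' := by
        intro a b ha hb
        have h1 := (AbelK r p n).mul_mem hb ha
        have h2 : (⟨1, a + b⟩ : MG r n) = ⟨1, b⟩ * ⟨1, a⟩ := by ext i <;> simp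
        change (⟨1, a + b⟩ : MG r n) ∈ AbelK r p n
        rw [h2]
        exact h1
      neg_mem' := by
        intro a ha
        have h1 := (AbelK r p n).inv_mem ha
        have h2 : (⟨1, -a⟩ : MG r n) = (⟨1, a⟩ : MG r n)⁻¹ := by ext i <;> simp
        change (⟨1, -a⟩ : MG r n) ∈ AbelK r p n
        rw [h2]
        exact h1 }
  have i0 : Fin n := ⟨0, by omega⟩
  have hd : ∀ i : Fin n, (Pi.single i 1 - Pi.single i0 1 : Fin n → ZMod r) ∈ H := by
    intro i
    by_cases hi : i = i0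
    · rw [hi, sub_self]
      exact H.zero_mem
    · exact Abel_diff hn i i0 hi
  have h1 : v = ∑ i, (v i).val • (Pi.single i 1 - Pi.single i0 1 : Fin n → ZMod r) := by
    funext j
    rw [Finset.sum_apply]
    simp only [Pi.smul_apply, Pi.sub_apply, smul_sub, Finset.sum_sub_distrib]
    have e1 : ∀ i : Fin n, (v i).val • (Pi.single i 1 : Fin n → ZMod r) j
        = if i = j then v i else 0 := by
      intro i
      by_cases hij : i = j
      · subst hij
        simp
      · simp [Ne.symm hij, hij]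
    have e2 : ∀ i : Fin n, (v i).val • (Pi.single i0 1 : Fin n → ZMod r) j
        = v i * (Pi.single i0 1 : Fin n → ZMod r) j := by
      intro i
      simp
    simp only [e1, e2]
    rw [← Finset.sum_mul, hv, zero_mul, sub_zero]
    simp
  rw [h1]
  exact H.sum_mem fun i _ => H.nsmul_mem (hd i) _

lemma Abel_even {r p n : ℕ} (σ : Equiv.Perm (Fin n)) (hσ : Equiv.Perm.sign σ = 1) :
    (⟨σ, 0⟩ : MG r n) ∈ AbelK r p n := by
  have hmem : σ ∈ Subgroup.closure {τ : Equiv.Perm (Fin n) | τ.IsThreeCycle} := by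
    rw [Equiv.Perm.closure_three_cycles_eq_alternating]
    exact Equiv.Perm.mem_alternatingGroup.2 hσ
  let H : Subgroup (Equiv.Perm (Fin n)) :=
    { carrier := {w | (⟨w, 0⟩ : MG r n) ∈ AbelK r p n}
      one_mem' := (AbelK r p n).one_mem
      mul_mem' := by
        intro a b ha hb
        have h1 := (AbelK r p n).mul_mem ha hb
        have h2 : (⟨a * b, 0⟩ : MG r n) = ⟨a, 0⟩ * ⟨b, 0⟩ := by ext i <;> simp
        change (⟨a * b, 0⟩ : MG r n) ∈ AbelK r p n
        rw [h2]
        exact h1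
      inv_mem' := by
        intro a ha
        have h1 := (AbelK r p n).inv_mem ha
        have h2 : (⟨a⁻¹, 0⟩ : MG r n) = (⟨a, 0⟩ : MG r n)⁻¹ := by ext i <;> simp
        change (⟨a⁻¹, 0⟩ : MG r n) ∈ AbelK r p n
        rw [h2]
        exact h1 }
  have hle : Subgroup.closure {τ : Equiv.Perm (Fin n) | τ.IsThreeCycle} ≤ H := by
    rw [Subgroup.closure_le]
    intro τ hτ
    have hτ' : τ.IsThreeCycle := hτ
    have h2 : (τ⁻¹).IsThreeCycle := hτ'.inv
    obtain ⟨a, ha⟩ : ∃ a, a ∈ (τ⁻¹).support := by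
      have h3 := h2.card_support
      have h4 : (τ⁻¹).support.Nonempty := Finset.card_pos.1 (by omega)
      exact h4
    have h5 := (h2.eq_swap_mul_swap_iff_mem_support).2 ha
    set b := τ⁻¹ a with hb
    set c := τ⁻¹ b with hc
    have h6 : τ = Equiv.swap a b * Equiv.swap b c * (Equiv.swap a b)⁻¹ * (Equiv.swap b c)⁻¹ := by
      rw [Equiv.swap_inv, Equiv.swap_inv, mul_assoc (Equiv.swap a b * Equiv.swap b c), ← h5]
      have h7 : τ⁻¹ ^ 3 = 1 := by
        rw [← h2.orderOf]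
        exact pow_orderOf_eq_one _
      calc τ = (τ⁻¹ ^ 3) * τ := by rw [h7, one_mul]
        _ = τ⁻¹ * τ⁻¹ := by group
    have hs1 : (⟨Equiv.swap a b, 0⟩ : MG r n) ∈ Gp r p n := Abel_mem p (by simp [cs])
    have hs2 : (⟨Equiv.swap b c, 0⟩ : MG r n) ∈ Gp r p n := Abel_mem p (by simp [cs])
    have h8 := Abel_comm_mem p hs1 hs2
    change (⟨τ, 0⟩ : MG r n) ∈ AbelK r p n
    convert h8 using 1
    refine MG.ext h6 ?_
    funext i
    simp
  exact hle hmem

lemma Abel_ker {r p n : ℕ} [NeZero r] (hn : 3 ≤ n) (g : MG r n) (h1 : Equiv.Perm.sign g.perm = 1)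
    (h2 : cs g = 0) : g ∈ AbelK r p n := by
  have h3 : g = ⟨g.perm, 0⟩ * ⟨1, g.col⟩ := by ext i <;> simp
  rw [h3]
  exact mul_mem (Abel_even _ h1) (Abel_vec hn _ h2)

theorem card_abelianization {r p q n : ℕ} [NeZero r] (hn : 3 ≤ n) (hp : p ∣ r) (hq : q ∣ r)
    (hpq : p * q ∣ r * n) :
    Nat.card (Abelianization (PRG r p q n)) * (p * q) = 2 * r * Nat.gcd q n := by
  have hr0 : r ≠ 0 := NeZero.ne r
  have hr : 0 < r := Nat.pos_of_ne_zero hr0
  have hq0 : 0 < q := Nat.pos_of_dvd_of_pos hq hr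
  let P : AddSubgroup (ZMod r) := AddSubgroup.zmultiples ((p : ℕ) : ZMod r)
  let N : AddSubgroup (ZMod r) := AddSubgroup.zmultiples ((n * (r / q) : ℕ) : ZMod r)
  have hcsP : ∀ g : Gp r p n, cs g.1 ∈ P := by
    rintro ⟨g, y, hy⟩
    refine AddSubgroup.mem_zmultiples_iff.2 ⟨(y.val : ℤ), ?_⟩
    rw [hy]
    simp [mul_comm]
  have hNP : N ≤ P := by
    rw [AddSubgroup.zmultiples_le]
    have h1 : scal n ((r / q : ℕ) : ZMod r) ∈ Cq r q n := ⟨1, by rw [mul_one]⟩
    have h2 := hcsP ⟨_, Cq_le_Gp hp hq hpq h1⟩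
    simpa using h2
  let csH : Gp r p n →* Multiplicative P :=
    { toFun := fun g => Multiplicative.ofAdd ⟨cs g.1, hcsP g⟩
      map_one' := by
        apply Multiplicative.toAdd.injective
        apply Subtype.ext
        simp
      map_mul' := by
        intro a b
        apply Multiplicative.toAdd.injective
        apply Subtype.ext
        simp }
  let f0 : Gp r p n →* ℤˣ × Multiplicative (P ⧸ N.addSubgroupOf P) :=
    MonoidHom.prod
      ((Equiv.Perm.sign).comp
        { toFun := fun g : Gp r p n => g.1.perm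
          map_one' := rfl
          map_mul' := fun _ _ => rfl })
      ((AddMonoidHom.toMultiplicative (QuotientAddGroup.mk' (N.addSubgroupOf P))).comp csH)
  have hf0 : ∀ g : Gp r p n, f0 g = 1 ↔ Equiv.Perm.sign g.1.perm = 1 ∧ cs g.1 ∈ N := by
    intro g
    rw [Prod.ext_iff]
    refine and_congr Iff.rfl ?_
    change Multiplicative.ofAdd ((QuotientAddGroup.mk' (N.addSubgroupOf P)) ⟨cs g.1, hcsP g⟩)
      = 1 ↔ _
    rw [ofAdd_eq_one]
    exact (QuotientAddGroup.eq_zero_iff _)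
  have hC : (Cq r q n).subgroupOf (Gp r p n) ≤ f0.ker := by
    rintro ⟨g, hg⟩ hgC
    rw [MonoidHom.mem_ker, hf0]
    obtain ⟨k, hk⟩ := hgC
    have hk' : g = scal n (((r / q : ℕ) : ZMod r) * k) := hk
    subst hk'
    refine ⟨by simp, ?_⟩
    refine AddSubgroup.mem_zmultiples_iff.2 ⟨(k.val : ℤ), ?_⟩
    simp
    ring
  let f : PRG r p q n →* ℤˣ × Multiplicative (P ⧸ N.addSubgroupOf P) := QuotientGroup.lift _ f0 hC
  have hfs : Function.Surjective f := by
    rintro ⟨ε, y⟩
    obtain ⟨⟨y, hy⟩, rfl⟩ := QuotientAddGroup.mk'_surjective (N.addSubgroupOf P) y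
    have i0 : Fin n := ⟨0, by omega⟩
    obtain ⟨σ, hσ⟩ : ∃ σ : Equiv.Perm (Fin n), Equiv.Perm.sign σ = ε := by
      have : Nontrivial (Fin n) := Fin.nontrivial_iff_two_le.2 (by omega)
      exact Equiv.Perm.sign_surjective _ ε
    have hcs : cs (⟨σ, Pi.single i0 y⟩ : MG r n) = y := by simp [cs]
    have hmem : (⟨σ, Pi.single i0 y⟩ : MG r n) ∈ Gp r p n := by
      obtain ⟨k, hk⟩ := AddSubgroup.mem_zmultiples_iff.1 hy
      refine ⟨(k : ZMod r), ?_⟩
      rw [hcs, ← hk]
      simp [mul_comm]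
    refine ⟨QuotientGroup.mk ⟨_, hmem⟩, ?_⟩
    change f0 ⟨_, hmem⟩ = _
    refine Prod.ext hσ ?_
    change Multiplicative.ofAdd ((QuotientAddGroup.mk' (N.addSubgroupOf P))
      ⟨cs (⟨σ, Pi.single i0 y⟩ : MG r n), hcsP ⟨_, hmem⟩⟩) = _
    have h9 : (⟨cs (⟨σ, Pi.single i0 y⟩ : MG r n), hcsP ⟨_, hmem⟩⟩ : P) = ⟨y, hy⟩ :=
      Subtype.ext hcs
    rw [h9]
    rfl
  have hker : f.ker = commutator (PRG r p q n) := by
    apply le_antisymm
    · intro x hx
      obtain ⟨g, rfl⟩ := QuotientGroup.mk_surjective x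
      have hx' : f0 g = 1 := hx
      rw [hf0] at hx'
      obtain ⟨h1, h2⟩ := hx'
      obtain ⟨k, hk⟩ := AddSubgroup.mem_zmultiples_iff.1 h2
      have hzC : scal n (((r / q : ℕ) : ZMod r) * (-(k : ZMod r))) ∈ Cq r q n := ⟨_, rfl⟩
      have hzG := Cq_le_Gp hp hq hpq hzC
      set z : Gp r p n := ⟨_, hzG⟩ with hz
      have h3 : ((g * z : Gp r p n) : MG r n) ∈ AbelK r p n := by
        apply Abel_ker hn
        · simp [hz, h1]
        · simp only [Subgroup.coe_mul, cs_mul, ← hk, hz, cs_scal]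
          simp
          ring
      obtain ⟨w, hw, hwz⟩ := h3
      have h4 : w = g * z := Subtype.ext hwz
      have h5 : (QuotientGroup.mk (g * z) : PRG r p q n) = QuotientGroup.mk g := by
        rw [QuotientGroup.eq]
        rw [Subgroup.mem_subgroupOf]
        have h7 : (((g * z)⁻¹ * g : Gp r p n) : MG r n)
            = (scal n (((r / q : ℕ) : ZMod r) * (-(k : ZMod r))))⁻¹ := by
          rw [mul_inv_rev, mul_assoc, inv_mul_cancel, mul_one]
          rfl
        rw [h7]
        exact inv_mem hzC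
      rw [← h5, ← h4]
      have h6 : (commutator (Gp r p n)).map (QuotientGroup.mk' _) ≤ commutator (PRG r p q n) := by
        rw [commutator_def, Subgroup.map_commutator, commutator_def]
        exact Subgroup.commutator_mono le_top le_top
      exact h6 ⟨w, hw, rfl⟩
    · exact Abelianization.commutator_subset_ker f
  have hcard : Nat.card (Abelianization (PRG r p q n))
      = Nat.card (ℤˣ × Multiplicative (P ⧸ N.addSubgroupOf P)) := by
    have e1 : Nat.card (Abelianization (PRG r p q n)) = (commutator (PRG r p q n)).index := rfl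
    rw [e1, ← hker, Subgroup.index_ker, MonoidHom.range_eq_top.2 hfs]
    exact Nat.card_congr Subgroup.topEquiv.toEquiv
  have hind : ∀ a : ℕ, a ∣ r → (AddSubgroup.zmultiples ((a : ℕ) : ZMod r)).index = a := by
    intro a ha
    have h1 := AddSubgroup.card_mul_index (AddSubgroup.zmultiples ((a : ℕ) : ZMod r))
    rw [Nat.card_zmultiples, ZMod.addOrderOf_coe a hr0, Nat.card_zmod,
      Nat.gcd_eq_right ha] at h1
    have ha0 : 0 < a := Nat.pos_of_dvd_of_pos ha hr
    have h2 : r / a * a = r := Nat.div_mul_cancel ha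
    have h3 : 0 < r / a := Nat.div_pos (Nat.le_of_dvd hr ha) ha0
    exact Nat.eq_of_mul_eq_mul_left h3 (h1.trans h2.symm)
  have hindN : N.index = r / q * Nat.gcd q n := by
    have h1 := AddSubgroup.card_mul_index N
    have h0 : Nat.gcd r (n * (r / q)) = r / q * Nat.gcd q n := by
      have h5 : Nat.gcd (r / q * q) (r / q * n) = r / q * Nat.gcd q n := Nat.gcd_mul_left _ _ _
      rwa [Nat.div_mul_cancel hq, mul_comm (r / q) n] at h5
    rw [Nat.card_zmultiples, ZMod.addOrderOf_coe _ hr0, Nat.card_zmod, h0] at h1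
    have hd : r / q * Nat.gcd q n ∣ r := h0 ▸ Nat.gcd_dvd_left _ _
    have h2 := Nat.div_mul_cancel hd
    have h3 : 0 < r / (r / q * Nat.gcd q n) :=
      Nat.div_pos (Nat.le_of_dvd hr hd) (Nat.pos_of_dvd_of_pos hd hr)
    exact Nat.eq_of_mul_eq_mul_left h3 (h1.trans h2.symm)
  have hrel : N.relIndex P * p = r / q * Nat.gcd q n := by
    rw [← hindN, ← AddSubgroup.relIndex_mul_index hNP, hind p hp]
  rw [hcard, Nat.card_prod]
  have h2 : Nat.card ℤˣ = 2 := by simp
  have h3 : Nat.card (Multiplicative (P ⧸ N.addSubgroupOf P)) = N.relIndex P := rfl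
  rw [h2, h3]
  calc 2 * N.relIndex P * (p * q) = 2 * (N.relIndex P * p) * q := by ring
    _ = 2 * (r / q * Nat.gcd q n) * q := by rw [hrel]
    _ = 2 * (r / q * q) * Nat.gcd q n := by ring
    _ = 2 * r * Nat.gcd q n := by rw [Nat.div_mul_cancel hq]

end GIM119
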