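import Pool.Agent.Lib.MP_119ee3_al.Defs

set_option autoImplicit false

/-!
# MP_119ee3_al: basic lemmas on the twisted action
-/

open Classical

noncomputable section

namespace GIM119

open MG

variable {r n : ℕ}

@[simp] lemma act_perm (g ω : MG r n) : (act g ω).perm = g.perm * ω.perm * g.perm⁻¹ := rfl

lemma act_perm_apply (g ω : MG r n) (i : Fin n) :
    (act g ω).perm (g.perm i) = g.perm (ω.perm i) := by
  simp

/-- The colours of `g ω gᵀ`. -/
lemma act_col (g ω : MG r n) (i : Fin n) :
    (act g ω).col (g.perm i) = g.col i + ω.col i + g.col (ω.perm i) := by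
  simp [act]
  ring

lemma act_one (ω : MG r n) : act 1 ω = ω := by simp [act]

lemma act_mul (g h ω : MG r n) : act (g * h) ω = act g (act h ω) := by
  simp only [act, map_mul, mul_inv_rev]
  group

lemma act_inv_act (g ω : MG r n) : act g⁻¹ (act g ω) = ω := by
  rw [← act_mul, inv_mul_cancel, act_one]

lemma act_act_inv (g ω : MG r n) : act g (act g⁻¹ ω) = ω := by
  rw [← act_mul, mul_inv_cancel, act_one]

/-- Elements are determined by the permutation and the colours at the points `g.perm i`. -/
lemma ext_perm {ω ω' : MG r n} (g : MG r n) (hp : ω.perm = ω'.perm)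
    (hc : ∀ i, ω.col (g.perm i) = ω'.col (g.perm i)) : ω = ω' := by
  ext i
  · rw [hp]
  · have := hc (g.perm⁻¹ i)
    simpa using this

lemma scal_mul_perm (e : ZMod r) (ω : MG r n) : (scal n e * ω).perm = ω.perm := by
  simp

lemma scal_mul_col (e : ZMod r) (ω : MG r n) (i : Fin n) :
    (scal n e * ω).col i = ω.col i + e := by
  simp

lemma scal_zero : scal n (0 : ZMod r) = 1 := by
  ext i <;> simp

lemma scal_add (e e' : ZMod r) : scal n (e + e') = scal n e * scal n e' := by
  ext i
  · simp
  · simp [add_comm]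

lemma scal_inv (e : ZMod r) : (scal n e)⁻¹ = scal n (-e) := by
  ext i <;> simp

lemma scal_inj [NeZero n] {e e' : ZMod r} (h : scal n e = scal n e') : e = e' := by
  have := congrArg (fun g : MG r n => g.col 0) h
  simpa using this

lemma scal_mul_inj [NeZero n] {e e' : ZMod r} {ω : MG r n}
    (h : scal n e * ω = scal n e' * ω) : e = e' :=
  scal_inj (mul_right_cancel h)

lemma act_scal_mul (e : ZMod r) (g ω : MG r n) :
    act g (scal n e * ω) = scal n e * act g ω := by
  simp only [act]
  rw [← mul_assoc g, ← scal_comm]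
  simp only [mul_assoc]

lemma act_mul_scal (e : ZMod r) (g ω : MG r n) :
    act (g * scal n e) ω = scal n (2 * e) * act g ω := by
  refine ext_perm g ?_ fun i => ?_
  · simp
  · have h1 : (g * scal n e).perm i = g.perm i := by simp
    have h2 := act_col (g * scal n e) ω i
    rw [h1] at h2
    rw [h2, scal_mul_col, act_col]
    simp
    ring

lemma cs_act (g ω : MG r n) : cs (act g ω) = cs ω + 2 * cs g := by
  simp [act]
  ring

lemma cs_scal_mul (e : ZMod r) (ω : MG r n) : cs (scal n e * ω) = cs ω + n * e := by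
  simp
  ring

lemma TSym.act {e : ZMod r} {ω : MG r n} (hω : TSym e ω) (g : MG r n) :
    TSym e (act g ω) := by
  constructor
  · intro i
    obtain ⟨j, rfl⟩ := g.perm.surjective i
    rw [act_perm_apply, act_perm_apply, hω.1 j]
  · intro i
    obtain ⟨j, rfl⟩ := g.perm.surjective i
    rw [act_perm_apply, act_col, act_col, hω.1 j, hω.2 j]
    ring

lemma TSym.scal_mul {e : ZMod r} {ω : MG r n} (hω : TSym e ω) (c : ZMod r) :
    TSym e (scal n c * ω) := by
  constructor
  · intro i
    simpa using hω.1 i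
  · intro i
    have h := hω.2 i
    simp only [scal_mul_perm, scal_mul_col, h]
    ring

lemma TSym_iff (e : ZMod r) (ω : MG r n) : TSym e ω ↔ ω * tau r n ω = scal n e := by
  constructor
  · intro h
    ext i
    · simp [h.1 i]
    · have h2 := h.2 i
      simp [h2]
  · intro h
    constructor
    · intro i
      have := congrArg (fun g : MG r n => g.perm i) h
      simpa using this
    · intro i
      have h4 := congrArg (fun g : MG r n => g.col i) h
      simp only [mul_col, tau_col, tau_perm, scal_col] at h4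
      rw [← h4]
      ring

/-- The twisted stabilizer condition modulo scalars. -/
lemma twist_eq_iff (g ω z : MG r n) : g * ω * (tau r n g)⁻¹ * ω⁻¹ = z ↔ act g ω = z * ω := by
  rw [mul_inv_eq_iff_eq_mul]
  rfl

lemma act_scal (e : ZMod r) (ω : MG r n) : act (scal n e) ω = scal n (2 * e) * ω := by
  have h := act_mul_scal e 1 ω
  rwa [one_mul, act_one] at h

/-! ### Further definitions -/

/-- Shift of the colours on `T`. -/
def shiftS (T : Finset (Fin n)) (c : ZMod r) (x : Str r n) : Str r n :=
  (x.1, fun i => if i ∈ T then x.2 i + c else x.2 i)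

abbrev phiS (θ : ZMod r → ℂ) (g : MG r n) : Wt r n := fun i j b c => im b * phi1 θ g i j b c
abbrev phiA (κ : ℂ) (g : MG r n) : Wt r n := fun i j b c => im b * phi2 κ g i j b c
abbrev phiM (κ : ℂ) (g : MG r n) : Wt r n := fun i j b c => phi1 sg g i j b c * (phiT κ i j b c)⁻¹
abbrev phiN (κ κ' : ℂ) (g : MG r n) : Wt r n :=
  fun i j b c => phi2 κ g i j b c * (phiT κ' i j b c)⁻¹
abbrev phi0 : Wt r n := fun _ _ _ _ => 1
abbrev phiY : Wt r n := fun _ _ b _ => sg b

/-- If `act g ω = scal e * ω` then `eo n g ω = e`. -/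
def eo (n : ℕ) {r : ℕ} [NeZero n] (g ω : MG r n) : ZMod r := (act g ω).col 0 - ω.col 0

lemma eo_eq [NeZero n] {g ω : MG r n} {e : ZMod r} (h : act g ω = scal n e * ω) :
    eo n g ω = e := by
  rw [eo, h, scal_mul_col]
  ring

/-- The family for `4 ∣ r`, `2 q ∣ r`. -/
def lC [NeZero n] (q : ℕ) (g ω : MG r n) : ℂ :=
  if TSym 0 ω then
    W1 ze g ω * ze (-((k1 ω / 2 : ℕ) : ZMod r) * eo n g ω) * im (cs ω) ^ ((eo n g ω).val / (r / q))
  else
    W2 ((-1) ^ (r / 4)) g ω *
      ((-1) ^ (r / q / 2 * (n / 2)) * (-1) * im (cs ω)) ^ ((eo n g ω).val / (r / q))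

/-- The family for `r ≡ 2 mod 4`. -/
def lB [NeZero n] (g ω : MG r n) : ℂ :=
  if TSym 0 ω then W1 sg g ω * (if sg (eo n g ω) = 1 then 1 else (TT Complex.I ω)⁻¹)
  else W2 (-Complex.I) g ω * (if sg (eo n g ω) = 1 then 1 else -(TT Complex.I ω)⁻¹)

end GIM119
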