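import Pool.Agent.Lib.MP_119ee3_al.Basic

set_option autoImplicit false

/-!
# MP_119ee3_al: families for gcd 1 and the groups with n = 2
-/

open Classical

noncomputable section

namespace GIM119

open MG

variable {r n : ℕ}

/-- The family for `r` odd. -/
def lA (g ω : MG r n) : ℂ := W1 (fun _ => 1) g ω

/-- The family for `r` even, `q` odd. -/
def lF [NeZero n] (q : ℕ) (g ω : MG r n) : ℂ :=
  W1 ze g ω * ze (-((((q + 1) / 2) * k1 ω : ℕ) : ZMod r) * eo n g ω)

/-- The multiple of `ω` with an even number of odd fixed points. -/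
def st (ω : MG r n) : MG r n := if sg (cs ω) = 1 then ω else scal n 1 * ω

/-- The family for `r` even, `q` even, `n` odd. -/
def lD [NeZero n] (q : ℕ) (g ω : MG r n) : ℂ :=
  W1 ze g (st ω) * ze (-((k1 (st ω) / 2 : ℕ) : ZMod r) * eo n g ω) *
    sg (cs ω) ^ ((eo n g ω).val / (r / q))

/-! ### The groups `D_r × C_m` -/

/-- The automorphism of the dihedral group inverting rotations and fixing `sr 0`. -/
def tauDih (r : ℕ) : DihedralGroup r ≃* DihedralGroup r where
  toFun
    | .r i => .r (-i)
    | .sr i => .sr (-i)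
  invFun
    | .r i => .r (-i)
    | .sr i => .sr (-i)
  left_inv := by rintro (i | i) <;> simp
  right_inv := by rintro (i | i) <;> simp
  map_mul' := by
    rintro (i | i) (j | j)
    · simp [add_comm]
    · simp
      ring
    · simp
      ring
    · simp
      ring

@[simp] lemma tauDih_r {r : ℕ} (i : ZMod r) :
    tauDih r (DihedralGroup.r i) = DihedralGroup.r (-i) := rfl
@[simp] lemma tauDih_sr {r : ℕ} (i : ZMod r) :
    tauDih r (DihedralGroup.sr i) = DihedralGroup.sr (-i) := rfl

/-- The group `D_r × C_m`. -/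
abbrev DZ (r m : ℕ) : Type := DihedralGroup r × Multiplicative (ZMod m)

/-- The automorphism of `D_r × C_m` inverting all `(r i, z)` and fixing `(sr 0, 1)`. -/
def tauDZ (r m : ℕ) : DZ r m ≃* DZ r m :=
  MulEquiv.prodCongr (tauDih r) (MulEquiv.inv (Multiplicative (ZMod m)))

@[simp] lemma tauDZ_apply {r m : ℕ} (x : DZ r m) :
    tauDZ r m x = (tauDih r x.1, x.2⁻¹) := rfl

/-- The family for `D_r × C_m`, `r` even, `m` odd. -/
def lDZ {r m : ℕ} (g ω : DZ r m) : ℂ :=
  match ω.1, g.1 with
  | .r i, .r j => if sg i = 1 then 1 else if j = 0 then 1 else -1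
  | .r i, .sr j => if sg i = 1 then 1 else if j = -i then 1 else -1
  | .sr i, .r j => if i = 0 then 1 else sg j
  | .sr i, .sr j => if i = 0 then -1 else - sg (j + hf r)

end GIM119
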