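import Pool.Agent.Lib.MP_119ee3_al.Basic2

set_option autoImplicit false

/-!
# MP_119ee3_al: The cocycle of flips for every r.
-/

open Classical

noncomputable section

namespace GIM119

open MG

variable {r n : ℕ} [NeZero r]

omit [NeZero r] in
theorem CocOdd_prod {s : Fin n → Fin n} (hs : ∀ i, s (s i) = i) (A B : Fin n → ℂ)
    (hfix : ∀ i, s i = i → A i = B i) (hB : ∀ i, s i ≠ i → B i ≠ 0)
    (hpair : ∀ i, s i ≠ i → A i * A (s i) = B i * B (s i)) : ∏ i, A i = ∏ i, B i := by
  have h1 : ∀ i, A i = B i * (if s i = i then 1 else A i / B i) := by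
    intro i
    split_ifs with h
    · rw [mul_one, hfix i h]
    · rw [mul_div_cancel₀ _ (hB i h)]
  have h2 : ∏ i, (if s i = i then (1 : ℂ) else A i / B i) = 1 := by
    refine Finset.prod_involution (fun i _ => s i) ?_ ?_ (fun i _ => Finset.mem_univ _)
      (fun i _ => hs i)
    · intro i _
      by_cases h : s i = i
      · simp [h]
      · have h' : ¬ i = s i := fun h2 => h h2.symm
        rw [if_neg h, hs i, if_neg h']
        have hB1 := hB i h
        have hB2 := hB (s i) (by rw [hs i]; exact h')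
        rw [div_mul_div_comm, hpair i h, div_self (mul_ne_zero hB1 hB2)]
    · intro i _ h1 h2
      rw [if_pos h2] at h1
      exact h1 rfl
  calc ∏ i, A i = ∏ i, B i * (if s i = i then 1 else A i / B i) :=
        Finset.prod_congr rfl fun i _ => h1 i
    _ = _ := by rw [Finset.prod_mul_distrib, h2, mul_one]

omit [NeZero r] in
theorem CocOdd_reindex (φ : Wt r n) (h ω : MG r n) :
    prodW φ (act h ω) = ∏ i, φ (h.perm i) (h.perm (ω.perm i))
      (h.col i + ω.col i + h.col (ω.perm i))
      ((act h ω).col (h.perm (ω.perm i))) := by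
  unfold prodW
  rw [← Equiv.prod_comp h.perm]
  refine Finset.prod_congr rfl fun i _ => ?_
  rw [act_perm_apply, act_col]

omit [NeZero r] in
theorem CocOdd_flip (g h : MG r n) {i j : Fin n} (hij : i ≠ j) :
    (if i < j ∧ (g * h).perm j < (g * h).perm i then (-1 : ℂ) else 1) *
        (if j < i ∧ (g * h).perm i < (g * h).perm j then (-1 : ℂ) else 1) =
      ((if h.perm i < h.perm j ∧ g.perm (h.perm j) < g.perm (h.perm i) then (-1 : ℂ) else 1) *
        (if i < j ∧ h.perm j < h.perm i then (-1 : ℂ) else 1)) *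
      ((if h.perm j < h.perm i ∧ g.perm (h.perm i) < g.perm (h.perm j) then (-1 : ℂ) else 1) *
        (if j < i ∧ h.perm i < h.perm j then (-1 : ℂ) else 1)) := by
  have h1 : h.perm i ≠ h.perm j := fun e => hij (h.perm.injective e)
  have h2 : g.perm (h.perm i) ≠ g.perm (h.perm j) := fun e => h1 (g.perm.injective e)
  simp only [mul_perm, Equiv.Perm.mul_apply]
  rcases lt_or_gt_of_ne hij with a | a <;> rcases lt_or_gt_of_ne h1 with b | b <;>
    rcases lt_or_gt_of_ne h2 with c | c <;>
    simp [a, b, c, not_lt_of_gt a, not_lt_of_gt b, not_lt_of_gt c]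

theorem W1o_mul (g h : MG r n) {ω : MG r n} (hω : TSym 0 ω) :
    W1 (fun _ => 1) (g * h) ω = W1 (fun _ => 1) g (act h ω) * W1 (fun _ => 1) h ω := by
  unfold W1
  rw [CocOdd_reindex, prodW, prodW, ← Finset.prod_mul_distrib]
  refine CocOdd_prod hω.1 _ _ (fun i hi => ?_) (fun i hi => ?_) (fun i hi => ?_)
  · simp only [phi1, hi, if_true, ite_self, mul_one]
  · have hi' : h.perm (ω.perm i) ≠ h.perm i := fun e => hi (h.perm.injective e)
    simp only [phi1, if_neg hi, if_neg hi']
    split_ifs <;> norm_num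
  · have hi' : h.perm (ω.perm i) ≠ h.perm i := fun e => hi (h.perm.injective e)
    have hi2 : ¬ i = ω.perm i := fun e => hi e.symm
    have hi3 : ¬ h.perm i = h.perm (ω.perm i) := fun e => hi' e.symm
    simp only [phi1, hω.1 i, if_neg hi, if_neg hi', if_neg hi2, if_neg hi3]
    exact CocOdd_flip g h hi2

theorem W1o_scal_left (g ω : MG r n) (e : ZMod r) :
    W1 (fun _ => 1) g (scal n e * ω) = W1 (fun _ => 1) g ω := by
  unfold W1 prodW
  refine Finset.prod_congr rfl fun i _ => ?_
  rw [scal_mul_perm]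
  simp only [phi1, ite_self]

theorem W1o_mul_scal (g ω : MG r n) (e : ZMod r) :
    W1 (fun _ => 1) (g * scal n e) ω = W1 (fun _ => 1) g ω := by
  unfold W1 prodW
  refine Finset.prod_congr rfl fun i _ => ?_
  have hp : ∀ j, (g * scal n e).perm j = g.perm j := fun j => by simp
  simp only [phi1, hp]

theorem W1o_one (ω : MG r n) : W1 (fun _ => 1) (1 : MG r n) ω = 1 := by
  unfold W1 prodW
  refine Finset.prod_eq_one fun i _ => ?_
  have h3 : ¬ (i < ω.perm i ∧ ω.perm i < i) := fun h => absurd h.1 (not_lt_of_gt h.2)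
  simp only [phi1, one_perm, Equiv.Perm.one_apply, h3, ite_self, if_false]

end GIM119
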