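import Pool.Agent.Lib.MP_119ee3_al.Basic

set_option autoImplicit false

/-!
# MP_119ee3_al: Completeness of the irreducible characters.
-/

open Classical

noncomputable section

namespace GIM119

open MG

variable {G : Type*} [Group G] [Fintype G]

section Aux

/-- transport of a representation along a linear equivalence -/
private def Comp_tr {V W : Type*} [AddCommGroup V] [Module ℂ V] [AddCommGroup W] [Module ℂ W]
    (σ : Representation ℂ G V) (e : V ≃ₗ[ℂ] W) : Representation ℂ G W where
  toFun g := e.toLinearMap ∘ₗ σ g ∘ₗ e.symm.toLinearMap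
  map_one' := by ext; simp
  map_mul' g h := by ext; simp

variable {V : Type*} [AddCommGroup V] [Module ℂ V]

omit [Fintype G] in
private theorem Comp_tr_irr {W : Type*} [AddCommGroup W] [Module ℂ W]
    (σ : Representation ℂ G V) (e : V ≃ₗ[ℂ] W) (h : σ.IsIrreducible) :
    (Comp_tr σ e).IsIrreducible := by
  let F : Subrepresentation (Comp_tr σ e) ≃o Subrepresentation σ :=
    { toFun := fun W => ⟨W.toSubmodule.comap e.toLinearMap, fun g v hv => by
        have := W.apply_mem_toSubmodule g hv
        simpa [Comp_tr] using this⟩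
      invFun := fun W => ⟨W.toSubmodule.map e.toLinearMap, fun g v hv => by
        obtain ⟨u, hu, rfl⟩ := hv
        refine ⟨σ g u, W.apply_mem_toSubmodule g hu, ?_⟩
        simp [Comp_tr]⟩
      left_inv := fun W => by
        apply Subrepresentation.toSubmodule_injective
        exact Submodule.map_comap_eq_of_surjective e.surjective _
      right_inv := fun W => by
        apply Subrepresentation.toSubmodule_injective
        exact Submodule.comap_map_eq_of_injective e.injective _
      map_rel_iff' := by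
        intro W W'
        exact Submodule.comap_le_comap_iff_of_surjective e.surjective }
  exact F.isSimpleOrder

omit [Fintype G] in
private theorem Comp_tr_char {W : Type*} [AddCommGroup W] [Module ℂ W]
    (σ : Representation ℂ G V) (e : V ≃ₗ[ℂ] W) (g : G) :
    (Comp_tr σ e).character g = σ.character g := by
  have := Representation.char_iso (ρ := σ) (σ := Comp_tr σ e)
    (Representation.Equiv.mk e (fun g => by ext v; simp [Comp_tr]))
  rw [this]

/-- the action of the group algebra element of `f` -/
private def Comp_z (f : G → ℂ) (σ : Representation ℂ G V) : Module.End ℂ V :=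
  ∑ g, f g • σ g⁻¹

private theorem Comp_z_apply (f : G → ℂ) (σ : Representation ℂ G V) (v : V) :
    Comp_z f σ v = ∑ g, f g • σ g⁻¹ v := by
  simp [Comp_z, LinearMap.sum_apply]

private theorem Comp_z_comm {f : G → ℂ} (hf : ∀ g h, f (h * g * h⁻¹) = f g)
    (σ : Representation ℂ G V) (h : G) (v : V) :
    Comp_z f σ (σ h v) = σ h (Comp_z f σ v) := by
  rw [Comp_z_apply, Comp_z_apply, map_sum]
  refine Finset.sum_equiv (MulAut.conj h⁻¹).toEquiv (by simp) fun g _ => ?_
  have e1 : f ((MulAut.conj h⁻¹).toEquiv g) = f g := hf g h⁻¹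
  rw [map_smul, e1]
  congr 1
  have e2 : σ h (σ ((MulAut.conj h⁻¹).toEquiv g)⁻¹ v) = (σ h * σ ((MulAut.conj h⁻¹).toEquiv g)⁻¹) v :=
    rfl
  have e3 : σ g⁻¹ (σ h v) = (σ g⁻¹ * σ h) v := rfl
  rw [e2, e3, ← map_mul, ← map_mul]
  congr 2
  show g⁻¹ * h = h * (h⁻¹ * g * h⁻¹⁻¹)⁻¹
  group

/-- Schur: the operator vanishes on irreducible representations -/
private theorem Comp_z_irr {f : G → ℂ} (hf : ∀ g h, f (h * g * h⁻¹) = f g)
    (horth : ∀ (m : ℕ) (ρ : Representation ℂ G (Fin m → ℂ)), ρ.IsIrreducible →
      ∑ g, f g * ρ.character g⁻¹ = 0) [FiniteDimensional ℂ V]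
    (σ : Representation ℂ G V) (hσ : σ.IsIrreducible) (v : V) : Comp_z f σ v = 0 := by
  have hnt : Nontrivial V := by
    by_contra hn
    rw [not_nontrivial_iff_subsingleton] at hn
    have h1 : (⊥ : Subrepresentation σ) = ⊤ := by
      apply Subrepresentation.toSubmodule_injective
      exact Subsingleton.elim _ _
    exact bot_ne_top h1
  obtain ⟨c, hc⟩ := Module.End.exists_eigenvalue (Comp_z f σ)
  let W : Subrepresentation σ := ⟨Module.End.eigenspace (Comp_z f σ) c, fun g w hw => by
    rw [Module.End.mem_eigenspace_iff] at hw ⊢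
    rw [Comp_z_comm hf, hw, map_smul]⟩
  have hW : ∀ w, Comp_z f σ w = c • w := by
    rcases eq_bot_or_eq_top W with h1 | h1
    · exfalso
      exact hc (congrArg Subrepresentation.toSubmodule h1)
    · intro w
      rw [← Module.End.mem_eigenspace_iff]
      have : W.toSubmodule = ⊤ := congrArg Subrepresentation.toSubmodule h1
      show w ∈ W.toSubmodule
      rw [this]
      exact Submodule.mem_top
  have htr : LinearMap.trace ℂ V (Comp_z f σ) = 0 := by
    have e := Module.finBasis ℂ V
    have h1 := horth _ (Comp_tr σ e.equivFun) (Comp_tr_irr σ _ hσ)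
    rw [Comp_z, map_sum, ← h1]
    refine Finset.sum_congr rfl fun g _ => ?_
    rw [map_smul, smul_eq_mul, Comp_tr_char]
    rfl
  have h2 : Comp_z f σ = c • (1 : Module.End ℂ V) := by
    ext w
    rw [hW w]
    rfl
  rw [h2, map_smul, LinearMap.trace_one, smul_eq_mul] at htr
  have h3 : (Module.finrank ℂ V : ℂ) ≠ 0 := by
    exact_mod_cast (Module.finrank_pos (R := ℂ) (M := V)).ne'
  have h4 : c = 0 := (mul_eq_zero.1 htr).resolve_right h3
  rw [hW v, h4, zero_smul]

private theorem Comp_z_all {f : G → ℂ} (hf : ∀ g h, f (h * g * h⁻¹) = f g)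
    (horth : ∀ (m : ℕ) (ρ : Representation ℂ G (Fin m → ℂ)), ρ.IsIrreducible →
      ∑ g, f g * ρ.character g⁻¹ = 0) (n : ℕ) :
    ∀ (V : Type*) [AddCommGroup V] [Module ℂ V] [FiniteDimensional ℂ V]
      (σ : Representation ℂ G V), Module.finrank ℂ V ≤ n → ∀ v : V, Comp_z f σ v = 0 := by
  induction n with
  | zero =>
    intro V _ _ _ σ hn v
    have : Subsingleton V := Module.finrank_zero_iff.1 (Nat.le_zero.1 hn)
    exact Subsingleton.elim _ _
  | succ n ih =>
    intro V _ _ _ σ hn v
    by_cases hirr : σ.IsIrreducible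
    · exact Comp_z_irr hf horth σ hirr v
    by_cases hV : Subsingleton V
    · exact Subsingleton.elim _ _
    rw [not_subsingleton_iff_nontrivial] at hV
    have hnt : Nontrivial (Subrepresentation σ) := by
      refine ⟨⊥, ⊤, fun h => ?_⟩
      exact bot_ne_top (α := Submodule ℂ V) (congrArg Subrepresentation.toSubmodule h)
    obtain ⟨W, hW0, hW1⟩ : ∃ W : Subrepresentation σ, W ≠ ⊥ ∧ W ≠ ⊤ := by
      by_contra hcon
      push Not at hcon
      exact hirr ⟨fun W => by
        by_cases h : W = ⊥
        · exact Or.inl h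
        · exact Or.inr (hcon W h)⟩
    obtain ⟨W', hc⟩ := exists_isCompl W
    have hsub : IsCompl W.toSubmodule W'.toSubmodule := by
      refine ⟨disjoint_iff.2 ?_, codisjoint_iff.2 ?_⟩
      · exact congrArg Subrepresentation.toSubmodule (disjoint_iff.1 hc.1)
      · exact congrArg Subrepresentation.toSubmodule (codisjoint_iff.1 hc.2)
    have hsum := Submodule.finrank_add_eq_of_isCompl hsub
    have h0 : Module.finrank ℂ W.toSubmodule ≠ 0 := fun h =>
      hW0 (Subrepresentation.toSubmodule_injective (Submodule.finrank_eq_zero.1 h))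
    have h1 : Module.finrank ℂ W'.toSubmodule ≠ 0 := fun h => by
      have h2 : Module.finrank ℂ W.toSubmodule = Module.finrank ℂ V := by omega
      exact hW1 (Subrepresentation.toSubmodule_injective (Submodule.eq_top_of_finrank_eq h2))
    have key : ∀ (U : Subrepresentation σ), Module.finrank ℂ U.toSubmodule ≤ n →
        ∀ u ∈ U.toSubmodule, Comp_z f σ u = 0 := by
      intro U hU u hu
      have h2 := ih U.toSubmodule U.toRepresentation hU ⟨u, hu⟩
      rw [Comp_z_apply] at h2
      have h3 := congrArg U.toSubmodule.subtype h2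
      rw [map_sum, map_zero] at h3
      rw [Comp_z_apply, ← h3]
      rfl
    obtain ⟨a, ha, b, hb, rfl⟩ : ∃ a ∈ W.toSubmodule, ∃ b ∈ W'.toSubmodule, a + b = v := by
      rw [← Submodule.mem_sup, codisjoint_iff.1 hsub.2]
      exact Submodule.mem_top
    rw [map_add, key W (by omega) a ha, key W' (by omega) b hb, add_zero]

/-- the regular representation on functions -/
private def Comp_reg : Representation ℂ G (G → ℂ) where
  toFun h := { toFun := fun φ x => φ (h⁻¹ * x)
               map_add' := fun _ _ => rfl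
               map_smul' := fun _ _ => rfl }
  map_one' := by
    apply LinearMap.ext
    intro φ
    funext x
    show φ (1⁻¹ * x) = φ x
    rw [inv_one, one_mul]
  map_mul' g h := by
    apply LinearMap.ext
    intro φ
    funext x
    show φ ((g * h)⁻¹ * x) = φ (h⁻¹ * (g⁻¹ * x))
    rw [mul_inv_rev, mul_assoc]

end Aux

theorem eq_zero_of_orthogonal {f : G → ℂ} (hf : ∀ g h, f (h * g * h⁻¹) = f g)
    (horth : ∀ (m : ℕ) (ρ : Representation ℂ G (Fin m → ℂ)), ρ.IsIrreducible →
      ∑ g, f g * ρ.character g⁻¹ = 0) : f = 0 := by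
  funext h
  have h1 := Comp_z_all hf horth _ (G → ℂ) Comp_reg le_rfl (Pi.single 1 1)
  have h2 := congrFun h1 h⁻¹
  rw [Comp_z_apply, Finset.sum_apply] at h2
  rw [Pi.zero_apply] at h2 ⊢
  rw [← h2, Finset.sum_eq_single h]
  · show f h = f h * (Pi.single 1 1 : G → ℂ) (h⁻¹⁻¹ * h⁻¹)
    rw [inv_inv, mul_inv_cancel, Pi.single_eq_same, mul_one]
  · intro g _ hg
    show f g * (Pi.single 1 1 : G → ℂ) (g⁻¹⁻¹ * h⁻¹) = 0
    rw [inv_inv, Pi.single_eq_of_ne, mul_zero]
    intro h3
    exact hg (mul_inv_eq_one.1 h3)
  · intro h3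
    exact absurd (Finset.mem_univ h) h3

end GIM119
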