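import Pool.Agent.Lib.MP_119ee3_al.Basic2
import Pool.Agent.Lib.MP_119ee3_al.Chars

set_option autoImplicit false

/-!
# MP_119ee3_al: The family for D_r x C_m.
-/

open Classical

noncomputable section

namespace GIM119

open MG

variable {r m : ℕ} [NeZero r] [NeZero m]

omit [NeZero m] in
theorem DZFam_sq (hm : Odd m) (y : Multiplicative (ZMod m)) : y * y = 1 ↔ y = 1 := by
  constructor
  · intro h
    obtain ⟨k, hk⟩ := hm
    have h1 : y ^ (2 * k + 1) = 1 := by
      rw [← hk]
      have h2 : m • Multiplicative.toAdd y = 0 := by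
        rw [nsmul_eq_mul, ZMod.natCast_self, zero_mul]
      exact h2
    rw [pow_add, pow_mul, pow_two, h, one_pow, one_mul, pow_one] at h1
    exact h1
  · rintro rfl
    simp

theorem DZFam_sum_dih (f : DihedralGroup r → ℂ) :
    ∑ a, f a = ∑ i, f (DihedralGroup.r i) + ∑ i, f (DihedralGroup.sr i) := by
  let e : ZMod r ⊕ ZMod r ≃ DihedralGroup r :=
    { toFun := fun x => Sum.elim DihedralGroup.r DihedralGroup.sr x
      invFun := fun a => match a with
        | .r i => Sum.inl i
        | .sr i => Sum.inr i
      left_inv := by rintro (i | i) <;> rfl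
      right_inv := by rintro (i | i) <;> rfl }
  rw [← Equiv.sum_comp e f, Fintype.sum_sum_type]
  rfl

/-- The first component of the family. -/
def DZFam_l (a b : DihedralGroup r) : ℂ :=
  match b, a with
  | .r i, .r j => if sg i = 1 then 1 else if j = 0 then 1 else -1
  | .r i, .sr j => if sg i = 1 then 1 else if j = -i then 1 else -1
  | .sr i, .r j => if i = 0 then 1 else sg j
  | .sr i, .sr j => if i = 0 then -1 else - sg (j + hf r)

/-- The first component of the stabilizer condition. -/
def DZFam_c (a b : DihedralGroup r) : Prop :=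
  match b, a with
  | .r _, .r j => 2 * j = 0
  | .r i, .sr j => 2 * (i + j) = 0
  | .sr i, .r _ => 2 * i = 0
  | .sr i, .sr _ => 2 * i = 0

omit [NeZero r] [NeZero m] in
theorem DZFam_lDZ (g ω : DZ r m) : lDZ g ω = DZFam_l g.1 ω.1 := by
  obtain ⟨a | a, y⟩ := g <;> obtain ⟨b | b, z⟩ := ω <;> rfl

omit [NeZero r] [NeZero m] in
theorem DZFam_inv (b : DihedralGroup r) (z : Multiplicative (ZMod m)) :
    (tauDZ r m (b, z) = (b, z)⁻¹) ↔ tauDih r b = b⁻¹ := by
  rw [tauDZ_apply, Prod.ext_iff]
  constructor
  · intro h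
    exact h.1
  · intro h
    exact ⟨h, rfl⟩

omit [NeZero r] [NeZero m] in
theorem DZFam_stab (hm : Odd m) (a b : DihedralGroup r) (y z : Multiplicative (ZMod m)) :
    ((a, y) ∈ tstab (tauDZ r m) (b, z)) ↔ (a * b * (tauDih r a)⁻¹ = b ∧ y = 1) := by
  rw [mem_tstab, tauDZ_apply, Prod.ext_iff]
  have h : (y * z * (y⁻¹)⁻¹ = z) ↔ y = 1 := by
    rw [← DZFam_sq hm y, inv_inv, mul_right_comm]
    exact mul_eq_right
  exact and_congr Iff.rfl h

omit [NeZero r] in
theorem DZFam_two_mul (x : ZMod r) : 2 * x = 0 ↔ -x = x := by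
  rw [two_mul, neg_eq_iff_add_eq_zero]

omit [NeZero r] in
theorem DZFam_cond (a b : DihedralGroup r) :
    (tauDih r b = b⁻¹ ∧ a * b * (tauDih r a)⁻¹ = b) ↔ DZFam_c a b := by
  rcases a with j | j <;> rcases b with i | i
  · simp only [tauDih_r, DihedralGroup.inv_r, DihedralGroup.r_mul_r, neg_neg, DZFam_c,
      DihedralGroup.r.injEq, true_and]
    constructor
    · intro h
      linear_combination h
    · intro h
      linear_combination h
  · simp only [tauDih_r, tauDih_sr, DihedralGroup.inv_r, DihedralGroup.inv_sr,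
      DihedralGroup.r_mul_sr, DihedralGroup.sr_mul_r, neg_neg, DZFam_c,
      DihedralGroup.sr.injEq, DZFam_two_mul]
    constructor
    · intro h
      exact h.1
    · intro h
      exact ⟨h, by ring⟩
  · simp only [tauDih_r, tauDih_sr, DihedralGroup.inv_r, DihedralGroup.inv_sr,
      DihedralGroup.sr_mul_sr, DihedralGroup.sr_mul_r, DZFam_c,
      DihedralGroup.r.injEq, true_and]
    constructor
    · intro h
      linear_combination -h
    · intro h
      linear_combination -h
  · simp only [tauDih_sr, DihedralGroup.inv_sr,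
      DihedralGroup.sr_mul_sr, DihedralGroup.r_mul_sr, DZFam_c,
      DihedralGroup.sr.injEq, DZFam_two_mul]
    constructor
    · intro h
      exact h.1
    · intro h
      refine ⟨h, ?_⟩
      linear_combination h

omit [NeZero r] [NeZero m] in
theorem DZFam_all (hm : Odd m) (a b : DihedralGroup r) (y z : Multiplicative (ZMod m)) :
    (tauDZ r m (b, z) = (b, z)⁻¹ ∧ (a, y) ∈ tstab (tauDZ r m) (b, z)) ↔
      (DZFam_c a b ∧ y = 1) := by
  rw [DZFam_inv, DZFam_stab hm, ← and_assoc, DZFam_cond]

theorem DZFam_sum_two (hr : 2 ∣ r) (f : ZMod r → ℂ) :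
    ∑ i : ZMod r, (if 2 * i = 0 then f i else 0) = f 0 + f (hf r) := by
  rw [← Finset.sum_filter]
  have h : (Finset.univ.filter fun i : ZMod r => 2 * i = 0) = {0, hf r} := by
    ext i
    simp [two_mul_eq_zero_iff hr]
  rw [h, Finset.sum_pair (hf_ne_zero hr).symm]

theorem DZFam_sum_two' (hr : 2 ∣ r) (f : ZMod r → ℂ) (j : ZMod r) :
    ∑ i : ZMod r, (if 2 * (i + j) = 0 then f i else 0) = f (-j) + f (hf r - j) := by
  have h := DZFam_sum_two hr (fun i => f (i - j))
  rw [zero_sub] at h
  have h2 := Equiv.sum_comp (Equiv.subRight j) (fun i : ZMod r => if 2 * (i + j) = 0 then f i else 0)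
  rw [← h, ← h2]
  refine Finset.sum_congr rfl fun i _ => ?_
  simp

theorem DZFam_sum_sg (hr : 2 ∣ r) : ∑ i : ZMod r, sg i = 0 := by
  have h : ∑ i : ZMod r, sg i = ∑ i : ZMod r, sg (i + 1) :=
    (Equiv.sum_comp (Equiv.addRight (1 : ZMod r)) sg).symm
  simp only [sg_add hr, sg_one hr, mul_neg, mul_one, Finset.sum_neg_distrib] at h
  linear_combination (1 / 2 : ℂ) * h

theorem DZFam_one (b : DihedralGroup r) : DZFam_l 1 b = 1 := by
  rw [DihedralGroup.one_def]
  rcases b with i | i
  · simp [DZFam_l]
  · simp [DZFam_l, sg_zero]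

theorem DZFam_sg_sub (hr : 2 ∣ r) (x y : ZMod r) : sg (x - y) = sg x * sg y := by
  rw [sub_eq_add_neg, sg_add hr, sg_neg hr]

/-- The character of the group of elements of order two. -/
def DZFam_chi (x : ZMod r) : ℂ := if x = 0 then 1 else -1

theorem DZFam_chi_add (hr : 2 ∣ r) (x y : ZMod r) (hx : 2 * x = 0) (hy : 2 * y = 0) :
    DZFam_chi (x + y) = DZFam_chi x * DZFam_chi y := by
  have hne := hf_ne_zero hr
  have hh := hf_add_hf hr
  rw [two_mul_eq_zero_iff hr] at hx hy
  rcases hx with rfl | rfl <;> rcases hy with rfl | rfl <;> simp [DZFam_chi, hne, hh]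

omit [NeZero r] in
theorem DZFam_chi_neg (x : ZMod r) : DZFam_chi (-x) = DZFam_chi x := by
  simp [DZFam_chi]

omit [NeZero r] in
theorem DZFam_l_r (i : ZMod r) (a : DihedralGroup r) :
    DZFam_l a (.r i) = if sg i = 1 then 1 else
      match a with
      | .r j => DZFam_chi j
      | .sr j => DZFam_chi (j + i) := by
  rcases a with j | j
  · rfl
  · simp only [DZFam_l, DZFam_chi, eq_neg_iff_add_eq_zero]

theorem DZFam_mul (hr : 2 ∣ r) (a a' b : DihedralGroup r) (h : DZFam_c a b) (h' : DZFam_c a' b) :
    DZFam_l (a * a') b = DZFam_l a b * DZFam_l a' b := by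
  rcases b with i | i
  · rw [DZFam_l_r, DZFam_l_r, DZFam_l_r]
    by_cases hi : sg i = 1
    · simp [hi]
    · rw [if_neg hi, if_neg hi, if_neg hi]
      rcases a with j | j <;> rcases a' with j' | j'
      · rw [DihedralGroup.r_mul_r]
        exact DZFam_chi_add hr j j' h h'
      · rw [DihedralGroup.r_mul_sr]
        have h2 : 2 * (i + j') = 0 := h'
        have h1 : 2 * j = 0 := h
        change DZFam_chi (j' - j + i) = DZFam_chi j * DZFam_chi (j' + i)
        rw [← DZFam_chi_neg j, ← DZFam_chi_add hr (-j) (j' + i) (by linear_combination -h1)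
          (by linear_combination h2)]
        congr 1
        ring
      · rw [DihedralGroup.sr_mul_r]
        have h2 : 2 * (i + j) = 0 := h
        have h1 : 2 * j' = 0 := h'
        change DZFam_chi (j + j' + i) = DZFam_chi (j + i) * DZFam_chi j'
        rw [← DZFam_chi_add hr (j + i) j' (by linear_combination h2) h1]
        congr 1
        ring
      · rw [DihedralGroup.sr_mul_sr]
        have h2 : 2 * (i + j) = 0 := h
        have h1 : 2 * (i + j') = 0 := h'
        change DZFam_chi (j' - j) = DZFam_chi (j + i) * DZFam_chi (j' + i)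
        rw [← DZFam_chi_neg (j + i), ← DZFam_chi_add hr (-(j + i)) (j' + i)
          (by linear_combination -h2) (by linear_combination h1)]
        congr 1
        ring
  · by_cases hi : i = 0
    · subst hi
      rcases a with j | j <;> rcases a' with j' | j'
      · rw [DihedralGroup.r_mul_r]
        simp [DZFam_l]
      · rw [DihedralGroup.r_mul_sr]
        simp [DZFam_l]
      · rw [DihedralGroup.sr_mul_r]
        simp [DZFam_l]
      · rw [DihedralGroup.sr_mul_sr]
        simp [DZFam_l]
    · have hs : sg (hf r) * sg (hf r) = 1 := sg_mul_self _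
      rcases a with j | j <;> rcases a' with j' | j'
      · rw [DihedralGroup.r_mul_r]
        simp only [DZFam_l, if_neg hi, sg_add hr]
      · rw [DihedralGroup.r_mul_sr]
        simp only [DZFam_l, if_neg hi, sg_add hr, DZFam_sg_sub hr]
        ring
      · rw [DihedralGroup.sr_mul_r]
        simp only [DZFam_l, if_neg hi, sg_add hr]
        ring
      · rw [DihedralGroup.sr_mul_sr]
        simp only [DZFam_l, if_neg hi, sg_add hr, DZFam_sg_sub hr]
        linear_combination (-(sg j * sg j')) * hs

theorem DZFam_sg_two (hr : 2 ∣ r) (x y : ZMod r) : sg (x + 2 * y) = sg x := by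
  rw [sg_add hr, sg_two_mul hr, mul_one]

theorem DZFam_conj (hr : 2 ∣ r) (a b c : DihedralGroup r) (h : DZFam_c a b) :
    DZFam_l (c * a * c⁻¹) (c * b * (tauDih r c)⁻¹) = DZFam_l a b := by
  rcases b with i | i
  · rcases c with k | k
    · have e1 : DihedralGroup.r k * DihedralGroup.r i * (tauDih r (DihedralGroup.r k))⁻¹ =
          DihedralGroup.r (i + 2 * k) := by
        simp only [tauDih_r, DihedralGroup.inv_r, DihedralGroup.r_mul_r, neg_neg]
        congr 1
        ring
      rw [e1, DZFam_l_r, DZFam_l_r, DZFam_sg_two hr]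
      congr 1
      rcases a with j | j
      · have e2 : DihedralGroup.r k * DihedralGroup.r j * (DihedralGroup.r k)⁻¹ =
            DihedralGroup.r j := by
          simp only [DihedralGroup.inv_r, DihedralGroup.r_mul_r]
          congr 1
          ring
        rw [e2]
      · have e2 : DihedralGroup.r k * DihedralGroup.sr j * (DihedralGroup.r k)⁻¹ =
            DihedralGroup.sr (j - 2 * k) := by
          simp only [DihedralGroup.inv_r, DihedralGroup.r_mul_sr, DihedralGroup.sr_mul_r]
          congr 1
          ring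
        rw [e2]
        change DZFam_chi (j - 2 * k + (i + 2 * k)) = DZFam_chi (j + i)
        congr 1
        ring
    · have e1 : DihedralGroup.sr k * DihedralGroup.r i * (tauDih r (DihedralGroup.sr k))⁻¹ =
          DihedralGroup.r (-i + 2 * (-k)) := by
        simp only [tauDih_sr, DihedralGroup.inv_sr, DihedralGroup.sr_mul_r,
          DihedralGroup.sr_mul_sr]
        congr 1
        ring
      rw [e1, DZFam_l_r, DZFam_l_r, DZFam_sg_two hr, sg_neg hr]
      congr 1
      rcases a with j | j
      · have e2 : DihedralGroup.sr k * DihedralGroup.r j * (DihedralGroup.sr k)⁻¹ =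
            DihedralGroup.r (-j) := by
          simp only [DihedralGroup.inv_sr, DihedralGroup.sr_mul_r, DihedralGroup.sr_mul_sr]
          congr 1
          ring
        rw [e2]
        exact DZFam_chi_neg j
      · have e2 : DihedralGroup.sr k * DihedralGroup.sr j * (DihedralGroup.sr k)⁻¹ =
            DihedralGroup.sr (2 * k - j) := by
          simp only [DihedralGroup.inv_sr, DihedralGroup.sr_mul_sr, DihedralGroup.r_mul_sr]
          congr 1
          ring
        rw [e2]
        change DZFam_chi (2 * k - j + (-i + 2 * (-k))) = DZFam_chi (j + i)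
        rw [← DZFam_chi_neg (j + i)]
        congr 1
        ring
  · have h2 : 2 * i = 0 := by
      rcases a with j | j <;> exact h
    have h3 := (DZFam_two_mul i).1 h2
    have e1 : c * DihedralGroup.sr i * (tauDih r c)⁻¹ = DihedralGroup.sr i := by
      rcases c with k | k
      · simp only [tauDih_r, DihedralGroup.inv_r, DihedralGroup.r_mul_sr,
          DihedralGroup.sr_mul_r, neg_neg]
        congr 1
        ring
      · simp only [tauDih_sr, DihedralGroup.inv_sr, DihedralGroup.sr_mul_sr,
          DihedralGroup.r_mul_sr]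
        congr 1
        linear_combination h3
    rw [e1]
    rcases a with j | j <;> rcases c with k | k
    · have e2 : DihedralGroup.r k * DihedralGroup.r j * (DihedralGroup.r k)⁻¹ =
          DihedralGroup.r j := by
        simp only [DihedralGroup.inv_r, DihedralGroup.r_mul_r]
        congr 1
        ring
      rw [e2]
    · have e2 : DihedralGroup.sr k * DihedralGroup.r j * (DihedralGroup.sr k)⁻¹ =
          DihedralGroup.r (-j) := by
        simp only [DihedralGroup.inv_sr, DihedralGroup.sr_mul_r, DihedralGroup.sr_mul_sr]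
        congr 1
        ring
      rw [e2]
      simp only [DZFam_l, sg_neg hr]
    · have e2 : DihedralGroup.r k * DihedralGroup.sr j * (DihedralGroup.r k)⁻¹ =
          DihedralGroup.sr (j + 2 * (-k)) := by
        simp only [DihedralGroup.inv_r, DihedralGroup.r_mul_sr, DihedralGroup.sr_mul_r]
        congr 1
        ring
      rw [e2]
      simp only [DZFam_l]
      rw [show j + 2 * (-k) + hf r = (j + hf r) + 2 * (-k) by ring, DZFam_sg_two hr]
    · have e2 : DihedralGroup.sr k * DihedralGroup.sr j * (DihedralGroup.sr k)⁻¹ =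
          DihedralGroup.sr (-j + 2 * k) := by
        simp only [DihedralGroup.inv_sr, DihedralGroup.sr_mul_sr, DihedralGroup.r_mul_sr]
        congr 1
        ring
      rw [e2]
      simp only [DZFam_l]
      rw [show -j + 2 * k + hf r = (-j + hf r) + 2 * k by ring, DZFam_sg_two hr, sg_add hr,
        sg_neg hr, ← sg_add hr]

theorem DZFam_count_sr (hr : 2 ∣ r) (j : ZMod r) :
    ∑ i : ZMod r, (if -i - i = j then (1 : ℂ) else 0) = 1 + sg j := by
  rcases sg_cases j with h | h
  · obtain ⟨y, hy⟩ := (sg_eq_one_iff hr j).1 h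
    have h1 : ∀ i : ZMod r, (if -i - i = j then (1 : ℂ) else 0) =
        if 2 * (i + y) = 0 then 1 else 0 := by
      intro i
      congr 1
      rw [hy]
      apply propext
      constructor
      · intro h
        linear_combination -h
      · intro h
        linear_combination -h
    rw [Finset.sum_congr rfl fun i _ => h1 i, DZFam_sum_two' hr (fun _ => 1) y, h]
  · have h1 : ∀ i : ZMod r, (if -i - i = j then (1 : ℂ) else 0) = 0 := by
      intro i
      rw [if_neg]
      intro h2
      have h3 : sg j = 1 := by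
        rw [← h2, show -i - i = 2 * (-i) by ring, sg_two_mul hr]
      rw [h] at h3
      norm_num at h3
    rw [Finset.sum_congr rfl fun i _ => h1 i, h]
    simp

theorem DZFam_sum_l (hr : 2 ∣ r) (a : DihedralGroup r) :
    ∑ b, (if DZFam_c a b then DZFam_l a b else 0) =
      ∑ b : DihedralGroup r, (if b * tauDih r b = a then (1 : ℂ) else 0) := by
  have hne := hf_ne_zero hr
  rw [DZFam_sum_dih, DZFam_sum_dih]
  rcases a with j | j
  · have e1 : ∑ i : ZMod r, (if DZFam_c (.r j) (.sr i) then DZFam_l (.r j) (.sr i) else 0) =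
        1 + sg j := by
      have h := DZFam_sum_two hr (fun i => DZFam_l (.r j) (.sr i))
      simp only [DZFam_l, if_true, if_neg hne] at h
      refine Eq.trans (Finset.sum_congr rfl fun i _ => ?_) h
      exact if_congr Iff.rfl rfl rfl
    have e2 : ∑ i : ZMod r, (if DihedralGroup.sr i * tauDih r (.sr i) = .r j then (1 : ℂ) else 0) =
        1 + sg j := by
      rw [← DZFam_count_sr hr j]
      refine Finset.sum_congr rfl fun i _ => ?_
      rw [tauDih_sr, DihedralGroup.sr_mul_sr]
      simp only [DihedralGroup.r.injEq]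
    rw [e1, e2]
    congr 1
    have e3 : ∀ i : ZMod r, DihedralGroup.r i * tauDih r (.r i) = .r 0 := by
      intro i
      rw [tauDih_r, DihedralGroup.r_mul_r, add_neg_cancel]
    simp only [e3, DihedralGroup.r.injEq]
    by_cases hj : j = 0
    · subst hj
      refine Finset.sum_congr rfl fun i _ => ?_
      rw [if_pos rfl, DZFam_l_r, if_pos (show DZFam_c (.r 0) (.r i) from mul_zero _)]
      simp [DZFam_chi]
    · have e4 : ∑ i : ZMod r, (if (0 : ZMod r) = j then (1 : ℂ) else 0) = 0 := by
        simp [Ne.symm hj]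
      rw [e4]
      by_cases hj2 : 2 * j = 0
      · rw [← DZFam_sum_sg hr]
        refine Finset.sum_congr rfl fun i _ => ?_
        rw [if_pos (show DZFam_c (.r j) (.r i) from hj2), DZFam_l_r]
        rcases sg_cases i with h | h
        · rw [if_pos h, h]
        · rw [h, if_neg (by norm_num)]
          simp [DZFam_chi, hj]
      · refine Finset.sum_eq_zero fun i _ => ?_
        rw [if_neg (show ¬ DZFam_c (.r j) (.r i) from hj2)]
  · have e1 : ∑ i : ZMod r, (if DZFam_c (.sr j) (.sr i) then DZFam_l (.sr j) (.sr i) else 0) =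
        -1 + -sg (j + hf r) := by
      have h := DZFam_sum_two hr (fun i => DZFam_l (.sr j) (.sr i))
      simp only [DZFam_l, if_true, if_neg hne] at h
      refine Eq.trans (Finset.sum_congr rfl fun i _ => ?_) h
      exact if_congr Iff.rfl rfl rfl
    have e2 : ∑ i : ZMod r, (if DZFam_c (.sr j) (.r i) then DZFam_l (.sr j) (.r i) else 0) =
        1 + sg (j + hf r) := by
      have h := DZFam_sum_two' hr (fun i => DZFam_l (.sr j) (.r i)) j
      have h0 : ∑ i : ZMod r, (if DZFam_c (.sr j) (.r i) then DZFam_l (.sr j) (.r i) else 0) =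
          ∑ i : ZMod r, (if 2 * (i + j) = 0 then DZFam_l (.sr j) (.r i) else 0) :=
        Finset.sum_congr rfl fun i _ => if_congr Iff.rfl rfl rfl
      rw [h0, h]
      simp only [DZFam_l_r]
      have h1 : sg (hf r - j) = sg (j + hf r) := by
        rw [DZFam_sg_sub hr, sg_add hr, mul_comm]
      rw [h1, add_neg_cancel, show j + (hf r - j) = hf r by ring]
      rcases sg_cases (j + hf r) with h | h
      · rw [h]
        simp [DZFam_chi]
      · rw [h, if_neg (show ¬ (-1 : ℂ) = 1 by norm_num)]
        simp [DZFam_chi, hne]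
    rw [e1, e2]
    have e3 : ∀ i : ZMod r, DihedralGroup.r i * tauDih r (.r i) = .r 0 := by
      intro i
      rw [tauDih_r, DihedralGroup.r_mul_r, add_neg_cancel]
    simp only [e3, tauDih_sr, DihedralGroup.sr_mul_sr, reduceCtorEq, if_false,
      Finset.sum_const_zero]
    ring

theorem DZ_fam (hr : 2 ∣ r) (hm : Odd m) : Fam (tauDZ r m) lDZ where
  one := by
    rintro ⟨b, z⟩ _
    rw [DZFam_lDZ]
    exact DZFam_one b
  mul := by
    rintro ⟨b, z⟩ ⟨a, y⟩ ⟨a', y'⟩ hω hg hh
    rw [DZFam_lDZ, DZFam_lDZ, DZFam_lDZ]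
    exact DZFam_mul hr a a' b ((DZFam_all hm a b y z).1 ⟨hω, hg⟩).1
      ((DZFam_all hm a' b y' z).1 ⟨hω, hh⟩).1
  conj := by
    rintro ⟨b, z⟩ ⟨a, y⟩ ⟨c, w⟩ hω hg
    rw [DZFam_lDZ, DZFam_lDZ]
    exact DZFam_conj hr a b c ((DZFam_all hm a b y z).1 ⟨hω, hg⟩).1
  sum := by
    rintro ⟨a, y⟩
    rw [Finset.sum_filter, Finset.card_filter]
    push_cast
    rw [Fintype.sum_prod_type, Fintype.sum_prod_type]
    have h1 : ∀ (b : DihedralGroup r) (z : Multiplicative (ZMod m)),
        (if tauDZ r m (b, z) = (b, z)⁻¹ ∧ (a, y) ∈ tstab (tauDZ r m) (b, z) then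
          lDZ (a, y) (b, z) else 0) =
        (if y = 1 then 1 else 0) * (if DZFam_c a b then DZFam_l a b else 0) := by
      intro b z
      rw [DZFam_lDZ]
      simp only [DZFam_all hm]
      by_cases h1 : y = 1 <;> by_cases h2 : DZFam_c a b <;> simp [h1, h2]
    have h2 : ∀ (b : DihedralGroup r) (z : Multiplicative (ZMod m)),
        (if (b, z) * tauDZ r m (b, z) = (a, y) then (1 : ℂ) else 0) =
        (if y = 1 then 1 else 0) * (if b * tauDih r b = a then 1 else 0) := by
      intro b z
      have h3 : ((b, z) * tauDZ r m (b, z) = (a, y)) ↔ (b * tauDih r b = a ∧ y = 1) := by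
        rw [tauDZ_apply, Prod.mk_mul_mk, Prod.mk.injEq, mul_inv_cancel]
        exact and_congr Iff.rfl eq_comm
      simp only [h3]
      by_cases h1 : y = 1 <;> by_cases h2 : b * tauDih r b = a <;> simp [h1, h2]
    have h4 := Finset.sum_congr (rfl : (Finset.univ : Finset (DihedralGroup r)) = Finset.univ)
      fun b _ => Finset.sum_congr
      (rfl : (Finset.univ : Finset (Multiplicative (ZMod m))) = Finset.univ) fun z _ => h1 b z
    have h5 := Finset.sum_congr (rfl : (Finset.univ : Finset (DihedralGroup r)) = Finset.univ)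
      fun b _ => Finset.sum_congr
      (rfl : (Finset.univ : Finset (Multiplicative (ZMod m))) = Finset.univ) fun z _ => h2 b z
    refine Eq.trans (Eq.trans ?_ (h4.trans ?_)) h5.symm
    · refine Finset.sum_congr rfl fun b _ => Finset.sum_congr rfl fun z _ => ?_
      congr
    · simp only [Finset.sum_const, ← Finset.mul_sum, ← Finset.smul_sum]
      rw [DZFam_sum_l hr]

end GIM119
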