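import Mathlib

set_option autoImplicit false

/-!
# MP_119ee3_al: definitions

Monomial matrices `MG r n`, the subgroups `Gp r p n = G(r,p,n)` and `Cq r q n = C_q`, the
projective reflection groups `PRG r p q n = G(r,p,n) / C_q`, and generalized involution models.
-/

open Classical

noncomputable section

namespace GIM119

/-- The pair `(π, x)`: the monomial matrix with `e_i ↦ ζ^{x_i} e_{π i}`. -/
@[ext] structure MG (r n : ℕ) where
  perm : Equiv.Perm (Fin n)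
  col : Fin n → ZMod r

namespace MG

variable {r n : ℕ}

instance : Mul (MG r n) := ⟨fun g h => ⟨g.perm * h.perm, fun i => h.col i + g.col (h.perm i)⟩⟩
instance : One (MG r n) := ⟨⟨1, 0⟩⟩
instance : Inv (MG r n) := ⟨fun g => ⟨g.perm⁻¹, fun i => - g.col (g.perm⁻¹ i)⟩⟩

@[simp] lemma mul_perm (g h : MG r n) : (g * h).perm = g.perm * h.perm := rfl
@[simp] lemma mul_col (g h : MG r n) (i : Fin n) :
    (g * h).col i = h.col i + g.col (h.perm i) := rfl
@[simp] lemma one_perm : (1 : MG r n).perm = 1 := rfl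
@[simp] lemma one_col (i : Fin n) : (1 : MG r n).col i = 0 := rfl
@[simp] lemma inv_perm (g : MG r n) : (g⁻¹).perm = g.perm⁻¹ := rfl
@[simp] lemma inv_col (g : MG r n) (i : Fin n) : (g⁻¹).col i = - g.col (g.perm⁻¹ i) := rfl

instance : Group (MG r n) := Group.ofLeftAxioms
  (by
    intro g h k
    ext i
    · simp
    · simp [add_assoc])
  (by
    intro g
    ext i
    · simp
    · simp)
  (by
    intro g
    ext i
    · simp
    · simp)

/-- `MG r n` as a product. -/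
def equivProd (r n : ℕ) : MG r n ≃ Equiv.Perm (Fin n) × (Fin n → ZMod r) where
  toFun g := (g.perm, g.col)
  invFun x := ⟨x.1, x.2⟩
  left_inv _ := rfl
  right_inv _ := rfl

instance [NeZero r] : Fintype (MG r n) := Fintype.ofEquiv _ (equivProd r n).symm

/-- The inverse transpose `(π, x) ↦ (π, -x)`. -/
def tau (r n : ℕ) : MG r n ≃* MG r n where
  toFun g := ⟨g.perm, fun i => - g.col i⟩
  invFun g := ⟨g.perm, fun i => - g.col i⟩
  left_inv g := by ext i <;> simp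
  right_inv g := by ext i <;> simp
  map_mul' g h := by
    ext i
    · simp
    · simp [add_comm]

@[simp] lemma tau_perm (g : MG r n) : (tau r n g).perm = g.perm := rfl
@[simp] lemma tau_col (g : MG r n) (i : Fin n) : (tau r n g).col i = - g.col i := rfl

lemma tau_tau (g : MG r n) : tau r n (tau r n g) = g := by
  ext i <;> simp

/-- The scalar matrix `ζ^e`. -/
def scal (n : ℕ) {r : ℕ} (e : ZMod r) : MG r n := ⟨1, fun _ => e⟩

@[simp] lemma scal_perm (e : ZMod r) : (scal n e).perm = 1 := rfl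
@[simp] lemma scal_col (e : ZMod r) (i : Fin n) : (scal n e).col i = e := rfl

/-- Colour sum. -/
def cs (g : MG r n) : ZMod r := ∑ i, g.col i

@[simp] lemma cs_one : cs (1 : MG r n) = 0 := by simp [cs]

@[simp] lemma cs_mul (g h : MG r n) : cs (g * h) = cs g + cs h := by
  simp only [cs, mul_col, Finset.sum_add_distrib]
  rw [Equiv.sum_comp h.perm g.col, add_comm]

@[simp] lemma cs_inv (g : MG r n) : cs (g⁻¹) = - cs g := by
  have h := cs_mul g g⁻¹
  rw [mul_inv_cancel, cs_one] at h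
  exact (neg_eq_of_add_eq_zero_right h.symm).symm

@[simp] lemma cs_tau (g : MG r n) : cs (tau r n g) = - cs g := by
  simp [cs]

@[simp] lemma cs_scal (e : ZMod r) : cs (scal n e) = n * e := by
  simp [cs]

lemma scal_comm (e : ZMod r) (g : MG r n) : scal n e * g = g * scal n e := by
  ext i
  · simp
  · simp [add_comm]

end MG

open MG

/-- `G(r,p,n)`. -/
def Gp (r p n : ℕ) : Subgroup (MG r n) where
  carrier := {g | ∃ y : ZMod r, cs g = p * y}
  one_mem' := ⟨0, by simp⟩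
  mul_mem' := by
    rintro g h ⟨y, hy⟩ ⟨z, hz⟩
    exact ⟨y + z, by rw [cs_mul, hy, hz]; ring⟩
  inv_mem' := by
    rintro g ⟨y, hy⟩
    exact ⟨-y, by rw [cs_inv, hy]; ring⟩

lemma mem_Gp {r p n : ℕ} {g : MG r n} : g ∈ Gp r p n ↔ ∃ y : ZMod r, cs g = p * y := Iff.rfl

/-- `C_q`: the scalar matrices `(1, (k r/q, …, k r/q))`. -/
def Cq (r q n : ℕ) : Subgroup (MG r n) where
  carrier := {g | ∃ k : ZMod r, g = scal n (((r / q : ℕ) : ZMod r) * k)}
  one_mem' := ⟨0, by ext i <;> simp⟩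
  mul_mem' := by
    rintro g h ⟨y, hy⟩ ⟨z, hz⟩
    refine ⟨y + z, ?_⟩
    rw [hy, hz]
    ext i
    · simp
    · simp; ring
  inv_mem' := by
    rintro g ⟨y, hy⟩
    refine ⟨-y, ?_⟩
    rw [hy]
    ext i
    · simp
    · simp

lemma mem_Cq {r q n : ℕ} {g : MG r n} :
    g ∈ Cq r q n ↔ ∃ k : ZMod r, g = scal n (((r / q : ℕ) : ZMod r) * k) := Iff.rfl

lemma Cq_comm {r q n : ℕ} {z : MG r n} (hz : z ∈ Cq r q n) (g : MG r n) : z * g = g * z := by
  obtain ⟨k, rfl⟩ := hz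
  exact scal_comm _ _

instance (r p q n : ℕ) : ((Cq r q n).subgroupOf (Gp r p n)).Normal := by
  constructor
  intro z hz g
  rw [Subgroup.mem_subgroupOf] at hz ⊢
  have h : ((g * z * g⁻¹ : Gp r p n) : MG r n) = z := by
    push_cast
    rw [← Cq_comm hz g.1, mul_inv_cancel_right]
  rw [h]
  exact hz

/-- The projective reflection group `G(r,p,q,n)`. -/
abbrev PRG (r p q n : ℕ) : Type := ↥(Gp r p n) ⧸ ((Cq r q n).subgroupOf (Gp r p n))

instance (r p q n : ℕ) [NeZero r] : Fintype (PRG r p q n) := Fintype.ofFinite _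

/-- Inverse transpose on `G(r,p,n)`. -/
def tauGp (r p n : ℕ) : ↥(Gp r p n) ≃* ↥(Gp r p n) where
  toFun g := ⟨tau r n g.1, by
    obtain ⟨y, hy⟩ := g.2
    exact ⟨-y, by rw [cs_tau, hy]; ring⟩⟩
  invFun g := ⟨tau r n g.1, by
    obtain ⟨y, hy⟩ := g.2
    exact ⟨-y, by rw [cs_tau, hy]; ring⟩⟩
  left_inv g := Subtype.ext (tau_tau g.1)
  right_inv g := Subtype.ext (tau_tau g.1)
  map_mul' g h := Subtype.ext (map_mul (tau r n) g.1 h.1)

@[simp] lemma tauGp_coe {r p n : ℕ} (g : ↥(Gp r p n)) : (tauGp r p n g : MG r n) = tau r n g.1 :=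
  rfl

lemma tau_mem_Cq {r q n : ℕ} {z : MG r n} (hz : z ∈ Cq r q n) : tau r n z = z⁻¹ := by
  obtain ⟨k, rfl⟩ := hz
  ext i <;> simp

lemma map_tauGp (r p q n : ℕ) :
    Subgroup.map (tauGp r p n : ↥(Gp r p n) →* ↥(Gp r p n)) ((Cq r q n).subgroupOf (Gp r p n))
      = (Cq r q n).subgroupOf (Gp r p n) := by
  ext x
  constructor
  · rintro ⟨y, hy, rfl⟩
    have hy' : (y : MG r n) ∈ Cq r q n := hy
    change tau r n y.1 ∈ Cq r q n
    rw [tau_mem_Cq hy']
    exact inv_mem hy'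
  · intro hx
    have hx' : (x : MG r n) ∈ Cq r q n := hx
    refine ⟨tauGp r p n x, ?_, ?_⟩
    · change tau r n x.1 ∈ Cq r q n
      rw [tau_mem_Cq hx']
      exact inv_mem hx'
    · exact Subtype.ext (tau_tau x.1)

/-- The automorphism of `G(r,p,q,n)` induced by the inverse transpose. -/
def tauQ (r p q n : ℕ) : PRG r p q n ≃* PRG r p q n :=
  QuotientGroup.congr _ _ (tauGp r p n) (map_tauGp r p q n)

@[simp] lemma tauQ_mk {r p q n : ℕ} (g : ↥(Gp r p n)) :
    tauQ r p q n (QuotientGroup.mk g) = QuotientGroup.mk (tauGp r p n g) := rfl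

/-! ### Generalized involution models -/

section Model

variable {G : Type*} [Group G]

/-- Stabilizer of `ω` under the twisted action `g · ω = g ω τ(g)⁻¹`. -/
def tstab (τ : G ≃* G) (ω : G) : Subgroup G where
  carrier := {g | g * ω * (τ g)⁻¹ = ω}
  one_mem' := by simp
  mul_mem' := by
    intro g h hg hh
    simp only [Set.mem_ofPred_eq] at hg hh ⊢
    rw [map_mul, mul_inv_rev]
    calc g * h * ω * ((τ h)⁻¹ * (τ g)⁻¹) = g * (h * ω * (τ h)⁻¹) * (τ g)⁻¹ := by group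
      _ = ω := by rw [hh, hg]
  inv_mem' := by
    intro g hg
    simp only [Set.mem_ofPred_eq] at hg ⊢
    rw [map_inv, inv_inv]
    calc g⁻¹ * ω * τ g = g⁻¹ * (g * ω * (τ g)⁻¹) * τ g := by rw [hg]
      _ = ω := by group

lemma mem_tstab {τ : G ≃* G} {ω g : G} : g ∈ tstab τ ω ↔ g * ω * (τ g)⁻¹ = ω := Iff.rfl

/-- The character of `G` induced from the linear character `l` of the subgroup `H`. -/
def indChar [Fintype G] (H : Subgroup G) (l : H →* ℂˣ) (g : G) : ℂ :=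
  (Nat.card H : ℂ)⁻¹ * ∑ x : G, if h : x⁻¹ * g * x ∈ H then ((l ⟨x⁻¹ * g * x, h⟩ : ℂˣ) : ℂ) else 0

/-- `χ` is the character of an irreducible complex representation of `G`. -/
def IsIrrChar (χ : G → ℂ) : Prop :=
  ∃ (m : ℕ) (ρ : Representation ℂ G (Fin m → ℂ)), ρ.IsIrreducible ∧ ρ.character = χ

/-- `G` has a generalized involution model with respect to the automorphism `τ`: there are a set
`R` of representatives of the orbits of generalized involutions (`τ ω = ω⁻¹`) and linear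
characters `l ω` of their stabilizers such that the sum of the induced characters is the sum of
all irreducible characters of `G`. -/
def HasGIM [Fintype G] (τ : G ≃* G) : Prop :=
  ∃ (R : Finset G) (l : ∀ ω : G, tstab τ ω →* ℂˣ) (I : Finset (G → ℂ)),
    (∀ ω ∈ R, τ ω = ω⁻¹) ∧
    (∀ ω : G, τ ω = ω⁻¹ → ∃! x, x ∈ R ∧ ∃ g : G, g * x * (τ g)⁻¹ = ω) ∧
    (∀ χ : G → ℂ, χ ∈ I ↔ IsIrrChar χ) ∧
    ∀ g : G, ∑ ω ∈ R, indChar (tstab τ ω) (l ω) g = ∑ χ ∈ I, χ g

/-- An equivariant family of linear characters of the twisted stabilizers of the generalized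
involutions whose total character is `g ↦ #{h | h τ(h) = g}`. -/
structure Fam [Fintype G] (τ : G ≃* G) (l : G → G → ℂ) : Prop where
  one : ∀ ω, τ ω = ω⁻¹ → l 1 ω = 1
  mul : ∀ ω g h, τ ω = ω⁻¹ → g ∈ tstab τ ω → h ∈ tstab τ ω → l (g * h) ω = l g ω * l h ω
  conj : ∀ ω g k, τ ω = ω⁻¹ → g ∈ tstab τ ω → l (k * g * k⁻¹) (k * ω * (τ k)⁻¹) = l g ω
  sum : ∀ g, ∑ ω with (τ ω = ω⁻¹ ∧ g ∈ tstab τ ω), l g ω
    = ((Finset.univ.filter fun h : G => h * τ h = g).card : ℂ)

end Model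

/-- The family, lifted to `G(r,d,n)`, for the quotient `G(r,d,q,n)`. -/
structure ALG (r d q n : ℕ) [NeZero r] (l : MG r n → MG r n → ℂ) : Prop where
  mul : ∀ ω g h, ω ∈ Gp r d n → g ∈ Gp r d n → h ∈ Gp r d n → ω * tau r n ω ∈ Cq r q n →
    g * ω * (tau r n g)⁻¹ * ω⁻¹ ∈ Cq r q n → h * ω * (tau r n h)⁻¹ * ω⁻¹ ∈ Cq r q n →
    l (g * h) ω = l g ω * l h ω
  cen : ∀ ω z, ω ∈ Gp r d n → ω * tau r n ω ∈ Cq r q n → z ∈ Cq r q n → l z ω = 1
  shift : ∀ ω g z, ω ∈ Gp r d n → g ∈ Gp r d n → ω * tau r n ω ∈ Cq r q n →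
    g * ω * (tau r n g)⁻¹ * ω⁻¹ ∈ Cq r q n → z ∈ Cq r q n → l g (z * ω) = l g ω
  conj : ∀ ω g k, ω ∈ Gp r d n → g ∈ Gp r d n → k ∈ Gp r d n → ω * tau r n ω ∈ Cq r q n →
    g * ω * (tau r n g)⁻¹ * ω⁻¹ ∈ Cq r q n →
    l (k * g * k⁻¹) (k * ω * (tau r n k)⁻¹) = l g ω
  sum : ∀ g ∈ Gp r d n,
    ∑ ω with (ω ∈ Gp r d n ∧ ω * tau r n ω ∈ Cq r q n ∧
      g * ω * (tau r n g)⁻¹ * ω⁻¹ ∈ Cq r q n), l g ω
    = ((Finset.univ.filter fun h : MG r n =>
        h ∈ Gp r d n ∧ h * tau r n h * g⁻¹ ∈ Cq r q n).card : ℂ)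

/-! ### Weights -/

variable {r n : ℕ}

/-- `(-1)^x` (a character of `ZMod r` for `r` even). -/
def sg (x : ZMod r) : ℂ := (-1) ^ x.val

/-- `i^x` (a character of `ZMod r` for `4 ∣ r`). -/
def im (x : ZMod r) : ℂ := Complex.I ^ x.val

/-- `ζ^x`, `ζ = exp (2πi/r)`. -/
def ze (x : ZMod r) : ℂ := Complex.exp (2 * Real.pi * Complex.I / r) ^ x.val

/-- The element of order two of `ZMod r`, `r` even. -/
def hf (r : ℕ) : ZMod r := ((r / 2 : ℕ) : ZMod r)

/-- The twisted action `g ω gᵀ`. -/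
def act (g ω : MG r n) : MG r n := g * ω * (tau r n g)⁻¹

/-- `ωᵀ = ζ^e ω` in coordinates: `ω` is symmetric for `e = 0`, antisymmetric for `e = r/2`. -/
def TSym (e : ZMod r) (ω : MG r n) : Prop :=
  (∀ i, ω.perm (ω.perm i) = i) ∧ ∀ i, ω.col (ω.perm i) = ω.col i + e

/-- Local weights: functions of `i`, `s i`, `b i`, `b (s i)`. -/
abbrev Wt (r n : ℕ) := Fin n → Fin n → ZMod r → ZMod r → ℂ

/-- Local weight of a symmetric element. -/
def phi1 (θ : ZMod r → ℂ) (g : MG r n) : Wt r n := fun i j b _ =>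
  if j = i then (if sg b = 1 then 1 else θ (g.col i))
  else if i < j ∧ g.perm j < g.perm i then -1 else 1

/-- Local weight of an antisymmetric element. -/
def phi2 (κ : ℂ) (g : MG r n) : Wt r n := fun i j _ c =>
  if i < j then sg (g.col i) *
    (if g.perm i < g.perm j then 1 else κ * sg (c + g.col j + g.col i)) else 1

/-- Local weight used for `r ≡ 2 mod 4`. -/
def phiT (κ : ℂ) : Wt r n := fun i j b _ => if i < j then κ * sg b else 1

/-- Product of local weights. -/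
def prodW (φ : Wt r n) (ω : MG r n) : ℂ :=
  ∏ i, φ i (ω.perm i) (ω.col i) (ω.col (ω.perm i))

def W1 (θ : ZMod r → ℂ) (g ω : MG r n) : ℂ := prodW (phi1 θ g) ω
def W2 (κ : ℂ) (g ω : MG r n) : ℂ := prodW (phi2 κ g) ω
def TT (κ : ℂ) (ω : MG r n) : ℂ := prodW (phiT κ) ω

/-- Number of fixed points with odd colour. -/
def k1 (ω : MG r n) : ℕ := (Finset.univ.filter fun i => ω.perm i = i ∧ sg (ω.col i) = -1).card

/-! ### Structures on invariant subsets -/

abbrev Str (r n : ℕ) := (Fin n → Fin n) × (Fin n → ZMod r)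

def IsStr (g : MG r n) (k : ℕ) (e1 e2 : ZMod r) (S : Finset (Fin n)) (x : Str r n) : Prop :=
  (∀ i, i ∉ S → x.1 i = i ∧ x.2 i = 0) ∧
  ∀ i, i ∈ S → x.1 i ∈ S ∧ x.1 (x.1 i) = (g.perm ^ k) i ∧ x.1 (g.perm i) = g.perm (x.1 i) ∧
    x.2 (x.1 i) = x.2 i + k * g.col i + e1 ∧
    x.2 (g.perm i) = x.2 i + g.col i + g.col (x.1 i) + e2

/-- `S` is invariant under the permutation of `g`. -/
def Stb (g : MG r n) (S : Finset (Fin n)) : Prop := ∀ i, g.perm i ∈ S ↔ i ∈ S

def wt (φ : Wt r n) (S : Finset (Fin n)) (x : Str r n) : ℂ :=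
  ∏ i ∈ S, φ i (x.1 i) (x.2 i) (x.2 (x.1 i))

def tot [NeZero r] (g : MG r n) (k : ℕ) (e1 e2 : ZMod r) (φ : Wt r n) (S : Finset (Fin n)) : ℂ :=
  ∑ x with IsStr g k e1 e2 S x, wt φ S x

/-- The cycle of `i`. -/
def cyc (g : MG r n) (i : Fin n) : Finset (Fin n) :=
  Finset.univ.filter fun j => g.perm.SameCycle i j

/-- Sum over the connected structures on `T` (`i0 ∈ T`). -/
def con [NeZero r] (g : MG r n) (k : ℕ) (e1 e2 : ZMod r) (φ : Wt r n) (i0 : Fin n)
    (T : Finset (Fin n)) : ℂ :=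
  ∑ x with (IsStr g k e1 e2 T x ∧ T = cyc g i0 ∪ cyc g (x.1 i0)), wt φ T x

end GIM119
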