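import Pool.Agent.Lib.MP_119ee3_al.Basic

set_option autoImplicit false

/-!
# MP_119ee3_al: Every element is conjugate to its transpose by an element of even colour sum.
-/

open Classical

noncomputable section

namespace GIM119

open MG

variable {r n : ℕ}

/-- Canonical point of the cycle of `i`. -/
def ExistsConj_rho (π : Equiv.Perm (Fin n)) (i : Fin n) : Fin n :=
  Quotient.out (Quotient.mk (Equiv.Perm.SameCycle.setoid π) i)

lemma ExistsConj_rho_same (π : Equiv.Perm (Fin n)) (i : Fin n) :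
    π.SameCycle (ExistsConj_rho π i) i := by
  have h : (Quotient.mk (Equiv.Perm.SameCycle.setoid π) (ExistsConj_rho π i))
      = Quotient.mk (Equiv.Perm.SameCycle.setoid π) i := Quotient.out_eq _
  exact Quotient.exact h

lemma ExistsConj_rho_eq {π : Equiv.Perm (Fin n)} {i j : Fin n} (h : π.SameCycle i j) :
    ExistsConj_rho π i = ExistsConj_rho π j := by
  unfold ExistsConj_rho
  have : Quotient.mk (Equiv.Perm.SameCycle.setoid π) i
      = Quotient.mk (Equiv.Perm.SameCycle.setoid π) j := Quotient.sound h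
  rw [this]

lemma ExistsConj_exists (π : Equiv.Perm (Fin n)) (i : Fin n) :
    ∃ l : ℕ, (π ^ l) (ExistsConj_rho π i) = i := by
  obtain ⟨l, -, hl⟩ := (ExistsConj_rho_same π i).exists_pow_eq'
  exact ⟨l, hl⟩

def ExistsConj_len (π : Equiv.Perm (Fin n)) (i : Fin n) : ℕ :=
  Nat.find (ExistsConj_exists π i)

lemma ExistsConj_len_spec (π : Equiv.Perm (Fin n)) (i : Fin n) :
    (π ^ (ExistsConj_len π i)) (ExistsConj_rho π i) = i :=
  Nat.find_spec (ExistsConj_exists π i)

lemma ExistsConj_len_le {π : Equiv.Perm (Fin n)} {i : Fin n} {l : ℕ}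
    (h : (π ^ l) (ExistsConj_rho π i) = i) : ExistsConj_len π i ≤ l :=
  Nat.find_min' (ExistsConj_exists π i) h

lemma ExistsConj_len_succ (π : Equiv.Perm (Fin n)) (i : Fin n)
    (h : π i ≠ ExistsConj_rho π i) :
    ExistsConj_len π (π i) = ExistsConj_len π i + 1 := by
  have hs : π.SameCycle i (π i) := ⟨1, by simp⟩
  have hr := ExistsConj_rho_eq hs
  apply le_antisymm
  · apply ExistsConj_len_le
    rw [← hr, pow_succ', Equiv.Perm.mul_apply, ExistsConj_len_spec]
  · have h1 := ExistsConj_len_spec π (π i)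
    rw [← hr] at h1
    rcases hk : ExistsConj_len π (π i) with _ | k
    · rw [hk] at h1
      simp only [pow_zero, Equiv.Perm.coe_one, id_eq] at h1
      exact absurd h1.symm h
    · rw [hk, pow_succ', Equiv.Perm.mul_apply] at h1
      have h2 := π.injective h1
      have := ExistsConj_len_le h2
      omega

lemma ExistsConj_neg {π : Equiv.Perm (Fin n)} {a b : ℤ} {x : Fin n}
    (h : (π ^ a) x = (π ^ b) x) : (π ^ (-a)) x = (π ^ (-b)) x := by
  have h1 : (π ^ (b - a)) x = x := by
    have : (π ^ (-a)) ((π ^ a) x) = (π ^ (-a)) ((π ^ b) x) := by rw [h]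
    rw [← Equiv.Perm.mul_apply, ← Equiv.Perm.mul_apply, ← zpow_add, ← zpow_add] at this
    rw [neg_add_cancel, zpow_zero, Equiv.Perm.one_apply] at this
    rw [show b - a = -a + b by ring]
    exact this.symm
  have h2 : (π ^ (-b)) ((π ^ (b - a)) x) = (π ^ (-b)) x := by rw [h1]
  rw [← Equiv.Perm.mul_apply, ← zpow_add] at h2
  rw [show -b + (b - a) = -a by ring] at h2
  exact h2

/-- The reflection. -/
def ExistsConj_f (π : Equiv.Perm (Fin n)) (i : Fin n) : Fin n :=
  (π ^ (-(1 + (ExistsConj_len π i : ℤ)))) (ExistsConj_rho π i)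

lemma ExistsConj_len_spec' (π : Equiv.Perm (Fin n)) (i : Fin n) :
    (π ^ (ExistsConj_len π i : ℤ)) (ExistsConj_rho π i) = i := by
  rw [zpow_natCast]
  exact ExistsConj_len_spec π i

lemma ExistsConj_rho_f (π : Equiv.Perm (Fin n)) (i : Fin n) :
    ExistsConj_rho π (ExistsConj_f π i) = ExistsConj_rho π i := by
  have h1 : π.SameCycle (ExistsConj_rho π i) (ExistsConj_f π i) :=
    ⟨-(1 + (ExistsConj_len π i : ℤ)), rfl⟩
  rw [← ExistsConj_rho_eq h1]
  exact ExistsConj_rho_eq (ExistsConj_rho_same π i)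

lemma ExistsConj_f_f (π : Equiv.Perm (Fin n)) (i : Fin n) :
    ExistsConj_f π (ExistsConj_f π i) = i := by
  have h1 := ExistsConj_len_spec' π (ExistsConj_f π i)
  rw [ExistsConj_rho_f] at h1
  have h2 : (π ^ (ExistsConj_len π (ExistsConj_f π i) : ℤ)) (ExistsConj_rho π i)
      = (π ^ (-(1 + (ExistsConj_len π i : ℤ)))) (ExistsConj_rho π i) := h1
  have h3 := ExistsConj_neg h2
  have h4 : ExistsConj_f π (ExistsConj_f π i)
      = (π ^ (-(1 + (ExistsConj_len π (ExistsConj_f π i) : ℤ)))) (ExistsConj_rho π i) := by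
    conv_lhs => unfold ExistsConj_f
    rw [show (π ^ (-(1 + (ExistsConj_len π i : ℤ)))) (ExistsConj_rho π i) = ExistsConj_f π i
      from rfl, ExistsConj_rho_f]
  rw [h4, show -(1 + (ExistsConj_len π (ExistsConj_f π i) : ℤ))
    = -1 + -(ExistsConj_len π (ExistsConj_f π i) : ℤ) by ring, zpow_add, Equiv.Perm.mul_apply,
    h3, ← Equiv.Perm.mul_apply, ← zpow_add,
    show (-1 + - -(1 + (ExistsConj_len π i : ℤ))) = (ExistsConj_len π i : ℤ) by ring]
  exact ExistsConj_len_spec' π i

lemma ExistsConj_f_apply (π : Equiv.Perm (Fin n)) (i : Fin n) :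
    ExistsConj_f π (π i) = π⁻¹ (ExistsConj_f π i) := by
  have hs : π.SameCycle i (π i) := ⟨1, by simp⟩
  have hr := ExistsConj_rho_eq hs
  have h1 := ExistsConj_len_spec' π (π i)
  rw [← hr] at h1
  have h2 : (π ^ (ExistsConj_len π (π i) : ℤ)) (ExistsConj_rho π i)
      = (π ^ (1 + (ExistsConj_len π i : ℤ))) (ExistsConj_rho π i) := by
    rw [h1, zpow_add, Equiv.Perm.mul_apply, ExistsConj_len_spec', zpow_one]
  have h3 := ExistsConj_neg h2
  unfold ExistsConj_f
  rw [← hr, show -(1 + (ExistsConj_len π (π i) : ℤ))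
    = -1 + -(ExistsConj_len π (π i) : ℤ) by ring, zpow_add, Equiv.Perm.mul_apply, h3, zpow_neg_one]

lemma ExistsConj_f_eq_rho_iff (π : Equiv.Perm (Fin n)) (i : Fin n) :
    ExistsConj_f π i = ExistsConj_rho π i ↔ π i = ExistsConj_rho π i := by
  have h0 : (π ^ (1 + (ExistsConj_len π i : ℤ))) (ExistsConj_rho π i) = π i := by
    rw [zpow_add, Equiv.Perm.mul_apply, ExistsConj_len_spec', zpow_one]
  constructor
  · intro h
    have h1 : (π ^ (-(1 + (ExistsConj_len π i : ℤ)))) (ExistsConj_rho π i)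
        = (π ^ (0 : ℤ)) (ExistsConj_rho π i) := by
      rw [zpow_zero, Equiv.Perm.one_apply]
      exact h
    have h2 := ExistsConj_neg h1
    rw [neg_neg, h0] at h2
    simpa using h2
  · intro h
    rw [← h0] at h
    have h1 : (π ^ (1 + (ExistsConj_len π i : ℤ))) (ExistsConj_rho π i)
        = (π ^ (0 : ℤ)) (ExistsConj_rho π i) := by simpa using h
    have h2 := ExistsConj_neg h1
    have h3 : ExistsConj_f π i = (π ^ (-(0 : ℤ))) (ExistsConj_rho π i) := h2
    simpa using h3

def ExistsConj_kap (π : Equiv.Perm (Fin n)) : Equiv.Perm (Fin n) :=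
  Function.Involutive.toPerm (ExistsConj_f π) (ExistsConj_f_f π)

@[simp] lemma ExistsConj_kap_apply (π : Equiv.Perm (Fin n)) (i : Fin n) :
    ExistsConj_kap π i = ExistsConj_f π i := rfl

/-- Partial sums. -/
def ExistsConj_d (g : MG r n) (i : Fin n) : ZMod r :=
  ∑ j ∈ Finset.range (ExistsConj_len g.perm i),
    g.col ((g.perm ^ j) (ExistsConj_rho g.perm i))

lemma ExistsConj_d_succ (g : MG r n) (i : Fin n)
    (h : g.perm i ≠ ExistsConj_rho g.perm i) :
    ExistsConj_d g (g.perm i) = ExistsConj_d g i + g.col i := by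
  have hs : g.perm.SameCycle i (g.perm i) := ⟨1, by simp⟩
  have hr := ExistsConj_rho_eq hs
  unfold ExistsConj_d
  rw [← hr, ExistsConj_len_succ g.perm i h, Finset.sum_range_succ, ExistsConj_len_spec]

/-- Remaining colours. -/
def ExistsConj_x (g : MG r n) (i : Fin n) : ZMod r :=
  ExistsConj_d g i + g.col i - ExistsConj_d g (g.perm i)

lemma ExistsConj_x_zero (g : MG r n) (i : Fin n)
    (h : g.perm i ≠ ExistsConj_rho g.perm i) : ExistsConj_x g i = 0 := by
  unfold ExistsConj_x
  rw [ExistsConj_d_succ g i h]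
  ring

lemma ExistsConj_x_refl (g : MG r n) (i : Fin n) :
    ExistsConj_x g (g.perm⁻¹ (ExistsConj_f g.perm i)) = ExistsConj_x g i := by
  by_cases h : g.perm i = ExistsConj_rho g.perm i
  · have h1 := (ExistsConj_f_eq_rho_iff g.perm i).2 h
    have h2 : g.perm⁻¹ (ExistsConj_f g.perm i) = i := by
      rw [h1, ← h]; simp
    rw [h2]
  · rw [ExistsConj_x_zero g i h]
    apply ExistsConj_x_zero
    have h0 : g.perm (g.perm⁻¹ (ExistsConj_f g.perm i)) = ExistsConj_f g.perm i := by simp
    rw [h0]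
    have hs : g.perm.SameCycle (g.perm⁻¹ (ExistsConj_f g.perm i)) (ExistsConj_f g.perm i) :=
      ⟨1, by simp⟩
    rw [ExistsConj_rho_eq hs, ExistsConj_rho_f]
    intro h2
    exact h ((ExistsConj_f_eq_rho_iff g.perm i).1 h2)

theorem exists_conj (g : MG r n) :
    ∃ (k : MG r n) (y : ZMod r), k * g * k⁻¹ = (tau r n g)⁻¹ ∧ cs k = 2 * y := by
  refine ⟨⟨ExistsConj_kap g.perm, fun i => - ExistsConj_d g i
    - ExistsConj_d g (ExistsConj_f g.perm i)⟩, - ∑ i, ExistsConj_d g i, ?_, ?_⟩
  · rw [mul_inv_eq_iff_eq_mul]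
    ext i
    · simp [ExistsConj_f_apply]
    · have h1 := ExistsConj_x_refl g i
      simp only [mul_col, inv_col, inv_perm, tau_col, tau_perm, neg_neg, ExistsConj_kap_apply,
        ExistsConj_f_apply]
      unfold ExistsConj_x at h1
      have h0 : g.perm (g.perm⁻¹ (ExistsConj_f g.perm i)) = ExistsConj_f g.perm i := by simp
      rw [h0] at h1
      linear_combination -h1
  · simp only [cs, Finset.sum_sub_distrib, Finset.sum_neg_distrib]
    have h2 : ∑ i, ExistsConj_d g (ExistsConj_f g.perm i) = ∑ i, ExistsConj_d g i :=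
      Equiv.sum_comp (ExistsConj_kap g.perm) (ExistsConj_d g)
    rw [h2]
    ring

end GIM119
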