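import Pool.Agent.Lib.MP_119ee3_al.Basic2
import Pool.Agent.Lib.MP_119ee3_al.Cyc
import Pool.Agent.Lib.MP_119ee3_al.Shift
import Pool.Agent.Lib.MP_119ee3_al.OneCycle
import Pool.Agent.Lib.MP_119ee3_al.Orient
import Pool.Agent.Lib.MP_119ee3_al.L1One

set_option autoImplicit false

/-!
# MP_119ee3_al: Identity F1 for r odd, one cycle.
-/

open Classical

noncomputable section

namespace GIM119

open MG

variable {r n : ℕ} [NeZero r]

omit [NeZero r] in
/-- weight of a structure with `s = id` -/
theorem L1OddOne_wt_D {g : MG r n} {i0 : Fin n} {x : Str r n}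
    (hs : ∀ i ∈ cyc g i0, x.1 i = i) : wt (phi1 (fun _ => 1) g) (cyc g i0) x = 1 := by
  unfold wt
  refine Finset.prod_eq_one fun i hi => ?_
  unfold phi1
  rw [if_pos (hs i hi)]
  split_ifs <;> rfl

/-- a structure with `s = id` forces the colour sum to vanish -/
theorem L1OddOne_sum_zero (hr : Odd r) {g : MG r n} {i0 : Fin n} {x : Str r n}
    (hx : IsStr g 0 0 0 (cyc g i0) x) (hs : ∀ i ∈ cyc g i0, x.1 i = i) :
    ∑ j ∈ cyc g i0, g.col j = 0 := by
  have hself := self_mem_cyc g i0
  have hM0 : ∀ i ∈ cyc g i0, x.1 i = (g.perm ^ 0) i := by simpa using hs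
  have h3 := L1One_iter hx hM0 hself (cyc g i0).card
  rw [pow_zero, Equiv.Perm.one_apply, pow_card_cyc g hself, L1One_A_card g i0 hself,
    add_assoc, ← two_mul] at h3
  have h4 : 2 * ∑ j ∈ cyc g i0, g.col j = 0 := left_eq_add.1 h3
  have h5 : IsUnit (2 : ZMod r) := by
    have h6 : IsUnit ((2 : ℕ) : ZMod r) :=
      (ZMod.isUnit_iff_coprime 2 r).2 (Nat.coprime_two_left.2 hr)
    exact_mod_cast h6
  exact (h5.mul_right_eq_zero).1 h4

theorem L1o_one (hr : Odd r) (g : MG r n) (i0 : Fin n) :
    con g 0 0 0 (phi1 (fun _ => 1) g) i0 (cyc g i0) = con g 1 0 0 phi0 i0 (cyc g i0) := by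
  have hself := self_mem_cyc g i0
  have hpos : 0 < (cyc g i0).card := Finset.card_pos.2 ⟨i0, hself⟩
  rw [con_one, con_one]
  -- the right side
  have hR : ∑ x with IsStr g 1 0 0 (cyc g i0) x, wt phi0 (cyc g i0) x
      = ((Finset.univ.filter fun x : Str r n => IsStr g 1 0 0 (cyc g i0) x).card : ℂ) := by
    rw [Finset.card_eq_sum_ones, Nat.cast_sum]
    refine Finset.sum_congr rfl fun x _ => ?_
    simp [wt]
  rw [hR]
  -- split the left side
  have hsplit : ∑ x with IsStr g 0 0 0 (cyc g i0) x, wt (phi1 (fun _ => 1) g) (cyc g i0) x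
      = ∑ x with (IsStr g 0 0 0 (cyc g i0) x ∧ ∀ i ∈ cyc g i0, x.1 i = i),
          wt (phi1 (fun _ => 1) g) (cyc g i0) x
        + ∑ x with (IsStr g 0 0 0 (cyc g i0) x ∧ ¬ ∀ i ∈ cyc g i0, x.1 i = i),
          wt (phi1 (fun _ => 1) g) (cyc g i0) x := by
    rw [← Finset.filter_filter, ← Finset.filter_filter,
      Finset.sum_filter_add_sum_filter_not]
  have hD : ∑ x with (IsStr g 0 0 0 (cyc g i0) x ∧ ∀ i ∈ cyc g i0, x.1 i = i),
        wt (phi1 (fun _ => 1) g) (cyc g i0) x = ((L1One_D g i0).card : ℂ) := by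
    rw [Finset.card_eq_sum_ones, Nat.cast_sum]
    refine Finset.sum_congr rfl fun x hx => ?_
    simp only [L1One_D, Finset.mem_filter, Finset.mem_univ, true_and] at hx
    rw [L1OddOne_wt_D hx.2, Nat.cast_one]
  rw [hsplit, hD]
  by_cases h0 : ∑ j ∈ cyc g i0, g.col j = 0
  · -- the colour sum vanishes
    rcases Nat.even_or_odd' (cyc g i0).card with ⟨m, hm | hm⟩
    · have hm0 : 0 < m := by omega
      have hH : ∑ x with (IsStr g 0 0 0 (cyc g i0) x ∧ ¬ ∀ i ∈ cyc g i0, x.1 i = i),
          wt (phi1 (fun _ => 1) g) (cyc g i0) x = -((L1One_H g 0 m i0).card : ℂ) := by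
        rw [Finset.card_eq_sum_ones, Nat.cast_sum, ← Finset.sum_neg_distrib]
        refine Finset.sum_congr (Finset.filter_congr fun x _ => ?_) fun x hx => ?_
        · refine and_congr_right fun hx => ?_
          rcases oneCycle_cases hx with h | ⟨m', hm', hc', h'⟩
          · refine ⟨fun h1 => (h1 h).elim, fun h1 _ => ?_⟩
            have h2 := h1 i0 hself
            rw [h i0 hself] at h2
            have h3 := (pow_eq_self_iff g hself m).1 h2.symm
            have := Nat.le_of_dvd hm0 h3
            omega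
          · have hmm : m' = m := by omega
            subst hmm
            refine ⟨fun _ => h', fun _ h1 => ?_⟩
            have h2 := h' i0 hself
            rw [h1 i0 hself] at h2
            have h3 := (pow_eq_self_iff g hself m').1 h2.symm
            have := Nat.le_of_dvd hm0 h3
            omega
        · have hx2 : IsStr g 0 0 0 (cyc g i0) x ∧ ∀ i ∈ cyc g i0, x.1 i = (g.perm ^ m) i := by
            simpa [L1One_H] using hx
          rw [L1One_wt_H hm0 hm hx2.2]
          simp
      have hE : (Finset.univ.filter fun x : Str r n => IsStr g 1 0 0 (cyc g i0) x) = ∅ := by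
        refine Finset.filter_eq_empty_iff.2 fun x _ hx => ?_
        obtain ⟨m', hm', -⟩ := oneCycle_cases1 hx
        omega
      rw [hH, hE, L1One_card (k := 0) (by norm_num) (M := m) (by omega) h0]
      simp
    · have hE : (Finset.univ.filter fun x : Str r n => IsStr g 0 0 0 (cyc g i0) x ∧
          ¬ ∀ i ∈ cyc g i0, x.1 i = i) = ∅ := by
        refine Finset.filter_eq_empty_iff.2 fun x _ hx => ?_
        rcases oneCycle_cases hx.1 with h | ⟨m', hm', hc', h'⟩
        · exact hx.2 h
        · omega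
      have hY : (Finset.univ.filter fun x : Str r n => IsStr g 1 0 0 (cyc g i0) x)
          = L1One_H g 1 (m + 1) i0 := by
        refine Finset.filter_congr fun x _ => ?_
        refine ⟨fun hx => ⟨hx, ?_⟩, fun hx => hx.1⟩
        obtain ⟨m', hm', h'⟩ := oneCycle_cases1 hx
        have hmm : m' = m := by omega
        subst hmm
        exact h'
      rw [hE, hY, Finset.sum_empty, add_zero,
        L1One_card (k := 1) (by norm_num) (M := m + 1) (by omega) h0]
  · -- the colour sum does not vanish
    have hD0 : L1One_D g i0 = ∅ :=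
      Finset.filter_eq_empty_iff.2 fun x _ hx => h0 (L1OddOne_sum_zero hr hx.1 hx.2)
    have hE : (Finset.univ.filter fun x : Str r n => IsStr g 0 0 0 (cyc g i0) x ∧
          ¬ ∀ i ∈ cyc g i0, x.1 i = i) = ∅ := by
      refine Finset.filter_eq_empty_iff.2 fun x _ hx => ?_
      rcases oneCycle_cases hx.1 with h | ⟨m', hm', hc', h'⟩
      · exact hx.2 h
      · exact h0 (L1One_sum_zero (k := 0) (by norm_num) hx.1 h' (by omega))
    have hY : (Finset.univ.filter fun x : Str r n => IsStr g 1 0 0 (cyc g i0) x) = ∅ := by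
      refine Finset.filter_eq_empty_iff.2 fun x _ hx => ?_
      obtain ⟨m', hm', h'⟩ := oneCycle_cases1 hx
      exact h0 (L1One_sum_zero (k := 1) (by norm_num) hx h' (by omega))
    rw [hD0, hE, hY]
    simp

end GIM119
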