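import Pool.Agent.Lib.MP_119ee3_al.Basic2
import Pool.Agent.Lib.MP_119ee3_al.Cyc
import Pool.Agent.Lib.MP_119ee3_al.Shift
import Pool.Agent.Lib.MP_119ee3_al.OneCycle
import Pool.Agent.Lib.MP_119ee3_al.Orient

set_option autoImplicit false

/-!
# MP_119ee3_al: Identity F1 for every r, two cycles.
-/

open Classical

noncomputable section

namespace GIM119

open MG

variable {r n : ℕ} [NeZero r]

theorem L1OddTwo_ai (e : Equiv.Perm (Fin n)) (i : Fin n) :
    e (e⁻¹ i) = i :=
  (Equiv.eq_symm_apply e).mp rfl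

theorem L1OddTwo_ia (e : Equiv.Perm (Fin n)) (i : Fin n) :
    e⁻¹ (e i) = i :=
  Equiv.Perm.inv_eq_iff_eq.mpr rfl

theorem L1OddTwo_exists_pow {g : MG r n} {i j : Fin n} (h : j ∈ cyc g i) :
    ∃ l : ℕ, (g.perm ^ l) i = j := by
  rw [cyc_eq_image, Finset.mem_image] at h
  obtain ⟨l, -, hl⟩ := h
  exact ⟨l, hl⟩

/-- facts on a connected structure on two cycles -/
theorem L1OddTwo_facts {g : MG r n} {k : ℕ} {e1 e2 : ZMod r} {i0 : Fin n} {T : Finset (Fin n)}
    (hT : T ≠ cyc g i0) {x : Str r n} (hx : IsStr g k e1 e2 T x)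
    (hc : T = cyc g i0 ∪ cyc g (x.1 i0)) :
    Stb g T ∧ x.1 i0 ∉ cyc g i0 ∧ (∀ i ∈ cyc g i0, x.1 i ∈ T ∧ x.1 i ∉ cyc g i0) ∧
      (∀ i ∈ T, i ∉ cyc g i0 → x.1 i ∈ cyc g i0) := by
  have hst : Stb g T := by
    rw [hc]
    intro l
    rw [Finset.mem_union, Finset.mem_union, cyc_Stb g i0 l, cyc_Stb g _ l]
  have h1 : x.1 i0 ∉ cyc g i0 := by
    intro h
    apply hT
    rw [hc, cyc_eq_of_mem h, Finset.union_self]
  have hi0 : i0 ∈ T := by
    rw [hc]
    exact Finset.mem_union_left _ (self_mem_cyc g i0)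
  have hd := cyc_disjoint h1
  refine ⟨hst, h1, fun i hi => ?_, fun i hi hn => ?_⟩
  · have hiT : i ∈ T := by
      rw [hc]
      exact Finset.mem_union_left _ hi
    refine ⟨(hx.2 i hiT).1, ?_⟩
    obtain ⟨l, rfl⟩ := L1OddTwo_exists_pow hi
    rw [hx.pow hst hi0]
    exact Finset.disjoint_right.1 hd (pow_mem_cyc _ _ _)
  · have h2 : i ∈ cyc g (x.1 i0) := by
      rw [hc, Finset.mem_union] at hi
      exact hi.resolve_left hn
    obtain ⟨l, rfl⟩ := L1OddTwo_exists_pow h2
    rw [hx.pow hst (hx.2 i0 hi0).1, (hx.2 i0 hi0).2.1, ← Equiv.Perm.mul_apply, ← pow_add]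
    exact pow_mem_cyc _ _ _

theorem L1o_two (θ : ZMod r → ℂ) (g : MG r n) (i0 : Fin n) (T : Finset (Fin n))
    (hT : T ≠ cyc g i0) :
    con g 0 0 0 (phi1 θ g) i0 T = con g 1 0 0 phi0 i0 T := by
  have hself := self_mem_cyc g i0
  unfold con
  refine Finset.sum_nbij'
    (fun x => (fun i => if i ∈ T ∧ i ∉ cyc g i0 then g.perm (x.1 i) else x.1 i,
      fun i => if i ∈ T ∧ i ∉ cyc g i0 then x.2 i + g.col (x.1 i) else x.2 i))
    (fun x => (fun i => if i ∈ T ∧ i ∉ cyc g i0 then g.perm⁻¹ (x.1 i) else x.1 i,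
      fun i => if i ∈ T ∧ i ∉ cyc g i0 then x.2 i - g.col (g.perm⁻¹ (x.1 i)) else x.2 i))
    ?_ ?_ ?_ ?_ ?_
  · intro x hx
    simp only [Finset.mem_filter, Finset.mem_univ, true_and] at hx ⊢
    obtain ⟨hx, hc⟩ := hx
    obtain ⟨hst, h1, h2, h3⟩ := L1OddTwo_facts hT hx hc
    refine ⟨⟨fun i hi => ?_, fun i hi => ?_⟩, ?_⟩
    · have h4 := hx.1 i hi
      simp [hi, h4]
    · obtain ⟨h4, h5, h6, h7, h8⟩ := hx.2 i hi
      have hp : g.perm i ∈ T := (hst i).2 hi
      rw [pow_zero, Equiv.Perm.one_apply] at h5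
      rw [Nat.cast_zero, zero_mul, add_zero, add_zero] at h7
      rw [add_zero] at h8
      by_cases hic : i ∈ cyc g i0
      · have hpc : g.perm i ∈ cyc g i0 := (cyc_Stb g i0 i).2 hic
        have h9 := (h2 i hic).2
        simp only [hi, hic, hp, hpc, h9, h4, not_true_eq_false, not_false_eq_true, and_false,
          and_true, if_true, if_false, pow_one, Nat.cast_one, one_mul, add_zero]
        refine ⟨trivial, ?_, h6, ?_, h8⟩
        · rw [h5]
        · rw [h7, h5]
      · have hpc : g.perm i ∉ cyc g i0 := fun h => hic ((cyc_Stb g i0 i).1 h)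
        have h9 := h3 i hi hic
        have h10 : g.perm (x.1 i) ∈ cyc g i0 := (cyc_Stb g i0 _).2 h9
        have h11 : g.perm (x.1 i) ∈ T := (hst _).2 h4
        obtain ⟨k4, k5, k6, k7, k8⟩ := hx.2 (x.1 i) h4
        rw [h5] at k6 k8
        rw [add_zero] at k8
        simp only [hi, hic, hp, hpc, h10, h11, not_true_eq_false, not_false_eq_true,
          and_false, and_true, if_true, if_false, pow_one, Nat.cast_one, one_mul, add_zero]
        refine ⟨trivial, k6, ?_, ?_, ?_⟩
        · rw [h6]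
        · rw [k8, h7]
        · rw [h8, h6]
          ring
    · have h4 : ¬ (i0 ∈ T ∧ i0 ∉ cyc g i0) := fun h => h.2 hself
      simp only [h4, if_false]
      exact hc
  · intro x hx
    simp only [Finset.mem_filter, Finset.mem_univ, true_and] at hx ⊢
    obtain ⟨hx, hc⟩ := hx
    obtain ⟨hst, h1, h2, h3⟩ := L1OddTwo_facts hT hx hc
    have hinvc : ∀ j, g.perm⁻¹ j ∈ cyc g i0 ↔ j ∈ cyc g i0 := by
      intro j
      rw [← cyc_Stb g i0 (g.perm⁻¹ j), L1OddTwo_ai]
    have hinvT : ∀ j, g.perm⁻¹ j ∈ T ↔ j ∈ T := by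
      intro j
      rw [← hst (g.perm⁻¹ j), L1OddTwo_ai]
    have hs_inv : ∀ j ∈ T, x.1 (g.perm⁻¹ j) = g.perm⁻¹ (x.1 j) := by
      intro j hj
      have := (hx.2 (g.perm⁻¹ j) ((hinvT j).2 hj)).2.2.1
      rw [L1OddTwo_ai] at this
      rw [this, L1OddTwo_ia]
    refine ⟨⟨fun i hi => ?_, fun i hi => ?_⟩, ?_⟩
    · have h4 := hx.1 i hi
      simp [hi, h4]
    · obtain ⟨h4, h5, h6, h7, h8⟩ := hx.2 i hi
      have hp : g.perm i ∈ T := (hst i).2 hi
      rw [pow_one] at h5
      rw [Nat.cast_one, one_mul, add_zero] at h7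
      rw [add_zero] at h8
      by_cases hic : i ∈ cyc g i0
      · have hpc : g.perm i ∈ cyc g i0 := (cyc_Stb g i0 i).2 hic
        have h9 := (h2 i hic).2
        simp only [hi, hic, hp, hpc, h9, h4, not_true_eq_false, not_false_eq_true, and_false,
          and_true, if_true, if_false, pow_zero, Nat.cast_zero, zero_mul, add_zero,
          Equiv.Perm.one_apply]
        refine ⟨trivial, ?_, h6, ?_, h8⟩
        · rw [h5, L1OddTwo_ia]
        · rw [h7, h5, L1OddTwo_ia]
          ring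
      · have hpc : g.perm i ∉ cyc g i0 := fun h => hic ((cyc_Stb g i0 i).1 h)
        have h9 := h3 i hi hic
        have h10 : g.perm⁻¹ (x.1 i) ∈ cyc g i0 := (hinvc _).2 h9
        have h11 : g.perm⁻¹ (x.1 i) ∈ T := (hinvT _).2 h4
        obtain ⟨k4, k5, k6, k7, k8⟩ := hx.2 (g.perm⁻¹ (x.1 i)) h11
        have h12 : x.1 (g.perm⁻¹ (x.1 i)) = i := by
          rw [hs_inv _ h4, h5, L1OddTwo_ia]
        rw [L1OddTwo_ai, h12, add_zero, h7] at k8
        simp only [hi, hic, hp, hpc, h10, h11, h4, not_true_eq_false, not_false_eq_true,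
          and_false, and_true, if_true, if_false, pow_zero, Nat.cast_zero, zero_mul, add_zero,
          Equiv.Perm.one_apply]
        refine ⟨trivial, h12, ?_, ?_, ?_⟩
        · rw [h6, L1OddTwo_ia, L1OddTwo_ai]
        · linear_combination -k8
        · rw [h8, h6, L1OddTwo_ia]
          ring
    · have h4 : ¬ (i0 ∈ T ∧ i0 ∉ cyc g i0) := fun h => h.2 hself
      simp only [h4, if_false]
      exact hc
  · intro x hx
    simp only [Finset.mem_filter, Finset.mem_univ, true_and] at hx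
    refine Prod.ext (funext fun i => ?_) (funext fun i => ?_)
    · by_cases h : i ∈ T ∧ i ∉ cyc g i0
      · simp [h]
      · simp [h]
    · by_cases h : i ∈ T ∧ i ∉ cyc g i0
      · simp [h]
      · simp [h]
  · intro x hx
    simp only [Finset.mem_filter, Finset.mem_univ, true_and] at hx
    refine Prod.ext (funext fun i => ?_) (funext fun i => ?_)
    · by_cases h : i ∈ T ∧ i ∉ cyc g i0
      · simp [h]
      · simp [h]
    · by_cases h : i ∈ T ∧ i ∉ cyc g i0
      · simp [h]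
      · simp [h]
  · intro x hx
    simp only [Finset.mem_filter, Finset.mem_univ, true_and] at hx
    obtain ⟨hx, hc⟩ := hx
    obtain ⟨hst, h1, h2, h3⟩ := L1OddTwo_facts hT hx hc
    have hsub : cyc g i0 ⊆ T := by
      rw [hc]
      exact Finset.subset_union_left
    have hR : ∀ i ∈ T, (i ∈ cyc g i0 ↔ x.1 i ∉ cyc g i0) := by
      intro i hi
      refine ⟨fun h => (h2 i h).2, fun h => ?_⟩
      by_contra hn
      exact h (h3 i hi hn)
    have hs : ∀ i ∈ T, x.1 i ∈ T ∧ x.1 (x.1 i) = i ∧ x.1 (g.perm i) = g.perm (x.1 i) := by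
      intro i hi
      obtain ⟨h4, h5, h6, -, -⟩ := hx.2 i hi
      exact ⟨h4, by simpa using h5, h6⟩
    have h5 := flip_two hst hsub hs hR
    have h6 : wt (phi1 θ g) T x = 1 := by
      rw [← h5]
      unfold wt
      refine Finset.prod_congr rfl fun i hi => ?_
      have hne : x.1 i ≠ i := by
        intro h
        have := hR i hi
        rw [h] at this
        exact iff_not_self this
      unfold phi1
      rw [if_neg hne]
    rw [h6]
    simp [wt]

end GIM119
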