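import Pool.Agent.Lib.MP_119ee3_al.Basic2
import Pool.Agent.Lib.MP_119ee3_al.Congr
import Pool.Agent.Lib.MP_119ee3_al.Conv
import Pool.Agent.Lib.MP_119ee3_al.L1OddOne
import Pool.Agent.Lib.MP_119ee3_al.L1OddTwo

set_option autoImplicit false

/-!
# MP_119ee3_al: The identity F1 for r odd.
-/

open Classical

noncomputable section

namespace GIM119

open MG

variable {r n : ℕ} [NeZero r]

omit [NeZero r] in
lemma FOdd_stb_univ (g : MG r n) : Stb g Finset.univ := by
  intro i
  simp

omit [NeZero r] in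
lemma FOdd_scal (g ω : MG r n) : act g ω = scal n 0 * ω ↔ act g ω = ω := by
  rw [scal_zero, one_mul]

theorem F1o (hr : Odd r) (g : MG r n) :
    ∑ ω with (TSym 0 ω ∧ act g ω = ω), W1 (fun _ => 1) g ω
      = ((Finset.univ.filter fun h : MG r n => h * tau r n h = g).card : ℂ) := by
  have h1 := sum_eq_tot0 g 0 0 (phi1 (fun _ => 1) g)
  have h2 := sum_eq_tot1 g phi0
  rw [neg_zero] at h1
  simp only [FOdd_scal] at h1
  have h3 : ∑ h with (h * tau r n h = g), prodW phi0 h
      = ((Finset.univ.filter fun h : MG r n => h * tau r n h = g).card : ℂ) := by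
    simp [prodW]
  rw [← h3, h2]
  refine Eq.trans h1 (tot_congr g (fun T i0 _ _ => ?_) Finset.univ (FOdd_stb_univ g))
  by_cases hT : T = cyc g i0
  · rw [hT]; exact L1o_one hr g i0
  · exact L1o_two _ g i0 T hT

end GIM119
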