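import Pool.Agent.Lib.MP_119ee3_al.Basic

set_option autoImplicit false

/-!
# MP_119ee3_al: The twisted Frobenius-Schur indicator.
-/

open Classical

noncomputable section

namespace GIM119

open MG

variable {G : Type*} [Group G] [Fintype G]

theorem FS_entry {m : ℕ} (A B : Matrix (Fin m) (Fin m) ℂ) (i j a b : Fin m) :
    (A * (Matrix.single i j (1 : ℂ) * B)) a b = A a i * B j b := by
  rw [Matrix.mul_apply, Finset.sum_eq_single i]
  · rw [Matrix.single_mul_apply_same, one_mul]
  · intro k _ hk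
    rw [Matrix.single_mul_apply_of_ne (h := hk), mul_zero]
  · simp

theorem FS_tr1 {m : ℕ} (A B : Matrix (Fin m) (Fin m) ℂ) :
    LinearMap.trace ℂ (Matrix (Fin m) (Fin m) ℂ)
      ((LinearMap.mulLeft ℂ A).comp (LinearMap.mulRight ℂ B)) = A.trace * B.trace := by
  rw [LinearMap.trace_eq_matrix_trace ℂ (Matrix.stdBasis ℂ (Fin m) (Fin m)), Matrix.trace]
  rw [Fintype.sum_prod_type]
  have h : ∀ i j : Fin m, (LinearMap.toMatrix (Matrix.stdBasis ℂ (Fin m) (Fin m))
      (Matrix.stdBasis ℂ (Fin m) (Fin m))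
      ((LinearMap.mulLeft ℂ A).comp (LinearMap.mulRight ℂ B))).diag (i, j) = A i i * B j j := by
    intro i j
    rw [Matrix.diag_apply, LinearMap.toMatrix_apply, Matrix.stdBasis_eq_single]
    exact FS_entry A B i j i j
  simp only [h, Matrix.trace, Matrix.diag_apply, Finset.sum_mul, Finset.mul_sum]
  rw [Finset.sum_comm]

theorem FS_tr2 {m : ℕ} (A B : Matrix (Fin m) (Fin m) ℂ) :
    LinearMap.trace ℂ (Matrix (Fin m) (Fin m) ℂ)
      ((Matrix.transposeLinearEquiv (Fin m) (Fin m) ℂ ℂ).toLinearMap.comp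
        ((LinearMap.mulLeft ℂ A).comp (LinearMap.mulRight ℂ B.transpose))) = (A * B).trace := by
  rw [LinearMap.trace_eq_matrix_trace ℂ (Matrix.stdBasis ℂ (Fin m) (Fin m)), Matrix.trace]
  rw [Fintype.sum_prod_type]
  have h : ∀ i j : Fin m, (LinearMap.toMatrix (Matrix.stdBasis ℂ (Fin m) (Fin m))
      (Matrix.stdBasis ℂ (Fin m) (Fin m))
      ((Matrix.transposeLinearEquiv (Fin m) (Fin m) ℂ ℂ).toLinearMap.comp
      ((LinearMap.mulLeft ℂ A).comp (LinearMap.mulRight ℂ B.transpose)))).diag (i, j)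
        = A j i * B i j := by
    intro i j
    rw [Matrix.diag_apply, LinearMap.toMatrix_apply, Matrix.stdBasis_eq_single]
    exact FS_entry A B.transpose i j j i
  simp only [h, Matrix.trace, Matrix.diag_apply, Matrix.mul_apply]
  rw [Finset.sum_comm]

theorem fs_indicator (τ : G ≃* G) (hτ : ∀ g, τ (τ g) = g) {m : ℕ}
    (ρ : Representation ℂ G (Fin m → ℂ)) (hρ : ρ.IsIrreducible)
    (hc : ∀ g, ρ.character (τ g) = ρ.character g⁻¹) :
    (Nat.card G : ℂ)⁻¹ * ∑ h, ρ.character (h * τ h) = 1 ∨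
      (Nat.card G : ℂ)⁻¹ * ∑ h, ρ.character (h * τ h) = -1 := by
  have hcard : (Nat.card G : ℂ) ≠ 0 := by
    rw [Nat.card_eq_fintype_card]
    exact_mod_cast Fintype.card_ne_zero
  have : Invertible (Nat.card G : ℂ) := invertibleOfNonzero hcard
  let A : G → Matrix (Fin m) (Fin m) ℂ := fun g => LinearMap.toMatrix' (ρ g)
  have hA : ∀ g h, A (g * h) = A g * A h := by
    intro g h
    simp only [A, map_mul]
    rw [Module.End.mul_eq_comp, LinearMap.toMatrix'_comp]
  have hAt : ∀ g, (A g).trace = ρ.character g := by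
    intro g
    simp only [A, Representation.character]
    rw [LinearMap.trace_eq_matrix_trace ℂ (Pi.basisFun ℂ (Fin m)), LinearMap.toMatrix_eq_toMatrix']
  let F : G → Matrix (Fin m) (Fin m) ℂ →ₗ[ℂ] Matrix (Fin m) (Fin m) ℂ := fun h =>
    (LinearMap.mulLeft ℂ (A h)).comp (LinearMap.mulRight ℂ (A (τ h)).transpose)
  have hF : ∀ h X, F h X = A h * (X * (A (τ h)).transpose) := fun h X => rfl
  have hFF : ∀ g h X, F g (F h X) = F (g * h) X := by
    intro g h X
    simp only [hF, hA, map_mul, Matrix.transpose_mul, Matrix.mul_assoc]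
  let c : ℂ := (Nat.card G : ℂ)⁻¹
  let f : Matrix (Fin m) (Fin m) ℂ →ₗ[ℂ] Matrix (Fin m) (Fin m) ℂ := c • ∑ h, F h
  have hf : ∀ X, f X = c • ∑ h, F h X := by
    intro X
    simp only [f, LinearMap.smul_apply, LinearMap.sum_apply]
  have hidem : IsIdempotentElem f := by
    refine LinearMap.ext (fun X => ?_)
    have h1 : ∀ g : G, F g (f X) = f X := by
      intro g
      rw [hf X, map_smul, map_sum]
      congr 1
      simp only [hFF]
      exact Fintype.sum_equiv (Equiv.mulLeft g) _ _ (fun h => rfl)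
    rw [Module.End.mul_apply, hf (f X)]
    simp only [h1, Finset.sum_const, Finset.card_univ]
    rw [← Nat.cast_smul_eq_nsmul ℂ, smul_smul]
    have h2 : c * (Fintype.card G : ℂ) = 1 := by
      simp only [c]
      rw [Nat.card_eq_fintype_card] at hcard ⊢
      exact inv_mul_cancel₀ hcard
    rw [h2, one_smul]
  let S := (Matrix.transposeLinearEquiv (Fin m) (Fin m) ℂ ℂ).toLinearMap
  have hS : ∀ X, S X = X.transpose := fun X => rfl
  have hcomm : ∀ X, S (f X) = f (S X) := by
    intro X
    rw [hf X, hf (S X), map_smul, map_sum]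
    congr 1
    refine Fintype.sum_equiv τ.toEquiv _ _ (fun h => ?_)
    show S (F h X) = F (τ h) (S X)
    rw [hS, hS, hF, hF, hτ, Matrix.transpose_mul, Matrix.transpose_mul, Matrix.transpose_transpose,
      Matrix.mul_assoc]
  have htr : LinearMap.trace ℂ _ f = 1 := by
    simp only [f, map_smul, map_sum, F, FS_tr1, Matrix.trace_transpose, hAt, hc]
    have h := ρ.char_orthonormal ρ
    rw [if_pos ⟨Representation.Equiv.refl ρ⟩] at h
    simpa [c] using h
  have htr2 : LinearMap.trace ℂ _ (S.comp f) = c * ∑ h, ρ.character (h * τ h) := by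
    have e : S.comp f = c • ∑ h, S.comp (F h) := by
      refine LinearMap.ext (fun X => ?_)
      simp only [LinearMap.comp_apply, hf, LinearMap.smul_apply, LinearMap.sum_apply, map_smul,
        map_sum]
    rw [e]
    simp only [map_smul, map_sum, F, S, FS_tr2, ← hA, hAt, smul_eq_mul]
  have hfin : Module.finrank ℂ (LinearMap.range f) = 1 := by
    have h := (LinearMap.IsIdempotentElem.isProj_range f hidem).trace
    rw [htr] at h
    exact_mod_cast h.symm
  obtain ⟨v, hv0, hv⟩ := finrank_eq_one_iff'.1 hfin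
  have hfv : f v.1 = v.1 := (LinearMap.IsIdempotentElem.isProj_range f hidem).map_id _ v.2
  have hSv : S v.1 ∈ LinearMap.range f := ⟨S v.1, by rw [← hcomm, hfv]⟩
  obtain ⟨d, hd⟩ := hv ⟨S v.1, hSv⟩
  have hd' : S v.1 = d • v.1 := by
    have := congrArg Subtype.val hd
    simpa using this.symm
  have hv0' : v.1 ≠ 0 := fun h => hv0 (Subtype.ext h)
  have hdd : d * d = 1 := by
    have h1 : S (S v.1) = v.1 := by rw [hS, hS, Matrix.transpose_transpose]
    rw [hd', map_smul, hd', smul_smul] at h1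
    have h2 : (d * d - 1) • v.1 = 0 := by rw [sub_smul, h1, one_smul, sub_self]
    rcases smul_eq_zero.1 h2 with h3 | h3
    · exact sub_eq_zero.1 h3
    · exact absurd h3 hv0'
  have hSf : S.comp f = d • f := by
    refine LinearMap.ext (fun X => ?_)
    obtain ⟨e, he⟩ := hv ⟨f X, ⟨X, rfl⟩⟩
    have he' : f X = e • v.1 := by
      have := congrArg Subtype.val he
      simpa using this.symm
    simp only [LinearMap.comp_apply, LinearMap.smul_apply, he', map_smul, hd', smul_smul]
    rw [mul_comm]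
  rw [hSf, map_smul, htr, smul_eq_mul, mul_one] at htr2
  show c * _ = 1 ∨ c * _ = -1
  rw [← htr2]
  exact mul_self_eq_one_iff.1 hdd

end GIM119
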