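import Pool.Agent.Lib.MP_119ee3_al.Basic

set_option autoImplicit false

/-!
# MP_119ee3_al: Induced characters of linear characters.
-/

open Classical

noncomputable section

namespace GIM119

open MG

variable {G : Type*} [Group G] [Fintype G]

/-- the extension by zero of a linear character -/
def IndPos_ext (H : Subgroup G) (l : H →* ℂˣ) (y : G) : ℂ :=
  if h : y ∈ H then ((l ⟨y, h⟩ : ℂˣ) : ℂ) else 0

theorem IndPos_eq (H : Subgroup G) (l : H →* ℂˣ) (g : G) :
    indChar H l g = (Nat.card H : ℂ)⁻¹ * ∑ x : G, IndPos_ext H l (x⁻¹ * g * x) := rfl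

/-- the one-dimensional representation of a linear character -/
def IndPos_rep (H : Subgroup G) (l : H →* ℂˣ) : Representation ℂ H ℂ where
  toFun h := ((l h : ℂˣ) : ℂ) • (1 : Module.End ℂ ℂ)
  map_one' := by simp
  map_mul' g h := by
    rw [map_mul, Units.val_mul]
    simp [mul_smul]
    rw [smul_comm]

theorem IndPos_char (H : Subgroup G) (l : H →* ℂˣ) (h : H) :
    (IndPos_rep H l).character h = ((l h : ℂˣ) : ℂ) := by
  show LinearMap.trace ℂ ℂ (((l h : ℂˣ) : ℂ) • (1 : Module.End ℂ ℂ)) = _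
  rw [map_smul, LinearMap.trace_one]
  simp

theorem indChar_inner_nat (H : Subgroup G) (l : H →* ℂˣ) {m : ℕ}
    (ρ : Representation ℂ G (Fin m → ℂ)) :
    ∃ k : ℕ, (Nat.card G : ℂ)⁻¹ * ∑ g, indChar H l g * ρ.character g⁻¹ = k := by
  have hcard : (Nat.card G : ℂ) ≠ 0 := by
    rw [Nat.card_eq_fintype_card]
    exact_mod_cast Fintype.card_ne_zero
  have hcardH : (Nat.card H : ℂ) ≠ 0 := by
    rw [Nat.card_eq_fintype_card]
    exact_mod_cast Fintype.card_ne_zero
  have : Invertible (Nat.card H : ℂ) := invertibleOfNonzero hcardH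
  let ρ' : Representation ℂ H (Fin m → ℂ) := ρ.comp H.subtype
  have key := ρ'.card_inv_mul_sum_char_mul_char_eq_finrank (IndPos_rep H l)
  refine ⟨_, Eq.trans ?_ key⟩
  have h1 : ∀ x : G, ∑ g, IndPos_ext H l (x⁻¹ * g * x) * ρ.character g⁻¹ =
      ∑ y, IndPos_ext H l y * ρ.character y⁻¹ := by
    intro x
    refine Fintype.sum_equiv (MulAut.conj x⁻¹).toEquiv _ _ (fun g => ?_)
    have e : (MulAut.conj x⁻¹).toEquiv g = x⁻¹ * g * x := by
      show x⁻¹ * g * (x⁻¹)⁻¹ = _
      rw [inv_inv]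
    rw [e]
    congr 1
    have e2 : (x⁻¹ * g * x)⁻¹ = x⁻¹ * g⁻¹ * (x⁻¹)⁻¹ := by group
    rw [e2, ρ.char_conj]
  have h2 : ∑ y, IndPos_ext H l y * ρ.character y⁻¹ =
      ∑ h : H, (IndPos_rep H l).character h * ρ'.character h⁻¹ := by
    have e : ∑ y, IndPos_ext H l y * ρ.character y⁻¹ =
        ∑ y ∈ Finset.univ.filter (fun y => y ∈ H), IndPos_ext H l y * ρ.character y⁻¹ := by
      rw [Finset.sum_filter]
      refine Finset.sum_congr rfl (fun y _ => ?_)
      split_ifs with hy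
      · rfl
      · simp [IndPos_ext, hy]
    rw [e, Finset.sum_subtype (Finset.univ.filter (fun y => y ∈ H)) (p := fun y => y ∈ H)
      (by simp)]
    refine Finset.sum_congr rfl (fun h _ => ?_)
    rw [IndPos_char]
    have e3 : IndPos_ext H l h.1 = ((l h : ℂˣ) : ℂ) := by
      unfold IndPos_ext
      rw [dif_pos h.2]
    rw [e3]
    rfl
  have e4 : ∑ g, indChar H l g * ρ.character g⁻¹ = (Nat.card G : ℂ) * ((Nat.card H : ℂ)⁻¹ *
      ∑ h : H, (IndPos_rep H l).character h * ρ'.character h⁻¹) := by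
    calc ∑ g, indChar H l g * ρ.character g⁻¹
        = ∑ g, ∑ x, (Nat.card H : ℂ)⁻¹ * (IndPos_ext H l (x⁻¹ * g * x) * ρ.character g⁻¹) := by
          refine Finset.sum_congr rfl (fun g _ => ?_)
          rw [IndPos_eq, mul_assoc, Finset.sum_mul, Finset.mul_sum]
      _ = ∑ x, ∑ g, (Nat.card H : ℂ)⁻¹ * (IndPos_ext H l (x⁻¹ * g * x) * ρ.character g⁻¹) :=
          Finset.sum_comm
      _ = ∑ _x : G, (Nat.card H : ℂ)⁻¹ *
            ∑ h : H, (IndPos_rep H l).character h * ρ'.character h⁻¹ := by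
          refine Finset.sum_congr rfl (fun x _ => ?_)
          rw [← Finset.mul_sum, h1, h2]
      _ = _ := by
          rw [Finset.sum_const, Finset.card_univ, nsmul_eq_mul, Nat.card_eq_fintype_card (α := G)]
  rw [e4, ← mul_assoc, inv_mul_cancel₀ hcard, one_mul]

theorem indChar_conj (H : Subgroup G) (l : H →* ℂˣ) (g h : G) :
    indChar H l (h * g * h⁻¹) = indChar H l g := by
  rw [IndPos_eq, IndPos_eq]
  congr 1
  refine Fintype.sum_equiv (Equiv.mulLeft h⁻¹) _ _ (fun x => ?_)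
  congr 1
  show x⁻¹ * (h * g * h⁻¹) * x = (h⁻¹ * x)⁻¹ * g * (h⁻¹ * x)
  group

end GIM119
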