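import Pool.Agent.Lib.MP_119ee3_al.Basic

set_option autoImplicit false

/-!
# MP_119ee3_al: Orthonormality and finiteness of the set of irreducible characters.
-/

open Classical

noncomputable section

namespace GIM119

open MG

variable {G : Type*} [Group G] [Fintype G]

theorem irr_orthonormal {χ ψ : G → ℂ} (hχ : IsIrrChar χ) (hψ : IsIrrChar ψ) :
    (Nat.card G : ℂ)⁻¹ * ∑ g, χ g * ψ g⁻¹ = if χ = ψ then 1 else 0 := by
  obtain ⟨m, ρ, hρ, rfl⟩ := hχ
  obtain ⟨k, σ, hσ, rfl⟩ := hψ
  have : Invertible (Nat.card G : ℂ) := invertibleOfNonzero (by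
    exact_mod_cast (Nat.card_pos (α := G)).ne')
  have h1 := Representation.char_orthonormal ρ σ
  have h2 := Representation.char_orthonormal ρ ρ
  rw [if_pos ⟨Representation.Equiv.refl ρ⟩] at h2
  by_cases he : ρ.character = σ.character
  · rw [if_pos he, ← he]
    exact h2
  · rw [if_neg he, h1, if_neg]
    rintro ⟨φ⟩
    exact he (Representation.char_iso φ).symm

theorem exists_irr_finset : ∃ I : Finset (G → ℂ), ∀ χ : G → ℂ, χ ∈ I ↔ IsIrrChar χ := by
  have hli : LinearIndependent ℂ (fun x : {χ : G → ℂ | IsIrrChar χ} => (x : G → ℂ)) := by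
    rw [linearIndependent_iff']
    intro s c hc j hj
    have h1 : ∀ g : G, ∑ i ∈ s, c i * (i : G → ℂ) g = 0 := by
      intro g
      have := congrFun hc g
      simpa using this
    have h2 : ∑ i ∈ s, c i * ((Nat.card G : ℂ)⁻¹ * ∑ g, (i : G → ℂ) g * (j : G → ℂ) g⁻¹) = 0 := by
      calc ∑ i ∈ s, c i * ((Nat.card G : ℂ)⁻¹ * ∑ g, (i : G → ℂ) g * (j : G → ℂ) g⁻¹)
          = (Nat.card G : ℂ)⁻¹ * ∑ g, (∑ i ∈ s, c i * (i : G → ℂ) g) * (j : G → ℂ) g⁻¹ := by
            simp only [Finset.mul_sum, Finset.sum_mul]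
            rw [Finset.sum_comm]
            refine Finset.sum_congr rfl fun g _ => Finset.sum_congr rfl fun i _ => ?_
            ring
        _ = 0 := by
            rw [Finset.sum_eq_zero, mul_zero]
            intro g _
            rw [h1 g, zero_mul]
    have h3 : ∀ i ∈ s, c i * ((Nat.card G : ℂ)⁻¹ * ∑ g, (i : G → ℂ) g * (j : G → ℂ) g⁻¹) =
        if i = j then c j else 0 := by
      intro i _
      rw [irr_orthonormal i.2 j.2]
      by_cases hij : i = j
      · subst hij
        simp
      · rw [if_neg hij, if_neg (fun h => hij (Subtype.ext h)), mul_zero]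
    rw [Finset.sum_congr rfl h3, Finset.sum_ite_eq' s j] at h2
    simpa [hj] using h2
  have hfin : {χ : G → ℂ | IsIrrChar χ}.Finite := hli.setFinite
  refine ⟨hfin.toFinset, fun χ => ?_⟩
  rw [Set.Finite.mem_toFinset]
  exact Iff.rfl

end GIM119
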