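import Pool.Agent.Lib.MP_119ee3_al.Basic

set_option autoImplicit false

/-!
# MP_119ee3_al: Orbit decomposition of the total character of a family.
-/

open Classical

noncomputable section

namespace GIM119

open MG

variable {G : Type*} [Group G] [Fintype G]

/-- the twisted orbit equivalence relation -/
def Orbits_setoid (τ : G ≃* G) : Setoid G where
  r x y := ∃ g : G, g * x * (τ g)⁻¹ = y
  iseqv := by
    refine ⟨fun x => ⟨1, by simp⟩, ?_, ?_⟩
    · rintro x y ⟨g, rfl⟩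
      refine ⟨g⁻¹, ?_⟩
      rw [map_inv]
      group
    · rintro x y z ⟨g, rfl⟩ ⟨h, rfl⟩
      refine ⟨h * g, ?_⟩
      rw [map_mul]
      group

theorem Orbits_inv {τ : G ≃* G} (hτ : ∀ g, τ (τ g) = g) {x : G} (hx : τ x = x⁻¹) (g : G) :
    τ (g * x * (τ g)⁻¹) = (g * x * (τ g)⁻¹)⁻¹ := by
  rw [map_mul, map_mul, map_inv, hτ, hx]
  group

theorem Orbits_mem {τ : G ≃* G} (x g ω : G) :
    x⁻¹ * g * x ∈ tstab τ ω ↔ g ∈ tstab τ (x * ω * (τ x)⁻¹) := by
  rw [mem_tstab, mem_tstab, map_mul, map_mul, map_inv]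
  constructor
  · intro h
    calc g * (x * ω * (τ x)⁻¹) * (τ g)⁻¹
        = x * (x⁻¹ * g * x * ω * ((τ x)⁻¹ * τ g * τ x)⁻¹) * (τ x)⁻¹ := by group
      _ = x * ω * (τ x)⁻¹ := by rw [h]
  · intro h
    calc x⁻¹ * g * x * ω * ((τ x)⁻¹ * τ g * τ x)⁻¹
        = x⁻¹ * (g * (x * ω * (τ x)⁻¹) * (τ g)⁻¹) * τ x := by group
      _ = ω := by rw [h]; group

theorem Orbits_count {τ : G ≃* G} (ω ω' : G) :
    (Finset.univ.filter fun x : G => x * ω * (τ x)⁻¹ = ω').card =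
      if ∃ g : G, g * ω * (τ g)⁻¹ = ω' then Nat.card (tstab τ ω) else 0 := by
  split_ifs with h
  · obtain ⟨g, hg⟩ := h
    rw [Nat.card_eq_fintype_card, ← Finset.card_univ]
    symm
    refine Finset.card_bij (fun s _ => g * s.1) ?_ ?_ ?_
    · intro s _
      rw [Finset.mem_filter]
      refine ⟨Finset.mem_univ _, ?_⟩
      have hs := s.2
      rw [mem_tstab] at hs
      rw [map_mul, ← hg]
      calc g * s.1 * ω * (τ g * τ s.1)⁻¹ = g * (s.1 * ω * (τ s.1)⁻¹) * (τ g)⁻¹ := by group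
        _ = _ := by rw [hs]
    · intro s _ t _ hst
      exact Subtype.ext (mul_left_cancel hst)
    · intro x hx
      rw [Finset.mem_filter] at hx
      refine ⟨⟨g⁻¹ * x, ?_⟩, Finset.mem_univ _, by simp⟩
      rw [mem_tstab, map_mul, map_inv]
      calc g⁻¹ * x * ω * ((τ g)⁻¹ * τ x)⁻¹ = g⁻¹ * (x * ω * (τ x)⁻¹) * τ g := by group
        _ = ω := by rw [hx.2, ← hg]; group
  · rw [Finset.card_eq_zero, Finset.filter_eq_empty_iff]
    intro x _ hx
    exact h ⟨x, hx⟩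

/-- the linear character of a family -/
def Orbits_lin {τ : G ≃* G} {l : G → G → ℂ} (hl : Fam τ l) (ω : G) (hω : τ ω = ω⁻¹) :
    tstab τ ω →* ℂˣ where
  toFun g := Units.mk0 (l g.1 ω) (by
    intro h
    have h1 := hl.mul ω g.1 (g.1)⁻¹ hω g.2 (inv_mem g.2)
    rw [mul_inv_cancel, hl.one ω hω, h, zero_mul] at h1
    exact one_ne_zero h1)
  map_one' := Units.ext (hl.one ω hω)
  map_mul' g h := Units.ext (hl.mul ω g.1 h.1 hω g.2 h.2)

theorem Fam.exists_reps {τ : G ≃* G} (hτ : ∀ g, τ (τ g) = g) {l : G → G → ℂ}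
    (hl : Fam τ l) :
    ∃ (R : Finset G) (l' : ∀ ω : G, tstab τ ω →* ℂˣ),
      (∀ ω ∈ R, τ ω = ω⁻¹) ∧
      (∀ ω : G, τ ω = ω⁻¹ → ∃! x, x ∈ R ∧ ∃ g : G, g * x * (τ g)⁻¹ = ω) ∧
      ∀ g : G, ∑ ω ∈ R, indChar (tstab τ ω) (l' ω) g
        = ∑ ω with (τ ω = ω⁻¹ ∧ g ∈ tstab τ ω), l g ω := by
  let s := Orbits_setoid τ
  let out : G → G := fun ω => Quotient.out (Quotient.mk s ω)
  have hout : ∀ ω, ∃ g : G, g * out ω * (τ g)⁻¹ = ω := fun ω =>
    (Quotient.mk_out (s := s) ω : s.r _ _)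
  have hout' : ∀ ω, ∃ g : G, g * ω * (τ g)⁻¹ = out ω := fun ω => s.symm (hout ω)
  let R : Finset G := (Finset.univ.filter fun ω => τ ω = ω⁻¹).image out
  have hR1 : ∀ ω ∈ R, τ ω = ω⁻¹ := by
    intro ω hω
    obtain ⟨ω', hω', rfl⟩ := Finset.mem_image.1 hω
    rw [Finset.mem_filter] at hω'
    obtain ⟨g, hg⟩ := hout' ω'
    rw [← hg]
    exact Orbits_inv hτ hω'.2 g
  have hR2 : ∀ ω : G, τ ω = ω⁻¹ → ∃! x, x ∈ R ∧ ∃ g : G, g * x * (τ g)⁻¹ = ω := by
    intro ω hω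
    refine ⟨out ω, ⟨Finset.mem_image.2 ⟨ω, by simp [hω], rfl⟩, hout ω⟩, ?_⟩
    rintro y ⟨hy, g, hg⟩
    obtain ⟨ω', _, rfl⟩ := Finset.mem_image.1 hy
    have h1 : s.r ω' ω := s.trans (hout' ω') ⟨g, hg⟩
    show Quotient.out (Quotient.mk s ω') = Quotient.out (Quotient.mk s ω)
    rw [Quotient.sound (s := s) h1]
  let l' : ∀ ω : G, tstab τ ω →* ℂˣ := fun ω =>
    if hω : τ ω = ω⁻¹ then Orbits_lin hl ω hω else 1
  refine ⟨R, l', hR1, hR2, ?_⟩
  intro g
  let F : G → ℂ := fun ω' => if g ∈ tstab τ ω' then l g ω' else 0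
  have hind : ∀ ω ∈ R, indChar (tstab τ ω) (l' ω) g =
      ∑ ω' : G, if ∃ x : G, x * ω * (τ x)⁻¹ = ω' then F ω' else 0 := by
    intro ω hω
    have hω' := hR1 ω hω
    have hcard : (Nat.card (tstab τ ω) : ℂ) ≠ 0 := by
      rw [Nat.card_eq_fintype_card]
      exact_mod_cast Fintype.card_ne_zero
    have h1 : ∀ x : G, (if h : x⁻¹ * g * x ∈ tstab τ ω then
        ((l' ω ⟨x⁻¹ * g * x, h⟩ : ℂˣ) : ℂ) else 0) = F (x * ω * (τ x)⁻¹) := by
      intro x
      by_cases h : x⁻¹ * g * x ∈ tstab τ ω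
      · have h2 := (Orbits_mem x g ω).1 h
        rw [dif_pos h]
        show _ = if g ∈ tstab τ (x * ω * (τ x)⁻¹) then l g (x * ω * (τ x)⁻¹) else 0
        rw [if_pos h2]
        have h3 := hl.conj ω (x⁻¹ * g * x) x hω' h
        have h4 : x * (x⁻¹ * g * x) * x⁻¹ = g := by group
        rw [h4] at h3
        rw [h3]
        simp only [l', dif_pos hω']
        rfl
      · have h2 := fun h' => h ((Orbits_mem x g ω).2 h')
        rw [dif_neg h]
        show _ = if g ∈ tstab τ (x * ω * (τ x)⁻¹) then l g (x * ω * (τ x)⁻¹) else 0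
        rw [if_neg h2]
    have h2 : ∑ x : G, F (x * ω * (τ x)⁻¹) =
        ∑ ω' : G, ((Finset.univ.filter fun x : G => x * ω * (τ x)⁻¹ = ω').card : ℂ) * F ω' := by
      rw [← Finset.sum_fiberwise (Finset.univ : Finset G) (fun x => x * ω * (τ x)⁻¹)]
      refine Finset.sum_congr rfl (fun ω' _ => ?_)
      rw [Finset.sum_congr rfl (g := fun _ => F ω')
        (fun x hx => by rw [(Finset.mem_filter.1 hx).2])]
      rw [Finset.sum_const, nsmul_eq_mul]
    unfold indChar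
    simp only [h1]
    rw [h2, Finset.mul_sum]
    refine Finset.sum_congr rfl (fun ω' _ => ?_)
    rw [Orbits_count]
    split_ifs with h
    · rw [← mul_assoc, inv_mul_cancel₀ hcard, one_mul]
    · simp
  rw [Finset.sum_congr rfl hind, Finset.sum_comm, Finset.sum_filter]
  refine Finset.sum_congr rfl (fun ω' _ => ?_)
  by_cases hω' : τ ω' = ω'⁻¹
  · obtain ⟨x, ⟨hxR, hx⟩, huniq⟩ := hR2 ω' hω'
    rw [Finset.sum_eq_single x]
    · rw [if_pos hx]
      simp [F, hω']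
    · intro y hy hyx
      rw [if_neg]
      intro h
      exact hyx (huniq y ⟨hy, h⟩)
    · intro h
      exact absurd hxR h
  · rw [if_neg (fun h => hω' h.1)]
    refine Finset.sum_eq_zero (fun ω hω => ?_)
    rw [if_neg]
    rintro ⟨x, rfl⟩
    exact hω' (Orbits_inv hτ (hR1 ω hω) x)

end GIM119
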