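import Pool.Agent.Lib.MP_119ee3_al.Basic
import Pool.Agent.Lib.MP_119ee3_al.Comp
import Pool.Agent.Lib.MP_119ee3_al.IrrFin
import Pool.Agent.Lib.MP_119ee3_al.FS
import Pool.Agent.Lib.MP_119ee3_al.IndPos
import Pool.Agent.Lib.MP_119ee3_al.Orbits

set_option autoImplicit false

/-!
# MP_119ee3_al: A family gives a generalized involution model.
-/

open Classical

noncomputable section

namespace GIM119

open MG

variable {G : Type*} [Group G] [Fintype G]

theorem Fam.hasGIM {τ : G ≃* G} (hτ : ∀ g, τ (τ g) = g)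
    (hconj : ∀ g, ∃ k, τ g = k * g⁻¹ * k⁻¹) {l : G → G → ℂ} (hl : Fam τ l) :
    HasGIM τ := by
  obtain ⟨R, l', hR1, hR2, hsum⟩ := Fam.exists_reps hτ hl
  obtain ⟨I, hI⟩ := exists_irr_finset (G := G)
  refine ⟨R, l', I, hR1, hR2, hI, ?_⟩
  have hcard : (Nat.card G : ℂ) ≠ 0 := by
    rw [Nat.card_eq_fintype_card]
    exact_mod_cast Fintype.card_ne_zero
  have hΘ : ∀ g : G, ∑ ω ∈ R, indChar (tstab τ ω) (l' ω) g =
      ((Finset.univ.filter fun h : G => h * τ h = g).card : ℂ) := fun g =>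
    (hsum g).trans (hl.sum g)
  have hone : ∀ (m : ℕ) (ρ : Representation ℂ G (Fin m → ℂ)), ρ.IsIrreducible →
      (Nat.card G : ℂ)⁻¹ * ∑ g, (∑ ω ∈ R, indChar (tstab τ ω) (l' ω) g) * ρ.character g⁻¹ = 1 := by
    intro m ρ hρ
    have hc : ∀ g, ρ.character (τ g) = ρ.character g⁻¹ := by
      intro g
      obtain ⟨k, hk⟩ := hconj g
      rw [hk, ρ.char_conj]
    have h1 := fs_indicator τ hτ ρ hρ hc
    have h2 : ∑ g, (∑ ω ∈ R, indChar (tstab τ ω) (l' ω) g) * ρ.character g⁻¹ =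
        ∑ h, ρ.character (h * τ h) := by
      simp only [hΘ]
      have e1 : ∑ h : G, ρ.character (h * τ h)⁻¹ = ∑ g : G,
          ((Finset.univ.filter fun h : G => h * τ h = g).card : ℂ) * ρ.character g⁻¹ := by
        rw [← Finset.sum_fiberwise (Finset.univ : Finset G) (fun h => h * τ h)]
        refine Finset.sum_congr rfl (fun g _ => ?_)
        rw [Finset.sum_congr rfl (g := fun _ => ρ.character g⁻¹)
          (fun x hx => by rw [(Finset.mem_filter.1 hx).2])]
        rw [Finset.sum_const, nsmul_eq_mul]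
      rw [← e1]
      refine Fintype.sum_equiv ((Equiv.inv G).trans τ.toEquiv) _ _ (fun h => ?_)
      show ρ.character (h * τ h)⁻¹ = ρ.character (τ h⁻¹ * τ (τ h⁻¹))
      rw [hτ, mul_inv_rev, map_inv]
    have h3 : ∃ k : ℕ, (Nat.card G : ℂ)⁻¹ *
        ∑ g, (∑ ω ∈ R, indChar (tstab τ ω) (l' ω) g) * ρ.character g⁻¹ = k := by
      choose k hk using fun ω : G => indChar_inner_nat (tstab τ ω) (l' ω) ρ
      refine ⟨∑ ω ∈ R, k ω, ?_⟩
      rw [Nat.cast_sum, Finset.sum_congr rfl (fun ω _ => (hk ω).symm)]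
      simp only [Finset.sum_mul]
      rw [Finset.sum_comm, Finset.mul_sum]
    obtain ⟨k, hk⟩ := h3
    rw [← h2] at h1
    rcases h1 with h | h
    · exact h
    · exfalso
      rw [h] at hk
      have h4 : ((k + 1 : ℕ) : ℂ) = 0 := by
        push_cast
        rw [← hk]
        ring
      exact Nat.succ_ne_zero k (by exact_mod_cast h4)
  let f : G → ℂ := fun g => (∑ ω ∈ R, indChar (tstab τ ω) (l' ω) g) - ∑ χ ∈ I, χ g
  have hf : f = 0 := by
    refine eq_zero_of_orthogonal ?_ ?_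
    · intro g h
      simp only [f, indChar_conj]
      congr 1
      refine Finset.sum_congr rfl (fun χ hχ => ?_)
      obtain ⟨m, ρ, _, rfl⟩ := (hI χ).1 hχ
      rw [ρ.char_conj]
    · intro m ρ hρ
      have h1 := hone m ρ hρ
      have h2 : (Nat.card G : ℂ)⁻¹ * ∑ g, (∑ χ ∈ I, χ g) * ρ.character g⁻¹ = 1 := by
        have e : ∑ g, (∑ χ ∈ I, χ g) * ρ.character g⁻¹ =
            ∑ χ ∈ I, ∑ g, χ g * ρ.character g⁻¹ := by
          simp only [Finset.sum_mul]
          rw [Finset.sum_comm]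
        have hρI : ρ.character ∈ I := (hI _).2 ⟨m, ρ, hρ, rfl⟩
        rw [e, Finset.mul_sum, Finset.sum_congr rfl
          (fun χ hχ => irr_orthonormal ((hI χ).1 hχ) ((hI _).1 hρI))]
        rw [Finset.sum_ite_eq' I ρ.character (fun _ => (1 : ℂ)), if_pos hρI]
      have h3 : (Nat.card G : ℂ)⁻¹ * ∑ g, f g * ρ.character g⁻¹ = 0 := by
        simp only [f, sub_mul, Finset.sum_sub_distrib, mul_sub]
        rw [h1, h2, sub_self]
      rcases mul_eq_zero.1 h3 with h4 | h4
      · exact absurd h4 (inv_ne_zero hcard)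
      · exact h4
  intro g
  have := congrFun hf g
  exact sub_eq_zero.1 this

end GIM119
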