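import Pool.Agent.Lib.MP_119ee3_al.Basic2
import Pool.Agent.Lib.MP_119ee3_al.GI

set_option autoImplicit false

/-!
# MP_119ee3_al: Generalized involutions modulo scalars, q or n odd.
-/

open Classical

noncomputable section

namespace GIM119

open MG

variable {r n : ℕ} [NeZero r]

theorem GI1_iff [NeZero n] {q : ℕ} (hqr : q ∣ r) (h : Odd q ∨ Odd n) (ω : MG r n) :
    ω * tau r n ω ∈ Cq r q n ↔ TSym 0 ω := by
  constructor
  · rintro ⟨k, hk⟩
    have hT := (TSym_iff _ ω).2 hk
    have h2 : 2 * (((r / q : ℕ) : ZMod r) * k) = 0 := by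
      have h3 := hT.2 (ω.perm 0)
      rw [hT.1 0, hT.2 0] at h3
      have h4 : ω.col 0 + 2 * (((r / q : ℕ) : ZMod r) * k) = ω.col 0 + 0 := by
        rw [add_zero]
        conv_rhs => rw [h3]
        ring
      exact add_left_cancel h4
    have h0 : ((r / q : ℕ) : ZMod r) * k = 0 := by
      rcases h with hq | hn
      · have h5 : (q : ZMod r) * (((r / q : ℕ) : ZMod r) * k) = 0 := by
          rw [← mul_assoc, ← Nat.cast_mul, Nat.mul_div_cancel' hqr, ZMod.natCast_self, zero_mul]
        obtain ⟨m, hm⟩ := hq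
        rw [hm] at h5
        push_cast at h5
        have h6 : (2 * (m : ZMod r) + 1) * (((r / (2 * m + 1) : ℕ) : ZMod r) * k) =
            m * (2 * (((r / (2 * m + 1) : ℕ) : ZMod r) * k)) +
              ((r / (2 * m + 1) : ℕ) : ZMod r) * k := by ring
        rw [hm] at h2 ⊢
        rw [h6, h2, mul_zero, zero_add] at h5
        exact h5
      · have : Fact (Nat.Prime 2) := ⟨Nat.prime_two⟩
        have hpow : ω.perm ^ 2 ^ 1 = 1 := by
          ext i
          simp [pow_two, hT.1 i]
        have hc : ¬ 2 ∣ Fintype.card (Fin n) := by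
          rw [Fintype.card_fin]
          exact hn.not_two_dvd_nat
        obtain ⟨i, hi⟩ := Equiv.Perm.exists_fixed_point_of_prime hc hpow
        have h3 := hT.2 i
        rw [hi] at h3
        exact (add_eq_left.1 h3.symm)
    rwa [h0] at hT
  · intro hT
    rw [(TSym_iff _ ω).1 hT, scal_zero]
    exact one_mem _

end GIM119
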