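import Pool.Agent.Lib.MP_119ee3_al.Basic
import Pool.Agent.Lib.MP_119ee3_al.Abel

set_option autoImplicit false

/-!
# MP_119ee3_al: Self-dual groups have equal greatest common divisors.
-/

open Classical

noncomputable section

namespace GIM119

open MG

theorem gcd_eq_of_iso {r p q n : ℕ} [NeZero r] (hn : 3 ≤ n) (hp : p ∣ r) (hq : q ∣ r)
    (hpq : p * q ∣ r * n) (e : PRG r p q n ≃* PRG r q p n) : Nat.gcd p n = Nat.gcd q n := by
  have h1 := card_abelianization hn hp hq hpq
  have h2 := card_abelianization hn hq hp (by rwa [mul_comm q p])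
  have h3 : Nat.card (Abelianization (PRG r p q n)) = Nat.card (Abelianization (PRG r q p n)) :=
    Nat.card_congr (MulEquiv.abelianizationCongr e).toEquiv
  rw [h3, mul_comm p q, h2] at h1
  have hr : 0 < 2 * r := by
    have := NeZero.pos r
    omega
  exact Nat.eq_of_mul_eq_mul_left hr h1

end GIM119
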