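import Pool.Agent.Lib.MP_119ee3_al.Basic2

set_option autoImplicit false

/-!
# MP_119ee3_al: At least eight linear characters of order two.
-/

open Classical

noncomputable section

namespace GIM119

open MG

theorem Homs1_pow_mod {N : ℕ} (hN : Even N) (k : ℕ) : (-1 : ℤˣ) ^ (k % N) = (-1) ^ k := by
  conv_rhs => rw [← Nat.div_add_mod k N, pow_add, pow_mul, hN.neg_one_pow, one_pow, one_mul]

/-- Parity of an element. -/
def Homs1_eps {r : ℕ} (x : ZMod r) : ℤˣ := (-1) ^ x.val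

theorem Homs1_eps_cast {r : ℕ} [NeZero r] (hr : Even r) (k : ℕ) :
    Homs1_eps (k : ZMod r) = (-1) ^ k := by
  rw [Homs1_eps, ZMod.val_natCast, Homs1_pow_mod hr]

theorem Homs1_eps_add {r : ℕ} [NeZero r] (hr : Even r) (x y : ZMod r) :
    Homs1_eps (x + y) = Homs1_eps x * Homs1_eps y := by
  rw [Homs1_eps, ZMod.val_add, Homs1_pow_mod hr, pow_add, Homs1_eps, Homs1_eps]

theorem Homs1_cs {r p : ℕ} [NeZero r] (g : Gp r p 2) :
    ∃ y : ℕ, cs g.1 = ((p * y : ℕ) : ZMod r) := by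
  obtain ⟨y, hy⟩ := g.2
  refine ⟨y.val, ?_⟩
  rw [hy, Nat.cast_mul, ZMod.natCast_zmod_val]

theorem Homs1_val {r p q m : ℕ} [NeZero r] (h : r = p * q * m) (hm : Even m) (y : ℕ) :
    (-1 : ℤˣ) ^ ((((p * y : ℕ) : ZMod r)).val / p) = (-1) ^ y := by
  have hr0 : r ≠ 0 := NeZero.ne r
  have hp0 : 0 < p := by
    rcases Nat.eq_zero_or_pos p with h0 | h0
    · subst h0
      simp at h
      exact absurd h hr0
    · exact h0
  have h1 : (((p * y : ℕ) : ZMod r)).val = p * (y % (q * m)) := by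
    rw [ZMod.val_natCast, h, mul_assoc, Nat.mul_mod_mul_left]
  rw [h1, Nat.mul_div_cancel_left _ hp0, Homs1_pow_mod (hm.mul_left q)]

/-- First character. -/
def Homs1_a (r p : ℕ) : Gp r p 2 →* ℤˣ where
  toFun g := Equiv.Perm.sign g.1.perm
  map_one' := map_one _
  map_mul' _ _ := map_mul _ _ _

theorem Homs1_eps_col {r p : ℕ} [NeZero r] (hr : Even r) (hp : Even p) (g : Gp r p 2)
    (j : Fin 2) : Homs1_eps (g.1.col j) = Homs1_eps (g.1.col 0) := by
  obtain ⟨y, hy⟩ := Homs1_cs g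
  have h1 : g.1.col 0 + g.1.col 1 = ((p * y : ℕ) : ZMod r) := by
    rw [← hy]
    simp [cs, Fin.sum_univ_two]
  have h2 := congrArg Homs1_eps h1
  rw [Homs1_eps_add hr, Homs1_eps_cast hr, (hp.mul_right y).neg_one_pow] at h2
  have h3 : Homs1_eps (g.1.col 1) = Homs1_eps (g.1.col 0) := by
    rcases Int.units_eq_one_or (Homs1_eps (g.1.col 0)) with h4 | h4 <;>
      rcases Int.units_eq_one_or (Homs1_eps (g.1.col 1)) with h5 | h5 <;>
      rw [h4, h5] at h2 ⊢
    · exact absurd h2 (by decide)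
    · exact absurd h2 (by decide)
  fin_cases j
  · rfl
  · exact h3

/-- Second character. -/
def Homs1_b {r p : ℕ} [NeZero r] (hr : Even r) (hp : Even p) : Gp r p 2 →* ℤˣ where
  toFun g := Homs1_eps (g.1.col 0)
  map_one' := by
    change (-1 : ℤˣ) ^ (0 : ZMod r).val = 1
    rw [ZMod.val_zero, pow_zero]
  map_mul' := by
    intro g g'
    change Homs1_eps (g'.1.col 0 + g.1.col (g'.1.perm 0)) = _
    rw [Homs1_eps_add hr, Homs1_eps_col hr hp g, mul_comm]

/-- Third character. -/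
def Homs1_c {r p q m : ℕ} [NeZero r] (h : r = p * q * m) (hm : Even m) : Gp r p 2 →* ℤˣ where
  toFun g := (-1) ^ ((cs g.1).val / p)
  map_one' := by
    have h2 : cs (1 : Gp r p 2).1 = (0 : ZMod r) := cs_one
    rw [h2, ZMod.val_zero, Nat.zero_div, pow_zero]
  map_mul' := by
    intro g g'
    obtain ⟨y, hy⟩ := Homs1_cs g
    obtain ⟨z, hz⟩ := Homs1_cs g'
    have h1 : cs (g * g').1 = ((p * (y + z) : ℕ) : ZMod r) := by
      have h2 : cs (g * g').1 = cs g.1 + cs g'.1 := cs_mul _ _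
      rw [h2, hy, hz]
      push_cast
      ring
    rw [h1, hy, hz, Homs1_val h hm, Homs1_val h hm, Homs1_val h hm, pow_add]

theorem Homs1_c_eq {r p q m : ℕ} [NeZero r] (h : r = p * q * m) (hm : Even m) (g : Gp r p 2)
    (y : ℕ) (hy : cs g.1 = ((p * y : ℕ) : ZMod r)) : Homs1_c h hm g = (-1) ^ y := by
  change (-1 : ℤˣ) ^ ((cs g.1).val / p) = _
  rw [hy, Homs1_val h hm]

theorem eight_le_homs {r p q m : ℕ} [NeZero r] (h : r = p * q * m) (hp : Even p)
    (hm : Even m) : 8 ≤ Nat.card (PRG r p q 2 →* ℤˣ) := by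
  have hr0 : r ≠ 0 := NeZero.ne r
  have hr : Even r := by
    rw [h]
    exact hm.mul_left _
  have hq0 : 0 < q := by
    rcases Nat.eq_zero_or_pos q with h0 | h0
    · subst h0
      simp at h
      exact absurd h hr0
    · exact h0
  have hrq : r / q = p * m := by
    rw [h, show p * q * m = p * m * q by ring, Nat.mul_div_cancel _ hq0]
  have hz : ∀ z ∈ (Cq r q 2).subgroupOf (Gp r p 2), Homs1_a r p z = 1 ∧
      Homs1_b hr hp z = 1 ∧ Homs1_c h hm z = 1 := by
    rintro z ⟨k, hk⟩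
    have hk' : z.1 = scal 2 (((r / q : ℕ) : ZMod r) * k) := hk
    refine ⟨?_, ?_, ?_⟩
    · change Equiv.Perm.sign z.1.perm = 1
      rw [hk', scal_perm, map_one]
    · change Homs1_eps (z.1.col 0) = 1
      have h1 : z.1.col 0 = ((p * (m * k.val) : ℕ) : ZMod r) := by
        rw [hk', scal_col, hrq]
        push_cast
        rw [ZMod.natCast_zmod_val]
        ring
      rw [h1, Homs1_eps_cast hr, (hp.mul_right _).neg_one_pow]
    · rw [Homs1_c_eq h hm z (2 * (m * k.val)), (even_two_mul _).neg_one_pow]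
      rw [hk', cs_scal, hrq]
      push_cast
      rw [ZMod.natCast_zmod_val]
      ring
  let A : PRG r p q 2 →* ℤˣ := QuotientGroup.lift _ (Homs1_a r p) fun z hz' => (hz z hz').1
  let B : PRG r p q 2 →* ℤˣ := QuotientGroup.lift _ (Homs1_b hr hp) fun z hz' => (hz z hz').2.1
  let C : PRG r p q 2 →* ℤˣ := QuotientGroup.lift _ (Homs1_c h hm) fun z hz' => (hz z hz').2.2
  let s : Gp r p 2 := ⟨⟨Equiv.swap 0 1, 0⟩, ⟨0, by simp [cs]⟩⟩
  let u : Gp r p 2 := ⟨⟨1, ![1, -1]⟩, ⟨0, by simp [cs, Fin.sum_univ_two]⟩⟩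
  let w : Gp r p 2 := ⟨⟨1, ![0, p]⟩, ⟨1, by simp [cs, Fin.sum_univ_two]⟩⟩
  have hcs : cs s.1 = ((p * 0 : ℕ) : ZMod r) := by simp [s, cs]
  have hcu : cs u.1 = ((p * 0 : ℕ) : ZMod r) := by simp [u, cs, Fin.sum_univ_two]
  have hcw : cs w.1 = ((p * 1 : ℕ) : ZMod r) := by simp [w, cs, Fin.sum_univ_two]
  have hAs : A (QuotientGroup.mk s) = -1 := by
    change Equiv.Perm.sign (Equiv.swap 0 1 : Equiv.Perm (Fin 2)) = -1
    exact Equiv.Perm.sign_swap (by decide)
  have hAu : A (QuotientGroup.mk u) = 1 := by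
    change Equiv.Perm.sign (1 : Equiv.Perm (Fin 2)) = 1
    exact map_one _
  have hAw : A (QuotientGroup.mk w) = 1 := by
    change Equiv.Perm.sign (1 : Equiv.Perm (Fin 2)) = 1
    exact map_one _
  have hBs : B (QuotientGroup.mk s) = 1 := by
    have h1 := Homs1_eps_cast hr 0
    rw [Nat.cast_zero, pow_zero] at h1
    exact h1
  have hBu : B (QuotientGroup.mk u) = -1 := by
    have h1 := Homs1_eps_cast hr 1
    rw [Nat.cast_one, pow_one] at h1
    exact h1
  have hBw : B (QuotientGroup.mk w) = 1 := by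
    have h1 := Homs1_eps_cast hr 0
    rw [Nat.cast_zero, pow_zero] at h1
    exact h1
  have hCs : C (QuotientGroup.mk s) = 1 := Homs1_c_eq h hm s 0 hcs
  have hCu : C (QuotientGroup.mk u) = 1 := Homs1_c_eq h hm u 0 hcu
  have hCw : C (QuotientGroup.mk w) = -1 := Homs1_c_eq h hm w 1 hcw
  let E : (PRG r p q 2 →* ℤˣ) → ℤˣ × ℤˣ × ℤˣ :=
    fun f => (f (QuotientGroup.mk s), f (QuotientGroup.mk u), f (QuotientGroup.mk w))
  have hE : Function.Surjective E := by
    rintro ⟨a, b, c⟩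
    refine ⟨(if a = 1 then 1 else A) * (if b = 1 then 1 else B) * (if c = 1 then 1 else C), ?_⟩
    simp only [E, MonoidHom.mul_apply]
    rcases Int.units_eq_one_or a with rfl | rfl <;> rcases Int.units_eq_one_or b with rfl | rfl <;>
      rcases Int.units_eq_one_or c with rfl | rfl <;>
      simp [hAs, hAu, hAw, hBs, hBu, hBw, hCs, hCu, hCw]
  have hfin : Finite (PRG r p q 2 →* ℤˣ) := Finite.of_injective _ DFunLike.coe_injective
  have h8 : Nat.card (ℤˣ × ℤˣ × ℤˣ) = 8 := by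
    rw [Nat.card_eq_fintype_card]
    rfl
  rw [← h8]
  exact Nat.card_le_card_of_surjective E hE

end GIM119
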