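import Pool.Agent.Lib.MP_119ee3_al.Basic2

set_option autoImplicit false

/-!
# MP_119ee3_al: At most four linear characters of order two.
-/

open Classical

noncomputable section

namespace GIM119

open MG

theorem Homs2_mem {r q : ℕ} (a b y : ZMod r) (h : a + b = q * y) :
    (⟨1, ![a, b]⟩ : MG r 2) ∈ Gp r q 2 := by
  refine ⟨y, ?_⟩
  simp only [cs, Fin.sum_univ_two, Matrix.cons_val_zero, Matrix.cons_val_one]
  exact h

/-- Diagonal elements. -/
def Homs2_t {r q : ℕ} (a b y : ZMod r) (h : a + b = q * y) : Gp r q 2 :=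
  ⟨⟨1, ![a, b]⟩, Homs2_mem a b y h⟩

theorem Homs2_t_ext {r q : ℕ} {a b y a' b' y' : ZMod r} {h : a + b = q * y}
    {h' : a' + b' = q * y'} (ha : a = a') (hb : b = b') :
    Homs2_t a b y h = Homs2_t a' b' y' h' := by
  subst ha hb
  rfl

theorem Homs2_t_mul {r q : ℕ} {a b y a' b' y' : ZMod r} {h : a + b = q * y}
    {h' : a' + b' = q * y'} :
    Homs2_t a b y h * Homs2_t a' b' y' h' =
      Homs2_t (a + a') (b + b') (y + y') (by linear_combination h + h') := by
  apply Subtype.ext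
  change (⟨1, ![a, b]⟩ : MG r 2) * ⟨1, ![a', b']⟩ = ⟨1, ![a + a', b + b']⟩
  ext i
  · rfl
  · rw [mul_col]
    fin_cases i
    · exact add_comm _ _
    · exact add_comm _ _

theorem Homs2_t_pow {r q : ℕ} {a b y : ZMod r} {h : a + b = q * y} (k : ℕ) :
    Homs2_t a b y h ^ k =
      Homs2_t ((k : ZMod r) * a) ((k : ZMod r) * b) ((k : ZMod r) * y)
        (by linear_combination (k : ZMod r) * h) := by
  induction k with
  | zero =>
    rw [pow_zero]
    apply Subtype.ext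
    change (1 : MG r 2) = ⟨1, ![((0 : ℕ) : ZMod r) * a, ((0 : ℕ) : ZMod r) * b]⟩
    ext i
    · rfl
    · fin_cases i <;> simp
  | succ k ih =>
    rw [pow_succ, ih, Homs2_t_mul]
    apply Homs2_t_ext
    · push_cast
      ring
    · push_cast
      ring

theorem Homs2_perm (σ : Equiv.Perm (Fin 2)) : σ = 1 ∨ σ = Equiv.swap 0 1 := by
  revert σ
  decide

/-- The swap. -/
def Homs2_s (r q : ℕ) : Gp r q 2 := ⟨⟨Equiv.swap 0 1, 0⟩, ⟨0, by simp [cs]⟩⟩

theorem Homs2_s_mul_t {r q : ℕ} {a b y : ZMod r} {h : a + b = q * y} :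
    Homs2_s r q * Homs2_t a b y h =
      Homs2_t b a y (by rw [add_comm]; exact h) * Homs2_s r q := by
  apply Subtype.ext
  change (⟨Equiv.swap 0 1, 0⟩ : MG r 2) * ⟨1, ![a, b]⟩ = ⟨1, ![b, a]⟩ * ⟨Equiv.swap 0 1, 0⟩
  ext i
  · rfl
  · rw [mul_col, mul_col]
    fin_cases i
    · simp
    · simp

theorem Homs2_det {r q : ℕ} [NeZero r] (hq : Odd q) (φ : Gp r q 2 →* ℤˣ) (g : Gp r q 2) :
    ∃ (k l : ℕ), φ g = φ (Homs2_s r q) ^ k * φ (Homs2_t 0 q 1 (by ring)) ^ l ∧
      ∀ ψ : Gp r q 2 →* ℤˣ,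
        ψ g = ψ (Homs2_s r q) ^ k * ψ (Homs2_t 0 q 1 (by ring)) ^ l := by
  have hu : ∀ ψ : Gp r q 2 →* ℤˣ, ψ (Homs2_t 1 (-1) 0 (by ring)) = 1 := by
    intro ψ
    have h1 : Homs2_s r q * Homs2_t 0 q 1 (by ring) =
        Homs2_t 0 q 1 (by ring) * Homs2_t 1 (-1) 0 (by ring) ^ q * Homs2_s r q := by
      rw [Homs2_s_mul_t, Homs2_t_pow, Homs2_t_mul]
      congr 1
      apply Homs2_t_ext
      · ring
      · ring
    have h2 := congrArg ψ h1
    rw [map_mul, map_mul, map_mul, map_pow, mul_comm] at h2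
    have h3 := mul_right_cancel h2
    have h4 : ψ (Homs2_t 1 (-1) 0 (by ring)) ^ q = 1 := by
      have h5 : ψ (Homs2_t 0 q 1 (by ring)) * 1 = ψ (Homs2_t 0 q 1 (by ring)) *
        ψ (Homs2_t 1 (-1) 0 (by ring)) ^ q := by rw [mul_one]; exact h3
      exact (mul_left_cancel h5).symm
    rcases Int.units_eq_one_or (ψ (Homs2_t 1 (-1) 0 (by ring))) with h5 | h5
    · exact h5
    · rw [h5, hq.neg_one_pow] at h4
      exact absurd h4 (by decide)
  have ht : ∀ t : Gp r q 2, t.1.perm = 1 → ∃ l : ℕ, ∀ ψ : Gp r q 2 →* ℤˣ,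
      ψ t = ψ (Homs2_t 0 q 1 (by ring)) ^ l := by
    intro t ht
    obtain ⟨y, hy⟩ := t.2
    have h5 : t.1.col 0 + t.1.col 1 = (q : ZMod r) * y := by
      rw [← hy]
      simp [cs, Fin.sum_univ_two]
    refine ⟨y.val, fun ψ => ?_⟩
    have h6 : t = Homs2_t 1 (-1) 0 (by ring) ^ (t.1.col 0).val *
        Homs2_t 0 q 1 (by ring) ^ y.val := by
      rw [Homs2_t_pow, Homs2_t_pow, Homs2_t_mul]
      apply Subtype.ext
      ext i
      · rw [ht]
        rfl
      · fin_cases i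
        · change t.1.col 0 = ((t.1.col 0).val : ZMod r) * 1 + (y.val : ZMod r) * 0
          rw [ZMod.natCast_zmod_val]
          ring
        · change t.1.col 1 = ((t.1.col 0).val : ZMod r) * (-1) + (y.val : ZMod r) * q
          rw [ZMod.natCast_zmod_val, ZMod.natCast_zmod_val]
          linear_combination h5
    conv_lhs => rw [h6]
    rw [map_mul, map_pow, map_pow, hu, one_pow, one_mul]
  have main : ∃ k l : ℕ, ∀ ψ : Gp r q 2 →* ℤˣ,
      ψ g = ψ (Homs2_s r q) ^ k * ψ (Homs2_t 0 q 1 (by ring)) ^ l := by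
    rcases Homs2_perm g.1.perm with h1 | h1
    · obtain ⟨l, hl⟩ := ht g h1
      exact ⟨0, l, fun ψ => by rw [pow_zero, one_mul]; exact hl ψ⟩
    · obtain ⟨l, hl⟩ := ht (Homs2_s r q * g) (by
        change Equiv.swap 0 1 * g.1.perm = 1
        rw [h1, Equiv.swap_mul_self])
      refine ⟨1, l, fun ψ => ?_⟩
      have h2 := hl ψ
      rw [map_mul] at h2
      rw [← h2, pow_one, ← mul_assoc, ← map_mul]
      have h3 : Homs2_s r q * Homs2_s r q = 1 := by
        have h4 : (Homs2_s r q * Homs2_s r q).1.perm = 1 := Equiv.swap_mul_self _ _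
        apply Subtype.ext
        ext i
        · rw [h4]
          rfl
        · change (0 : ZMod r) + 0 = 0
          ring
      rw [h3, map_one, one_mul]
  obtain ⟨k, l, hkl⟩ := main
  exact ⟨k, l, hkl φ, hkl⟩

theorem homs_le_four {r p q : ℕ} [NeZero r] (hq : Odd q) (hqr : q ∣ r) (hpr : p ∣ r) :
    Nat.card (PRG r q p 2 →* ℤˣ) ≤ 4 := by
  let E : (PRG r q p 2 →* ℤˣ) → ℤˣ × ℤˣ :=
    fun f => (f (QuotientGroup.mk (Homs2_s r q)),
      f (QuotientGroup.mk (Homs2_t 0 q 1 (by ring))))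
  have hE : Function.Injective E := by
    intro f f' hff
    simp only [E, Prod.mk.injEq] at hff
    apply QuotientGroup.monoidHom_ext
    ext g
    obtain ⟨k, l, -, h⟩ := Homs2_det hq (f.comp (QuotientGroup.mk' _)) g
    have h1 := h (f.comp (QuotientGroup.mk' _))
    have h2 := h (f'.comp (QuotientGroup.mk' _))
    have h3 : (f.comp (QuotientGroup.mk' _)) g = (f'.comp (QuotientGroup.mk' _)) g := by
      rw [h1, h2]
      change f (QuotientGroup.mk (Homs2_s r q)) ^ k *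
        f (QuotientGroup.mk (Homs2_t 0 q 1 (by ring))) ^ l =
        f' (QuotientGroup.mk (Homs2_s r q)) ^ k *
        f' (QuotientGroup.mk (Homs2_t 0 q 1 (by ring))) ^ l
      rw [hff.1, hff.2]
    rw [h3]
  have h4 : Nat.card (ℤˣ × ℤˣ) = 4 := by
    rw [Nat.card_eq_fintype_card]
    rfl
  rw [← h4]
  exact Nat.card_le_card_of_injective E hE

end GIM119
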