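import Pool.Agent.Lib.MP_119ee3_al.Basic
import Pool.Agent.Lib.MP_119ee3_al.IsoArith

set_option autoImplicit false

/-!
# MP_119ee3_al: The equivariant isomorphism.
-/

open Classical

noncomputable section

namespace GIM119

open MG

theorem Iso_mem_iff {r q : ℕ} [NeZero r] (hq : q ∣ r) (e : ZMod r) :
    (∃ k : ZMod r, e = ((r / q : ℕ) : ZMod r) * k) ↔ (q : ZMod r) * e = 0 := by
  have hr : 0 < r := Nat.pos_of_ne_zero (NeZero.ne r)
  have hq0 : 0 < q := Nat.pos_of_dvd_of_pos hq hr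
  constructor
  · rintro ⟨k, rfl⟩
    rw [← mul_assoc, ← Nat.cast_mul, Nat.mul_div_cancel' hq, ZMod.natCast_self, zero_mul]
  · intro h
    have h1 : ((q * e.val : ℕ) : ZMod r) = 0 := by
      push_cast
      rw [ZMod.natCast_zmod_val]
      exact h
    rw [ZMod.natCast_eq_zero_iff] at h1
    obtain ⟨m, hm⟩ := hq
    have h2 : r / q = m := by
      rw [hm]
      exact Nat.mul_div_cancel_left _ hq0
    have h1' : q * m ∣ q * e.val := by
      rw [← hm]
      exact h1
    have h3 : m ∣ e.val := Nat.dvd_of_mul_dvd_mul_left hq0 h1'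
    obtain ⟨k, hk⟩ := h3
    refine ⟨k, ?_⟩
    rw [h2, ← Nat.cast_mul, ← hk, ZMod.natCast_zmod_val]

theorem Iso_scal_mem {r q n : ℕ} [NeZero r] [NeZero n] (hq : q ∣ r) (e : ZMod r) :
    scal n e ∈ Cq r q n ↔ (q : ZMod r) * e = 0 := by
  rw [← Iso_mem_iff hq, mem_Cq]
  constructor
  · rintro ⟨k, hk⟩
    exact ⟨k, scal_inj hk⟩
  · rintro ⟨k, hk⟩
    exact ⟨k, by rw [← hk]⟩

theorem exists_iso {r p q n d : ℕ} [NeZero r] [NeZero n] (hp : p ∣ r) (hq : q ∣ r)
    (hpq : p * q ∣ r * n) (h1 : Nat.gcd p n = d) (h2 : Nat.gcd q n = d) (h3 : p * q / d ∣ r) :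
    ∃ e : PRG r p q n ≃* PRG r d (p * q / d) n,
      ∀ x, e (tauQ r p q n x) = tauQ r d (p * q / d) n (e x) := by
  have hr : 0 < r := Nat.pos_of_ne_zero (NeZero.ne r)
  have hn : 0 < n := Nat.pos_of_ne_zero (NeZero.ne n)
  have hdp : d ∣ p := h1 ▸ Nat.gcd_dvd_left p n
  have hdn : d ∣ n := h1 ▸ Nat.gcd_dvd_right p n
  have hdq : d ∣ q := h2 ▸ Nat.gcd_dvd_left q n
  have hd : 0 < d := Nat.pos_of_dvd_of_pos hdn hn
  have hcop : Nat.Coprime (p / d) (n / d) := by
    have := Nat.coprime_div_gcd_div_gcd (m := p) (n := n) (by rw [h1]; exact hd)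
    rwa [h1] at this
  obtain ⟨kk, hkk⟩ := exists_unit_shift hcop hr (Nat.div_pos (Nat.le_of_dvd hn hdn) hd)
  set v : ℕ := p / d + kk * (n / d) with hv
  have hvu : IsUnit (v : ZMod r) := (ZMod.isUnit_iff_coprime v r).2 hkk
  have hpv : (p : ZMod r) + n * kk = d * v := by
    have : p + n * kk = d * v := by
      rw [hv, mul_add, Nat.mul_div_cancel' hdp]
      conv_lhs => rw [← Nat.mul_div_cancel' hdn]
      ring
    exact_mod_cast congrArg (Nat.cast : ℕ → ZMod r) this
  generalize hc0 : (kk : ZMod r) = c at hpv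
  set q' : ℕ := p * q / d with hq'
  have hq'e : q' = p * (q / d) := Nat.mul_div_assoc p hdq
  have hqe : (q : ZMod r) = d * ((q / d : ℕ) : ZMod r) := by
    rw [← Nat.cast_mul, Nat.mul_div_cancel' hdq]
  have hq'c : (q' : ZMod r) = p * ((q / d : ℕ) : ZMod r) := by
    rw [hq'e, Nat.cast_mul]
  -- the key computation
  have hkey : ∀ e u : ZMod r, (n : ZMod r) * e = p * u →
      ((q' : ZMod r) * (e + c * u) = 0 ↔ (q : ZMod r) * e = 0) := by
    intro e u h
    have h4 : (q' : ZMod r) * (e + c * u) = v * (q * e) := by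
      rw [hq'c, hqe]
      linear_combination ((q / d : ℕ) : ZMod r) * e * hpv - ((q / d : ℕ) : ZMod r) * c * h
    rw [h4]
    exact hvu.mul_right_eq_zero
  -- the map on representatives
  have hmem : ∀ (g : MG r n) (u : ZMod r), cs g = p * u → g * scal n (c * u) ∈ Gp r d n := by
    intro g u hu
    refine ⟨v * u, ?_⟩
    rw [cs_mul, cs_scal, hu]
    linear_combination u * hpv
  let F : ∀ (g : MG r n) (u : ZMod r), cs g = p * u → PRG r d q' n :=
    fun g u hu => QuotientGroup.mk (⟨g * scal n (c * u), hmem g u hu⟩ : Gp r d n)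
  have hF : ∀ (g : MG r n) (u u' : ZMod r) (hu : cs g = p * u) (hu' : cs g = p * u'),
      F g u hu = F g u' hu' := by
    intro g u u' hu hu'
    refine QuotientGroup.eq.2 ?_
    rw [Subgroup.mem_subgroupOf]
    push_cast
    have e1 : (g * scal n (c * u))⁻¹ * (g * scal n (c * u')) = scal n (c * (u' - u)) := by
      rw [mul_inv_rev, scal_inv, mul_assoc, inv_mul_cancel_left, ← scal_add]
      congr 1
      ring
    rw [e1, Iso_scal_mem h3, hq'c]
    linear_combination ((q / d : ℕ) : ZMod r) * c * hu - ((q / d : ℕ) : ZMod r) * c * hu'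
  let Φ : Gp r p n →* PRG r d q' n := MonoidHom.mk' (fun g => F g.1 g.2.choose g.2.choose_spec) (by
    intro g h
    have hg := g.2.choose_spec
    have hh := h.2.choose_spec
    have hgh : cs ((g * h : Gp r p n) : MG r n) = p * (g.2.choose + h.2.choose) :=
      (cs_mul g.1 h.1).trans (by linear_combination hg + hh)
    refine (hF _ _ _ (g * h).2.choose_spec hgh).trans ?_
    show (QuotientGroup.mk _ : PRG r d q' n) = QuotientGroup.mk _ * QuotientGroup.mk _
    rw [← QuotientGroup.mk_mul]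
    congr 1
    refine Subtype.ext ?_
    push_cast
    rw [mul_add, scal_add, mul_assoc, mul_assoc, ← mul_assoc h.1, ← scal_comm _ h.1]
    simp only [mul_assoc])
  have hΦ : ∀ (g : Gp r p n) (u : ZMod r) (hu : cs g.1 = p * u), Φ g = F g.1 u hu :=
    fun g u hu => hF _ _ _ g.2.choose_spec hu
  have hF1 : ∀ (g : MG r n) (u : ZMod r) (hu : cs g = p * u),
      F g u hu = 1 ↔ g * scal n (c * u) ∈ Cq r q' n := by
    intro g u hu
    rw [QuotientGroup.eq_one_iff, Subgroup.mem_subgroupOf]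
  have hker : (Cq r q n).subgroupOf (Gp r p n) = Φ.ker := by
    ext g
    obtain ⟨u, hu⟩ := g.2
    rw [MonoidHom.mem_ker, hΦ g u hu, hF1 g.1 u hu, Subgroup.mem_subgroupOf]
    constructor
    · rintro ⟨k, hk⟩
      have hk1 : scal n (((r / q : ℕ) : ZMod r) * k) ∈ Cq r q n := ⟨k, rfl⟩
      rw [Iso_scal_mem hq] at hk1
      rw [hk, ← scal_add, Iso_scal_mem h3, hkey _ u ?_]
      · exact hk1
      · rw [← cs_scal, ← hk, hu]
    · rintro ⟨k, hk⟩
      have hg : g.1 = scal n (((r / q' : ℕ) : ZMod r) * k - c * u) := by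
        have : g.1 = scal n (((r / q' : ℕ) : ZMod r) * k) * (scal n (c * u))⁻¹ := by
          rw [← hk, mul_inv_cancel_right]
        rw [this, scal_inv, ← scal_add, sub_eq_add_neg]
      have hk1 : scal n (((r / q' : ℕ) : ZMod r) * k) ∈ Cq r q' n := ⟨k, rfl⟩
      rw [Iso_scal_mem h3] at hk1
      rw [hg, Iso_scal_mem hq, ← hkey _ u ?_]
      · rw [sub_add_cancel]
        exact hk1
      · rw [← cs_scal, ← hg, hu]
  have hsurj : Function.Surjective Φ := by
    intro x
    obtain ⟨h, rfl⟩ := QuotientGroup.mk_surjective x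
    obtain ⟨y, hy⟩ := h.2
    obtain ⟨vi, hvi⟩ := hvu.exists_right_inv
    set u : ZMod r := vi * y with hu
    have hc : cs (h.1 * scal n (-(c * u))) = p * u := by
      rw [cs_mul, cs_scal, hy, hu]
      linear_combination (- (d : ZMod r) * y) * hvi - (vi * y) * hpv
    refine ⟨⟨h.1 * scal n (-(c * u)), ⟨u, hc⟩⟩, ?_⟩
    rw [hΦ _ u hc]
    show (QuotientGroup.mk _ : PRG r d q' n) = QuotientGroup.mk _
    congr 1
    refine Subtype.ext ?_
    show h.1 * scal n (-(c * u)) * scal n (c * u) = h.1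
    rw [mul_assoc, ← scal_add, neg_add_cancel, scal_zero, mul_one]
  refine ⟨(QuotientGroup.quotientMulEquivOfEq hker).trans
    (QuotientGroup.quotientKerEquivOfSurjective Φ hsurj), ?_⟩
  intro x
  obtain ⟨g, rfl⟩ := QuotientGroup.mk_surjective x
  rw [tauQ_mk]
  show Φ (tauGp r p n g) = tauQ r d q' n (Φ g)
  obtain ⟨u, hu⟩ := g.2
  have hu' : cs (tauGp r p n g).1 = p * (-u) := by
    rw [tauGp_coe, cs_tau, hu]
    ring
  rw [hΦ g u hu, hΦ _ _ hu']
  show (QuotientGroup.mk _ : PRG r d q' n) = tauQ r d q' n (QuotientGroup.mk _)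
  rw [tauQ_mk]
  congr 1
  refine Subtype.ext ?_
  show tau r n g.1 * scal n (c * -u) = tau r n (g.1 * scal n (c * u))
  rw [map_mul]
  congr 1
  ext i
  · simp
  · simp

end GIM119
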