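import Pool.Agent.Lib.MP_119ee3_al.Basic2

set_option autoImplicit false

/-!
# MP_119ee3_al: G(r,p,q,2) for p odd, q even, r/(pq) odd.
-/

open Classical

noncomputable section

namespace GIM119

open MG

/-- The rotation or reflection part. -/
def IsoAlpha_d {r : ℕ} (A : (Fin 2 → ZMod r) →+ ZMod r) (g : MG r 2) : DihedralGroup r :=
  if g.perm = 1 then .r (A g.col) else .sr (A g.col)

theorem IsoAlpha_perm (σ : Equiv.Perm (Fin 2)) : σ = 1 ∨ σ = Equiv.swap 0 1 := by
  revert σ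
  decide

theorem IsoAlpha_swap_ne : (Equiv.swap 0 1 : Equiv.Perm (Fin 2)) ≠ 1 := by
  decide

theorem IsoAlpha_d_mul {r : ℕ} (A : (Fin 2 → ZMod r) →+ ZMod r) (g h : MG r 2)
    (hA : A (fun i => g.col (Equiv.swap 0 1 i)) = -A g.col) :
    IsoAlpha_d A (g * h) = IsoAlpha_d A g * IsoAlpha_d A h := by
  have hne := IsoAlpha_swap_ne
  have hss : (Equiv.swap 0 1 : Equiv.Perm (Fin 2)) * Equiv.swap 0 1 = 1 := Equiv.swap_mul_self _ _
  have hcol : A (g * h).col = A h.col + A (fun i => g.col (h.perm i)) := by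
    rw [← map_add]
    rfl
  have hg0 : A (fun i => g.col ((1 : Equiv.Perm (Fin 2)) i)) = A g.col := rfl
  unfold IsoAlpha_d
  rw [hcol, mul_perm]
  rcases IsoAlpha_perm g.perm with hg | hg <;> rcases IsoAlpha_perm h.perm with hh | hh
  · rw [hg, hh, mul_one, if_pos rfl, if_pos rfl, if_pos rfl, hg0, DihedralGroup.r_mul_r, add_comm]
  · rw [hg, hh, one_mul, if_neg hne, if_pos rfl, if_neg hne, hA, DihedralGroup.r_mul_sr,
      sub_eq_add_neg]
  · rw [hg, hh, mul_one, if_neg hne, if_neg hne, if_pos rfl, hg0, DihedralGroup.sr_mul_r, add_comm]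
  · rw [hg, hh, hss, if_pos rfl, if_neg hne, if_neg hne, hA, DihedralGroup.sr_mul_sr,
      sub_eq_add_neg]

theorem IsoAlpha_d_tau {r : ℕ} (A : (Fin 2 → ZMod r) →+ ZMod r) (g : MG r 2) :
    IsoAlpha_d A (tau r 2 g) = tauDih r (IsoAlpha_d A g) := by
  have hcol : A (tau r 2 g).col = -A g.col := by
    rw [← map_neg]
    rfl
  unfold IsoAlpha_d
  rw [hcol, tau_perm]
  split_ifs
  · rw [tauDih_r]
  · rw [tauDih_sr]

theorem IsoAlpha_cs {r p : ℕ} [NeZero r] (g : Gp r p 2) :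
    ∃ y : ℕ, cs g.1 = ((p * y : ℕ) : ZMod r) := by
  obtain ⟨y, hy⟩ := g.2
  refine ⟨y.val, ?_⟩
  rw [hy, Nat.cast_mul, ZMod.natCast_zmod_val]

theorem IsoAlpha_val {r p q m : ℕ} [NeZero r] (h : r = p * q * m) (y : ℕ) :
    (((((p * y : ℕ) : ZMod r)).val / p : ℕ) : ZMod m) = (y : ZMod m) := by
  have hr0 : r ≠ 0 := NeZero.ne r
  have hp0 : 0 < p := by
    rcases Nat.eq_zero_or_pos p with h0 | h0
    · subst h0
      simp at h
      exact absurd h hr0
    · exact h0
  have h1 : (((p * y : ℕ) : ZMod r)).val = p * (y % (q * m)) := by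
    rw [ZMod.val_natCast, h, mul_assoc, Nat.mul_mod_mul_left]
  rw [h1, Nat.mul_div_cancel_left _ hp0, ZMod.natCast_eq_natCast_iff]
  exact (Nat.mod_modEq y (q * m)).of_mul_left q

/-- The part in the cyclic group. -/
def IsoAlpha_Y {r p q m : ℕ} [NeZero r] (h : r = p * q * m) :
    Gp r p 2 →* Multiplicative (ZMod m) where
  toFun g := Multiplicative.ofAdd ((((cs g.1).val / p : ℕ) : ZMod m))
  map_one' := by
    have h1 := IsoAlpha_val h 0
    rw [mul_zero, Nat.cast_zero, Nat.cast_zero] at h1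
    have h2 : cs (1 : Gp r p 2).1 = (0 : ZMod r) := cs_one
    rw [h2, h1]
    rfl
  map_mul' := by
    intro g g'
    obtain ⟨y, hy⟩ := IsoAlpha_cs g
    obtain ⟨z, hz⟩ := IsoAlpha_cs g'
    have h1 : cs (g * g').1 = ((p * (y + z) : ℕ) : ZMod r) := by
      have h2 : cs (g * g').1 = cs g.1 + cs g'.1 := cs_mul _ _
      rw [h2, hy, hz]
      push_cast
      ring
    rw [h1, hy, hz, IsoAlpha_val h, IsoAlpha_val h, IsoAlpha_val h, Nat.cast_add]
    rfl

theorem IsoAlpha_Y_eq {r p q m : ℕ} [NeZero r] (h : r = p * q * m) (g : Gp r p 2) (y : ℕ)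
    (hy : cs g.1 = ((p * y : ℕ) : ZMod r)) :
    IsoAlpha_Y h g = Multiplicative.ofAdd (y : ZMod m) := by
  change Multiplicative.ofAdd ((((cs g.1).val / p : ℕ) : ZMod m)) = _
  rw [hy, IsoAlpha_val h]

/-- The homomorphism. -/
def IsoAlpha_phi {r p q m : ℕ} [NeZero r] (h : r = p * q * m)
    (A : (Fin 2 → ZMod r) →+ ZMod r)
    (hA : ∀ g ∈ Gp r p 2, A (fun i => g.col (Equiv.swap 0 1 i)) = -A g.col) :
    Gp r p 2 →* DZ r m where
  toFun g := (IsoAlpha_d A g.1, IsoAlpha_Y h g)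
  map_one' := by
    rw [Prod.mk_eq_one, map_one]
    refine ⟨?_, rfl⟩
    have h1 : A (1 : MG r 2).col = 0 := map_zero A
    change IsoAlpha_d A (1 : MG r 2) = 1
    unfold IsoAlpha_d
    rw [if_pos one_perm, h1, DihedralGroup.one_def]
  map_mul' := by
    intro g g'
    rw [Prod.mk_mul_mk, ← map_mul, ← IsoAlpha_d_mul A g.1 g'.1 (hA g.1 g.2)]
    rfl

theorem IsoAlpha_main {r p q m : ℕ} [NeZero r] (h : r = p * q * m)
    (A : (Fin 2 → ZMod r) →+ ZMod r)
    (hA : ∀ g ∈ Gp r p 2, A (fun i => g.col (Equiv.swap 0 1 i)) = -A g.col)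
    (hk : ∀ g : Gp r p 2, g.1 ∈ Cq r q 2 ↔ (g.1.perm = 1 ∧ A g.1.col = 0 ∧ IsoAlpha_Y h g = 1))
    (hs : ∀ (a : ZMod r) (y : Multiplicative (ZMod m)), ∃ g : Gp r p 2,
      A g.1.col = a ∧ IsoAlpha_Y h g = y) :
    ∃ e : PRG r p q 2 ≃* DZ r m, ∀ x, e (tauQ r p q 2 x) = tauDZ r m (e x) := by
  have hker : (Cq r q 2).subgroupOf (Gp r p 2) = (IsoAlpha_phi h A hA).ker := by
    ext g
    rw [Subgroup.mem_subgroupOf, hk, MonoidHom.mem_ker]
    change _ ↔ (IsoAlpha_d A g.1, IsoAlpha_Y h g) = 1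
    rw [Prod.mk_eq_one, DihedralGroup.one_def]
    unfold IsoAlpha_d
    constructor
    · rintro ⟨h1, h2, h3⟩
      rw [if_pos h1, h2]
      exact ⟨rfl, h3⟩
    · rintro ⟨h1, h2⟩
      split_ifs at h1 with h3
      · exact ⟨h3, DihedralGroup.r.inj h1, h2⟩
  have hsurj : Function.Surjective (IsoAlpha_phi h A hA) := by
    rintro ⟨d, y⟩
    rcases d with a | a
    · obtain ⟨g, hg1, hg2⟩ := hs a y
      rcases IsoAlpha_perm g.1.perm with h1 | h1
      · refine ⟨g, ?_⟩
        change (IsoAlpha_d A g.1, IsoAlpha_Y h g) = _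
        rw [hg2, IsoAlpha_d, if_pos h1, hg1]
      · refine ⟨⟨⟨1, g.1.col⟩, g.2⟩, ?_⟩
        change (IsoAlpha_d A ⟨1, g.1.col⟩, IsoAlpha_Y h ⟨⟨1, g.1.col⟩, g.2⟩) = _
        have h2 : IsoAlpha_Y h ⟨⟨1, g.1.col⟩, g.2⟩ = IsoAlpha_Y h g := rfl
        rw [h2, hg2, IsoAlpha_d, if_pos rfl, hg1]
    · obtain ⟨g, hg1, hg2⟩ := hs a y
      refine ⟨⟨⟨Equiv.swap 0 1, g.1.col⟩, g.2⟩, ?_⟩
      change (IsoAlpha_d A ⟨Equiv.swap 0 1, g.1.col⟩,
        IsoAlpha_Y h ⟨⟨Equiv.swap 0 1, g.1.col⟩, g.2⟩) = _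
      have h2 : IsoAlpha_Y h ⟨⟨Equiv.swap 0 1, g.1.col⟩, g.2⟩ = IsoAlpha_Y h g := rfl
      rw [h2, hg2, IsoAlpha_d, if_neg IsoAlpha_swap_ne, hg1]
  let e : PRG r p q 2 ≃* DZ r m := (QuotientGroup.quotientMulEquivOfEq hker).trans
    (QuotientGroup.quotientKerEquivOfSurjective (IsoAlpha_phi h A hA) hsurj)
  have he : ∀ g : Gp r p 2, e (QuotientGroup.mk g) = (IsoAlpha_d A g.1, IsoAlpha_Y h g) := fun _ => rfl
  refine ⟨e, ?_⟩
  intro x
  induction x using QuotientGroup.induction_on with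
  | H g =>
    rw [tauQ_mk, he, he, tauDZ_apply, Prod.mk.injEq]
    refine ⟨IsoAlpha_d_tau A g.1, ?_⟩
    have h1 : IsoAlpha_Y h (tauGp r p 2 g) * IsoAlpha_Y h g = 1 := by
      rw [← map_mul]
      rw [IsoAlpha_Y_eq h _ 0]
      · simp
      · have h2 : cs (tauGp r p 2 g * g).1 = cs (tau r 2 g.1) + cs g.1 := cs_mul _ _
        rw [h2, cs_tau]
        simp
    exact eq_inv_of_mul_eq_one_left h1

/-- The functional. -/
def IsoAlpha_A (r : ℕ) : (Fin 2 → ZMod r) →+ ZMod r where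
  toFun x := x 0 - x 1
  map_zero' := by simp
  map_add' := by
    intro x y
    simp only [Pi.add_apply]
    ring

theorem iso_alpha {r p q m : ℕ} [NeZero r] (h : r = p * q * m) (hp : Odd p) (hq : Even q)
    (hm : Odd m) :
    ∃ e : PRG r p q 2 ≃* DZ r m, ∀ x, e (tauQ r p q 2 x) = tauDZ r m (e x) := by
  have hr0 : r ≠ 0 := NeZero.ne r
  have hq0 : 0 < q := by
    rcases Nat.eq_zero_or_pos q with h0 | h0
    · subst h0
      simp at h
      exact absurd h hr0
    · exact h0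
  have hm0 : NeZero m := ⟨by
    rintro rfl
    simp at h
    exact hr0 h⟩
  have hrq : r / q = p * m := by
    rw [h, show p * q * m = p * m * q by ring, Nat.mul_div_cancel _ hq0]
  refine IsoAlpha_main h (IsoAlpha_A r) ?_ ?_ ?_
  · intro g _
    change g.col (Equiv.swap 0 1 0) - g.col (Equiv.swap 0 1 1) = -(g.col 0 - g.col 1)
    rw [Equiv.swap_apply_left, Equiv.swap_apply_right]
    ring
  · intro g
    constructor
    · rintro ⟨k, hk⟩
      refine ⟨?_, ?_, ?_⟩
      · rw [hk]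
        rfl
      · change g.1.col 0 - g.1.col 1 = 0
        rw [hk]
        simp
      · rw [IsoAlpha_Y_eq h g (2 * m * k.val)]
        · rw [Nat.cast_mul, Nat.cast_mul, ZMod.natCast_self]
          simp
        · rw [hk, cs_scal, hrq]
          push_cast
          rw [ZMod.natCast_zmod_val]
          ring
    · rintro ⟨h1, h2, h3⟩
      have h2' : g.1.col 0 - g.1.col 1 = 0 := h2
      obtain ⟨y, hy⟩ := IsoAlpha_cs g
      rw [IsoAlpha_Y_eq h g y hy] at h3
      have h4 : (y : ZMod m) = 0 := h3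
      rw [ZMod.natCast_eq_zero_iff] at h4
      obtain ⟨z, rfl⟩ := h4
      obtain ⟨s, hs⟩ := hp.mul hm
      have h5 : g.1.col 0 + g.1.col 1 = ((p * (m * z) : ℕ) : ZMod r) := by
        rw [← hy]
        simp [cs, Fin.sum_univ_two]
      have h6 : ((p * m : ℕ) : ZMod r) = 2 * s + 1 := by
        rw [hs]
        push_cast
        ring
      push_cast at h5 h6
      refine ⟨g.1.col 0 - s * z, ?_⟩
      have h7 : g.1.col 0 = ((r / q : ℕ) : ZMod r) * (g.1.col 0 - s * z) := by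
        rw [hrq]
        push_cast
        linear_combination (-(s : ZMod r)) * h2' - (s : ZMod r) * h5 - (g.1.col 0) * h6
      ext i
      · rw [h1]
        rfl
      · rw [scal_col, ← h7]
        fin_cases i
        · rfl
        · change g.1.col 1 = g.1.col 0
          linear_combination -h2'
  · intro a y
    obtain ⟨w, hw⟩ : ∃ w : ℕ, p * ((Multiplicative.toAdd y).val + m *
        ((Multiplicative.toAdd y).val + a.val)) + a.val = 2 * w := by
      obtain ⟨s, hs⟩ := hp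
      obtain ⟨t, ht⟩ := hm
      have h1 : Even (p * ((Multiplicative.toAdd y).val + m *
        ((Multiplicative.toAdd y).val + a.val)) + a.val) := by
        have hp' : Odd p := ⟨s, hs⟩
        have hm' : Odd m := ⟨t, ht⟩
        rcases Nat.even_or_odd (Multiplicative.toAdd y).val with h1 | h1 <;>
          rcases Nat.even_or_odd a.val with h2 | h2
        · exact (Even.mul_left (h1.add (Even.mul_left (h1.add h2) _)) _).add h2
        · exact (hp'.mul (h1.add_odd (hm'.mul (h1.add_odd h2)))).add_odd h2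
        · exact (Even.mul_left (h1.add_odd (hm'.mul (h1.add_even h2))) _).add h2
        · exact (hp'.mul (h1.add_even (Even.mul_left (h1.add_odd h2) _))).add_odd h2
      obtain ⟨w, hw⟩ := h1
      exact ⟨w, by rw [hw]; ring⟩
    have hcs : cs (⟨1, ![(w : ZMod r), (w : ZMod r) - a]⟩ : MG r 2) =
        ((p * ((Multiplicative.toAdd y).val + m *
        ((Multiplicative.toAdd y).val + a.val)) : ℕ) : ZMod r) := by
      have h1 := congrArg (fun x : ℕ => (x : ZMod r)) hw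
      rw [Nat.cast_add, ZMod.natCast_zmod_val] at h1
      simp only [cs, Fin.sum_univ_two, Matrix.cons_val_zero, Matrix.cons_val_one]
      rw [eq_comm, ← sub_eq_zero]
      rw [← sub_eq_zero] at h1
      rw [← h1]
      push_cast
      ring
    refine ⟨⟨⟨1, ![(w : ZMod r), (w : ZMod r) - a]⟩, ⟨_, by rw [hcs, Nat.cast_mul]⟩⟩, ?_, ?_⟩
    · change (w : ZMod r) - ((w : ZMod r) - a) = a
      ring
    · rw [IsoAlpha_Y_eq h _ _ hcs]
      push_cast
      rw [ZMod.natCast_self, zero_mul, add_zero, ZMod.natCast_zmod_val]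
      rfl

end GIM119
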