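import Pool.Agent.Lib.MP_119ee3_al.Basic2

set_option autoImplicit false

/-!
# MP_119ee3_al: G(r,p,q,2) for p even, q odd, r/(pq) odd.
-/

open Classical

noncomputable section

namespace GIM119

open MG

/-- The rotation or reflection part. -/
def IsoBeta_d {r : ℕ} (A : (Fin 2 → ZMod r) →+ ZMod r) (g : MG r 2) : DihedralGroup r :=
  if g.perm = 1 then .r (A g.col) else .sr (A g.col)

theorem IsoBeta_perm (σ : Equiv.Perm (Fin 2)) : σ = 1 ∨ σ = Equiv.swap 0 1 := by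
  revert σ
  decide

theorem IsoBeta_swap_ne : (Equiv.swap 0 1 : Equiv.Perm (Fin 2)) ≠ 1 := by
  decide

theorem IsoBeta_d_mul {r : ℕ} (A : (Fin 2 → ZMod r) →+ ZMod r) (g h : MG r 2)
    (hA : A (fun i => g.col (Equiv.swap 0 1 i)) = -A g.col) :
    IsoBeta_d A (g * h) = IsoBeta_d A g * IsoBeta_d A h := by
  have hne := IsoBeta_swap_ne
  have hss : (Equiv.swap 0 1 : Equiv.Perm (Fin 2)) * Equiv.swap 0 1 = 1 := Equiv.swap_mul_self _ _
  have hcol : A (g * h).col = A h.col + A (fun i => g.col (h.perm i)) := by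
    rw [← map_add]
    rfl
  have hg0 : A (fun i => g.col ((1 : Equiv.Perm (Fin 2)) i)) = A g.col := rfl
  unfold IsoBeta_d
  rw [hcol, mul_perm]
  rcases IsoBeta_perm g.perm with hg | hg <;> rcases IsoBeta_perm h.perm with hh | hh
  · rw [hg, hh, mul_one, if_pos rfl, if_pos rfl, if_pos rfl, hg0, DihedralGroup.r_mul_r, add_comm]
  · rw [hg, hh, one_mul, if_neg hne, if_pos rfl, if_neg hne, hA, DihedralGroup.r_mul_sr,
      sub_eq_add_neg]
  · rw [hg, hh, mul_one, if_neg hne, if_neg hne, if_pos rfl, hg0, DihedralGroup.sr_mul_r, add_comm]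
  · rw [hg, hh, hss, if_pos rfl, if_neg hne, if_neg hne, hA, DihedralGroup.sr_mul_sr,
      sub_eq_add_neg]

theorem IsoBeta_d_tau {r : ℕ} (A : (Fin 2 → ZMod r) →+ ZMod r) (g : MG r 2) :
    IsoBeta_d A (tau r 2 g) = tauDih r (IsoBeta_d A g) := by
  have hcol : A (tau r 2 g).col = -A g.col := by
    rw [← map_neg]
    rfl
  unfold IsoBeta_d
  rw [hcol, tau_perm]
  split_ifs
  · rw [tauDih_r]
  · rw [tauDih_sr]

theorem IsoBeta_cs {r p : ℕ} [NeZero r] (g : Gp r p 2) :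
    ∃ y : ℕ, cs g.1 = ((p * y : ℕ) : ZMod r) := by
  obtain ⟨y, hy⟩ := g.2
  refine ⟨y.val, ?_⟩
  rw [hy, Nat.cast_mul, ZMod.natCast_zmod_val]

theorem IsoBeta_val {r p q m : ℕ} [NeZero r] (h : r = p * q * m) (y : ℕ) :
    (((((p * y : ℕ) : ZMod r)).val / p : ℕ) : ZMod m) = (y : ZMod m) := by
  have hr0 : r ≠ 0 := NeZero.ne r
  have hp0 : 0 < p := by
    rcases Nat.eq_zero_or_pos p with h0 | h0
    · subst h0
      simp at h
      exact absurd h hr0
    · exact h0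
  have h1 : (((p * y : ℕ) : ZMod r)).val = p * (y % (q * m)) := by
    rw [ZMod.val_natCast, h, mul_assoc, Nat.mul_mod_mul_left]
  rw [h1, Nat.mul_div_cancel_left _ hp0, ZMod.natCast_eq_natCast_iff]
  exact (Nat.mod_modEq y (q * m)).of_mul_left q

/-- The part in the cyclic group. -/
def IsoBeta_Y {r p q m : ℕ} [NeZero r] (h : r = p * q * m) :
    Gp r p 2 →* Multiplicative (ZMod m) where
  toFun g := Multiplicative.ofAdd ((((cs g.1).val / p : ℕ) : ZMod m))
  map_one' := by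
    have h1 := IsoBeta_val h 0
    rw [mul_zero, Nat.cast_zero, Nat.cast_zero] at h1
    have h2 : cs (1 : Gp r p 2).1 = (0 : ZMod r) := cs_one
    rw [h2, h1]
    rfl
  map_mul' := by
    intro g g'
    obtain ⟨y, hy⟩ := IsoBeta_cs g
    obtain ⟨z, hz⟩ := IsoBeta_cs g'
    have h1 : cs (g * g').1 = ((p * (y + z) : ℕ) : ZMod r) := by
      have h2 : cs (g * g').1 = cs g.1 + cs g'.1 := cs_mul _ _
      rw [h2, hy, hz]
      push_cast
      ring
    rw [h1, hy, hz, IsoBeta_val h, IsoBeta_val h, IsoBeta_val h, Nat.cast_add]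
    rfl

theorem IsoBeta_Y_eq {r p q m : ℕ} [NeZero r] (h : r = p * q * m) (g : Gp r p 2) (y : ℕ)
    (hy : cs g.1 = ((p * y : ℕ) : ZMod r)) :
    IsoBeta_Y h g = Multiplicative.ofAdd (y : ZMod m) := by
  change Multiplicative.ofAdd ((((cs g.1).val / p : ℕ) : ZMod m)) = _
  rw [hy, IsoBeta_val h]

/-- The homomorphism. -/
def IsoBeta_phi {r p q m : ℕ} [NeZero r] (h : r = p * q * m)
    (A : (Fin 2 → ZMod r) →+ ZMod r)
    (hA : ∀ g ∈ Gp r p 2, A (fun i => g.col (Equiv.swap 0 1 i)) = -A g.col) :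
    Gp r p 2 →* DZ r m where
  toFun g := (IsoBeta_d A g.1, IsoBeta_Y h g)
  map_one' := by
    rw [Prod.mk_eq_one, map_one]
    refine ⟨?_, rfl⟩
    have h1 : A (1 : MG r 2).col = 0 := map_zero A
    change IsoBeta_d A (1 : MG r 2) = 1
    unfold IsoBeta_d
    rw [if_pos one_perm, h1, DihedralGroup.one_def]
  map_mul' := by
    intro g g'
    rw [Prod.mk_mul_mk, ← map_mul, ← IsoBeta_d_mul A g.1 g'.1 (hA g.1 g.2)]
    rfl

theorem IsoBeta_main {r p q m : ℕ} [NeZero r] (h : r = p * q * m)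
    (A : (Fin 2 → ZMod r) →+ ZMod r)
    (hA : ∀ g ∈ Gp r p 2, A (fun i => g.col (Equiv.swap 0 1 i)) = -A g.col)
    (hk : ∀ g : Gp r p 2, g.1 ∈ Cq r q 2 ↔ (g.1.perm = 1 ∧ A g.1.col = 0 ∧ IsoBeta_Y h g = 1))
    (hs : ∀ (a : ZMod r) (y : Multiplicative (ZMod m)), ∃ g : Gp r p 2,
      A g.1.col = a ∧ IsoBeta_Y h g = y) :
    ∃ e : PRG r p q 2 ≃* DZ r m, ∀ x, e (tauQ r p q 2 x) = tauDZ r m (e x) := by
  have hker : (Cq r q 2).subgroupOf (Gp r p 2) = (IsoBeta_phi h A hA).ker := by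
    ext g
    rw [Subgroup.mem_subgroupOf, hk, MonoidHom.mem_ker]
    change _ ↔ (IsoBeta_d A g.1, IsoBeta_Y h g) = 1
    rw [Prod.mk_eq_one, DihedralGroup.one_def]
    unfold IsoBeta_d
    constructor
    · rintro ⟨h1, h2, h3⟩
      rw [if_pos h1, h2]
      exact ⟨rfl, h3⟩
    · rintro ⟨h1, h2⟩
      split_ifs at h1 with h3
      · exact ⟨h3, DihedralGroup.r.inj h1, h2⟩
  have hsurj : Function.Surjective (IsoBeta_phi h A hA) := by
    rintro ⟨d, y⟩
    rcases d with a | a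
    · obtain ⟨g, hg1, hg2⟩ := hs a y
      rcases IsoBeta_perm g.1.perm with h1 | h1
      · refine ⟨g, ?_⟩
        change (IsoBeta_d A g.1, IsoBeta_Y h g) = _
        rw [hg2, IsoBeta_d, if_pos h1, hg1]
      · refine ⟨⟨⟨1, g.1.col⟩, g.2⟩, ?_⟩
        change (IsoBeta_d A ⟨1, g.1.col⟩, IsoBeta_Y h ⟨⟨1, g.1.col⟩, g.2⟩) = _
        have h2 : IsoBeta_Y h ⟨⟨1, g.1.col⟩, g.2⟩ = IsoBeta_Y h g := rfl
        rw [h2, hg2, IsoBeta_d, if_pos rfl, hg1]
    · obtain ⟨g, hg1, hg2⟩ := hs a y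
      refine ⟨⟨⟨Equiv.swap 0 1, g.1.col⟩, g.2⟩, ?_⟩
      change (IsoBeta_d A ⟨Equiv.swap 0 1, g.1.col⟩,
        IsoBeta_Y h ⟨⟨Equiv.swap 0 1, g.1.col⟩, g.2⟩) = _
      have h2 : IsoBeta_Y h ⟨⟨Equiv.swap 0 1, g.1.col⟩, g.2⟩ = IsoBeta_Y h g := rfl
      rw [h2, hg2, IsoBeta_d, if_neg IsoBeta_swap_ne, hg1]
  let e : PRG r p q 2 ≃* DZ r m := (QuotientGroup.quotientMulEquivOfEq hker).trans
    (QuotientGroup.quotientKerEquivOfSurjective (IsoBeta_phi h A hA) hsurj)
  have he : ∀ g : Gp r p 2, e (QuotientGroup.mk g) = (IsoBeta_d A g.1, IsoBeta_Y h g) := fun _ => rfl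
  refine ⟨e, ?_⟩
  intro x
  induction x using QuotientGroup.induction_on with
  | H g =>
    rw [tauQ_mk, he, he, tauDZ_apply, Prod.mk.injEq]
    refine ⟨IsoBeta_d_tau A g.1, ?_⟩
    have h1 : IsoBeta_Y h (tauGp r p 2 g) * IsoBeta_Y h g = 1 := by
      rw [← map_mul]
      rw [IsoBeta_Y_eq h _ 0]
      · simp
      · have h2 : cs (tauGp r p 2 g * g).1 = cs (tau r 2 g.1) + cs g.1 := cs_mul _ _
        rw [h2, cs_tau]
        simp
    exact eq_inv_of_mul_eq_one_left h1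

/-- The functional. -/
def IsoBeta_A (r : ℕ) (c : ZMod r) : (Fin 2 → ZMod r) →+ ZMod r where
  toFun x := c * (x 0 + x 1) - x 1
  map_zero' := by simp
  map_add' := by
    intro x y
    simp only [Pi.add_apply]
    ring

theorem iso_beta {r p q m : ℕ} [NeZero r] (h : r = p * q * m) (hp : Even p) (hq : Odd q)
    (hm : Odd m) :
    ∃ e : PRG r p q 2 ≃* DZ r m, ∀ x, e (tauQ r p q 2 x) = tauDZ r m (e x) := by
  have hr0 : r ≠ 0 := NeZero.ne r
  have hq0 : 0 < q := hq.pos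
  have hm0 : NeZero m := ⟨hm.pos.ne'⟩
  have hrq : r / q = p * m := by
    rw [h, show p * q * m = p * m * q by ring, Nat.mul_div_cancel _ hq0]
  obtain ⟨s, hs⟩ := hq.mul hm
  have hs' : ((q : ℕ) : ZMod r) * (m : ZMod r) = 2 * s + 1 := by
    have h1 : ((q * m : ℕ) : ZMod r) = 2 * s + 1 := by
      rw [hs]
      push_cast
      ring
    rw [← h1]
    push_cast
    ring
  have hpqm : ((p : ℕ) : ZMod r) * ((q : ℕ) : ZMod r) * (m : ZMod r) = 0 := by
    have h1 : ((p * q * m : ℕ) : ZMod r) = 0 := by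
      rw [← h, ZMod.natCast_self]
    rw [← h1]
    push_cast
    ring
  refine IsoBeta_main h (IsoBeta_A r ((s : ZMod r) + 1)) ?_ ?_ ?_
  · intro g hg
    obtain ⟨y, hy⟩ := hg
    have h5 : g.col 0 + g.col 1 = (p : ZMod r) * y := by
      rw [← hy]
      simp [cs, Fin.sum_univ_two]
    change ((s : ZMod r) + 1) * (g.col (Equiv.swap 0 1 0) + g.col (Equiv.swap 0 1 1)) -
      g.col (Equiv.swap 0 1 1) = -(((s : ZMod r) + 1) * (g.col 0 + g.col 1) - g.col 1)
    rw [Equiv.swap_apply_left, Equiv.swap_apply_right]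
    linear_combination (2 * (s : ZMod r) + 1) * h5 - (p : ZMod r) * y * hs' + y * hpqm
  · intro g
    constructor
    · rintro ⟨k, hk⟩
      refine ⟨?_, ?_, ?_⟩
      · rw [hk]
        rfl
      · change ((s : ZMod r) + 1) * (g.1.col 0 + g.1.col 1) - g.1.col 1 = 0
        rw [hk, scal_col, scal_col, hrq]
        push_cast
        linear_combination (-((p : ZMod r) * m * k)) * hs' + (m : ZMod r) * k * hpqm
      · rw [IsoBeta_Y_eq h g (2 * m * k.val)]
        · rw [Nat.cast_mul, Nat.cast_mul, ZMod.natCast_self]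
          simp
        · rw [hk, cs_scal, hrq]
          push_cast
          rw [ZMod.natCast_zmod_val]
          ring
    · rintro ⟨h1, h2, h3⟩
      have h2' : ((s : ZMod r) + 1) * (g.1.col 0 + g.1.col 1) - g.1.col 1 = 0 := h2
      obtain ⟨y, hy⟩ := IsoBeta_cs g
      rw [IsoBeta_Y_eq h g y hy] at h3
      have h4 : (y : ZMod m) = 0 := h3
      rw [ZMod.natCast_eq_zero_iff] at h4
      obtain ⟨z, rfl⟩ := h4
      have h5 : g.1.col 0 + g.1.col 1 = ((p * (m * z) : ℕ) : ZMod r) := by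
        rw [← hy]
        simp [cs, Fin.sum_univ_two]
      push_cast at h5
      have h6 : g.1.col 1 = (p : ZMod r) * m * (((s : ZMod r) + 1) * z) := by
        linear_combination ((s : ZMod r) + 1) * h5 - h2'
      have h7 : g.1.col 0 = (p : ZMod r) * m * (((s : ZMod r) + 1) * z) := by
        linear_combination h5 - h6 + (p : ZMod r) * m * z * hs' - (m : ZMod r) * z * hpqm
      refine ⟨((s : ZMod r) + 1) * z, ?_⟩
      ext i
      · rw [h1]
        rfl
      · rw [scal_col, hrq]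
        push_cast
        fin_cases i
        · exact h7
        · exact h6
  · intro a y
    set Y : ℕ := (Multiplicative.toAdd y).val with hY
    have hcs : cs (⟨1, ![(p : ZMod r) * Y - (((s : ZMod r) + 1) * (p * Y) - a),
        ((s : ZMod r) + 1) * (p * Y) - a]⟩ : MG r 2) = ((p * Y : ℕ) : ZMod r) := by
      simp only [cs, Fin.sum_univ_two, Matrix.cons_val_zero, Matrix.cons_val_one]
      push_cast
      ring
    refine ⟨⟨⟨1, ![(p : ZMod r) * Y - (((s : ZMod r) + 1) * (p * Y) - a),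
        ((s : ZMod r) + 1) * (p * Y) - a]⟩, ⟨_, by rw [hcs, Nat.cast_mul]⟩⟩, ?_, ?_⟩
    · change ((s : ZMod r) + 1) * ((p : ZMod r) * Y - (((s : ZMod r) + 1) * (p * Y) - a) +
        (((s : ZMod r) + 1) * (p * Y) - a)) - (((s : ZMod r) + 1) * (p * Y) - a) = a
      ring
    · rw [IsoBeta_Y_eq h _ _ hcs, hY, ZMod.natCast_zmod_val]
      rfl

end GIM119
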