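import Pool.Agent.Lib.MP_119ee3_al.Basic
import Pool.Agent.Lib.MP_119ee3_al.Chars
import Pool.Agent.Lib.MP_119ee3_al.Cyc
import Pool.Agent.Lib.MP_119ee3_al.Shift
import Pool.Agent.Lib.MP_119ee3_al.OneCycle
import Pool.Agent.Lib.MP_119ee3_al.Orient
import Pool.Agent.Lib.MP_119ee3_al.EvalW4

set_option autoImplicit false

/-!
# MP_119ee3_al: Identity F4b, two cycles.
-/

open Classical

noncomputable section

namespace GIM119

open MG

lemma L4bTwo_apply_inv {α : Type*} (p : Equiv.Perm α) (i : α) : p (p⁻¹ i) = i := by simp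

lemma L4bTwo_inv_apply {α : Type*} (p : Equiv.Perm α) (i : α) : p⁻¹ (p i) = i := by simp

variable {r n : ℕ} [NeZero r]

lemma L4bTwo_mem_pow {g : MG r n} {i j : Fin n} (h : j ∈ cyc g i) :
    ∃ l : ℕ, j = (g.perm ^ l) i := by
  rw [cyc_eq_image, Finset.mem_image] at h
  obtain ⟨l, -, hl⟩ := h
  exact ⟨l, hl.symm⟩

lemma L4bTwo_sw {g : MG r n} {e1 e2 : ZMod r} {i0 : Fin n} {T : Finset (Fin n)}
    (hT : T ≠ cyc g i0) {x : Str r n} (hx : IsStr g 0 e1 e2 T x)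
    (hc : T = cyc g i0 ∪ cyc g (x.1 i0)) :
    Stb g T ∧ cyc g i0 ⊆ T ∧ (∀ i ∈ T, (i ∈ cyc g i0 ↔ x.1 i ∉ cyc g i0)) := by
  have hi0 : x.1 i0 ∉ cyc g i0 := by
    intro h
    apply hT
    rw [hc, cyc_eq_of_mem h, Finset.union_self]
  have hsub : cyc g i0 ⊆ T := by
    intro i hi
    rw [hc]
    exact Finset.mem_union_left _ hi
  have hstb : Stb g T := by
    intro i
    rw [hc, Finset.mem_union, Finset.mem_union]
    exact or_congr (cyc_Stb g i0 i) (cyc_Stb g _ i)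
  have hi0T : i0 ∈ T := hsub (self_mem_cyc g i0)
  have hsi0T : x.1 i0 ∈ T := (hx.2 i0 hi0T).1
  refine ⟨hstb, hsub, fun i hi => ⟨?_, ?_⟩⟩
  · intro h1 h2
    obtain ⟨l, rfl⟩ := L4bTwo_mem_pow h1
    rw [hx.pow hstb hi0T l] at h2
    exact Finset.disjoint_left.1 (cyc_disjoint hi0) h2 (pow_mem_cyc g _ l)
  · intro h1
    by_contra h2
    apply h1
    have h3 : i ∈ cyc g (x.1 i0) := by
      rw [hc, Finset.mem_union] at hi
      exact hi.resolve_left h2
    obtain ⟨l, rfl⟩ := L4bTwo_mem_pow h3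
    rw [hx.pow hstb hsi0T l, (hx.2 i0 hi0T).2.1, pow_zero]
    exact pow_mem_cyc g i0 l

omit [NeZero r] in
lemma L4bTwo_reindex {g : MG r n} {S : Finset (Fin n)} (hS : Stb g S) {M : Type*} [CommMonoid M]
    (F : Fin n → M) : ∏ i ∈ S, F (g.perm i) = ∏ i ∈ S, F i :=
  Finset.prod_equiv g.perm (fun i => (hS i).symm) (fun _ _ => rfl)

/-- the common weight -/
def L4bTwoV (g : MG r n) (i0 : Fin n) (x : Str r n) : ℂ :=
  ∏ i ∈ cyc g i0, (Complex.I * sg (x.2 i))⁻¹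

lemma L4bTwo_wtL {g : MG r n} {i0 : Fin n} {T : Finset (Fin n)}
    (hT : T ≠ cyc g i0) {x : Str r n} (hx : IsStr g 0 0 (hf r) T x)
    (hc : T = cyc g i0 ∪ cyc g (x.1 i0)) :
    wt (phiM Complex.I g) T x = L4bTwoV g i0 x := by
  obtain ⟨hstb, hsub, hsw⟩ := L4bTwo_sw hT hx hc
  have hs : ∀ i ∈ T, x.1 i ∈ T ∧ x.1 (x.1 i) = i ∧ x.1 i ≠ i := by
    intro i hi
    obtain ⟨h1, h2, -, -⟩ := hx.2 i hi
    refine ⟨h1, by simpa using h2, ?_⟩
    intro h3
    have h4 := hsw i hi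
    rw [h3] at h4
    tauto
  have hs' : ∀ i ∈ T, x.1 i ∈ T ∧ x.1 (x.1 i) = i ∧ x.1 (g.perm i) = g.perm (x.1 i) := by
    intro i hi
    exact ⟨(hs i hi).1, (hs i hi).2.1, (hx.2 i hi).2.2.1⟩
  have hb : ∀ i ∈ T, x.2 (x.1 i) = x.2 i := by
    intro i hi
    have h1 := (hx.2 i hi).2.2.2.1
    simpa using h1
  have h1 : ∏ i ∈ T, phi1 sg g i (x.1 i) (x.2 i) (x.2 (x.1 i)) = 1 := by
    rw [← flip_two hstb hsub hs' hsw]
    refine Finset.prod_congr rfl fun i hi => ?_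
    simp only [phi1]
    rw [if_neg (hs i hi).2.2]
  have h2 : ∏ i ∈ T, phiT Complex.I i (x.1 i) (x.2 i) (x.2 (x.1 i))
      = ∏ i ∈ cyc g i0, (Complex.I * sg (x.2 i)) := by
    rw [← prod_orient (s := x.1) (u := fun i => Complex.I * sg (x.2 i)) hs
      (fun i hi => by simp only [hb i hi]) hsub hsw]
    rfl
  rw [wt, Finset.prod_mul_distrib, h1, Finset.prod_inv_distrib, h2, one_mul, L4bTwoV,
    Finset.prod_inv_distrib]

lemma L4bTwo_wtR (hr : r % 4 = 2) {g : MG r n} {i0 : Fin n} {T : Finset (Fin n)}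
    (hT : T ≠ cyc g i0) {x : Str r n} (hx : IsStr g 0 (hf r) (hf r) T x)
    (hc : T = cyc g i0 ∪ cyc g (x.1 i0)) :
    wt (phiN (-Complex.I) Complex.I g) T x
      = sg (∑ i ∈ cyc g i0, g.col i) * L4bTwoV g i0 x := by
  have hr2 : 2 ∣ r := by omega
  obtain ⟨hstb, hsub, hsw⟩ := L4bTwo_sw hT hx hc
  have hI : Complex.I ≠ 0 := Complex.I_ne_zero
  have hsg0 : ∀ y : ZMod r, sg y ≠ 0 := by
    intro y h
    have := sg_mul_self y
    rw [h] at this
    simp at this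
  have hshf : sg (hf r) = -1 := by
    rw [sg_hf hr2]
    have h1 : Odd (r / 2) := by
      rw [Nat.odd_iff]
      omega
    exact h1.neg_one_pow
  have hs2 : ∀ i ∈ T, x.1 i ∈ T ∧ x.1 (x.1 i) = i := by
    intro i hi
    obtain ⟨h1, h2, -, -⟩ := hx.2 i hi
    exact ⟨h1, by simpa using h2⟩
  have hb : ∀ i ∈ T, x.2 (x.1 i) = x.2 i + hf r := by
    intro i hi
    have h1 := (hx.2 i hi).2.2.2.1
    simpa using h1
  let c : Fin n → ℂ := fun i =>
    if i ∈ cyc g i0 then 1 else -Complex.I * sg (x.2 (x.1 i))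
  have hcc : ∀ i ∈ T, c i ≠ 0 ∧ c (x.1 i) = -Complex.I * sg (x.2 i) * c i := by
    intro i hi
    have h1 := hsw i hi
    by_cases h2 : i ∈ cyc g i0
    · have h3 : x.1 i ∉ cyc g i0 := h1.1 h2
      have e1 : c i = 1 := if_pos h2
      have e2 : c (x.1 i) = -Complex.I * sg (x.2 (x.1 (x.1 i))) := if_neg h3
      rw [e1, e2, (hs2 i hi).2]
      exact ⟨one_ne_zero, by ring⟩
    · have h3 : x.1 i ∈ cyc g i0 := by
        by_contra h4
        exact h2 (h1.2 h4)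
      have e1 : c i = -Complex.I * sg (x.2 (x.1 i)) := if_neg h2
      have e2 : c (x.1 i) = 1 := if_pos h3
      rw [e1, e2]
      refine ⟨mul_ne_zero (neg_ne_zero.2 hI) (hsg0 _), ?_⟩
      rw [hb i hi, sg_add hr2, hshf]
      have h5 := sg_mul_self (x.2 i)
      have h6 := Complex.I_mul_I
      linear_combination Complex.I * Complex.I * h5 + h6
  have h := wt_phi4 hr hstb hx hsub hsw c hcc
  have h' : wt (phiN (-Complex.I) Complex.I g) T x
      = ∏ i ∈ cyc g i0, sg (g.col i) * c (g.perm i) * (c i)⁻¹ *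
          (Complex.I * sg (x.2 (g.perm i)))⁻¹ := h
  rw [h']
  have h7 : ∏ i ∈ cyc g i0, sg (g.col i) * c (g.perm i) * (c i)⁻¹ *
          (Complex.I * sg (x.2 (g.perm i)))⁻¹
      = ∏ i ∈ cyc g i0, sg (g.col i) * (Complex.I * sg (x.2 (g.perm i)))⁻¹ := by
    refine Finset.prod_congr rfl fun i hi => ?_
    have e1 : c i = 1 := if_pos hi
    have e2 : c (g.perm i) = 1 := if_pos ((cyc_Stb g i0 i).2 hi)
    rw [e1, e2]
    simp
  rw [h7, Finset.prod_mul_distrib, ← sg_sum hr2, L4bTwoV,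
    L4bTwo_reindex (cyc_Stb g i0) (fun i => (Complex.I * sg (x.2 i))⁻¹)]

/-- the map used in the vanishing argument -/
def L4bTwoF (g : MG r n) (i0 : Fin n) (T : Finset (Fin n)) (x : Str r n) : Str r n :=
  (fun i => if i ∈ cyc g i0 then g.perm⁻¹ (x.1 i) else if i ∈ T then g.perm (x.1 i) else x.1 i,
   fun i => if i ∈ cyc g i0 then x.2 i - g.col (g.perm⁻¹ (x.1 i))
     else if i ∈ T then x.2 i + g.col (x.1 i) + hf r else x.2 i)

omit [NeZero r] in
lemma L4bTwo_inv_mem {g : MG r n} {S : Finset (Fin n)} (hS : Stb g S) {i : Fin n} :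
    g.perm⁻¹ i ∈ S ↔ i ∈ S := by
  have h := hS (g.perm⁻¹ i)
  simpa using h.symm

lemma L4bTwo_F_mem (hr : r % 4 = 2) {g : MG r n} {e1 : ZMod r} {i0 : Fin n}
    {T : Finset (Fin n)} (hT : T ≠ cyc g i0) {x : Str r n} (hx : IsStr g 0 e1 (hf r) T x)
    (hc : T = cyc g i0 ∪ cyc g (x.1 i0)) :
    IsStr g 0 e1 (hf r) T (L4bTwoF g i0 T x) ∧
      T = cyc g i0 ∪ cyc g ((L4bTwoF g i0 T x).1 i0) := by
  have hr2 : 2 ∣ r := by omega
  have hhf := hf_add_hf hr2
  obtain ⟨hstb, hsub, hsw⟩ := L4bTwo_sw hT hx hc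
  have hcs := cyc_Stb g i0
  have A1 : ∀ i ∈ cyc g i0, (L4bTwoF g i0 T x).1 i = g.perm⁻¹ (x.1 i) := fun i hi => if_pos hi
  have A2 : ∀ i ∈ T, i ∉ cyc g i0 → (L4bTwoF g i0 T x).1 i = g.perm (x.1 i) := fun i hi hi' => by
    change (if i ∈ cyc g i0 then _ else _) = _
    rw [if_neg hi', if_pos hi]
  have B1 : ∀ i ∈ cyc g i0, (L4bTwoF g i0 T x).2 i = x.2 i - g.col (g.perm⁻¹ (x.1 i)) :=
    fun i hi => if_pos hi
  have B2 : ∀ i ∈ T, i ∉ cyc g i0 → (L4bTwoF g i0 T x).2 i = x.2 i + g.col (x.1 i) + hf r :=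
    fun i hi hi' => by
      change (if i ∈ cyc g i0 then _ else _) = _
      rw [if_neg hi', if_pos hi]
  have hs : ∀ i ∈ T, x.1 i ∈ T := fun i hi => (hx.2 i hi).1
  have hss : ∀ i ∈ T, x.1 (x.1 i) = i := fun i hi => by simpa using (hx.2 i hi).2.1
  have hsp : ∀ i ∈ T, x.1 (g.perm i) = g.perm (x.1 i) := fun i hi => (hx.2 i hi).2.2.1
  have hbs : ∀ i ∈ T, x.2 (x.1 i) = x.2 i + e1 := fun i hi => by
    simpa using (hx.2 i hi).2.2.2.1
  have hbp : ∀ i ∈ T, x.2 (g.perm i) = x.2 i + g.col i + g.col (x.1 i) + hf r :=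
    fun i hi => (hx.2 i hi).2.2.2.2
  have hsq : ∀ i ∈ T, x.1 (g.perm⁻¹ i) = g.perm⁻¹ (x.1 i) := by
    intro i hi
    have h1 : g.perm⁻¹ i ∈ T := (L4bTwo_inv_mem hstb).2 hi
    have h2 := hsp _ h1
    rw [L4bTwo_apply_inv] at h2
    rw [h2, L4bTwo_inv_apply]
  have hi0 : i0 ∈ cyc g i0 := self_mem_cyc g i0
  refine ⟨⟨?_, ?_⟩, ?_⟩
  · intro i hi
    have h1 : i ∉ cyc g i0 := fun h => hi (hsub h)
    have h2 := hx.1 i hi
    constructor
    · change (if i ∈ cyc g i0 then _ else if i ∈ T then _ else _) = _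
      rw [if_neg h1, if_neg hi, h2.1]
    · change (if i ∈ cyc g i0 then _ else if i ∈ T then _ else _) = _
      rw [if_neg h1, if_neg hi, h2.2]
  · intro i hi
    by_cases hic : i ∈ cyc g i0
    · have k1 : x.1 i ∉ cyc g i0 := (hsw i hi).1 hic
      have k2 : g.perm⁻¹ (x.1 i) ∉ cyc g i0 := fun h => k1 ((L4bTwo_inv_mem hcs).1 h)
      have k3 : g.perm⁻¹ (x.1 i) ∈ T := (L4bTwo_inv_mem hstb).2 (hs i hi)
      have k4 : g.perm i ∈ cyc g i0 := (hcs i).2 hic
      rw [A1 i hic, A2 _ k3 k2, A1 _ k4, B1 i hic, B2 _ k3 k2, B1 _ k4]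
      refine ⟨k3, ?_, ?_, ?_, ?_⟩
      · rw [hsq _ (hs i hi), hss i hi]
        simp
      · rw [hsp i hi]
        simp
      · have h1 := hbp _ k3
        rw [L4bTwo_apply_inv, hbs i hi] at h1
        push_cast
        linear_combination (-(1 : ZMod r)) * h1
      · rw [hbp i hi, hsp i hi, L4bTwo_inv_apply]
        ring
    · have k1 : x.1 i ∈ cyc g i0 := by
        by_contra h
        exact hic ((hsw i hi).2 h)
      have k2 : g.perm (x.1 i) ∈ cyc g i0 := (hcs _).2 k1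
      have k3 : g.perm (x.1 i) ∈ T := (hstb _).2 (hs i hi)
      have k4 : g.perm i ∉ cyc g i0 := fun h => hic ((hcs i).1 h)
      have k5 : g.perm i ∈ T := (hstb i).2 hi
      rw [A2 i hi hic, A1 _ k2, A2 _ k5 k4, B2 i hi hic, B1 _ k2, B2 _ k5 k4]
      refine ⟨k3, ?_, ?_, ?_, ?_⟩
      · rw [hsp _ (hs i hi), hss i hi]
        simp
      · rw [hsp i hi]
      · rw [hsp _ (hs i hi), hss i hi, L4bTwo_inv_apply, hbp _ (hs i hi), hss i hi,
          hbs i hi]
        push_cast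
        ring
      · rw [hbp i hi, hsp i hi]
        ring
  · rw [A1 i0 hi0]
    have h1 : cyc g (g.perm⁻¹ (x.1 i0)) = cyc g (x.1 i0) :=
      cyc_eq_of_mem ((L4bTwo_inv_mem (cyc_Stb g _)).2 (self_mem_cyc g _))
    rw [h1]
    exact hc

omit [NeZero r] in
lemma L4bTwo_F_inj {g : MG r n} {i0 : Fin n}
    {T : Finset (Fin n)} {x y : Str r n}
    (h : L4bTwoF g i0 T x = L4bTwoF g i0 T y) : x = y := by
  have h1 : x.1 = y.1 := by
    funext i
    have h2 := congrFun (congrArg Prod.fst h) i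
    change (if i ∈ cyc g i0 then _ else if i ∈ T then _ else _)
      = (if i ∈ cyc g i0 then _ else if i ∈ T then _ else _) at h2
    split_ifs at h2
    · exact (g.perm⁻¹).injective h2
    · exact g.perm.injective h2
    · exact h2
  refine Prod.ext h1 ?_
  funext i
  have h2 := congrFun (congrArg Prod.snd h) i
  change (if i ∈ cyc g i0 then _ else if i ∈ T then _ else _)
    = (if i ∈ cyc g i0 then _ else if i ∈ T then _ else _) at h2
  rw [h1] at h2
  split_ifs at h2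
  · exact sub_left_injective h2
  · exact add_right_cancel (add_right_cancel h2)
  · exact h2

lemma L4bTwo_V_F (hr : r % 4 = 2) {g : MG r n} {e1 : ZMod r} {i0 : Fin n}
    {T : Finset (Fin n)} (hT : T ≠ cyc g i0) {x : Str r n} (hx : IsStr g 0 e1 (hf r) T x)
    (hc : T = cyc g i0 ∪ cyc g (x.1 i0)) (hl : Even (cyc g i0).card)
    (ha : sg (∑ i ∈ cyc g i0, g.col i) = -1) :
    L4bTwoV g i0 (L4bTwoF g i0 T x) = - L4bTwoV g i0 x := by
  have hr2 : 2 ∣ r := by omega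
  obtain ⟨hstb, hsub, hsw⟩ := L4bTwo_sw hT hx hc
  have hcs := cyc_Stb g i0
  have hshf : sg (hf r) = -1 := by
    rw [sg_hf hr2]
    have h1 : Odd (r / 2) := by
      rw [Nat.odd_iff]
      omega
    exact h1.neg_one_pow
  have hsp : ∀ i ∈ T, x.1 (g.perm i) = g.perm (x.1 i) := fun i hi => (hx.2 i hi).2.2.1
  have hbp : ∀ i ∈ T, x.2 (g.perm i) = x.2 i + g.col i + g.col (x.1 i) + hf r :=
    fun i hi => (hx.2 i hi).2.2.2.2
  have h1 : ∏ i ∈ cyc g i0, sg (g.col (x.1 i)) = -1 := by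
    have h2 : ∏ i ∈ cyc g i0, sg (x.2 (g.perm i)) = ∏ i ∈ cyc g i0, sg (x.2 i) :=
      L4bTwo_reindex hcs (fun i => sg (x.2 i))
    have h3 : ∏ i ∈ cyc g i0, sg (x.2 (g.perm i))
        = (∏ i ∈ cyc g i0, sg (x.2 i)) * (∏ i ∈ cyc g i0, sg (g.col i)) *
          (∏ i ∈ cyc g i0, sg (g.col (x.1 i))) * ∏ _i ∈ cyc g i0, sg (hf r) := by
      rw [← Finset.prod_mul_distrib, ← Finset.prod_mul_distrib, ← Finset.prod_mul_distrib]
      refine Finset.prod_congr rfl fun i hi => ?_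
      rw [hbp i (hsub hi), sg_add hr2, sg_add hr2, sg_add hr2]
    rw [h2, ← sg_sum hr2 _ g.col, ha, hshf, Finset.prod_const, hl.neg_one_pow, mul_one] at h3
    have h4 : (∏ i ∈ cyc g i0, sg (x.2 i)) * (∏ i ∈ cyc g i0, sg (x.2 i)) = 1 := by
      rw [← sg_sum hr2, sg_mul_self]
    linear_combination (∏ i ∈ cyc g i0, sg (x.2 i)) * h3
      - (1 + ∏ i ∈ cyc g i0, sg (g.col (x.1 i))) * h4
  have h2 : ∏ i ∈ cyc g i0, sg (g.col (g.perm⁻¹ (x.1 i))) = -1 := by
    rw [← h1, ← L4bTwo_reindex hcs (fun i => sg (g.col (g.perm⁻¹ (x.1 i))))]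
    refine Finset.prod_congr rfl fun i hi => ?_
    rw [hsp i (hsub hi), L4bTwo_inv_apply]
  have h3 : L4bTwoV g i0 (L4bTwoF g i0 T x)
      = ∏ i ∈ cyc g i0, ((Complex.I * sg (x.2 i))⁻¹ * sg (g.col (g.perm⁻¹ (x.1 i)))) := by
    refine Finset.prod_congr rfl fun i hi => ?_
    have e1 : (L4bTwoF g i0 T x).2 i = x.2 i - g.col (g.perm⁻¹ (x.1 i)) := if_pos hi
    have e2 : (sg (g.col (g.perm⁻¹ (x.1 i))))⁻¹ = sg (g.col (g.perm⁻¹ (x.1 i))) :=
      inv_eq_of_mul_eq_one_left (sg_mul_self _)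
    rw [e1, sub_eq_add_neg, sg_add hr2, sg_neg hr2, ← mul_assoc, mul_inv, e2]
  rw [h3, Finset.prod_mul_distrib, h2, L4bTwoV]
  ring

lemma L4bTwo_vanish (hr : r % 4 = 2) (g : MG r n) (e1 : ZMod r) (i0 : Fin n)
    (T : Finset (Fin n)) (hT : T ≠ cyc g i0)
    (ha : sg (∑ i ∈ cyc g i0, g.col i) = -1) :
    ∑ x : Str r n with (IsStr g 0 e1 (hf r) T x ∧ T = cyc g i0 ∪ cyc g (x.1 i0)),
      L4bTwoV g i0 x = 0 := by
  have hr2 : 2 ∣ r := by omega
  set X := (Finset.univ : Finset (Str r n)).filter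
    (fun x => IsStr g 0 e1 (hf r) T x ∧ T = cyc g i0 ∪ cyc g (x.1 i0)) with hX
  -- a self-bijection with factor `-1`
  have key : ∀ F : Str r n → Str r n, (∀ x ∈ X, F x ∈ X) → (Set.InjOn F X) →
      (∀ x ∈ X, L4bTwoV g i0 (F x) = - L4bTwoV g i0 x) → ∑ x ∈ X, L4bTwoV g i0 x = 0 := by
    intro F h1 h2 h3
    have h4 : ∑ x ∈ X, L4bTwoV g i0 (F x) = ∑ x ∈ X, L4bTwoV g i0 x := by
      refine Finset.sum_nbij F h1 h2 ?_ (fun _ _ => rfl)
      exact Finset.surjOn_of_injOn_of_card_le F h1 h2 le_rfl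
    rw [Finset.sum_congr rfl h3, Finset.sum_neg_distrib] at h4
    have h5 : (2 : ℂ) * ∑ x ∈ X, L4bTwoV g i0 x = 0 := by linear_combination -h4
    exact (mul_eq_zero.1 h5).resolve_left two_ne_zero
  rcases Nat.even_or_odd (cyc g i0).card with hl | hl
  · apply key (L4bTwoF g i0 T)
    · intro x hx
      rw [hX, Finset.mem_filter] at hx ⊢
      exact ⟨Finset.mem_univ _, L4bTwo_F_mem hr hT hx.2.1 hx.2.2⟩
    · intro x hx y hy hxy
      rw [Finset.mem_coe, hX, Finset.mem_filter] at hx hy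
      exact L4bTwo_F_inj hxy
    · intro x hx
      rw [hX, Finset.mem_filter] at hx
      exact L4bTwo_V_F hr hT hx.2.1 hx.2.2 hl ha
  · apply key (shiftS T 1)
    · intro x hx
      rw [hX, Finset.mem_filter] at hx ⊢
      have hstb := (L4bTwo_sw hT hx.2.1 hx.2.2).1
      exact ⟨Finset.mem_univ _, (isStr_shiftS hstb).2 hx.2.1, hx.2.2⟩
    · intro x hx y hy hxy
      have h0 : (shiftS T 1 x).1 = (shiftS T 1 y).1 := congrArg Prod.fst hxy
      have h0' : (shiftS T 1 x).2 = (shiftS T 1 y).2 := congrArg Prod.snd hxy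
      have h1 : x.1 = y.1 := h0
      refine Prod.ext h1 ?_
      funext i
      have h2 := congrFun h0' i
      change (if i ∈ T then _ else _) = (if i ∈ T then _ else _) at h2
      split_ifs at h2
      · exact add_right_cancel h2
      · exact h2
    · intro x hx
      rw [hX, Finset.mem_filter] at hx
      have hsub := (L4bTwo_sw hT hx.2.1 hx.2.2).2.1
      have h1 : L4bTwoV g i0 (shiftS T 1 x)
          = ∏ i ∈ cyc g i0, ((-1) * (Complex.I * sg (x.2 i))⁻¹) := by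
        refine Finset.prod_congr rfl fun i hi => ?_
        have e1 : (shiftS T 1 x).2 i = x.2 i + 1 := if_pos (hsub hi)
        rw [e1, sg_add hr2, sg_one hr2]
        rw [show Complex.I * (sg (x.2 i) * -1) = -(Complex.I * sg (x.2 i)) by ring, inv_neg]
        ring
      rw [h1, Finset.prod_mul_distrib, Finset.prod_const, hl.neg_one_pow, L4bTwoV]
      ring

theorem L4b_two (hr : r % 4 = 2) (g : MG r n) (i0 : Fin n) (T : Finset (Fin n))
    (hT : T ≠ cyc g i0) :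
    con g 0 0 (hf r) (phiM Complex.I g) i0 T
      = con g 0 (hf r) (hf r) (phiN (-Complex.I) Complex.I g) i0 T := by
  have hr2 : 2 ∣ r := by omega
  have hhf := hf_add_hf hr2
  have hL : con g 0 0 (hf r) (phiM Complex.I g) i0 T
      = ∑ x : Str r n with (IsStr g 0 0 (hf r) T x ∧ T = cyc g i0 ∪ cyc g (x.1 i0)),
          L4bTwoV g i0 x := by
    rw [con]
    refine Finset.sum_congr rfl fun x hx => ?_
    rw [Finset.mem_filter] at hx
    exact L4bTwo_wtL hT hx.2.1 hx.2.2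
  have hR : con g 0 (hf r) (hf r) (phiN (-Complex.I) Complex.I g) i0 T
      = sg (∑ i ∈ cyc g i0, g.col i) *
        ∑ x : Str r n with (IsStr g 0 (hf r) (hf r) T x ∧ T = cyc g i0 ∪ cyc g (x.1 i0)),
          L4bTwoV g i0 x := by
    rw [con, Finset.mul_sum]
    refine Finset.sum_congr rfl fun x hx => ?_
    rw [Finset.mem_filter] at hx
    exact L4bTwo_wtR hr hT hx.2.1 hx.2.2
  rw [hL, hR]
  rcases sg_cases (∑ i ∈ cyc g i0, g.col i) with ha | ha
  · rw [ha, one_mul]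
    let G : Str r n → Str r n := fun x =>
      (x.1, fun i => if i ∈ T ∧ i ∉ cyc g i0 then x.2 i + hf r else x.2 i)
    have hGG : ∀ x, G (G x) = x := by
      intro x
      refine Prod.ext rfl ?_
      funext i
      change (if i ∈ T ∧ i ∉ cyc g i0 then
        (if i ∈ T ∧ i ∉ cyc g i0 then x.2 i + hf r else x.2 i) + hf r else
        (if i ∈ T ∧ i ∉ cyc g i0 then x.2 i + hf r else x.2 i)) = x.2 i
      split_ifs
      · rw [add_assoc, hhf, add_zero]
      · rfl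
    have hG : ∀ (e1 e1' : ZMod r) (x : Str r n), e1' = e1 + hf r →
        (IsStr g 0 e1 (hf r) T x ∧ T = cyc g i0 ∪ cyc g (x.1 i0)) →
        (IsStr g 0 e1' (hf r) T (G x) ∧ T = cyc g i0 ∪ cyc g ((G x).1 i0)) := by
      rintro e1 e1' x rfl ⟨hx, hc⟩
      obtain ⟨hstb, hsub, hsw⟩ := L4bTwo_sw hT hx hc
      refine ⟨⟨?_, ?_⟩, hc⟩
      · intro i hi
        have h1 := hx.1 i hi
        refine ⟨h1.1, ?_⟩
        change (if i ∈ T ∧ i ∉ cyc g i0 then _ else _) = _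
        rw [if_neg (fun h => hi h.1), h1.2]
      · intro i hi
        obtain ⟨h1, h2, h3, h4, h5⟩ := hx.2 i hi
        refine ⟨h1, h2, h3, ?_, ?_⟩
        · change (if x.1 i ∈ T ∧ x.1 i ∉ cyc g i0 then x.2 (x.1 i) + hf r else x.2 (x.1 i))
            = (if i ∈ T ∧ i ∉ cyc g i0 then x.2 i + hf r else x.2 i) + _ + _
          by_cases hic : i ∈ cyc g i0
          · have k1 := (hsw i hi).1 hic
            rw [if_pos ⟨h1, k1⟩, if_neg (fun h => h.2 hic), h4]
            ring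
          · have k1 : x.1 i ∈ cyc g i0 := by
              by_contra h
              exact hic ((hsw i hi).2 h)
            rw [if_neg (fun h => h.2 k1), if_pos ⟨hi, hic⟩, h4]
            linear_combination (-(1 : ZMod r)) * hhf
        · change (if g.perm i ∈ T ∧ g.perm i ∉ cyc g i0 then x.2 (g.perm i) + hf r
              else x.2 (g.perm i))
            = (if i ∈ T ∧ i ∉ cyc g i0 then x.2 i + hf r else x.2 i) + _ + _ + _
          have k1 : g.perm i ∈ T ∧ g.perm i ∉ cyc g i0 ↔ i ∈ T ∧ i ∉ cyc g i0 :=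
            and_congr (hstb i) (not_congr (cyc_Stb g i0 i))
          by_cases hic : i ∈ T ∧ i ∉ cyc g i0
          · rw [if_pos (k1.2 hic), if_pos hic, h5]
            ring
          · rw [if_neg (fun h => hic (k1.1 h)), if_neg hic, h5]
    refine Finset.sum_nbij' G G ?_ ?_ (fun x _ => hGG x) (fun x _ => hGG x) ?_
    · intro x hx
      rw [Finset.mem_filter] at hx ⊢
      exact ⟨Finset.mem_univ _, hG 0 (hf r) x (by rw [zero_add]) hx.2⟩
    · intro x hx
      rw [Finset.mem_filter] at hx ⊢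
      exact ⟨Finset.mem_univ _, hG (hf r) 0 x hhf.symm hx.2⟩
    · intro x _
      refine Finset.prod_congr rfl fun i hi => ?_
      have e1 : (G x).2 i = x.2 i := if_neg (fun h => h.2 hi)
      rw [e1]
  · rw [L4bTwo_vanish hr g 0 i0 T hT ha, L4bTwo_vanish hr g (hf r) i0 T hT ha, mul_zero]

end GIM119
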