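import Pool.Agent.Lib.MP_119ee3_al.Basic2
import Pool.Agent.Lib.MP_119ee3_al.CocOdd
import Pool.Agent.Lib.MP_119ee3_al.GIOne

set_option autoImplicit false

/-!
# MP_119ee3_al: Algebraic properties of lA.
-/

open Classical

noncomputable section

namespace GIM119

open MG

variable {r n : ℕ} [NeZero r]

lemma LAalg_sym [NeZero n] {q : ℕ} (hr : Odd r) (hqr : q ∣ r) {ω : MG r n}
    (h1 : ω * tau r n ω ∈ Cq r q n) : TSym 0 ω :=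
  (GI1_iff hqr (Or.inl (hr.of_dvd_nat hqr)) ω).1 h1

omit [NeZero r] in
lemma LAalg_act {q : ℕ} {g ω : MG r n} (h : g * ω * (tau r n g)⁻¹ * ω⁻¹ ∈ Cq r q n) :
    ∃ e : ZMod r, act g ω = scal n e * ω := by
  obtain ⟨k, hk⟩ := mem_Cq.1 h
  rw [twist_eq_iff] at hk
  exact ⟨_, hk⟩

lemma LAalg_inv (g : MG r n) {ω : MG r n} (hω : TSym 0 ω) :
    W1 (fun _ => 1) g⁻¹ (act g ω) * W1 (fun _ => 1) g ω = 1 := by
  rw [← W1o_mul g⁻¹ g hω, inv_mul_cancel, W1o_one]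

theorem lA_mul [NeZero n] {q : ℕ} (hr : Odd r) (hqr : q ∣ r)
    (ω g h : MG r n) (hω : ω ∈ Gp r 1 n) (hg : g ∈ Gp r 1 n) (hh : h ∈ Gp r 1 n)
    (h1 : ω * tau r n ω ∈ Cq r q n) (h2 : g * ω * (tau r n g)⁻¹ * ω⁻¹ ∈ Cq r q n)
    (h3 : h * ω * (tau r n h)⁻¹ * ω⁻¹ ∈ Cq r q n) :
    lA (g * h) ω = lA g ω * lA h ω := by
  have hs := LAalg_sym hr hqr h1
  obtain ⟨e, he⟩ := LAalg_act h3
  unfold lA
  rw [W1o_mul g h hs, he, W1o_scal_left]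

theorem lA_cen [NeZero n] {q : ℕ} (hr : Odd r) (hqr : q ∣ r)
    (ω z : MG r n) (hω : ω ∈ Gp r 1 n)
    (h1 : ω * tau r n ω ∈ Cq r q n) (hz : z ∈ Cq r q n) : lA z ω = 1 := by
  obtain ⟨k, rfl⟩ := mem_Cq.1 hz
  unfold lA
  rw [← one_mul (scal n _), W1o_mul_scal, W1o_one]

theorem lA_shift [NeZero n] {q : ℕ} (hr : Odd r) (hqr : q ∣ r)
    (ω g z : MG r n) (hω : ω ∈ Gp r 1 n) (hg : g ∈ Gp r 1 n)
    (h1 : ω * tau r n ω ∈ Cq r q n) (h2 : g * ω * (tau r n g)⁻¹ * ω⁻¹ ∈ Cq r q n)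
    (hz : z ∈ Cq r q n) : lA g (z * ω) = lA g ω := by
  obtain ⟨k, rfl⟩ := mem_Cq.1 hz
  unfold lA
  rw [W1o_scal_left]

theorem lA_conj [NeZero n] {q : ℕ} (hr : Odd r) (hqr : q ∣ r)
    (ω g k : MG r n) (hω : ω ∈ Gp r 1 n) (hg : g ∈ Gp r 1 n) (hk : k ∈ Gp r 1 n)
    (h1 : ω * tau r n ω ∈ Cq r q n) (h2 : g * ω * (tau r n g)⁻¹ * ω⁻¹ ∈ Cq r q n) :
    lA (k * g * k⁻¹) (k * ω * (tau r n k)⁻¹) = lA g ω := by
  have hs := LAalg_sym hr hqr h1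
  obtain ⟨e, he⟩ := LAalg_act h2
  have hk1 : k * ω * (tau r n k)⁻¹ = act k ω := rfl
  have hks : TSym 0 (act k ω) := TSym.act hs k
  unfold lA
  rw [hk1, W1o_mul (k * g) k⁻¹ hks, act_inv_act, W1o_mul k g hs, he, W1o_scal_left]
  have h3 := LAalg_inv k hs
  calc W1 (fun _ => 1) k ω * W1 (fun _ => 1) g ω * W1 (fun _ => 1) k⁻¹ (act k ω)
      = (W1 (fun _ => 1) k⁻¹ (act k ω) * W1 (fun _ => 1) k ω) * W1 (fun _ => 1) g ω := by ring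
    _ = W1 (fun _ => 1) g ω := by rw [h3, one_mul]

end GIM119
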