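import Pool.Agent.Lib.MP_119ee3_al.Basic2
import Pool.Agent.Lib.MP_119ee3_al.CocOdd
import Pool.Agent.Lib.MP_119ee3_al.GIOne
import Pool.Agent.Lib.MP_119ee3_al.FOdd
import Pool.Agent.Lib.MP_119ee3_al.LAalg

set_option autoImplicit false

/-!
# MP_119ee3_al: The sum identity for lA.
-/

open Classical

noncomputable section

namespace GIM119

open MG

variable {r n : ℕ} [NeZero r]

/-- The exponents of the scalars of `C_q`. -/
def LAsum_D (r q n : ℕ) [NeZero r] : Finset (ZMod r) :=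
  Finset.univ.filter fun c : ZMod r => scal n c ∈ Cq r q n

lemma LAsum_mem {q : ℕ} {c : ZMod r} : c ∈ LAsum_D r q n ↔ scal n c ∈ Cq r q n := by
  simp [LAsum_D]

/-- Number of twisted square roots. -/
def LAsum_A (x : MG r n) : ℂ :=
  ((Finset.univ.filter fun h : MG r n => h * tau r n h = x).card : ℂ)

lemma LAsum_Gp (x : MG r n) : x ∈ Gp r 1 n := ⟨cs x, by rw [Nat.cast_one, one_mul]⟩

lemma LAsum_mem_iff (q : ℕ) (z : MG r n) :
    z ∈ Cq r q n ↔ ∃ c ∈ LAsum_D r q n, z = scal n c := by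
  constructor
  · intro h
    obtain ⟨k, hk⟩ := h
    refine ⟨((r / q : ℕ) : ZMod r) * k, ?_, hk⟩
    rw [LAsum_mem]
    exact ⟨k, rfl⟩
  · rintro ⟨c, hc, rfl⟩
    exact LAsum_mem.1 hc

lemma LAsum_left [NeZero n] {q : ℕ} (hqr : q ∣ r) (hq : Odd q) (g : MG r n) (f : MG r n → ℂ) :
    ∑ ω with (ω ∈ Gp r 1 n ∧ ω * tau r n ω ∈ Cq r q n ∧
      g * ω * (tau r n g)⁻¹ * ω⁻¹ ∈ Cq r q n), f ω
    = ∑ c ∈ LAsum_D r q n, ∑ ω with (TSym 0 ω ∧ act g ω = scal n c * ω), f ω := by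
  rw [← Finset.sum_biUnion]
  · refine Finset.sum_congr ?_ fun _ _ => rfl
    ext ω
    simp only [Finset.mem_filter, Finset.mem_univ, true_and, Finset.mem_biUnion,
      GI1_iff hqr (Or.inl hq), LAsum_mem_iff q (g * ω * (tau r n g)⁻¹ * ω⁻¹), twist_eq_iff]
    constructor
    · rintro ⟨-, h2, c, hc, h3⟩
      exact ⟨c, hc, h2, h3⟩
    · rintro ⟨c, hc, h2, h3⟩
      exact ⟨LAsum_Gp ω, h2, c, hc, h3⟩
  · intro c _ c' _ hne
    rw [Function.onFun, Finset.disjoint_left]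
    intro ω h1 h2
    rw [Finset.mem_filter] at h1 h2
    exact hne (scal_mul_inj (h1.2.2.symm.trans h2.2.2))

lemma LAsum_right [NeZero n] (q : ℕ) (g : MG r n) :
    ((Finset.univ.filter fun h : MG r n =>
        h ∈ Gp r 1 n ∧ h * tau r n h * g⁻¹ ∈ Cq r q n).card : ℂ)
    = ∑ c ∈ LAsum_D r q n, LAsum_A (g * scal n (-c)) := by
  have h2 : ((Finset.univ.filter fun h : MG r n =>
        h ∈ Gp r 1 n ∧ h * tau r n h * g⁻¹ ∈ Cq r q n).card : ℂ)
      = ∑ h with (h ∈ Gp r 1 n ∧ h * tau r n h * g⁻¹ ∈ Cq r q n), (1 : ℂ) := by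
    simp
  have h1 : ∀ x : MG r n, LAsum_A x = ∑ h with (h * tau r n h = x), (1 : ℂ) := by
    intro x
    simp [LAsum_A]
  rw [h2]
  simp only [h1]
  rw [← Finset.sum_biUnion]
  · refine Finset.sum_congr ?_ fun _ _ => rfl
    ext h
    simp only [Finset.mem_filter, Finset.mem_univ, true_and, Finset.mem_biUnion]
    have h3 : h * tau r n h * g⁻¹ ∈ Cq r q n
        ↔ ∃ c ∈ LAsum_D r q n, h * tau r n h = g * scal n (-c) := by
      rw [← inv_mem_iff, LAsum_mem_iff]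
      refine exists_congr fun j => and_congr_right fun _ => ?_
      rw [inv_eq_iff_eq_inv, mul_inv_eq_iff_eq_mul, scal_inv, scal_comm]
    rw [h3]
    constructor
    · rintro ⟨-, h4⟩
      exact h4
    · intro h4
      exact ⟨LAsum_Gp h, h4⟩
  · intro c _ c' _ hne
    rw [Function.onFun, Finset.disjoint_left]
    intro ω h1 h2
    rw [Finset.mem_filter] at h1 h2
    have h4 := mul_left_cancel (h1.2.symm.trans h2.2)
    exact hne (neg_injective (scal_inj h4))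

lemma LAsum_two (hr : Odd r) : ∃ u : ZMod r, 2 * u = 1 := by
  obtain ⟨m, hm⟩ := hr
  refine ⟨((m + 1 : ℕ) : ZMod r), ?_⟩
  have h : ((2 * m + 1 : ℕ) : ZMod r) = 0 := by
    rw [← hm]
    exact ZMod.natCast_self r
  have h2 : (2 : ZMod r) * ((m + 1 : ℕ) : ZMod r) = ((2 * m + 1 : ℕ) : ZMod r) + 1 := by
    push_cast
    ring
  rw [h2, h, zero_add]

/-- Doubling permutes the scalars. -/
lemma LAsum_double (hr : Odd r) {q : ℕ} (F : ZMod r → ℂ) :
    ∑ c ∈ LAsum_D r q n, F c = ∑ c ∈ LAsum_D r q n, F (2 * c) := by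
  obtain ⟨u, hu⟩ := LAsum_two (r := r) hr
  symm
  refine Finset.sum_bij' (fun c _ => 2 * c) (fun c _ => u * c) ?_ ?_ ?_ ?_ ?_
  · intro c hc
    rw [LAsum_mem] at hc ⊢
    rw [two_mul, scal_add]
    exact mul_mem hc hc
  · intro c hc
    rw [LAsum_mem] at hc ⊢
    have h1 : scal n (u * c) = (scal n c) ^ u.val := by
      have h2 : ∀ k : ℕ, scal n ((k : ZMod r) * c) = (scal n c) ^ k := by
        intro k
        induction k with
        | zero => rw [Nat.cast_zero, zero_mul, scal_zero, pow_zero]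
        | succ k ih => rw [Nat.cast_succ, add_mul, one_mul, scal_add, ih, pow_succ]
      rw [← h2, ZMod.natCast_zmod_val]
    rw [h1]
    exact pow_mem hc _
  · intro c _
    rw [← mul_assoc, mul_comm u, hu, one_mul]
  · intro c _
    rw [← mul_assoc, hu, one_mul]
  · intro c _
    rfl

theorem lA_sum [NeZero n] {q : ℕ} (hr : Odd r) (hqr : q ∣ r)
    (g : MG r n) (hg : g ∈ Gp r 1 n) :
    ∑ ω with (ω ∈ Gp r 1 n ∧ ω * tau r n ω ∈ Cq r q n ∧
      g * ω * (tau r n g)⁻¹ * ω⁻¹ ∈ Cq r q n), lA g ω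
    = ((Finset.univ.filter fun h : MG r n =>
        h ∈ Gp r 1 n ∧ h * tau r n h * g⁻¹ ∈ Cq r q n).card : ℂ) := by
  have hq : Odd q := by
    obtain ⟨t, ht⟩ := hqr
    rw [ht] at hr
    exact (Nat.odd_mul.1 hr).1
  rw [LAsum_left hqr hq, LAsum_right, LAsum_double hr]
  refine Finset.sum_congr rfl fun c _ => ?_
  unfold LAsum_A
  rw [← F1o hr]
  refine Finset.sum_congr ?_ ?_
  · refine Finset.filter_congr fun ω _ => ?_
    rw [act_mul_scal, show 2 * -c = -(2 * c) by ring, ← scal_inv, inv_mul_eq_iff_eq_mul]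
  · intro ω _
    rw [W1o_mul_scal]
    rfl

theorem ALG_A [NeZero n] {q : ℕ} (hr : Odd r) (hqr : q ∣ r) : ALG r 1 q n lA :=
  ⟨lA_mul hr hqr, lA_cen hr hqr, lA_shift hr hqr, lA_conj hr hqr, lA_sum hr hqr⟩

end GIM119
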