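import Pool.Agent.Lib.MP_119ee3_al.Basic
import Pool.Agent.Lib.MP_119ee3_al.Chars

set_option autoImplicit false

/-!
# MP_119ee3_al: Relations with odd scalars.
-/

open Classical

noncomputable section

namespace GIM119

open MG

variable {r n : ℕ} [NeZero r]

omit [NeZero r] in
/-- Pairing the factors of a product along an involution. -/
lemma Rel2_pair (s : Fin n → Fin n) (hs : ∀ i, s (s i) = i) (U : Fin n → ℂ) :
    ∏ i, U i = ∏ i, (if i < s i then U i * U (s i) else if s i = i then U i else 1) := by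
  have h2 : ∏ i, (if i < s i then U (s i) else 1) = ∏ i, (if s i < i then U i else 1) := by
    let e : Equiv.Perm (Fin n) := ⟨s, s, hs, hs⟩
    rw [← Equiv.prod_comp e (fun i => if i < s i then U (s i) else 1)]
    refine Finset.prod_congr rfl fun i _ => ?_
    change (if s i < s (s i) then U (s (s i)) else 1) = _
    rw [hs]
  have h3 : ∏ i, (if i < s i then U i * U (s i) else if s i = i then U i else 1) =
      (∏ i, (if i < s i then U i else 1)) * (∏ i, (if i < s i then U (s i) else 1)) *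
        ∏ i, (if s i = i then U i else 1) := by
    rw [← Finset.prod_mul_distrib, ← Finset.prod_mul_distrib]
    refine Finset.prod_congr rfl fun i _ => ?_
    by_cases h : i < s i
    · have h' : s i ≠ i := ne_of_gt h
      simp [h, h']
    · simp [h]
  rw [h3, h2, ← Finset.prod_mul_distrib, ← Finset.prod_mul_distrib]
  refine Finset.prod_congr rfl fun i _ => ?_
  rcases lt_trichotomy i (s i) with h | h | h
  · have h1 : ¬ s i < i := not_lt_of_gt h
    have h' : s i ≠ i := ne_of_gt h
    simp [h, h1, h']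
  · have h1 : s i = i := h.symm
    simp [h1]
  · have h1 : ¬ i < s i := not_lt_of_gt h
    have h' : s i ≠ i := ne_of_lt h
    simp [h, h1, h']

omit [NeZero r] in
lemma Rel2_sg_sq (x : ZMod r) : sg x * sg x = 1 := by
  rw [sg, ← mul_pow]
  norm_num

lemma Rel2_sg_ne (x : ZMod r) : sg x ≠ 0 := fun h => by
  have := Rel2_sg_sq x
  rw [h, mul_zero] at this
  exact zero_ne_one this

/-- `TT` after the action, in terms of the blocks of `ω`. -/
lemma Rel2_TT_act (hr : 2 ∣ r) (κ : ℂ) (g : MG r n) {ω : MG r n} {e : ZMod r} (hω : TSym e ω) :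
    TT κ (act g ω) = ∏ i, (if i < ω.perm i then κ * sg (ω.col i) *
      (sg (g.col i) * sg (g.col (ω.perm i))) *
      (if g.perm i < g.perm (ω.perm i) then 1 else sg e) else 1) := by
  have h1 : TT κ (act g ω) = ∏ i, (if g.perm i < g.perm (ω.perm i) then
      κ * sg (g.col i + ω.col i + g.col (ω.perm i)) else 1) := by
    rw [TT, prodW, ← Equiv.prod_comp g.perm]
    refine Finset.prod_congr rfl fun i _ => ?_
    rw [phiT, act_perm_apply, act_col]
  rw [h1, Rel2_pair (fun i => ω.perm i) hω.1]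
  refine Finset.prod_congr rfl fun i _ => ?_
  by_cases h : i < ω.perm i
  · rw [if_pos h, if_pos h, hω.1 i, hω.2 i]
    by_cases h2 : g.perm i < g.perm (ω.perm i)
    · have h3 : ¬ g.perm (ω.perm i) < g.perm i := not_lt_of_gt h2
      rw [if_pos h2, if_neg h3, if_pos h2, sg_add hr, sg_add hr]
      ring
    · have h3 : g.perm (ω.perm i) < g.perm i := by
        refine lt_of_le_of_ne (not_lt.1 h2) fun h4 => ?_
        exact absurd (g.perm.injective h4) (ne_of_gt h)
      rw [if_neg h2, if_pos h3, if_neg h2, sg_add hr, sg_add hr, sg_add hr]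
      ring
  · rw [if_neg h, if_neg h]
    by_cases h2 : ω.perm i = i
    · rw [if_pos h2, h2, if_neg (lt_irrefl _)]
    · rw [if_neg h2]

lemma Rel2_cs (hr : 2 ∣ r) (g : MG r n) (s : Fin n → Fin n) (hs : ∀ i, s (s i) = i) :
    sg (cs g) = ∏ i, (if i < s i then sg (g.col i) * sg (g.col (s i)) else
      if s i = i then sg (g.col i) else 1) := by
  rw [cs, sg_sum hr, Rel2_pair s hs]

theorem TT_ne_zero {κ : ℂ} (hκ : κ ≠ 0) (ω : MG r n) : TT κ ω ≠ 0 := by
  rw [TT, prodW, Finset.prod_ne_zero_iff]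
  intro i _
  rw [phiT]
  split_ifs
  · exact mul_ne_zero hκ (Rel2_sg_ne _)
  · exact one_ne_zero

theorem TT_scal_even (hr : 2 ∣ r) (κ : ℂ) (ω : MG r n) {e : ZMod r} (he : sg e = 1) :
    TT κ (scal n e * ω) = TT κ ω := by
  rw [TT, TT, prodW, prodW]
  refine Finset.prod_congr rfl fun i _ => ?_
  rw [phiT, phiT, scal_mul_perm, scal_mul_col, sg_add hr, he, mul_one]

theorem TT_scal_odd (hr : 2 ∣ r) {κ : ℂ} (hκ : κ ^ 2 = -1) (ω : MG r n) {e : ZMod r}
    (he : sg e = -1) : TT κ (scal n e * ω) * TT κ ω = 1 := by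
  rw [TT, TT, prodW, prodW, ← Finset.prod_mul_distrib]
  refine Finset.prod_eq_one fun i _ => ?_
  rw [phiT, phiT, scal_mul_perm, scal_mul_col, sg_add hr, he]
  split_ifs
  · have h := Rel2_sg_sq (ω.col i)
    calc κ * (sg (ω.col i) * -1) * (κ * sg (ω.col i))
        = -(κ ^ 2) * (sg (ω.col i) * sg (ω.col i)) := by ring
      _ = 1 := by rw [h, hκ]; norm_num
  · rw [mul_one]

theorem rel_sym (hr : 2 ∣ r) (κ : ℂ) (g : MG r n) {ω : MG r n}
    (hω : TSym 0 ω) {e : ZMod r} (he : sg e = -1) (hg : sg (cs g) = 1) :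
    W1 sg g (scal n e * ω) * TT κ ω = W1 sg g ω * TT κ (act g ω) := by
  have h1 : W1 sg g ω * TT κ (act g ω) = W1 sg g ω * TT κ (act g ω) * sg (cs g) := by
    rw [hg, mul_one]
  rw [h1, Rel2_cs hr g (fun i => ω.perm i) hω.1, Rel2_TT_act hr κ g hω, W1, W1, TT, prodW, prodW,
    prodW, ← Finset.prod_mul_distrib, ← Finset.prod_mul_distrib, ← Finset.prod_mul_distrib]
  refine Finset.prod_congr rfl fun i _ => ?_
  simp only [phi1, phiT, scal_mul_perm, scal_mul_col, sg_zero, ite_self, mul_one]
  rcases lt_trichotomy i (ω.perm i) with h | h | h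
  · have h' : ω.perm i ≠ i := ne_of_gt h
    have ha := Rel2_sg_sq (g.col i)
    have hb := Rel2_sg_sq (g.col (ω.perm i))
    simp only [h', h, true_and, if_true, if_false]
    generalize (if g.perm (ω.perm i) < g.perm i then (-1 : ℂ) else 1) = f
    linear_combination (-f * κ * sg (ω.col i) * (sg (g.col (ω.perm i)) *
      sg (g.col (ω.perm i)))) * ha - f * κ * sg (ω.col i) * hb
  · have h' : ω.perm i = i := h.symm
    have ha := Rel2_sg_sq (g.col i)
    simp only [h', lt_irrefl, if_true, if_false, mul_one]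
    rw [sg_add hr, he]
    rcases sg_cases (ω.col i) with hb | hb
    · rw [hb, if_neg (by norm_num), if_pos rfl]
      ring
    · rw [hb, if_pos (by norm_num), if_neg (by norm_num)]
      exact ha.symm
  · have h1 : ¬ i < ω.perm i := not_lt_of_gt h
    have h' : ω.perm i ≠ i := ne_of_lt h
    simp [h1, h']

theorem rel_asym (hr : r % 4 = 2) (κ κ' : ℂ) (g : MG r n) {ω : MG r n}
    (hω : TSym (hf r) ω) {e : ZMod r} (he : sg e = -1) (hg : sg (cs g) = 1) :
    W2 κ g (scal n e * ω) * TT κ' ω = W2 κ g ω * TT κ' (act g ω) := by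
  have hr2 : 2 ∣ r := by omega
  have hhf : sg (hf r) = -1 := by
    rw [sg_hf hr2]
    have : Odd (r / 2) := by
      rw [Nat.odd_iff]
      omega
    exact this.neg_one_pow
  have h1 : W2 κ g ω * TT κ' (act g ω) = W2 κ g ω * TT κ' (act g ω) * sg (cs g) := by
    rw [hg, mul_one]
  rw [h1, Rel2_cs hr2 g (fun i => ω.perm i) hω.1, Rel2_TT_act hr2 κ' g hω, W2, W2, TT, prodW,
    prodW, prodW, ← Finset.prod_mul_distrib, ← Finset.prod_mul_distrib,
    ← Finset.prod_mul_distrib]
  refine Finset.prod_congr rfl fun i _ => ?_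
  simp only [phi2, phiT, scal_mul_perm, scal_mul_col, hhf]
  rcases lt_trichotomy i (ω.perm i) with h | h | h
  · have h' : ω.perm i ≠ i := ne_of_gt h
    have ha := Rel2_sg_sq (g.col i)
    have hb := Rel2_sg_sq (g.col (ω.perm i))
    simp only [if_pos h]
    rw [sg_add hr2, sg_add hr2, sg_add hr2, sg_add hr2 (ω.col (ω.perm i) + g.col (ω.perm i)),
      sg_add hr2 (ω.col (ω.perm i)), he]
    split_ifs
    · linear_combination (-κ' * sg (ω.col i) * sg (g.col i) * (sg (g.col (ω.perm i)) *
        sg (g.col (ω.perm i)))) * ha - κ' * sg (ω.col i) * sg (g.col i) * hb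
    · generalize sg (ω.col i) = b at *
      generalize sg (g.col i) = a at *
      generalize sg (g.col (ω.perm i)) = a' at *
      generalize sg (ω.col (ω.perm i)) = c at *
      linear_combination (κ * κ' * a * a * a' * b * c) * (a' * a' * ha + hb)
  · exfalso
    have h2 := hω.2 i
    rw [← h] at h2
    exact hf_ne_zero hr2 (left_eq_add.1 h2)
  · have h1 : ¬ i < ω.perm i := not_lt_of_gt h
    have h' : ω.perm i ≠ i := ne_of_lt h
    simp [h1, h']

theorem TT_neg (κ : ℂ) (ω : MG r n) :
    TT (-κ) ω = (-1) ^ (Finset.univ.filter fun i => i < ω.perm i).card * TT κ ω := by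
  rw [TT, TT, prodW, prodW, ← Finset.prod_const, Finset.prod_filter, ← Finset.prod_mul_distrib]
  refine Finset.prod_congr rfl fun i _ => ?_
  rw [phiT, phiT]
  split_ifs
  · ring
  · ring

end GIM119
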