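import Pool.Agent.Lib.MP_119ee3_al.Basic
import Pool.Agent.Lib.MP_119ee3_al.Cocycle1
import Pool.Agent.Lib.MP_119ee3_al.Cocycle2
import Pool.Agent.Lib.MP_119ee3_al.Rel2
import Pool.Agent.Lib.MP_119ee3_al.GI

set_option autoImplicit false

/-!
# MP_119ee3_al: Algebraic properties of lB.
-/

open Classical

noncomputable section

namespace GIM119

open MG

variable {r n : ℕ} [NeZero r]

lemma LBalg_sg_cs (hr : 2 ∣ r) {ω : MG r n} (hω : ω ∈ Gp r 2 n) : sg (cs ω) = 1 := by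
  obtain ⟨y, hy⟩ := hω
  rw [hy]
  exact_mod_cast sg_two_mul hr y

lemma LBalg_stab {q : ℕ} (hq0 : 0 < q) (hqr : q ∣ r) {g ω : MG r n}
    (h2 : g * ω * (tau r n g)⁻¹ * ω⁻¹ ∈ Cq r q n) :
    ∃ e : ZMod r, act g ω = scal n e * ω := by
  rw [mem_Cq_iff_exists hq0 hqr] at h2
  obtain ⟨j, -, hj⟩ := h2
  exact ⟨_, (twist_eq_iff _ _ _).1 hj⟩

lemma LBalg_q0 {q : ℕ} (hqr : q ∣ r) : 0 < q := by
  rcases Nat.eq_zero_or_pos q with h | h
  · subst h
    exact absurd (Nat.eq_zero_of_zero_dvd hqr) (NeZero.ne r)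
  · exact h

lemma LBalg_sg_hf (hr : r % 4 = 2) : sg (hf r) = -1 := by
  have hr2 : 2 ∣ r := by omega
  rw [sg_hf hr2]
  have : Odd (r / 2) := by
    rw [Nat.odd_iff]
    omega
  exact this.neg_one_pow

lemma LBalg_kappa (hr : r % 4 = 2) : (-Complex.I) ^ 2 = (-1) ^ (r / 2) := by
  have : Odd (r / 2) := by
    rw [Nat.odd_iff]
    omega
  rw [this.neg_one_pow, neg_sq, Complex.I_sq]

lemma LBalg_TSym_scal (c : ZMod r) (ω : MG r n) (e : ZMod r) :
    TSym e (scal n c * ω) ↔ TSym e ω := by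
  constructor
  · intro h
    have h2 := h.scal_mul (-c)
    rw [← mul_assoc, ← scal_add, neg_add_cancel, scal_zero, one_mul] at h2
    exact h2
  · intro h
    exact h.scal_mul c

lemma LBalg_TSym_act (k : MG r n) (ω : MG r n) (e : ZMod r) :
    TSym e (act k ω) ↔ TSym e ω := by
  constructor
  · intro h
    have h2 := h.act k⁻¹
    rwa [act_inv_act] at h2
  · intro h
    exact h.act k

lemma LBalg_even_k1 (hr : 2 ∣ r) {ω : MG r n} (hω : ω ∈ Gp r 2 n) (hT : TSym 0 ω) :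
    Even (k1 ω) := by
  have h := sg_cs_of_TSym hr hT
  rw [LBalg_sg_cs hr hω] at h
  by_contra hk
  rw [Nat.not_even_iff_odd] at hk
  rw [hk.neg_one_pow] at h
  norm_num at h

lemma LBalg_even_n (hr : r % 4 = 2) {ω : MG r n} (hω : ω ∈ Gp r 2 n) (hT : TSym (hf r) ω) :
    Even (n / 2) := by
  have hr2 : 2 ∣ r := by omega
  have h := sg_cs_of_TSym_hf hr2 hT
  rw [LBalg_sg_cs hr2 hω, LBalg_sg_hf hr] at h
  by_contra hk
  rw [Nat.not_even_iff_odd] at hk
  rw [hk.neg_one_pow] at h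
  norm_num at h

/-- Bookkeeping for `lB_mul`: `s = 1`, `-1` according to the two kinds. -/
lemma LBalg_abs_mul {e1 e2 : ZMod r} (hr : 2 ∣ r) {Wg Wg' Wh Wgh T T1 s : ℂ} (hs : s * s = 1)
    (hT : T ≠ 0) (hm : Wgh = Wg' * Wh) (h1 : sg e2 = 1 → Wg' = Wg)
    (h2 : sg e2 = -1 → Wg' * T = Wg * T1) (h3 : sg e1 = 1 → T1 = T)
    (h4 : sg e1 = -1 → T1 * T = 1) :
    Wgh * (if sg (e1 + e2) = 1 then 1 else s * T⁻¹) =
      Wg * (if sg e1 = 1 then 1 else s * T⁻¹) * (Wh * (if sg e2 = 1 then 1 else s * T⁻¹)) := by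
  rw [hm, sg_add hr]
  rcases sg_cases e1 with a | a <;> rcases sg_cases e2 with b | b
  · rw [a, b, h1 b]
    norm_num
  · have hW : Wg' = Wg := by
      have := h2 b
      rw [h3 a] at this
      exact mul_right_cancel₀ hT this
    rw [a, b, hW]
    norm_num
    ring
  · rw [a, b, h1 b]
    norm_num
    ring
  · have hW : Wg' = Wg * (T⁻¹ * T⁻¹) := by
      have h5 := h2 b
      have h6 : T1 = T⁻¹ := eq_inv_of_mul_eq_one_left (h4 a)
      rw [h6] at h5
      calc Wg' = Wg' * T * T⁻¹ := by rw [mul_assoc, mul_inv_cancel₀ hT, mul_one]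
        _ = Wg * (T⁻¹ * T⁻¹) := by rw [h5, mul_assoc]
    rw [a, b, hW]
    norm_num
    linear_combination (-(Wg * Wh * T⁻¹ * T⁻¹)) * hs

/-- Bookkeeping for `lB_shift`. -/
lemma LBalg_abs_shift {e e' : ZMod r} {Wg Wg' T T1 T' s : ℂ} (hT : T ≠ 0)
    (h1 : sg e' = 1 → Wg' = Wg) (h1' : sg e' = 1 → T' = T)
    (h2 : sg e' = -1 → Wg' * T = Wg * T1) (h2' : sg e' = -1 → T' * T = 1)
    (h3 : sg e = 1 → T1 = T) (h4 : sg e = -1 → T1 * T = 1) :
    Wg' * (if sg e = 1 then 1 else s * T'⁻¹) = Wg * (if sg e = 1 then 1 else s * T⁻¹) := by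
  rcases sg_cases e' with b | b
  · rw [h1 b, h1' b]
  · rcases sg_cases e with a | a
    · have hW : Wg' = Wg := by
        have := h2 b
        rw [h3 a] at this
        exact mul_right_cancel₀ hT this
      rw [hW, a]
      norm_num
    · have h5 := h2 b
      have h6 : T1 = T⁻¹ := eq_inv_of_mul_eq_one_left (h4 a)
      have h7 : T'⁻¹ = T := by
        rw [eq_inv_of_mul_eq_one_left (h2' b), inv_inv]
      rw [h6] at h5
      rw [a, h7]
      norm_num
      linear_combination s * h5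

/-- Bookkeeping for `lB_conj`. -/
lemma LBalg_abs_conj {e : ZMod r} {Wg Wc Wk Wk' T Tk s : ℂ} (hT : T ≠ 0) (hTk : Tk ≠ 0)
    (hWk : Wk ≠ 0) (hm : Wc * Wk = Wk' * Wg) (h1 : sg e = 1 → Wk' = Wk)
    (h2 : sg e = -1 → Wk' * T = Wk * Tk) :
    Wc * (if sg e = 1 then 1 else s * Tk⁻¹) = Wg * (if sg e = 1 then 1 else s * T⁻¹) := by
  rcases sg_cases e with a | a
  · rw [h1 a] at hm
    have hW : Wc = Wg := by
      apply mul_right_cancel₀ hWk
      rw [hm, mul_comm]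
    rw [hW, a]
    norm_num
  · have h5 := h2 a
    have hW : Wc * Tk⁻¹ = Wg * T⁻¹ := by
      have h6 : Wc * T = Wg * Tk := by
        apply mul_right_cancel₀ hWk
        calc Wc * T * Wk = (Wc * Wk) * T := by ring
          _ = (Wk' * T) * Wg := by rw [hm]; ring
          _ = Wg * Tk * Wk := by rw [h5]; ring
      calc Wc * Tk⁻¹ = (Wc * T) * (T⁻¹ * Tk⁻¹) := by
            field_simp
        _ = Wg * T⁻¹ := by
            rw [h6]
            field_simp
    rw [a]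
    norm_num
    linear_combination s * hW

lemma LBalg_ne_I : Complex.I ≠ 0 := Complex.I_ne_zero

theorem lB_mul [NeZero n] {q : ℕ} (hr : r % 4 = 2) (hn : Even n) (hq : Even q) (hqr : q ∣ r)
    (ω g h : MG r n) (hω : ω ∈ Gp r 2 n) (hg : g ∈ Gp r 2 n) (hh : h ∈ Gp r 2 n)
    (h1 : ω * tau r n ω ∈ Cq r q n) (h2 : g * ω * (tau r n g)⁻¹ * ω⁻¹ ∈ Cq r q n)
    (h3 : h * ω * (tau r n h)⁻¹ * ω⁻¹ ∈ Cq r q n) :
    lB (g * h) ω = lB g ω * lB h ω := by
  have hr2 : 2 ∣ r := by omega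
  have hq0 := LBalg_q0 hqr
  obtain ⟨e1, ha⟩ := LBalg_stab hq0 hqr h2
  obtain ⟨e2, hb⟩ := LBalg_stab hq0 hqr h3
  have hgh : act (g * h) ω = scal n (e1 + e2) * ω := by
    rw [act_mul, hb, act_scal_mul, ha, ← mul_assoc, ← scal_add, add_comm]
  have hT0 : TT Complex.I ω ≠ 0 := TT_ne_zero LBalg_ne_I ω
  have hg1 := LBalg_sg_cs hr2 hg
  have t3 : sg e1 = 1 → TT Complex.I (act g ω) = TT Complex.I ω := fun h => by
    rw [ha, TT_scal_even hr2 _ _ h]
  have t4 : sg e1 = -1 → TT Complex.I (act g ω) * TT Complex.I ω = 1 := fun h => by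
    rw [ha, TT_scal_odd hr2 Complex.I_sq _ h]
  unfold lB
  rw [eo_eq ha, eo_eq hb, eo_eq hgh]
  by_cases hT : TSym 0 ω
  · rw [if_pos hT, if_pos hT, if_pos hT]
    have hm := W1_mul hr2 (sg_add hr2) g h hT
    rw [hb] at hm
    have key := LBalg_abs_mul (e1 := e1) (e2 := e2) hr2 (s := 1) (one_mul 1) hT0 hm
      (fun h => W1_scal_left hr2 sg g ω h)
      (fun h => rel_sym hr2 Complex.I g hT h hg1) t3 t4
    rw [one_mul] at key
    exact key
  · have hT2 : TSym (hf r) ω := ((GI_iff hq hqr ω).1 h1).resolve_left hT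
    rw [if_neg hT, if_neg hT, if_neg hT]
    have hm := W2_mul hr2 (LBalg_kappa hr) g h hT2
    rw [hb] at hm
    have key := LBalg_abs_mul (e1 := e1) (e2 := e2) hr2 (s := -1) (by norm_num) hT0 hm
      (fun h => W2_scal_left hr2 _ g ω h)
      (fun h => rel_asym hr _ Complex.I g hT2 h hg1) t3 t4
    rw [neg_one_mul] at key
    exact key

theorem lB_cen [NeZero n] {q : ℕ} (hr : r % 4 = 2) (hn : Even n) (hq : Even q) (hqr : q ∣ r)
    (ω z : MG r n) (hω : ω ∈ Gp r 2 n)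
    (h1 : ω * tau r n ω ∈ Cq r q n) (hz : z ∈ Cq r q n) : lB z ω = 1 := by
  have hr2 : 2 ∣ r := by omega
  obtain ⟨k, rfl⟩ := hz
  generalize ((r / q : ℕ) : ZMod r) * k = e'
  unfold lB
  rw [eo_eq (act_scal e' ω), if_pos (sg_two_mul hr2 e'), if_pos (sg_two_mul hr2 e'), mul_one,
    mul_one]
  by_cases hT : TSym 0 ω
  · rw [if_pos hT]
    have hW := W1_mul_scal (r := r) (n := n) (sg_add hr2) 1 ω e'
    rw [one_mul, W1_one _ sg_zero, one_mul] at hW
    rw [hW]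
    obtain ⟨t, ht⟩ := LBalg_even_k1 hr2 hω hT
    rw [ht, ← two_mul, pow_mul, sq, sg_mul_self, one_pow]
  · have hT2 : TSym (hf r) ω := ((GI_iff hq hqr ω).1 h1).resolve_left hT
    rw [if_neg hT]
    have hW := W2_mul_scal hr2 (-Complex.I) 1 hT2 e'
    obtain ⟨t, ht⟩ := LBalg_even_n hr hω hT2
    rw [one_mul, W2_one, one_mul, ht, ← two_mul, pow_mul, sq, sg_mul_self, one_pow] at hW
    exact hW

theorem lB_shift [NeZero n] {q : ℕ} (hr : r % 4 = 2) (hn : Even n) (hq : Even q) (hqr : q ∣ r)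
    (ω g z : MG r n) (hω : ω ∈ Gp r 2 n) (hg : g ∈ Gp r 2 n)
    (h1 : ω * tau r n ω ∈ Cq r q n) (h2 : g * ω * (tau r n g)⁻¹ * ω⁻¹ ∈ Cq r q n)
    (hz : z ∈ Cq r q n) : lB g (z * ω) = lB g ω := by
  have hr2 : 2 ∣ r := by omega
  have hq0 := LBalg_q0 hqr
  obtain ⟨k, rfl⟩ := hz
  generalize ((r / q : ℕ) : ZMod r) * k = e'
  obtain ⟨e, ha⟩ := LBalg_stab hq0 hqr h2
  have hst : act g (scal n e' * ω) = scal n e * (scal n e' * ω) := by
    rw [act_scal_mul, ha, ← mul_assoc, ← mul_assoc, scal_comm]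
  have hT0 : TT Complex.I ω ≠ 0 := TT_ne_zero LBalg_ne_I ω
  have hg1 := LBalg_sg_cs hr2 hg
  have t3 : sg e = 1 → TT Complex.I (act g ω) = TT Complex.I ω := fun h => by
    rw [ha, TT_scal_even hr2 _ _ h]
  have t4 : sg e = -1 → TT Complex.I (act g ω) * TT Complex.I ω = 1 := fun h => by
    rw [ha, TT_scal_odd hr2 Complex.I_sq _ h]
  unfold lB
  rw [eo_eq ha, eo_eq hst]
  simp only [LBalg_TSym_scal]
  by_cases hT : TSym 0 ω
  · rw [if_pos hT, if_pos hT]
    have key := LBalg_abs_shift (e := e) (e' := e') (s := 1) hT0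
      (fun h => W1_scal_left hr2 sg g ω h) (fun h => TT_scal_even hr2 Complex.I ω h)
      (fun h => rel_sym hr2 Complex.I g hT h hg1)
      (fun h => TT_scal_odd hr2 Complex.I_sq ω h) t3 t4
    rw [one_mul, one_mul] at key
    exact key
  · have hT2 : TSym (hf r) ω := ((GI_iff hq hqr ω).1 h1).resolve_left hT
    rw [if_neg hT, if_neg hT]
    have key := LBalg_abs_shift (e := e) (e' := e') (s := -1) hT0
      (fun h => W2_scal_left hr2 (-Complex.I) g ω h) (fun h => TT_scal_even hr2 Complex.I ω h)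
      (fun h => rel_asym hr _ Complex.I g hT2 h hg1)
      (fun h => TT_scal_odd hr2 Complex.I_sq ω h) t3 t4
    rw [neg_one_mul, neg_one_mul] at key
    exact key

theorem lB_conj [NeZero n] {q : ℕ} (hr : r % 4 = 2) (hn : Even n) (hq : Even q) (hqr : q ∣ r)
    (ω g k : MG r n) (hω : ω ∈ Gp r 2 n) (hg : g ∈ Gp r 2 n) (hk : k ∈ Gp r 2 n)
    (h1 : ω * tau r n ω ∈ Cq r q n) (h2 : g * ω * (tau r n g)⁻¹ * ω⁻¹ ∈ Cq r q n) :
    lB (k * g * k⁻¹) (k * ω * (tau r n k)⁻¹) = lB g ω := by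
  have hr2 : 2 ∣ r := by omega
  have hq0 := LBalg_q0 hqr
  obtain ⟨e, ha⟩ := LBalg_stab hq0 hqr h2
  have hst : act (k * g * k⁻¹) (act k ω) = scal n e * act k ω := by
    rw [← act_mul, inv_mul_cancel_right, act_mul, ha, act_scal_mul]
  have hT0 : TT Complex.I ω ≠ 0 := TT_ne_zero LBalg_ne_I ω
  have hTk0 : TT Complex.I (act k ω) ≠ 0 := TT_ne_zero LBalg_ne_I _
  have hk1 := LBalg_sg_cs hr2 hk
  change lB (k * g * k⁻¹) (act k ω) = lB g ω
  unfold lB
  rw [eo_eq ha, eo_eq hst]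
  simp only [LBalg_TSym_act]
  by_cases hT : TSym 0 ω
  · rw [if_pos hT, if_pos hT]
    have e1 := W1_mul hr2 (sg_add hr2) (k * g * k⁻¹) k hT
    rw [inv_mul_cancel_right, W1_mul hr2 (sg_add hr2) k g hT, ha] at e1
    have e3 := W1_mul hr2 (sg_add hr2) k⁻¹ k hT
    rw [inv_mul_cancel, W1_one _ sg_zero] at e3
    have hne : W1 sg k ω ≠ 0 := fun h0 => by
      rw [h0, mul_zero] at e3
      exact one_ne_zero e3
    have key := LBalg_abs_conj (e := e) (s := 1) hT0 hTk0 hne e1.symm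
      (fun h => W1_scal_left hr2 sg k ω h) (fun h => rel_sym hr2 Complex.I k hT h hk1)
    rw [one_mul, one_mul] at key
    exact key
  · have hT2 : TSym (hf r) ω := ((GI_iff hq hqr ω).1 h1).resolve_left hT
    rw [if_neg hT, if_neg hT]
    have e1 := W2_mul hr2 (LBalg_kappa hr) (k * g * k⁻¹) k hT2
    rw [inv_mul_cancel_right, W2_mul hr2 (LBalg_kappa hr) k g hT2, ha] at e1
    have e3 := W2_mul hr2 (LBalg_kappa hr) k⁻¹ k hT2
    rw [inv_mul_cancel, W2_one] at e3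
    have hne : W2 (-Complex.I) k ω ≠ 0 := fun h0 => by
      rw [h0, mul_zero] at e3
      exact one_ne_zero e3
    have key := LBalg_abs_conj (e := e) (s := -1) hT0 hTk0 hne e1.symm
      (fun h => W2_scal_left hr2 (-Complex.I) k ω h)
      (fun h => rel_asym hr _ Complex.I k hT2 h hk1)
    rw [neg_one_mul, neg_one_mul] at key
    exact key

end GIM119
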