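import Pool.Agent.Lib.MP_119ee3_al.Basic
import Pool.Agent.Lib.MP_119ee3_al.Cocycle1
import Pool.Agent.Lib.MP_119ee3_al.Cocycle2
import Pool.Agent.Lib.MP_119ee3_al.Rel2
import Pool.Agent.Lib.MP_119ee3_al.GI
import Pool.Agent.Lib.MP_119ee3_al.FId
import Pool.Agent.Lib.MP_119ee3_al.LBalg

set_option autoImplicit false

/-!
# MP_119ee3_al: The sum identity for lB.
-/

open Classical

noncomputable section

namespace GIM119

open MG

variable {r n : ℕ} [NeZero r]

lemma LBsum_mem_Gp (hr : 2 ∣ r) (ω : MG r n) : ω ∈ Gp r 2 n ↔ sg (cs ω) = 1 := by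
  rw [sg_eq_one_iff hr, mem_Gp]
  simp

/-- Restriction of a sum to `Gp r 2 n`. -/
lemma LBsum_gp (hr : 2 ∣ r) (P : MG r n → Prop) (f : MG r n → ℂ) [DecidablePred P]
    [DecidablePred fun ω : MG r n => ω ∈ Gp r 2 n ∧ P ω] :
    2 * ∑ ω with (ω ∈ Gp r 2 n ∧ P ω), f ω = ∑ ω with P ω, (1 + sg (cs ω)) * f ω := by
  rw [Finset.sum_filter, Finset.sum_filter, Finset.mul_sum]
  refine Finset.sum_congr rfl fun ω _ => ?_
  have hG := LBsum_mem_Gp hr ω
  by_cases hP : P ω
  · rcases sg_cases (cs ω) with h | h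
    · have h2 : ω ∈ Gp r 2 n := hG.2 h
      rw [if_pos ⟨h2, hP⟩, if_pos hP, h]
      ring
    · have h1 : ¬ ((-1 : ℂ) = 1) := by norm_num
      have h2 : ¬ ω ∈ Gp r 2 n := fun h3 => h1 (by rw [← h]; exact hG.1 h3)
      rw [if_neg fun h3 => h2 h3.1, if_pos hP, h]
      ring
  · rw [if_neg fun h3 => hP h3.2, if_neg hP, mul_zero]

lemma LBsum_act_hf (hr : 2 ∣ r) (x ω : MG r n) : act (x * scal n (hf r)) ω = act x ω := by
  rw [act_mul_scal, two_mul, hf_add_hf hr, scal_zero, one_mul]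

lemma LBsum_half (hr : 2 ∣ r) (A : Finset (MG r n)) :
    2 * ((A.filter fun h => h ∈ Gp r 2 n).card : ℂ) = ∑ h ∈ A, (1 + sg (cs h)) := by
  rw [Finset.card_filter]
  push_cast
  rw [Finset.mul_sum]
  refine Finset.sum_congr rfl fun ω _ => ?_
  rw [LBsum_mem_Gp hr]
  rcases sg_cases (cs ω) with h | h
  · rw [h]
    norm_num
  · rw [h]
    norm_num

/-- The symmetric part, fixed elements. -/
lemma LBsum_L1 (hr : r % 4 = 2) (x : MG r n) :
    2 * ∑ ω with (ω ∈ Gp r 2 n ∧ (TSym 0 ω ∧ act x ω = ω)), W1 sg x ω =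
      ((Finset.univ.filter fun h : MG r n => h * tau r n h = x).card : ℂ) +
      ((Finset.univ.filter fun h : MG r n => h * tau r n h = x * scal n (hf r)).card : ℂ) := by
  have hr2 : 2 ∣ r := by omega
  rw [LBsum_gp hr2 (fun ω => TSym 0 ω ∧ act x ω = ω),
    ← F1 hr2 (sg_add hr2) (LBalg_sg_hf hr) x,
    ← F1 hr2 (sg_add hr2) (LBalg_sg_hf hr) (x * scal n (hf r))]
  simp only [LBsum_act_hf hr2]
  rw [← Finset.sum_add_distrib]
  refine Finset.sum_congr rfl fun ω hω => ?_
  have hT : TSym 0 ω := (Finset.mem_filter.1 hω).2.1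
  rw [W1_mul_scal (sg_add hr2), LBalg_sg_hf hr, ← sg_cs_of_TSym hr2 hT]
  ring

/-- The antisymmetric part, fixed elements. -/
lemma LBsum_L2 (hr : r % 4 = 2) (x : MG r n) :
    2 * ∑ ω with (ω ∈ Gp r 2 n ∧ (TSym (hf r) ω ∧ act x ω = ω)), W2 (-Complex.I) x ω =
      ∑ h with (h * tau r n h = x), sg (cs h) +
      ∑ h with (h * tau r n h = x * scal n (hf r)), sg (cs h) := by
  have hr2 : 2 ∣ r := by omega
  rw [LBsum_gp hr2 (fun ω => TSym (hf r) ω ∧ act x ω = ω), ← F2 hr2 (LBalg_kappa hr) x, ← F2 hr2 (LBalg_kappa hr) (x * scal n (hf r))]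
  simp only [LBsum_act_hf hr2]
  rw [← Finset.sum_add_distrib]
  refine Finset.sum_congr rfl fun ω hω => ?_
  have hT : TSym (hf r) ω := (Finset.mem_filter.1 hω).2.1
  rw [W2_mul_scal hr2 _ _ hT, ← sg_cs_of_TSym_hf hr2 hT]
  ring

omit [NeZero r] in
/-- The number of points in terms of the blocks. -/
lemma LBsum_card_split (ω : MG r n) (hω : ∀ i, ω.perm (ω.perm i) = i) :
    n = 2 * (Finset.univ.filter fun i => i < ω.perm i).card +
      (Finset.univ.filter fun i => ω.perm i = i).card := by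
  have h1 : (Finset.univ.filter fun i => ω.perm i < i).card =
      (Finset.univ.filter fun i => i < ω.perm i).card := by
    refine Finset.card_bij' (fun i _ => ω.perm i) (fun i _ => ω.perm i) ?_ ?_ ?_ ?_
    · intro i hi
      simp only [Finset.mem_filter, Finset.mem_univ, true_and] at hi ⊢
      rwa [hω i]
    · intro i hi
      simp only [Finset.mem_filter, Finset.mem_univ, true_and] at hi ⊢
      rwa [hω i]
    · intro i _
      exact hω i
    · intro i _
      exact hω i
  have h2 : (Finset.univ : Finset (Fin n)).card =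
      ∑ i : Fin n, ((if i < ω.perm i then 1 else 0) + (if ω.perm i < i then 1 else 0) +
        (if ω.perm i = i then 1 else 0)) := by
    rw [Finset.card_eq_sum_ones]
    refine Finset.sum_congr rfl fun i _ => ?_
    rcases lt_trichotomy i (ω.perm i) with h | h | h
    · have a1 : ¬ ω.perm i < i := not_lt_of_gt h
      have a2 : ω.perm i ≠ i := ne_of_gt h
      simp [h, a1, a2]
    · have a1 : ω.perm i = i := h.symm
      simp [a1]
    · have a1 : ¬ i < ω.perm i := not_lt_of_gt h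
      have a2 : ω.perm i ≠ i := ne_of_lt h
      simp [h, a1, a2]
  rw [Finset.sum_add_distrib, Finset.sum_add_distrib, ← Finset.card_filter, ← Finset.card_filter,
    ← Finset.card_filter, h1, Finset.card_univ, Fintype.card_fin] at h2
  omega

lemma LBsum_card (hr : r % 4 = 2) {x ω : MG r n} (hω : TSym 0 ω)
    (hx : act x ω = scal n (hf r) * ω) :
    n = 2 * ((Finset.univ.filter fun i => i < ω.perm i).card + k1 ω) := by
  have hr2 : 2 ∣ r := by omega
  have h1 := LBsum_card_split ω hω.1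
  have hfix : ∀ i, ω.perm (x.perm i) = x.perm (ω.perm i) := by
    intro i
    have h2 := act_perm_apply x ω i
    rw [hx, scal_mul_perm] at h2
    exact h2
  have hcol : ∀ i, ω.perm i = i → sg (ω.col (x.perm i)) = - sg (ω.col i) := by
    intro i hi
    have h2 := act_col x ω i
    rw [hx, scal_mul_col, hi] at h2
    have h3 := congrArg sg h2
    rw [sg_add hr2, sg_add hr2, sg_add hr2, LBalg_sg_hf hr] at h3
    have h4 := sg_mul_self (x.col i)
    linear_combination (-1 : ℂ) * h3 - sg (ω.col i) * h4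
  have h3 : (Finset.univ.filter fun i => ω.perm i = i ∧ sg (ω.col i) = 1).card =
      (Finset.univ.filter fun i => ω.perm i = i ∧ sg (ω.col i) = -1).card := by
    refine le_antisymm ?_ ?_
    · refine Finset.card_le_card_of_injOn (fun i => x.perm i) ?_ (x.perm.injective.injOn)
      intro i hi
      simp only [Finset.coe_filter, Finset.mem_univ, true_and, Set.mem_ofPred_eq] at hi ⊢
      rw [hfix, hi.1, hcol i hi.1, hi.2]
      exact ⟨rfl, rfl⟩
    · refine Finset.card_le_card_of_injOn (fun i => x.perm i) ?_ (x.perm.injective.injOn)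
      intro i hi
      simp only [Finset.coe_filter, Finset.mem_univ, true_and, Set.mem_ofPred_eq] at hi ⊢
      rw [hfix, hi.1, hcol i hi.1, hi.2]
      exact ⟨rfl, neg_neg 1⟩
  have h4 : (Finset.univ.filter fun i => ω.perm i = i).card =
      (Finset.univ.filter fun i => ω.perm i = i ∧ sg (ω.col i) = 1).card +
      (Finset.univ.filter fun i => ω.perm i = i ∧ sg (ω.col i) = -1).card := by
    rw [← Finset.card_union_of_disjoint]
    · congr 1
      ext i
      simp only [Finset.mem_filter, Finset.mem_univ, true_and, Finset.mem_union]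
      rw [← and_or_left]
      exact ⟨fun h => ⟨h, sg_cases _⟩, fun h => h.1⟩
    · rw [Finset.disjoint_left]
      intro i hi hi'
      simp only [Finset.mem_filter, Finset.mem_univ, true_and] at hi hi'
      rw [hi.2] at hi'
      have := hi'.2
      norm_num at this
  rw [h3] at h4
  rw [h4] at h1
  unfold k1
  omega

/-- The twisted parts cancel. -/
lemma LBsum_L3 (hr : r % 4 = 2) (hn : Even n) (x : MG r n) :
    ∑ ω with (ω ∈ Gp r 2 n ∧ (TSym 0 ω ∧ act x ω = scal n (hf r) * ω)),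
        W1 sg x ω * (TT Complex.I ω)⁻¹ =
      ∑ ω with (ω ∈ Gp r 2 n ∧ (TSym (hf r) ω ∧ act x ω = scal n (hf r) * ω)),
        W2 (-Complex.I) x ω * (TT Complex.I ω)⁻¹ := by
  have hr2 : 2 ∣ r := by omega
  have hA := F4a hr x
  have hB := F4b hr x
  have e1 : 2 * ∑ ω with (ω ∈ Gp r 2 n ∧ (TSym 0 ω ∧ act x ω = scal n (hf r) * ω)),
        W1 sg x ω * (TT Complex.I ω)⁻¹ = (1 + (-1) ^ (n / 2)) *
      ∑ ω with (TSym 0 ω ∧ act x ω = scal n (hf r) * ω), W1 sg x ω * (TT Complex.I ω)⁻¹ := by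
    rw [LBsum_gp hr2 (fun ω => TSym 0 ω ∧ act x ω = scal n (hf r) * ω), add_mul, one_mul]
    conv_rhs => rw [hA]
    rw [← hA]
    have e2 : (-1 : ℂ) ^ (n / 2) * ∑ ω with (TSym 0 ω ∧ act x ω = scal n (hf r) * ω),
        W1 sg x ω * (TT Complex.I ω)⁻¹ = ∑ ω with (TSym 0 ω ∧ act x ω = scal n (hf r) * ω),
        sg (cs ω) * (W1 sg x ω * (TT Complex.I ω)⁻¹) := by
      rw [hA, Finset.mul_sum]
      refine Finset.sum_congr rfl fun ω hω => ?_
      have hT := (Finset.mem_filter.1 hω).2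
      have hc := LBsum_card hr hT.1 hT.2
      have hn2 : n / 2 = (Finset.univ.filter fun i => i < ω.perm i).card + k1 ω := by omega
      rw [TT_neg, sg_cs_of_TSym hr2 hT.1, hn2, pow_add, mul_inv]
      have h5 : ((-1 : ℂ) ^ (Finset.univ.filter fun i => i < ω.perm i).card)⁻¹ =
          (-1) ^ (Finset.univ.filter fun i => i < ω.perm i).card := by
        rw [← inv_pow]
        norm_num
      have h6 : ((-1 : ℂ) ^ (Finset.univ.filter fun i => i < ω.perm i).card) *
          (-1) ^ (Finset.univ.filter fun i => i < ω.perm i).card = 1 := by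
        rw [← mul_pow]
        norm_num
      rw [h5]
      linear_combination ((-1 : ℂ) ^ k1 ω * W1 sg x ω * (TT Complex.I ω)⁻¹) * h6
    rw [e2, ← Finset.sum_add_distrib]
    refine Finset.sum_congr rfl fun ω _ => ?_
    ring
  have e3 : 2 * ∑ ω with (ω ∈ Gp r 2 n ∧ (TSym (hf r) ω ∧ act x ω = scal n (hf r) * ω)),
        W2 (-Complex.I) x ω * (TT Complex.I ω)⁻¹ = (1 + (-1) ^ (n / 2)) *
      ∑ ω with (TSym (hf r) ω ∧ act x ω = scal n (hf r) * ω),
        W2 (-Complex.I) x ω * (TT Complex.I ω)⁻¹ := by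
    rw [LBsum_gp hr2 (fun ω => TSym (hf r) ω ∧ act x ω = scal n (hf r) * ω), Finset.mul_sum]
    refine Finset.sum_congr rfl fun ω hω => ?_
    have hT := (Finset.mem_filter.1 hω).2
    rw [sg_cs_of_TSym_hf hr2 hT.1, LBalg_sg_hf hr]
  have e4 : (2 : ℂ) ≠ 0 := by norm_num
  apply mul_left_cancel₀ e4
  rw [e1, e3, hB]

/-- The multiples of `r / q`. -/
def LBsum_Q (r q : ℕ) [NeZero r] : Finset (ZMod r) :=
  Finset.univ.filter fun e => ∃ k : ZMod r, e = ((r / q : ℕ) : ZMod r) * k

lemma LBsum_mem_Q {q : ℕ} {e : ZMod r} :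
    e ∈ LBsum_Q r q ↔ ∃ k : ZMod r, e = ((r / q : ℕ) : ZMod r) * k := by
  simp [LBsum_Q]

lemma LBsum_scal_mem [NeZero n] {q : ℕ} {e : ZMod r} : scal n e ∈ Cq r q n ↔ e ∈ LBsum_Q r q := by
  rw [LBsum_mem_Q, mem_Cq]
  constructor
  · rintro ⟨k, hk⟩
    exact ⟨k, scal_inj hk⟩
  · rintro ⟨k, hk⟩
    exact ⟨k, by rw [hk]⟩

lemma LBsum_Q_add {q : ℕ} {e e' : ZMod r} (h : e ∈ LBsum_Q r q) (h' : e' ∈ LBsum_Q r q) :
    e + e' ∈ LBsum_Q r q := by
  rw [LBsum_mem_Q] at *
  obtain ⟨k, rfl⟩ := h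
  obtain ⟨k', rfl⟩ := h'
  exact ⟨k + k', by ring⟩

lemma LBsum_Q_neg {q : ℕ} {e : ZMod r} (h : e ∈ LBsum_Q r q) : -e ∈ LBsum_Q r q := by
  rw [LBsum_mem_Q] at *
  obtain ⟨k, rfl⟩ := h
  exact ⟨-k, by ring⟩

lemma LBsum_Q_hf {q : ℕ} (hq : Even q) (hqr : q ∣ r) : hf r ∈ LBsum_Q r q := by
  rw [LBsum_mem_Q]
  refine ⟨((q / 2 : ℕ) : ZMod r), ?_⟩
  rw [hf, ← Nat.cast_mul]
  congr 1
  obtain ⟨t, rfl⟩ := hqr
  obtain ⟨m, rfl⟩ := hq
  rcases Nat.eq_zero_or_pos m with h0 | h0
  · subst h0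
    simp
  · have e1 : (m + m) * t / (m + m) = t := Nat.mul_div_cancel_left _ (by omega)
    have e2 : (m + m) / 2 = m := by omega
    have e3 : (m + m) * t / 2 = t * m := by
      have : (m + m) * t = 2 * (t * m) := by ring
      omega
    rw [e1, e2, e3]

lemma LBsum_Q_half {q : ℕ} (hr : r % 4 = 2) (hq : Even q) (hqr : q ∣ r) {e : ZMod r}
    (he : e ∈ LBsum_Q r q) (hs : sg e = 1) : ∃ e' ∈ LBsum_Q r q, 2 * e' = e := by
  have hr2 : 2 ∣ r := by omega
  rw [LBsum_mem_Q] at he
  obtain ⟨k, rfl⟩ := he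
  have hodd : Odd (r / q) := by
    obtain ⟨t, ht⟩ := hqr
    obtain ⟨m, hm⟩ := hq
    have hq0 : 0 < q := by
      rcases Nat.eq_zero_or_pos q with h | h
      · subst h
        simp only [zero_mul] at ht
        omega
      · exact h
    have h1 : r / q = t := by
      rw [ht]
      exact Nat.mul_div_cancel_left _ hq0
    rw [h1]
    by_contra h
    rw [Nat.not_odd_iff_even] at h
    obtain ⟨s, hs⟩ := h
    have h2 : r = 4 * (m * s) := by
      rw [ht, hm, hs]
      ring
    omega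
  have h1 : ((r / q : ℕ) : ZMod r) * k = ((r / q * k.val : ℕ) : ZMod r) := by
    rw [Nat.cast_mul, ZMod.natCast_zmod_val]
  rw [h1, sg_natCast hr2] at hs
  have h2 : Even (r / q * k.val) := by
    by_contra h
    rw [Nat.not_even_iff_odd] at h
    rw [h.neg_one_pow] at hs
    norm_num at hs
  have h3 : Even k.val := by
    rcases Nat.even_mul.1 h2 with h | h
    · exact absurd h (Nat.not_even_iff_odd.2 hodd)
    · exact h
  obtain ⟨m, hm⟩ := h3
  refine ⟨((r / q : ℕ) : ZMod r) * (m : ZMod r), LBsum_mem_Q.2 ⟨_, rfl⟩, ?_⟩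
  have h4 : k = (m : ZMod r) + m := by
    rw [← ZMod.natCast_zmod_val k, hm]
    push_cast
    ring
  rw [h4]
  ring

lemma LBsum_Q_card {q : ℕ} (hr : r % 4 = 2) (hq : Even q) (hqr : q ∣ r) {e : ZMod r}
    (he : e ∈ LBsum_Q r q) :
    ((LBsum_Q r q).filter fun e' => 2 * e' = e).card = if sg e = 1 then 2 else 0 := by
  have hr2 : 2 ∣ r := by omega
  split_ifs with hs
  · obtain ⟨e0, h0, h1⟩ := LBsum_Q_half hr hq hqr he hs
    have h2 : (LBsum_Q r q).filter (fun e' => 2 * e' = e) = {e0, e0 + hf r} := by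
      ext e'
      simp only [Finset.mem_filter, Finset.mem_insert, Finset.mem_singleton]
      constructor
      · rintro ⟨h3, h4⟩
        have h5 : 2 * (e' - e0) = 0 := by
          rw [mul_sub, h4, h1, sub_self]
        rcases (two_mul_eq_zero_iff hr2 _).1 h5 with h | h
        · exact Or.inl (sub_eq_zero.1 h)
        · exact Or.inr (by rw [← h]; ring)
      · rintro (h | h)
        · rw [h]
          exact ⟨h0, h1⟩
        · rw [h]
          refine ⟨LBsum_Q_add h0 (LBsum_Q_hf hq hqr), ?_⟩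
          rw [mul_add, h1, two_mul, hf_add_hf hr2, add_zero]
    rw [h2, Finset.card_pair]
    intro h
    exact hf_ne_zero hr2 (left_eq_add.1 h)
  · rw [Finset.card_eq_zero, Finset.filter_eq_empty_iff]
    intro e' _ h
    exact hs (by rw [← h, sg_two_mul hr2])

/-- The summand for `x`. -/
def LBsum_F (x ω : MG r n) : ℂ :=
  (if act x ω = ω then (if TSym 0 ω then W1 sg x ω else W2 (-Complex.I) x ω) else 0) +
  (if act x ω = scal n (hf r) * ω then (if TSym 0 ω then W1 sg x ω * (TT Complex.I ω)⁻¹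
    else -(W2 (-Complex.I) x ω * (TT Complex.I ω)⁻¹)) else 0)

lemma LBsum_not_both (hr : 2 ∣ r) [NeZero n] {ω : MG r n} (h0 : TSym 0 ω) (h1 : TSym (hf r) ω) :
    False := by
  have h2 := h0.2 0
  rw [h1.2 0] at h2
  exact hf_ne_zero hr (add_left_cancel h2)

lemma LBsum_main [NeZero n] {q : ℕ} (hr : r % 4 = 2) (hn : Even n) (hq : Even q) (hqr : q ∣ r)
    (x : MG r n) :
    ∑ ω with (ω ∈ Gp r 2 n ∧ ω * tau r n ω ∈ Cq r q n), LBsum_F x ω =
      ((Finset.univ.filter fun h : MG r n => h ∈ Gp r 2 n ∧ h * tau r n h = x).card : ℂ) +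
      ((Finset.univ.filter fun h : MG r n =>
        h ∈ Gp r 2 n ∧ h * tau r n h = x * scal n (hf r)).card : ℂ) := by
  have hr2 : 2 ∣ r := by omega
  have h1 := LBsum_L1 hr x
  have h2 := LBsum_L2 hr x
  have h3 := LBsum_L3 hr hn x
  have hsplit : ∑ ω with (ω ∈ Gp r 2 n ∧ ω * tau r n ω ∈ Cq r q n), LBsum_F x ω =
      (∑ ω with (ω ∈ Gp r 2 n ∧ (TSym 0 ω ∧ act x ω = ω)), W1 sg x ω +
        ∑ ω with (ω ∈ Gp r 2 n ∧ (TSym (hf r) ω ∧ act x ω = ω)), W2 (-Complex.I) x ω) +
      (∑ ω with (ω ∈ Gp r 2 n ∧ (TSym 0 ω ∧ act x ω = scal n (hf r) * ω)),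
        W1 sg x ω * (TT Complex.I ω)⁻¹ -
      ∑ ω with (ω ∈ Gp r 2 n ∧ (TSym (hf r) ω ∧ act x ω = scal n (hf r) * ω)),
        W2 (-Complex.I) x ω * (TT Complex.I ω)⁻¹) := by
    simp only [Finset.sum_filter]
    rw [← Finset.sum_add_distrib, ← Finset.sum_sub_distrib, ← Finset.sum_add_distrib]
    refine Finset.sum_congr rfl fun ω _ => ?_
    rw [GI_iff hq hqr ω, LBsum_F]
    by_cases hG : ω ∈ Gp r 2 n
    · by_cases hT : TSym 0 ω
      · have hT' : ¬ TSym (hf r) ω := fun h => LBsum_not_both hr2 hT h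
        simp only [hG, hT, hT', true_and, false_and, true_or, if_true, if_false]
        ring
      · by_cases hT' : TSym (hf r) ω
        · simp only [hG, hT, hT', true_and, false_and, false_or, if_true, if_false]
          split_ifs <;> ring
        · simp [hT, hT']
    · simp [hG]
  rw [hsplit, h3, sub_self, add_zero]
  have h4 : 2 * ((Finset.univ.filter fun h : MG r n =>
      h ∈ Gp r 2 n ∧ h * tau r n h = x).card : ℂ) =
      ((Finset.univ.filter fun h : MG r n => h * tau r n h = x).card : ℂ) +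
      ∑ h with (h * tau r n h = x), sg (cs h) := by
    have h5 := LBsum_half hr2 (Finset.univ.filter fun h : MG r n => h * tau r n h = x)
    rw [Finset.filter_filter] at h5
    simp only [and_comm] at h5 ⊢
    rw [h5, Finset.sum_add_distrib]
    simp
  have h6 : 2 * ((Finset.univ.filter fun h : MG r n =>
      h ∈ Gp r 2 n ∧ h * tau r n h = x * scal n (hf r)).card : ℂ) =
      ((Finset.univ.filter fun h : MG r n => h * tau r n h = x * scal n (hf r)).card : ℂ) +
      ∑ h with (h * tau r n h = x * scal n (hf r)), sg (cs h) := by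
    have h5 := LBsum_half hr2 (Finset.univ.filter fun h : MG r n =>
      h * tau r n h = x * scal n (hf r))
    rw [Finset.filter_filter] at h5
    simp only [and_comm] at h5 ⊢
    rw [h5, Finset.sum_add_distrib]
    simp
  have e4 : (2 : ℂ) ≠ 0 := by norm_num
  apply mul_left_cancel₀ e4
  rw [mul_add, mul_add, h1, h2, h4, h6]
  ring

lemma LBsum_point [NeZero n] {q : ℕ} (hr : r % 4 = 2) (hn : Even n) (hq : Even q) (hqr : q ∣ r)
    (g : MG r n) {ω : MG r n} (hG : ω ∈ Gp r 2 n) (hI : ω * tau r n ω ∈ Cq r q n) :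
    ∑ e ∈ LBsum_Q r q, LBsum_F (g * scal n (-e)) ω =
      if g * ω * (tau r n g)⁻¹ * ω⁻¹ ∈ Cq r q n then 2 * lB g ω else 0 := by
  have hr2 : 2 ∣ r := by omega
  have hq0 := LBalg_q0 hqr
  have hact : ∀ e : ZMod r, act (g * scal n (-e)) ω = scal n (-(2 * e)) * act g ω := by
    intro e
    rw [act_mul_scal]
    congr 2
    ring
  split_ifs with hc
  · obtain ⟨e0, he0, ha⟩ : ∃ e0 ∈ LBsum_Q r q, act g ω = scal n e0 * ω := by
      obtain ⟨k, hk⟩ := hc
      exact ⟨_, LBsum_mem_Q.2 ⟨k, rfl⟩, (twist_eq_iff _ _ _).1 hk⟩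
    have hst : ∀ e c : ZMod r, act (g * scal n (-e)) ω = scal n c * ω ↔ 2 * e = e0 - c := by
      intro e c
      rw [hact, ha, ← mul_assoc, ← scal_add]
      constructor
      · intro h
        have := scal_mul_inj h
        rw [← this]
        ring
      · intro h
        rw [h]
        congr 2
        ring
    have hst0 : ∀ e : ZMod r, act (g * scal n (-e)) ω = ω ↔ 2 * e = e0 := by
      intro e
      have h := hst e 0
      rwa [scal_zero, one_mul, sub_zero] at h
    have hsg : sg (e0 - hf r) = - sg e0 := by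
      rw [sub_eq_add_neg, neg_hf hr2, sg_add hr2, LBalg_sg_hf hr]
      ring
    have hmem : e0 - hf r ∈ LBsum_Q r q := by
      rw [sub_eq_add_neg]
      exact LBsum_Q_add he0 (LBsum_Q_neg (LBsum_Q_hf hq hqr))
    have hc0 := LBsum_Q_card hr hq hqr he0
    have hc1 := LBsum_Q_card hr hq hqr hmem
    -- the value of the summand does not depend on `e`
    have hval : ∀ e : ZMod r, LBsum_F (g * scal n (-e)) ω =
        (if 2 * e = e0 then (if TSym 0 ω then W1 sg g ω else W2 (-Complex.I) g ω) else 0) +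
        (if 2 * e = e0 - hf r then (if TSym 0 ω then W1 sg g ω * (TT Complex.I ω)⁻¹
          else -(W2 (-Complex.I) g ω * (TT Complex.I ω)⁻¹)) else 0) := by
      intro e
      unfold LBsum_F
      simp only [hst0, hst]
      by_cases hT : TSym 0 ω
      · have hW : W1 sg (g * scal n (-e)) ω = W1 sg g ω := by
          obtain ⟨t, ht⟩ := LBalg_even_k1 hr2 hG hT
          rw [W1_mul_scal (sg_add hr2), ht, ← two_mul, pow_mul, sq, sg_mul_self, one_pow, mul_one]
        rw [hW, if_pos hT, if_pos hT, if_pos hT, if_pos hT]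
      · have hT2 : TSym (hf r) ω := ((GI_iff hq hqr ω).1 hI).resolve_left hT
        have hW : W2 (-Complex.I) (g * scal n (-e)) ω = W2 (-Complex.I) g ω := by
          obtain ⟨t, ht⟩ := LBalg_even_n hr hG hT2
          rw [W2_mul_scal hr2 _ _ hT2, ht, ← two_mul, pow_mul, sq, sg_mul_self, one_pow, mul_one]
        rw [hW, if_neg hT, if_neg hT, if_neg hT, if_neg hT]
    simp only [hval]
    rw [Finset.sum_add_distrib, ← Finset.sum_filter, ← Finset.sum_filter, Finset.sum_const,
      Finset.sum_const, hc0, hc1, hsg]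
    unfold lB
    rw [eo_eq ha]
    rcases sg_cases e0 with h | h
    · have h1 : ¬ ((-1 : ℂ) = 1) := by norm_num
      simp only [h, h1, if_true, if_false, mul_one]
      by_cases hT : TSym 0 ω
      · simp [hT]
      · simp [hT]
    · have h1 : ¬ ((-1 : ℂ) = 1) := by norm_num
      simp only [h, h1, if_true, if_false, neg_neg]
      by_cases hT : TSym 0 ω
      · simp [hT]
      · simp [hT]
  · refine Finset.sum_eq_zero fun e he => ?_
    have hno : ∀ c ∈ LBsum_Q r q, act (g * scal n (-e)) ω ≠ scal n c * ω := by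
      intro c hc' h
      apply hc
      rw [hact] at h
      have h2 : act g ω = scal n (2 * e + c) * ω := by
        rw [scal_add, mul_assoc, ← h, ← mul_assoc, ← scal_add, add_neg_cancel, scal_zero, one_mul]
      rw [(twist_eq_iff _ _ _).2 h2, LBsum_scal_mem]
      rw [two_mul]
      exact LBsum_Q_add (LBsum_Q_add he he) hc'
    have h0 : act (g * scal n (-e)) ω ≠ ω := by
      have h := hno 0 (LBsum_mem_Q.2 ⟨0, by ring⟩)
      rwa [scal_zero, one_mul] at h
    rw [LBsum_F, if_neg h0, if_neg (hno _ (LBsum_Q_hf hq hqr)), add_zero]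

theorem lB_sum [NeZero n] {q : ℕ} (hr : r % 4 = 2) (hn : Even n) (hq : Even q) (hqr : q ∣ r)
    (g : MG r n) (hg : g ∈ Gp r 2 n) :
    ∑ ω with (ω ∈ Gp r 2 n ∧ ω * tau r n ω ∈ Cq r q n ∧
      g * ω * (tau r n g)⁻¹ * ω⁻¹ ∈ Cq r q n), lB g ω
    = ((Finset.univ.filter fun h : MG r n =>
        h ∈ Gp r 2 n ∧ h * tau r n h * g⁻¹ ∈ Cq r q n).card : ℂ) := by
  have hr2 : 2 ∣ r := by omega
  have e4 : (2 : ℂ) ≠ 0 := by norm_num
  apply mul_left_cancel₀ e4
  have hL : 2 * ∑ ω with (ω ∈ Gp r 2 n ∧ ω * tau r n ω ∈ Cq r q n ∧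
      g * ω * (tau r n g)⁻¹ * ω⁻¹ ∈ Cq r q n), lB g ω =
      ∑ e ∈ LBsum_Q r q, ∑ ω with (ω ∈ Gp r 2 n ∧ ω * tau r n ω ∈ Cq r q n),
        LBsum_F (g * scal n (-e)) ω := by
    rw [Finset.sum_comm, Finset.mul_sum, Finset.sum_filter, Finset.sum_filter]
    refine Finset.sum_congr rfl fun ω _ => ?_
    by_cases hG : ω ∈ Gp r 2 n
    · by_cases hI : ω * tau r n ω ∈ Cq r q n
      · have hp := LBsum_point hr hn hq hqr g hG hI
        simp only [hG, hI, true_and, and_self, if_true]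
        rw [hp]
      · simp [hI]
    · simp [hG]
  have hY : ∀ c : ZMod r, c ∈ LBsum_Q r q →
      ∑ e ∈ LBsum_Q r q, ((Finset.univ.filter fun h : MG r n =>
        h ∈ Gp r 2 n ∧ h * tau r n h = g * scal n (-e) * scal n c).card : ℂ) =
      ((Finset.univ.filter fun h : MG r n =>
        h ∈ Gp r 2 n ∧ h * tau r n h * g⁻¹ ∈ Cq r q n).card : ℂ) := by
    intro c hc
    simp only [Finset.card_filter]
    push_cast
    rw [Finset.sum_comm]
    refine Finset.sum_congr rfl fun h _ => ?_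
    by_cases hG : h ∈ Gp r 2 n
    · simp only [hG, true_and]
      by_cases hI : h * tau r n h * g⁻¹ ∈ Cq r q n
      · rw [if_pos hI]
        obtain ⟨k, hk⟩ := hI
        have hk' : h * tau r n h = scal n (((r / q : ℕ) : ZMod r) * k) * g :=
          mul_inv_eq_iff_eq_mul.1 hk
        have hmem : ((r / q : ℕ) : ZMod r) * k ∈ LBsum_Q r q := LBsum_mem_Q.2 ⟨k, rfl⟩
        generalize ((r / q : ℕ) : ZMod r) * k = e0 at hk' hmem
        have hiff : ∀ e, (h * tau r n h = g * scal n (-e) * scal n c) ↔ e = c - e0 := by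
          intro e
          rw [hk', scal_comm, mul_assoc, mul_right_inj, ← scal_add]
          constructor
          · intro h'
            have := scal_inj h'
            rw [this]
            ring
          · intro h'
            rw [h']
            congr 1
            ring
        simp only [hiff]
        rw [Finset.sum_ite_eq', if_pos]
        rw [sub_eq_add_neg]
        exact LBsum_Q_add hc (LBsum_Q_neg hmem)
      · rw [if_neg hI]
        refine Finset.sum_eq_zero fun e he => if_neg fun h' => hI ?_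
        rw [h', mul_assoc g, ← scal_add, ← scal_comm, mul_inv_cancel_right, LBsum_scal_mem]
        exact LBsum_Q_add (LBsum_Q_neg he) hc
    · simp [hG]
  rw [hL]
  simp only [LBsum_main hr hn hq hqr]
  rw [Finset.sum_add_distrib, hY (hf r) (LBsum_Q_hf hq hqr)]
  have hY0 := hY 0 (LBsum_mem_Q.2 ⟨0, by ring⟩)
  simp only [scal_zero, mul_one] at hY0
  rw [hY0, two_mul]

theorem ALG_B [NeZero n] {q : ℕ} (hr : r % 4 = 2) (hn : Even n) (hq : Even q) (hqr : q ∣ r) :
    ALG r 2 q n lB :=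
  ⟨lB_mul hr hn hq hqr, lB_cen hr hn hq hqr, lB_shift hr hn hq hqr, lB_conj hr hn hq hqr,
    lB_sum hr hn hq hqr⟩

end GIM119
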