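import Pool.Agent.Lib.MP_119ee3_al.Basic2
import Pool.Agent.Lib.MP_119ee3_al.Cocycle1
import Pool.Agent.Lib.MP_119ee3_al.GIOne
import Pool.Agent.Lib.MP_119ee3_al.LCalg

set_option autoImplicit false

/-!
# MP_119ee3_al: Algebraic properties of lD.
-/

open Classical

noncomputable section

namespace GIM119

open MG

variable {r n : ℕ} [NeZero r]

lemma LDalg_ne : ¬ (-1 : ℂ) = 1 := by norm_num

lemma LDalg_q0 {q : ℕ} (hqr : q ∣ r) : 0 < q :=
  Nat.pos_of_dvd_of_pos hqr (Nat.pos_of_ne_zero (NeZero.ne r))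

/-- `sg (n e) = sg e` for `n` odd. -/
lemma LDalg_sg_n (hr : 2 ∣ r) (hn : Odd n) (e : ZMod r) : sg ((n : ZMod r) * e) = sg e := by
  obtain ⟨m, hm⟩ := hn
  have h : (n : ZMod r) * e = 2 * (m * e) + e := by
    rw [hm]
    push_cast
    ring
  rw [h, sg_add hr, sg_two_mul hr, one_mul]

/-- the scalar on the stabilizer is even -/
lemma LDalg_sg_stab (hr : 2 ∣ r) (hn : Odd n) {g ω : MG r n} {e : ZMod r}
    (h : act g ω = scal n e * ω) : sg e = 1 := by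
  have h1 := congrArg cs h
  rw [cs_act, cs_scal_mul] at h1
  have h2 : (n : ZMod r) * e = 2 * cs g := by linear_combination -h1
  rw [← LDalg_sg_n hr hn, h2, sg_two_mul hr]

lemma LDalg_st (hr : 2 ∣ r) (hn : Odd n) {ω : MG r n} (hT : TSym 0 ω) :
    TSym 0 (st ω) ∧ Even (k1 (st ω)) := by
  have h1 : TSym 0 (st ω) ∧ sg (cs (st ω)) = 1 := by
    unfold st
    split_ifs with h
    · exact ⟨hT, h⟩
    · refine ⟨hT.scal_mul 1, ?_⟩
      rw [cs_scal_mul, sg_add hr, LDalg_sg_n hr hn, sg_one hr, (sg_cases (cs ω)).resolve_left h]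
      norm_num
  refine ⟨h1.1, ?_⟩
  have h2 := sg_cs_of_TSym hr h1.1
  rw [h1.2] at h2
  by_contra hk
  rw [Nat.not_even_iff_odd] at hk
  rw [hk.neg_one_pow] at h2
  norm_num at h2

lemma LDalg_act_st {g ω : MG r n} {e : ZMod r} (h : act g ω = scal n e * ω) :
    act g (st ω) = scal n e * st ω := by
  unfold st
  split_ifs
  · exact h
  · rw [act_scal_mul, h, ← mul_assoc, ← mul_assoc, scal_comm]

lemma LDalg_st_scal (hr : 2 ∣ r) (hn : Odd n) (f : ZMod r) (ω : MG r n) :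
    ∃ e : ZMod r, sg e = 1 ∧ st (scal n f * ω) = scal n e * st ω := by
  have h1 : sg (cs (scal n f * ω)) = sg (cs ω) * sg f := by
    rw [cs_scal_mul, sg_add hr, LDalg_sg_n hr hn]
  rcases sg_cases f with hf | hf <;> rcases sg_cases (cs ω) with hc | hc
  · refine ⟨f, hf, ?_⟩
    rw [st, st, h1, hf, hc, mul_one, if_pos rfl, if_pos rfl]
  · refine ⟨f, hf, ?_⟩
    rw [st, st, h1, hf, hc, mul_one, if_neg LDalg_ne, if_neg LDalg_ne, ← mul_assoc, ← mul_assoc,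
      scal_comm]
  · refine ⟨1 + f, ?_, ?_⟩
    · rw [sg_add hr, sg_one hr, hf]
      norm_num
    · rw [st, st, h1, hf, hc, one_mul, if_neg LDalg_ne, if_pos rfl, scal_add, mul_assoc]
  · refine ⟨f - 1, ?_, ?_⟩
    · rw [sub_eq_add_neg, sg_add hr, sg_neg hr, sg_one hr, hf]
      norm_num
    · have h2 : (-1 : ℂ) * -1 = 1 := by norm_num
      rw [st, st, h1, hf, hc, h2, if_pos rfl, if_neg LDalg_ne, ← mul_assoc, ← scal_add,
        sub_add_cancel]

lemma LDalg_st_act (hr : 2 ∣ r) (k ω : MG r n) : st (act k ω) = act k (st ω) := by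
  have h1 : sg (cs (act k ω)) = sg (cs ω) := by
    rw [cs_act, sg_add hr, sg_two_mul hr, mul_one]
  unfold st
  rw [h1]
  split_ifs
  · rfl
  · rw [act_scal_mul]

theorem lD_mul [NeZero n] {q : ℕ} (hr : 2 ∣ r) (hn : Odd n) (hq : Even q) (hqr : q ∣ r)
    (ω g h : MG r n) (hω : ω ∈ Gp r 1 n) (hg : g ∈ Gp r 1 n) (hh : h ∈ Gp r 1 n)
    (h1 : ω * tau r n ω ∈ Cq r q n) (h2 : g * ω * (tau r n g)⁻¹ * ω⁻¹ ∈ Cq r q n)
    (h3 : h * ω * (tau r n h)⁻¹ * ω⁻¹ ∈ Cq r q n) :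
    lD q (g * h) ω = lD q g ω * lD q h ω := by
  have hq0 : 0 < q := LDalg_q0 hqr
  obtain ⟨a, ha⟩ := LCalg_stab hq0 hqr h2
  obtain ⟨b, hb⟩ := LCalg_stab hq0 hqr h3
  have hgh : act (g * h) ω = scal n (((r / q * (a + b) : ℕ) : ZMod r)) * ω := by
    rw [act_mul, hb, act_scal_mul, ha, ← mul_assoc, ← scal_add]
    congr 2
    push_cast
    ring
  have hT : TSym 0 ω := (GI1_iff hqr (Or.inr hn) ω).1 h1
  have hsT := (LDalg_st hr hn hT).1
  have hsb := LDalg_sg_stab hr hn hb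
  unfold lD
  rw [eo_eq ha, eo_eq hb, eo_eq hgh, LCalg_pow_val hq0 hq hqr (sg_mul_self _),
    LCalg_pow_val hq0 hq hqr (sg_mul_self _), LCalg_pow_val hq0 hq hqr (sg_mul_self _),
    W1_mul hr ze_add g h hsT, LDalg_act_st hb, W1_scal_left hr ze g (st ω) hsb, pow_add]
  have hz : ze (-((k1 (st ω) / 2 : ℕ) : ZMod r) * ((r / q * (a + b) : ℕ) : ZMod r)) =
      ze (-((k1 (st ω) / 2 : ℕ) : ZMod r) * ((r / q * a : ℕ) : ZMod r)) *
      ze (-((k1 (st ω) / 2 : ℕ) : ZMod r) * ((r / q * b : ℕ) : ZMod r)) := by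
    rw [← ze_add]
    congr 1
    push_cast
    ring
  rw [hz]
  ring

theorem lD_cen [NeZero n] {q : ℕ} (hr : 2 ∣ r) (hn : Odd n) (hq : Even q) (hqr : q ∣ r)
    (ω z : MG r n) (hω : ω ∈ Gp r 1 n)
    (h1 : ω * tau r n ω ∈ Cq r q n) (hz : z ∈ Cq r q n) : lD q z ω = 1 := by
  have hq0 : 0 < q := LDalg_q0 hqr
  rw [mem_Cq_iff_exists hq0 hqr] at hz
  obtain ⟨j, -, rfl⟩ := hz
  have hst : act (scal n (((r / q * j : ℕ) : ZMod r))) ω
      = scal n (((r / q * (2 * j) : ℕ) : ZMod r)) * ω := by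
    rw [act_scal]
    congr 2
    push_cast
    ring
  have hT : TSym 0 ω := (GI1_iff hqr (Or.inr hn) ω).1 h1
  obtain ⟨hsT, hev⟩ := LDalg_st hr hn hT
  unfold lD
  rw [eo_eq hst, LCalg_pow_val hq0 hq hqr (sg_mul_self _), pow_mul, sq, sg_mul_self, one_pow,
    mul_one]
  have hW := W1_mul_scal (r := r) (n := n) ze_add 1 (st ω) (((r / q * j : ℕ) : ZMod r))
  rw [one_mul, W1_one _ ze_zero, one_mul] at hW
  rw [hW, ← ze_natCast_mul, ← ze_add]
  obtain ⟨t, ht⟩ := hev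
  have ht2 : k1 (st ω) / 2 = t := by omega
  rw [ht2, ht]
  have h0 : ((t + t : ℕ) : ZMod r) * ((r / q * j : ℕ) : ZMod r) +
      -((t : ℕ) : ZMod r) * ((r / q * (2 * j) : ℕ) : ZMod r) = 0 := by
    push_cast
    ring
  rw [h0, ze_zero]

theorem lD_shift [NeZero n] {q : ℕ} (hr : 2 ∣ r) (hn : Odd n) (hq : Even q) (hqr : q ∣ r)
    (ω g z : MG r n) (hω : ω ∈ Gp r 1 n) (hg : g ∈ Gp r 1 n)
    (h1 : ω * tau r n ω ∈ Cq r q n) (h2 : g * ω * (tau r n g)⁻¹ * ω⁻¹ ∈ Cq r q n)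
    (hz : z ∈ Cq r q n) : lD q g (z * ω) = lD q g ω := by
  have hq0 : 0 < q := LDalg_q0 hqr
  rw [mem_Cq_iff_exists hq0 hqr] at hz
  obtain ⟨j, -, rfl⟩ := hz
  obtain ⟨a, ha⟩ := LCalg_stab hq0 hqr h2
  have hsa := LDalg_sg_stab hr hn ha
  have hst : act g (scal n (((r / q * j : ℕ) : ZMod r)) * ω) =
      scal n (((r / q * a : ℕ) : ZMod r)) * (scal n (((r / q * j : ℕ) : ZMod r)) * ω) := by
    rw [act_scal_mul, ha, ← mul_assoc, ← mul_assoc, scal_comm]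
  obtain ⟨e, he, hse⟩ := LDalg_st_scal hr hn (((r / q * j : ℕ) : ZMod r)) ω
  have hpow : sg (cs (scal n (((r / q * j : ℕ) : ZMod r)) * ω)) ^ a = sg (cs ω) ^ a := by
    rw [cs_scal_mul, sg_add hr, LDalg_sg_n hr hn, mul_pow]
    rw [sg_natCast hr, ← pow_mul]
    rw [sg_natCast hr] at hsa
    have h3 : (-1 : ℂ) ^ (r / q * j * a) = 1 := by
      have : r / q * j * a = r / q * a * j := by ring
      rw [this, pow_mul, hsa, one_pow]
    rw [h3, mul_one]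
  unfold lD
  rw [eo_eq ha, eo_eq hst, hse, k1_scal_mul hr (st ω) he, W1_scal_left hr ze g (st ω) he,
    LCalg_pow_val hq0 hq hqr (sg_mul_self _), LCalg_pow_val hq0 hq hqr (sg_mul_self _), hpow]

theorem lD_conj [NeZero n] {q : ℕ} (hr : 2 ∣ r) (hn : Odd n) (hq : Even q) (hqr : q ∣ r)
    (ω g k : MG r n) (hω : ω ∈ Gp r 1 n) (hg : g ∈ Gp r 1 n) (hk : k ∈ Gp r 1 n)
    (h1 : ω * tau r n ω ∈ Cq r q n) (h2 : g * ω * (tau r n g)⁻¹ * ω⁻¹ ∈ Cq r q n) :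
    lD q (k * g * k⁻¹) (k * ω * (tau r n k)⁻¹) = lD q g ω := by
  have hq0 : 0 < q := LDalg_q0 hqr
  obtain ⟨a, ha⟩ := LCalg_stab hq0 hqr h2
  have hsa := LDalg_sg_stab hr hn ha
  have hka : act (k * g) ω = scal n (((r / q * a : ℕ) : ZMod r)) * act k ω := by
    rw [act_mul, ha, act_scal_mul]
  have hst : act (k * g * k⁻¹) (act k ω) =
      scal n (((r / q * a : ℕ) : ZMod r)) * act k ω := by
    rw [← act_mul, inv_mul_cancel_right, hka]
  have hcs : sg (cs (act k ω)) = sg (cs ω) := by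
    rw [cs_act, sg_add hr, sg_two_mul hr, mul_one]
  have hT : TSym 0 ω := (GI1_iff hqr (Or.inr hn) ω).1 h1
  have hsT := (LDalg_st hr hn hT).1
  have hW : W1 ze (k * g * k⁻¹) (act k (st ω)) = W1 ze g (st ω) := by
    have e1 := W1_mul hr ze_add (k * g * k⁻¹) k hsT
    rw [inv_mul_cancel_right] at e1
    have e2 := W1_mul hr ze_add k g hsT
    rw [LDalg_act_st ha, W1_scal_left hr ze k (st ω) hsa] at e2
    have e3 := W1_mul hr ze_add k⁻¹ k hsT
    rw [inv_mul_cancel, W1_one _ ze_zero] at e3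
    have hne : W1 ze k (st ω) ≠ 0 := fun h0 => by
      rw [h0, mul_zero] at e3
      exact one_ne_zero e3
    rw [e2] at e1
    have e4 : (W1 ze g (st ω) - W1 ze (k * g * k⁻¹) (act k (st ω))) * W1 ze k (st ω) = 0 := by
      rw [sub_mul, ← e1]
      ring
    rcases mul_eq_zero.1 e4 with h | h
    · exact (sub_eq_zero.1 h).symm
    · exact absurd h hne
  change lD q (k * g * k⁻¹) (act k ω) = lD q g ω
  unfold lD
  rw [eo_eq ha, eo_eq hst, hcs, LDalg_st_act hr, k1_act hr k hsT, hW]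

end GIM119
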