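import Pool.Agent.Lib.MP_119ee3_al.Basic2
import Pool.Agent.Lib.MP_119ee3_al.Cocycle1
import Pool.Agent.Lib.MP_119ee3_al.GIOne
import Pool.Agent.Lib.MP_119ee3_al.FId
import Pool.Agent.Lib.MP_119ee3_al.LDalg

set_option autoImplicit false

/-!
# MP_119ee3_al: The sum identity for lD.
-/

open Classical

noncomputable section

namespace GIM119

open MG

variable {r n : ℕ} [NeZero r]

/-- Number of twisted square roots. -/
def LDsum_A (x : MG r n) : ℂ :=
  ((Finset.univ.filter fun h : MG r n => h * tau r n h = x).card : ℂ)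

lemma LDsum_Gp (x : MG r n) : x ∈ Gp r 1 n := ⟨cs x, by rw [Nat.cast_one, one_mul]⟩

lemma LDsum_two_hf (hr : 2 ∣ r) : 2 * hf r = 0 := by
  rw [two_mul, hf_add_hf hr]

lemma LDsum_act_hf (hr : 2 ∣ r) (x ω : MG r n) : act (x * scal n (hf r)) ω = act x ω := by
  rw [act_mul_scal, LDsum_two_hf hr, scal_zero, one_mul]

lemma LDsum_sg_scal (hr : 2 ∣ r) (hn : Odd n) (ω : MG r n) :
    sg (cs (scal n 1 * ω)) = - sg (cs ω) := by
  rw [cs_scal_mul, sg_add hr, mul_one, sg_natCast hr, hn.neg_one_pow]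
  ring

lemma LDsum_sg_st (hr : 2 ∣ r) (hn : Odd n) (ω : MG r n) : sg (cs (st ω)) = 1 := by
  unfold st
  split_ifs with h
  · exact h
  · rw [LDsum_sg_scal hr hn]
    rcases sg_cases (cs ω) with h1 | h1
    · exact absurd h1 h
    · rw [h1]
      norm_num

lemma LDsum_st_sym {ω : MG r n} (hω : TSym 0 ω) : TSym 0 (st ω) := by
  unfold st
  split_ifs with h
  · exact hω
  · exact hω.scal_mul 1

lemma LDsum_k1 (hr : 2 ∣ r) (hn : Odd n) {ω : MG r n} (hω : TSym 0 ω) : Even (k1 (st ω)) := by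
  have h1 := sg_cs_of_TSym hr (LDsum_st_sym hω)
  rw [LDsum_sg_st hr hn ω] at h1
  by_contra hodd
  rw [Nat.not_even_iff_odd] at hodd
  rw [hodd.neg_one_pow] at h1
  norm_num at h1

/-- Value of `lD`. -/
lemma LDsum_val [NeZero n] {q : ℕ} (hr : 2 ∣ r) (hn : Odd n) (hq0 : 0 < q) (hqr : q ∣ r)
    (g ω : MG r n) (hs : TSym 0 ω) {j : ℕ} (hj : j < q) {c : ZMod r}
    (hc : 2 * c = ((r / q * j : ℕ) : ZMod r))
    (h : act g ω = scal n ((r / q * j : ℕ) : ZMod r) * ω) :
    lD q g ω = W1 ze (g * scal n (-c)) (st ω) * sg (cs ω) ^ j := by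
  obtain ⟨m, hm⟩ := hqr
  have hrpos : 0 < r := Nat.pos_of_ne_zero (NeZero.ne r)
  have hm0 : 0 < m := by
    rcases Nat.eq_zero_or_pos m with h0 | h0
    · rw [h0] at hm; omega
    · exact h0
  have hρ : r / q = m := by
    rw [hm]
    exact Nat.mul_div_cancel_left _ hq0
  rw [hρ] at h hc
  have hlt : m * j < r := by
    rw [hm]
    nlinarith
  have heo : eo n g ω = ((m * j : ℕ) : ZMod r) := eo_eq h
  have hval : (eo n g ω).val / m = j := by
    rw [heo, ZMod.val_natCast_of_lt hlt]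
    exact Nat.mul_div_cancel_left _ hm0
  obtain ⟨t, ht⟩ := LDsum_k1 hr hn hs
  unfold lD
  rw [hρ, hval, heo, W1_mul_scal ze_add, ← ze_natCast_mul, ht,
    show (t + t) / 2 = t by omega, ← hc]
  congr 3
  push_cast
  ring

lemma LDsum_scal_inj_nat [NeZero n] {q : ℕ} (hq0 : 0 < q) (hqr : q ∣ r) {i j : ℕ}
    (hi : i < q) (hj : j < q)
    (h : scal n ((r / q * i : ℕ) : ZMod r) = scal n ((r / q * j : ℕ) : ZMod r)) : i = j := by
  have h1 := scal_inj h
  obtain ⟨m, hm⟩ := hqr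
  have hrpos : 0 < r := Nat.pos_of_ne_zero (NeZero.ne r)
  have hm0 : 0 < m := by
    rcases Nat.eq_zero_or_pos m with h0 | h0
    · rw [h0] at hm; omega
    · exact h0
  have hρ : r / q = m := by
    rw [hm]
    exact Nat.mul_div_cancel_left _ hq0
  rw [hρ] at h1
  have hlt : ∀ k < q, m * k < r := by
    intro k hk
    rw [hm]
    nlinarith
  have h2 := congrArg ZMod.val h1
  rw [ZMod.val_natCast_of_lt (hlt i hi), ZMod.val_natCast_of_lt (hlt j hj)] at h2
  exact Nat.eq_of_mul_eq_mul_left hm0 h2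

/-- The left hand side. -/
lemma LDsum_left [NeZero n] {q : ℕ} (hq0 : 0 < q) (hn : Odd n) (hqr : q ∣ r) (g : MG r n)
    (f : MG r n → ℂ) :
    ∑ ω with (ω ∈ Gp r 1 n ∧ ω * tau r n ω ∈ Cq r q n ∧
      g * ω * (tau r n g)⁻¹ * ω⁻¹ ∈ Cq r q n), f ω
    = ∑ j ∈ Finset.range q, ∑ ω with (TSym 0 ω ∧
        act g ω = scal n ((r / q * j : ℕ) : ZMod r) * ω), f ω := by
  rw [← Finset.sum_biUnion]
  · refine Finset.sum_congr ?_ fun _ _ => rfl
    ext ω
    simp only [Finset.mem_filter, Finset.mem_univ, true_and, Finset.mem_biUnion,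
      Finset.mem_range, GI1_iff hqr (Or.inr hn),
      mem_Cq_iff_exists hq0 hqr (g * ω * (tau r n g)⁻¹ * ω⁻¹), twist_eq_iff]
    constructor
    · rintro ⟨-, h2, j, hj, h3⟩
      exact ⟨j, hj, h2, h3⟩
    · rintro ⟨j, hj, h2, h3⟩
      exact ⟨LDsum_Gp ω, h2, j, hj, h3⟩
  · intro i hi j hj hij
    rw [Function.onFun, Finset.disjoint_left]
    intro ω h1 h2
    rw [Finset.mem_filter] at h1 h2
    apply hij
    refine LDsum_scal_inj_nat (n := n) hq0 hqr (by simpa using hi) (by simpa using hj) ?_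
    have h3 := h1.2.2.symm.trans h2.2.2
    exact mul_right_cancel h3

/-- The right hand side. -/
lemma LDsum_right [NeZero n] {q : ℕ} (hq0 : 0 < q) (hqr : q ∣ r) (g : MG r n) :
    ((Finset.univ.filter fun h : MG r n =>
        h ∈ Gp r 1 n ∧ h * tau r n h * g⁻¹ ∈ Cq r q n).card : ℂ)
    = ∑ j ∈ Finset.range q, LDsum_A (g * scal n (-((r / q * j : ℕ) : ZMod r))) := by
  have h2 : ((Finset.univ.filter fun h : MG r n =>
        h ∈ Gp r 1 n ∧ h * tau r n h * g⁻¹ ∈ Cq r q n).card : ℂ)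
      = ∑ h with (h ∈ Gp r 1 n ∧ h * tau r n h * g⁻¹ ∈ Cq r q n), (1 : ℂ) := by
    simp
  have h1 : ∀ x : MG r n, LDsum_A x = ∑ h with (h * tau r n h = x), (1 : ℂ) := by
    intro x
    simp [LDsum_A]
  rw [h2]
  simp only [h1]
  rw [← Finset.sum_biUnion]
  · refine Finset.sum_congr ?_ fun _ _ => rfl
    ext h
    simp only [Finset.mem_filter, Finset.mem_univ, true_and, Finset.mem_biUnion,
      Finset.mem_range]
    have h3 : h * tau r n h * g⁻¹ ∈ Cq r q n
        ↔ ∃ j < q, h * tau r n h = g * scal n (-((r / q * j : ℕ) : ZMod r)) := by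
      rw [← inv_mem_iff, mem_Cq_iff_exists hq0 hqr]
      refine exists_congr fun j => and_congr_right fun _ => ?_
      rw [inv_eq_iff_eq_inv, mul_inv_eq_iff_eq_mul, scal_inv, scal_comm]
    rw [h3]
    constructor
    · rintro ⟨-, h4⟩
      exact h4
    · intro h4
      exact ⟨LDsum_Gp h, h4⟩
  · intro i hi j hj hij
    rw [Function.onFun, Finset.disjoint_left]
    intro ω h1 h2
    rw [Finset.mem_filter] at h1 h2
    apply hij
    refine LDsum_scal_inj_nat (n := n) hq0 hqr (by simpa using hi) (by simpa using hj) ?_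
    have h4 := mul_left_cancel (h1.2.symm.trans h2.2)
    rw [← scal_inv, ← scal_inv] at h4
    exact inv_injective h4

lemma LDsum_range (m : ℕ) (f : ℕ → ℂ) :
    ∑ j ∈ Finset.range (2 * m), f j
      = ∑ i ∈ Finset.range m, f (2 * i) + ∑ i ∈ Finset.range m, f (2 * i + 1) := by
  induction m with
  | zero => simp
  | succ m ih =>
    rw [show 2 * (m + 1) = 2 * m + 1 + 1 by ring, Finset.sum_range_succ, Finset.sum_range_succ,
      ih, Finset.sum_range_succ, Finset.sum_range_succ]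
    ring

/-- Elements with odd colour sum are the multiples by `scal 1` of those with even colour sum. -/
lemma LDsum_swap (hr : 2 ∣ r) (hn : Odd n) (x : MG r n) :
    ∑ ω with ((TSym 0 ω ∧ act x ω = ω) ∧ ¬ sg (cs ω) = 1), W1 ze x (st ω)
      = ∑ ω with ((TSym 0 ω ∧ act x ω = ω) ∧ sg (cs ω) = 1), W1 ze x (st ω) := by
  refine Finset.sum_bij' (fun ω _ => scal n 1 * ω) (fun ω _ => scal n (-1) * ω) ?_ ?_ ?_ ?_ ?_
  · intro ω hω
    rw [Finset.mem_filter] at hω ⊢
    refine ⟨Finset.mem_univ _, ⟨hω.2.1.1.scal_mul 1, ?_⟩, ?_⟩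
    · rw [act_scal_mul, hω.2.1.2]
    · rw [LDsum_sg_scal hr hn]
      rcases sg_cases (cs ω) with h1 | h1
      · exact absurd h1 hω.2.2
      · rw [h1]
        norm_num
  · intro ω hω
    rw [Finset.mem_filter] at hω ⊢
    refine ⟨Finset.mem_univ _, ⟨hω.2.1.1.scal_mul (-1), ?_⟩, ?_⟩
    · rw [act_scal_mul, hω.2.1.2]
    · have h2 := LDsum_sg_scal hr hn (scal n (-1) * ω)
      rw [← mul_assoc, ← scal_add, add_neg_cancel, scal_zero, one_mul, hω.2.2] at h2
      intro h3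
      rw [h3] at h2
      norm_num at h2
  · intro ω _
    rw [← mul_assoc, ← scal_add, neg_add_cancel, scal_zero, one_mul]
  · intro ω _
    rw [← mul_assoc, ← scal_add, add_neg_cancel, scal_zero, one_mul]
  · intro ω hω
    rw [Finset.mem_filter] at hω
    have h1 : sg (cs (scal n 1 * ω)) = 1 := by
      rw [LDsum_sg_scal hr hn]
      rcases sg_cases (cs ω) with h1 | h1
      · exact absurd h1 hω.2.2
      · rw [h1]
        norm_num
    have h2 : st (scal n 1 * ω) = scal n 1 * ω := if_pos h1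
    have h3 : st ω = scal n 1 * ω := if_neg hω.2.2
    rw [h2, h3]

/-- The sum over the elements with even colour sum. -/
lemma LDsum_half (hr : 2 ∣ r) (x : MG r n) :
    2 * ∑ ω with ((TSym 0 ω ∧ act x ω = ω) ∧ sg (cs ω) = 1), W1 ze x (st ω)
      = LDsum_A x + LDsum_A (x * scal n (hf r)) := by
  have h1 := F1 hr ze_add (ze_hf hr) x
  have h2 := F1 hr ze_add (ze_hf hr) (x * scal n (hf r))
  unfold LDsum_A
  rw [← h1, ← h2]
  have h3 : ∑ ω with (TSym 0 ω ∧ act (x * scal n (hf r)) ω = ω),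
      W1 ze (x * scal n (hf r)) ω
      = ∑ ω with (TSym 0 ω ∧ act x ω = ω), sg (cs ω) * W1 ze x ω := by
    refine Finset.sum_congr ?_ ?_
    · refine Finset.filter_congr fun ω _ => ?_
      rw [LDsum_act_hf hr]
    · intro ω hω
      rw [Finset.mem_filter] at hω
      rw [W1_mul_scal ze_add, ze_hf hr, sg_cs_of_TSym hr hω.2.1]
      ring
  rw [h3, ← Finset.sum_add_distrib, Finset.mul_sum, ← Finset.filter_filter, Finset.sum_filter]
  refine Finset.sum_congr rfl fun ω _ => ?_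
  split_ifs with h
  · rw [h, show st ω = ω from if_pos h]
    ring
  · rcases sg_cases (cs ω) with h4 | h4
    · exact absurd h4 h
    · rw [h4]
      ring

/-- Splitting according to the parity of the colour sum. -/
lemma LDsum_split (hr : 2 ∣ r) (hn : Odd n) (x : MG r n) (j : ℕ) :
    ∑ ω with (TSym 0 ω ∧ act x ω = ω), W1 ze x (st ω) * sg (cs ω) ^ j
      = (1 + (-1) ^ j) *
        ∑ ω with ((TSym 0 ω ∧ act x ω = ω) ∧ sg (cs ω) = 1), W1 ze x (st ω) := by
  rw [← Finset.sum_filter_add_sum_filter_not _ (fun ω : MG r n => sg (cs ω) = 1),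
    Finset.filter_filter, Finset.filter_filter, add_mul, one_mul]
  congr 1
  · refine Finset.sum_congr rfl fun ω hω => ?_
    rw [Finset.mem_filter] at hω
    rw [hω.2.2, one_pow, mul_one]
  · rw [← LDsum_swap hr hn, Finset.mul_sum]
    refine Finset.sum_congr rfl fun ω hω => ?_
    rw [Finset.mem_filter] at hω
    rcases sg_cases (cs ω) with h4 | h4
    · exact absurd h4 hω.2.2
    · rw [h4, mul_comm]

/-- The contribution of the scalar with index `j`. -/
lemma LDsum_T [NeZero n] {q : ℕ} (hr : 2 ∣ r) (hn : Odd n) (hq0 : 0 < q) (hqr : q ∣ r)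
    (g : MG r n) {j : ℕ} (hj : j < q) {c : ZMod r}
    (hc : 2 * c = ((r / q * j : ℕ) : ZMod r)) :
    ∑ ω with (TSym 0 ω ∧ act g ω = scal n ((r / q * j : ℕ) : ZMod r) * ω), lD q g ω
      = ∑ ω with (TSym 0 ω ∧ act (g * scal n (-c)) ω = ω),
          W1 ze (g * scal n (-c)) (st ω) * sg (cs ω) ^ j := by
  have hiff : ∀ ω : MG r n, act (g * scal n (-c)) ω = ω
      ↔ act g ω = scal n ((r / q * j : ℕ) : ZMod r) * ω := by
    intro ω
    rw [act_mul_scal, show 2 * -c = -(2 * c) by ring, hc, ← scal_inv, inv_mul_eq_iff_eq_mul]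
  refine Finset.sum_congr ?_ ?_
  · refine Finset.filter_congr fun ω _ => ?_
    rw [hiff]
  · intro ω hω
    rw [Finset.mem_filter, hiff] at hω
    exact LDsum_val hr hn hq0 hqr g ω hω.2.1 hj hc hω.2.2

/-- Even indices. -/
lemma LDsum_even [NeZero n] {q : ℕ} (hr : 2 ∣ r) (hn : Odd n) (hq0 : 0 < q) (hqr : q ∣ r)
    (g : MG r n) {i : ℕ} (hj : 2 * i < q) :
    ∑ ω with (TSym 0 ω ∧ act g ω = scal n ((r / q * (2 * i) : ℕ) : ZMod r) * ω), lD q g ω
      = LDsum_A (g * scal n (-((r / q * i : ℕ) : ZMod r)))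
          + LDsum_A (g * scal n (-((r / q * i : ℕ) : ZMod r) + hf r)) := by
  rw [LDsum_T hr hn hq0 hqr g hj (c := ((r / q * i : ℕ) : ZMod r)) (by push_cast; ring),
    LDsum_split hr hn, pow_mul, neg_one_sq, one_pow, scal_add, ← mul_assoc, ← LDsum_half hr]
  norm_num

/-- Odd indices. -/
lemma LDsum_odd [NeZero n] {q : ℕ} (hr : 2 ∣ r) (hn : Odd n) (hq0 : 0 < q) (hqr : q ∣ r)
    (g : MG r n) {i : ℕ} (hj : 2 * i + 1 < q) :
    ∑ ω with (TSym 0 ω ∧ act g ω = scal n ((r / q * (2 * i + 1) : ℕ) : ZMod r) * ω), lD q g ω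
      = 0 := by
  rcases Nat.even_or_odd (r / q) with he | ho
  · obtain ⟨k, hk⟩ := he
    rw [LDsum_T hr hn hq0 hqr g hj (c := ((k * (2 * i + 1) : ℕ) : ZMod r)) (by
      rw [hk]
      push_cast
      ring), LDsum_split hr hn, pow_succ, pow_mul, neg_one_sq, one_pow]
    norm_num
  · refine Finset.sum_eq_zero fun ω hω => ?_
    exfalso
    rw [Finset.mem_filter] at hω
    have h1 := congrArg cs hω.2.2
    rw [cs_act, cs_scal_mul, add_right_inj] at h1
    have h2 := congrArg sg h1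
    rw [sg_two_mul hr, ← Nat.cast_mul, sg_natCast hr] at h2
    have h3 : Odd (n * (r / q * (2 * i + 1))) := hn.mul (ho.mul ⟨i, rfl⟩)
    rw [h3.neg_one_pow] at h2
    norm_num at h2

theorem lD_sum [NeZero n] {q : ℕ} (hr : 2 ∣ r) (hn : Odd n) (hq : Even q) (hqr : q ∣ r)
    (g : MG r n) (hg : g ∈ Gp r 1 n) :
    ∑ ω with (ω ∈ Gp r 1 n ∧ ω * tau r n ω ∈ Cq r q n ∧
      g * ω * (tau r n g)⁻¹ * ω⁻¹ ∈ Cq r q n), lD q g ω
    = ((Finset.univ.filter fun h : MG r n =>
        h ∈ Gp r 1 n ∧ h * tau r n h * g⁻¹ ∈ Cq r q n).card : ℂ) := by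
  have hrpos : 0 < r := Nat.pos_of_ne_zero (NeZero.ne r)
  have hq0 : 0 < q := by
    rcases Nat.eq_zero_or_pos q with h0 | h0
    · rw [h0] at hqr
      have := Nat.eq_zero_of_zero_dvd hqr
      omega
    · exact h0
  rw [LDsum_left hq0 hn hqr, LDsum_right hq0 hqr]
  obtain ⟨m, hm⟩ := hq
  have hm2 : q = 2 * m := by omega
  have hhf : ((r / q * m : ℕ) : ZMod r) = hf r := by
    unfold hf
    congr 1
    obtain ⟨t, ht⟩ := hqr
    rw [ht, Nat.mul_div_cancel_left _ hq0, hm2, show 2 * m * t = 2 * (m * t) by ring,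
      Nat.mul_div_cancel_left _ (by norm_num)]
    ring
  conv_lhs => rw [hm2]
  rw [LDsum_range, ← hm2]
  have hodd : ∑ i ∈ Finset.range m, (∑ ω with (TSym 0 ω ∧
        act g ω = scal n ((r / q * (2 * i + 1) : ℕ) : ZMod r) * ω), lD q g ω) = 0 := by
    refine Finset.sum_eq_zero fun i hi => ?_
    rw [Finset.mem_range] at hi
    exact LDsum_odd hr hn hq0 hqr g (by omega)
  rw [hodd, add_zero]
  conv_rhs => rw [hm, Finset.sum_range_add]
  rw [← Finset.sum_add_distrib, ← hm]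
  refine Finset.sum_congr rfl fun i hi => ?_
  rw [Finset.mem_range] at hi
  rw [LDsum_even hr hn hq0 hqr g (by omega)]
  have h1 : -((r / q * (m + i) : ℕ) : ZMod r) = -((r / q * i : ℕ) : ZMod r) + hf r := by
    rw [mul_add, Nat.cast_add, hhf, neg_add, neg_hf hr]
    ring
  rw [h1]

theorem ALG_D [NeZero n] {q : ℕ} (hr : 2 ∣ r) (hn : Odd n) (hq : Even q) (hqr : q ∣ r) :
    ALG r 1 q n (lD q) :=
  ⟨lD_mul hr hn hq hqr, lD_cen hr hn hq hqr, lD_shift hr hn hq hqr, lD_conj hr hn hq hqr,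
    lD_sum hr hn hq hqr⟩

end GIM119
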