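import Pool.Agent.Lib.MP_119ee3_al.Basic2
import Pool.Agent.Lib.MP_119ee3_al.Cocycle1
import Pool.Agent.Lib.MP_119ee3_al.GIOne

set_option autoImplicit false

/-!
# MP_119ee3_al: Algebraic properties of lF.
-/

open Classical

noncomputable section

namespace GIM119

open MG

variable {r n : ℕ} [NeZero r]

lemma LFalg_TSym_scal (c : ZMod r) (ω : MG r n) (e : ZMod r) :
    TSym e (scal n c * ω) ↔ TSym e ω := by
  constructor
  · intro h
    have h2 := h.scal_mul (-c)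
    rw [← mul_assoc, ← scal_add, neg_add_cancel, scal_zero, one_mul] at h2
    exact h2
  · intro h
    exact h.scal_mul c

lemma LFalg_stab {q : ℕ} (hq0 : 0 < q) (hqr : q ∣ r) {g ω : MG r n}
    (h2 : g * ω * (tau r n g)⁻¹ * ω⁻¹ ∈ Cq r q n) :
    ∃ j : ℕ, act g ω = scal n (((r / q * j : ℕ) : ZMod r)) * ω := by
  rw [mem_Cq_iff_exists hq0 hqr] at h2
  obtain ⟨j, -, hj⟩ := h2
  exact ⟨j, (twist_eq_iff _ _ _).1 hj⟩

lemma LFalg_even {q : ℕ} (hr : 2 ∣ r) (hq : Odd q) (hqr : q ∣ r) : 2 ∣ r / q := by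
  have h1 : r / q * q = r := Nat.div_mul_cancel hqr
  have h2 : 2 ∣ r / q * q := by rw [h1]; exact hr
  rcases (Nat.Prime.dvd_mul Nat.prime_two).1 h2 with h | h
  · exact h
  · exfalso
    obtain ⟨t, ht⟩ := hq
    omega

lemma LFalg_sg {q : ℕ} (hr : 2 ∣ r) (hq : Odd q) (hqr : q ∣ r) (j : ℕ) :
    sg (((r / q * j : ℕ) : ZMod r)) = 1 := by
  rw [sg_natCast hr]
  obtain ⟨t, ht⟩ := LFalg_even hr hq hqr
  rw [ht, mul_assoc, pow_mul]
  norm_num

lemma LFalg_q_mul {q : ℕ} (hqr : q ∣ r) (j : ℕ) :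
    (q : ZMod r) * ((r / q * j : ℕ) : ZMod r) = 0 := by
  have h1 : q * (r / q * j) = r * j := by
    rw [← mul_assoc, Nat.mul_div_cancel' hqr]
  rw [← Nat.cast_mul, h1, Nat.cast_mul, ZMod.natCast_self, zero_mul]

theorem lF_mul [NeZero n] {q : ℕ} (hr : 2 ∣ r) (hq : Odd q) (hqr : q ∣ r)
    (ω g h : MG r n) (hω : ω ∈ Gp r 1 n) (hg : g ∈ Gp r 1 n) (hh : h ∈ Gp r 1 n)
    (h1 : ω * tau r n ω ∈ Cq r q n) (h2 : g * ω * (tau r n g)⁻¹ * ω⁻¹ ∈ Cq r q n)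
    (h3 : h * ω * (tau r n h)⁻¹ * ω⁻¹ ∈ Cq r q n) :
    lF q (g * h) ω = lF q g ω * lF q h ω := by
  have hq0 : 0 < q := hq.pos
  have hT : TSym 0 ω := (GI1_iff hqr (Or.inl hq) ω).1 h1
  obtain ⟨a, ha⟩ := LFalg_stab hq0 hqr h2
  obtain ⟨b, hb⟩ := LFalg_stab hq0 hqr h3
  have hgh : act (g * h) ω = scal n (((r / q * (a + b) : ℕ) : ZMod r)) * ω := by
    rw [act_mul, hb, act_scal_mul, ha, ← mul_assoc, ← scal_add]
    congr 2
    push_cast
    ring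
  have ea := eo_eq ha
  have eb := eo_eq hb
  have eab := eo_eq hgh
  have hsb := LFalg_sg hr hq hqr b
  unfold lF
  rw [ea, eb, eab, W1_mul hr ze_add g h hT, hb, W1_scal_left hr ze g ω hsb]
  have hz : ze (-((((q + 1) / 2) * k1 ω : ℕ) : ZMod r) * ((r / q * (a + b) : ℕ) : ZMod r)) =
      ze (-((((q + 1) / 2) * k1 ω : ℕ) : ZMod r) * ((r / q * a : ℕ) : ZMod r)) *
      ze (-((((q + 1) / 2) * k1 ω : ℕ) : ZMod r) * ((r / q * b : ℕ) : ZMod r)) := by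
    rw [← ze_add]
    congr 1
    push_cast
    ring
  rw [hz]
  ring

theorem lF_cen [NeZero n] {q : ℕ} (hr : 2 ∣ r) (hq : Odd q) (hqr : q ∣ r)
    (ω z : MG r n) (hω : ω ∈ Gp r 1 n)
    (h1 : ω * tau r n ω ∈ Cq r q n) (hz : z ∈ Cq r q n) : lF q z ω = 1 := by
  have hq0 : 0 < q := hq.pos
  rw [mem_Cq_iff_exists hq0 hqr] at hz
  obtain ⟨j, -, rfl⟩ := hz
  have hst : act (scal n (((r / q * j : ℕ) : ZMod r))) ω
      = scal n (((r / q * (2 * j) : ℕ) : ZMod r)) * ω := by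
    rw [act_scal]
    congr 2
    push_cast
    ring
  have ez := eo_eq hst
  unfold lF
  rw [ez]
  have hW := W1_mul_scal (r := r) (n := n) ze_add 1 ω (((r / q * j : ℕ) : ZMod r))
  rw [one_mul, W1_one _ ze_zero, one_mul] at hW
  rw [hW, ← ze_natCast_mul, ← ze_add]
  have hq1 := LFalg_q_mul hqr j
  obtain ⟨t, ht⟩ := hq
  have h3 : (q + 1) / 2 = t + 1 := by omega
  have h0 : ((k1 ω : ℕ) : ZMod r) * ((r / q * j : ℕ) : ZMod r) +
      -((((q + 1) / 2) * k1 ω : ℕ) : ZMod r) * ((r / q * (2 * j) : ℕ) : ZMod r) = 0 := by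
    rw [h3]
    have h4 : (q : ZMod r) = 2 * (t : ZMod r) + 1 := by
      rw [ht]
      push_cast
      ring
    rw [h4] at hq1
    push_cast at hq1 ⊢
    linear_combination (-(k1 ω : ZMod r)) * hq1
  rw [h0, ze_zero]

theorem lF_shift [NeZero n] {q : ℕ} (hr : 2 ∣ r) (hq : Odd q) (hqr : q ∣ r)
    (ω g z : MG r n) (hω : ω ∈ Gp r 1 n) (hg : g ∈ Gp r 1 n)
    (h1 : ω * tau r n ω ∈ Cq r q n) (h2 : g * ω * (tau r n g)⁻¹ * ω⁻¹ ∈ Cq r q n)
    (hz : z ∈ Cq r q n) : lF q g (z * ω) = lF q g ω := by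
  have hq0 : 0 < q := hq.pos
  rw [mem_Cq_iff_exists hq0 hqr] at hz
  obtain ⟨j, -, rfl⟩ := hz
  have hsj := LFalg_sg hr hq hqr j
  obtain ⟨a, ha⟩ := LFalg_stab hq0 hqr h2
  have hst : act g (scal n (((r / q * j : ℕ) : ZMod r)) * ω) =
      scal n (((r / q * a : ℕ) : ZMod r)) * (scal n (((r / q * j : ℕ) : ZMod r)) * ω) := by
    rw [act_scal_mul, ha, ← mul_assoc, ← mul_assoc, scal_comm]
  have ez := eo_eq hst
  have ea := eo_eq ha
  unfold lF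
  rw [ez, ea, k1_scal_mul hr ω hsj, W1_scal_left hr ze g ω hsj]

theorem lF_conj [NeZero n] {q : ℕ} (hr : 2 ∣ r) (hq : Odd q) (hqr : q ∣ r)
    (ω g k : MG r n) (hω : ω ∈ Gp r 1 n) (hg : g ∈ Gp r 1 n) (hk : k ∈ Gp r 1 n)
    (h1 : ω * tau r n ω ∈ Cq r q n) (h2 : g * ω * (tau r n g)⁻¹ * ω⁻¹ ∈ Cq r q n) :
    lF q (k * g * k⁻¹) (k * ω * (tau r n k)⁻¹) = lF q g ω := by
  have hq0 : 0 < q := hq.pos
  have hT : TSym 0 ω := (GI1_iff hqr (Or.inl hq) ω).1 h1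
  obtain ⟨a, ha⟩ := LFalg_stab hq0 hqr h2
  have hsa := LFalg_sg hr hq hqr a
  have hka : act (k * g) ω = scal n (((r / q * a : ℕ) : ZMod r)) * act k ω := by
    rw [act_mul, ha, act_scal_mul]
  have hst : act (k * g * k⁻¹) (act k ω) =
      scal n (((r / q * a : ℕ) : ZMod r)) * act k ω := by
    rw [← act_mul, inv_mul_cancel_right, hka]
  have ez := eo_eq hst
  have ea := eo_eq ha
  change lF q (k * g * k⁻¹) (act k ω) = lF q g ω
  unfold lF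
  have hW : W1 ze (k * g * k⁻¹) (act k ω) = W1 ze g ω := by
    have e1 := W1_mul hr ze_add (k * g * k⁻¹) k hT
    rw [inv_mul_cancel_right] at e1
    have e2 := W1_mul hr ze_add k g hT
    rw [ha, W1_scal_left hr ze k ω hsa] at e2
    have e3 := W1_mul hr ze_add k⁻¹ k hT
    rw [inv_mul_cancel, W1_one _ ze_zero] at e3
    have hne : W1 ze k ω ≠ 0 := fun h0 => by
      rw [h0, mul_zero] at e3
      exact one_ne_zero e3
    rw [e2] at e1
    have e4 : (W1 ze g ω - W1 ze (k * g * k⁻¹) (act k ω)) * W1 ze k ω = 0 := by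
      rw [sub_mul, ← e1]
      ring
    rcases mul_eq_zero.1 e4 with h | h
    · exact (sub_eq_zero.1 h).symm
    · exact absurd h hne
  rw [ez, ea, k1_act hr k hT, hW]

end GIM119
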