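import Pool.Agent.Lib.MP_119ee3_al.Basic2
import Pool.Agent.Lib.MP_119ee3_al.Cocycle1
import Pool.Agent.Lib.MP_119ee3_al.GIOne
import Pool.Agent.Lib.MP_119ee3_al.FId
import Pool.Agent.Lib.MP_119ee3_al.LFalg

set_option autoImplicit false

/-!
# MP_119ee3_al: The sum identity for lF.
-/

open Classical

noncomputable section

namespace GIM119

open MG

variable {r n : ℕ} [NeZero r]

/-- The multiples of `r / q`. -/
def LFsum_Q (r q : ℕ) [NeZero r] : Finset (ZMod r) :=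
  Finset.univ.filter fun e => ∃ k : ZMod r, e = ((r / q : ℕ) : ZMod r) * k

lemma LFsum_mem_Q {q : ℕ} {e : ZMod r} :
    e ∈ LFsum_Q r q ↔ ∃ k : ZMod r, e = ((r / q : ℕ) : ZMod r) * k := by
  simp [LFsum_Q]

lemma LFsum_scal_mem [NeZero n] {q : ℕ} {e : ZMod r} : scal n e ∈ Cq r q n ↔ e ∈ LFsum_Q r q := by
  rw [LFsum_mem_Q, mem_Cq]
  constructor
  · rintro ⟨k, hk⟩
    exact ⟨k, scal_inj hk⟩
  · rintro ⟨k, hk⟩
    exact ⟨k, by rw [hk]⟩

lemma LFsum_Q_add {q : ℕ} {e e' : ZMod r} (h : e ∈ LFsum_Q r q) (h' : e' ∈ LFsum_Q r q) :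
    e + e' ∈ LFsum_Q r q := by
  rw [LFsum_mem_Q] at *
  obtain ⟨k, rfl⟩ := h
  obtain ⟨k', rfl⟩ := h'
  exact ⟨k + k', by ring⟩

lemma LFsum_Q_neg {q : ℕ} {e : ZMod r} (h : e ∈ LFsum_Q r q) : -e ∈ LFsum_Q r q := by
  rw [LFsum_mem_Q] at *
  obtain ⟨k, rfl⟩ := h
  exact ⟨-k, by ring⟩

lemma LFsum_Q_mul {q : ℕ} {e : ZMod r} (h : e ∈ LFsum_Q r q) (c : ZMod r) :
    c * e ∈ LFsum_Q r q := by
  rw [LFsum_mem_Q] at *
  obtain ⟨k, rfl⟩ := h
  exact ⟨c * k, by ring⟩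

/-- `q e = 0` on `Q`. -/
lemma LFsum_Q_ann {q : ℕ} (hqr : q ∣ r) {e : ZMod r} (h : e ∈ LFsum_Q r q) :
    (q : ZMod r) * e = 0 := by
  rw [LFsum_mem_Q] at h
  obtain ⟨k, rfl⟩ := h
  rw [← mul_assoc, ← Nat.cast_mul, Nat.mul_div_cancel' hqr, ZMod.natCast_self, zero_mul]

/-- Halving on `Q`. -/
lemma LFsum_Q_half {q : ℕ} (hq : Odd q) (hqr : q ∣ r) {c e : ZMod r} (hc : c ∈ LFsum_Q r q)
    (he : e ∈ LFsum_Q r q) : 2 * c = e ↔ c = (((q + 1) / 2 : ℕ) : ZMod r) * e := by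
  obtain ⟨m, hm⟩ := hq
  have h1 : (((q + 1) / 2 : ℕ) : ZMod r) * 2 = (q : ZMod r) + 1 := by
    have h2 : (q + 1) / 2 * 2 = q + 1 := by omega
    have h3 := congrArg (Nat.cast : ℕ → ZMod r) h2
    push_cast at h3
    exact h3
  constructor
  · rintro rfl
    rw [← mul_assoc, h1, add_mul, LFsum_Q_ann hqr hc]
    ring
  · rintro rfl
    rw [mul_comm 2, mul_right_comm, h1, add_mul, LFsum_Q_ann hqr he]
    ring

/-- The total over the scalars, for one `ω`. -/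
lemma LFsum_point [NeZero n] {q : ℕ} (hq : Odd q) (hqr : q ∣ r) (g ω : MG r n) :
    ∑ c ∈ LFsum_Q r q, (if act (g * scal n (-c)) ω = ω then W1 ze (g * scal n (-c)) ω else 0) =
      if g * ω * (tau r n g)⁻¹ * ω⁻¹ ∈ Cq r q n then lF q g ω else 0 := by
  have hact : ∀ c : ZMod r, act (g * scal n (-c)) ω = scal n (-(2 * c)) * act g ω := by
    intro c
    rw [act_mul_scal]
    congr 2
    ring
  split_ifs with hs
  · obtain ⟨e, he, ha⟩ : ∃ e ∈ LFsum_Q r q, act g ω = scal n e * ω := by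
      obtain ⟨k, hk⟩ := hs
      exact ⟨_, LFsum_mem_Q.2 ⟨k, rfl⟩, (twist_eq_iff _ _ _).1 hk⟩
    have hst : ∀ c ∈ LFsum_Q r q, (act (g * scal n (-c)) ω = ω ↔
        c = (((q + 1) / 2 : ℕ) : ZMod r) * e) := by
      intro c hc
      rw [← LFsum_Q_half hq hqr hc he, hact, ha, ← mul_assoc, ← scal_add]
      constructor
      · intro h
        have h1 : scal n (-(2 * c) + e) * ω = scal n 0 * ω := by rw [h, scal_zero, one_mul]
        have h2 := scal_mul_inj h1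
        linear_combination -h2
      · intro h
        rw [h, neg_add_cancel, scal_zero, one_mul]
    have hcong : ∀ c ∈ LFsum_Q r q,
        (if act (g * scal n (-c)) ω = ω then W1 ze (g * scal n (-c)) ω else 0) =
        if c = (((q + 1) / 2 : ℕ) : ZMod r) * e then W1 ze (g * scal n (-c)) ω else 0 := by
      intro c hc
      simp only [hst c hc]
    rw [Finset.sum_congr rfl hcong, Finset.sum_ite_eq', if_pos (LFsum_Q_mul he _),
      W1_mul_scal ze_add, lF, eo_eq ha, ← ze_natCast_mul]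
    congr 2
    push_cast
    ring
  · refine Finset.sum_eq_zero fun c hc => if_neg fun h => hs ?_
    rw [hact] at h
    have h2 : act g ω = scal n (2 * c) * ω := by
      conv_rhs => rw [← h]
      rw [← mul_assoc, ← scal_add, add_neg_cancel, scal_zero, one_mul]
    rw [(twist_eq_iff _ _ _).2 h2, LFsum_scal_mem]
    exact LFsum_Q_mul hc 2

theorem lF_sum [NeZero n] {q : ℕ} (hr : 2 ∣ r) (hq : Odd q) (hqr : q ∣ r)
    (g : MG r n) (hg : g ∈ Gp r 1 n) :
    ∑ ω with (ω ∈ Gp r 1 n ∧ ω * tau r n ω ∈ Cq r q n ∧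
      g * ω * (tau r n g)⁻¹ * ω⁻¹ ∈ Cq r q n), lF q g ω
    = ((Finset.univ.filter fun h : MG r n =>
        h ∈ Gp r 1 n ∧ h * tau r n h * g⁻¹ ∈ Cq r q n).card : ℂ) := by
  have hG : ∀ ω : MG r n, ω ∈ Gp r 1 n := fun ω => ⟨cs ω, by simp⟩
  have hL : ∑ ω with (ω ∈ Gp r 1 n ∧ ω * tau r n ω ∈ Cq r q n ∧
      g * ω * (tau r n g)⁻¹ * ω⁻¹ ∈ Cq r q n), lF q g ω =
      ∑ c ∈ LFsum_Q r q, ∑ ω with (TSym 0 ω ∧ act (g * scal n (-c)) ω = ω),
        W1 ze (g * scal n (-c)) ω := by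
    simp only [Finset.sum_filter]
    rw [Finset.sum_comm]
    refine Finset.sum_congr rfl fun ω _ => ?_
    rw [GI1_iff hqr (Or.inl hq)]
    by_cases hT : TSym 0 ω
    · simp only [hG, hT, true_and]
      exact (LFsum_point hq hqr g ω).symm
    · simp [hT]
  rw [hL]
  simp only [F1 hr ze_add (ze_hf hr)]
  simp only [Finset.card_filter]
  push_cast
  rw [Finset.sum_comm]
  refine Finset.sum_congr rfl fun h _ => ?_
  simp only [hG, true_and]
  by_cases hI : h * tau r n h * g⁻¹ ∈ Cq r q n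
  · rw [if_pos hI]
    obtain ⟨k, hk⟩ := hI
    have hk' : h * tau r n h = scal n (((r / q : ℕ) : ZMod r) * k) * g :=
      mul_inv_eq_iff_eq_mul.1 hk
    have hmem : ((r / q : ℕ) : ZMod r) * k ∈ LFsum_Q r q := LFsum_mem_Q.2 ⟨k, rfl⟩
    generalize ((r / q : ℕ) : ZMod r) * k = e0 at hk' hmem
    have hiff : ∀ e, (h * tau r n h = g * scal n (-e)) ↔ e = - e0 := by
      intro e
      rw [hk', scal_comm, mul_right_inj]
      constructor
      · intro h'
        have := scal_inj h'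
        rw [this]
        ring
      · intro h'
        rw [h']
        congr 1
        ring
    simp only [hiff]
    rw [Finset.sum_ite_eq', if_pos (LFsum_Q_neg hmem)]
  · rw [if_neg hI]
    refine Finset.sum_eq_zero fun e he => if_neg fun h' => hI ?_
    rw [h', ← scal_comm, mul_inv_cancel_right, LFsum_scal_mem]
    exact LFsum_Q_neg he

theorem ALG_F [NeZero n] {q : ℕ} (hr : 2 ∣ r) (hq : Odd q) (hqr : q ∣ r) :
    ALG r 1 q n (lF q) :=
  ⟨lF_mul hr hq hqr, lF_cen hr hq hqr, lF_shift hr hq hqr, lF_conj hr hq hqr,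
    lF_sum hr hq hqr⟩

end GIM119
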