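import Pool.Agent.Lib.MP_119ee3_al.Basic
import Pool.Agent.Lib.MP_119ee3_al.FamMain
import Pool.Agent.Lib.MP_119ee3_al.ExistsConj

set_option autoImplicit false

/-!
# MP_119ee3_al: From a lifted family to a model of the quotient.
-/

open Classical

noncomputable section

namespace GIM119

open MG

variable {r d q n : ℕ}

/-- the class of an element -/
abbrev Lift_mk (q : ℕ) (g : ↥(Gp r d n)) : PRG r d q n := QuotientGroup.mk g

theorem Lift_eq (g h : ↥(Gp r d n)) : Lift_mk q g = Lift_mk q h ↔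
    ∃ z ∈ Cq r q n, (h : MG r n) = z * (g : MG r n) := by
  unfold Lift_mk
  rw [QuotientGroup.eq, Subgroup.mem_subgroupOf]
  push_cast
  constructor
  · intro hz
    refine ⟨_, hz, ?_⟩
    rw [Cq_comm hz]
    group
  · rintro ⟨z, hz, h1⟩
    rw [h1, Cq_comm hz, inv_mul_cancel_left]
    exact hz

theorem Lift_tau (w : ↥(Gp r d n)) : tauQ r d q n (Lift_mk q w) = (Lift_mk q w)⁻¹ ↔
    (w : MG r n) * tau r n w ∈ Cq r q n := by
  rw [tauQ_mk, ← QuotientGroup.mk_inv, eq_comm]
  rw [show (QuotientGroup.mk w⁻¹ : PRG r d q n) = Lift_mk q w⁻¹ from rfl,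
    show (QuotientGroup.mk (tauGp r d n w) : PRG r d q n) = Lift_mk q (tauGp r d n w) from rfl,
    Lift_eq]
  constructor
  · rintro ⟨z, hz, h⟩
    rw [tauGp_coe] at h
    rw [h, ← mul_assoc, ← Cq_comm hz]
    push_cast
    rw [mul_assoc, mul_inv_cancel, mul_one]
    exact hz
  · intro hz
    refine ⟨_, hz, ?_⟩
    rw [tauGp_coe, Cq_comm hz]
    push_cast
    group

theorem Lift_stab (g w : ↥(Gp r d n)) :
    Lift_mk q g ∈ tstab (tauQ r d q n) (Lift_mk q w) ↔
    (g : MG r n) * w * (tau r n g)⁻¹ * (w : MG r n)⁻¹ ∈ Cq r q n := by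
  rw [mem_tstab, tauQ_mk, eq_comm, ← QuotientGroup.mk_inv, ← QuotientGroup.mk_mul,
    ← QuotientGroup.mk_mul]
  rw [show (QuotientGroup.mk (g * w * (tauGp r d n g)⁻¹) : PRG r d q n) =
    Lift_mk q (g * w * (tauGp r d n g)⁻¹) from rfl, Lift_eq]
  push_cast
  rw [tauGp_coe]
  constructor
  · rintro ⟨z, hz, h⟩
    rw [h, mul_assoc, mul_inv_cancel, mul_one]
    exact hz
  · intro hz
    refine ⟨_, hz, ?_⟩
    group

theorem Lift_cen_stab {z w : MG r n} (hz : z ∈ Cq r q n) :
    z * w * (tau r n z)⁻¹ * w⁻¹ ∈ Cq r q n := by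
  have h1 : (tau r n z)⁻¹ ∈ Cq r q n := by
    rw [tau_mem_Cq hz, inv_inv]
    exact hz
  have h2 : z * w * (tau r n z)⁻¹ * w⁻¹ = z * (tau r n z)⁻¹ := by
    rw [mul_assoc z w, ← Cq_comm h1 w]
    group
  rw [h2]
  exact mul_mem hz h1

theorem Lift_wd [NeZero r] (hC : Cq r q n ≤ Gp r d n) {l : MG r n → MG r n → ℂ}
    (hl : ALG r d q n l)
    {g g' w w' : ↥(Gp r d n)} (hg : Lift_mk q g = Lift_mk q g') (hw : Lift_mk q w = Lift_mk q w')
    (h1 : tauQ r d q n (Lift_mk q w) = (Lift_mk q w)⁻¹)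
    (h2 : Lift_mk q g ∈ tstab (tauQ r d q n) (Lift_mk q w)) : l g' w' = l g w := by
  obtain ⟨z, hz, hg'⟩ := (Lift_eq g g').1 hg
  obtain ⟨y, hy, hw'⟩ := (Lift_eq w w').1 hw
  have k1 := (Lift_tau w).1 h1
  have k2 := (Lift_stab g w).1 h2
  have h1' := h1
  have h2' := h2
  rw [hw] at h1' h2'
  have k1' := (Lift_tau w').1 h1'
  have k2' := (Lift_stab g w').1 h2'
  rw [hg', hl.mul w' z g w'.2 (hC hz) g.2 k1' (Lift_cen_stab hz) k2',
    hl.cen w' z w'.2 k1' hz, one_mul, hw',
    hl.shift w g y w.2 g.2 k1 k2 hy]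

theorem Lift_fiber [NeZero r] (hC : Cq r q n ≤ Gp r d n) (F : MG r n → ℂ) (Fq : PRG r d q n → ℂ)
    (P : MG r n → Prop) (Pq : PRG r d q n → Prop)
    (hP : ∀ w : ↥(Gp r d n), P w ↔ Pq (Lift_mk q w))
    (hF : ∀ w : ↥(Gp r d n), P w → F w = Fq (Lift_mk q w)) :
    ∑ w with (w ∈ Gp r d n ∧ P w), F w =
      (Nat.card ((Cq r q n).subgroupOf (Gp r d n)) : ℂ) * ∑ y with Pq y, Fq y := by
  have h1 : ∑ w with (w ∈ Gp r d n ∧ P w), F w =
      ∑ w : ↥(Gp r d n), if Pq (Lift_mk q w) then Fq (Lift_mk q w) else 0 := by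
    rw [Finset.sum_filter]
    have e : ∀ w : MG r n, (if w ∈ Gp r d n ∧ P w then F w else 0) =
        if h : w ∈ Gp r d n then (if Pq (Lift_mk q ⟨w, h⟩) then Fq (Lift_mk q ⟨w, h⟩) else 0)
          else 0 := by
      intro w
      by_cases h : w ∈ Gp r d n
      · rw [dif_pos h]
        by_cases hp : P w
        · rw [if_pos ⟨h, hp⟩, if_pos ((hP ⟨w, h⟩).1 hp)]
          exact hF ⟨w, h⟩ hp
        · rw [if_neg (fun h' => hp h'.2), if_neg (fun h' => hp ((hP ⟨w, h⟩).2 h'))]
      · rw [dif_neg h, if_neg (fun h' => h h'.1)]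
    simp only [e]
    rw [← Finset.sum_filter_add_sum_filter_not Finset.univ (fun w => w ∈ Gp r d n)]
    rw [Finset.sum_eq_zero (s := Finset.univ.filter fun w => ¬ w ∈ Gp r d n)
      (fun w hw => by rw [dif_neg (Finset.mem_filter.1 hw).2]), add_zero]
    rw [Finset.sum_subtype (Finset.univ.filter fun w => w ∈ Gp r d n)
      (p := fun w => w ∈ Gp r d n) (by simp)]
    exact Finset.sum_congr rfl (fun w _ => by rw [dif_pos w.2])
  rw [h1, ← Finset.sum_fiberwise (Finset.univ : Finset ↥(Gp r d n)) (fun w => Lift_mk q w),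
    Finset.mul_sum, Finset.sum_filter]
  refine Finset.sum_congr rfl (fun y _ => ?_)
  rw [Finset.sum_congr rfl (g := fun _ => if Pq y then Fq y else 0)
    (fun w hw => by rw [(Finset.mem_filter.1 hw).2]), Finset.sum_const, nsmul_eq_mul]
  have h2 : (Finset.univ.filter fun w : ↥(Gp r d n) => Lift_mk q w = y).card =
      Nat.card ((Cq r q n).subgroupOf (Gp r d n)) := by
    obtain ⟨w0, rfl⟩ := QuotientGroup.mk_surjective y
    rw [Nat.card_eq_fintype_card, ← Finset.card_univ]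
    symm
    refine Finset.card_bij (fun z _ => w0 * z.1) ?_ ?_ ?_
    · intro z _
      rw [Finset.mem_filter]
      refine ⟨Finset.mem_univ _, ?_⟩
      exact QuotientGroup.mk_mul_of_mem _ z.2
    · intro z _ z' _ h
      exact Subtype.ext (mul_left_cancel h)
    · intro w hw
      rw [Finset.mem_filter] at hw
      refine ⟨⟨w0⁻¹ * w, QuotientGroup.eq.1 hw.2.symm⟩, Finset.mem_univ _, by simp⟩
  rw [h2]
  split_ifs <;> simp

theorem ALG.hasGIM {r d q n : ℕ} [NeZero r] (hC : Cq r q n ≤ Gp r d n) (hd : d = 1 ∨ d = 2)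
    {l : MG r n → MG r n → ℂ} (hl : ALG r d q n l) : HasGIM (tauQ r d q n) := by
  let lb : PRG r d q n → PRG r d q n → ℂ := fun x y =>
    l ((Quotient.out x : ↥(Gp r d n)) : MG r n) ((Quotient.out y : ↥(Gp r d n)) : MG r n)
  have hout : ∀ x : PRG r d q n, Lift_mk q (Quotient.out x : ↥(Gp r d n)) = x := fun x =>
    Quotient.out_eq' x
  have hlb : ∀ g w : ↥(Gp r d n), tauQ r d q n (Lift_mk q w) = (Lift_mk q w)⁻¹ →
      Lift_mk q g ∈ tstab (tauQ r d q n) (Lift_mk q w) → lb (Lift_mk q g) (Lift_mk q w) = l g w := by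
    intro g w h1 h2
    exact Lift_wd hC hl (hout _).symm (hout _).symm h1 h2
  have hfam : Fam (tauQ r d q n) lb := by
    refine ⟨?_, ?_, ?_, ?_⟩
    · intro ω hω
      obtain ⟨w, rfl⟩ := QuotientGroup.mk_surjective ω
      have h1 : Lift_mk q (1 : ↥(Gp r d n)) ∈ tstab (tauQ r d q n) (Lift_mk q w) :=
        one_mem (tstab (tauQ r d q n) (Lift_mk q w))
      have := hlb 1 w hω h1
      refine Eq.trans this ?_
      exact hl.cen w 1 w.2 ((Lift_tau w).1 hω) (one_mem _)
    · intro ω g h hω hg hh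
      obtain ⟨w, rfl⟩ := QuotientGroup.mk_surjective ω
      obtain ⟨a, rfl⟩ := QuotientGroup.mk_surjective g
      obtain ⟨b, rfl⟩ := QuotientGroup.mk_surjective h
      have e1 := hlb a w hω hg
      have e2 := hlb b w hω hh
      have e3 := hlb (a * b) w hω (mul_mem hg hh)
      refine Eq.trans e3 ?_
      refine Eq.trans ?_ (congrArg₂ (· * ·) e1.symm e2.symm)
      exact hl.mul w a b w.2 a.2 b.2 ((Lift_tau w).1 hω) ((Lift_stab a w).1 hg)
        ((Lift_stab b w).1 hh)
    · intro ω g k hω hg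
      obtain ⟨w, rfl⟩ := QuotientGroup.mk_surjective ω
      obtain ⟨a, rfl⟩ := QuotientGroup.mk_surjective g
      obtain ⟨b, rfl⟩ := QuotientGroup.mk_surjective k
      have e1 := hlb a w hω hg
      have hττ : ∀ x : PRG r d q n, tauQ r d q n (tauQ r d q n x) = x := by
        intro x
        obtain ⟨y, rfl⟩ := QuotientGroup.mk_surjective x
        rw [tauQ_mk, tauQ_mk]
        congr 1
        exact Subtype.ext (tau_tau y.1)
      have e2 := hlb (b * a * b⁻¹) (b * w * (tauGp r d n b)⁻¹)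
        (Orbits_inv hττ hω (Lift_mk q b))
        (by
          have h3 := (Orbits_mem (τ := tauQ r d q n) (Lift_mk q b)
            (Lift_mk q (b * a * b⁻¹)) (Lift_mk q w)).1 (by
              have h4 : (Lift_mk q b)⁻¹ * Lift_mk q (b * a * b⁻¹) * Lift_mk q b = Lift_mk q a := by
                show (Lift_mk q b)⁻¹ * (Lift_mk q b * Lift_mk q a * (Lift_mk q b)⁻¹) *
                  Lift_mk q b = Lift_mk q a
                group
              rw [h4]
              exact hg)
          exact h3)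
      refine Eq.trans e2 (Eq.trans ?_ e1.symm)
      exact hl.conj w a b w.2 a.2 b.2 ((Lift_tau w).1 hω) ((Lift_stab a w).1 hg)
    · intro g
      obtain ⟨a, rfl⟩ := QuotientGroup.mk_surjective g
      have hs := hl.sum a a.2
      have h1 := Lift_fiber (q := q) hC (fun w => l a w) (fun y => lb (Lift_mk q a) y)
        (fun w => w * tau r n w ∈ Cq r q n ∧
          (a : MG r n) * w * (tau r n a)⁻¹ * w⁻¹ ∈ Cq r q n)
        (fun y => tauQ r d q n y = y⁻¹ ∧ Lift_mk q a ∈ tstab (tauQ r d q n) y)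
        (fun w => by rw [Lift_tau, Lift_stab])
        (fun w hw => (hlb a w ((Lift_tau w).2 hw.1) ((Lift_stab a w).2 hw.2)).symm)
      have h2 := Lift_fiber (q := q) hC (fun _ => 1) (fun _ => 1)
        (fun h => h * tau r n h * (a : MG r n)⁻¹ ∈ Cq r q n)
        (fun y => y * tauQ r d q n y = Lift_mk q a)
        (fun h => by
          rw [eq_comm, tauQ_mk, show Lift_mk q h * QuotientGroup.mk (tauGp r d n h) =
            Lift_mk q (h * tauGp r d n h) from rfl, Lift_eq]
          push_cast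
          rw [tauGp_coe]
          constructor
          · intro hz
            refine ⟨_, hz, ?_⟩
            group
          · rintro ⟨z, hz, h'⟩
            rw [h', mul_assoc, mul_inv_cancel, mul_one]
            exact hz)
        (fun _ _ => rfl)
      have hcard : (Nat.card ((Cq r q n).subgroupOf (Gp r d n)) : ℂ) ≠ 0 := by
        rw [Nat.card_eq_fintype_card]
        exact_mod_cast Fintype.card_ne_zero
      refine mul_left_cancel₀ hcard ?_
      rw [Finset.card_eq_sum_ones] at hs ⊢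
      push_cast at hs ⊢
      refine Eq.trans (Eq.trans ?_ hs) ?_
      · refine Eq.trans ?_ (Eq.trans h1.symm ?_)
        · congr!
        · congr!
      · refine Eq.trans ?_ (Eq.trans h2 ?_)
        · congr!
        · congr!
  refine Fam.hasGIM ?_ ?_ hfam
  · intro x
    obtain ⟨y, rfl⟩ := QuotientGroup.mk_surjective x
    rw [tauQ_mk, tauQ_mk]
    congr 1
    exact Subtype.ext (tau_tau y.1)
  · intro x
    obtain ⟨g, rfl⟩ := QuotientGroup.mk_surjective x
    obtain ⟨k, y, hk, hy⟩ := exists_conj g.1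
    have hkm : k ∈ Gp r d n := by
      rw [mem_Gp]
      rcases hd with rfl | rfl
      · exact ⟨cs k, by simp⟩
      · exact ⟨y, by rw [hy]; push_cast; rfl⟩
    refine ⟨Lift_mk q ⟨k, hkm⟩, ?_⟩
    rw [tauQ_mk]
    show Lift_mk q (tauGp r d n g) = Lift_mk q (⟨k, hkm⟩ * g⁻¹ * (⟨k, hkm⟩)⁻¹)
    congr 1
    apply Subtype.ext
    rw [tauGp_coe]
    push_cast
    have : (tau r n g.1) = (k * g.1 * k⁻¹)⁻¹ := by rw [hk, inv_inv]
    rw [this]
    group

end GIM119
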