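import Pool.Agent.Lib.MP_119ee3_al.Basic

set_option autoImplicit false

/-!
# MP_119ee3_al: Transport along an equivariant isomorphism.
-/

open Classical

noncomputable section

namespace GIM119

open MG

variable {G : Type*} [Group G] [Fintype G]

section Aux

omit [Fintype G]

variable {G' : Type*} [Group G'] {τ : G ≃* G} {τ' : G' ≃* G'}

private theorem Transfer_tau (e : G ≃* G') (he : ∀ x, e (τ x) = τ' (e x)) (x : G') :
    τ (e.symm x) = e.symm (τ' x) := by
  apply e.injective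
  rw [he, e.apply_symm_apply, e.apply_symm_apply]

private theorem Transfer_mem (e : G ≃* G') (he : ∀ x, e (τ x) = τ' (e x)) (ω h : G') :
    h ∈ tstab τ' ω ↔ e.symm h ∈ tstab τ (e.symm ω) := by
  rw [mem_tstab, mem_tstab, Transfer_tau e he, ← map_inv e.symm, ← map_mul, ← map_mul,
    e.symm.injective.eq_iff]

/-- the isomorphism of the stabilizers -/
private def Transfer_hom (e : G ≃* G') (he : ∀ x, e (τ x) = τ' (e x)) (ω : G') :
    tstab τ' ω →* tstab τ (e.symm ω) where
  toFun h := ⟨e.symm h, (Transfer_mem e he ω h).1 h.2⟩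
  map_one' := Subtype.ext (map_one e.symm)
  map_mul' g h := Subtype.ext (map_mul e.symm g.1 h.1)

private theorem Transfer_card (e : G ≃* G') (he : ∀ x, e (τ x) = τ' (e x)) (ω : G') :
    Nat.card (tstab τ' ω) = Nat.card (tstab τ (e.symm ω)) := by
  refine Nat.card_eq_of_bijective (Transfer_hom e he ω) ⟨fun a b hab => ?_, fun b => ?_⟩
  · exact Subtype.ext (e.symm.injective (congrArg Subtype.val hab))
  · refine ⟨⟨e b, (Transfer_mem e he ω _).2 ?_⟩, Subtype.ext (e.symm_apply_apply b.1)⟩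
    rw [e.symm_apply_apply]
    exact b.2

private theorem Transfer_ind [Fintype G] [Fintype G'] (e : G ≃* G')
    (he : ∀ x, e (τ x) = τ' (e x)) (l : ∀ ω : G, tstab τ ω →* ℂˣ) {ω : G} {ω' : G'}
    (hω : e.symm ω' = ω) (g : G') :
    indChar (tstab τ' ω') ((l (e.symm ω')).comp (Transfer_hom e he ω')) g =
      indChar (tstab τ ω) (l ω) (e.symm g) := by
  subst hω
  unfold indChar
  rw [Transfer_card e he ω']
  congr 1
  refine Fintype.sum_equiv e.symm.toEquiv _ _ fun x => ?_
  have hm : e.symm (x⁻¹ * g * x) = (e.symm.toEquiv x)⁻¹ * e.symm g * e.symm.toEquiv x := by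
    rw [map_mul, map_mul, map_inv]
    rfl
  by_cases h : x⁻¹ * g * x ∈ tstab τ' ω'
  · have h2 := (Transfer_mem e he ω' _).1 h
    rw [hm] at h2
    rw [dif_pos h, dif_pos h2]
    have h3 : Transfer_hom e he ω' ⟨x⁻¹ * g * x, h⟩ = ⟨_, h2⟩ := Subtype.ext hm
    rw [MonoidHom.comp_apply, h3]
  · have h2 : ¬ (e.symm.toEquiv x)⁻¹ * e.symm g * e.symm.toEquiv x ∈ tstab τ (e.symm ω') := by
      intro h3
      rw [← hm] at h3
      exact h ((Transfer_mem e he ω' _).2 h3)
    rw [dif_neg h, dif_neg h2]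

private theorem Transfer_irr (e : G ≃* G') {χ : G → ℂ} (h : IsIrrChar χ) :
    IsIrrChar (fun x => χ (e.symm x)) := by
  obtain ⟨m, ρ, hρ, rfl⟩ := h
  let ρ' : Representation ℂ G' (Fin m → ℂ) := MonoidHom.comp ρ e.symm.toMonoidHom
  refine ⟨m, ρ', ?_, rfl⟩
  let F : Subrepresentation ρ' ≃o Subrepresentation ρ :=
    { toFun := fun W => ⟨W.toSubmodule, fun g v hv => by
        have h1 : ρ' (e g) = ρ g := congrArg ρ (e.symm_apply_apply g)
        rw [← h1]
        exact W.apply_mem_toSubmodule (e g) hv⟩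
      invFun := fun W => ⟨W.toSubmodule, fun g v hv => W.apply_mem_toSubmodule (e.symm g) hv⟩
      left_inv := fun W => rfl
      right_inv := fun W => rfl
      map_rel_iff' := Iff.rfl }
  exact F.isSimpleOrder

end Aux

theorem HasGIM.transfer {G' : Type*} [Group G'] [Fintype G'] {τ : G ≃* G} {τ' : G' ≃* G'}
    (e : G ≃* G') (he : ∀ x, e (τ x) = τ' (e x)) (h : HasGIM τ) : HasGIM τ' := by
  obtain ⟨R, l, I, h1, h2, h3, h4⟩ := h
  refine ⟨R.map e.toEquiv.toEmbedding, fun ω' => (l (e.symm ω')).comp (Transfer_hom e he ω'),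
    I.image (fun χ x => χ (e.symm x)), ?_, ?_, ?_, ?_⟩
  · intro ω' hω'
    obtain ⟨ω, hω, rfl⟩ := Finset.mem_map.1 hω'
    show τ' (e ω) = (e ω)⁻¹
    rw [← he, h1 ω hω, map_inv]
  · intro ω' hω'
    have h5 : τ (e.symm ω') = (e.symm ω')⁻¹ := by
      rw [Transfer_tau e he, hω', map_inv]
    obtain ⟨x, ⟨hx, g, hg⟩, huniq⟩ := h2 _ h5
    refine ⟨e x, ⟨Finset.mem_map_of_mem e.toEquiv.toEmbedding hx, e g, ?_⟩, ?_⟩
    · rw [← he, ← map_mul, ← map_inv, ← map_mul, hg, e.apply_symm_apply]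
    · rintro y ⟨hy, g', hg'⟩
      obtain ⟨z, hz, rfl⟩ := Finset.mem_map.1 hy
      refine congrArg e (huniq z ⟨hz, e.symm g', ?_⟩)
      rw [Transfer_tau e he, ← map_inv e.symm, ← hg', map_mul, map_mul]
      congr 2
      exact (e.symm_apply_apply z).symm
  · intro χ
    rw [Finset.mem_image]
    constructor
    · rintro ⟨ψ, hψ, rfl⟩
      exact Transfer_irr e ((h3 ψ).1 hψ)
    · intro hχ
      have h5 := Transfer_irr e.symm hχ
      refine ⟨_, (h3 _).2 h5, ?_⟩
      funext x
      exact congrArg χ (e.apply_symm_apply x)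
  · intro g
    rw [Finset.sum_map, Finset.sum_image]
    · rw [← h4 (e.symm g)]
      exact Finset.sum_congr rfl fun ω _ => Transfer_ind e he l (e.symm_apply_apply ω) g
    · intro χ _ ψ _ hχψ
      funext x
      have := congrFun hχψ (e x)
      simpa using this

end GIM119
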