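import Pool.Agent.Lib.MP_119ee3_al.Basic
import Pool.Agent.Lib.MP_119ee3_al.Lift
import Pool.Agent.Lib.MP_119ee3_al.Transfer
import Pool.Agent.Lib.MP_119ee3_al.LCalg
import Pool.Agent.Lib.MP_119ee3_al.LCsum
import Pool.Agent.Lib.MP_119ee3_al.ALGE
import Pool.Agent.Lib.MP_119ee3_al.LBalg
import Pool.Agent.Lib.MP_119ee3_al.LBsum
import Pool.Agent.Lib.MP_119ee3_al.IsoArith
import Pool.Agent.Lib.MP_119ee3_al.Iso
import Pool.Agent.Lib.MP_119ee3_al.GcdEq

set_option autoImplicit false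

/-!
# MP_119ee3_al: The main theorem for gcd 2.
-/

open Classical

noncomputable section

namespace GIM119

open MG

/-- The group `G(r,2,Q,n)` has a lifted family. -/
theorem Main2_exists_ALG {r Q n : ℕ} [NeZero r] [NeZero n] (hQ : Even Q) (hQr : Q ∣ r)
    (hn : Even n) (hr : Even r) (h4 : n % 4 = 0 → Q % 4 = 2) :
    ∃ l : MG r n → MG r n → ℂ, ALG r 2 Q n l := by
  have hr0 : 0 < r := Nat.pos_of_ne_zero (NeZero.ne r)
  obtain ⟨m, hm⟩ := hQr
  have hQ0 : 0 < Q := by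
    rcases Nat.eq_zero_or_pos Q with h | h
    · rw [h] at hm
      omega
    · exact h
  by_cases hr4 : 4 ∣ r
  · by_cases hme : Even m
    · obtain ⟨k, hk⟩ := hme
      exact ⟨lC Q, ALG_C hr4 hn hQ ⟨k, by rw [hm, hk]; ring⟩⟩
    · have hmo : Odd m := Nat.not_even_iff_odd.mp hme
      have hn4 : n % 4 = 2 := by
        rcases hn with ⟨t, ht⟩
        by_contra hne
        have h0 : n % 4 = 0 := by omega
        have hQ4 := h4 h0
        have h1 : (Q * m) % 4 = 2 := by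
          have hm4 : m % 4 = 1 ∨ m % 4 = 3 := by
            obtain ⟨u, hu⟩ := hmo
            omega
          rw [Nat.mul_mod, hQ4]
          rcases hm4 with h | h <;> rw [h]
        rw [← hm] at h1
        omega
      exact ALG_E hr4 hn4 ⟨m, hm⟩ (by
        rw [hm, Nat.mul_div_cancel_left _ hQ0]
        exact hmo)
  · have hr2 : r % 4 = 2 := by
      rcases hr with ⟨t, ht⟩
      omega
    exact ⟨lB, ALG_B hr2 hn hQ ⟨m, hm⟩⟩

theorem main_two {r p q n : ℕ} [NeZero r] [NeZero n] (hp : p ∣ r) (hq : q ∣ r)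
    (hpq : p * q ∣ r * n) (h1 : Nat.gcd p n = 2) (h2 : Nat.gcd q n = 2) :
    HasGIM (tauQ r p q n) := by
  obtain ⟨hQ, hQr, hn, hr, h4⟩ := arith_q hp hq hpq h1 h2
  obtain ⟨l, hl⟩ := Main2_exists_ALG hQ hQr hn hr h4
  obtain ⟨e, he⟩ := exists_iso hp hq hpq h1 h2 hQr
  have h2p : 2 ∣ p := h1 ▸ Nat.gcd_dvd_left p n
  have hC : Cq r (p * q / 2) n ≤ Gp r 2 n := by
    refine Cq_le_Gp (even_iff_two_dvd.mp hr) hQr ?_
    rw [Nat.mul_div_cancel' (Dvd.dvd.mul_right h2p q)]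
    exact hpq
  have h := ALG.hasGIM hC (Or.inr rfl) hl
  refine HasGIM.transfer e.symm ?_ h
  intro x
  rw [MulEquiv.symm_apply_eq, he, MulEquiv.apply_symm_apply]

end GIM119
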