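import Pool.Agent.Lib.MP_119ee3_al.Basic2
import Pool.Agent.Lib.MP_119ee3_al.Lift
import Pool.Agent.Lib.MP_119ee3_al.Transfer
import Pool.Agent.Lib.MP_119ee3_al.LAsum
import Pool.Agent.Lib.MP_119ee3_al.LFsum
import Pool.Agent.Lib.MP_119ee3_al.LDsum
import Pool.Agent.Lib.MP_119ee3_al.IsoArith
import Pool.Agent.Lib.MP_119ee3_al.Iso
import Pool.Agent.Lib.MP_119ee3_al.GcdEq
import Pool.Agent.Lib.MP_119ee3_al.DZFam
import Pool.Agent.Lib.MP_119ee3_al.IsoAlpha
import Pool.Agent.Lib.MP_119ee3_al.IsoBeta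
import Pool.Agent.Lib.MP_119ee3_al.Homs1
import Pool.Agent.Lib.MP_119ee3_al.Homs2
import Pool.Agent.Lib.MP_119ee3_al.Main2

set_option autoImplicit false

/-!
# MP_119ee3_al: The main theorem.
-/

open Classical

noncomputable section

namespace GIM119

open MG

/-- The group `G(r,1,Q,n)` has a lifted family if `Q` or `n` is odd. -/
theorem Main1_exists_ALG {r Q n : ℕ} [NeZero r] [NeZero n] (hQr : Q ∣ r)
    (h : Odd Q ∨ Odd n) : ∃ l : MG r n → MG r n → ℂ, ALG r 1 Q n l := by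
  rcases Nat.even_or_odd r with hr | hr
  · have hr2 : 2 ∣ r := even_iff_two_dvd.mp hr
    rcases Nat.even_or_odd Q with hQ | hQ
    · have hn : Odd n := h.resolve_left (Nat.not_odd_iff_even.mpr hQ)
      exact ⟨lD Q, ALG_D hr2 hn hQ hQr⟩
    · exact ⟨lF Q, ALG_F hr2 hQ hQr⟩
  · exact ⟨lA, ALG_A hr hQr⟩

theorem main_one {r p q n : ℕ} [NeZero r] [NeZero n] (hp : p ∣ r) (hq : q ∣ r)
    (hpq : p * q ∣ r * n) (h1 : Nat.gcd p n = 1) (h2 : Nat.gcd q n = 1) :
    HasGIM (tauQ r p q n) := by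
  have hc : Nat.Coprime (p * q) n := Nat.Coprime.mul_left h1 h2
  have hQr : p * q / 1 ∣ r := by
    rw [Nat.div_one]
    exact Nat.Coprime.dvd_of_dvd_mul_right hc hpq
  have hodd : Odd (p * q / 1) ∨ Odd n := by
    rw [Nat.div_one]
    by_contra hcon
    push Not at hcon
    have h3 : 2 ∣ p * q := even_iff_two_dvd.mp (Nat.not_odd_iff_even.mp hcon.1)
    have h4 : 2 ∣ n := even_iff_two_dvd.mp (Nat.not_odd_iff_even.mp hcon.2)
    have h5 : 2 ∣ Nat.gcd (p * q) n := Nat.dvd_gcd h3 h4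
    rw [Nat.Coprime] at hc
    omega
  obtain ⟨l, hl⟩ := Main1_exists_ALG hQr hodd
  obtain ⟨e, he⟩ := exists_iso hp hq hpq h1 h2 hQr
  have hC : Cq r (p * q / 1) n ≤ Gp r 1 n := by
    intro g _
    exact ⟨cs g, by simp⟩
  have h := ALG.hasGIM hC (Or.inl rfl) hl
  refine HasGIM.transfer e.symm ?_ h
  intro x
  rw [MulEquiv.symm_apply_eq, he, MulEquiv.apply_symm_apply]

theorem DZ_hasGIM {r m : ℕ} [NeZero r] [NeZero m] (hr : 2 ∣ r) (hm : Odd m) :
    HasGIM (tauDZ r m) := by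
  refine Fam.hasGIM ?_ ?_ (DZ_fam hr hm)
  · rintro ⟨a | a, z⟩ <;> simp
  · rintro ⟨a | a, z⟩
    · refine ⟨1, ?_⟩
      simp
    · refine ⟨(DihedralGroup.r a, 1), ?_⟩
      ext
      · simp
        try ring
      · simp

/-- If `G(r,p,q,2)` with `p` even and `q` odd is isomorphic to `G(r,q,p,2)` then `r/(pq)` is
an odd integer. -/
theorem odd_of_iso {r p q : ℕ} [NeZero r] (hp : p ∣ r) (hq : q ∣ r) (hpq : p * q ∣ r * 2)
    (h : Even p) (h' : Odd q) (e : PRG r p q 2 ≃* PRG r q p 2) :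
    ∃ m, Odd m ∧ r = p * q * m := by
  have hr0 : r ≠ 0 := NeZero.ne r
  obtain ⟨r', hr'⟩ := hp
  have hp0 : 0 < p := by
    rcases Nat.eq_zero_or_pos p with h0 | h0
    · rw [h0] at hr'
      omega
    · exact h0
  obtain ⟨k, hk⟩ := hpq
  have h1 : r' * 2 = q * k := by
    have h2 : p * (r' * 2) = p * (q * k) := by
      rw [← mul_assoc, ← hr', hk]
      ring
    exact Nat.eq_of_mul_eq_mul_left hp0 h2
  have h3 : 2 ∣ k := by
    have h4 : 2 ∣ q * k := ⟨r', by rw [← h1]; ring⟩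
    rcases (Nat.prime_two.dvd_mul).mp h4 with h5 | h5
    · obtain ⟨t, ht⟩ := h'
      omega
    · exact h5
  obtain ⟨m, hm⟩ := h3
  have hrm : r = p * q * m := by
    have h4 : r' = q * m := by
      have h5 : 2 * r' = 2 * (q * m) := by
        rw [mul_comm 2 r', h1, hm]
        ring
      omega
    rw [hr', h4]
    ring
  refine ⟨m, ?_, hrm⟩
  by_contra hcon
  have h5 := eight_le_homs hrm h (Nat.not_odd_iff_even.mp hcon)
  have h6 := homs_le_four (r := r) (p := p) h' hq ⟨r', hr'⟩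
  have h7 : Nat.card (PRG r p q 2 →* ℤˣ) = Nat.card (PRG r q p 2 →* ℤˣ) :=
    Nat.card_congr (MulEquiv.monoidHomCongrLeftEquiv e)
  omega

/-- The main theorem. -/
theorem main_all {r p q n : ℕ} [NeZero r] [NeZero n] (hp : p ∣ r) (hq : q ∣ r)
    (hpq : p * q ∣ r * n) (hg : Nat.gcd p n ≤ 2) (e : PRG r p q n ≃* PRG r q p n) :
    HasGIM (tauQ r p q n) := by
  have hr0 : r ≠ 0 := NeZero.ne r
  have hn0 : n ≠ 0 := NeZero.ne n
  have hp0 : 0 < p := Nat.pos_of_dvd_of_pos hp (Nat.pos_of_ne_zero hr0)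
  have hq0 : 0 < q := Nat.pos_of_dvd_of_pos hq (Nat.pos_of_ne_zero hr0)
  have hgp : 0 < Nat.gcd p n := Nat.gcd_pos_of_pos_left n hp0
  by_cases heq : Nat.gcd p n = Nat.gcd q n
  · rcases (by omega : Nat.gcd p n = 1 ∨ Nat.gcd p n = 2) with h | h
    · exact main_one hp hq hpq h (heq ▸ h)
    · exact main_two hp hq hpq h (heq ▸ h)
  · have hn3 : n < 3 := by
      by_contra hcon
      exact heq (gcd_eq_of_iso (by omega) hp hq hpq e)
    have hn2 : n = 2 := by
      have h1 : n ≠ 1 := by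
        rintro rfl
        exact heq (by simp)
      omega
    subst hn2
    rcases Nat.even_or_odd p with hpe | hpo
    · rcases Nat.even_or_odd q with hqe | hqo
      · exfalso
        apply heq
        rw [Nat.gcd_eq_right (even_iff_two_dvd.mp hpe), Nat.gcd_eq_right (even_iff_two_dvd.mp hqe)]
      · obtain ⟨m, hm, hrm⟩ := odd_of_iso hp hq hpq hpe hqo e
        have : NeZero m := ⟨by
          rintro rfl
          simp at hm⟩
        obtain ⟨f, hf⟩ := iso_beta hrm hpe hqo hm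
        have hr2 : 2 ∣ r := Dvd.dvd.trans (even_iff_two_dvd.mp hpe) hp
        refine HasGIM.transfer f.symm ?_ (DZ_hasGIM hr2 hm)
        intro x
        rw [MulEquiv.symm_apply_eq, hf, MulEquiv.apply_symm_apply]
    · rcases Nat.even_or_odd q with hqe | hqo
      · have hpq' : q * p ∣ r * 2 := by
          rw [mul_comm q p]
          exact hpq
        obtain ⟨m, hm, hrm⟩ := odd_of_iso hq hp hpq' hqe hpo e.symm
        have : NeZero m := ⟨by
          rintro rfl
          simp at hm⟩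
        obtain ⟨f, hf⟩ := iso_alpha (hrm.trans (by ring)) hpo hqe hm
        have hr2 : 2 ∣ r := Dvd.dvd.trans (even_iff_two_dvd.mp hqe) hq
        refine HasGIM.transfer f.symm ?_ (DZ_hasGIM hr2 hm)
        intro x
        rw [MulEquiv.symm_apply_eq, hf, MulEquiv.apply_symm_apply]
      · exfalso
        apply heq
        rw [Nat.coprime_two_right.mpr hpo, Nat.coprime_two_right.mpr hqo]

end GIM119
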